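import Pool.Agent.MP_c481b3_nt.H31F.Spec

set_option autoImplicit false

namespace Pool.Agent.MP_c481b3_nt.H31F

open UpperHalfPlane hiding I
open Complex Filter Topology
open scoped Real

namespace K4Aux

lemma G_eq (L : PeriodPair) (n : ℕ) :
    L.G n = ∑' x : ℤ × ℤ, ((x.1 * L.ω₁ + x.2 * L.ω₂) ^ n)⁻¹ := by
  rw [PeriodPair.G, ← L.latticeEquivProd.symm.toEquiv.tsum_eq]
  refine tsum_congr fun x => ?_
  rw [← L.latticeEquiv_symm_apply]
  rfl

lemma G_Lt (τ : ℍ) {k : ℕ} (hk : 3 ≤ k) :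
    (Lt τ).G k = 2 * riemannZeta k * ModularForm.E hk τ := by
  have h := tsum_eisSummand_eq_riemannZeta_mul_eisensteinSeries hk τ
  rw [← (finTwoArrowEquiv ℤ).symm.tsum_eq] at h
  rw [G_eq, show ModularForm.E hk τ = (1 / 2 : ℂ) • eisensteinSeries (N := 1) 0 k τ from rfl,
    smul_eq_mul]
  have e : ∑' x : ℤ × ℤ, (((x.1 : ℂ) * (Lt τ).ω₁ + x.2 * (Lt τ).ω₂) ^ k)⁻¹ =
      ∑' c : ℤ × ℤ, EisensteinSeries.eisSummand k ((finTwoArrowEquiv ℤ).symm c) τ :=
    tsum_congr fun x => by simp [EisensteinSeries.eisSummand, Lt]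
  rw [e, h]
  ring

lemma zeta_six : riemannZeta 6 = π ^ 6 / 945 := by
  have h := riemannZeta_two_mul_nat (k := 3) (by norm_num)
  have b : bernoulli 6 = 1 / 42 := by
    rw [bernoulli_eq_bernoulli'_of_ne_one (by norm_num)]
    have h5 : bernoulli' 5 = 0 := bernoulli'_eq_zero_of_odd (by decide) (by norm_num)
    rw [bernoulli'_def]
    norm_num [Finset.sum_range_succ, Nat.choose, h5]
  norm_num [b, Nat.factorial] at h
  rw [h]
  ring

/-- the lattice multiplied by a scalar -/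
def scale (L : PeriodPair) (c : ℂ) (hc : c ≠ 0) : PeriodPair := ⟨c * L.ω₁, c * L.ω₂, by
  rw [LinearIndependent.pair_iff]
  intro s t h
  refine LinearIndependent.pair_iff.1 L.indep s t (mul_left_cancel₀ hc ?_)
  simp only [real_smul] at h ⊢
  linear_combination h⟩

lemma G_scale (L : PeriodPair) (c : ℂ) (hc : c ≠ 0) (n : ℕ) :
    (scale L c hc).G n = (c ^ n)⁻¹ * L.G n := by
  rw [G_eq, G_eq, ← tsum_mul_left]
  refine tsum_congr fun x => ?_
  rw [← mul_inv, ← mul_pow]
  simp only [scale]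
  ring_nf

lemma near (L L' : PeriodPair) (h2 : L.g₂ = L'.g₂) (h3 : L.g₃ = L'.g₃) :
    ∀ᶠ z in 𝓝 (0 : ℂ), L.weierstrassPExcept 0 z - L'.weierstrassPExcept 0 z = 0 := by
  set p := L.weierstrassPExcept 0 with hp
  set q := L'.weierstrassPExcept 0 with hq
  have ap : AnalyticAt ℂ p 0 := L.analyticAt_weierstrassPExcept 0
  have aq : AnalyticAt ℂ q 0 := L'.analyticAt_weierstrassPExcept 0
  by_contra hne
  obtain ⟨k, u, au, u0, hu⟩ :=
    (AnalyticAt.exists_eventuallyEq_pow_smul_nonzero_iff (ap.sub aq)).2 hne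
  have hu' : (fun z => p z - q z) =ᶠ[𝓝 0] fun z => z ^ k * u z := by
    filter_upwards [hu] with z hz
    simpa using hz
  have key : ∀ᶠ z in 𝓝[≠] (0 : ℂ), (k * u z + z * deriv u z) * (z ^ 3 * (deriv p z + deriv q z) - 4)
      = u z * (4 * ((1 + z ^ 2 * p z) ^ 2 + (1 + z ^ 2 * p z) * (1 + z ^ 2 * q z)
        + (1 + z ^ 2 * q z) ^ 2) - L.g₂ * z ^ 4) := by
    filter_upwards [self_mem_nhdsWithin,
      nhdsWithin_le_nhds (L.compl_lattice_sdiff_singleton_mem_nhds 0),
      nhdsWithin_le_nhds (L'.compl_lattice_sdiff_singleton_mem_nhds 0),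
      nhdsWithin_le_nhds hu', nhdsWithin_le_nhds hu'.deriv,
      nhdsWithin_le_nhds ap.eventually_analyticAt, nhdsWithin_le_nhds aq.eventually_analyticAt,
      nhdsWithin_le_nhds au.eventually_analyticAt] with z hz z1 z2 e1 e2 a1 a2 a3
    have hz0 : z ≠ 0 := hz
    have n1 : z ∉ L.lattice := fun h => z1 ⟨h, hz0⟩
    have n2 : z ∉ L'.lattice := fun h => z2 ⟨h, hz0⟩
    have r1 := L.derivWeierstrassP_sq z n1
    have r2 := L'.derivWeierstrassP_sq z n2
    have d1 : deriv p z = _ := L.eqOn_deriv_weierstrassPExcept_derivWeierstrassPExcept 0 z1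
    have d2 : deriv q z = _ := L'.eqOn_deriv_weierstrassPExcept_derivWeierstrassPExcept 0 z2
    have s1 := L.derivWeierstrassPExcept_sub 0 z
    have s2 := L'.derivWeierstrassPExcept_sub 0 z
    have t1 := L.weierstrassPExcept_add 0 z
    have t2 := L'.weierstrassPExcept_add 0 z
    simp only [ZeroMemClass.coe_zero, sub_zero, ne_eq, OfNat.ofNat_ne_zero, not_false_eq_true,
      zero_pow, div_zero] at s1 s2 t1 t2
    rw [← s1, ← t1, ← d1, ← hp] at r1
    rw [← s2, ← t2, ← d2, ← hq, ← h2, ← h3] at r2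
    have e3 : z * (deriv p z - deriv q z) = z ^ k * (k * u z + z * deriv u z) := by
      have hd : HasDerivAt (fun z => z ^ k * u z) (k * z ^ (k - 1) * u z + z ^ k * deriv u z) z :=
        (hasDerivAt_pow k z).mul a3.differentiableAt.hasDerivAt
      have hd' : HasDerivAt (fun z => p z - q z) (deriv p z - deriv q z) z :=
        a1.differentiableAt.hasDerivAt.sub a2.differentiableAt.hasDerivAt
      rw [hd.deriv, hd'.deriv] at e2
      rw [e2]
      cases k with
      | zero => simp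
      | succ k => simp only [Nat.add_sub_cancel]; ring
    refine mul_left_cancel₀ (pow_ne_zero k hz0) ?_
    rw [← mul_assoc, ← mul_assoc, ← e3, ← e1]
    field_simp at r1 r2
    refine mul_left_cancel₀ (pow_ne_zero 2 hz0) ?_
    linear_combination r1 - r2
  have ad := au.deriv
  have ap' := ap.deriv
  have aq' := aq.deriv
  have c1 : ContinuousAt (fun z : ℂ => (k * u z + z * deriv u z) *
      (z ^ 3 * (deriv p z + deriv q z) - 4)) 0 := AnalyticAt.continuousAt (𝕜 := ℂ) (by fun_prop)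
  have c2 : ContinuousAt (fun z : ℂ => u z * (4 * ((1 + z ^ 2 * p z) ^ 2 + (1 + z ^ 2 * p z) *
      (1 + z ^ 2 * q z) + (1 + z ^ 2 * q z) ^ 2) - L.g₂ * z ^ 4)) 0 :=
    AnalyticAt.continuousAt (𝕜 := ℂ) (by fun_prop)
  have e := tendsto_nhds_unique_of_eventuallyEq (c1.tendsto.mono_left nhdsWithin_le_nhds)
    (c2.tendsto.mono_left nhdsWithin_le_nhds) key
  have e' : u 0 * ((4 * k + 12 : ℕ) : ℂ) = 0 := by
    push_cast
    linear_combination -e
  exact mul_ne_zero u0 (Nat.cast_ne_zero.2 (by omega)) e'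

lemma lattice_le (L L' : PeriodPair) (h2 : L.g₂ = L'.g₂) (h3 : L.g₃ = L'.g₃) :
    L.lattice ≤ L'.lattice := by
  intro x hx
  by_contra hx'
  have m : Meromorphic (L.weierstrassP - L'.weierstrassP) :=
    L.meromorphic_weierstrassP.sub L'.meromorphic_weierstrassP
  have h0 : meromorphicOrderAt (L.weierstrassP - L'.weierstrassP) 0 = ⊤ := by
    rw [meromorphicOrderAt_eq_top_iff]
    filter_upwards [nhdsWithin_le_nhds (near L L' h2 h3)] with z hz
    have t1 := L.weierstrassPExcept_add 0 z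
    have t2 := L'.weierstrassPExcept_add 0 z
    simp only [ZeroMemClass.coe_zero] at t1 t2
    rw [Pi.sub_apply, ← t1, ← t2]
    linear_combination hz
  have hx0 : meromorphicOrderAt (L.weierstrassP - L'.weierstrassP) x = ⊤ := by
    by_contra hne
    exact (m.meromorphicOn (s := Set.univ)).meromorphicOrderAt_ne_top_of_isPreconnected
      isPreconnected_univ (Set.mem_univ x) (Set.mem_univ 0) hne h0
  rw [meromorphicOrderAt_eq_top_iff] at hx0
  have e : L.weierstrassP =ᶠ[𝓝[≠] x] L'.weierstrassP := by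
    filter_upwards [hx0] with z hz
    exact sub_eq_zero.1 hz
  have o := (L'.analyticOnNhd_weierstrassP x hx').meromorphicOrderAt_nonneg
  rw [← meromorphicOrderAt_congr e, L.order_weierstrassP x hx] at o
  exact absurd o (by decide)

lemma exists_scale {a b a' b' t : ℂ} (hD : a ^ 3 - b ^ 2 ≠ 0) (ht : t ≠ 0)
    (ha : a' ^ 3 = t * a ^ 3) (hb : b' ^ 2 = t * b ^ 2) :
    ∃ μ : ℂ, μ ≠ 0 ∧ a' = μ ^ 4 * a ∧ b' = μ ^ 6 * b := by
  by_cases a0 : a = 0
  · have b0 : b ≠ 0 := fun h => hD (by simp [a0, h])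
    have b0' : b' ≠ 0 := fun h => mul_ne_zero ht (pow_ne_zero 2 b0) (by rw [← hb, h]; ring)
    obtain ⟨μ, hμ⟩ := IsAlgClosed.exists_pow_nat_eq (b' / b) (n := 6) (by norm_num)
    refine ⟨μ, fun h => div_ne_zero b0' b0 (by rw [← hμ, h]; ring), ?_, by rw [hμ]; field_simp⟩
    rw [a0] at ha ⊢
    simpa using ha
  have a0' : a' ≠ 0 := fun h => mul_ne_zero ht (pow_ne_zero 3 a0) (by rw [← ha, h]; ring)
  by_cases b0 : b = 0
  · obtain ⟨μ, hμ⟩ := IsAlgClosed.exists_pow_nat_eq (a' / a) (n := 4) (by norm_num)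
    refine ⟨μ, fun h => div_ne_zero a0' a0 (by rw [← hμ, h]; ring), by rw [hμ]; field_simp, ?_⟩
    rw [b0] at hb ⊢
    simpa using hb
  have b0' : b' ≠ 0 := fun h => mul_ne_zero ht (pow_ne_zero 2 b0) (by rw [← hb, h]; ring)
  obtain ⟨μ, hμ⟩ := IsAlgClosed.exists_pow_nat_eq (b' * a / (b * a')) (n := 2) (by norm_num)
  have e : a' = μ ^ 4 * a := by
    rw [show μ ^ 4 = (μ ^ 2) ^ 2 by ring, hμ]
    field_simp
    linear_combination b ^ 2 * ha - a ^ 3 * hb
  refine ⟨μ, fun h => a0' (by rw [e, h]; ring), e, ?_⟩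
  rw [show μ ^ 6 * b = μ ^ 2 * (μ ^ 4 * a) * b / a by field_simp, ← e, hμ]
  field_simp

end K4Aux

open K4Aux

theorem u1 : U1 := by
  intro τ
  have h4 := G_Lt τ (k := 4) (by norm_num)
  have h6 := G_Lt τ (k := 6) (by norm_num)
  rw [PeriodPair.g₂, PeriodPair.g₃, h4, h6]
  push_cast
  rw [riemannZeta_four, zeta_six]
  constructor <;> ring

theorem k4_of (h : YS1) (h' : U1) : K4 := by
  intro τ τ' hJ
  have n := pow_ne_zero 2 (h.ne τ)
  have n' := pow_ne_zero 2 (h.ne τ')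
  have hD : ModularForm.E₄ τ ^ 3 - ModularForm.E₆ τ ^ 2 ≠ 0 := fun e => n (by
    rw [h.disc, ModularForm.discriminant_eq_E₄_cube_sub_E₆_sq, e, zero_div])
  have ha : ModularForm.E₄ τ' ^ 3 = dl τ' ^ 2 / dl τ ^ 2 * ModularForm.E₄ τ ^ 3 := by
    have := hJ
    rw [h.eJ, h.eJ, eq_div_iff n'] at this
    rw [← this]
    ring
  have hb : ModularForm.E₆ τ' ^ 2 = dl τ' ^ 2 / dl τ ^ 2 * ModularForm.E₆ τ ^ 2 := by
    have := hJ
    rw [JJ, JJ, add_left_inj, YY, YY, div_pow, div_pow, eq_div_iff n'] at this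
    rw [← this]
    ring
  obtain ⟨μ, μ0, e4, e6⟩ := exists_scale hD (div_ne_zero n' n) ha hb
  have g2 : (Lt τ).g₂ = (scale (Lt τ') μ μ0).g₂ := by
    change _ = 60 * PeriodPair.G _ 4
    rw [G_scale, mul_left_comm, ← PeriodPair.g₂, (h' τ).1, (h' τ').1, e4]
    field_simp
  have g3 : (Lt τ).g₃ = (scale (Lt τ') μ μ0).g₃ := by
    change _ = 140 * PeriodPair.G _ 6
    rw [G_scale, mul_left_comm, ← PeriodPair.g₃, (h' τ).2, (h' τ').2, e6]
    field_simp
  have l1 := lattice_le _ _ g2 g3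
  have l2 := lattice_le _ _ g2.symm g3.symm
  obtain ⟨a, b, hab⟩ := PeriodPair.mem_lattice.1 (l2 (PeriodPair.ω₁_mem_lattice _))
  obtain ⟨c, d, hcd⟩ := PeriodPair.mem_lattice.1 (l2 (PeriodPair.ω₂_mem_lattice _))
  obtain ⟨a', b', hab'⟩ := PeriodPair.mem_lattice.1 (l1 (PeriodPair.ω₁_mem_lattice _))
  obtain ⟨c', d', hcd'⟩ := PeriodPair.mem_lattice.1 (l1 (PeriodPair.ω₂_mem_lattice _))
  simp only [scale, Lt, mul_one] at hab hcd hab' hcd'
  have ind : ∀ s t : ℤ, (s : ℂ) * τ + t = 0 → s = 0 ∧ t = 0 := by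
    intro s t e
    have := LinearIndependent.pair_iff.1 (Lt τ).indep s t (by simpa [Lt] using e)
    exact_mod_cast this
  obtain ⟨i1, i2⟩ := ind (a' * a + b' * c - 1) (a' * b + b' * d) (by
    push_cast
    linear_combination a' * hab + b' * hcd + hab')
  obtain ⟨i3, i4⟩ := ind (c' * a + d' * c) (c' * b + d' * d - 1) (by
    push_cast
    linear_combination c' * hab + d' * hcd + hcd')
  have hdet : (a * d - b * c) * (a' * d' - b' * c') = 1 := by
    linear_combination (c' * b + d' * d) * i1 + i4 - (c' * a + d' * c) * i2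
  have him : ((a * d - b * c : ℤ) : ℝ) * τ.im = normSq μ * τ'.im := by
    have e : ((a : ℂ) * τ + b) * (starRingEnd ℂ) (c * τ + d) = normSq μ * τ' := by
      rw [hab, hcd, normSq_eq_conj_mul_self]
      ring
    have := congrArg Complex.im e
    simp at this
    push_cast
    linear_combination this
  have hpos : 0 < a * d - b * c := by
    have h1 : 0 < normSq μ * τ'.im := mul_pos (normSq_pos.2 μ0) τ'.im_pos
    rw [← him] at h1
    exact_mod_cast (mul_pos_iff_of_pos_right τ.im_pos).1 h1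
  have hd : (!![a, b; c, d] : M2).det = 1 := by
    rw [Matrix.det_fin_two_of]
    rcases Int.eq_one_or_neg_one_of_mul_eq_one hdet with e | e <;> omega
  refine ⟨!![a, b; c, d], hd, ?_⟩
  ext
  rw [coe_act (by rw [hd]; exact one_pos), den]
  simp only [Matrix.of_apply, Matrix.cons_val', Matrix.cons_val_zero, Matrix.cons_val_one,
    Matrix.cons_val_fin_one]
  rw [hab, hcd]
  field_simp

end Pool.Agent.MP_c481b3_nt.H31F
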