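import Pool.Agent.MP_c481b3_nt.H31F.Spec

set_option autoImplicit false

namespace Pool.Agent.MP_c481b3_nt.H31F

namespace MatAux

open Finset UpperHalfPlane

lemma eps_eq (M : M2) : eps M = if (M 0 0 : ZMod 2) * (M 1 0 : ZMod 2) + (M 0 1 : ZMod 2) * M 1 0
    + (M 0 1 : ZMod 2) * M 1 1 = 0 then 1 else -1 := by
  unfold eps
  congr 1
  rw [← ZMod.intCast_eq_zero_iff_even]
  push_cast
  rfl

lemma odd_det {M : M2} (h : Odd M.det) :
    (M 0 0 : ZMod 2) * (M 1 1 : ZMod 2) - (M 0 1 : ZMod 2) * M 1 0 = 1 := by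
  rw [← ZMod.intCast_eq_one_iff_odd, Matrix.det_fin_two] at h
  push_cast at h
  exact h

lemma epsm (A B : M2) (hA : Odd A.det) (hB : Odd B.det) : eps (A * B) = eps A * eps B := by
  have h1 := odd_det hA
  have h2 := odd_det hB
  simp only [eps_eq, Matrix.mul_apply, Fin.sum_univ_two]
  push_cast
  revert h1 h2
  generalize (A 0 0 : ZMod 2) = a, (A 0 1 : ZMod 2) = b, (A 1 0 : ZMod 2) = c,
    (A 1 1 : ZMod 2) = d, (B 0 0 : ZMod 2) = e, (B 0 1 : ZMod 2) = f, (B 1 0 : ZMod 2) = g,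
    (B 1 1 : ZMod 2) = h
  revert a b c d e f g h
  decide

lemma epsc (A B : M2) (h : Cong 2 A B) : eps A = eps B := by
  have : ∀ i j, (A i j : ZMod 2) = B i j := fun i j =>
    ((ZMod.intCast_eq_intCast_iff_dvd_sub _ _ 2).2 (h i j)).symm
  simp only [eps_eq, this]

lemma mem (s m : ℕ) (H : M2) : H ∈ Hk s m ↔ ∃ a d b : ℕ, 0 < a ∧ 0 < d ∧ a * d = m ∧ b < d ∧
    H = !![(a : ℤ), ((s * b : ℕ) : ℤ); 0, (d : ℤ)] := by
  unfold Hk
  rw [mem_image]
  constructor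
  · rintro ⟨⟨d, b⟩, hx, rfl⟩
    obtain ⟨h1, h2⟩ := mem_sigma.1 hx
    have hd := Nat.pos_of_mem_divisors h1
    obtain ⟨h3, h4⟩ := Nat.mem_divisors.1 h1
    exact ⟨m / d, d, b, Nat.div_pos (Nat.le_of_dvd (Nat.pos_of_ne_zero h4) h3) hd, hd,
      Nat.div_mul_cancel h3, mem_range.1 h2, rfl⟩
  · rintro ⟨a, d, b, ha, hd, rfl, hb, rfl⟩
    refine ⟨⟨d, b⟩, mem_sigma.2 ⟨Nat.mem_divisors.2 ⟨dvd_mul_left _ _, by positivity⟩,
      mem_range.2 hb⟩, ?_⟩
    simp only [Nat.mul_div_cancel _ hd]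

lemma sum (s m : ℕ) (hs : 0 < s) (A : Type) [AddCommMonoid A] (f : M2 → A) : ∑ H ∈ Hk s m, f H
    = ∑ d ∈ m.divisors, ∑ b ∈ range d,
      f !![((m / d : ℕ) : ℤ), ((s * b : ℕ) : ℤ); 0, (d : ℤ)] := by
  unfold Hk
  rw [sum_image, sum_sigma]
  rintro ⟨d, b⟩ - ⟨d', b'⟩ - h
  have h1 : (d : ℤ) = d' := congrFun (congrFun h 1) 1
  have h2 : ((s * b : ℕ) : ℤ) = (s * b' : ℕ) := congrFun (congrFun h 0) 1
  obtain rfl : d = d' := by exact_mod_cast h1
  obtain rfl : b = b' := Nat.eq_of_mul_eq_mul_left hs (by exact_mod_cast h2)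
  rfl

lemma hnf (s m : ℕ) (M : M2) (hm : 0 < m) (hs : s.Coprime m) (h : M.det = m) :
    ∃ γ : M2, ∃ H ∈ Hk s m, γ.det = 1 ∧ M = γ * H := by
  rw [Matrix.det_fin_two] at h
  have hm' : (0 : ℤ) < m := by exact_mod_cast hm
  have hg : 0 < Int.gcd (M 0 0) (M 1 0) := by
    rw [Int.gcd_pos_iff]
    by_contra hc
    push Not at hc
    rw [hc.1, hc.2] at h
    omega
  obtain ⟨a, c, hac, ha, hc⟩ := Int.exists_gcd_one hg
  set g := Int.gcd (M 0 0) (M 1 0)
  obtain ⟨u, v, huv⟩ := Int.isCoprime_iff_gcd_eq_one.2 hac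
  have hg' : (0 : ℤ) < g := by exact_mod_cast hg
  have hD : (g : ℤ) * (a * M 1 1 - c * M 0 1) = m := by rw [← h, ha, hc]; ring
  have hD0 : 0 < a * M 1 1 - c * M 0 1 := (mul_pos_iff_of_pos_left hg').1 (hD ▸ hm')
  obtain ⟨D, hDe⟩ := Int.eq_ofNat_of_zero_le hD0.le
  rw [hDe] at hD hD0
  have hgD : g * D = m := by exact_mod_cast hD
  have hsD : s.Coprime D := hs.coprime_dvd_right ⟨g, by rw [← hgD, mul_comm]⟩
  obtain ⟨t, w, htw⟩ := Nat.isCoprime_iff_coprime.2 hsD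
  set B := u * M 0 1 + v * M 1 1 with hB
  obtain ⟨b, hb⟩ := Int.eq_ofNat_of_zero_le (Int.emod_nonneg (B * t) hD0.ne')
  have hb1 : (b : ℤ) < D := hb ▸ Int.emod_lt_of_pos _ hD0
  have hb2 := Int.emod_add_mul_ediv (B * t) D
  rw [hb] at hb2
  set q := B * t / D
  refine ⟨!![a, a * (B * w + s * q) - v; c, c * (B * w + s * q) + u], _,
    (mem s m _).2 ⟨g, D, b, hg, by exact_mod_cast hD0, hgD, by exact_mod_cast hb1, rfl⟩, ?_, ?_⟩
  · rw [Matrix.det_fin_two_of]; linear_combination huv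
  · have hk : (s : ℤ) * b + (B * w + s * q) * D = B := by linear_combination s * hb2 + B * htw
    ext i j
    fin_cases i <;> fin_cases j <;> simp [Matrix.mul_apply, Fin.sum_univ_two]
    · exact ha
    · linear_combination (-a) * hk - a * hB - v * hDe - M 0 1 * huv
    · exact hc
    · linear_combination (-c) * hk - c * hB + u * hDe - M 1 1 * huv

lemma uniq (s m : ℕ) (γ H H' : M2) (hs : s.Coprime m) (hγ : γ.det = 1) (h : H ∈ Hk s m)
    (h' : H' ∈ Hk s m) (e : γ * H = H') : H = H' := by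
  obtain ⟨a, d, b, ha, hd, hm, hb, rfl⟩ := (mem _ _ _).1 h
  obtain ⟨a', d', b', ha', hd', hm', hb', rfl⟩ := (mem _ _ _).1 h'
  have e00 := congrFun (congrFun e 0) 0
  have e01 := congrFun (congrFun e 0) 1
  have e10 := congrFun (congrFun e 1) 0
  have e11 := congrFun (congrFun e 1) 1
  simp [Matrix.mul_apply, Fin.sum_univ_two, ha.ne'] at e00 e01 e10 e11
  rw [Matrix.det_fin_two, e10, mul_zero, sub_zero] at hγ
  rw [e10, zero_mul, zero_add] at e11
  have h11 : γ 1 1 = 1 := by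
    rcases Int.eq_one_or_neg_one_of_mul_eq_one' hγ with h | h
    · exact h.2
    · rw [h.2] at e11; omega
  have h00 : γ 0 0 = 1 := by rwa [h11, mul_one] at hγ
  rw [h11, one_mul] at e11
  rw [h00, one_mul] at e00 e01
  obtain rfl : a = a' := by exact_mod_cast e00
  obtain rfl : d = d' := by exact_mod_cast e11
  have hsD : s.Coprime d := hs.coprime_dvd_right ⟨a, by rw [← hm, mul_comm]⟩
  have h1 : (d : ℤ) ∣ (b' : ℤ) - b :=
    (Nat.isCoprime_iff_coprime.2 hsD.symm).dvd_of_dvd_mul_left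
      ⟨γ 0 1, by linear_combination -e01⟩
  obtain rfl : b = b' := by
    have := Int.eq_zero_of_abs_lt_dvd h1 (by rw [abs_lt]; constructor <;> omega)
    omega
  rfl

lemma det_mem {s m : ℕ} {H : M2} (h : H ∈ Hk s m) : 0 < m ∧ H.det = m := by
  obtain ⟨a, d, b, ha, hd, rfl, hb, rfl⟩ := (mem _ _ _).1 h
  exact ⟨by positivity, by simp [Matrix.det_fin_two_of]⟩

lemma eps_mem {m : ℕ} {H : M2} (h : H ∈ Hk 2 m) : eps H = 1 := by
  obtain ⟨a, d, b, ha, hd, rfl, hb, rfl⟩ := (mem _ _ _).1 h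
  rw [eps, if_pos]
  simp

lemma perm (s m : ℕ) (γ : M2) (hs : s.Coprime m) (hγ : γ.det = 1) : ∃ σ : M2 → M2,
    Set.BijOn σ (Hk s m) (Hk s m) ∧ ∀ H ∈ Hk s m, ∃ γ' : M2, γ'.det = 1 ∧ H * γ = γ' * σ H ∧
      (s = 2 → eps γ' = eps γ) := by
  have key : ∀ H : M2, ∃ H' γ' : M2, H ∈ Hk s m → H' ∈ Hk s m ∧ γ'.det = 1 ∧ H * γ = γ' * H' :=
    fun H => by
    by_cases h : H ∈ Hk s m
    · obtain ⟨γ', H', h1, h2, h3⟩ := hnf s m (H * γ) (det_mem h).1 hs (by
        rw [Matrix.det_mul, hγ, mul_one, (det_mem h).2])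
      exact ⟨H', γ', fun _ => ⟨h1, h2, h3⟩⟩
    · exact ⟨0, 0, fun h' => absurd h' h⟩
  choose σ g hσ using key
  have hmap : Set.MapsTo σ (Hk s m) (Hk s m) := fun H h => (hσ H h).1
  refine ⟨σ, ((Hk s m).finite_toSet.injOn_iff_bijOn_of_mapsTo hmap).1 ?_, fun H h =>
    ⟨g H, (hσ H h).2.1, (hσ H h).2.2, ?_⟩⟩
  · intro H₁ h₁ H₂ h₂ e
    obtain ⟨-, d1, e1⟩ := hσ H₁ h₁
    obtain ⟨-, d2, e2⟩ := hσ H₂ h₂
    refine uniq s m (g H₂ * (g H₁).adjugate) H₁ H₂ hs ?_ h₁ h₂ ?_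
    · rw [Matrix.det_mul, Matrix.det_adjugate, d1, d2]; simp
    · have a1 : γ * γ.adjugate = 1 := by rw [Matrix.mul_adjugate, hγ, one_smul]
      have a2 : (g H₁).adjugate * g H₁ = 1 := by rw [Matrix.adjugate_mul, d1, one_smul]
      calc g H₂ * (g H₁).adjugate * H₁
          = g H₂ * (g H₁).adjugate * (H₁ * γ) * γ.adjugate := by
            simp only [mul_assoc, a1, mul_one]
        _ = g H₂ * ((g H₁).adjugate * g H₁) * σ H₂ * γ.adjugate := by
            rw [e1, e]; simp only [mul_assoc]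
        _ = H₂ := by rw [a2, mul_one, ← e2, mul_assoc, a1, mul_one]
  · rintro rfl
    obtain ⟨h1, d1, e1⟩ := hσ H h
    have hm : Odd (m : ℤ) := by exact_mod_cast (Nat.coprime_two_left.1 hs)
    have := congrArg eps e1
    rw [epsm _ _ ((det_mem h).2 ▸ hm) (hγ ▸ odd_one), epsm _ _ (d1 ▸ odd_one) ((det_mem h1).2 ▸ hm),
      eps_mem h, eps_mem h1, one_mul, mul_one] at this
    exact this.symm

lemma fac (p : ℕ) (M : M2) (hp : p.Prime) (h : 0 < M.det) (hd : (p : ℤ) ∣ M.det) :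
    ∃ M₁ M' : M2, M₁.det = p ∧ M = M₁ * M' := by
  obtain ⟨m, hm⟩ := Int.eq_ofNat_of_zero_le h.le
  obtain ⟨γ, H, h1, h2, rfl⟩ := hnf 1 m M (by rw [hm] at h; exact_mod_cast h) (by simp) hm
  obtain ⟨a, d, b, ha, hd0, rfl, hb, rfl⟩ := (mem _ _ _).1 h1
  rw [hm] at hd
  have hd' : p ∣ a * d := by exact_mod_cast hd
  by_cases hpd : p ∣ d
  · obtain ⟨e, rfl⟩ := hpd
    refine ⟨γ * !![1, 0; 0, (p : ℤ)], !![(a : ℤ), b; 0, e], ?_, ?_⟩
    · rw [Matrix.det_mul, h2]; simp [Matrix.det_fin_two_of]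
    · rw [mul_assoc]; congr 1; simp
  · obtain ⟨e, rfl⟩ := (hp.dvd_mul.1 hd').resolve_right hpd
    obtain ⟨u, v, huv⟩ := Nat.isCoprime_iff_coprime.2 ((hp.coprime_iff_not_dvd).2 hpd)
    refine ⟨γ * !![(p : ℤ), v * b; 0, 1], !![(e : ℤ), u * b; 0, d], ?_, ?_⟩
    · rw [Matrix.det_mul, h2]; simp [Matrix.det_fin_two_of]
    · rw [mul_assoc]; congr 1
      ext i j
      fin_cases i <;> fin_cases j <;> simp [Matrix.mul_apply, Fin.sum_univ_two]
      linear_combination (-b : ℤ) * huv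

lemma form_pos {d : ℕ} (hd : 0 < d) {x Y : ℤ} (h : x ≠ 0 ∨ Y ≠ 0) :
    0 < x ^ 2 + tt d * x * Y + nn d * Y ^ 2 := by
  have hd' : (0 : ℤ) < d := by exact_mod_cast hd
  unfold tt nn
  split_ifs with h4
  · obtain ⟨k, hk⟩ : ∃ k : ℤ, (d : ℤ) = 4 * k - 1 := ⟨(d + 1) / 4, by omega⟩
    rw [show ((d : ℤ) + 1) / 4 = k by omega]
    have hk' : 1 ≤ k := by omega
    by_cases hY : Y = 0
    · have := h.resolve_right (not_not.2 hY)
      subst hY
      simpa using by positivity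
    · have : 0 < Y ^ 2 := by positivity
      nlinarith [sq_nonneg (2 * x + Y)]
  · rcases h with h | h
    · have : 0 < x ^ 2 := by positivity
      nlinarith [sq_nonneg Y]
    · have : 0 < Y ^ 2 := by positivity
      nlinarith [sq_nonneg x]

lemma cm (d : ℕ) (M : M2) (x y : ℤ) (hd : 0 < d) (hM : 0 < M.det) (h : x ≠ 0 ∨ y ≠ 0) :
    ∃ Q : M2, 0 < Q.det ∧ Q.det = x ^ 2 + tt d * x * (M.det * y) + nn d * (M.det * y) ^ 2 ∧
    act Q (act M (om d)) = act M (om d) ∧ den Q (act M (om d)) = x + M.det * y * om d := by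
  set N : M2 := !![x + M.det * y * tt d, -(M.det * y * nn d); M.det * y, x] with hN
  set Q : M2 := x • (1 : M2) + y • (M * Om d * M.adjugate) with hQ
  have e : Q * M = M * N := by
    have : N = x • (1 : M2) + (M.det * y) • Om d := by
      rw [hN]
      ext i j
      fin_cases i <;> fin_cases j <;> simp [Om, Matrix.intCast_apply]
    rw [this, hQ, add_mul, mul_add, smul_mul_assoc, smul_mul_assoc, mul_smul_comm, mul_smul_comm,
      mul_assoc _ M.adjugate, Matrix.adjugate_mul, mul_smul_comm, smul_smul, mul_comm y]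
    simp
  have dN : N.det = x ^ 2 + tt d * x * (M.det * y) + nn d * (M.det * y) ^ 2 := by
    rw [hN, Matrix.det_fin_two_of]; ring
  have pN : 0 < N.det := dN ▸ form_pos hd (h.imp_right fun h => mul_ne_zero hM.ne' h)
  have dQ : Q.det = N.det := by
    have := congrArg Matrix.det e
    rw [Matrix.det_mul, Matrix.det_mul, mul_comm] at this
    exact mul_left_cancel₀ hM.ne' this
  have pQ : 0 < Q.det := dQ ▸ pN
  have nN : den N (om d) = x + M.det * y * om d := by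
    simp [den, hN]; ring
  have aN : act N (om d) = om d := by
    rw [act_eq_self pN, nN]
    have := om_sq hd
    simp [hN]
    linear_combination (-(M.det : ℂ) * y) * this
  refine ⟨Q, pQ, dQ.trans dN, ?_, ?_⟩
  · rw [← act_mul pQ hM, e, act_mul hM pN, aN]
  · have := den_mul (M := Q) hM (om d)
    rw [e, den_mul pN, aN, nN, mul_comm] at this
    exact (mul_right_cancel₀ (den_ne hM _) this).symm

end MatAux

theorem mat : MAT :=
  ⟨MatAux.epsm, MatAux.epsc, MatAux.mem, MatAux.sum, MatAux.hnf, MatAux.uniq, MatAux.perm,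
    MatAux.fac, MatAux.cm⟩

end Pool.Agent.MP_c481b3_nt.H31F
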