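import Pool.Agent.MP_c481b3_nt.H31F.Spec

set_option autoImplicit false

namespace Pool.Agent.MP_c481b3_nt.H31F

open UpperHalfPlane hiding I
open Complex
open scoped Manifold MatrixGroups Real

namespace Ys1Aux

lemma hol_dl : Hol dl := by
  have h : Hol fun τ : ℍ => ModularForm.eta τ := by
    intro τ
    rw [mdifferentiableAt_iff]
    refine (ModularForm.differentiableAt_eta_of_mem_upperHalfPlaneSet τ.2).congr_of_eventuallyEq ?_
    filter_upwards [isOpen_upperHalfPlaneSet.mem_nhds τ.im_pos] with w hw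
    simp [ofComplex_apply_of_im_pos hw]
  exact h.pow 12

lemma dl_ne (τ : ℍ) : dl τ ≠ 0 := pow_ne_zero _ (ModularForm.eta_ne_zero τ.2)

lemma hol_YY : Hol YY := by
  have h : Hol fun τ : ℍ => ModularForm.E₆ τ := ModularForm.E₆.holo'
  intro τ
  have h1 := mdifferentiableAt_iff.1 (h τ)
  have h2 := mdifferentiableAt_iff.1 (hol_dl τ)
  rw [mdifferentiableAt_iff]
  exact h1.div h2 (by simpa using dl_ne τ)

lemma hol_dv {f : ℍ → ℂ} (hf : Hol f) : Hol (dv f) :=
  mdifferentiable_const.mul (Derivative.normalizedDerivOfComplex_mdifferentiable hf)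

lemma eps_sq (M : M2) : (eps M : ℂ) * eps M = 1 := by
  unfold eps
  split_ifs <;> simp

lemma eps_ne (M : M2) : (eps M : ℂ) ≠ 0 := fun e => by simpa [e] using eps_sq M

lemma eps_one : eps 1 = 1 := by simp [eps]

lemma sqrt_pow {z : ℂ} : sqrt z ^ 12 = z ^ 6 := by
  have : sqrt z ^ 2 = z := by
    simp [sqrt]
  rw [show 12 = 2 * 6 from rfl, pow_mul, this]

lemma dl_S (τ : ℍ) : dl (act ModularGroup.S.1 τ)
    = eps ModularGroup.S.1 * den ModularGroup.S.1 τ ^ 6 * dl τ := by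
  have he : ModularForm.eta (-(τ : ℂ)⁻¹) = (sqrt I)⁻¹ * (sqrt τ * ModularForm.eta τ) := by
    simpa [neg_div] using ModularForm.eta_comp_eq_csqrt_I_inv τ.2
  have h1 : ((act ModularGroup.S.1 τ : ℍ) : ℂ) = -(τ : ℂ)⁻¹ := by
    rw [coe_act (by simp)]
    simp [den, ModularGroup.S, neg_div]
  have h2 : den ModularGroup.S.1 τ = τ := by simp [den, ModularGroup.S]
  have h3 : eps ModularGroup.S.1 = -1 := by simp [eps, ModularGroup.S]
  have h4 : I ^ 6 = -1 := by
    rw [show 6 = 2 * 3 from rfl, pow_mul, I_sq]; norm_num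
  rw [dl, dl, h1, he, h2, h3, mul_pow, mul_pow, inv_pow, sqrt_pow, sqrt_pow, h4]
  push_cast
  ring

lemma dl_T (τ : ℍ) : dl (act ModularGroup.T.1 τ)
    = eps ModularGroup.T.1 * den ModularGroup.T.1 τ ^ 6 * dl τ := by
  have h1 : ((act ModularGroup.T.1 τ : ℍ) : ℂ) = τ + 1 := by
    rw [coe_act (by simp)]
    simp [den, ModularGroup.T]
  have h2 : den ModularGroup.T.1 τ = 1 := by simp [den, ModularGroup.T]
  have h3 : eps ModularGroup.T.1 = -1 := by simp [eps, ModularGroup.T]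
  have h4 : ∀ n, ModularForm.eta_q n ((τ : ℂ) + 1) = ModularForm.eta_q n τ := fun n => by
    rw [ModularForm.eta_q_eq_pow, ModularForm.eta_q_eq_pow, mul_add, mul_one, exp_periodic]
  have h5 : Function.Periodic.qParam 24 ((τ : ℂ) + 1) ^ 12
      = -Function.Periodic.qParam 24 (τ : ℂ) ^ 12 := by
    simp only [Function.Periodic.qParam, ← exp_nat_mul]
    rw [← exp_add_pi_mul_I]
    congr 1
    push_cast
    ring
  rw [dl, dl, h1, h2, h3, ModularForm.eta, ModularForm.eta, mul_pow, mul_pow, h5]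
  simp only [h4]
  push_cast
  ring

lemma dl_SL (h : MAT) (γ : SL(2, ℤ)) :
    ∀ τ, dl (act γ.1 τ) = eps γ.1 * den γ.1 τ ^ 6 * dl τ := by
  have hp : ∀ g : SL(2, ℤ), 0 < g.1.det := fun g => by simp
  have ho : ∀ g : SL(2, ℤ), Odd g.1.det := fun g => by simp
  have : γ ∈ Subgroup.closure {ModularGroup.S, ModularGroup.T} := by
    simp [SpecialLinearGroup.SL2Z_generators]
  induction this using Subgroup.closure_induction with
  | one =>
    intro τ
    simp [act_one, den_one, eps_one]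
  | mem g hg =>
    rcases hg with rfl | rfl
    · exact dl_S
    · exact dl_T
  | mul g g' _ _ ig ig' =>
    intro τ
    rw [Matrix.SpecialLinearGroup.coe_mul, act_mul (hp g) (hp g'), den_mul (hp g'),
      h.epsm _ _ (ho g) (ho g'), ig, ig']
    push_cast
    ring
  | inv g _ ig =>
    intro τ
    have e : g.1 * (g⁻¹).1 = 1 := by
      rw [← Matrix.SpecialLinearGroup.coe_mul, mul_inv_cancel, Matrix.SpecialLinearGroup.coe_one]
    have h1 := ig (act (g⁻¹).1 τ)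
    rw [← act_mul (hp g) (hp g⁻¹), e, act_one] at h1
    have h2 := den_mul (M := g.1) (hp g⁻¹) τ
    rw [e, den_one] at h2
    have h3 := h.epsm _ _ (ho g) (ho g⁻¹)
    rw [e, eps_one] at h3
    have h4 : (eps g.1 : ℂ) * eps (g⁻¹).1 = 1 := by exact_mod_cast h3.symm
    rw [h1]
    have h5 : (den g.1 (act (g⁻¹).1 τ) * den (g⁻¹).1 τ) ^ 6 = 1 := by rw [← h2, one_pow]
    linear_combination (-(den g.1 (act (g⁻¹).1 τ) * den (g⁻¹).1 τ) ^ 6
      * dl (act (g⁻¹).1 τ)) * h4 - dl (act (g⁻¹).1 τ) * h5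

lemma form_SL {k : ℤ} (f : ModularForm 𝒮ℒ k) (γ : SL(2, ℤ)) (τ : ℍ) :
    f (act γ.1 τ) = den γ.1 τ ^ k * f τ := by
  rw [act_SL, den_SL]
  exact SlashInvariantForm.slash_action_eqn'' f (Γ := 𝒮ℒ) (γ := (γ : GL (Fin 2) ℝ))
    (MonoidHom.mem_range.2 ⟨γ, rfl⟩) τ

lemma YY_SL (h : MAT) (γ : SL(2, ℤ)) (τ : ℍ) : YY (act γ.1 τ) = eps γ.1 * YY τ := by
  have h1 := den_ne (M := γ.1) (by simp) τ
  have h2 := dl_ne τ
  have h3 := eps_ne γ.1
  rw [YY, YY, dl_SL h, form_SL]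
  field_simp
  have h4 := eps_sq γ.1
  linear_combination (-(ModularForm.E₆ τ)) * h4

lemma dv_SL (h : MAT) (γ : SL(2, ℤ)) (τ : ℍ) :
    dv YY (act γ.1 τ) = eps γ.1 * den γ.1 τ ^ 2 * dv YY τ := by
  have h0 : SlashAction.map (0 : ℤ) γ YY = (eps γ.1 : ℂ) • YY := by
    ext z
    rw [ModularForm.SL_slash_apply, ← act_SL, YY_SL h]
    simp
  have h1 := congrFun
    (Derivative.normalizedDerivOfComplex_SL_slash (k := 0) hol_YY (γ := γ)) τ
  rw [h0, Derivative.normalizedDerivOfComplex_smul _ _ hol_YY, Pi.sub_apply,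
    ModularForm.SL_slash_apply, ← act_SL, ← den_SL] at h1
  have h2 := den_ne (M := γ.1) (by simp) τ
  simp only [Pi.smul_apply, smul_eq_mul, Int.cast_zero, zero_mul, sub_zero, zero_add,
    zpow_neg, zpow_ofNat] at h1
  rw [dv, dv]
  field_simp at h1
  linear_combination (-2) * h1

end Ys1Aux

open Ys1Aux in
theorem ys1_of (h : MAT) : YS1 where
  hd := hol_dl
  hY := hol_YY
  hD := hol_dv hol_YY
  ne := dl_ne
  td γ τ hγ := dl_SL h ⟨γ, hγ⟩ τ
  tY γ τ hγ := YY_SL h ⟨γ, hγ⟩ τ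
  tD γ τ hγ := dv_SL h ⟨γ, hγ⟩ τ
  tJ γ τ hγ := by
    have h1 : YY (act γ τ) = eps γ * YY τ := YY_SL h ⟨γ, hγ⟩ τ
    rw [JJ, JJ, h1]
    linear_combination YY τ ^ 2 * eps_sq γ
  disc τ := by rw [dl, ← pow_mul]; rfl
  eJ τ := by
    have h1 : dl τ ^ 2 = ModularForm.discriminant τ := by rw [dl, ← pow_mul]; rfl
    rw [ModularForm.discriminant_eq_E₄_cube_sub_E₆_sq] at h1
    have h2 := dl_ne τ
    rw [JJ, YY]
    field_simp
    linear_combination 1728 * h1

end Pool.Agent.MP_c481b3_nt.H31F
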