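import Pool.Agent.MP_c481b3_nt.H31F.SpecC
import Pool.Agent.MP_88847a_mp.H86.Elliptic

/-!
The Weierstrass uniformization is a homomorphism.
-/

set_option autoImplicit false

namespace Pool.Agent.MP_c481b3_nt.H31F

open Filter Topology PeriodPair Pool.Agent.MP_c481b3_nt.H81 Pool.Agent.MP_88847a_mp.H86

namespace U2Aux

variable {L : PeriodPair} {a b z : ℂ}

lemma hd1 (hz : z ∉ L.lattice) : HasDerivAt ℘[L] (℘'[L] z) z := by
  simpa using (analyticAt_wp hz).differentiableAt.hasDerivAt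

lemma hd2 (hz : z ∉ L.lattice) : HasDerivAt ℘'[L] (6 * ℘[L] z ^ 2 - L.g₂ / 2) z := by
  have h0 := L.analyticOnNhd_derivWeierstrassP
  have h1 : AnalyticOnNhd ℂ (fun z => deriv ℘'[L] z - (6 * ℘[L] z ^ 2 - L.g₂ / 2)) L.latticeᶜ :=
    fun z hz => by
      have := (h0 z hz).deriv
      have := analyticAt_wp hz
      fun_prop
  rcases h0.eq_zero_or_eq_zero_of_mul_eq_zero h1 (fun w hw => by
    have h2 := (h0 w hw).differentiableAt.hasDerivAt.fun_pow 2
    have h3 := ((((hd1 hw).fun_pow 3).const_mul 4).fun_sub ((hd1 hw).const_mul L.g₂)).sub_const L.g₃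
    have h4 := (h3.congr_of_eventuallyEq ((eventually_notMem_nhds hw).mono
      fun v hv => L.derivWeierstrassP_sq v hv)).unique h2
    simp only [Nat.cast_ofNat, Nat.add_one_sub_one, pow_one] at h4
    linear_combination (-1 / 2 : ℂ) * h4) (isPreconnected_compl_lattice L) with h | h
  · obtain ⟨c, hc⟩ := (isOpen_compl_lattice L).exists_is_const_of_deriv_eq_zero
      (isPreconnected_compl_lattice L) L.differentiableOn_weierstrassP fun w hw => by
        simpa using h w hw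
    exact absurd (quad_eq_zero (L := L) (a := 0) (b := 1) (c := -c) fun w hw => by
      simp [hc w hw]).2.1 one_ne_zero
  · exact sub_eq_zero.1 (h z hz) ▸ (h0 z hz).differentiableAt.hasDerivAt

lemma ev (ha : a ∉ L.lattice) (hab : a + b ∉ L.lattice) :
    ∀ᶠ w in 𝓝 a, w ∉ L.lattice ∧ w + b ∉ L.lattice :=
  (eventually_notMem_nhds ha).and
    (((continuous_add_const b).tendsto a).eventually (eventually_notMem_nhds hab))

lemma hs (ha : a ∉ L.lattice) (hab : a + b ∉ L.lattice) :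
    HasDerivAt (fun a => zeta L a + zeta L b - zeta L (a + b)) (℘[L] (a + b) - ℘[L] a) a := by
  exact (((hasDerivAt_zeta ha).add_const (zeta L b)).fun_sub
    ((hasDerivAt_zeta hab).comp_add_const a b)).congr_deriv (by ring)

lemma e1 (ha : a ∉ L.lattice) (hb : b ∉ L.lattice) (hab : a + b ∉ L.lattice) :
    2 * (zeta L a + zeta L b - zeta L (a + b)) * (℘[L] (a + b) - ℘[L] a)
      = ℘'[L] a + ℘'[L] (a + b) := by
  have h1 := ((hd1 ha).add_const (℘[L] b)).fun_add ((hd1 hab).comp_add_const a b)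
  have h2 := (h1.congr_of_eventuallyEq ((ev ha hab).mono fun w hw =>
    zeta_sq hw.1 hb hw.2)).unique ((hs ha hab).fun_pow 2)
  simpa using h2.symm

lemma e2 (ha : a ∉ L.lattice) (hb : b ∉ L.lattice) (hab : a + b ∉ L.lattice) :
    (zeta L a + zeta L b - zeta L (a + b)) * (℘'[L] (a + b) - ℘'[L] a)
      = 2 * (℘[L] a ^ 2 + ℘[L] a * ℘[L] (a + b) + ℘[L] (a + b) ^ 2) - L.g₂ / 2 := by
  have h1 := (hd2 ha).fun_add ((hd2 hab).comp_add_const a b)
  have h2 := (h1.congr_of_eventuallyEq ((ev ha hab).mono fun w hw => e1 hw.1 hb hw.2)).unique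
    (((hs ha hab).const_mul 2).fun_mul (((hd1 hab).comp_add_const a b).fun_sub (hd1 ha)))
  linear_combination (-1 / 2 : ℂ) * h2

lemma eq (hz : z ∉ L.lattice) :
    (℘'[L] z / 2) ^ 2 = ℘[L] z ^ 3 + -L.g₂ / 4 * ℘[L] z + -L.g₃ / 4 := by
  linear_combination (1 / 4 : ℂ) * L.derivWeierstrassP_sq z hz

lemma col (ha : a ∉ L.lattice) (hb : b ∉ L.lattice) (hab : a + b ∉ L.lattice) :
    ∃ l n, ColAt (-L.g₂ / 4) (-L.g₃ / 4) l n (℘[L] a) (℘'[L] a / 2) (℘[L] b) (℘'[L] b / 2)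
      (℘[L] (a + b)) (-(℘'[L] (a + b) / 2)) := by
  have h0 := zeta_sq ha hb hab
  have h1 := e1 ha hb hab
  have h2 := e1 hb ha (add_comm a b ▸ hab)
  have h3 := e2 ha hb hab
  have h4 := eq ha
  rw [add_comm b a, add_comm (zeta L b)] at h2
  set s := zeta L a + zeta L b - zeta L (a + b)
  refine ⟨-s, ℘'[L] a / 2 + s * ℘[L] a, by ring, by linear_combination (h1 - h2) / 2,
    by linear_combination h1 / 2, by linear_combination -h0, ?_, ?_⟩
  · linear_combination h3 / 2 + s / 2 * h1 - (℘[L] a + ℘[L] (a + b)) * h0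
  · linear_combination ℘[L] a * (h3 / 2 + s / 2 * h1 - ℘[L] (a + b) * h0) - h4

open Classical in
/-- the uniformization -/
noncomputable def ph (L : PeriodPair) (z : ℂ) : Pt (-L.g₂ / 4) (-L.g₃ / 4) :=
  if z ∈ L.lattice then 0 else pt _ _ (℘[L] z) (℘'[L] z / 2)

lemma ph_add (ha : a ∈ L.lattice) (z : ℂ) : ph L (z + a) = ph L z := by
  classical
  rw [ph, ph, wp_add ha, L.derivWeierstrassP_add_coe z ⟨a, ha⟩]
  exact if_congr (Submodule.add_mem_iff_left _ ha) rfl rfl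

lemma ph_neg (hG : Good (-L.g₂ / 4) (-L.g₃ / 4)) (z : ℂ) : ph L (-z) = -ph L z := by
  by_cases hz : z ∈ L.lattice
  · simp [ph, hz]
  · rw [ph, ph, if_neg hz, if_neg (neg_notMem hz), L.weierstrassP_neg, L.derivWeierstrassP_neg,
      neg_div 2]
    exact pt_neg hG (eq hz)

end U2Aux

open U2Aux in
theorem u2 : U2 := by
  intro L hG
  have h0 : ∀ {z}, z ∈ L.lattice → ph L z = 0 := fun h => if_pos h
  have h1 : ∀ {z}, z ∉ L.lattice → ph L z = pt _ _ (℘[L] z) (℘'[L] z / 2) := fun h => if_neg h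
  have h2 : ∀ {z}, z ∉ L.lattice → ph L z ≠ 0 := fun h => h1 h ▸ pt_ne hG (eq h)
  have h3 : ∀ {z}, z ∉ L.lattice → xc (ph L z) = ℘[L] z ∧ yc (ph L z) = ℘'[L] z / 2 := fun h =>
    h1 h ▸ ⟨xc_pt hG (eq h), yc_pt hG (eq h)⟩
  refine ⟨AddMonoidHom.mk' (ph L) fun a b => ?_, fun z => ⟨fun h => by_contra fun hz => h2 hz h, h0⟩,
    fun z => h3⟩
  by_cases ha : a ∈ L.lattice
  · rw [add_comm a, ph_add ha, h0 ha, zero_add]
  by_cases hb : b ∈ L.lattice
  · rw [ph_add hb, h0 hb, add_zero]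
  by_cases hab : a + b ∈ L.lattice
  · rw [h0 hab, ← ph_add (neg_mem hab) b, show b + -(a + b) = -a by ring, ph_neg hG, add_neg_cancel]
  obtain ⟨l, n, h⟩ := col ha hb hab
  refine (add_neg_eq_zero.1 (sum_of_col hG (h2 ha) (h2 hb) (neg_ne_zero.2 (h2 hab))
    (l := l) (n := n) ?_)).symm
  rwa [xc_neg, yc_neg, (h3 ha).1, (h3 ha).2, (h3 hb).1, (h3 hb).2, (h3 hab).1, (h3 hab).2]

end Pool.Agent.MP_c481b3_nt.H31F
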