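import Mathlib

set_option autoImplicit false

namespace Pool.Agent.MP_c481b3_nt.H31F

open UpperHalfPlane hiding I
open Complex Polynomial IsLocalRing
open scoped Manifold MatrixGroups Real

/-! ## Laurent series -/

/-- formal Laurent series -/
abbrev LS (R : Type) [Zero R] := HahnSeries ℤ R

section series
variable {R S : Type} [CommRing R] [CommRing S]

/-- change of coefficients -/
noncomputable def mapL (φ : R →+* S) : LS R →+* LS S where
  toFun F := F.map φ
  map_one' := HahnSeries.map_one φ.toMonoidWithZeroHom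
  map_mul' _ _ := HahnSeries.map_mul φ.toNonUnitalRingHom
  map_zero' := HahnSeries.map_zero φ.toAddMonoidHom.toZeroHom
  map_add' _ _ := HahnSeries.map_add φ.toAddMonoidHom

@[simp] lemma coeff_mapL (φ : R →+* S) (F : LS R) (n : ℤ) :
    (mapL φ F).coeff n = φ (F.coeff n) := rfl

@[simp] lemma mapL_C (φ : R →+* S) (c : R) : mapL φ (HahnSeries.C c) = HahnSeries.C (φ c) :=
  HahnSeries.map_C c φ

lemma mapL_mapL {T : Type} [CommRing T] (φ : R →+* S) (ψ : S →+* T) (F : LS R) :
    mapL ψ (mapL φ F) = mapL (ψ.comp φ) F := by ext; simp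

lemma mapL_injective {φ : R →+* S} (h : Function.Injective φ) : Function.Injective (mapL φ) :=
  fun F G e => by ext n; exact h (by rw [← coeff_mapL, e, coeff_mapL])

lemma algebraMap_LS (c : R) : algebraMap R (LS R) c = HahnSeries.C c := by
  simp [HahnSeries.algebraMap_apply']

lemma mapL_aeval (φ : R →+* S) (F : LS R) (P : R[X]) :
    mapL φ (aeval F P) = aeval (mapL φ F) (P.map φ) := by
  rw [aeval_def, aeval_def, hom_eval₂, eval₂_map]
  congr 1
  ext c : 1
  simp only [RingHom.comp_apply, algebraMap_LS, mapL_C]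

/-- multiplication of the `n`-th coefficient by `c n` -/
def tw (c : ℤ → R) (F : LS R) : LS R where
  coeff n := c n * F.coeff n
  isPWO_support' := F.isPWO_support.mono fun n h e => h (by simp [e])

@[simp] lemma coeff_tw (c : ℤ → R) (F : LS R) (n : ℤ) : (tw c F).coeff n = c n * F.coeff n := rfl

lemma support_tw (c : ℤ → R) (F : LS R) : (tw c F).support ⊆ F.support :=
  fun n h e => h (by simp [e])

/-- the derivation `Q d/dQ` -/
def th (F : LS R) : LS R := tw (fun n => n) F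

@[simp] lemma coeff_th (F : LS R) (n : ℤ) : (th F).coeff n = n * F.coeff n := rfl

lemma th_add (F G : LS R) : th (F + G) = th F + th G := by ext; simp [mul_add]

lemma th_sub (F G : LS R) : th (F - G) = th F - th G := by ext; simp [mul_sub]

lemma th_C (c : R) : th (HahnSeries.C c : LS R) = 0 := by
  ext n
  by_cases h : n = 0 <;> simp [h, HahnSeries.C_apply, HahnSeries.coeff_single]

lemma th_mul (F G : LS R) : th (F * G) = th F * G + F * th G := by
  ext n
  rw [HahnSeries.coeff_add, coeff_th, HahnSeries.coeff_mul, th, th,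
    HahnSeries.coeff_mul_left' F.isPWO_support (support_tw _ F),
    HahnSeries.coeff_mul_right' G.isPWO_support (support_tw _ G), Finset.mul_sum,
    ← Finset.sum_add_distrib]
  refine Finset.sum_congr rfl fun x hx => ?_
  rw [← (Finset.mem_antidiagonal.1 hx).2.2]
  simp only [coeff_tw]
  push_cast
  ring

lemma mapL_th (φ : R →+* S) (F : LS R) : mapL φ (th F) = th (mapL φ F) := by ext; simp

lemma th_pow (F : LS R) (n : ℕ) : th (F ^ (n + 1)) = (n + 1 : ℕ) * F ^ n * th F := by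
  induction n with
  | zero => simp
  | succ n ih => rw [pow_succ, th_mul, ih]; push_cast; ring

lemma th_aeval (F : LS R) (P : R[X]) : th (aeval F P) = aeval F P.derivative * th F := by
  induction P using Polynomial.induction_on with
  | C a => rw [aeval_C, algebraMap_LS, th_C, derivative_C, map_zero, zero_mul]
  | add p q hp hq => simp [th_add, hp, hq, add_mul]
  | monomial n a _ =>
    simp only [map_mul, aeval_C, map_pow, aeval_X, th_mul, algebraMap_LS, th_C, th_pow,
      derivative_mul, derivative_C, derivative_X_pow, map_add, map_natCast, zero_mul, zero_add,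
      Nat.add_sub_cancel, map_zero]
    ring

/-- the substitution `Q ↦ c Q` -/
noncomputable def rsc (c : Rˣ) : LS R →+* LS R where
  toFun := tw fun n => ((c ^ n : Rˣ) : R)
  map_one' := by
    ext n
    by_cases h : n = 0 <;> simp [h, HahnSeries.coeff_one]
  map_mul' F G := by
    ext n
    rw [coeff_tw, HahnSeries.coeff_mul,
      HahnSeries.coeff_mul_left' F.isPWO_support (support_tw _ F)]
    rw [← Finset.sum_subset (Finset.antidiagonal_mono_right
      (hs := F.isPWO_support) (hu := (tw (fun n => ((c ^ n : Rˣ) : R)) G).isPWO_support)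
      (ht := G.isPWO_support) (a := n) (support_tw _ G)) ?_ |>.symm, Finset.mul_sum]
    · refine Finset.sum_congr rfl fun x hx => ?_
      rw [← (Finset.mem_antidiagonal.1 hx).2.2]
      simp only [coeff_tw, zpow_add, Units.val_mul]
      ring
    · intro x hx hn
      rw [Finset.mem_antidiagonal] at hx hn
      have : (tw (fun n => ((c ^ n : Rˣ) : R)) G).coeff x.2 = 0 := by
        by_contra h
        exact hn ⟨hx.1, h, hx.2.2⟩
      rw [this, mul_zero]
  map_zero' := by ext; simp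
  map_add' F G := by ext; simp [mul_add]

@[simp] lemma coeff_rsc (c : Rˣ) (F : LS R) (n : ℤ) :
    (rsc c F).coeff n = ((c ^ n : Rˣ) : R) * F.coeff n := rfl

/-- the substitution `Q ↦ Q ^ e` for `e > 0` -/
noncomputable def ex (e : ℕ) : LS R →+* LS R :=
  if h : 0 < e then HahnSeries.embDomainRingHom (AddMonoidHom.mulLeft (e : ℤ))
    (fun a b hab => mul_left_cancel₀ (by exact_mod_cast h.ne') hab)
    (fun a b => mul_le_mul_iff_right₀ (by exact_mod_cast h))
  else RingHom.id _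

lemma coeff_ex_mul {e : ℕ} (h : 0 < e) (F : LS R) (n : ℤ) :
    (ex e F).coeff (e * n) = F.coeff n := by
  rw [ex, dif_pos h]
  exact HahnSeries.embDomain_coeff (a := n)

lemma coeff_ex_of_not_dvd {e : ℕ} (h : 0 < e) (F : LS R) {n : ℤ} (hn : ¬(e : ℤ) ∣ n) :
    (ex e F).coeff n = 0 := by
  rw [ex, dif_pos h]
  exact HahnSeries.embDomain_of_notMem_range fun ⟨a, ha⟩ => hn ⟨a, ha.symm⟩

lemma coeff_ex {e : ℕ} (h : 0 < e) (F : LS R) (n : ℤ) :
    (ex e F).coeff n = if (e : ℤ) ∣ n then F.coeff (n / e) else 0 := by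
  split_ifs with hn
  · obtain ⟨a, rfl⟩ := hn
    rw [coeff_ex_mul h, Int.mul_ediv_cancel_left _ (by exact_mod_cast h.ne')]
  · exact coeff_ex_of_not_dvd h F hn

lemma ex_one (F : LS R) : ex 1 F = F := by
  ext n; simpa using coeff_ex_mul one_pos F n

/-- the substitution `Q ↦ c Q ^ e` -/
noncomputable def sb (c : Rˣ) (e : ℕ) : LS R →+* LS R := (ex e).comp (rsc c)

lemma coeff_sb {e : ℕ} (h : 0 < e) (c : Rˣ) (F : LS R) (n : ℤ) : (sb c e F).coeff n
    = if (e : ℤ) ∣ n then ((c ^ (n / e) : Rˣ) : R) * F.coeff (n / e) else 0 := by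
  rw [sb, RingHom.comp_apply, coeff_ex h, coeff_rsc]

lemma coeff_sb_mul {e : ℕ} (h : 0 < e) (c : Rˣ) (F : LS R) (n : ℤ) :
    (sb c e F).coeff (e * n) = ((c ^ n : Rˣ) : R) * F.coeff n := by
  rw [sb, RingHom.comp_apply, coeff_ex_mul h, coeff_rsc]

lemma sb_one (e : ℕ) (F : LS R) : sb 1 e F = ex e F := by
  rw [sb, RingHom.comp_apply]; congr 1; ext; simp

lemma sb_C {e : ℕ} (h : 0 < e) (c : Rˣ) (a : R) : sb c e (HahnSeries.C a) = HahnSeries.C a := by
  ext n
  rw [coeff_sb h]
  by_cases hn : n = 0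
  · simp [hn]
  · split_ifs with hd
    · obtain ⟨m, rfl⟩ := hd
      have hm : m ≠ 0 := fun z => hn (by simp [z])
      rw [Int.mul_ediv_cancel_left _ (by exact_mod_cast h.ne')]
      simp [HahnSeries.C_apply, HahnSeries.coeff_single, hn, hm]
    · simp [HahnSeries.C_apply, HahnSeries.coeff_single, hn]

lemma sb_aeval {e : ℕ} (h : 0 < e) (c : Rˣ) (F : LS R) (P : R[X]) :
    sb c e (aeval F P) = aeval (sb c e F) P := by
  rw [aeval_def, aeval_def, hom_eval₂]
  congr 1
  ext a : 1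
  simp only [RingHom.comp_apply, algebraMap_LS, sb_C h]

lemma sb_injective {e : ℕ} (h : 0 < e) (c : Rˣ) : Function.Injective (sb c e) := fun F G E => by
  ext n
  have := congrArg (fun H => H.coeff (e * n)) E
  simpa [coeff_sb_mul h] using this

lemma mapL_sb {e : ℕ} (h : 0 < e) (φ : R →+* S) (c : Rˣ) (F : LS R) :
    mapL φ (sb c e F) = sb (Units.map (φ : R →* S) c) e (mapL φ F) := by
  ext n
  rw [coeff_mapL, coeff_sb h, coeff_sb h]
  split_ifs
  · rw [map_mul, ← map_zpow, Units.coe_map, coeff_mapL]; rfl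
  · exact map_zero φ

end series

/-- series with all coefficients in a subring -/
noncomputable def ovr (R : Subring ℂ) : Subring (LS ℂ) := (mapL R.subtype).range

lemma mem_ovr {R : Subring ℂ} {F : LS ℂ} : F ∈ ovr R ↔ ∀ n, F.coeff n ∈ R := by
  refine ⟨fun ⟨G, h⟩ n => h ▸ (G.coeff n).2, fun h => ⟨⟨fun n => ⟨F.coeff n, h n⟩,
    F.isPWO_support.mono fun n hn e => hn (Subtype.ext e)⟩, by ext; rfl⟩⟩

/-- `G` is the reduction of `F` -/
def Red (O : ValuationSubring ℂ) (F : LS ℂ) (G : LS (ResidueField O)) : Prop :=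
  ∃ H : LS O, mapL O.subtype H = F ∧ mapL (residue O) H = G

section red
variable {O : ValuationSubring ℂ} {F F' : LS ℂ} {G G' : LS (ResidueField O)}

lemma red_iff : Red O F G ↔ ∀ n, ∃ h : F.coeff n ∈ O, residue O ⟨F.coeff n, h⟩ = G.coeff n := by
  constructor
  · rintro ⟨H, rfl, rfl⟩ n
    exact ⟨(H.coeff n).2, rfl⟩
  · intro h
    refine ⟨⟨fun n => ⟨F.coeff n, (h n).1⟩,
      F.isPWO_support.mono fun n hn e => hn (Subtype.ext e)⟩, by ext; rfl, ?_⟩
    ext n
    exact (h n).2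

lemma exists_red (h : F ∈ ovr O.toSubring) : ∃ G, Red O F G := h.elim fun H e => ⟨_, H, e, rfl⟩

lemma Red.mem (h : Red O F G) : F ∈ ovr O.toSubring := h.elim fun H e => ⟨H, e.1⟩

lemma Red.unique (h : Red O F G) (h' : Red O F G') : G = G' := by
  ext n
  rw [← (red_iff.1 h n).2, ← (red_iff.1 h' n).2]

lemma Red.add (h : Red O F G) (h' : Red O F' G') : Red O (F + F') (G + G') := by
  obtain ⟨H, rfl, rfl⟩ := h
  obtain ⟨H', rfl, rfl⟩ := h'
  exact ⟨H + H', map_add _ _ _, map_add _ _ _⟩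

lemma Red.mul (h : Red O F G) (h' : Red O F' G') : Red O (F * F') (G * G') := by
  obtain ⟨H, rfl, rfl⟩ := h
  obtain ⟨H', rfl, rfl⟩ := h'
  exact ⟨H * H', map_mul _ _ _, map_mul _ _ _⟩

lemma Red.C (c : O) : Red O (HahnSeries.C (c : ℂ)) (HahnSeries.C (residue O c)) :=
  ⟨HahnSeries.C c, mapL_C _ _, mapL_C _ _⟩

lemma Red.th (h : Red O F G) : Red O (th F) (th G) := by
  obtain ⟨H, rfl, rfl⟩ := h
  exact ⟨H31F.th H, mapL_th _ _, mapL_th _ _⟩

lemma Red.int (F : LS ℤ) :
    Red O (mapL (Int.castRingHom ℂ) F) (mapL (Int.castRingHom (ResidueField O)) F) :=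
  ⟨mapL (Int.castRingHom O) F, by ext; simp, by ext; simp⟩

end red

/-! ## integer matrices acting on the upper half plane -/

/-- integer matrices -/
abbrev M2 := Matrix (Fin 2) (Fin 2) ℤ

/-- `c τ + d` -/
noncomputable def den (M : M2) (τ : ℍ) : ℂ := M 1 0 * τ + M 1 1

/-- the matrix as an invertible real matrix -/
noncomputable def toGL (M : M2) (h : 0 < M.det) : GL (Fin 2) ℝ :=
  .mkOfDetNeZero (M.map (Int.cast : ℤ → ℝ)) (by
    rw [← Int.cast_det]; exact_mod_cast h.ne')

/-- the point `M τ` -/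
noncomputable def act (M : M2) (τ : ℍ) : ℍ := if h : 0 < M.det then toGL M h • τ else τ

section act
variable {M M' : M2}

lemma det_toGL (h : 0 < M.det) : ((toGL M h).det : ℝ) = (M.det : ℝ) := by
  rw [Matrix.GeneralLinearGroup.val_det_apply, Int.cast_det]; rfl

lemma denom_toGL (h : 0 < M.det) (τ : ℍ) : denom (toGL M h) τ = den M τ := by
  simp [denom, den, toGL]

lemma den_ne (h : 0 < M.det) (τ : ℍ) : den M τ ≠ 0 := denom_toGL h τ ▸ denom_ne_zero _ τ

lemma act_eq (h : 0 < M.det) (τ : ℍ) : act M τ = toGL M h • τ := dif_pos h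

lemma coe_act (h : 0 < M.det) (τ : ℍ) : (act M τ : ℂ) = (M 0 0 * τ + M 0 1) / den M τ := by
  rw [act_eq h, coe_smul_of_det_pos (by rw [det_toGL]; exact_mod_cast h), denom_toGL]
  simp [num, toGL]

lemma det_mul_pos (h : 0 < M.det) (h' : 0 < M'.det) : 0 < (M * M').det := by
  rw [Matrix.det_mul]; exact mul_pos h h'

lemma act_mul (h : 0 < M.det) (h' : 0 < M'.det) (τ : ℍ) :
    act (M * M') τ = act M (act M' τ) := by
  rw [act_eq (det_mul_pos h h'), act_eq h, act_eq h', ← mul_smul]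
  congr 1
  ext i j
  simp [toGL, Matrix.mul_apply]

lemma den_mul (h' : 0 < M'.det) (τ : ℍ) : den (M * M') τ = den M (act M' τ) * den M' τ := by
  have := den_ne h' τ
  rw [den, den, coe_act h']
  field_simp
  simp [den, Matrix.mul_apply]
  ring

lemma den_one (τ : ℍ) : den 1 τ = 1 := by simp [den]

lemma act_one (τ : ℍ) : act 1 τ = τ := by
  ext; rw [coe_act (by simp), den_one]; simp

lemma act_SL (γ : SL(2, ℤ)) (τ : ℍ) : act γ.1 τ = γ • τ := by
  ext; rw [coe_act (by simp), coe_specialLinearGroup_apply]; simp [den]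

lemma den_SL (γ : SL(2, ℤ)) (τ : ℍ) : den γ.1 τ = denom γ τ := by
  simp [den, ModularGroup.denom_apply]

lemma act_eq_self (h : 0 < M.det) {τ : ℍ} :
    act M τ = τ ↔ (M 0 0 : ℂ) * τ + M 0 1 = den M τ * τ := by
  rw [UpperHalfPlane.ext_iff, coe_act h, div_eq_iff (den_ne h τ), mul_comm (den M τ)]

end act

/-- holomorphic -/
abbrev Hol (f : ℍ → ℂ) : Prop := MDifferentiable 𝓘(ℂ) 𝓘(ℂ) f

lemma Hol.act {f : ℍ → ℂ} (hf : Hol f) {M : M2} (h : 0 < M.det) : Hol fun τ => f (act M τ) := by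
  simp only [act_eq h]
  exact hf.comp (mdifferentiable_smul (by rw [det_toGL]; exact_mod_cast h))

lemma hol_den (M : M2) : Hol (den M) :=
  (mdifferentiable_const.mul mdifferentiable_coe).add mdifferentiable_const

/-- congruence of matrices -/
def Cong (n : ℕ) (A B : M2) : Prop := ∀ i j, (n : ℤ) ∣ A i j - B i j

/-- the sign of the permutation of the points of order two -/
def eps (M : M2) : ℤ := if Even (M 0 0 * M 1 0 + M 0 1 * M 1 0 + M 0 1 * M 1 1) then 1 else -1

/-- the triangular matrices of determinant `m` with corner in `s ℤ` -/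
def Hk (s m : ℕ) : Finset M2 := (m.divisors.sigma fun d => Finset.range d).image
  fun x => !![((m / x.1 : ℕ) : ℤ), ((s * x.2 : ℕ) : ℤ); 0, (x.1 : ℤ)]

/-! ## the modular functions -/

/-- `η ^ 12` -/
noncomputable def dl (τ : ℍ) : ℂ := ModularForm.eta τ ^ 12

/-- the square root `E₆ / η ^ 12` of `j - 1728` -/
noncomputable def YY (τ : ℍ) : ℂ := ModularForm.E₆ τ / dl τ

/-- the invariant `j` -/
noncomputable def JJ (τ : ℍ) : ℂ := YY τ ^ 2 + 1728

/-- the derivative `d/dτ` divided by `π i` -/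
noncomputable def dv (f : ℍ → ℂ) (τ : ℍ) : ℂ := 2 * Derivative.normalizedDerivOfComplex f τ

/-- `Δ(τ) (c τ + d) ^ 12 / Δ(M τ)` -/
noncomputable def WW (M : M2) (τ : ℍ) : ℂ := dl τ ^ 2 * den M τ ^ 12 / dl (act M τ) ^ 2

/-- `det ^ 12 / WW` -/
noncomputable def VV (M : M2) (τ : ℍ) : ℂ :=
  (M.det : ℂ) ^ 12 * dl (act M τ) ^ 2 / (dl τ ^ 2 * den M τ ^ 12)

/-- the derivative of `YY` at `M τ`, brought to weight zero -/
noncomputable def PH (M : M2) (τ : ℍ) : ℂ :=
  (M.det : ℂ) ^ 2 * dv YY (act M τ) / den M τ ^ 2 * (dv YY τ ^ 2 / dl τ)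

/-- the parameter `exp (π i τ / N)` -/
noncomputable def xN (N : ℕ) (τ : ℍ) : ℂ := cexp (π * I * τ / N)

/-- the root of unity `exp (π i r)` -/
noncomputable def ru (r : ℚ) : ℂˣ := Units.mk0 (cexp (π * I * r)) (exp_ne_zero _)

/-- `F` is the expansion of `f` at the cusp in the parameter `xN N` -/
def Asy (N : ℕ) (f : ℍ → ℂ) (F : LS ℂ) : Prop := ∀ K : ℤ,
  (fun τ => f τ - ∑ n ∈ Finset.Ico F.order K, F.coeff n * xN N τ ^ n) =O[atImInfty]
    fun τ => xN N τ ^ K

/-- modular functions of level `2 N` with all expansions over `O` -/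
structure Mem (O : ValuationSubring ℂ) (N : ℕ) (f : ℍ → ℂ) : Prop where
  hol : Hol f
  inv : ∀ γ : M2, γ.det = 1 → Cong (2 * N) γ 1 → ∀ τ, f (act γ τ) = f τ
  asy : ∀ γ : M2, γ.det = 1 → ∃ F ∈ ovr O.toSubring, Asy N (fun τ => f (act γ τ)) F

/-- the reduction of the expansion of `f` is `G` -/
def RA (O : ValuationSubring ℂ) (N : ℕ) (f : ℍ → ℂ) (G : LS (ResidueField O)) : Prop :=
  ∃ F, Asy N f F ∧ Red O F G

/-- the integer expansion of `YY` -/
noncomputable def Ys : LS ℤ := Classical.epsilon fun F => Asy 1 YY (mapL (Int.castRingHom ℂ) F)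

/-- the integer expansion of `dl` -/
noncomputable def Ds : LS ℤ := Classical.epsilon fun F => Asy 1 dl (mapL (Int.castRingHom ℂ) F)

/-- `Ys` over a ring -/
noncomputable def Yc (R : Type) [CommRing R] : LS R := mapL (Int.castRingHom R) Ys

/-- `Ds` over a ring -/
noncomputable def Dc (R : Type) [CommRing R] : LS R := mapL (Int.castRingHom R) Ds

lemma mapL_Yc {R S : Type} [CommRing R] [CommRing S] (φ : R →+* S) : mapL φ (Yc R) = Yc S := by
  ext; simp [Yc]

lemma mapL_Dc {R S : Type} [CommRing R] [CommRing S] (φ : R →+* S) : mapL φ (Dc R) = Dc S := by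
  ext; simp [Dc]

/-- the Faber polynomials of `Ys` -/
structure IsFb (P : ℕ → ℤ[X]) : Prop where
  par : ∀ n i, i % 2 ≠ n % 2 → (P n).coeff i = 0
  exp : ∀ (n : ℕ) (i : ℤ), i ≤ 0 → (aeval Ys (P n)).coeff i = if i = -n then 1 else 0
  gen : ∀ y : ℂ, (Yc ℂ - HahnSeries.C y) *
    HahnSeries.ofPowerSeries ℤ ℂ (PowerSeries.mk fun n => aeval y (P n)) = -th (Yc ℂ)
  span : ∀ T : ℤ[X], (∀ i, Even i → T.coeff i = 0) → T ∈ Submodule.span ℤ (P '' {n | Odd n})

/-- a rational function of `Yc k` -/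
def InK (k : Type) [Field k] (F : LS k) : Prop :=
  ∃ P₁ P₂ : k[X], P₂ ≠ 0 ∧ F * aeval (Yc k) P₂ = aeval (Yc k) P₁

/-- a rational differential in `Yc k` -/
def InU (k : Type) [Field k] (g : LS k) : Prop :=
  ∃ P₁ P₂ : k[X], P₂ ≠ 0 ∧ g * aeval (Yc k) P₂ = th (Yc k) * aeval (Yc k) P₁

/-! ## the quadratic order -/

/-- `√(-d)` -/
noncomputable def sq (d : ℕ) : ℂ := I * (√(d : ℝ) : ℝ)

lemma sq_sq (d : ℕ) : sq d ^ 2 = -d := by
  rw [sq, mul_pow, I_sq, ← ofReal_pow, Real.sq_sqrt (Nat.cast_nonneg d)]; simp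

/-- trace of the generator -/
def tt (d : ℕ) : ℤ := if d % 4 = 3 then 1 else 0

/-- norm of the generator -/
def nn (d : ℕ) : ℤ := if d % 4 = 3 then (d + 1) / 4 else d

/-- the generator of the ring of integers -/
noncomputable def om (d : ℕ) : ℍ := ofComplex (if d % 4 = 3 then (1 + sq d) / 2 else sq d)

lemma coe_om {d : ℕ} (hd : 0 < d) : (om d : ℂ) = if d % 4 = 3 then (1 + sq d) / 2 else sq d := by
  have h : 0 < √(d : ℝ) := Real.sqrt_pos.2 (by exact_mod_cast hd)
  rw [om, ofComplex_apply_of_im_pos]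
  split_ifs
  · simpa [sq] using h
  · simpa [sq] using h

lemma om_sq {d : ℕ} (hd : 0 < d) : (om d : ℂ) ^ 2 = tt d * om d - nn d := by
  have := sq_sq d
  rw [coe_om hd, tt, nn]
  split_ifs with h
  · obtain ⟨k, hk⟩ : ∃ k : ℤ, (d : ℤ) = 4 * k - 1 := ⟨(d + 1) / 4, by omega⟩
    have e : (d : ℂ) = 4 * k - 1 := by exact_mod_cast hk
    rw [show ((d : ℤ) + 1) / 4 = k by omega]
    push_cast
    linear_combination this / 4 - e / 4
  · simpa using this

/-- multiplication by the generator -/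
def Om (d : ℕ) : M2 := !![tt d, -nn d; 1, 0]

/-- the table of admissible pairs -/
def Tab (d : ℕ) (D : ℤ) : Prop := (0 < D ∧ D % 4 = 1 ∧ d % 4 = 3) ∨
  (D < 0 ∧ ((D % 4 = 3 ∧ d % 4 ≠ 1) ∨ (D % 4 = 2 ∧ (d % 2 = 1 ∨ D % 8 = d % 8))))

/-- the lattice `ℤ τ + ℤ` -/
noncomputable def Lt (τ : ℍ) : PeriodPair := ⟨τ, 1, by
  rw [LinearIndependent.pair_iff]
  intro s t h
  have h1 := congrArg Complex.im h
  have h0 : s = 0 := by simpa [τ.im_pos.ne'] using h1
  exact ⟨h0, by simpa [h0] using h⟩⟩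

end Pool.Agent.MP_c481b3_nt.H31F
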