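import Pool.Agent.MP_c481b3_nt.H31F.Spec

set_option autoImplicit false

namespace Pool.Agent.MP_c481b3_nt.H31F

open UpperHalfPlane hiding I
open Complex Finset Filter Asymptotics
open scoped Manifold MatrixGroups Real

namespace Asy2Aux

lemma xpow (N : ℕ) (z : ℂ) (n : ℤ) : cexp (π * I * z / N) ^ n = cexp (n * (π * I * z / N)) :=
  (Complex.exp_int_mul _ n).symm

lemma norm_xpow (N : ℕ) (z : ℂ) (n : ℤ) :
    ‖cexp (π * I * z / N) ^ n‖ = Real.exp (-(n * π / N) * z.im) := by
  rw [xpow, Complex.norm_exp]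
  congr 1
  have : (n : ℂ) * (π * I * z / N) = ((n * π / N : ℝ) : ℂ) * (I * z) := by
    push_cast
    ring
  rw [this, Complex.re_ofReal_mul]
  simp

lemma pow_le (N : ℕ) {K n : ℤ} (h : K ≤ n) :
    (fun τ => xN N τ ^ n) =O[atImInfty] fun τ => xN N τ ^ K := by
  refine IsBigO.of_bound 1 (Eventually.of_forall fun τ => ?_)
  rw [one_mul, xN, norm_xpow, norm_xpow]
  apply Real.exp_le_exp.2
  have h1 : (0 : ℝ) ≤ (τ : ℂ).im := τ.im_pos.le
  have h2 : (K : ℝ) * π / N ≤ n * π / N := by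
    have : (K : ℝ) ≤ n := by exact_mod_cast h
    gcongr
  nlinarith

lemma sum_eq (F : LS ℂ) (x : ℂ) {m m' : ℤ} (K : ℤ) (h : ∀ n < m, F.coeff n = 0) (hm : m' ≤ m) :
    ∑ n ∈ Ico m K, F.coeff n * x ^ n = ∑ n ∈ Ico m' K, F.coeff n * x ^ n := by
  refine sum_subset (Ico_subset_Ico_left hm) fun n h1 h2 => ?_
  rw [mem_Ico] at h1 h2
  rw [h n (by omega), zero_mul]

lemma low (F : LS ℂ) : ∀ n < F.order, F.coeff n = 0 := fun _ h =>
  HahnSeries.coeff_eq_zero_of_lt_order h

lemma asy_of {N : ℕ} {f : ℍ → ℂ} {F : LS ℂ}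
    (h : ∀ K : ℤ, ∃ m K' : ℤ, (∀ n < m, F.coeff n = 0) ∧ K ≤ K' ∧
      (fun τ => f τ - ∑ n ∈ Ico m K', F.coeff n * xN N τ ^ n) =O[atImInfty]
        fun τ => xN N τ ^ K') : Asy N f F := by
  intro K
  obtain ⟨m, K', h1, h2, h3⟩ := h K
  have h4 : (fun τ => ∑ n ∈ Ico K K', F.coeff n * xN N τ ^ n) =O[atImInfty]
      fun τ => xN N τ ^ K :=
    IsBigO.fun_sum fun n hn => (pow_le N (mem_Ico.1 hn).1).const_mul_left _
  refine ((h3.trans (pow_le N h2)).add h4).congr_left fun τ => ?_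
  have e1 := sum_eq F (xN N τ) (m' := min (min m F.order) K) K' h1 (by omega)
  have e2 := sum_eq F (xN N τ) (m' := min (min m F.order) K) K (low F) (by omega)
  rw [e1, e2, ← Ico_union_Ico_eq_Ico (a := min (min m F.order) K) (b := K) (c := K') (by omega) h2,
    sum_union (Ico_disjoint_Ico_consecutive _ _ _)]
  ring

lemma norm_ru (r : ℚ) : ‖(ru r : ℂ)‖ = 1 := by
  have : (π * I * r : ℂ) = ((π * r : ℝ) : ℂ) * I := by
    push_cast
    ring
  simp only [ru, Units.val_mk0, this, Complex.norm_exp_ofReal_mul_I]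

end Asy2Aux

open Asy2Aux

theorem asySub : AsySub := by
  intro N₀ N a d e b hN₀ hN ha hd he f F hF
  have he0 : 0 < e := by
    rcases Nat.eq_zero_or_pos e with rfl | h
    · have := Nat.mul_pos ha hN
      omega
    · exact h
  have hdet : 0 < (!![(a : ℤ), b; 0, (d : ℤ)] : M2).det := by
    rw [Matrix.det_fin_two_of]
    have := Nat.mul_pos ha hd
    simp only [mul_zero, sub_zero]
    exact_mod_cast this
  have hd' : (d : ℂ) ≠ 0 := by exact_mod_cast hd.ne'
  have hN' : (N : ℂ) ≠ 0 := by exact_mod_cast hN.ne'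
  have hN₀' : (N₀ : ℂ) ≠ 0 := by exact_mod_cast hN₀.ne'
  have hact : ∀ τ : ℍ, (act !![(a : ℤ), b; 0, (d : ℤ)] τ : ℂ) = (a * τ + b) / d := by
    intro τ
    rw [coe_act hdet]
    simp [den]
  have hx : ∀ τ : ℍ, xN N₀ (act !![(a : ℤ), b; 0, (d : ℤ)] τ) =
      (ru (b / (d * N₀)) : ℂ) * xN N τ ^ (e : ℤ) := by
    intro τ
    have he' : (e : ℂ) * d * N₀ = a * N := by exact_mod_cast he
    rw [xN, xN, hact, xpow, ru, Units.val_mk0, ← Complex.exp_add]
    congr 1
    push_cast
    field_simp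
    linear_combination (-(τ : ℂ)) * he'
  have ht : Tendsto (act !![(a : ℤ), b; 0, (d : ℤ)]) atImInfty atImInfty := by
    have him : ∀ τ : ℍ, (act !![(a : ℤ), b; 0, (d : ℤ)] τ).im = (a / d : ℝ) * τ.im := by
      intro τ
      have : ((a : ℂ) * τ + b) / d = ((a / d : ℝ) : ℂ) * τ + ((b / d : ℝ) : ℂ) := by
        push_cast
        ring
      rw [← coe_im, hact, this, Complex.add_im, Complex.im_ofReal_mul, Complex.ofReal_im, add_zero,
        coe_im]
    rw [atImInfty, tendsto_comap_iff]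
    have : (UpperHalfPlane.im ∘ act !![(a : ℤ), b; 0, (d : ℤ)]) = fun τ => (a / d : ℝ) * τ.im :=
      funext him
    rw [this]
    exact Tendsto.const_mul_atTop (by positivity) tendsto_comap
  have he1 : (0 : ℤ) < e := by exact_mod_cast he0
  refine asy_of fun K => ⟨e * F.order, e * max K 0, fun n hn => ?_, ?_, ?_⟩
  · rw [coeff_sb he0]
    split_ifs with h
    · obtain ⟨k, rfl⟩ := h
      rw [Int.mul_ediv_cancel_left _ he1.ne', low F k (lt_of_mul_lt_mul_left hn he1.le), mul_zero]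
    · rfl
  · have := le_max_left K 0
    have := le_max_right K 0
    nlinarith
  · have h1 := (hF (max K 0)).comp_tendsto ht
    refine (h1.congr_left fun τ => ?_).trans (IsBigO.of_bound 1 (Eventually.of_forall fun τ => ?_))
    · simp only [Function.comp_apply]
      congr 1
      symm
      refine sum_of_injOn (fun n => (e : ℤ) * n) (fun x _ y _ h => mul_left_cancel₀ he1.ne' h)
        (fun n hn => ?_) (fun n hn h => ?_) (fun n _ => ?_) |>.symm
      · rw [mem_coe, mem_Ico] at hn ⊢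
        exact ⟨mul_le_mul_of_nonneg_left hn.1 he1.le, mul_lt_mul_of_pos_left hn.2 he1⟩
      · rw [coeff_sb he0, if_neg, zero_mul]
        rintro ⟨k, rfl⟩
        rw [mem_Ico] at hn
        exact h ⟨k, mem_coe.2 (mem_Ico.2 ⟨le_of_mul_le_mul_left hn.1 he1,
          lt_of_mul_lt_mul_left hn.2 he1.le⟩), rfl⟩
      · rw [coeff_sb_mul he0, hx, mul_zpow, ← zpow_mul, Units.val_zpow_eq_zpow_val]
        ring
    · simp only [Function.comp_apply]
      rw [hx, mul_zpow, ← zpow_mul, norm_mul, norm_zpow, norm_ru, one_zpow]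

theorem asyDer : AsyDer := by
  intro N hN f F hf hF
  have hN' : (N : ℂ) ≠ 0 := by exact_mod_cast hN.ne'
  refine asy_of fun K => ⟨F.order, K, fun n hn => ?_, le_rfl, ?_⟩
  · rw [HahnSeries.C_mul_eq_smul, HahnSeries.coeff_smul, coeff_th, low F n hn, mul_zero, smul_zero]
  obtain ⟨C, hC0, hC⟩ := (hF K).exists_nonneg
  obtain ⟨T, hT⟩ := (atImInfty_mem _).1 hC.bound
  let S : ℂ → ℂ := fun z => ∑ n ∈ Ico F.order K, F.coeff n * cexp (π * I * z / N) ^ n
  have hS : ∀ z, HasDerivAt S (∑ n ∈ Ico F.order K,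
      F.coeff n * (cexp (π * I * z / N) ^ n * (n * (π * I / N)))) z := by
    intro z
    refine HasDerivAt.fun_sum fun n _ => HasDerivAt.const_mul _ ?_
    simp only [xpow]
    refine HasDerivAt.cexp (HasDerivAt.const_mul _ ?_)
    simpa using ((hasDerivAt_id z).const_mul (π * I : ℂ)).div_const (N : ℂ)
  have hfd := UpperHalfPlane.mdifferentiable_iff.1 hf
  have hg : DifferentiableOn ℂ (fun z => (f ∘ ofComplex) z - S z) {z | 0 < z.im} :=
    hfd.sub fun z _ => (hS z).differentiableAt.differentiableWithinAt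
  refine IsBigO.of_bound (‖2 * (2 * π * I : ℂ)⁻¹‖ * (C * Real.exp |K * π / N|))
    ((atImInfty_mem _).2 ⟨max T 1 + 1, fun τ hτ => ?_⟩)
  have hτ' : max T 1 + 1 ≤ (τ : ℂ).im := hτ
  have hball : ∀ z ∈ Metric.closedBall (τ : ℂ) 1, |z.im - (τ : ℂ).im| ≤ 1 := by
    intro z hz
    rw [Metric.mem_closedBall, dist_eq_norm] at hz
    rw [← Complex.sub_im]
    exact (Complex.abs_im_le_norm _).trans hz
  have hT1 := le_max_left T 1
  have hT2 := le_max_right T 1
  have hsub : Metric.closedBall (τ : ℂ) 1 ⊆ {z | 0 < z.im} := by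
    intro z hz
    have := abs_le.1 (hball z hz)
    change 0 < z.im
    linarith
  have hb := Complex.norm_deriv_le_of_forall_mem_sphere_norm_le (c := (τ : ℂ)) (R := 1)
    (C := C * Real.exp |K * π / N| * ‖xN N τ ^ K‖) one_pos
    ((hg.mono (by rwa [closure_ball _ one_ne_zero])).diffContOnCl) (fun z hz => by
      have hz' := Metric.sphere_subset_closedBall hz
      have h1 := abs_le.1 (hball z hz')
      have hz0 : 0 < z.im := hsub hz'
      have h2 := hT ⟨z, hz0⟩ (by change T ≤ z.im; linarith)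
      rw [Function.comp_apply, ofComplex_apply_of_im_pos hz0]
      refine le_trans h2 ?_
      rw [mul_assoc]
      refine mul_le_mul_of_nonneg_left ?_ hC0
      rw [xN, xN, norm_xpow, norm_xpow, ← Real.exp_add]
      apply Real.exp_le_exp.2
      have h3 : |K * π / N * (z.im - (τ : ℂ).im)| ≤ |K * π / N| := by
        rw [abs_mul]
        exact mul_le_of_le_one_right (abs_nonneg _) (hball z hz')
      have h4 := neg_abs_le (K * π / N * (z.im - (τ : ℂ).im))
      change -(K * π / N) * z.im ≤ _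
      nlinarith)
  have hd : DifferentiableAt ℂ (f ∘ ofComplex) τ :=
    hfd.differentiableAt (isOpen_upperHalfPlaneSet.mem_nhds τ.im_pos)
  rw [(hd.hasDerivAt.fun_sub (hS τ)).deriv, div_one] at hb
  change ‖_‖ ≤ _
  rw [mul_assoc]
  refine le_trans (le_of_eq ?_) (mul_le_mul_of_nonneg_left hb (norm_nonneg _))
  rw [← norm_mul]
  congr 1
  rw [dv, Derivative.normalizedDerivOfComplex, mul_sub, ← mul_assoc, mul_sum]
  congr 1
  refine sum_congr rfl fun n _ => ?_
  rw [HahnSeries.C_mul_eq_smul, HahnSeries.coeff_smul, coeff_th, smul_eq_mul, xN]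
  have hπ : (π : ℂ) ≠ 0 := by exact_mod_cast Real.pi_ne_zero
  field_simp

end Pool.Agent.MP_c481b3_nt.H31F
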