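import Pool.Agent.MP_c481b3_nt.H31F.Spec

/-! Expansions of modular forms of level one, and the reality of `YY`. -/

set_option autoImplicit false

namespace Pool.Agent.MP_c481b3_nt.H31F

open UpperHalfPlane hiding I
open Complex Finset Filter Asymptotics
open scoped Manifold MatrixGroups Real ComplexConjugate Topology

namespace Asy3Aux

lemma q_eq (τ : ℍ) : Function.Periodic.qParam 1 (τ : ℂ) = xN 1 τ ^ 2 := by
  rw [Function.Periodic.qParam, xN, ← Complex.exp_nat_mul]
  congr 1
  push_cast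
  ring

lemma x_ne (τ : ℍ) : xN 1 τ ≠ 0 := exp_ne_zero _

lemma x_le (τ : ℍ) : ‖xN 1 τ‖ ≤ 1 := by
  have h := Function.Periodic.norm_qParam_lt_one one_pos τ.im_pos
  rw [q_eq, norm_pow] at h
  exact (sq_lt_one_iff₀ (norm_nonneg _)).1 h |>.le

lemma coeff_neg (p : PowerSeries ℂ) {n : ℤ} (hn : n < 0) :
    (HahnSeries.ofPowerSeries ℤ ℂ p).coeff n = 0 := by
  rw [PowerSeries.coeff_coe, if_pos hn]

lemma trunc (p : PowerSeries ℂ) (K : ℤ) (x : ℂ) :
    ∑ n ∈ Ico (ex 2 (HahnSeries.ofPowerSeries ℤ ℂ p)).order K,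
      (ex 2 (HahnSeries.ofPowerSeries ℤ ℂ p)).coeff n * x ^ n =
      ∑ m ∈ range ((K + 1) / 2).toNat, p.coeff m * (x ^ 2) ^ m := by
  set F := ex 2 (HahnSeries.ofPowerSeries ℤ ℂ p) with hF
  set t : Finset ℤ := (range ((K + 1) / 2).toNat).image fun m : ℕ => 2 * (m : ℤ) with ht
  have h1 : ∑ n ∈ Ico F.order K, F.coeff n * x ^ n = ∑ n ∈ Ico F.order K ∪ t, F.coeff n * x ^ n := by
    refine sum_subset subset_union_left fun n hn hn' => ?_
    obtain ⟨m, hm, rfl⟩ := mem_image.1 ((mem_union.1 hn).resolve_left hn')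
    rw [mem_range] at hm
    rw [mem_Ico] at hn'
    rw [HahnSeries.coeff_eq_zero_of_lt_order (by omega), zero_mul]
  have h2 : ∑ n ∈ t, F.coeff n * x ^ n = ∑ n ∈ Ico F.order K ∪ t, F.coeff n * x ^ n := by
    refine sum_subset subset_union_right fun n hn hn' => ?_
    have h3 := (mem_Ico.1 ((mem_union.1 hn).resolve_right hn')).2
    rw [hF, coeff_ex two_pos]
    split_ifs with hd
    · obtain ⟨a, rfl⟩ := hd
      rw [coeff_neg, zero_mul]
      by_contra h4
      refine hn' (mem_image.2 ⟨a.toNat, mem_range.2 ?_, ?_⟩)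
      · push_cast at h3 h4
        omega
      · push_cast at h4 ⊢
        omega
    · exact zero_mul _
  rw [h1, ← h2, ht, sum_image fun a _ b _ h => by omega]
  refine sum_congr rfl fun m _ => ?_
  have h5 := coeff_ex_mul two_pos (HahnSeries.ofPowerSeries ℤ ℂ p) (m : ℤ)
  rw [HahnSeries.ofPowerSeries_apply_coeff] at h5
  rw [← pow_mul, ← zpow_natCast]
  push_cast at h5 ⊢
  rw [hF, h5]

lemma q_conj (h : ℝ) {z w : ℂ} (e : w = -conj z) :
    Function.Periodic.qParam h w = conj (Function.Periodic.qParam h z) := by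
  rw [Function.Periodic.qParam, Function.Periodic.qParam, ← exp_conj, e]
  congr 1
  simp only [map_div₀, map_mul, conj_ofReal, conj_I, map_ofNat]
  ring

lemma eta_conj {τ τ' : ℍ} (e : (τ' : ℂ) = -conj (τ : ℂ)) :
    ModularForm.eta τ' = conj (ModularForm.eta τ) := by
  have h := (ModularForm.multipliable_one_sub_pow
    (Function.Periodic.norm_qParam_lt_one one_pos τ.im_pos)).hasProd.map
      (starRingEnd ℂ).toMonoidHom continuous_conj
  rw [ModularForm.eta, ModularForm.eta, map_mul, q_conj 24 e]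
  congr 1
  refine HasProd.tprod_eq ?_
  convert h using 1
  · ext n
    simp [ModularForm.eta_q, q_conj 1 e]
  · rfl

lemma e6_conj {τ τ' : ℍ} (e : (τ' : ℂ) = -conj (τ : ℂ)) :
    ModularForm.E₆ τ' = conj (ModularForm.E₆ τ) := by
  have h := fun σ : ℍ => UpperHalfPlane.hasSum_qExpansion (f := ModularForm.E₆) one_pos
    (SlashInvariantFormClass.periodic_comp_ofComplex _ one_mem_strictPeriods_SL)
    (ModularFormClass.holo _) (ModularFormClass.bdd_at_infty _) σ
  refine (h τ').unique ?_
  convert (h τ).map (starRingEnd ℂ).toAddMonoidHom continuous_conj using 1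
  swap
  · rfl
  ext m
  have hc : conj ((qExpansion 1 ModularForm.E₆).coeff m) = (qExpansion 1 ModularForm.E₆).coeff m := by
    rw [EisensteinSeries.E_qExpansion_coeff _ ⟨3, rfl⟩]
    split_ifs <;> simp [map_ofNat]
  simp [q_conj 1 e, hc]

end Asy3Aux

open Asy3Aux

theorem asyQ : AsyQ := by
  intro k f K
  have hs := fun σ : ℍ => UpperHalfPlane.hasSum_qExpansion (f := f) one_pos
    (SlashInvariantFormClass.periodic_comp_ofComplex _ one_mem_strictPeriods_SL)
    (ModularFormClass.holo _) (ModularFormClass.bdd_at_infty _) σ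
  have h1 := (hasFPowerSeriesOnBall_cuspFunction one_pos
    (ModularFormClass.analyticAt_cuspFunction_zero f one_pos one_mem_strictPeriods_SL)
    hs).hasFPowerSeriesAt.isBigO_sub_partialSum_pow ((K + 1) / 2).toNat
  have h2 := h1.comp_tendsto (qParam_tendsto_atImInfty one_pos)
  refine (h2.congr_left fun τ => ?_).trans (IsBigO.of_bound 1 (Eventually.of_forall fun τ => ?_))
  · simp only [Function.comp_apply, zero_add]
    rw [SlashInvariantFormClass.eq_cuspFunction f τ one_mem_strictPeriods_SL one_ne_zero, trunc,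
      ← q_eq]
    simp [FormalMultilinearSeries.partialSum, FormalMultilinearSeries.coeff_ofScalars, mul_comm]
  · simp only [Function.comp_apply, one_mul]
    rw [q_eq, norm_pow, norm_norm, norm_pow, norm_zpow, ← pow_mul, ← zpow_natCast]
    refine zpow_le_zpow_right_of_le_one₀ (norm_pos_iff.2 (x_ne τ)) (x_le τ) ?_
    push_cast
    omega

theorem real : REAL := by
  intro τ τ' e
  rw [YY, YY, dl, dl, e6_conj e, eta_conj e, map_div₀, map_pow]

end Pool.Agent.MP_c481b3_nt.H31F
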