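import Pool.Agent.MP_c481b3_nt.H31F.Spec

set_option autoImplicit false

namespace Pool.Agent.MP_c481b3_nt.H31F

open Polynomial Finset

namespace CarAux

section ring
variable {R : Type} [CommRing R]

lemma van_mul {F G : LS R} {a b : ℤ} (hF : ∀ n < a, F.coeff n = 0) (hG : ∀ n < b, G.coeff n = 0) :
    ∀ n < a + b, (F * G).coeff n = 0 := by
  intro n hn
  rw [HahnSeries.coeff_mul]
  refine Finset.sum_eq_zero fun x hx => ?_
  have h := (Finset.mem_antidiagonal.1 hx).2.2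
  by_cases h1 : x.1 < a
  · rw [hF _ h1, zero_mul]
  · rw [hG x.2 (by omega), mul_zero]

lemma van_pow {F : LS R} {a : ℤ} (hF : ∀ n < a, F.coeff n = 0) (m : ℕ) :
    ∀ n < m * a, (F ^ m).coeff n = 0 := by
  induction m with
  | zero =>
    intro n hn
    have : n ≠ 0 := by simp at hn; omega
    simp [HahnSeries.coeff_one, this]
  | succ m ih =>
    intro n hn
    rw [pow_succ]
    refine van_mul ih hF n ?_
    push_cast at hn
    linarith

lemma charP (p : ℕ) [CharP R p] : CharP (LS R) p :=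
  charP_of_injective_ringHom (f := (HahnSeries.C : R →+* LS R)) HahnSeries.C_injective p

end ring

end CarAux

open CarAux in
theorem frob : FROB := by
  intro R _ p hp _ F
  have hp0 : 0 < p := hp.out.pos
  have := charP (R := R) p
  have hs : ∀ (i : ℤ) (r : R), (HahnSeries.single i r : LS R) ^ p
      = ex p (mapL (frobenius R p) (HahnSeries.single i r)) := by
    intro i r
    rw [HahnSeries.single_pow]
    ext n
    rw [coeff_ex hp0, HahnSeries.coeff_single, coeff_mapL, HahnSeries.coeff_single, nsmul_eq_mul]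
    have hp' : (p : ℤ) ≠ 0 := by exact_mod_cast hp0.ne'
    by_cases hd : (p : ℤ) ∣ n
    · obtain ⟨m, rfl⟩ := hd
      rw [if_pos (dvd_mul_right _ _), Int.mul_ediv_cancel_left _ hp']
      by_cases hm : m = i
      · simp [hm, frobenius_def]
      · rw [if_neg hm, if_neg fun e => hm (mul_left_cancel₀ hp' e), map_zero]
    · rw [if_neg hd, if_neg fun e => hd ⟨i, e⟩]
  ext n
  set K : ℤ := |n| + 1 with hK
  set T : LS R := ∑ i ∈ Finset.Ico F.order K, HahnSeries.single i (F.coeff i) with hT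
  have hG : ∀ i < K, (F - T).coeff i = 0 := by
    intro i hi
    rw [HahnSeries.coeff_sub, hT, HahnSeries.coeff_sum]
    rw [Finset.sum_eq_single i (fun b _ hb => HahnSeries.coeff_single_of_ne hb.symm) ?_,
      HahnSeries.coeff_single_same, sub_self]
    intro h
    rw [HahnSeries.coeff_single_same]
    refine HahnSeries.coeff_eq_zero_of_lt_order ?_
    by_contra h'
    exact h (Finset.mem_Ico.2 ⟨not_lt.1 h', hi⟩)
  have hn : n < p * K := by
    have h1 : (1 : ℤ) ≤ p := by exact_mod_cast hp0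
    have h2 := le_abs_self n
    have h3 := abs_nonneg n
    nlinarith
  have hTp : T ^ p = ex p (mapL (frobenius R p) T) := by
    rw [hT, sum_pow_char, map_sum, map_sum]
    exact Finset.sum_congr rfl fun i _ => hs i _
  have e : F = T + (F - T) := by ring
  have h2 : (ex p (mapL (frobenius R p) (F - T))).coeff n = 0 := by
    rw [coeff_ex hp0]
    split_ifs with hd
    · obtain ⟨m, rfl⟩ := hd
      have hp' : (0 : ℤ) < p := by exact_mod_cast hp0
      rw [Int.mul_ediv_cancel_left _ hp'.ne', coeff_mapL, hG m (lt_of_mul_lt_mul_left hn hp'.le),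
        map_zero]
    · rfl
  rw [e, add_pow_char, map_add, map_add, HahnSeries.coeff_add, HahnSeries.coeff_add, hTp,
    van_pow hG p n hn, h2]

namespace CarAux

variable {k : Type} [Field k]

lemma ae_ne (h : POL) {P : k[X]} (hP : P ≠ 0) : aeval (Yc k) P ≠ 0 := by
  intro e
  have := (h.top k P).1
  rw [e, HahnSeries.coeff_zero] at this
  exact hP (leadingCoeff_eq_zero.1 this.symm)

/-- the field of rational functions of `Yc k` -/
def KK (h : POL) (k : Type) [Field k] : Subfield (LS k) where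
  carrier := {F | InK k F}
  mul_mem' := by
    rintro F G ⟨P₁, P₂, h2, e⟩ ⟨Q₁, Q₂, h2', e'⟩
    refine ⟨P₁ * Q₁, P₂ * Q₂, mul_ne_zero h2 h2', ?_⟩
    rw [map_mul, map_mul, ← e, ← e']; ring
  one_mem' := ⟨1, 1, one_ne_zero, one_mul _⟩
  add_mem' := by
    rintro F G ⟨P₁, P₂, h2, e⟩ ⟨Q₁, Q₂, h2', e'⟩
    refine ⟨P₁ * Q₂ + Q₁ * P₂, P₂ * Q₂, mul_ne_zero h2 h2', ?_⟩
    rw [map_add, map_mul, map_mul, map_mul, ← e, ← e']; ring
  zero_mem' := ⟨0, 1, one_ne_zero, by simp⟩
  neg_mem' := by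
    rintro F ⟨P₁, P₂, h2, e⟩
    exact ⟨-P₁, P₂, h2, by rw [map_neg, ← e, neg_mul]⟩
  inv_mem' := by
    rintro F ⟨P₁, P₂, h2, e⟩
    by_cases hF : F = 0
    · exact ⟨0, 1, one_ne_zero, by simp [hF]⟩
    refine ⟨P₂, P₁, ?_, ?_⟩
    · rintro rfl
      rw [map_zero] at e
      exact mul_ne_zero hF (ae_ne h h2) e
    · rw [← e, inv_mul_cancel_left₀ hF]

lemma mem_KK {h : POL} {F : LS k} : F ∈ KK h k ↔ InK k F := Iff.rfl

lemma ae_mem (h : POL) (P : k[X]) : aeval (Yc k) P ∈ KK h k := ⟨P, 1, one_ne_zero, by simp⟩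

lemma inU_iff (h : POL) {g : LS k} : InU k g ↔ ∃ R ∈ KK h k, g = th (Yc k) * R := by
  constructor
  · rintro ⟨P₁, P₂, h2, e⟩
    refine ⟨_, div_mem (ae_mem h P₁) (ae_mem h P₂), ?_⟩
    rw [← mul_div_assoc, eq_div_iff (ae_ne h h2), e]
  · rintro ⟨R, ⟨P₁, P₂, h2, e⟩, rfl⟩
    exact ⟨P₁, P₂, h2, by rw [mul_assoc, e]⟩

lemma th_mem (h : POL) {F : LS k} (hF : F ∈ KK h k) : ∃ R ∈ KK h k, th F = th (Yc k) * R := by
  obtain ⟨P₁, P₂, h2, e⟩ := id hF
  have e' := congrArg th e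
  rw [th_mul, th_aeval, th_aeval] at e'
  refine ⟨_, div_mem (sub_mem (ae_mem h P₁.derivative) (mul_mem hF (ae_mem h P₂.derivative)))
    (ae_mem h P₂), ?_⟩
  rw [← mul_div_assoc, eq_div_iff (ae_ne h h2)]
  linear_combination e'

lemma th_step (h : POL) {S : LS k} (hS : S ∈ KK h k) (e : th (th (Yc k)) = th (Yc k) ^ 2 * S)
    (j : ℕ) {R : LS k} (hR : R ∈ KK h k) :
    ∃ R' ∈ KK h k, th (th (Yc k) ^ (j + 1) * R) = th (Yc k) ^ (j + 2) * R' := by
  obtain ⟨R₁, h1, e1⟩ := th_mem h hR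
  refine ⟨_, add_mem (mul_mem (mul_mem (natCast_mem _ (j + 1)) hS) hR) h1, ?_⟩
  rw [th_mul, th_pow, e, e1]
  ring

lemma th_iter (h : POL) {S : LS k} (hS : S ∈ KK h k) (e : th (th (Yc k)) = th (Yc k) ^ 2 * S)
    (j : ℕ) {R : LS k} (hR : R ∈ KK h k) :
    ∃ R' ∈ KK h k, th^[j] (th (Yc k) * R) = th (Yc k) ^ (j + 1) * R' := by
  induction j with
  | zero => exact ⟨R, hR, by simp⟩
  | succ j ih =>
    obtain ⟨R₁, h1, e1⟩ := ih
    rw [Function.iterate_succ_apply', e1]
    exact th_step h hS e j h1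

lemma coeff_iter (j : ℕ) (g : LS k) (n : ℤ) : (th^[j] g).coeff n = (n : k) ^ j * g.coeff n := by
  induction j with
  | zero => simp
  | succ j ih => rw [Function.iterate_succ_apply', coeff_th, ih]; ring

lemma root_mem (h : POL) [IsAlgClosed k] (l : ℕ) [hl : Fact l.Prime] [CharP k l] {G : LS k}
    (hG : G ^ l ∈ KK h k) : G ∈ KK h k := by
  have := charP (R := k) l
  obtain ⟨P₁, P₂, h2, e⟩ := hG
  obtain ⟨m, hm⟩ : ∃ m, l = m + 1 := ⟨l - 1, by have := hl.out.pos; omega⟩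
  have e1 : (G * aeval (Yc k) P₂) ^ l = aeval (Yc k) (P₁ * P₂ ^ m) := by
    rw [map_mul, map_pow, ← e, mul_pow, mul_assoc, ← pow_succ', ← hm]
  have e2 : derivative (P₁ * P₂ ^ m) = 0 := by
    have := congrArg th e1
    have h0 : th ((G * aeval (Yc k) P₂) ^ l) = 0 := by
      have hc : ((m + 1 : ℕ) : LS k) = 0 := by rw [← hm]; exact CharP.cast_eq_zero _ _
      rw [hm, th_pow, hc, zero_mul, zero_mul]
    rw [h0, th_aeval] at this
    by_contra hne
    exact mul_ne_zero (ae_ne h hne) (h.unit k).1.ne_zero this.symm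
  set T : k[X] := (contract l (P₁ * P₂ ^ m)).map (frobeniusEquiv k l).symm with hT
  have e3 : T ^ l = P₁ * P₂ ^ m := by
    rw [← map_frobenius_expand, map_expand, hT, Polynomial.map_map,
      frobenius_comp_frobeniusEquiv_symm, Polynomial.map_id, expand_contract l e2 hl.out.ne_zero]
  refine ⟨T, P₂, h2, ?_⟩
  rw [← e3, map_pow, ← sub_eq_zero, ← sub_pow_char] at e1
  exact sub_eq_zero.1 (eq_zero_of_pow_eq_zero e1)

end CarAux

open CarAux in
theorem car_of (h : FROB) (h' : POL) : CAR := by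
  intro k _ _ l _ hl h2 hw
  have : Fact l.Prime := ⟨hl⟩
  have := charP (R := k) l
  obtain ⟨m, hm⟩ : ∃ m, l = 2 * (m + 1) + 1 := by
    obtain ⟨a, ha⟩ := hl.odd_of_ne_two h2
    have := hl.two_le
    exact ⟨a - 1, by omega⟩
  have hm2 : (l - 1) / 2 = m + 1 := by omega
  rw [hm2] at hw
  replace hw : th (Yc k) ^ (m + 1) ∈ KK h' k := hw
  have hu : th (Yc k) ≠ 0 := (h'.unit k).1.ne_zero
  have hc : ((m + 1 : ℕ) : LS k) ≠ 0 := by
    rw [Ne, CharP.cast_eq_zero_iff (LS k) l]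
    intro hd
    have := Nat.le_of_dvd (Nat.succ_pos m) hd
    omega
  obtain ⟨S, hS, eS⟩ : ∃ S ∈ KK h' k, th (th (Yc k)) = th (Yc k) ^ 2 * S := by
    obtain ⟨R, hR, e⟩ := th_mem h' hw
    refine ⟨_, div_mem hR (mul_mem (natCast_mem _ (m + 1)) hw), ?_⟩
    rw [th_pow] at e
    rw [← mul_div_assoc, eq_div_iff (mul_ne_zero hc (pow_ne_zero _ hu))]
    linear_combination th (Yc k) * e
  have htw : ∀ g, InU k g → InU k (th^[m + 1] g) := by
    intro g hg
    obtain ⟨R, hR, rfl⟩ := (inU_iff h').1 hg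
    obtain ⟨R', hR', e⟩ := th_iter h' hS eS (m + 1) hR
    exact (inU_iff h').2 ⟨_, mul_mem hw hR', by rw [e]; ring⟩
  refine ⟨fun g g' hg hg' => ?_, fun c g hg => ?_, fun g hg => hm2 ▸ htw g hg,
    fun g F hg hF => ?_⟩
  · obtain ⟨R, hR, rfl⟩ := (inU_iff h').1 hg
    obtain ⟨R', hR', rfl⟩ := (inU_iff h').1 hg'
    exact (inU_iff h').2 ⟨_, add_mem hR hR', by ring⟩
  · obtain ⟨R, hR, rfl⟩ := (inU_iff h').1 hg
    have := ae_mem h' (C c)
    rw [aeval_C, algebraMap_LS] at this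
    exact (inU_iff h').2 ⟨_, mul_mem this hR, by ring⟩
  · have e : F ^ l = g - th^[m + 1] (th^[m + 1] g) := by
      ext n
      rw [h k l F, coeff_ex hl.pos, HahnSeries.coeff_sub, coeff_iter, coeff_iter, ← mul_assoc,
        ← pow_add]
      have hl' : (l : ℤ) ≠ 0 := by exact_mod_cast hl.ne_zero
      split_ifs with hd
      · have h0 : (n : k) = 0 := (CharP.intCast_eq_zero_iff k l n).2 hd
        obtain ⟨a, rfl⟩ := hd
        rw [Int.mul_ediv_cancel_left _ hl', coeff_mapL, frobenius_def, hF, h0,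
          zero_pow (by omega), zero_mul, sub_zero]
      · have h0 : (n : k) ≠ 0 := fun z => hd ((CharP.intCast_eq_zero_iff k l n).1 z)
        have h1 : (n : k) ^ l = n := by
          rw [← frobenius_def, map_intCast]
        have h3 : (n : k) ^ (m + 1 + (m + 1)) = 1 := by
          apply mul_right_cancel₀ h0
          rw [← pow_succ, one_mul, show m + 1 + (m + 1) + 1 = l by omega, h1]
        rw [h3, one_mul, sub_self]
    obtain ⟨R, hR, eR⟩ := (inU_iff h').1 hg
    obtain ⟨R', hR', eR'⟩ := (inU_iff h').1 (htw _ (htw g hg))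
    refine (inU_iff h').2 ⟨F / th (Yc k), root_mem h' l ?_, by field_simp⟩
    have e2 : (F / th (Yc k)) ^ l = (R - R') / (th (Yc k) ^ (m + 1) * th (Yc k) ^ (m + 1)) := by
      rw [div_pow, e, eR', div_eq_div_iff (pow_ne_zero _ hu)
        (mul_ne_zero (pow_ne_zero _ hu) (pow_ne_zero _ hu))]
      conv_lhs => rw [eR]
      rw [show th (Yc k) ^ l = th (Yc k) ^ (2 * (m + 1) + 1) by rw [← hm]]
      ring
    rw [e2]
    exact div_mem (sub_mem hR hR') (mul_mem hw hw)

end Pool.Agent.MP_c481b3_nt.H31F
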