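import Pool.Agent.MP_c481b3_nt.H31F.Spec

/-!
Modular functions with integral expansions are integral over the polynomials in `YY`.
-/

set_option autoImplicit false

namespace Pool.Agent.MP_c481b3_nt.H31F

open UpperHalfPlane hiding I
open Polynomial Finset

namespace ChpAux

/-- composition with the action of a matrix -/
noncomputable def ps (γ : M2) : (ℍ → ℂ) →+* ℍ → ℂ :=
  RingHom.pi fun τ => Pi.evalRingHom (fun _ => ℂ) (act γ τ)

lemma ps_ps {γ δ : M2} (h : γ.det = 1) (h' : δ.det = 1) (f : ℍ → ℂ) :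
    ps γ (ps δ f) = ps (δ * γ) f :=
  funext fun τ => congrArg f (act_mul (by simp [h']) (by simp [h]) τ).symm

lemma ps_one (f : ℍ → ℂ) : ps 1 f = f := funext fun τ => congrArg f (act_one τ)

lemma det_adj {γ : M2} (h : γ.det = 1) : γ.adjugate.det = 1 := by simp [Matrix.det_adjugate, h]

lemma fin {O : ValuationSubring ℂ} {N : ℕ} {f : ℍ → ℂ} (hN : 0 < N) (hf : Mem O N f) :
    ((fun γ => ps γ f) '' {γ | γ.det = 1}).Finite := by
  have : NeZero (2 * N) := ⟨by omega⟩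
  let φ : M2 →+* Matrix (Fin 2) (Fin 2) (ZMod (2 * N)) := (Int.castRingHom _).mapMatrix
  refine (Set.finite_range fun c => ps (Function.invFunOn φ {γ | γ.det = 1} c) f).subset ?_
  rintro _ ⟨γ, h, rfl⟩
  obtain ⟨h1, h2⟩ := Function.invFunOn_pos (f := φ) (s := {γ | γ.det = 1}) ⟨γ, h, rfl⟩
  refine ⟨φ γ, ?_⟩
  beta_reduce
  generalize Function.invFunOn φ {γ | γ.det = 1} (φ γ) = δ at h1 h2
  have h3 : (δ * γ.adjugate).det = 1 := by rw [Matrix.det_mul, h1, det_adj h, one_mul]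
  have h4 : φ 1 = φ (δ * γ.adjugate) := by
    rw [map_mul, h2, ← map_mul, Matrix.mul_adjugate, h, one_smul]
  have h5 : ps (δ * γ.adjugate) f = f := funext (hf.inv _ h3 fun i j =>
    (ZMod.intCast_eq_intCast_iff_dvd_sub _ _ _).1 (congrFun (congrFun h4 i) j))
  conv_rhs => rw [← h5, ps_ps h h3, mul_assoc, Matrix.adjugate_mul, h, one_smul, mul_one]

end ChpAux

open ChpAux in
theorem chp_of (_b : B1) (h1 : LV) (h2 : MemRing) : CHP := by
  intro O N f hN hf
  obtain ⟨m1, m2, m3, -⟩ := h2 O N hN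
  let A : Subring (ℍ → ℂ) :=
    { carrier := {g | Mem O N g}
      mul_mem' := fun a b => (m2 _ _ a b).2.2
      one_mem' := m1 1 (one_mem O)
      add_mem' := fun a b => (m2 _ _ a b).1
      zero_mem' := m1 0 (zero_mem O)
      neg_mem' := fun a => by simpa [Pi.neg_def] using (m2 _ _ (m1 0 (zero_mem O)) a).2.1 }
  let S := (fin hN hf).toFinset
  have hS : ∀ g, g ∈ S ↔ ∃ γ : M2, γ.det = 1 ∧ ps γ f = g := fun g => Set.Finite.mem_toFinset _
  have hS' : ∀ γ : M2, γ.det = 1 → ∀ g ∈ S, ps γ g ∈ S := fun γ h g hg => by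
    obtain ⟨δ, h', rfl⟩ := (hS g).1 hg
    exact (hS _).2 ⟨δ * γ, by simp [h, h'], (ps_ps h h' f).symm⟩
  let p : (ℍ → ℂ)[X] := ∏ g ∈ S, (X - C g)
  have p1 : p.Monic := monic_prod_X_sub_C _ _
  have p2 : p.eval f = 0 := by
    rw [eval_prod]
    exact prod_eq_zero ((hS f).2 ⟨1, by simp, ps_one f⟩) (by simp)
  have p3 : ∀ i, Mem O N (p.coeff i) := by
    obtain ⟨q, hq⟩ : p ∈ (mapRingHom A.subtype).range := prod_mem fun g hg => by
      obtain ⟨δ, h', rfl⟩ := (hS g).1 hg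
      exact ⟨X - C ⟨ps δ f, m3 f δ h' hf⟩, by simp⟩
    intro i
    rw [← hq, coe_mapRingHom, coeff_map]
    exact (q.coeff i).2
  have p4 : ∀ γ : M2, γ.det = 1 → p.map (ps γ) = p := fun γ h => by
    rw [Polynomial.map_prod]
    refine prod_nbij' (ps γ) (ps γ.adjugate) (hS' γ h) (hS' _ (det_adj h)) (fun g _ => ?_)
      (fun g _ => ?_) fun g _ => by simp
    · rw [ps_ps (det_adj h) h, Matrix.mul_adjugate, h, one_smul, ps_one]
    · rw [ps_ps h (det_adj h), Matrix.adjugate_mul, h, one_smul, ps_one]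
  have p5 : ∀ i, ∃ P : ℂ[X], (∀ k, P.coeff k ∈ O) ∧ ∀ τ, p.coeff i τ = P.eval (YY τ) := fun i => by
    obtain ⟨F, hF, hF'⟩ := (p3 i).asy 1 (by simp)
    simp only [act_one] at hF'
    obtain ⟨P, a, -, b, -⟩ := (h1 N O.toSubring _ F hN (p3 i).hol hF' hF).1 0 fun γ τ h => by
      rw [pow_zero, one_mul]
      conv_rhs => rw [← p4 γ h, coeff_map]
      rfl
    exact ⟨P, a, b⟩
  choose P hP hP' using p5
  have h3 : ∀ τ, f τ ^ p.natDegree + ∑ i ∈ range p.natDegree, (P i).eval (YY τ) * f τ ^ i = 0 := by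
    intro τ
    rw [eval_eq_sum_range, sum_range_succ, p1.coeff_natDegree, one_mul, add_comm] at p2
    simpa [hP'] using congrFun p2 τ
  refine ⟨⟨_, P, hP, h3⟩, fun τ hτ => (O.valuation_le_one_iff _).1 (le_of_not_gt fun h => ?_)⟩
  have h4 := congrArg O.valuation (eq_neg_of_add_eq_zero_left (h3 τ))
  rw [Valuation.map_neg, map_pow] at h4
  refine (O.valuation.map_sum_lt (pow_ne_zero _ (zero_lt_one.trans h).ne') fun i hi => ?_).ne' h4
  have h5 : (P i).eval (YY τ) ∈ O := by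
    rw [eval_eq_sum_range]
    exact sum_mem fun k _ => mul_mem (hP i k) (pow_mem hτ k)
  rw [map_mul, map_pow]
  exact (mul_le_of_le_one_left' ((O.valuation_le_one_iff _).2 h5)).trans_lt
    (pow_lt_pow_right₀ h (mem_range.1 hi))

end Pool.Agent.MP_c481b3_nt.H31F
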