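import Pool.Agent.MP_c481b3_nt.H31F.Spec

set_option autoImplicit false

namespace Pool.Agent.MP_c481b3_nt.H31F

open UpperHalfPlane hiding I
open Complex Polynomial Filter Topology
open scoped Manifold MatrixGroups Real ModularForm

namespace LvAux

lemma xN_tendsto {N : ℕ} (hN : 0 < N) : Tendsto (xN N) atImInfty (𝓝 0) := by
  rw [tendsto_zero_iff_norm_tendsto_zero]
  have e : (fun τ : ℍ => ‖xN N τ‖) = fun τ : ℍ => Real.exp (-(π / N) * τ.im) := by
    funext τ
    rw [xN, Complex.norm_exp]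
    congr 1
    have : (π * I * τ / N : ℂ) = ((π / N : ℝ) : ℂ) * (I * τ) := by push_cast; ring
    rw [this, re_ofReal_mul]
    simp
  rw [e]
  refine Real.tendsto_exp_atBot.comp ?_
  have hp : (0 : ℝ) < π / N := div_pos Real.pi_pos (by exact_mod_cast hN)
  exact Tendsto.const_mul_atTop_of_neg (by linarith) tendsto_comap

lemma zero_of_tendsto {f : ℍ → ℂ} (hf : Hol f) (hi : ∀ (γ : M2) τ, γ.det = 1 → f (act γ τ) = f τ)
    (h0 : Tendsto f atImInfty (𝓝 0)) (τ : ℍ) : f τ = 0 := by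
  have hs : ∀ γ : SL(2, ℤ), f ∣[(0 : ℤ)] γ = f := by
    intro γ
    funext z
    rw [ModularForm.SL_slash_apply, ← act_SL, hi _ _ γ.2]
    simp
  let g : ModularForm 𝒮ℒ 0 :=
    { toFun := f
      slash_action_eq' := fun _ ⟨γ, hγ⟩ => hγ ▸ hs γ
      holo' := hf
      bdd_at_cusps' := fun {c} hc => by
        rw [Subgroup.IsArithmetic.isCusp_iff_isCusp_SL2Z] at hc
        rw [OnePoint.isBoundedAt_iff_forall_SL2Z hc]
        intro γ _
        rw [hs γ]
        exact h0.isBigO_one ℝ }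
  obtain ⟨c, hc⟩ := ModularFormClass.levelOne_weight_zero_const g
  have e : f = fun _ => c := hc
  rw [e] at h0 ⊢
  exact (tendsto_nhds_unique h0 tendsto_const_nhds).symm

lemma eps_sq (γ : M2) : ((eps γ : ℤ) : ℂ) ^ 2 = 1 := by
  unfold eps
  split_ifs <;> simp

lemma eps_pow {γ : M2} {m i : ℕ} (h : m % 2 = i % 2) :
    ((eps γ : ℤ) : ℂ) ^ m = ((eps γ : ℤ) : ℂ) ^ i := by
  rw [← Nat.div_add_mod m 2, ← Nat.div_add_mod i 2, pow_add, pow_add, pow_mul, pow_mul, eps_sq,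
    one_pow, one_pow, h]

/-- the support of the expansion -/
lemma supp (b : B1) {N : ℕ} (hN : 0 < N) {f : ℍ → ℂ} {F : LS ℂ} (hF : Asy N f F) {i : ℕ}
    (hi : ∀ (γ : M2) τ, γ.det = 1 → f (act γ τ) = eps γ ^ i * f τ) (n : ℤ)
    (hn : F.coeff n ≠ 0) : ∃ k : ℤ, n = N * (i + 2 * k) := by
  obtain ⟨hc, -, hm, -, hu, -⟩ := b.ring N hN
  have h1 := b.sub N N 1 1 1 1 hN hN one_pos one_pos (by ring) f F hF
  have hd : (!![((1 : ℕ) : ℤ), 1; 0, ((1 : ℕ) : ℤ)] : M2).det = 1 := by simp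
  have he : eps !![((1 : ℕ) : ℤ), 1; 0, ((1 : ℕ) : ℤ)] = -1 := by simp [eps]
  simp only [hi _ _ hd, he] at h1
  have h2 := hu _ _ _ h1 (hm _ _ _ _ (hc ((((-1 : ℤ) : ℂ)) ^ i)) hF)
  have h3 := congrArg (fun G : LS ℂ => G.coeff n) h2
  have h4 := coeff_sb_mul one_pos (ru (((1 : ℤ) : ℚ) / (((1 : ℕ) : ℚ) * N))) F n
  simp only [Nat.cast_one, one_mul] at h3 h4
  rw [h4, HahnSeries.C_mul_eq_smul, HahnSeries.coeff_smul, smul_eq_mul] at h3
  have h5 := mul_right_cancel₀ hn h3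
  have hN' : (N : ℂ) ≠ 0 := by exact_mod_cast hN.ne'
  have e1 : ((-1 : ℤ) : ℂ) = cexp (π * I) := by rw [Complex.exp_pi_mul_I]; simp
  rw [Units.val_zpow_eq_zpow_val, ru, Units.val_mk0, ← Complex.exp_int_mul, e1,
    ← Complex.exp_nat_mul, Complex.exp_eq_exp_iff_exists_int] at h5
  obtain ⟨k, hk⟩ := h5
  refine ⟨k, ?_⟩
  have hp : (π * I : ℂ) ≠ 0 := mul_ne_zero (by exact_mod_cast Real.pi_ne_zero) I_ne_zero
  have : (n : ℂ) = N * (i + 2 * k) := by
    apply mul_left_cancel₀ hp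
    push_cast at hk
    field_simp at hk
    linear_combination (π * I) * hk
  exact_mod_cast this

lemma asyY (b : B1) {N : ℕ} (hN : 0 < N) : Asy N YY (ex N (Yc ℂ)) := by
  have h1 := b.sub 1 N 1 1 N 0 one_pos hN one_pos one_pos (by ring) YY _ b.y2.aY
  have e : (!![((1 : ℕ) : ℤ), 0; 0, ((1 : ℕ) : ℤ)] : M2) = 1 := by
    rw [Matrix.one_fin_two]; simp
  have e2 : ru (((0 : ℤ) : ℚ) / (((1 : ℕ) : ℚ) * ((1 : ℕ) : ℚ))) = 1 := by
    ext; simp [ru]
  simpa only [e, act_one, e2, sb_one] using h1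

lemma ex_aeval {N : ℕ} (hN : 0 < N) (F : LS ℂ) (P : ℂ[X]) :
    aeval (ex N F) P = ex N (aeval F P) := by
  rw [← sb_one, ← sb_one, sb_aeval hN]

lemma main (b : B1) {N : ℕ} (hN : 0 < N) (i : ℕ) (m : ℕ) : ∀ (f : ℍ → ℂ) (F : LS ℂ), Hol f →
    Asy N f F → (∀ (γ : M2) τ, γ.det = 1 → f (act γ τ) = eps γ ^ i * f τ) →
    (∀ k : ℤ, k ≤ -m → F.coeff (N * k) = 0) →
    ∃ P : ℂ[X], (∀ n, n % 2 ≠ i % 2 → P.coeff n = 0) ∧ ∀ τ, f τ = P.eval (YY τ) := by
  induction m with
  | zero =>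
    intro f F hf hF hi h0
    refine ⟨0, fun _ _ => rfl, fun τ => ?_⟩
    have hz : ∀ n : ℤ, n < 1 → F.coeff n = 0 := by
      intro n hn
      by_contra h
      obtain ⟨k, hk⟩ := supp b hN hF hi n h
      refine h (hk ▸ h0 _ ?_)
      have : (0 : ℤ) < N := by exact_mod_cast hN
      simp only [Nat.cast_zero, neg_zero]
      by_contra hh
      push Not at hh
      have := mul_pos this hh
      omega
    have h1 := hF 1
    have e : ∀ τ : ℍ, ∑ n ∈ Finset.Ico F.order 1, F.coeff n * xN N τ ^ n = 0 := fun τ =>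
      Finset.sum_eq_zero fun n hn => by rw [hz n (Finset.mem_Ico.1 hn).2, zero_mul]
    simp only [e, sub_zero, zpow_one] at h1
    have h2 : Tendsto f atImInfty (𝓝 0) := h1.trans_tendsto (xN_tendsto hN)
    have h3 := zero_of_tendsto (f := fun τ => f τ * f τ) (hf.mul hf) (fun γ τ hγ => by
      simp only [hi γ τ hγ]
      have := eps_pow (γ := γ) (m := 2 * i) (i := 0) (by omega)
      rw [two_mul, pow_add, pow_zero] at this
      linear_combination f τ * f τ * this) (by simpa using h2.mul h2) τ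
    simpa using h3
  | succ m ih =>
    intro f F hf hF hi h0
    by_cases hc : F.coeff (N * (-m)) = 0
    · refine ih f F hf hF hi fun k hk => ?_
      rcases hk.eq_or_lt with rfl | hk
      · exact hc
      · exact h0 k (by push_cast; omega)
    obtain ⟨k, hk⟩ := supp b hN hF hi _ hc
    have hk' := mul_left_cancel₀ (by exact_mod_cast hN.ne' : (N : ℤ) ≠ 0) hk
    have hp : m % 2 = i % 2 := by omega
    obtain ⟨-, ha, -, -, -, -, he, -⟩ := b.ring N hN
    set c := F.coeff (N * (-m)) with hcd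
    have h1 := ha _ _ _ _ hF (he _ _ (monomial m (-c)) (asyY b hN))
    obtain ⟨P, hP, hP'⟩ := ih (fun τ => f τ + (monomial m (-c)).eval (YY τ)) _ (hf.add (by
        simp only [eval_monomial]
        exact mdifferentiable_const.mul (b.y1.hY.pow m))) h1 (fun γ τ hγ => by
        simp only [eval_monomial, hi γ τ hγ, b.y1.tY γ τ hγ, mul_pow, eps_pow hp]
        ring) (fun k hk => by
        have hd : (monomial m (-c)).natDegree = m := natDegree_monomial_eq _ (neg_ne_zero.2 hc)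
        obtain ⟨t1, t2⟩ := b.pol.top ℂ (monomial m (-c))
        rw [hd] at t1 t2
        rw [HahnSeries.coeff_add, ex_aeval hN, coeff_ex_mul hN]
        rcases hk.eq_or_lt with rfl | hk
        · rw [t1, leadingCoeff_monomial, add_neg_cancel]
        · rw [t2 k hk, h0 k (by push_cast; omega), add_zero])
    refine ⟨P + monomial m c, fun n hn => ?_, fun τ => ?_⟩
    · rw [coeff_add, hP n hn, coeff_monomial, if_neg (by rintro rfl; exact hn hp), add_zero]
    · have := hP' τ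
      simp only [eval_monomial, eval_add] at this ⊢
      linear_combination this

lemma part1 (b : B1) (N : ℕ) (R : Subring ℂ) (f : ℍ → ℂ) (F : LS ℂ) (hN : 0 < N) (hf : Hol f)
    (hF : Asy N f F) (hR : F ∈ ovr R) (i : ℕ)
    (hi : ∀ (γ : M2) τ, γ.det = 1 → f (act γ τ) = eps γ ^ i * f τ) :
    ∃ P : ℂ[X], (∀ n, P.coeff n ∈ R) ∧ (∀ n, n % 2 ≠ i % 2 → P.coeff n = 0) ∧
      (∀ τ, f τ = P.eval (YY τ)) ∧ F = aeval (ex N (Yc ℂ)) P := by
  obtain ⟨P, hP, hP'⟩ := main b hN i (F.order.natAbs + 1) f F hf hF hi fun k hk => by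
    apply HahnSeries.coeff_eq_zero_of_lt_order
    have h1 : (1 : ℤ) ≤ N := by exact_mod_cast hN
    have h2 : k < 0 := by omega
    have h3 : N * k ≤ k := by nlinarith
    omega
  obtain ⟨-, -, -, -, hu, -, he, -⟩ := b.ring N hN
  have e : F = aeval (ex N (Yc ℂ)) P := by
    refine hu f _ _ hF ?_
    have := he _ _ P (asyY b hN)
    rwa [← funext hP'] at this
  refine ⟨P, b.pol.int R P (mem_ovr.2 fun n => ?_), hP, hP', e⟩
  rw [← coeff_ex_mul hN, ← ex_aeval hN, ← e]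
  exact mem_ovr.1 hR _

end LvAux

open LvAux in
theorem lv_of (b : B1) : LV := by
  intro N R f F hN hf hF hR
  refine ⟨part1 b N R f F hN hf hF hR, fun hi => ?_⟩
  obtain ⟨P, h1, h2, h3, -⟩ := part1 b N R f F hN hf hF hR 0 (by simpa using hi)
  let Q : R[X] := ∑ n ∈ P.support, monomial (n / 2) (⟨P.coeff n, h1 n⟩ : R)
  refine ⟨(Q.comp (X - C 1728)).map R.subtype, fun n => ?_, fun τ => ?_⟩
  · rw [coeff_map]
    exact Subtype.prop _
  · rw [h3, eval_eq_sum, Polynomial.sum, Polynomial.map_comp, eval_comp]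
    simp only [Q, Polynomial.map_sum, map_monomial, eval_finset_sum, eval_monomial,
      Polynomial.map_sub, map_X, map_C, eval_sub, eval_X, eval_C, JJ]
    refine Finset.sum_congr rfl fun n hn => ?_
    have hn' : n % 2 = 0 := by
      by_contra h
      exact mem_support_iff.1 hn (h2 n h)
    have e : (R.subtype (1728 : R)) = 1728 := map_ofNat _ _
    rw [e, add_sub_cancel_right, ← pow_mul, Nat.mul_div_cancel' (Nat.dvd_of_mod_eq_zero hn')]
    rfl

end Pool.Agent.MP_c481b3_nt.H31F
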