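import Pool.Agent.MP_c481b3_nt.H31F.Spec

set_option autoImplicit false

namespace Pool.Agent.MP_c481b3_nt.H31F

open UpperHalfPlane hiding I
open Complex Polynomial IsLocalRing Finset
open scoped Manifold MatrixGroups Real

namespace MemAux

/-- an expansion with coefficients in `O` exists -/
def Good (O : ValuationSubring ℂ) (N : ℕ) (f : ℍ → ℂ) : Prop :=
  ∃ F ∈ ovr O.toSubring, Asy N f F

variable {O : ValuationSubring ℂ} {N : ℕ} {f g : ℍ → ℂ}

lemma C_mem {c : ℂ} (hc : c ∈ O) : HahnSeries.C c ∈ ovr O.toSubring :=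
  ⟨HahnSeries.C ⟨c, hc⟩, mapL_C _ _⟩

lemma int_mem (F : LS ℤ) : mapL (Int.castRingHom ℂ) F ∈ ovr O.toSubring :=
  mem_ovr.2 fun n => by simp

lemma th_mem {F : LS ℂ} (h : F ∈ ovr O.toSubring) : th F ∈ ovr O.toSubring :=
  mem_ovr.2 fun n => mul_mem (intCast_mem _ n) (mem_ovr.1 h n)

lemma Good.const (b : B1) (hN : 0 < N) {c : ℂ} (hc : c ∈ O) : Good O N fun _ => c :=
  ⟨_, C_mem hc, (b.ring N hN).1 c⟩

lemma Good.add (b : B1) (hN : 0 < N) (hf : Good O N f) (hg : Good O N g) :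
    Good O N fun τ => f τ + g τ := by
  obtain ⟨F, hF, aF⟩ := hf
  obtain ⟨G, hG, aG⟩ := hg
  exact ⟨_, add_mem hF hG, (b.ring N hN).2.1 _ _ _ _ aF aG⟩

lemma Good.mul (b : B1) (hN : 0 < N) (hf : Good O N f) (hg : Good O N g) :
    Good O N fun τ => f τ * g τ := by
  obtain ⟨F, hF, aF⟩ := hf
  obtain ⟨G, hG, aG⟩ := hg
  exact ⟨_, mul_mem hF hG, (b.ring N hN).2.2.1 _ _ _ _ aF aG⟩

lemma val_ru (r : ℚ) : O.valuation (ru r : ℂ) = 1 := by
  have h : (ru r : ℂ) ^ (2 * r.den) = 1 := by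
    have e : (r.den : ℂ) * r = r.num := by exact_mod_cast Rat.den_mul_eq_num r
    rw [ru, Units.val_mk0, ← Complex.exp_nat_mul, ← Complex.exp_int_mul_two_pi_mul_I r.num]
    congr 1
    push_cast
    linear_combination (2 * π * I) * e
  have h2 := congrArg O.valuation h
  rw [map_pow, map_one] at h2
  exact (pow_eq_one_iff_left (Nat.mul_ne_zero two_ne_zero r.den_nz)).1 h2

lemma ru_zpow_mem (r : ℚ) (n : ℤ) : ((ru r ^ n : ℂˣ) : ℂ) ∈ O := by
  rw [← O.valuation_le_one_iff, Units.val_zpow_eq_zpow_val, map_zpow₀, val_ru, one_zpow]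

lemma sb_mem (r : ℚ) {F : LS ℂ} (h : F ∈ ovr O.toSubring) {e : ℕ} (he : 0 < e) :
    sb (ru r) e F ∈ ovr O.toSubring := by
  refine mem_ovr.2 fun n => ?_
  rw [coeff_sb he]
  split_ifs
  · exact mul_mem (ru_zpow_mem r _) (mem_ovr.1 h _)
  · exact zero_mem _

lemma Good.tri (b : B1) (hf : Good O 1 f) {a d : ℕ} (c : ℤ) (ha : 0 < a) (hd : 0 < d) (hN : 0 < N)
    (h : d ∣ N) : Good O N fun τ => f (act !![(a : ℤ), c; 0, (d : ℤ)] τ) := by
  obtain ⟨F, hF, aF⟩ := hf
  obtain ⟨t, rfl⟩ := h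
  have ht : 0 < t := Nat.pos_of_mul_pos_left hN
  exact ⟨_, sb_mem _ hF (mul_pos ha ht),
    b.sub 1 (d * t) a d (a * t) c one_pos hN ha hd (by ring) f F aF⟩

lemma Good.lev (b : B1) (hf : Good O 1 f) (hN : 0 < N) : Good O N f := by
  have h := hf.tri b 0 one_pos one_pos hN (one_dvd N)
  have e : (!![((1 : ℕ) : ℤ), 0; 0, ((1 : ℕ) : ℤ)] : M2) = 1 := by
    rw [Matrix.one_fin_two]; simp
  simpa only [e, act_one] using h

lemma det_pos {γ : M2} (h : γ.det = 1) : 0 < γ.det := by rw [h]; exact one_pos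

lemma eps_mul_self (γ : M2) : (eps γ : ℂ) * eps γ = 1 := by
  unfold eps
  split_ifs <;> simp

lemma eps_ne (γ : M2) : (eps γ : ℂ) ≠ 0 := left_ne_zero_of_mul_eq_one (eps_mul_self γ)

lemma eps_one : eps 1 = 1 := by simp [eps]

/-- moving a congruence matrix to the other side -/
lemma swap {M g : M2} (hM : 0 < M.det) (hd : M.det ∣ N) (hg : g.det = 1)
    (hc : Cong (2 * N) g 1) :
    ∃ g' : M2, g'.det = 1 ∧ M * g = g' * M ∧ Cong 2 g' 1 ∧ (M.det = 1 → Cong (2 * N) g' 1) := by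
  choose K hK using hc
  obtain ⟨t, ht⟩ := hd
  have hg' : g = 1 + (2 * (M.det * t)) • Matrix.of K := by
    ext i j
    have := hK i j
    push_cast at this
    rw [ht] at this
    simp only [Matrix.add_apply, Matrix.smul_apply, Matrix.of_apply, smul_eq_mul]
    linarith
  have e : M * g = (1 + (2 * t) • (M * Matrix.of K * M.adjugate)) * M := by
    rw [hg', mul_add, add_mul, mul_one, one_mul, smul_mul_assoc, mul_assoc, mul_assoc,
      Matrix.adjugate_mul, mul_smul_comm, mul_smul_comm, mul_smul_comm, mul_one, smul_smul]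
    congr 2
    ring
  refine ⟨_, ?_, e, fun i j => ?_, fun h1 i j => ?_⟩
  · have := congrArg Matrix.det e
    rw [Matrix.det_mul, Matrix.det_mul, hg, mul_one] at this
    exact mul_right_cancel₀ hM.ne' (by rw [← this, one_mul])
  · refine ⟨t * (M * Matrix.of K * M.adjugate) i j, ?_⟩
    simp only [Matrix.add_apply, Matrix.smul_apply, smul_eq_mul]
    push_cast
    ring
  · refine ⟨(M * Matrix.of K * M.adjugate) i j, ?_⟩
    simp only [Matrix.add_apply, Matrix.smul_apply, smul_eq_mul]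
    push_cast
    rw [ht, h1]
    ring

lemma mem_const (b : B1) (hN : 0 < N) {c : ℂ} (hc : c ∈ O) : Mem O N fun _ => c :=
  ⟨mdifferentiable_const, fun _ _ _ _ => rfl, fun _ _ => Good.const b hN hc⟩

lemma mem_add (b : B1) (hN : 0 < N) (hf : Mem O N f) (hg : Mem O N g) :
    Mem O N fun τ => f τ + g τ :=
  ⟨hf.hol.add hg.hol, fun γ h1 h2 τ => by rw [hf.inv γ h1 h2, hg.inv γ h1 h2],
    fun γ h => Good.add b hN (hf.asy γ h) (hg.asy γ h)⟩

lemma mem_mul (b : B1) (hN : 0 < N) (hf : Mem O N f) (hg : Mem O N g) :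
    Mem O N fun τ => f τ * g τ :=
  ⟨hf.hol.mul hg.hol, fun γ h1 h2 τ => by rw [hf.inv γ h1 h2, hg.inv γ h1 h2],
    fun γ h => Good.mul b hN (hf.asy γ h) (hg.asy γ h)⟩

lemma mem_sub (b : B1) (hN : 0 < N) (hf : Mem O N f) (hg : Mem O N g) :
    Mem O N fun τ => f τ - g τ := by
  simpa only [neg_one_mul, ← sub_eq_add_neg] using
    mem_add b hN hf (mem_mul b hN (mem_const b hN (neg_mem (one_mem O))) hg)

lemma mem_act {γ : M2} (h : γ.det = 1) (hf : Mem O N f) : Mem O N fun τ => f (act γ τ) := by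
  refine ⟨hf.hol.act (det_pos h), fun g h1 h2 τ => ?_, fun g h1 => ?_⟩
  · obtain ⟨g', e1, e2, -, e3⟩ := swap (det_pos h) (h ▸ one_dvd _) h1 h2
    rw [← act_mul (det_pos h) (det_pos h1), e2, act_mul (det_pos e1) (det_pos h),
      hf.inv g' e1 (e3 h)]
  · simpa only [act_mul (det_pos h) (det_pos h1)] using
      hf.asy (γ * g) (by rw [Matrix.det_mul, h, h1, one_mul])

lemma mem_eval (b : B1) (hN : 0 < N) (P : ℂ[X]) (hP : ∀ n, P.coeff n ∈ O) (hf : Mem O N f) :
    Mem O N fun τ => P.eval (f τ) := by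
  induction P using Polynomial.recOnHorner with
  | M0 => simpa using mem_const b hN (zero_mem O)
  | MC p a h0 _ ih =>
    have ha : a ∈ O := by simpa [h0] using hP 0
    have := ih fun n => by
      rcases n with _ | n
      · rw [h0]; exact zero_mem O
      · simpa using hP (n + 1)
    simpa using mem_add b hN this (mem_const b hN ha)
  | MX p _ ih =>
    have := ih fun n => by simpa using hP (n + 1)
    simpa using mem_mul b hN this hf

lemma mem_big (b : B1) (hN : 0 < N) {ι : Type} (s : Finset ι) (f : ι → ℍ → ℂ)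
    (h : ∀ i ∈ s, Mem O N (f i)) :
    Mem O N (fun τ => ∑ i ∈ s, f i τ) ∧ Mem O N fun τ => ∏ i ∈ s, f i τ := by
  classical
  induction s using Finset.induction_on with
  | empty => exact ⟨by simpa using mem_const b hN (zero_mem O),
      by simpa using mem_const b hN (one_mem O)⟩
  | insert a s ha ih =>
    have h1 := h a (Finset.mem_insert_self a s)
    have h2 := ih fun i hi => h i (Finset.mem_insert_of_mem hi)
    simp only [Finset.sum_insert ha, Finset.prod_insert ha]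
    exact ⟨mem_add b hN h1 h2.1, mem_mul b hN h1 h2.2⟩

/-- a family of functions with two transformation laws -/
lemma fam (b : B1) (hN : 0 < N) (Φ : M2 → ℍ → ℂ) (i j : ℕ)
    (h1 : ∀ (M γ : M2) τ, 0 < M.det → γ.det = 1 → Φ (γ * M) τ = eps γ ^ i * Φ M τ)
    (h2 : ∀ (M γ : M2) τ, 0 < M.det → γ.det = 1 → Φ M (act γ τ) = eps γ ^ j * Φ (M * γ) τ)
    (h3 : ∀ M : M2, 0 < M.det → Hol (Φ M))
    (h4 : ∀ (a d : ℕ) (c : ℤ), 0 < a → 0 < d → d ∣ N → Good O N (Φ !![(a : ℤ), c; 0, (d : ℤ)]))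
    {M : M2} (hM : 0 < M.det) (hd : M.det ∣ N) : Mem O N (Φ M) := by
  refine ⟨h3 M hM, fun g hg hc τ => ?_, fun γ hγ => ?_⟩
  · obtain ⟨g', e1, e2, e3, -⟩ := swap hM hd hg hc
    have c2 : Cong 2 g 1 := fun i j => Dvd.dvd.trans ⟨N, by push_cast; ring⟩ (hc i j)
    rw [h2 M g τ hM hg, e2, h1 M g' τ hM e1, b.mat.epsc _ _ e3, b.mat.epsc _ _ c2, eps_one]
    simp
  · obtain ⟨m, hm⟩ := Int.eq_ofNat_of_zero_le hM.le
    have hm0 : 0 < m := by rw [hm] at hM; exact_mod_cast hM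
    obtain ⟨γ', H, hH, e1, e2⟩ := b.mat.hnf 1 m (M * γ) hm0 (Nat.coprime_one_left m)
      (by rw [Matrix.det_mul, hγ, mul_one, hm])
    obtain ⟨a, d, c, ha, hd0, had, -, rfl⟩ := (b.mat.mem 1 m H).1 hH
    have hdN : d ∣ N := by
      rw [hm] at hd
      exact (Dvd.intro_left a had).trans (by exact_mod_cast hd)
    have hp : 0 < (!![(a : ℤ), ((1 * c : ℕ) : ℤ); 0, (d : ℤ)] : M2).det := by
      rw [Matrix.det_fin_two_of]
      simp [ha, hd0]
    have hc : ((eps γ : ℂ) ^ j * (eps γ' : ℂ) ^ i) ∈ O :=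
      mul_mem (pow_mem (intCast_mem O _) _) (pow_mem (intCast_mem O _) _)
    have := (Good.const b hN hc).mul b hN (h4 a d ((1 * c : ℕ) : ℤ) ha hd0 hdN)
    change Good O N _
    convert this using 2 with τ
    rw [h2 M γ τ hM hγ, e2, h1 _ γ' τ hp e1, mul_assoc]

lemma good_Y (b : B1) : Good O 1 YY := ⟨_, int_mem _, b.y2.aY⟩

lemma good_d (b : B1) : Good O 1 dl := ⟨_, int_mem _, b.y2.ad⟩

lemma good_D (b : B1) : Good O 1 (dv YY) := ⟨_, th_mem (int_mem _), b.y2.aD⟩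

lemma good_i (b : B1) : Good O 1 fun τ => (dl τ)⁻¹ := by
  obtain ⟨E, hE⟩ := b.y2.Du
  have e : Dc ℂ * mapL (Int.castRingHom ℂ) E = 1 := by rw [Dc, ← map_mul, hE, map_one]
  refine ⟨_, int_mem E, ?_⟩
  rw [eq_inv_of_mul_eq_one_right e]
  exact (b.ring 1 one_pos).2.2.2.1 _ _ b.y2.ad (left_ne_zero_of_mul_eq_one e)

lemma den_tri (a d : ℕ) (c : ℤ) (τ : ℍ) : den !![(a : ℤ), c; 0, (d : ℤ)] τ = d := by simp [den]

lemma det_tri (a d : ℕ) (c : ℤ) :
    (((!![(a : ℤ), c; 0, (d : ℤ)] : M2).det : ℤ) : ℂ) = a * d := by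
  rw [Matrix.det_fin_two_of]
  simp

section laws
variable (b : B1) (M γ : M2) (τ : ℍ) (hM : 0 < M.det) (hγ : γ.det = 1)
include b hM hγ

lemma W1 : WW (γ * M) τ = WW M τ := by
  have h1 := den_ne (det_pos hγ) (act M τ)
  have h2 := b.y1.ne (act M τ)
  have h3 := eps_ne γ
  rw [WW, WW, act_mul (det_pos hγ) hM, den_mul hM, b.y1.td γ _ hγ, mul_pow, mul_pow, mul_pow,
    pow_two (eps γ : ℂ), eps_mul_self]
  field_simp

lemma W2 : WW M (act γ τ) = WW (M * γ) τ := by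
  rw [WW, WW, act_mul hM (det_pos hγ), den_mul (det_pos hγ), b.y1.td γ _ hγ, mul_pow, mul_pow,
    pow_two (eps γ : ℂ), eps_mul_self]
  ring

lemma V1 : VV (γ * M) τ = VV M τ := by
  have h1 := den_ne (det_pos hγ) (act M τ)
  have h2 := b.y1.ne τ
  have h3 := den_ne hM τ
  rw [VV, VV, act_mul (det_pos hγ) hM, den_mul hM, b.y1.td γ _ hγ, mul_pow, mul_pow, mul_pow,
    pow_two (eps γ : ℂ), eps_mul_self, Matrix.det_mul, hγ, one_mul]
  field_simp

lemma V2 : VV M (act γ τ) = VV (M * γ) τ := by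
  rw [VV, VV, act_mul hM (det_pos hγ), den_mul (det_pos hγ), b.y1.td γ _ hγ, mul_pow, mul_pow,
    pow_two (eps γ : ℂ), eps_mul_self, Matrix.det_mul, hγ, mul_one]
  congr 1
  ring

lemma P1 : PH (γ * M) τ = eps γ * PH M τ := by
  have h1 := den_ne (det_pos hγ) (act M τ)
  have h2 := b.y1.ne τ
  have h3 := den_ne hM τ
  rw [PH, PH, act_mul (det_pos hγ) hM, den_mul hM, b.y1.tD γ _ hγ, Matrix.det_mul, hγ, one_mul]
  field_simp

lemma P2 : PH M (act γ τ) = eps γ * PH (M * γ) τ := by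
  have h1 := den_ne (det_pos hγ) τ
  have h2 := b.y1.ne τ
  have h3 := den_ne hM (act γ τ)
  have h4 := eps_ne γ
  rw [PH, PH, act_mul hM (det_pos hγ), den_mul (det_pos hγ), b.y1.tD γ τ hγ, b.y1.td γ τ hγ,
    Matrix.det_mul, hγ, mul_one]
  field_simp

end laws

lemma WV (b : B1) (M : M2) (τ : ℍ) (hM : 0 < M.det) : WW M τ * VV M τ = (M.det : ℂ) ^ 12 := by
  have h1 := den_ne hM τ
  have h2 := b.y1.ne τ
  have h3 := b.y1.ne (act M τ)
  rw [WW, VV]
  field_simp

end MemAux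

open MemAux

theorem memRing_of (b : B1) : MemRing := fun O N hN =>
  ⟨fun _ hc => mem_const b hN hc,
    fun _ _ hf hg => ⟨mem_add b hN hf hg, mem_sub b hN hf hg, mem_mul b hN hf hg⟩,
    fun _ _ h hf => mem_act h hf, fun _ P hP hf => mem_eval b hN P hP hf,
    fun _ s f h => mem_big b hN s f h,
    fun r => ⟨by simpa using ru_zpow_mem (O := O) r 1, fun _ h _ he => sb_mem r h he⟩⟩

theorem memY_of (b : B1) (_h : MemRing) : MemY := by
  refine ⟨fun M γ τ hM hγ => ⟨W1 b M γ τ hM hγ, W2 b M γ τ hM hγ, WV b M τ hM, P1 b M γ τ hM hγ,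
    P2 b M γ τ hM hγ⟩, fun O N M hN hM hd => ⟨?_, ?_, ?_, ?_⟩⟩
  · refine fam b hN (fun M τ => YY (act M τ)) 1 0 (fun M γ τ hM hγ => ?_) (fun M γ τ hM hγ => ?_)
      (fun M hM => b.y1.hY.act hM) (fun a d c ha hd h => (good_Y b).tri b c ha hd hN h) hM hd
    · rw [act_mul (det_pos hγ) hM, b.y1.tY γ _ hγ, pow_one]
    · rw [act_mul hM (det_pos hγ), pow_zero, one_mul]
  · refine fam b hN WW 0 0 (fun M γ τ hM hγ => ?_) (fun M γ τ hM hγ => ?_)
      (fun M hM => ?_) (fun a d c ha hd h => ?_) hM hd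
    · rw [W1 b M γ τ hM hγ, pow_zero, one_mul]
    · rw [W2 b M γ τ hM hγ, pow_zero, one_mul]
    · exact ((b.y1.hd.pow 2).mul ((hol_den M).pow 12)).div ((b.y1.hd.act hM).pow 2)
        fun τ => pow_ne_zero 2 (b.y1.ne _)
    · have h1 := (good_d (O := O) b).lev b hN
      have h2 := (good_i (O := O) b).tri b c ha hd hN h
      have h3 := Good.const b hN (pow_mem (natCast_mem O d) 12)
      convert ((h1.mul b hN h1).mul b hN h3).mul b hN (h2.mul b hN h2) using 2 with τ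
      rw [WW, den_tri]
      ring
  · refine fam b hN VV 0 0 (fun M γ τ hM hγ => ?_) (fun M γ τ hM hγ => ?_)
      (fun M hM => ?_) (fun a d c ha hd h => ?_) hM hd
    · rw [V1 b M γ τ hM hγ, pow_zero, one_mul]
    · rw [V2 b M γ τ hM hγ, pow_zero, one_mul]
    · exact (mdifferentiable_const.mul ((b.y1.hd.act hM).pow 2)).div
        ((b.y1.hd.pow 2).mul ((hol_den M).pow 12))
        fun τ => mul_ne_zero (pow_ne_zero 2 (b.y1.ne _)) (pow_ne_zero 12 (den_ne hM τ))
    · have h1 := (good_i (O := O) b).lev b hN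
      have h2 := (good_d (O := O) b).tri b c ha hd hN h
      have h3 := Good.const b hN (pow_mem (natCast_mem O a) 12)
      convert ((h1.mul b hN h1).mul b hN h3).mul b hN (h2.mul b hN h2) using 2 with τ
      have h4 : (d : ℂ) ≠ 0 := by exact_mod_cast hd.ne'
      have h5 := b.y1.ne τ
      rw [VV, den_tri, det_tri]
      field_simp
  · refine fam b hN PH 1 1 (fun M γ τ hM hγ => ?_) (fun M γ τ hM hγ => ?_)
      (fun M hM => ?_) (fun a d c ha hd h => ?_) hM hd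
    · rw [P1 b M γ τ hM hγ, pow_one]
    · rw [P2 b M γ τ hM hγ, pow_one]
    · exact ((mdifferentiable_const.mul (b.y1.hD.act hM)).div ((hol_den M).pow 2)
        fun τ => pow_ne_zero 2 (den_ne hM τ)).mul ((b.y1.hD.pow 2).div b.y1.hd b.y1.ne)
    · have h1 := (good_i (O := O) b).lev b hN
      have h0 := (good_D (O := O) b).lev b hN
      have h2 := (good_D (O := O) b).tri b c ha hd hN h
      have h3 := Good.const b hN (pow_mem (natCast_mem O a) 2)
      convert (h3.mul b hN h2).mul b hN ((h0.mul b hN h0).mul b hN h1) using 2 with τ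
      have h4 : (d : ℂ) ≠ 0 := by exact_mod_cast hd.ne'
      have h5 := b.y1.ne τ
      rw [PH, den_tri, det_tri]
      field_simp

end Pool.Agent.MP_c481b3_nt.H31F
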