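import Pool.Agent.MP_c481b3_nt.H31F.Spec

set_option autoImplicit false

namespace Pool.Agent.MP_c481b3_nt.H31F

open Polynomial Finset

namespace PolAux

section gen
variable {R : Type} [CommRing R]

/-- no coefficients below `k` -/
def Lo (k : ℤ) (F : LS R) : Prop := ∀ n, n < k → F.coeff n = 0

lemma coeff_mul_Icc {a b : ℤ} {F G : LS R} (hF : Lo a F) (hG : Lo b G) (n : ℤ) :
    (F * G).coeff n = ∑ i ∈ Icc b (n - a), F.coeff (n - i) * G.coeff i := by
  rw [HahnSeries.coeff_mul]
  refine Finset.sum_bij_ne_zero (fun x _ _ => x.2) ?_ ?_ ?_ ?_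
  · intro x hx _
    obtain ⟨h1, h2, h3⟩ := Finset.mem_antidiagonal.1 hx
    have k1 : a ≤ x.1 := not_lt.1 fun h => h1 (hF _ h)
    have k2 : b ≤ x.2 := not_lt.1 fun h => h2 (hG _ h)
    rw [mem_Icc]
    omega
  · intro x hx _ y hy _ e
    have h1 := (Finset.mem_antidiagonal.1 hx).2.2
    have h2 := (Finset.mem_antidiagonal.1 hy).2.2
    exact Prod.ext (by omega) e
  · intro i _ hi
    refine ⟨(n - i, i), Finset.mem_antidiagonal.2 ⟨left_ne_zero_of_mul hi,
      right_ne_zero_of_mul hi, by simp⟩, hi, rfl⟩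
  · intro x hx _
    rw [← (Finset.mem_antidiagonal.1 hx).2.2, add_sub_cancel_right]

lemma Lo.mul {a b : ℤ} {F G : LS R} (hF : Lo a F) (hG : Lo b G) : Lo (a + b) (F * G) := by
  intro n hn
  rw [coeff_mul_Icc hF hG, Icc_eq_empty (by omega), sum_empty]

lemma Lo.lead {a b : ℤ} {F G : LS R} (hF : Lo a F) (hG : Lo b G) :
    (F * G).coeff (a + b) = F.coeff a * G.coeff b := by
  rw [coeff_mul_Icc hF hG, add_sub_cancel_left, Icc_self, sum_singleton, add_sub_cancel_right]

lemma pow_top {Y : LS R} (h1 : Y.coeff (-1) = 1) (h0 : Lo (-1) Y) (n : ℕ) :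
    Lo (-n) (Y ^ n) ∧ (Y ^ n).coeff (-n) = 1 := by
  induction n with
  | zero =>
    refine ⟨fun i hi => ?_, by simp⟩
    rw [pow_zero, HahnSeries.coeff_one, if_neg (by omega)]
  | succ n ih =>
    have e : (-((n + 1 : ℕ) : ℤ)) = -n + -1 := by push_cast; ring
    rw [pow_succ, e]
    exact ⟨ih.1.mul h0, by rw [ih.1.lead h0, ih.2, h1, one_mul]⟩

lemma coeff_aeval (Y : LS R) (T : R[X]) (n : ℤ) :
    (aeval Y T).coeff n = ∑ i ∈ range (T.natDegree + 1), T.coeff i * (Y ^ i).coeff n := by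
  rw [aeval_eq_sum_range, HahnSeries.coeff_sum]
  refine sum_congr rfl fun i _ => ?_
  rw [Algebra.smul_def, algebraMap_LS, HahnSeries.C_apply, HahnSeries.coeff_single_zero_mul]

lemma aeval_top {Y : LS R} (h1 : Y.coeff (-1) = 1) (h0 : Lo (-1) Y) (T : R[X]) :
    (aeval Y T).coeff (-T.natDegree) = T.leadingCoeff ∧ Lo (-T.natDegree) (aeval Y T) := by
  constructor
  · rw [coeff_aeval, sum_range_succ, (pow_top h1 h0 _).2, mul_one, sum_eq_zero, zero_add]
    · rfl
    · intro i hi
      rw [(pow_top h1 h0 i).1 _ (by have := mem_range.1 hi; omega), mul_zero]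
  · intro n hn
    rw [coeff_aeval]
    refine sum_eq_zero fun i hi => ?_
    rw [(pow_top h1 h0 i).1 _ (by have := mem_range.1 hi; omega), mul_zero]

lemma coeff_C_mul (c : R) (F : LS R) (n : ℤ) :
    (HahnSeries.C c * F).coeff n = c * F.coeff n := by
  rw [HahnSeries.C_apply, HahnSeries.coeff_single_zero_mul]

end gen

lemma Yc_int : Yc ℤ = Ys := by ext; simp [Yc]

lemma coeff_Yc (R : Type) [CommRing R] (n : ℤ) : (Yc R).coeff n = (Ys.coeff n : R) := rfl

lemma unit_th (h : YS2) : IsUnit (th Ys) := by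
  have e : (th Ys).coeff (-1) = -1 := by simp [h.Y1]
  have o : (th Ys).order = -1 := by
    refine le_antisymm (HahnSeries.order_le_of_coeff_ne_zero (by rw [e]; decide)) ?_
    by_contra hc
    have := HahnSeries.coeff_order_eq_zero.1 (show (th Ys).coeff (th Ys).order = 0 by
      rw [coeff_th, h.Y0 _ (not_le.1 hc), mul_zero])
    rw [this] at e
    simp at e
  rw [HahnSeries.isUnit_iff, HahnSeries.leadingCoeff_eq, o, e]
  exact isUnit_one.neg

lemma int_of (h : YS2) (R : Subring ℂ) (T : ℂ[X]) :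
    aeval (Yc ℂ) T ∈ ovr R → ∀ n, T.coeff n ∈ R := by
  have h1 : (Yc ℂ).coeff (-1) = 1 := by simp [coeff_Yc, h.Y1]
  have h0 : Lo (-1) (Yc ℂ) := fun n hn => by simp [coeff_Yc, h.Y0 n hn]
  induction T using WellFounded.induction Polynomial.degree_lt_wf with
  | _ T ih =>
    intro hT n
    by_cases h0T : T = 0
    · simp [h0T]
    have hl : T.leadingCoeff ∈ R := (aeval_top h1 h0 T).1 ▸ mem_ovr.1 hT _
    have hY : Yc ℂ ∈ ovr R := mem_ovr.2 fun n => intCast_mem R _
    have hC : HahnSeries.C T.leadingCoeff ∈ ovr R := ⟨HahnSeries.C ⟨_, hl⟩, mapL_C _ _⟩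
    have e : aeval (Yc ℂ) T.eraseLead
        = aeval (Yc ℂ) T - HahnSeries.C T.leadingCoeff * Yc ℂ ^ T.natDegree := by
      rw [eq_sub_iff_add_eq]
      conv_rhs => rw [← T.eraseLead_add_C_mul_X_pow]
      rw [map_add, map_mul, map_pow, aeval_C, aeval_X, algebraMap_LS]
    have := ih _ (degree_eraseLead_lt h0T) (e ▸ sub_mem hT (mul_mem hC (pow_mem hY _))) n
    by_cases hn : n = T.natDegree
    · rw [hn]; exact hl
    · rwa [eraseLead_coeff_of_ne _ hn] at this

/-- the defining property of the Faber polynomials -/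
def Ex (n : ℕ) (T : ℤ[X]) : Prop :=
  ∀ i : ℤ, i ≤ 0 → (aeval Ys T).coeff i = if i = -n then 1 else 0

lemma uniq (h : YS2) (T : ℤ[X]) (hT : ∀ i : ℤ, i ≤ 0 → (aeval Ys T).coeff i = 0) : T = 0 := by
  rw [← leadingCoeff_eq_zero, ← (aeval_top h.Y1 h.Y0 T).1]
  exact hT _ (by omega)

lemma exists_ex (h : YS2) (n : ℕ) : ∃ T, Ex n T := by
  induction n using Nat.strong_induction_on with
  | _ n ih =>
    choose! P hP using ih
    refine ⟨X ^ n - ∑ k ∈ range n, C ((Ys ^ n).coeff (-k)) * P k, fun i hi => ?_⟩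
    obtain ⟨m, rfl⟩ : ∃ m : ℕ, i = -m := ⟨(-i).toNat, by omega⟩
    rw [map_sub, map_pow, aeval_X, map_sum, HahnSeries.coeff_sub, HahnSeries.coeff_sum]
    have : ∀ k ∈ range n, (aeval Ys (C ((Ys ^ n).coeff (-k)) * P k)).coeff (-m)
        = if m = k then (Ys ^ n).coeff (-k) else 0 := by
      intro k hk
      rw [map_mul, aeval_C, algebraMap_LS, coeff_C_mul, hP k (mem_range.1 hk) _ hi]
      by_cases e : m = k
      · simp [e]
      · rw [if_neg (by omega), if_neg e, mul_zero]
    rw [sum_congr rfl this, sum_ite_eq]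
    rcases lt_trichotomy m n with c | c | c
    · rw [if_pos (mem_range.2 c), if_neg (by omega), sub_self]
    · rw [if_neg (by simp [c]), if_pos (by omega), c, (pow_top h.Y1 h.Y0 n).2, sub_zero]
    · rw [if_neg (by simp; omega), if_neg (by omega), (pow_top h.Y1 h.Y0 n).1 _ (by omega),
        sub_zero]

lemma Ex.monic (h : YS2) {n : ℕ} {T : ℤ[X]} (hT : Ex n T) : T.natDegree = n ∧ T.Monic := by
  have h0 : T ≠ 0 := by
    rintro rfl
    simpa using hT (-n) (by omega)
  have h1 := (aeval_top h.Y1 h.Y0 T).1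
  rw [hT _ (by omega)] at h1
  split_ifs at h1 with c
  · exact ⟨by omega, h1.symm⟩
  · exact absurd h1.symm (leadingCoeff_ne_zero.2 h0)

lemma res_zero (T : ℤ[X]) : (aeval Ys T * th Ys).coeff 0 = 0 := by
  induction T using Polynomial.induction_on' with
  | add p q hp hq => rw [map_add, add_mul, HahnSeries.coeff_add, hp, hq, add_zero]
  | monomial n a =>
    have := congrArg (fun F => F.coeff 0) (th_pow Ys n)
    simp only [coeff_th, Int.cast_zero, zero_mul] at this
    rw [mul_assoc, ← map_natCast (HahnSeries.C : ℤ →+* LS ℤ), coeff_C_mul] at this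
    rw [aeval_monomial, algebraMap_LS, mul_assoc, coeff_C_mul,
      (mul_eq_zero.1 this.symm).resolve_left (by positivity), mul_zero]

lemma Ex.split {n : ℕ} {T : ℤ[X]} (hT : Ex n T) :
    ∃ G, Lo 1 G ∧ aeval Ys T = HahnSeries.single (-(n : ℤ)) 1 + G := by
  refine ⟨aeval Ys T - HahnSeries.single (-(n : ℤ)) 1, fun i hi => ?_, by ring⟩
  rw [HahnSeries.coeff_sub, hT i (by omega), HahnSeries.coeff_single]
  split_ifs <;> simp

lemma Ex.mulX (h : YS2) {n : ℕ} {T : ℤ[X]} (hT : Ex n T) (i : ℤ) (hi : i ≤ 0) :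
    (Ys * aeval Ys T).coeff i = Ys.coeff (i + n) + if i = 0 then n * Ys.coeff n else 0 := by
  obtain ⟨G, hG, e⟩ := hT.split
  have h0 : Lo (-1) Ys := h.Y0
  have h0' : Lo (-1) (th Ys) := fun n hn => by rw [coeff_th, h0 n hn, mul_zero]
  have r := res_zero T
  have r1 := hG.lead h0'
  rw [e, add_mul, HahnSeries.coeff_add, HahnSeries.coeff_single_mul, ← add_neg_cancel (1 : ℤ),
    r1, coeff_th, coeff_th, h.Y1] at r
  rw [e, mul_add, HahnSeries.coeff_add, HahnSeries.coeff_mul_single, mul_one, sub_neg_eq_add]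
  congr 1
  split_ifs with c
  · rw [c, ← neg_add_cancel (1 : ℤ), h0.lead hG, h.Y1]
    simp only [add_neg_cancel, sub_neg_eq_add, zero_add, Int.cast_id] at r
    linarith
  · exact (h0.mul hG) i (by omega)

lemma recur (h : YS2) {P : ℕ → ℤ[X]} (hP : ∀ n, Ex n (P n)) (k : ℕ) :
    X * P k = ∑ n ∈ range (k + 2), C (Ys.coeff (k - n)) * P n + C (k * Ys.coeff k) := by
  rw [← sub_eq_zero]
  refine uniq h _ fun i hi => ?_
  obtain ⟨m, rfl⟩ : ∃ m : ℕ, i = -m := ⟨(-i).toNat, by omega⟩
  rw [map_sub, map_mul, aeval_X, map_add, map_sum, HahnSeries.coeff_sub, HahnSeries.coeff_add,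
    HahnSeries.coeff_sum, (hP k).mulX h _ hi, aeval_C, algebraMap_LS, HahnSeries.C_apply,
    HahnSeries.coeff_single]
  have : ∀ n ∈ range (k + 2), (aeval Ys (C (Ys.coeff (k - n)) * P n)).coeff (-m)
      = if m = n then Ys.coeff (k - n) else 0 := by
    intro n _
    rw [map_mul, aeval_C, algebraMap_LS, coeff_C_mul, hP n _ hi]
    by_cases e : m = n
    · simp [e]
    · rw [if_neg (by omega), if_neg e, mul_zero]
  rw [sum_congr rfl this, sum_ite_eq, sub_eq_zero]
  congr 1
  · split_ifs with c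
    · congr 1; ring
    · exact h.Y0 _ (by simp at c; omega)
  · split_ifs <;> rfl

lemma par (h : YS2) {n : ℕ} {T : ℤ[X]} (hT : Ex n T) (i : ℕ) (hi : i % 2 ≠ n % 2) :
    T.coeff i = 0 := by
  have hs : sb (-1 : ℤˣ) 1 Ys = -Ys := by
    ext j
    have := coeff_sb_mul one_pos (-1 : ℤˣ) Ys j
    rw [Nat.cast_one, one_mul] at this
    rw [this, HahnSeries.coeff_neg]
    rcases Int.even_or_odd j with e | e
    · simp [h.Ye j e]
    · rw [e.neg_one_zpow]; simp
  have e : C ((-1) ^ n) * T.comp (-X) - T = 0 := by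
    refine uniq h _ fun j hj => ?_
    have := coeff_sb_mul one_pos (-1 : ℤˣ) (aeval Ys T) j
    rw [Nat.cast_one, one_mul, sb_aeval one_pos, hs] at this
    rw [map_sub, map_mul, aeval_C, algebraMap_LS, aeval_comp, map_neg, aeval_X,
      HahnSeries.coeff_sub, coeff_C_mul, this, hT j hj]
    split_ifs with c
    · rw [c, zpow_neg, zpow_natCast]
      rcases Nat.even_or_odd n with e | e <;> simp [e.neg_one_pow]
    · simp
  have e2 := congrArg (fun S => S.coeff i) e
  rw [show (-X : ℤ[X]) = C (-1) * X by simp] at e2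
  simp only [coeff_sub, Polynomial.coeff_C_mul, comp_C_mul_X_coeff, coeff_zero] at e2
  rw [neg_one_pow_eq_pow_mod_two (n := n), neg_one_pow_eq_pow_mod_two (n := i)] at e2
  rcases Nat.mod_two_eq_zero_or_one n with a | a <;>
    rcases Nat.mod_two_eq_zero_or_one i with b | b <;> rw [a, b] at e2 hi <;> omega

lemma gen (h : YS2) {P : ℕ → ℤ[X]} (hP : ∀ n, Ex n (P n)) (y : ℂ) : (Yc ℂ - HahnSeries.C y) *
    HahnSeries.ofPowerSeries ℤ ℂ (PowerSeries.mk fun n => aeval y (P n)) = -th (Yc ℂ) := by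
  set G := HahnSeries.ofPowerSeries ℤ ℂ (PowerSeries.mk fun n => aeval y (P n)) with hG
  have h0 : Lo (-1) (Yc ℂ) := fun n hn => by simp [coeff_Yc, h.Y0 n hn]
  have G0 : Lo 0 G := fun n hn => by rw [hG, PowerSeries.coeff_coe, if_pos hn]
  have G1 : ∀ n : ℕ, G.coeff n = aeval y (P n) := fun n => by
    rw [hG, HahnSeries.ofPowerSeries_apply_coeff, PowerSeries.coeff_mk]
  ext m
  rw [sub_mul, HahnSeries.coeff_sub, coeff_C_mul, HahnSeries.coeff_neg, coeff_th]
  rcases lt_trichotomy m (-1) with c | c | c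
  · rw [h0.mul G0 m (by omega), G0 m (by omega), h0 m c]; simp
  · have e : P 0 = 1 := by
      obtain ⟨a, b⟩ := (hP 0).monic h
      exact b.natDegree_eq_zero.1 a
    have := h0.lead G0
    rw [add_zero, ← Nat.cast_zero (R := ℤ), G1, e] at this
    rw [c, this, G0 _ (by omega)]
    simp
  · obtain ⟨k, rfl⟩ : ∃ k : ℕ, m = k := ⟨m.toNat, by omega⟩
    have := congrArg (aeval y) (recur h hP k)
    simp only [map_mul, aeval_X, map_add, map_sum, aeval_C, eq_intCast, map_natCast] at this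
    rw [coeff_mul_Icc h0 G0, G1, this, Int.Icc_eq_finset_map, sum_map,
      show ((k : ℤ) - -1 + 1 - 0).toNat = k + 2 by omega]
    simp [G1, coeff_Yc]

end PolAux

open PolAux

theorem pol_of (h : YS2) : POL where
  top R _ T := aeval_top (by simp [coeff_Yc, h.Y1]) (fun n hn => by simp [coeff_Yc, h.Y0 n hn]) T
  int := int_of h
  unit R _ := ⟨by rw [Yc, ← mapL_th]; exact (unit_th h).map _,
    h.Du.elim fun E hE => (IsUnit.of_mul_eq_one E hE).map _⟩

theorem fab_of (h : YS2) (_h' : POL) : FAB := by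
  choose P hP using exists_ex h
  refine ⟨P, fun n i hi => par h (hP n) i hi, hP, fun y => ?_, fun T => ?_⟩
  · exact gen h hP y
  · induction T using WellFounded.induction Polynomial.degree_lt_wf with
    | _ T ih =>
      intro hT
      by_cases h0 : T = 0
      · rw [h0]; exact zero_mem _
      have ho : Odd T.natDegree := Nat.not_even_iff_odd.1 fun e =>
        leadingCoeff_ne_zero.2 h0 (hT _ e)
      obtain ⟨d, m⟩ := (hP T.natDegree).monic h
      have hl : T.leadingCoeff ≠ 0 := leadingCoeff_ne_zero.2 h0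
      have := ih (T - C T.leadingCoeff * P T.natDegree) (degree_sub_lt_left ?_ h0 ?_) ?_
      · rw [← sub_add_cancel T (C T.leadingCoeff * P T.natDegree)]
        refine add_mem this ?_
        rw [← smul_eq_C_mul]
        exact Submodule.smul_mem _ _ (Submodule.subset_span ⟨_, ho, rfl⟩)
      · rw [degree_C_mul hl, degree_eq_natDegree m.ne_zero, d, degree_eq_natDegree h0]
      · rw [leadingCoeff_mul, leadingCoeff_C, m.leadingCoeff, mul_one]
      · intro i hi
        rw [coeff_sub, hT i hi, Polynomial.coeff_C_mul, par h (hP _) i, mul_zero, sub_zero]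
        rw [Nat.even_iff.1 hi, Nat.odd_iff.1 ho]
        decide

end Pool.Agent.MP_c481b3_nt.H31F
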