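import Pool.Agent.MP_c481b3_nt.H31F.Spec

set_option autoImplicit false

namespace Pool.Agent.MP_c481b3_nt.H31F

open UpperHalfPlane hiding I
open Complex Polynomial IsLocalRing Finset
open scoped Manifold MatrixGroups Real

namespace Ys2Aux

/-! ## the analytic estimates -/

lemma norm_x (τ : ℍ) : ‖xN 1 τ‖ = Real.exp (-(π * τ.im)) := by
  rw [xN, Complex.norm_exp]
  congr 1
  simp

lemma x_ne (τ : ℍ) : xN 1 τ ≠ 0 := exp_ne_zero _

lemma ev_small : ∀ᶠ τ in atImInfty, ‖xN 1 τ‖ ≤ 1 / 2 := by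
  refine (atImInfty_mem _).2 ⟨1, fun τ h => ?_⟩
  change ‖xN 1 τ‖ ≤ 1 / 2
  rw [norm_x, Real.exp_neg, one_div]
  refine inv_anti₀ (by norm_num) ?_
  have h1 := Real.add_one_le_exp (π * τ.im)
  have h2 := Real.pi_gt_three
  nlinarith

lemma norm_prod_le {q : ℂ} (hq : ‖q‖ ≤ 1 / 3) (m : ℕ) :
    ‖∏ n ∈ range m, (1 - q ^ (n + 1))‖ ≤ 2 - ‖q‖ ^ m := by
  induction m with
  | zero => norm_num
  | succ m ih =>
    rw [prod_range_succ, norm_mul]
    have h0 : 0 ≤ ‖q‖ ^ m := by positivity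
    have h0' : 0 ≤ ‖q‖ := norm_nonneg q
    have h1 : ‖1 - q ^ (m + 1)‖ ≤ 1 + ‖q‖ ^ m * ‖q‖ := by
      refine (norm_sub_le _ _).trans ?_
      rw [norm_one, norm_pow, pow_succ]
    have h2 : ‖q‖ ^ m ≤ 1 := pow_le_one₀ h0' (by linarith)
    refine (mul_le_mul ih h1 (norm_nonneg _) (by linarith)).trans ?_
    rw [pow_succ]
    nlinarith [mul_nonneg h0 (mul_nonneg h0 h0'), mul_nonneg h0 (sub_nonneg.2 hq)]

lemma norm_tail_le {q : ℂ} (hq : ‖q‖ ≤ 1 / 3) (K : ℕ) :
    ‖∏' n, (1 - q ^ (n + 1)) - ∏ n ∈ range K, (1 - q ^ (n + 1))‖ ≤ ‖q‖ ^ K := by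
  have h0' : 0 ≤ ‖q‖ := norm_nonneg q
  have h := dist_le_of_le_geometric_of_tendsto ‖q‖ (2 / 3) (by linarith)
    (f := fun m => ∏ n ∈ range m, (1 - q ^ (n + 1))) (fun m => by
      rw [dist_eq_norm, prod_range_succ, ← mul_one_sub, sub_sub_cancel, norm_mul, norm_pow,
        pow_succ]
      have h0 : 0 ≤ ‖q‖ ^ m := by positivity
      have h1 := norm_prod_le hq m
      have h2 : ‖q‖ ^ m * ‖q‖ ≤ ‖q‖ ^ m * (1 / 3) := mul_le_mul_of_nonneg_left hq h0
      calc _ ≤ 2 * (‖q‖ ^ m * (1 / 3)) :=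
            mul_le_mul (by linarith) h2 (by positivity) (by norm_num)
        _ = _ := by ring)
    (ModularForm.multipliable_one_sub_pow (q := q) (by linarith)).tendsto_prod_tprod_nat K
  rw [dist_comm, dist_eq_norm] at h
  refine h.trans ?_
  rw [div_le_iff₀ (by linarith)]
  have h0 : 0 ≤ ‖q‖ ^ K := by positivity
  nlinarith [mul_nonneg h0 (sub_nonneg.2 hq)]

/-- a criterion for an expansion through approximations -/
lemma crit {f : ℍ → ℂ} {F : LS ℂ} (h : ∀ K : ℤ, ∃ g G, Asy 1 g G ∧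
    (∀ n : ℤ, n < K → G.coeff n = F.coeff n) ∧
    (fun τ => f τ - g τ) =O[atImInfty] fun τ => xN 1 τ ^ K) : Asy 1 f F := by
  intro K
  obtain ⟨g, G, hg, hc, hO⟩ := h K
  have key : ∀ (H : LS ℂ) (a : ℤ), a ≤ H.order → ∀ τ,
      ∑ n ∈ Ico H.order K, H.coeff n * xN 1 τ ^ n = ∑ n ∈ Ico a K, H.coeff n * xN 1 τ ^ n := by
    intro H a ha τ
    refine sum_subset (Ico_subset_Ico_left ha) fun n hn hn' => ?_
    rw [mem_Ico] at hn hn'
    rw [HahnSeries.coeff_eq_zero_of_lt_order (by by_contra hc; exact hn' ⟨not_lt.1 hc, hn.2⟩),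
      zero_mul]
  refine (hO.add (hg K)).congr_left fun τ => ?_
  rw [key G _ (min_le_left _ F.order), key F _ (min_le_right G.order _),
    sum_congr rfl fun n hn => by rw [hc n (mem_Ico.1 hn).2]]
  ring

/-! ## integer series in the square of the parameter -/

/-- a power series in the square of the parameter -/
noncomputable def Ph : PowerSeries ℤ →+* LS ℤ := (ex 2).comp (HahnSeries.ofPowerSeries ℤ ℤ)

lemma coeff_Ph (A : PowerSeries ℤ) (n : ℤ) : (Ph A).coeff n = if (2 : ℤ) ∣ n then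
    (if n / 2 < 0 then 0 else PowerSeries.coeff (n / 2).natAbs A) else 0 := by
  rw [Ph, RingHom.comp_apply, coeff_ex two_pos, PowerSeries.coeff_coe]
  rfl

lemma Ph_neg (A : PowerSeries ℤ) {n : ℤ} (h : n < 0) : (Ph A).coeff n = 0 := by
  rw [coeff_Ph, if_pos (show n / 2 < 0 by omega), ite_self]

lemma Ph_odd (A : PowerSeries ℤ) {n : ℤ} (h : ¬(2 : ℤ) ∣ n) : (Ph A).coeff n = 0 := by
  rw [coeff_Ph, if_neg h]

lemma Ph_zero (A : PowerSeries ℤ) : (Ph A).coeff 0 = PowerSeries.constantCoeff A := by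
  simp [coeff_Ph]

lemma Ph_X : Ph PowerSeries.X = HahnSeries.single 2 1 := by
  ext n
  rw [coeff_Ph, PowerSeries.coeff_X, HahnSeries.coeff_single]
  split_ifs <;> first | rfl | omega

lemma map_single (n : ℤ) :
    mapL (Int.castRingHom ℂ) (HahnSeries.single n 1) = HahnSeries.single n 1 := by
  ext m
  rw [coeff_mapL, HahnSeries.coeff_single, HahnSeries.coeff_single]
  split_ifs <;> simp

/-- the finite products -/
noncomputable def PP (K : ℕ) : PowerSeries ℤ := ∏ n ∈ range K, (1 - PowerSeries.X ^ (n + 1))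

/-- the infinite product -/
noncomputable def SS : PowerSeries ℤ := PowerSeries.mk fun k => PowerSeries.coeff k (PP k)

lemma coeff_PP {j K : ℕ} (h : j ≤ K) : PowerSeries.coeff j (PP K) = PowerSeries.coeff j SS := by
  rw [SS, PowerSeries.coeff_mk]
  induction K, h using Nat.le_induction with
  | base => rfl
  | succ K h ih =>
    rw [← ih, PP, prod_range_succ, mul_sub, mul_one, map_sub, PowerSeries.coeff_mul_X_pow',
      if_neg (by omega), sub_zero, PP]

lemma const_SS : PowerSeries.constantCoeff SS = 1 := by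
  rw [← PowerSeries.coeff_zero_eq_constantCoeff_apply, ← coeff_PP le_rfl]
  simp [PP]

lemma exists_inv : ∃ T : PowerSeries ℤ, SS * T = 1 :=
  (PowerSeries.isUnit_iff_constantCoeff.2 (by rw [const_SS]; exact isUnit_one)).exists_right_inv

/-- the integer expansion of the Eisenstein series of weight six -/
noncomputable def EE : PowerSeries ℤ :=
  PowerSeries.mk fun m => if m = 0 then 1 else -504 * (ArithmeticFunction.sigma 5 m : ℤ)

lemma const_EE : PowerSeries.constantCoeff EE = 1 := by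
  rw [← PowerSeries.coeff_zero_eq_constantCoeff_apply, EE, PowerSeries.coeff_mk, if_pos rfl]

lemma bern : _root_.bernoulli 6 = 1 / 42 := by decide +kernel

lemma asy_E (h4 : AsyQ) : Asy 1 ModularForm.E₆ (mapL (Int.castRingHom ℂ) (Ph EE)) := by
  convert h4 6 ModularForm.E₆ using 1
  ext n
  rw [coeff_mapL, coeff_Ph, coeff_ex two_pos, PowerSeries.coeff_coe, Nat.cast_ofNat]
  have e := EisensteinSeries.E_qExpansion_coeff (k := 6) (by norm_num) (by decide) (n / 2).natAbs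
  rw [bern] at e
  split_ifs with h h1
  · simp
  · refine Eq.trans ?_ e.symm
    rw [EE, PowerSeries.coeff_mk]
    split_ifs
    · simp
    · simp only [eq_intCast]
      push_cast
      norm_num
  · simp

section asy
variable (h1 : AsyRing)
include h1

lemma asy_pow {f : ℍ → ℂ} {F : LS ℂ} (h : Asy 1 f F) (k : ℕ) :
    Asy 1 (fun τ => f τ ^ k) (F ^ k) := by
  simpa using (h1 1 one_pos).2.2.2.2.2.2.1 f F (X ^ k) h

lemma asy_PP (K : ℕ) : Asy 1 (fun τ => ∏ n ∈ range K, (1 - (xN 1 τ ^ 2) ^ (n + 1)))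
    (mapL (Int.castRingHom ℂ) (Ph (PP K))) := by
  obtain ⟨-, -, -, -, -, hs, hp, hm⟩ := h1 1 one_pos
  have := (hm ℕ (range K) (fun n τ => 1 - (xN 1 τ ^ 2) ^ (n + 1))
    (fun n => 1 - HahnSeries.single 2 1 ^ (n + 1)) fun n _ => by
      have := hp _ _ (1 - X ^ (n + 1) : ℂ[X]) (hs 2)
      simp only [eval_sub, eval_one, eval_pow, eval_X, map_sub, map_one, map_pow, aeval_X,
        zpow_ofNat] at this
      exact this).2
  simp only [PP, map_prod, map_sub, map_one, map_pow, Ph_X, map_single]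
  exact this

lemma asy_SS : Asy 1 (fun τ => ∏' n, (1 - (xN 1 τ ^ 2) ^ (n + 1)))
    (mapL (Int.castRingHom ℂ) (Ph SS)) := by
  refine crit fun K => ⟨_, _, asy_PP h1 K.toNat, fun n hn => ?_, ?_⟩
  · rw [coeff_mapL, coeff_mapL, coeff_Ph, coeff_Ph]
    split_ifs
    · rfl
    · rw [coeff_PP (by omega)]
    · rfl
  · refine Asymptotics.IsBigO.of_bound' ?_
    filter_upwards [ev_small] with τ hτ
    have h0 : 0 < ‖xN 1 τ‖ := norm_pos_iff.2 (x_ne τ)
    refine (norm_tail_le (by rw [norm_pow]; nlinarith) _).trans ?_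
    rw [norm_pow, norm_zpow, ← pow_mul, ← zpow_natCast]
    exact zpow_le_zpow_right_of_le_one₀ h0 (by linarith) (by omega)

omit h1 in
lemma dl_eq (τ : ℍ) : dl τ = xN 1 τ ^ (1 : ℤ) * (∏' n, (1 - (xN 1 τ ^ 2) ^ (n + 1))) ^ 12 := by
  have e : xN 1 τ ^ 2 = cexp (2 * π * I * τ) := by
    rw [xN, ← Complex.exp_nat_mul]
    congr 1
    push_cast
    ring
  rw [dl, ModularForm.eta, mul_pow, e, zpow_one]
  simp only [ModularForm.eta_q_eq_pow]
  congr 1
  rw [Function.Periodic.qParam, xN, ← Complex.exp_nat_mul]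
  congr 1
  push_cast
  ring

lemma asy_dl : Asy 1 dl (mapL (Int.castRingHom ℂ) (HahnSeries.single 1 1 * Ph (SS ^ 12))) := by
  have := (h1 1 one_pos).2.2.1 _ _ _ _ ((h1 1 one_pos).2.2.2.2.2.1 1) (asy_pow h1 (asy_SS h1) 12)
  rw [map_mul, map_single, map_pow, map_pow, funext dl_eq]
  exact this

omit h1 in
lemma inv_dl {T : PowerSeries ℤ} (hT : SS * T = 1) :
    (HahnSeries.single 1 1 * Ph (SS ^ 12)) * (HahnSeries.single (-1) 1 * Ph (T ^ 12)) = 1 := by
  rw [mul_mul_mul_comm, HahnSeries.single_mul_single, ← map_mul, ← mul_pow, hT]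
  simp

lemma asy_YY (h4 : AsyQ) {T : PowerSeries ℤ} (hT : SS * T = 1) :
    Asy 1 YY (mapL (Int.castRingHom ℂ) (HahnSeries.single (-1) 1 * Ph (EE * T ^ 12))) := by
  have e := congrArg (mapL (Int.castRingHom ℂ)) (inv_dl hT)
  rw [map_mul, map_one (mapL (Int.castRingHom ℂ))] at e
  have := (h1 1 one_pos).2.2.1 _ _ _ _ (asy_E h4)
    ((h1 1 one_pos).2.2.2.1 _ _ (asy_dl h1) (left_ne_zero_of_mul_eq_one e))
  rw [← eq_inv_of_mul_eq_one_right e, ← map_mul (mapL (Int.castRingHom ℂ)), mul_left_comm,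
    ← map_mul Ph] at this
  have e' : YY = fun τ => ModularForm.E₆ τ * (dl τ)⁻¹ := funext fun τ => div_eq_mul_inv _ _
  rw [e']
  exact this

lemma eps_eq {f : ℍ → ℂ} {F : LS ℤ} (h : Asy 1 f (mapL (Int.castRingHom ℂ) F)) :
    (Classical.epsilon fun F => Asy 1 f (mapL (Int.castRingHom ℂ) F)) = F :=
  mapL_injective (Int.castRingHom ℂ).injective_int ((h1 1 one_pos).2.2.2.2.1 f _ _
    (Classical.epsilon_spec (p := fun F => Asy 1 f (mapL (Int.castRingHom ℂ) F)) ⟨F, h⟩) h)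

end asy

end Ys2Aux

open Ys2Aux in
theorem ys2_of (h1 : AsyRing) (_h2 : AsySub) (h3 : AsyDer) (h4 : AsyQ) (h5 : YS1) : YS2 := by
  obtain ⟨T, hT⟩ := exists_inv
  have hT1 : PowerSeries.constantCoeff T = 1 := by
    have := congrArg PowerSeries.constantCoeff hT
    rwa [map_mul, const_SS, one_mul, map_one] at this
  have aY := asy_YY h1 h4 hT
  have ad := asy_dl h1
  have eY : Ys = _ := eps_eq h1 aY
  have eD : Ds = _ := eps_eq h1 ad
  have aY' : Asy 1 YY (Yc ℂ) := by rwa [Yc, eY]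
  refine ⟨aY', by rwa [Dc, eD], by simpa using h3 1 one_pos _ _ h5.hY aY', ?_, ?_, ?_, ?_, ?_,
    ⟨_, eD ▸ inv_dl hT⟩⟩
  · rw [eY, HahnSeries.coeff_single_mul, one_mul, sub_self, Ph_zero, map_mul, map_pow, const_EE,
      hT1, one_pow, one_mul]
  · intro n hn
    rw [eY, HahnSeries.coeff_single_mul, one_mul, Ph_neg _ (by omega)]
  · rintro n ⟨m, rfl⟩
    rw [eY, HahnSeries.coeff_single_mul, one_mul, Ph_odd _ (by omega)]
  · rw [eD, HahnSeries.coeff_single_mul, one_mul, sub_self, Ph_zero, map_pow, const_SS, one_pow]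
  · intro n hn
    rw [eD, HahnSeries.coeff_single_mul, one_mul, Ph_neg _ (by omega)]

end Pool.Agent.MP_c481b3_nt.H31F
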