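import Pool.Agent.MP_c481b3_nt.H31F.Asy1
import Pool.Agent.MP_c481b3_nt.H31F.Asy2
import Pool.Agent.MP_c481b3_nt.H31F.Asy3
import Pool.Agent.MP_c481b3_nt.H31F.Ys1
import Pool.Agent.MP_c481b3_nt.H31F.Ys2
import Pool.Agent.MP_c481b3_nt.H31F.Mat
import Pool.Agent.MP_c481b3_nt.H31F.Pol
import Pool.Agent.MP_c481b3_nt.H31F.Car
import Pool.Agent.MP_c481b3_nt.H31F.Lv
import Pool.Agent.MP_c481b3_nt.H31F.Mem
import Pool.Agent.MP_c481b3_nt.H31F.Chp

set_option autoImplicit false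

namespace Pool.Agent.MP_c481b3_nt.H31F

theorem y2 : YS2 := ys2_of asyRing asySub asyDer asyQ (ys1_of mat)

theorem b1 : B1 := ⟨asyRing, asySub, asyDer, asyQ, ys1_of mat, y2, real, mat, pol_of y2, frob⟩

theorem b2 : B2 := ⟨b1, lv_of b1, memRing_of b1, memY_of b1 (memRing_of b1),
  chp_of b1 (lv_of b1) (memRing_of b1)⟩

end Pool.Agent.MP_c481b3_nt.H31F
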