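import Pool.Agent.MP_c481b3_nt.H31F.Spec

set_option autoImplicit false

namespace Pool.Agent.MP_c481b3_nt.H31F

open UpperHalfPlane hiding I
open Complex Polynomial Filter Asymptotics Topology
open scoped Real

namespace Asy1Aux

variable {α : Type} {l : Filter α} {x : α → ℂ}

/-- no coefficient below `m` -/
def Van (m : ℤ) (F : LS ℂ) : Prop := ∀ n < m, F.coeff n = 0

/-- truncated sum -/
noncomputable def tr (x : α → ℂ) (m K : ℤ) (F : LS ℂ) (a : α) : ℂ :=
  ∑ n ∈ Finset.Ico m K, F.coeff n * x a ^ n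

/-- asymptotic expansion along a filter -/
def A (l : Filter α) (x : α → ℂ) (f : α → ℂ) (F : LS ℂ) : Prop :=
  ∀ K : ℤ, (fun a => f a - tr x F.order K F a) =O[l] fun a => x a ^ K

lemma van_order (F : LS ℂ) : Van F.order F := fun _ h => HahnSeries.coeff_eq_zero_of_lt_order h

lemma Van.mono {m m' : ℤ} {F : LS ℂ} (h : Van m F) (hm : m' ≤ m) : Van m' F :=
  fun n hn => h n (by omega)

lemma Van.mul {a b : ℤ} {F G : LS ℂ} (hF : Van a F) (hG : Van b G) : Van (a + b) (F * G) := by
  intro n hn
  rw [HahnSeries.coeff_mul]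
  refine Finset.sum_eq_zero fun y hy => ?_
  have := (Finset.mem_antidiagonal.1 hy).2.2
  by_cases c : y.1 < a
  · rw [hF _ c, zero_mul]
  · rw [hG _ (by omega), mul_zero]

lemma tr_le {m m' : ℤ} {F : LS ℂ} (h : Van m F) (hm : m' ≤ m) (K : ℤ) (a : α) :
    tr x m K F a = tr x m' K F a := by
  refine Finset.sum_subset (Finset.Ico_subset_Ico_left hm) fun n h1 h2 => ?_
  rw [Finset.mem_Ico] at h1 h2
  rw [h n (by omega), zero_mul]

lemma tr_eq {m : ℤ} {F : LS ℂ} (h : Van m F) (K : ℤ) (a : α) :
    tr x F.order K F a = tr x m K F a := by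
  rw [tr_le (van_order F) (min_le_left _ m), tr_le h (min_le_right F.order m)]

lemma A_iff {m : ℤ} {F : LS ℂ} (h : Van m F) {f : α → ℂ} :
    A l x f F ↔ ∀ K : ℤ, (fun a => f a - tr x m K F a) =O[l] fun a => x a ^ K := by
  simp only [A, tr_eq h]

lemma A.big {K : ℤ} {f : α → ℂ} {F : LS ℂ} (h : A l x f F) (hF : Van K F) :
    f =O[l] fun a => x a ^ K := by
  simpa [tr] using (A_iff hF).1 h K

lemma A.add {f g : α → ℂ} {F G : LS ℂ} (hf : A l x f F) (hg : A l x g G) :
    A l x (fun a => f a + g a) (F + G) := by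
  have h1 : Van (min F.order G.order) F := (van_order F).mono (min_le_left _ _)
  have h2 : Van (min F.order G.order) G := (van_order G).mono (min_le_right _ _)
  have h3 : Van (min F.order G.order) (F + G) := fun n hn => by
    rw [HahnSeries.coeff_add, h1 n hn, h2 n hn, add_zero]
  refine (A_iff h3).2 fun K => (((A_iff h1).1 hf K).add ((A_iff h2).1 hg K)).congr_left fun a => ?_
  simp only [tr, HahnSeries.coeff_add, add_mul, Finset.sum_add_distrib]
  ring

lemma A.neg {f : α → ℂ} {F : LS ℂ} (hf : A l x f F) : A l x (fun a => -f a) (-F) := by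
  have h3 : Van F.order (-F) := fun n hn => by
    rw [HahnSeries.coeff_neg, van_order F n hn, neg_zero]
  refine (A_iff h3).2 fun K => (hf K).neg_left.congr_left fun a => ?_
  simp only [tr, HahnSeries.coeff_neg, neg_mul, Finset.sum_neg_distrib]
  ring

lemma A.sub {f g : α → ℂ} {F G : LS ℂ} (hf : A l x f F) (hg : A l x g G) :
    A l x (fun a => f a - g a) (F - G) := by
  simpa only [sub_eq_add_neg] using hf.add hg.neg

lemma A_zero : A l x (fun _ => 0) 0 := fun K => by
  simpa [tr] using isBigO_zero _ _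

lemma A_sum {ι : Type} (s : Finset ι) {f : ι → α → ℂ} {F : ι → LS ℂ}
    (h : ∀ i ∈ s, A l x (f i) (F i)) : A l x (fun a => ∑ i ∈ s, f i a) (∑ i ∈ s, F i) := by
  classical
  induction s using Finset.induction_on with
  | empty => simpa using A_zero
  | insert i s hi ih =>
    simp only [Finset.sum_insert hi]
    exact (h i (Finset.mem_insert_self _ _)).add (ih fun j hj => h j (Finset.mem_insert_of_mem hj))

lemma A_lim {f : α → ℂ} {F : LS ℂ} (h : ∀ K : ℤ, ∃ g G, A l x g G ∧
    (fun a => f a - g a) =O[l] (fun a => x a ^ K) ∧ Van K (F - G)) : A l x f F := by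
  intro K
  obtain ⟨g, G, h1, h2, h3⟩ := h K
  have v1 : Van (min F.order G.order) F := (van_order F).mono (min_le_left _ _)
  have v2 : Van (min F.order G.order) G := (van_order G).mono (min_le_right _ _)
  refine (h2.add ((A_iff v2).1 h1 K)).congr_left fun a => ?_
  rw [tr_eq v1]
  have : tr x (min F.order G.order) K G a = tr x (min F.order G.order) K F a := by
    refine Finset.sum_congr rfl fun n hn => ?_
    have := h3 n (Finset.mem_Ico.1 hn).2
    rw [HahnSeries.coeff_sub, sub_eq_zero] at this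
    rw [this]
  rw [this]
  ring

/-- the truncation as a series -/
noncomputable def TT (K : ℤ) (F : LS ℂ) : LS ℂ :=
  ∑ n ∈ Finset.Ico F.order K, HahnSeries.single n (F.coeff n)

lemma van_TT (K : ℤ) (F : LS ℂ) : Van K (F - TT K F) := by
  intro n hn
  rw [HahnSeries.coeff_sub, TT, HahnSeries.coeff_sum]
  rw [Finset.sum_eq_single n (fun k _ hk => HahnSeries.coeff_single_of_ne hk.symm) fun c => ?_,
    HahnSeries.coeff_single_same, sub_self]
  rw [Finset.mem_Ico] at c
  rw [HahnSeries.coeff_single_same, van_order F n (by omega)]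

section
variable (h0 : ∀ a, x a ≠ 0)
include h0

lemma A.shift {g : α → ℂ} {G : LS ℂ} (hg : A l x g G) (n : ℤ) (c : ℂ) :
    A l x (fun a => c * x a ^ n * g a) (HahnSeries.single n c * G) := by
  have v : Van (G.order + n) (HahnSeries.single n c * G) := fun k hk => by
    rw [show k = (k - n) + n by ring, HahnSeries.coeff_single_mul_add,
      van_order G _ (by omega), mul_zero]
  refine (A_iff v).2 fun K => ?_
  have h1 := ((isBigO_refl (fun a => x a ^ n) l).const_mul_left c).mul (hg (K - n))
  refine h1.congr (fun a => ?_) fun a => ?_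
  · have e : tr x (G.order + n) K (HahnSeries.single n c * G) a
        = c * x a ^ n * tr x G.order (K - n) G a := by
      rw [tr, tr, Finset.mul_sum, show K = (K - n) + n by ring, ← Finset.sum_Ico_add',
        add_sub_cancel_right]
      refine Finset.sum_congr rfl fun k _ => ?_
      rw [HahnSeries.coeff_single_mul_add, zpow_add₀ (h0 a)]
      ring
    rw [e]; ring
  · rw [← zpow_add₀ (h0 a)]; congr 1; ring

lemma A.mulT {g : α → ℂ} {G : LS ℂ} (hg : A l x g G) (K : ℤ) (F : LS ℂ) :
    A l x (fun a => tr x F.order K F a * g a) (TT K F * G) := by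
  simp only [tr, TT, Finset.sum_mul]
  exact A_sum _ fun n _ => hg.shift h0 n _

lemma A.mul {f g : α → ℂ} {F G : LS ℂ} (hf : A l x f F) (hg : A l x g G) :
    A l x (fun a => f a * g a) (F * G) := by
  refine A_lim fun K => ⟨_, _, hg.mulT h0 (K - G.order) F, ?_, ?_⟩
  · refine ((hf (K - G.order)).mul (hg.big (van_order G))).congr (fun a => by ring) fun a => ?_
    rw [← zpow_add₀ (h0 a)]; congr 1; ring
  · rw [← sub_mul]
    simpa using (van_TT (K - G.order) F).mul (van_order G)

variable (ht : Tendsto x l (𝓝 0))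
include ht

lemma pow_big {K K' : ℤ} (h : K ≤ K') : (fun a => x a ^ K') =O[l] fun a => x a ^ K := by
  obtain ⟨j, rfl⟩ := Int.le.dest h
  have h1 : (fun a => x a ^ j) =O[l] fun _ => (1 : ℂ) := (ht.pow j).isBigO_one ℂ
  refine ((isBigO_refl (fun a => x a ^ K) l).mul h1).congr (fun a => ?_) fun a => mul_one _
  rw [zpow_add₀ (h0 a), zpow_natCast]

lemma A_single (n : ℤ) (c : ℂ) : A l x (fun a => c * x a ^ n) (HahnSeries.single n c) := by
  have v : Van n (HahnSeries.single n c) := fun k hk => HahnSeries.coeff_single_of_ne hk.ne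
  refine (A_iff v).2 fun K => ?_
  by_cases h : n < K
  · refine (isBigO_zero _ _).congr_left fun a => ?_
    rw [tr, Finset.sum_eq_single n (fun k _ hk => by
      rw [HahnSeries.coeff_single_of_ne hk, zero_mul]) (fun hn => (hn (by simpa using h)).elim),
      HahnSeries.coeff_single_same, sub_self]
  · refine ((pow_big h0 ht (not_lt.1 h)).const_mul_left c).congr_left fun a => ?_
    rw [tr, Finset.Ico_eq_empty h, Finset.sum_empty, sub_zero]

lemma A_const (c : ℂ) : A l x (fun _ => c) (HahnSeries.C c) := by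
  simpa [HahnSeries.C_apply] using A_single h0 ht 0 c

lemma A_one : A l x (fun _ => 1) 1 := by simpa using A_const h0 ht 1

lemma A.lead {f : α → ℂ} {F : LS ℂ} (hf : A l x f F) :
    Tendsto (fun a => f a * x a ^ (-F.order)) l (𝓝 (F.coeff F.order)) := by
  have h1 := (hf (F.order + 1)).mul (isBigO_refl (fun a => x a ^ (-F.order)) l)
  have h2 : (fun a => f a * x a ^ (-F.order) - F.coeff F.order) =O[l] x := by
    refine h1.congr (fun a => ?_) fun a => ?_
    · have e : Finset.Ico F.order (F.order + 1) = {F.order} := by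
        ext k; simp only [Finset.mem_Ico, Finset.mem_singleton]; omega
      rw [tr, e, Finset.sum_singleton, sub_mul, mul_assoc, ← zpow_add₀ (h0 a)]
      simp
    · rw [← zpow_add₀ (h0 a), show F.order + 1 + -F.order = 1 by ring, zpow_one]
  exact tendsto_sub_nhds_zero_iff.1 (h2.trans_tendsto ht)

lemma A.unique [l.NeBot] {f : α → ℂ} {F G : LS ℂ} (hF : A l x f F) (hG : A l x f G) : F = G := by
  have h := (hF.sub hG).lead h0 ht
  simp only [sub_self, zero_mul] at h
  have := tendsto_nhds_unique h tendsto_const_nhds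
  exact sub_eq_zero.1 (HahnSeries.coeff_order_eq_zero.1 this)

lemma A.inv {f : α → ℂ} {F : LS ℂ} (hf : A l x f F) (hF : F ≠ 0) :
    A l x (fun a => (f a)⁻¹) F⁻¹ := by
  have hc : F.coeff F.order ≠ 0 := fun e => hF (HahnSeries.coeff_order_eq_zero.1 e)
  have h1 := hf.lead h0 ht
  have hne : ∀ᶠ a in l, f a ≠ 0 := (h1.eventually_ne hc).mono fun a h e => h (by rw [e, zero_mul])
  have h2 : (fun a => (f a)⁻¹) =O[l] fun a => x a ^ (-F.order) := by
    refine (((h1.inv₀ hc).isBigO_one ℂ).mul (isBigO_refl (fun a => x a ^ (-F.order)) l)).congr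
      (fun a => ?_) fun a => one_mul _
    rw [mul_inv, mul_assoc, inv_mul_cancel₀ (zpow_ne_zero _ (h0 a)), mul_one]
  refine A_lim fun K => ⟨_, _, (A_one h0 ht).mulT h0 K F⁻¹, ?_, by
    rw [mul_one]; exact van_TT K _⟩
  have h3 := ((A_one h0 ht).sub (hf.mulT h0 K F⁻¹)).big (K := K + F.order) (by
    have := (van_TT K F⁻¹).mul (van_order F)
    rwa [sub_mul, inv_mul_cancel₀ hF] at this)
  refine (h3.mul h2).congr' (hne.mono fun a h => ?_) (Eventually.of_forall fun a => ?_)
  · dsimp only
    field_simp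
  · dsimp only
    rw [← zpow_add₀ (h0 a)]; congr 1; ring

lemma A_prod {ι : Type} (s : Finset ι) {f : ι → α → ℂ} {F : ι → LS ℂ}
    (h : ∀ i ∈ s, A l x (f i) (F i)) : A l x (fun a => ∏ i ∈ s, f i a) (∏ i ∈ s, F i) := by
  classical
  induction s using Finset.induction_on with
  | empty => simpa using A_one h0 ht
  | insert i s hi ih =>
    simp only [Finset.prod_insert hi]
    exact (h i (Finset.mem_insert_self _ _)).mul h0
      (ih fun j hj => h j (Finset.mem_insert_of_mem hj))

lemma A.eval {f : α → ℂ} {F : LS ℂ} (hf : A l x f F) (P : ℂ[X]) :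
    A l x (fun a => P.eval (f a)) (aeval F P) := by
  induction P using Polynomial.induction_on with
  | C c => simpa only [eval_C, aeval_C, algebraMap_LS] using A_const h0 ht c
  | add p q hp hq => simpa only [eval_add, map_add] using hp.add hq
  | monomial n c ih =>
    simpa only [pow_succ, ← mul_assoc, eval_mul, map_mul, eval_X, aeval_X] using ih.mul h0 hf

end

lemma xN_ne (N : ℕ) (τ : ℍ) : xN N τ ≠ 0 := exp_ne_zero _

lemma xN_tendsto {N : ℕ} (h : 0 < N) : Tendsto (xN N) atImInfty (𝓝 0) := by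
  rw [tendsto_zero_iff_norm_tendsto_zero]
  have e : ∀ τ : ℍ, ‖xN N τ‖ = Real.exp (-(π / N * τ.im)) := fun τ => by
    rw [xN, norm_exp, div_natCast_re]
    congr 1
    simp
    ring
  simp only [e]
  refine Real.tendsto_exp_neg_atTop_nhds_zero.comp (Tendsto.const_mul_atTop ?_ tendsto_comap)
  have : (0 : ℝ) < N := by exact_mod_cast h
  exact div_pos Real.pi_pos this

end Asy1Aux

open Asy1Aux in
theorem asyRing : AsyRing := fun N hN =>
  have h0 := xN_ne N
  have ht := xN_tendsto hN
  ⟨fun c => A_const h0 ht c, fun _ _ _ _ hf hg => A.add hf hg,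
    fun _ _ _ _ hf hg => A.mul h0 hf hg, fun _ _ hf hF => A.inv h0 ht hf hF,
    fun _ _ _ hF hG => A.unique h0 ht hF hG,
    fun n => show A atImInfty (xN N) _ _ by simpa only [one_mul] using A_single h0 ht n 1,
    fun _ _ P hf => A.eval h0 ht hf P,
    fun _ s _ _ h => ⟨A_sum s h, A_prod h0 ht s h⟩⟩

end Pool.Agent.MP_c481b3_nt.H31F
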