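import Pool.Agent.MP_c481b3_nt.H31F.Spec

set_option autoImplicit false

namespace Pool.Agent.MP_c481b3_nt.H31F

open Polynomial

namespace AutAux

open Set Cardinal

lemma ext_equiv {R K L : Type} [CommRing R] [Field K] [Field L] [Algebra R K] [Algebra R L]
    [IsAlgClosed K] [IsAlgClosed L] [FaithfulSMul R K] [FaithfulSMul R L] (hR : Cardinal.mk R ≤ ℵ₀)
    (hK : ℵ₀ < Cardinal.mk K) (hKL : Cardinal.mk K = Cardinal.mk L) :
    ∃ e : K ≃+* L, ∀ r, e (algebraMap R K r) = algebraMap R L r := by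
  have := RingHom.domain_nontrivial (algebraMap R K)
  obtain ⟨s, hs⟩ := exists_isTranscendenceBasis R K
  obtain ⟨t, ht⟩ := exists_isTranscendenceBasis R L
  have h1 := IsAlgClosed.cardinal_eq_cardinal_transcendence_basis_of_aleph0_lt' _ hs hR hK
  have h2 := IsAlgClosed.cardinal_eq_cardinal_transcendence_basis_of_aleph0_lt' _ ht hR (hKL ▸ hK)
  obtain ⟨e⟩ := Cardinal.eq.1 (h1.symm.trans (hKL.trans h2))
  let := IsAlgClosed.isAlgClosure_of_transcendence_basis _ hs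
  let := IsAlgClosed.isAlgClosure_of_transcendence_basis _ ht
  let e' := hs.1.aevalEquiv.symm.trans ((MvPolynomial.renameEquiv R e).trans ht.1.aevalEquiv)
  refine ⟨IsAlgClosure.equivOfEquiv K L e'.toRingEquiv, fun r => ?_⟩
  rw [IsScalarTower.algebraMap_apply R (Algebra.adjoin R (range ((↑) : s → K))) K,
    IsAlgClosure.equivOfEquiv_algebraMap,
    IsScalarTower.algebraMap_apply R (Algebra.adjoin R (range ((↑) : t → L))) L]
  exact congrArg _ (e'.commutes r)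

lemma ext_aut {R : Type} [CommRing R] [Countable R] (f g : R →+* ℂ) (hf : Function.Injective f)
    (hg : Function.Injective g) : ∃ θ : ℂ ≃+* ℂ, ∀ r, θ (f r) = g r :=
  @ext_equiv R ℂ ℂ _ _ _ f.toAlgebra g.toAlgebra _ _
    ((@faithfulSMul_iff_algebraMap_injective R ℂ _ _ f.toAlgebra).2 hf)
    ((@faithfulSMul_iff_algebraMap_injective R ℂ _ _ g.toAlgebra).2 hg) mk_le_aleph0
    (by rw [mk_complex]; exact aleph0_lt_continuum) rfl

lemma cj (x y : ℂ) (hx : IsAlgebraic ℚ x) (hy : aeval y (minpoly ℚ x) = 0) :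
    ∃ ρ : ℂ ≃+* ℂ, ρ x = y := by
  have : Fact (Irreducible (minpoly ℚ x)) := ⟨minpoly.irreducible hx.isIntegral⟩
  have : Countable ℚ[X] := mk_le_aleph0_iff.1
    (Polynomial.cardinalMk_le_max.trans (max_le mk_le_aleph0 le_rfl))
  have : Countable (AdjoinRoot (minpoly ℚ x)) := AdjoinRoot.mk_surjective.countable
  have h1 : (minpoly ℚ x).eval₂ (algebraMap ℚ ℂ) x = 0 := minpoly.aeval ℚ x
  have h2 : (minpoly ℚ x).eval₂ (algebraMap ℚ ℂ) y = 0 := hy
  obtain ⟨θ, hθ⟩ := ext_aut (AdjoinRoot.lift (algebraMap ℚ ℂ) x h1)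
    (AdjoinRoot.lift (algebraMap ℚ ℂ) y h2) (RingHom.injective _) (RingHom.injective _)
  have h := hθ (AdjoinRoot.root _)
  rw [AdjoinRoot.lift_root, AdjoinRoot.lift_root] at h
  exact ⟨θ, h⟩

lemma fix (x : ℂ) (hx : IsAlgebraic ℚ x) (h : ∀ ρ : ℂ ≃+* ℂ, ρ x = x) : ∃ a : ℚ, x = a := by
  classical
  have hi := hx.isIntegral
  have hs : (minpoly ℚ x).Separable := (minpoly.irreducible hi).separable
  have hc := card_rootSet_eq_natDegree (K := ℂ) hs (IsAlgClosed.splits _)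
  have h1 : Fintype.card ((minpoly ℚ x).rootSet ℂ) ≤ 1 := by
    refine Fintype.card_le_one_iff.2 fun a b => Subtype.ext ?_
    obtain ⟨ρ, hρ⟩ := cj x a hx (aeval_eq_zero_of_mem_rootSet a.2)
    obtain ⟨ρ', hρ'⟩ := cj x b hx (aeval_eq_zero_of_mem_rootSet b.2)
    rw [← hρ, ← hρ', h, h]
  have h2 : (minpoly ℚ x).natDegree = 1 :=
    le_antisymm (hc ▸ h1) (minpoly.natDegree_pos hi)
  obtain ⟨a, ha⟩ := minpoly.natDegree_eq_one_iff.1 h2
  exact ⟨a, by simpa using ha.symm⟩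

end AutAux

theorem aut : AUT := ⟨AutAux.cj, AutAux.fix⟩

end Pool.Agent.MP_c481b3_nt.H31F
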