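import Pool.Agent.MP_c481b3_nt.H31F.Spec3

set_option autoImplicit false

namespace Pool.Agent.MP_c481b3_nt.H31F

open Polynomial NumberField IsDedekindDomain

namespace BrAux

section val
variable {O : ValuationSubring ℂ}

lemma vle {x : ℂ} (h : x ∈ O) : O.valuation x ≤ 1 := (O.valuation_le_one_iff x).2 h

lemma prodLt {ι : Type} {s : Multiset ι} {f : ι → ℂ} (h : ∀ i ∈ s, f i ∈ O) {j : ι}
    (hj : j ∈ s) (h1 : O.valuation (f j) < 1) : O.valuation (s.map f).prod < 1 := by
  obtain ⟨t, rfl⟩ := Multiset.exists_cons_of_mem hj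
  rw [Multiset.map_cons, Multiset.prod_cons, map_mul]
  refine mul_lt_one_of_lt_of_le h1 (vle (multiset_prod_mem _ fun x hx => ?_))
  obtain ⟨i, hi, rfl⟩ := Multiset.mem_map.1 hx
  exact h i (Multiset.mem_cons_of_mem hi)

lemma intLt {p : ℕ} (hp : p.Prime) (hv : O.valuation (p : ℂ) < 1) {z : ℤ}
    (h : O.valuation (z : ℂ) < 1) : (p : ℤ) ∣ z := by
  by_contra c
  obtain ⟨a, b, e⟩ := (Nat.prime_iff_prime_int.1 hp).irreducible.coprime_iff_not_dvd.2 c
  have e' : (a : ℂ) * p + b * z = 1 := by exact_mod_cast e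
  have := O.valuation.map_add_lt (x := a * p) (y := b * z) (g := 1)
    (by rw [map_mul, mul_comm]; exact mul_lt_one_of_lt_of_le hv (vle (intCast_mem O a)))
    (by rw [map_mul, mul_comm]; exact mul_lt_one_of_lt_of_le h (vle (intCast_mem O b)))
  rw [e', map_one] at this
  exact this.false

end val

variable {K : Type} [Field K] [NumberField K]

lemma univGal (ρ : ℂ ≃+* ℂ) : (Finset.univ : Finset (K →+* ℂ)).val.map
    (fun σ => (ρ : ℂ →+* ℂ).comp σ) = Finset.univ.val :=
  Multiset.map_univ_val_equiv ⟨fun σ : K →+* ℂ => (ρ : ℂ →+* ℂ).comp σ,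
    fun σ => (ρ.symm : ℂ →+* ℂ).comp σ, fun σ => by ext; simp, fun σ => by ext; simp⟩

omit [NumberField K] in
lemma intEmb (σ : K →+* ℂ) (x : 𝓞 K) : IsIntegral ℤ (σ x) :=
  x.isIntegral_coe.map σ.toIntAlgHom

/-- the prime below a valuation -/
def below (h : VLS) (O : ValuationSubring ℂ) (σ : K →+* ℂ) : Ideal (𝓞 K) where
  carrier := {x | O.valuation (σ x) < 1}
  add_mem' := fun {a b} ha hb => by
    change O.valuation (σ ((a + b : 𝓞 K) : K)) < 1
    rw [RingOfIntegers.coe_eq_algebraMap, map_add, map_add]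
    exact O.valuation.map_add_lt ha hb
  zero_mem' := by
    change O.valuation (σ ((0 : 𝓞 K) : K)) < 1
    rw [RingOfIntegers.coe_eq_algebraMap, map_zero, map_zero, map_zero]
    exact zero_lt_one
  smul_mem' := fun c x hx => by
    change O.valuation (σ ((c * x : 𝓞 K) : K)) < 1
    rw [RingOfIntegers.coe_eq_algebraMap, map_mul, map_mul, map_mul, mul_comm]
    exact mul_lt_one_of_lt_of_le hx (vle ((h.int _).1 (intEmb σ c) O))

lemma mem_below (h : VLS) (O : ValuationSubring ℂ) (σ : K →+* ℂ) (x : 𝓞 K) :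
    x ∈ below h O σ ↔ O.valuation (σ (algebraMap (𝓞 K) K x)) < 1 := Iff.rfl

lemma below_prime (h : VLS) (O : ValuationSubring ℂ) (σ : K →+* ℂ) : (below h O σ).IsPrime := by
  refine ⟨fun e => ?_, fun {a b} hab => ?_⟩
  · have : (1 : 𝓞 K) ∈ below h O σ := e ▸ Submodule.mem_top
    rw [mem_below, map_one, map_one, map_one] at this
    exact this.false
  · by_contra c
    rw [not_or, mem_below, mem_below] at c
    have ha := (vle ((h.int _).1 (intEmb σ a) O)).eq_of_not_lt c.1
    have hb := (vle ((h.int _).1 (intEmb σ b) O)).eq_of_not_lt c.2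
    rw [mem_below, map_mul, map_mul, map_mul] at hab
    rw [RingOfIntegers.coe_eq_algebraMap] at ha hb
    rw [ha, hb, mul_one] at hab
    exact hab.false

end BrAux

open BrAux

theorem br_of (h : VLS) : BR := by
  intro K _ _ u l hl hu O σ hv
  have hm : (l : 𝓞 K) ∈ below h O σ := by
    rw [mem_below, map_natCast, map_natCast]; exact hv
  have hne : below h O σ ≠ ⊥ := fun e => by
    rw [e, Ideal.mem_bot] at hm
    exact hl.ne_zero (by exact_mod_cast hm)
  let v : HeightOneSpectrum (𝓞 K) := ⟨below h O σ, below_prime h O σ, hne⟩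
  have h1 := hu v hm
  obtain ⟨n, ⟨d, hd⟩, e⟩ := v.exists_primeCompl_mul_eq_of_integer u h1.le
  have hd' : d ∉ v.asIdeal := hd
  have hn : n ∈ v.asIdeal := by
    have := congrArg (v.valuation K) e
    rw [map_mul, (v.valuation_eq_one_iff_notMem (K := K)).2 hd', mul_one] at this
    rw [← v.valuation_lt_one_iff_mem (K := K)]
    exact this ▸ h1
  have d1 : O.valuation (σ (algebraMap (𝓞 K) K d)) = 1 :=
    (vle ((h.int _).1 (intEmb σ d) O)).eq_of_not_lt hd'
  have := congrArg (fun x => O.valuation (σ x)) e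
  simp only [map_mul, d1, mul_one] at this
  rw [this]
  exact hn

theorem ple_of (hA : AUT) (hV : VLS) : PLE := by
  intro K _ _ u w Γ hi hg h0 O p hp hv y hy σ h1 B hB
  set f : ℂ → ℂ := fun y =>
    ((Finset.univ : Finset (K →+* ℂ)).val.map fun σ => σ w * (y + 1728) - σ u).prod with hf
  have i1 : ∀ y ∈ Γ, ∀ σ : K →+* ℂ, IsIntegral ℤ (σ w * (y + 1728) - σ u) := fun y hy σ =>
    ((intEmb σ w).mul ((hi y hy).add
      (by exact_mod_cast isIntegral_algebraMap (R := ℤ) (A := ℂ) (x := 1728)))).sub (intEmb σ u)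
  have i2 : ∀ y ∈ Γ, IsIntegral ℤ (f y) := fun y hy => IsIntegral.multiset_prod fun x hx => by
    obtain ⟨σ, -, rfl⟩ := Multiset.mem_map.1 hx
    exact i1 y hy σ
  have i3 : IsIntegral ℤ (Γ.map f).prod := IsIntegral.multiset_prod fun x hx => by
    obtain ⟨y, hy, rfl⟩ := Multiset.mem_map.1 hx
    exact i2 y hy
  obtain ⟨q, hq⟩ := hA.fix _ (i3.tower_top (A := ℚ)).isAlgebraic fun ρ => by
    have e1 : ∀ y, ρ (f y) = f (ρ y) := fun y => by
      rw [hf]
      beta_reduce
      conv_rhs => rw [← univGal ρ]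
      simp [map_multiset_prod, Multiset.map_map, map_ofNat]
    have := congrArg (fun s => (Multiset.map f s).prod) (hg ρ)
    simp only [Multiset.map_map, Function.comp_def] at this
    rw [map_multiset_prod, Multiset.map_map, ← this]
    simp only [Function.comp_def, e1]
  rw [hq] at i3
  obtain ⟨z, hz⟩ := IsIntegrallyClosed.isIntegral_iff.1
    ((isIntegral_algebraMap_iff (algebraMap ℚ ℂ).injective).1 i3)
  have e : (Γ.map f).prod = z := by rw [hq, ← hz]; simp
  have z0 : z ≠ 0 := by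
    rintro rfl
    rw [Int.cast_zero, Multiset.prod_eq_zero_iff, Multiset.mem_map] at e
    obtain ⟨y, hy, e⟩ := e
    rw [hf, Multiset.prod_eq_zero_iff, Multiset.mem_map] at e
    obtain ⟨σ, -, e⟩ := e
    exact h0 y hy σ e
  have z1 : (p : ℤ) ∣ z := by
    refine intLt hp hv ?_
    rw [← e]
    exact prodLt (fun y hy => (hV.int _).1 (i2 y hy) O) hy
      (prodLt (fun σ _ => (hV.int _).1 (i1 y hy σ) O) (Finset.mem_univ_val σ) h1)
  have z2 : (p : ℝ) ≤ ‖(z : ℂ)‖ := by
    rw [Complex.norm_intCast]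
    exact_mod_cast Int.le_of_dvd (abs_pos.2 z0) ((dvd_abs _ _).2 z1)
  refine z2.trans ?_
  rw [← e, ← Multiset.prod_map_pow]
  clear e z2 hq i2 hg hi h0 hy h1 i1
  induction Γ using Multiset.induction_on with
  | empty => simp
  | cons y Γ ih =>
    rw [Multiset.map_cons, Multiset.map_cons, Multiset.prod_cons, Multiset.prod_cons, norm_mul]
    have : ‖f y‖ ≤ (B * (1 + ‖y + 1728‖)) ^ Module.finrank ℚ K := by
      rw [← Embeddings.card K ℂ, ← Finset.card_univ, hf]
      change ‖∏ σ : K →+* ℂ, _‖ ≤ _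
      rw [norm_prod]
      refine (Finset.prod_le_prod (fun _ _ => norm_nonneg _) fun σ _ => ?_).trans
        (Finset.prod_const _).le
      refine (norm_sub_le _ _).trans ?_
      rw [norm_mul, mul_add, mul_one, add_comm]
      gcongr
      exacts [(hB σ).2, (hB σ).1]
    exact mul_le_mul this ih (norm_nonneg _) ((norm_nonneg _).trans this)

end Pool.Agent.MP_c481b3_nt.H31F
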