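import Pool.Agent.MP_c481b3_nt.H31F.Spec

set_option autoImplicit false

namespace Pool.Agent.MP_c481b3_nt.H31F

open UpperHalfPlane hiding I
open Complex Polynomial Finset

namespace Can1Aux

variable (b : B2) (O : ValuationSubring ℂ)

/-- functions whose expansion at the cusp has coefficients in `O` -/
def RR {N : ℕ} (hN : 0 < N) : Subring (ℍ → ℂ) where
  carrier := {f | ∃ F ∈ ovr O.toSubring, Asy N f F}
  mul_mem' := fun ⟨F, h1, h2⟩ ⟨G, h3, h4⟩ =>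
    ⟨F * G, mul_mem h1 h3, (b.ring N hN).2.2.1 _ _ _ _ h2 h4⟩
  one_mem' := ⟨_, map_one (HahnSeries.C (Γ := ℤ) (R := ℂ)) ▸ one_mem _, (b.ring N hN).1 1⟩
  add_mem' := fun ⟨F, h1, h2⟩ ⟨G, h3, h4⟩ =>
    ⟨F + G, add_mem h1 h3, (b.ring N hN).2.1 _ _ _ _ h2 h4⟩
  zero_mem' := ⟨_, map_zero (HahnSeries.C (Γ := ℤ) (R := ℂ)) ▸ zero_mem _, (b.ring N hN).1 0⟩
  neg_mem' := fun {f} ⟨F, h1, h2⟩ => ⟨-F, neg_mem h1, by
    have := (b.ring N hN).2.2.1 _ _ _ _ ((b.ring N hN).1 (-1)) h2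
    rw [HahnSeries.C_mul_eq_smul, neg_one_smul] at this
    simpa only [Pi.neg_def, neg_one_mul] using this⟩

/-- the ring `Mem` -/
def MM {N : ℕ} (hN : 0 < N) : Subring (ℍ → ℂ) where
  carrier := {f | Mem O N f}
  mul_mem' h h' := ((b.mr O N hN).2.1 _ _ h h').2.2
  one_mem' := (b.mr O N hN).1 1 (one_mem _)
  add_mem' h h' := ((b.mr O N hN).2.1 _ _ h h').1
  zero_mem' := (b.mr O N hN).1 0 (zero_mem _)
  neg_mem' {f} h := by
    have := ((b.mr O N hN).2.1 _ _ ((b.mr O N hN).1 0 (zero_mem _)) h).2.1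
    simpa [Pi.neg_def] using this

variable {b O} {N : ℕ} {hN : 0 < N} {f : ℍ → ℂ}

lemma of_eq {S : Subring (ℍ → ℂ)} {g : ℍ → ℂ} (h : f ∈ S) (e : ∀ τ, g τ = f τ) : g ∈ S :=
  (_root_.funext e : g = f) ▸ h

lemma dl_mem {S : Subring (ℍ → ℂ)} {g : ℍ → ℂ} {c : ℂ} (h : c • f ∈ S) (h' : g ∈ S) :
    c • (f * g) ∈ S := smul_mul_assoc c f g ▸ mul_mem h h'

lemma dr_mem {S : Subring (ℍ → ℂ)} {g : ℍ → ℂ} {c : ℂ} (h : f ∈ S) (h' : c • g ∈ S) :
    c • (f * g) ∈ S := mul_smul_comm c f g ▸ mul_mem h h'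

lemma mm_le (h : f ∈ MM b O hN) : f ∈ RR b O hN := by
  have := Mem.asy h 1 Matrix.det_one
  simp only [act_one] at this
  exact this

lemma rr_sub (h : f ∈ RR b O one_pos) {a d e : ℕ} (c : ℤ) (ha : 0 < a) (hd : 0 < d)
    (he : e * d = a * N) : f ∘ act !![(a : ℤ), c; 0, (d : ℤ)] ∈ RR b O hN := by
  obtain ⟨F, h1, h2⟩ := h
  have h0 : 0 < e := Nat.pos_of_mul_pos_right (he ▸ Nat.mul_pos ha hN)
  exact ⟨_, ((b.mr O N hN).2.2.2.2.2 _).2 F h1 e h0,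
    b.sub 1 N a d e c one_pos hN ha hd (by rw [mul_one, he]) f F h2⟩

lemma rr_lift (h : f ∈ RR b O one_pos) : f ∈ RR b O hN := by
  have := rr_sub (hN := hN) h (a := 1) (d := 1) (e := N) 0 one_pos one_pos (by simp)
  simpa only [Nat.cast_one, ← Matrix.one_fin_two, act_one, Function.comp_def] using this

lemma int_mem (G : LS ℤ) : mapL (Int.castRingHom ℂ) G ∈ ovr O.toSubring :=
  mem_ovr.2 fun _ => intCast_mem _ _

lemma frob0 {p : ℕ} (hp : p.Prime) {G : LS ℤ} (h : Asy 1 f (mapL (Int.castRingHom ℂ) G)) :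
    (p : ℂ)⁻¹ • (f ∘ act !![(p : ℤ), 0; 0, 1] - f ^ p) ∈ RR b O one_pos := by
  have := Fact.mk hp
  have hex : ∀ (S : Type) [CommRing S], mapL (Int.castRingHom S) (ex p G) =
      ex p (mapL (Int.castRingHom S) G) := fun S _ => by
    rw [← sb_one, mapL_sb hp.pos, map_one, sb_one]
  have r := b.ring 1 one_pos
  have h1 := b.sub 1 1 p 1 p 0 one_pos one_pos hp.pos one_pos (by simp) f _ h
  rw [show ru (((0 : ℤ) : ℚ) / ((1 : ℕ) * (1 : ℕ))) = 1 by ext; simp [ru], sb_one, ← hex] at h1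
  have h2 := r.2.2.1 _ _ _ _ (r.1 (p : ℂ)⁻¹) (r.2.1 _ _ _ _ h1 (r.2.2.2.2.2.2.1 _ _ (-X ^ p) h))
  simp only [eval_neg, eval_pow, eval_X, map_neg, map_pow, aeval_X, ← sub_eq_add_neg] at h2
  refine ⟨_, mem_ovr.2 fun n => ?_, h2⟩
  have h3 : mapL (Int.castRingHom (ZMod p)) (ex p G - G ^ p) = 0 := by
    rw [map_sub, map_pow, hex, b.frob, sub_eq_zero]
    congr 1
    ext m
    simp
  obtain ⟨m, hm⟩ := (ZMod.intCast_zmod_eq_zero_iff_dvd _ p).1 (congrArg (·.coeff n) h3)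
  rw [← map_pow, ← map_sub, HahnSeries.C_mul_eq_smul, HahnSeries.coeff_smul, coeff_mapL, hm,
    map_mul, map_natCast, smul_eq_mul, inv_mul_cancel_left₀ (Nat.cast_ne_zero.2 hp.ne_zero)]
  exact intCast_mem _ _

lemma asyJ (b : B2) : Asy 1 JJ (mapL (Int.castRingHom ℂ) (Ys ^ 2 + 1728)) := by
  have := (b.ring 1 one_pos).2.2.2.2.2.2.1 _ _ (X ^ 2 + 1728) b.y2.aY
  simp only [eval_add, eval_pow, eval_X, eval_ofNat, map_add, map_pow, aeval_X, map_ofNat] at this ⊢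
  exact this

lemma dl_inv : dl⁻¹ ∈ RR b O one_pos := by
  obtain ⟨E, hE⟩ := b.y2.Du
  have h : Dc ℂ * mapL (Int.castRingHom ℂ) E = 1 := by rw [Dc, ← map_mul, hE, map_one]
  exact ⟨_, inv_eq_of_mul_eq_one_right h ▸ int_mem E,
    (b.ring 1 one_pos).2.2.2.1 _ _ b.y2.ad (left_ne_zero_of_mul_eq_one h)⟩

lemma memY {M : M2} (h : 0 < M.det) (h' : M.det ∣ N) : YY ∘ act M ∈ MM b O hN :=
  (b.my.2 O N M hN h h').1

lemma memW {M : M2} (h : 0 < M.det) (h' : M.det ∣ N) : WW M ∈ MM b O hN :=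
  (b.my.2 O N M hN h h').2.1

lemma memJ {M : M2} (h : 0 < M.det) (h' : M.det ∣ N) : JJ ∘ act M ∈ MM b O hN :=
  add_mem (pow_mem (memY h h') 2) (ofNat_mem _ 1728)

lemma memY1 : YY ∈ MM b O hN := by
  simpa [Function.comp_def, act_one] using memY (b := b) (O := O) (hN := hN) (M := 1)

lemma memJ1 : JJ ∈ MM b O hN := add_mem (pow_mem memY1 2) (ofNat_mem _ 1728)

lemma mem_div {c : ℂ} (h : f ∈ MM b O hN)
    (h' : ∀ γ : M2, γ.det = 1 → c • f ∘ act γ ∈ RR b O hN) : c • f ∈ MM b O hN :=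
  ⟨mdifferentiable_const.mul h.hol, fun γ h1 h2 τ => congrArg (c * ·) (h.inv γ h1 h2 τ), h'⟩

lemma mem_O (h : f ∈ MM b O hN) {τ : ℍ} (hτ : JJ τ ∈ O) : f τ ∈ O := by
  refine (b.chp O N f hN h).2 τ ((O.valuation_le_one_iff _).1 ?_)
  have : YY τ ^ 2 ∈ O := (add_mem_cancel_right (ofNat_mem O 1728)).1 hτ
  rw [← O.valuation_le_one_iff, map_pow] at this
  exact (pow_le_one_iff two_ne_zero).1 this

lemma val_le {c : ℂ} (hc : c ≠ 0) (h : c⁻¹ • f ∈ MM b O hN) {τ : ℍ} (hτ : JJ τ ∈ O) :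
    O.valuation (f τ) ≤ O.valuation c := by
  rw [← mul_inv_cancel_left₀ hc (f τ), map_mul]
  exact mul_le_of_le_one_right' ((O.valuation_le_one_iff _).2 (mem_O h hτ))

variable {p : ℕ} {M γ γ' H : M2}

lemma det_of (hM : M.det = p) (hγ : γ.det = 1) (hγ' : γ'.det = 1) (e : M * γ = γ' * H) :
    H.det = p := by
  simpa [hM, hγ, hγ'] using (congrArg Matrix.det e).symm

/-- the move to a representative of the coset -/
lemma mv (b : B2) (hp : 0 < p) (hM : M.det = p) (hγ : γ.det = 1) (hγ' : γ'.det = 1)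
    (e : M * γ = γ' * H) : (JJ ∘ act M) ∘ act γ = JJ ∘ act H ∧ WW M ∘ act γ = WW H ∧
      (YY ∘ act M) ∘ act γ = (eps γ' : ℂ) • YY ∘ act H := by
  have h1 : 0 < M.det := hM ▸ Nat.cast_pos.2 hp
  have h2 : 0 < H.det := det_of hM hγ hγ' e ▸ Nat.cast_pos.2 hp
  have h3 : ∀ τ, act M (act γ τ) = act γ' (act H τ) := fun τ => by
    rw [← act_mul h1 (hγ ▸ one_pos), e, act_mul (hγ' ▸ one_pos) h2]
  refine ⟨funext fun τ => ?_, funext fun τ => ?_, funext fun τ => ?_⟩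
  · exact (congrArg JJ (h3 τ)).trans (b.y1.tJ _ _ hγ')
  · exact (b.my.1 M γ τ h1 hγ).2.1.trans (e ▸ (b.my.1 H γ' τ h2 hγ').1)
  · exact (congrArg YY (h3 τ)).trans (b.y1.tY _ _ hγ')

lemma mvJ (b : B2) (hγ : γ.det = 1) : JJ ∘ act γ = JJ := funext fun _ => b.y1.tJ _ _ hγ

/-- the two kinds of representatives -/
lemma kinds (hp : p.Prime) {s : ℕ} (hH : H ∈ Hk s p) : H.det = p ∧ (s = 2 → eps H = 1) ∧
    ((H = !![(p : ℤ), 0; 0, 1] ∧ (p : ℂ)⁻¹ • (JJ ∘ act H - JJ ^ p) ∈ RR b O hp.pos ∧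
      (p : ℂ)⁻¹ • (YY ∘ act H - YY ^ p) ∈ RR b O hp.pos) ∨
    ((p : ℂ)⁻¹ • ((JJ ∘ act H) ^ p - JJ) ∈ RR b O hp.pos ∧ (p : ℂ)⁻¹ • WW H ∈ RR b O hp.pos)) := by
  obtain ⟨a, d, c, ha, hd, had, hc, rfl⟩ := (b.mat.mem s p H).1 hH
  refine ⟨by simp [← had], ?_, ?_⟩
  · rintro rfl
    simp [eps]
  rcases (Nat.dvd_prime hp).1 ⟨a, (mul_comm _ _).trans had |>.symm⟩ with rfl | rfl
  · obtain rfl : c = 0 := by omega
    obtain rfl : a = p := by omega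
    exact Or.inl ⟨by simp, rr_lift (frob0 hp (asyJ b)), rr_lift (frob0 hp b.y2.aY)⟩
  · obtain rfl : a = 1 := Nat.eq_of_mul_eq_mul_right hd (had.trans (one_mul _).symm)
    set H : M2 := !![((1 : ℕ) : ℤ), ((s * c : ℕ) : ℤ); 0, (d : ℤ)] with hH'
    have hp0 : (d : ℂ) ≠ 0 := Nat.cast_ne_zero.2 hd.ne'
    have hdet : 0 < H.det := by simpa [hH'] using hd
    refine Or.inr ⟨?_, ?_⟩
    · have := neg_mem (rr_sub (hN := hp.pos) (frob0 (O := O) (b := b) hp (asyJ b)) (e := 1)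
        ((s * c : ℕ) : ℤ) one_pos hd (by simp))
      refine of_eq this fun τ => ?_
      have e : act !![(d : ℤ), 0; 0, 1] (act H τ) = act !![1, ((s * c : ℕ) : ℤ); 0, 1] τ := by
        ext
        rw [coe_act (by simpa using hd), coe_act hdet, coe_act (by simp)]
        simp [den, hH']
        field_simp
      simp only [Pi.neg_apply, Function.comp_apply, Pi.smul_apply, Pi.sub_apply, Pi.pow_apply]
      rw [← hH', e, b.y1.tJ !![1, ((s * c : ℕ) : ℤ); 0, 1] _ (by simp), ← smul_neg, neg_sub]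
    · have := mul_mem (mul_mem (pow_mem (natCast_mem _ d) 11)
        (pow_mem (rr_lift (hN := hp.pos) (O := O) (b := b) ⟨_, int_mem Ds, b.y2.ad⟩) 2))
        (pow_mem (rr_sub dl_inv (e := 1) ((s * c : ℕ) : ℤ) one_pos hd (by simp)) 2)
      refine of_eq this fun τ => ?_
      have e : den H τ = d := by simp [den, hH']
      simp only [Pi.mul_apply, Function.comp_apply, Pi.smul_apply, Pi.inv_apply, Pi.pow_apply,
        Pi.natCast_apply, WW, smul_eq_mul, e]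
      rw [← hH']
      field_simp

lemma eps_sq (M : M2) : eps M * eps M = 1 := by unfold eps; split_ifs <;> rfl

/-- division by `p` is checked on the representatives -/
lemma mem_of_hk (hp : p.Prime) {s : ℕ} (hs : s.Coprime p) (hM : M.det = p) (h : f ∈ MM b O hp.pos)
    (h' : ∀ γ γ' H : M2, γ.det = 1 → γ'.det = 1 → H ∈ Hk s p → M * γ = γ' * H →
      (p : ℂ)⁻¹ • f ∘ act γ ∈ RR b O hp.pos) : (p : ℂ)⁻¹ • f ∈ MM b O hp.pos :=
  mem_div h fun γ hγ => by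
    obtain ⟨γ', H, h1, h2, h3⟩ := b.mat.hnf s p (M * γ) hp.pos hs (by simp [hM, hγ])
    exact h' γ γ' H hγ h2 h1 h3

section
variable (hp : p.Prime) (hM : M.det = p)
include hp hM

lemma mJ : JJ ∘ act M ∈ MM b O hp.pos := memJ (hM ▸ Nat.cast_pos.2 hp.pos) hM.dvd

lemma mY : YY ∘ act M ∈ MM b O hp.pos := memY (hM ▸ Nat.cast_pos.2 hp.pos) hM.dvd

lemma mW : WW M ∈ MM b O hp.pos := memW (hM ▸ Nat.cast_pos.2 hp.pos) hM.dvd

lemma memK : (p : ℂ)⁻¹ • ((JJ ∘ act M - JJ ^ p) * ((JJ ∘ act M) ^ p - JJ)) ∈ MM b O hp.pos := by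
  have k1 : ∀ {M : M2}, M.det = p → JJ ∘ act M - JJ ^ p ∈ MM b O hp.pos :=
    fun h => sub_mem (mJ hp h) (pow_mem memJ1 _)
  have k2 : ∀ {M : M2}, M.det = p → (JJ ∘ act M) ^ p - JJ ∈ MM b O hp.pos :=
    fun h => sub_mem (pow_mem (mJ hp h) _) memJ1
  refine mem_of_hk hp (Nat.coprime_one_left p) hM (mul_mem (k1 hM) (k2 hM))
    fun γ γ' H h1 h2 h3 e => ?_
  rw [Pi.mul_comp, Pi.sub_comp, Pi.sub_comp, Pi.pow_comp, Pi.pow_comp,
    (mv b hp.pos hM h1 h2 e).1, mvJ b h1]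
  obtain ⟨h4, -, h5 | h5⟩ := kinds (b := b) (O := O) hp h3
  · exact dl_mem h5.2.1 (mm_le (k2 h4))
  · exact dr_mem (mm_le (k1 h4)) h5.1

lemma memL : (p : ℂ)⁻¹ • ((JJ ∘ act M - JJ ^ p) * WW M) ∈ MM b O hp.pos := by
  have k1 : ∀ {M : M2}, M.det = p → JJ ∘ act M - JJ ^ p ∈ MM b O hp.pos :=
    fun h => sub_mem (mJ hp h) (pow_mem memJ1 _)
  refine mem_of_hk hp (Nat.coprime_one_left p) hM (mul_mem (k1 hM) (mW hp hM))
    fun γ γ' H h1 h2 h3 e => ?_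
  rw [Pi.mul_comp, Pi.sub_comp, Pi.pow_comp, (mv b hp.pos hM h1 h2 e).1,
    (mv b hp.pos hM h1 h2 e).2.1, mvJ b h1]
  obtain ⟨h4, -, h5 | h5⟩ := kinds (b := b) (O := O) hp h3
  · exact dl_mem h5.2.1 (mm_le (mW hp h4))
  · exact dr_mem (mm_le (k1 h4)) h5.2

lemma memL' (h2p : p ≠ 2) :
    (p : ℂ)⁻¹ • (((eps M : ℍ → ℂ) * YY ∘ act M - YY ^ p) * WW M) ∈ MM b O hp.pos := by
  have ho := hp.odd_of_ne_two h2p
  refine mem_of_hk hp (s := 2) (Nat.coprime_two_left.2 ho) hM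
    (mul_mem (sub_mem (mul_mem (intCast_mem _ _) (mY hp hM)) (pow_mem memY1 _)) (mW hp hM))
    fun γ γ' H h1 h2 h3 e => ?_
  obtain ⟨h4, h6, h5⟩ := kinds (b := b) (O := O) hp h3
  have h7 : eps M * eps γ = eps γ' := by
    rw [← b.mat.epsm _ _ (by simpa [hM] using ho) (by simp [h1]), e,
      b.mat.epsm _ _ (by simp [h2]) (by simpa [h4] using ho), h6 rfl, mul_one]
  have h8 : (eps M : ℂ) * eps γ' = eps γ := by
    rw [← Int.cast_mul, ← h7, ← mul_assoc, eps_sq, one_mul]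
  have h9 : (eps γ : ℂ) ^ p = eps γ := by
    obtain ⟨k, rfl⟩ := ho
    rw [pow_succ, pow_mul, pow_two, ← Int.cast_mul, eps_sq, Int.cast_one, one_pow, one_mul]
  have : (p : ℂ)⁻¹ • ((YY ∘ act H - YY ^ p) * WW H) ∈ RR b O hp.pos := by
    rcases h5 with h5 | h5
    · exact dl_mem h5.2.2 (mm_le (mW hp h4))
    · exact dr_mem (mm_le (sub_mem (mY hp h4) (pow_mem memY1 _))) h5.2
  refine of_eq (mul_mem (intCast_mem _ (eps γ)) this) fun τ => ?_
  have e1 := congrFun (mv b hp.pos hM h1 h2 e).2.1 τ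
  have e2 := congrFun (mv b hp.pos hM h1 h2 e).2.2 τ
  simp only [Pi.mul_apply, Function.comp_apply, Pi.smul_apply, Pi.sub_apply, Pi.pow_apply,
    Pi.intCast_apply, smul_eq_mul] at e1 e2 ⊢
  rw [e1, e2, b.y1.tY _ _ h1, mul_pow, h9, ← mul_assoc (eps M : ℂ), h8]
  ring

end

lemma memWW (hp : p.Prime) {H' : M2} (h : H ∈ Hk 1 p) (h' : H' ∈ Hk 1 p) (hne : H ≠ H') :
    (p : ℂ)⁻¹ • (WW H * WW H') ∈ MM b O hp.pos := by
  have d1 := (kinds (b := b) (O := O) hp h).1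
  have d2 := (kinds (b := b) (O := O) hp h').1
  refine mem_div (mul_mem (mW hp d1) (mW hp d2)) fun γ hγ => ?_
  obtain ⟨σ, h1, h2⟩ := b.mat.perm 1 p γ (Nat.coprime_one_left p) hγ
  obtain ⟨γ1, a1, a2, -⟩ := h2 H h
  obtain ⟨γ2, b1, b2, -⟩ := h2 H' h'
  rw [Pi.mul_comp, (mv b hp.pos d1 hγ a1 a2).2.1, (mv b hp.pos d2 hγ b1 b2).2.1]
  obtain ⟨c1, -, c2 | c2⟩ := kinds (b := b) (O := O) hp (h1.mapsTo h)
  · obtain ⟨-, -, c3 | c3⟩ := kinds (b := b) (O := O) hp (h1.mapsTo h')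
    · exact absurd (h1.injOn h h' (c2.1.trans c3.1.symm)) hne
    · exact dr_mem (mm_le (mW hp c1)) c3.2
  · exact dl_mem c2.2 (mm_le (mW hp (kinds (b := b) (O := O) hp (h1.mapsTo h')).1))

/-- traces are polynomials in `JJ` -/
lemma trace (hp : p.Prime) (g : M2 → ℍ → ℂ) (h1 : ∀ M : M2, M.det = p → g M ∈ MM b O hp.pos)
    (h2 : ∀ M H γ : M2, γ.det = 1 → (JJ ∘ act M) ∘ act γ = JJ ∘ act H → WW M ∘ act γ = WW H →
      g M ∘ act γ = g H) :
    ∃ A : ℂ[X], (∀ i, A.coeff i ∈ O) ∧ ∀ τ, ∑ H ∈ Hk 1 p, g H τ = A.eval (JJ τ) := by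
  have hd := fun H (h : H ∈ Hk 1 p) => (kinds (b := b) (O := O) hp h).1
  have h3 := sum_mem fun H h => h1 H (hd H h)
  obtain ⟨F, h4, h5⟩ := mm_le h3
  simp only [← Finset.sum_apply]
  refine (b.lv p O.toSubring _ F hp.pos (Mem.hol h3) h5 h4).2 fun γ τ hγ => ?_
  obtain ⟨σ, k1, k2⟩ := b.mat.perm 1 p γ (Nat.coprime_one_left p) hγ
  rw [Finset.sum_apply, Finset.sum_apply]
  refine sum_nbij σ k1.mapsTo k1.injOn k1.surjOn fun H hH => ?_
  obtain ⟨γ', a1, a2, -⟩ := k2 H hH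
  have := mv b hp.pos (hd H hH) hγ a1 a2
  exact congrFun (h2 H _ γ hγ this.1 this.2.1) τ

end Can1Aux

open Can1Aux in
theorem can1_of (b : B2) : CAN1 := by
  intro O p hp hv
  have hp0 : (p : ℂ) ≠ 0 := Nat.cast_ne_zero.2 hp.ne_zero
  refine ⟨fun τ M hτ hM => ⟨mem_O (mJ (b := b) hp hM) hτ, mem_O (mW (b := b) hp hM) hτ,
    (val_le hp0 (memK (b := b) hp hM) hτ).trans_lt hv,
    (val_le hp0 (memL (b := b) hp hM) hτ).trans_lt hv,
    fun h => (val_le hp0 (memL' (b := b) hp hM h) hτ).trans_lt hv⟩, fun k => ?_⟩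
  obtain ⟨A, a1, a2⟩ := trace (b := b) (O := O) hp (fun M => WW M ^ (k + 1))
    (fun M h => pow_mem (mW hp h) _) fun M H γ _ _ h => by rw [Pi.pow_comp, h]
  obtain ⟨B, b1, b2⟩ := trace (b := b) (O := O) hp
    (fun M => (p : ℂ)⁻¹ • ((JJ ∘ act M - JJ ^ p) * WW M) * WW M ^ k)
    (fun M h => mul_mem (memL hp h) (pow_mem (mW hp h) _)) fun M H γ hγ h h' => by
      rw [Pi.mul_comp, Pi.smul_comp, Pi.mul_comp, Pi.sub_comp, Pi.pow_comp, Pi.pow_comp, h, h',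
        mvJ b hγ]
  refine ⟨A, B, a1, b1, fun τ M hτ hM hW => ?_⟩
  obtain ⟨γ, H, h1, h2, h3⟩ := b.mat.hnf 1 p M hp.pos (Nat.coprime_one_left p) hM
  obtain ⟨e1, e2, -⟩ := mv b hp.pos hM Matrix.det_one h2 ((mul_one M).trans h3)
  replace e1 := congrFun e1 τ
  replace e2 := congrFun e2 τ
  simp only [Function.comp_apply, act_one] at e1 e2
  rw [e2] at hW
  have key : ∀ H' ∈ Hk 1 p, H' ≠ H → O.valuation (WW H' τ ^ (k + 1)) ≤ O.valuation p ^ (k + 1) :=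
    fun H' h hne => by
      have := val_le hp0 (memWW (b := b) hp h h1 hne) hτ
      rw [Pi.mul_apply, map_mul, hW, mul_one] at this
      rw [map_pow]
      exact pow_le_pow_left' this _
  rw [e1, ← a2, ← b2]
  constructor
  · have h4 : O.valuation (WW H τ ^ (k + 1)) = 1 := by rw [map_pow, hW, one_pow]
    rw [← add_sum_erase _ _ h1, Pi.pow_apply, Valuation.map_add_eq_of_lt_left, h4]
    rw [h4]
    exact Valuation.map_sum_lt _ one_ne_zero fun H' h => (key H' (mem_of_mem_erase h)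
      (ne_of_mem_erase h)).trans_lt (pow_lt_one' hv k.succ_ne_zero)
  · rw [mul_sum, mul_sum, ← sum_sub_distrib]
    refine Valuation.map_sum_le _ fun H' h => ?_
    have e : (JJ (act H τ) - JJ τ ^ p) * (WW H' ^ (k + 1)) τ -
        p * ((p : ℂ)⁻¹ • ((JJ ∘ act H' - JJ ^ p) * WW H') * WW H' ^ k) τ =
        (JJ (act H τ) - JJ (act H' τ)) * WW H' τ ^ (k + 1) := by
      simp only [Pi.mul_apply, Function.comp_apply, Pi.smul_apply, Pi.sub_apply, Pi.pow_apply,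
        smul_eq_mul]
      field_simp
      ring
    rw [e]
    rcases eq_or_ne H' H with rfl | hne
    · simp
    · rw [map_mul]
      refine (mul_le_of_le_one_left' ((O.valuation_le_one_iff _).2 (sub_mem
        (mem_O (mJ (b := b) hp (kinds (b := b) (O := O) hp h1).1) hτ)
        (mem_O (mJ (b := b) hp (kinds (b := b) (O := O) hp h).1) hτ)))).trans
        ((key H' h hne).trans (pow_le_pow_right_of_le_one' hv.le k.le_succ))

end Pool.Agent.MP_c481b3_nt.H31F
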