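import Pool.Agent.MP_c481b3_nt.H31F.Spec

set_option autoImplicit false

namespace Pool.Agent.MP_c481b3_nt.H31F

open UpperHalfPlane hiding I
open Complex Polynomial

namespace Can2Aux

section val

variable {O : ValuationSubring ℂ} {p : ℕ} {a b : ℂ}

lemma le1 (h : a ∈ O) : O.valuation a ≤ 1 := (O.valuation_le_one_iff a).2 h

lemma mul_le (a : ℂ) (h : b ∈ O) : O.valuation (a * b) ≤ O.valuation a := by
  rw [map_mul]
  exact mul_le_of_le_one_right' (le1 h)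

lemma le_of_dvd {x y : O} (h : x ∣ y) : O.valuation (y : ℂ) ≤ O.valuation (x : ℂ) := by
  obtain ⟨c, rfl⟩ := h
  exact mul_le _ c.2

lemma mem_of_int (h : IsIntegral ℤ a) : a ∈ O := by
  obtain ⟨y, rfl⟩ := IsIntegrallyClosed.isIntegral_iff.1 (h.tower_top (A := O))
  exact y.2

lemma ev {P : ℂ[X]} (hP : ∀ i, P.coeff i ∈ O) (ha : a ∈ O) (hb : b ∈ O) :
    P.eval a ∈ O ∧ O.valuation (P.eval a - P.eval b) ≤ O.valuation (a - b) := by
  obtain ⟨P', rfl⟩ : P ∈ lifts O.subtype := (lifts_iff_coeff_lifts P).2 fun n => ⟨⟨_, hP n⟩, rfl⟩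
  have e : ∀ x : O, (P'.map O.subtype).eval (x : ℂ) = (P'.eval x : O) := fun x => by
    rw [eval_map]
    exact eval₂_at_apply O.subtype x
  change (P'.map O.subtype).eval a ∈ O ∧
    O.valuation ((P'.map O.subtype).eval a - (P'.map O.subtype).eval b) ≤ _
  rw [e ⟨a, ha⟩, e ⟨b, hb⟩]
  exact ⟨Subtype.prop _, le_of_dvd (sub_dvd_eval_sub (⟨a, ha⟩ : O) ⟨b, hb⟩ P')⟩

lemma pow_sub (ha : a ∈ O) (hb : b ∈ O) (n : ℕ) :
    O.valuation (a ^ n - b ^ n) ≤ O.valuation (a - b) :=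
  le_of_dvd (sub_dvd_pow_sub_pow (⟨a, ha⟩ : O) ⟨b, hb⟩ n)

/-- A nonzero integral number is not divisible by all powers of `p`. -/
lemma exists_lt (hp : p.Prime) (hv : O.valuation (p : ℂ) < 1) (h : IsIntegral ℤ a) (h0 : a ≠ 0) :
    ∃ k, O.valuation (p : ℂ) ^ k < O.valuation a := by
  have h1 : IsAlgebraic ℤ (⟨a, mem_of_int h⟩ : O) :=
    (isAlgebraic_algebraMap_iff (A := ℂ) Subtype.val_injective).1 h.isAlgebraic
  obtain ⟨n, hn, hd⟩ := h1.exists_nonzero_dvd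
    (mem_nonZeroDivisors_of_ne_zero fun e => h0 (congrArg Subtype.val e))
  have h2 : O.valuation (n : ℂ) ≤ O.valuation a := by simpa using le_of_dvd hd
  obtain ⟨e, m, hm, k⟩ := Nat.exists_eq_pow_mul_and_not_dvd (Int.natAbs_ne_zero.2 hn) p hp.ne_one
  have h3 : O.valuation (m : ℂ) = 1 := by
    refine (le1 (natCast_mem O m)).antisymm (not_lt.1 fun c => ?_)
    obtain ⟨x, y, r⟩ := Nat.isCoprime_iff_coprime.2 ((hp.coprime_iff_not_dvd).2 hm)
    have r' : (p : ℂ) * x + m * y = 1 := by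
      rw [mul_comm (p : ℂ), mul_comm (m : ℂ)]
      exact_mod_cast r
    have := O.valuation.map_add_lt ((mul_le _ (intCast_mem O x)).trans_lt hv)
      ((mul_le _ (intCast_mem O y)).trans_lt c)
    rw [r', map_one] at this
    exact this.false
  have h4 : O.valuation (n : ℂ) = O.valuation (p : ℂ) ^ e := by
    have : O.valuation (n : ℂ) = O.valuation (n.natAbs : ℂ) := by
      rcases Int.natAbs_eq n with c | c
      · rw [← Int.cast_natCast, ← c]
      · rw [← O.valuation.map_neg (n.natAbs : ℂ), ← Int.cast_natCast, ← Int.cast_neg, ← c]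
    rw [this, k, Nat.cast_mul, Nat.cast_pow, map_mul, map_pow, h3, mul_one]
  have h5 : 0 < O.valuation (p : ℂ) :=
    zero_lt_iff.2 ((Valuation.ne_zero_iff _).2 (Nat.cast_ne_zero.2 hp.ne_zero))
  exact ⟨e + 1, (pow_lt_pow_right_of_lt_one₀ h5 hv (Nat.lt_succ_self e)).trans_le (h4 ▸ h2)⟩

/-- One step of the contraction. -/
lemma contr (hp : p.Prime) (hv : O.valuation (p : ℂ) < 1) {A B : ℂ[X]} (hA : ∀ i, A.coeff i ∈ O)
    (hB : ∀ i, B.coeff i ∈ O) (ha : a ∈ O) (hb : b ∈ O) {a' b' : ℂ} {E D : O.ValueGroup}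
    (u1 : O.valuation (A.eval a) = 1) (u2 : O.valuation (A.eval b) = 1)
    (e1 : O.valuation ((a' - a ^ p) * A.eval a - p * B.eval a) ≤ E)
    (e2 : O.valuation ((b' - b ^ p) * A.eval b - p * B.eval b) ≤ E)
    (hE : E < D) (hD : D < 1) (hd : O.valuation (a - b) ≤ D) : O.valuation (a' - b') < D := by
  have D0 : 0 < D := zero_le.trans_lt hE
  have k1 : ∀ c, O.valuation c ≤ D → O.valuation (p * c) < D := fun c hc => by
    rw [map_mul]
    exact (mul_le_mul_right hc _).trans_lt (mul_lt_of_lt_one_left D0 hv)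
  have k2 : O.valuation (a ^ p - b ^ p) < D := by
    obtain ⟨r, hr⟩ := exists_add_pow_prime_eq hp (⟨b, hb⟩ : O) ⟨a - b, sub_mem ha hb⟩
    have hr' : (b + (a - b)) ^ p = b ^ p + (a - b) ^ p + p * b * (a - b) * r :=
      congrArg Subtype.val hr
    rw [show a ^ p - b ^ p = (a - b) ^ p + p * ((a - b) * (b * r)) by
      rw [add_sub_cancel] at hr'
      rw [hr']
      ring]
    refine O.valuation.map_add_lt ?_ (k1 _ ((mul_le _ (mul_mem hb r.2)).trans hd))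
    rw [map_pow]
    exact (pow_le_pow_left₀ zero_le hd p).trans_lt (pow_lt_self_of_lt_one₀ D0 hD hp.one_lt)
  obtain ⟨A1, A2⟩ := ev hA ha hb
  obtain ⟨-, B2⟩ := ev hB ha hb
  have A3 := (ev hA hb hb).1
  have B3 := (ev hB hb hb).1
  have k3 : O.valuation ((B.eval a - B.eval b) * A.eval b - (A.eval a - A.eval b) * B.eval b)
      ≤ D := O.valuation.map_sub_le (((mul_le _ A3).trans B2).trans hd)
    (((mul_le _ B3).trans A2).trans hd)
  have k4 := O.valuation.map_add_lt (O.valuation.map_add_lt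
    ((mul_le _ (mul_mem A1 A3)).trans_lt k2) (k1 _ k3))
    (O.valuation.map_sub_lt (((mul_le _ A3).trans e1).trans_lt hE)
      (((mul_le _ A1).trans e2).trans_lt hE))
  rwa [show (a ^ p - b ^ p) * (A.eval a * A.eval b) +
      p * ((B.eval a - B.eval b) * A.eval b - (A.eval a - A.eval b) * B.eval b) +
      (((a' - a ^ p) * A.eval a - p * B.eval a) * A.eval b -
        ((b' - b ^ p) * A.eval b - p * B.eval b) * A.eval a) =
      (a' - b') * A.eval a * A.eval b by ring, map_mul, map_mul, u1, u2, mul_one, mul_one] at k4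

end val

variable {O : ValuationSubring ℂ} {p : ℕ} {M M' Q : M2} {τ : ℍ}

lemma ww_mul (b : B2) (h : 0 < M.det) (h' : 0 < M'.det) (τ : ℍ) :
    WW (M * M') τ = WW M (act M' τ) * WW M' τ := by
  have h1 := b.y1.ne (act M' τ)
  have h2 := b.y1.ne (act M (act M' τ))
  rw [WW, WW, WW, den_mul h', act_mul h h']
  field_simp

lemma ww_fix (b : B2) (h : act M τ = τ) : WW M τ = den M τ ^ 12 := by
  have h1 := b.y1.ne τ
  rw [WW, h]
  field_simp

lemma ww_one (b : B2) (h : M.det = 1) (τ : ℍ) : WW M τ = 1 := by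
  have := (b.my.1 1 M τ (by simp) h).1
  rwa [mul_one, ww_fix b (act_one τ), den_one, one_pow] at this

lemma pos (hp : p.Prime) {n : ℕ} (h : M.det = (p : ℤ) ^ n) : 0 < M.det :=
  h ▸ pow_pos (Int.natCast_pos.2 hp.pos) n

lemma pos1 (hp : p.Prime) (h : M.det = p) : 0 < M.det := h ▸ Int.natCast_pos.2 hp.pos

lemma fac (b : B2) (hp : p.Prime) {n : ℕ} (h : Q.det = (p : ℤ) ^ (n + 1)) :
    ∃ M Q' : M2, M.det = p ∧ Q'.det = (p : ℤ) ^ n ∧ Q = Q' * M := by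
  have h' : Q.transpose.det = (p : ℤ) ^ (n + 1) := by rwa [Matrix.det_transpose]
  obtain ⟨M, Q', h1, h2⟩ := b.mat.fac p _ hp (pos hp h') (h' ▸ dvd_pow_self _ (Nat.succ_ne_zero n))
  refine ⟨M.transpose, Q'.transpose, by rwa [Matrix.det_transpose], ?_,
    by rw [← Matrix.transpose_mul, ← h2, Matrix.transpose_transpose]⟩
  rw [h2, Matrix.det_mul, h1, pow_succ'] at h'
  rw [Matrix.det_transpose]
  exact mul_left_cancel₀ (Int.natCast_pos.2 hp.pos).ne' h'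

variable (b : B2) (h1 : CAN1) (hp : p.Prime) (hv : O.valuation (p : ℂ) < 1)
include b h1 hp hv

lemma ww_mem (n : ℕ) : ∀ (Q : M2) (τ : ℍ), JJ τ ∈ O → Q.det = (p : ℤ) ^ n → WW Q τ ∈ O := by
  induction n with
  | zero => exact fun Q τ _ h => ww_one b (by simpa using h) τ ▸ one_mem O
  | succ n ih =>
    intro Q τ hJ h
    obtain ⟨M, Q', k1, k2, rfl⟩ := fac b hp h
    obtain ⟨c1, c2, -⟩ := (h1 O p hp hv).1 τ M hJ k1
    rw [ww_mul b (pos hp k2) (pos1 hp k1)]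
    exact mul_mem (ih _ _ c1 k2) c2

lemma split {n : ℕ} (hJ : JJ τ ∈ O) (h : Q.det = (p : ℤ) ^ (n + 1))
    (hu : O.valuation (WW Q τ) = 1) : ∃ M Q' : M2, M.det = p ∧ Q'.det = (p : ℤ) ^ n ∧
      act Q τ = act Q' (act M τ) ∧ JJ (act M τ) ∈ O ∧ O.valuation (WW M τ) = 1 ∧
      O.valuation (WW Q' (act M τ)) = 1 := by
  obtain ⟨M, Q', k1, k2, rfl⟩ := fac b hp h
  obtain ⟨c1, c2, -⟩ := (h1 O p hp hv).1 τ M hJ k1
  rw [ww_mul b (pos hp k2) (pos1 hp k1), map_mul] at hu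
  have a1 := le1 (ww_mem b h1 hp hv n _ _ c1 k2)
  have a2 := le1 c2
  exact ⟨M, Q', k1, k2, act_mul (pos hp k2) (pos1 hp k1) τ, c1,
    a2.antisymm (hu.ge.trans (mul_le_of_le_one_left' a1)),
    a1.antisymm (hu.ge.trans (mul_le_of_le_one_right' a2))⟩

lemma con {k : ℕ} {D : O.ValueGroup} (hE : O.valuation (p : ℂ) ^ k < D) (hD : D < 1) (n : ℕ) :
    ∀ (Q₁ Q₂ : M2) (τ₁ τ₂ : ℍ), JJ τ₁ ∈ O → JJ τ₂ ∈ O → Q₁.det = (p : ℤ) ^ n →
      Q₂.det = (p : ℤ) ^ n → O.valuation (WW Q₁ τ₁) = 1 → O.valuation (WW Q₂ τ₂) = 1 →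
      O.valuation (JJ τ₁ - JJ τ₂) ≤ D → (n = 0 → O.valuation (JJ τ₁ - JJ τ₂) < D) →
      O.valuation (JJ (act Q₁ τ₁) - JJ (act Q₂ τ₂)) < D := by
  obtain ⟨A, B, hA, hB, hk⟩ := (h1 O p hp hv).2 k
  induction n with
  | zero =>
    intro Q₁ Q₂ τ₁ τ₂ _ _ d1 d2 _ _ _ h
    rw [b.y1.tJ _ _ (by simpa using d1), b.y1.tJ _ _ (by simpa using d2)]
    exact h rfl
  | succ n ih =>
    intro Q₁ Q₂ τ₁ τ₂ j1 j2 d1 d2 u1 u2 h _
    obtain ⟨M₁, R₁, a1, a2, a3, a4, a5, a6⟩ := split b h1 hp hv j1 d1 u1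
    obtain ⟨M₂, R₂, c1, c2, c3, c4, c5, c6⟩ := split b h1 hp hv j2 d2 u2
    have := contr hp hv hA hB j1 j2 (hk _ _ j1 a1 a5).1 (hk _ _ j2 c1 c5).1
      (hk _ _ j1 a1 a5).2 (hk _ _ j2 c1 c5).2 hE hD h
    rw [a3, c3]
    exact ih _ _ _ _ a4 c4 a2 c2 a6 c6 this.le fun _ => this

lemma chain {n : ℕ} (hJ : JJ τ ∈ O) (h : Q.det = (p : ℤ) ^ (n + 1)) (hf : act Q τ = τ)
    (hu : O.valuation (WW Q τ) = 1) (f : ℕ) : ∃ N R : M2, N.det = (p : ℤ) ^ f ∧
      O.valuation (WW N τ) = 1 ∧ JJ (act N τ) ∈ O ∧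
      O.valuation (JJ (act N τ) - JJ τ ^ p ^ f) < 1 ∧ R.det = (p : ℤ) ^ (n + 1) ∧
      act R (act N τ) = act N τ ∧ O.valuation (WW R (act N τ)) = 1 := by
  induction f with
  | zero =>
    refine ⟨1, Q, by simp, by rw [ww_one b (by simp), map_one], ?_⟩
    rw [act_one]
    exact ⟨hJ, by simp, h, hf, hu⟩
  | succ f ih =>
    obtain ⟨N, R, a1, a2, a3, a4, a5, a6, a7⟩ := ih
    obtain ⟨M, R', c1, c2, c3, c4, c5, c6⟩ := split b h1 hp hv a3 a5 a7
    have e := c3.symm.trans a6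
    refine ⟨M * N, M * R', by rw [Matrix.det_mul, a1, c1, pow_succ'],
      by rw [ww_mul b (pos1 hp c1) (pos hp a1), map_mul, c5, a2, mul_one], ?_⟩
    rw [act_mul (pos1 hp c1) (pos hp a1)]
    refine ⟨c4, ?_, by rw [Matrix.det_mul, c1, c2, pow_succ'],
      by rw [act_mul (pos1 hp c1) (pos hp c2), e],
      by rw [ww_mul b (pos1 hp c1) (pos hp c2), e, map_mul, c5, c6, mul_one]⟩
    have k := ((h1 O p hp hv).1 _ M a3 c1).2.2.2.1
    rw [map_mul, c5, mul_one] at k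
    have := O.valuation.map_add_lt k ((pow_sub a3 (pow_mem hJ _) p).trans_lt a4)
    rwa [sub_add_sub_cancel, ← pow_mul, ← pow_succ] at this

end Can2Aux

open Can2Aux in
theorem can2_of (b : B2) (h1 : CAN1) (h2 : K4) : CAN2 := by
  intro O p hp hv τ Q h f h0 hQ hf hu hI hJ
  obtain ⟨n, rfl⟩ := Nat.exists_eq_succ_of_ne_zero h0.ne'
  have i1 := hI 1 (by simp)
  rw [act_one] at i1
  have j1 : JJ τ ∈ O := mem_of_int i1
  have u1 : O.valuation (WW Q τ) = 1 := by rw [ww_fix b hf, map_pow, hu, one_pow]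
  obtain ⟨N, R, a1, a2, a3, a4, a5, a6, a7⟩ := chain b h1 hp hv j1 hQ hf u1 f
  have e : JJ (act N τ) = JJ τ := by
    by_contra c
    obtain ⟨k, hk⟩ := exists_lt hp hv ((hI N (pos hp a1)).sub i1) (sub_ne_zero.2 c)
    have hD := O.valuation.map_add_lt a4 hJ
    rw [sub_add_sub_cancel] at hD
    have := con b h1 hp hv hk hD _ R Q _ _ a3 j1 a5 hQ a7 u1 le_rfl
      fun c => absurd c (Nat.succ_ne_zero n)
    rw [a6, hf] at this
    exact this.false
  obtain ⟨γ, g1, g2⟩ := h2 _ _ e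
  have d : (γ * N).det = (p : ℤ) ^ f := by rw [Matrix.det_mul, g1, a1, one_mul]
  have x : act (γ * N) τ = τ := by rw [act_mul (g1 ▸ one_pos) (pos hp a1), g2]
  have w : O.valuation (WW (γ * N) τ) = 1 := by rw [(b.my.1 N γ τ (pos hp a1) g1).1, a2]
  refine ⟨γ * N, d, x, ?_, fun c c' => ?_⟩
  · rwa [ww_fix b x, map_pow, pow_eq_one_iff_of_nonneg zero_le (by decide)] at w
  · have := ((h1 O p hp hv).1 τ _ j1 (by rw [d, c, pow_one])).2.2.2.2 c'
    rwa [map_mul, w, mul_one, x] at this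

end Pool.Agent.MP_c481b3_nt.H31F
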