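import Pool.Agent.MP_c481b3_nt.H31F.Spec2
import Pool.Agent.MP_c481b3_nt.H31F.Can2

set_option autoImplicit false

namespace Pool.Agent.MP_c481b3_nt.H31F

open UpperHalfPlane hiding I
open Complex Polynomial

namespace Can3Aux

open Can2Aux

/-- Powers of a matrix that fixes a point with a unit cocycle. -/
lemma pw (b : B2) {O : ValuationSubring ℂ} {Q : M2} {τ : ℍ} (h0 : 0 < Q.det) (hf : act Q τ = τ)
    (hu : O.valuation (WW Q τ) = 1) (n : ℕ) :
    act (Q ^ n) τ = τ ∧ O.valuation (WW (Q ^ n) τ) = 1 := by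
  induction n with
  | zero =>
    rw [pow_zero]
    exact ⟨act_one τ, by rw [ww_one b (by simp), map_one]⟩
  | succ n ih =>
    have hn : 0 < (Q ^ n).det := by
      rw [Matrix.det_pow]
      exact pow_pos h0 n
    rw [pow_succ, act_mul hn h0, ww_mul b hn h0, hf, map_mul, ih.2, hu, mul_one]
    exact ⟨ih.1, rfl⟩

end Can3Aux

open Can2Aux Can3Aux in
theorem can3_of (b : B2) (h1 : CAN1) : CAN3 := by
  intro O p hp hv τ₁ τ₂ Q₁ Q₂ h₁ h₂ p1 p2 d1 d2 f1 f2 u1 u2 i1 i2 hD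
  by_contra c
  obtain ⟨k, hk⟩ := exists_lt hp hv (i1.sub i2) (sub_ne_zero.2 c)
  have w1 : O.valuation (WW Q₁ τ₁) = 1 := by rw [ww_fix b f1, map_pow, u1, one_pow]
  have w2 : O.valuation (WW Q₂ τ₂) = 1 := by rw [ww_fix b f2, map_pow, u2, one_pow]
  obtain ⟨a1, a2⟩ := pw b (pos hp d1) f1 w1 h₂
  obtain ⟨c1, c2⟩ := pw b (pos hp d2) f2 w2 h₁
  have := con b h1 hp hv hk hD (h₁ * h₂) (Q₁ ^ h₂) (Q₂ ^ h₁) τ₁ τ₂ (mem_of_int i1) (mem_of_int i2)
    (by rw [Matrix.det_pow, d1, pow_mul]) (by rw [Matrix.det_pow, d2, ← pow_mul, mul_comm]) a2 c2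
    le_rfl fun e => absurd e (Nat.mul_pos p1 p2).ne'
  rw [a1, c1] at this
  exact this.false

end Pool.Agent.MP_c481b3_nt.H31F
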