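import Pool.Agent.MP_c481b3_nt.H31F.Spec

set_option autoImplicit false

namespace Pool.Agent.MP_c481b3_nt.H31F

open UpperHalfPlane hiding I
open Complex
open scoped ComplexConjugate

namespace EpsAux

/-- the shape of the matrices that fix a root of `X ^ 2 - t X + n` -/
lemma fix {τ : ℍ} {t n : ℤ} (h : (τ : ℂ) ^ 2 = t * τ - n) {Λ : M2} (hΛ : 0 < Λ.det)
    (e : act Λ τ = τ) : Λ 0 0 = Λ 1 1 + t * Λ 1 0 ∧ Λ 0 1 = -(Λ 1 0 * n) := by
  rw [act_eq_self hΛ, den] at e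
  have h1 : ((Λ 0 0 - Λ 1 1 - t * Λ 1 0 : ℤ) : ℂ) * τ + ((Λ 0 1 + Λ 1 0 * n : ℤ) : ℂ) = 0 := by
    push_cast
    linear_combination e + (Λ 1 0 : ℂ) * h
  have h2 := congrArg Complex.im h1
  rw [add_im, mul_im, intCast_im, intCast_im, intCast_re, zero_mul, add_zero, add_zero, zero_im,
    coe_im, mul_eq_zero, or_iff_left τ.im_pos.ne', Int.cast_eq_zero] at h2
  rw [h2, Int.cast_zero, zero_mul, zero_add, Int.cast_eq_zero] at h1
  exact ⟨by linarith, by linarith⟩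

/-- a square modulo an odd number -/
lemma jac_one {E : ℕ} {u x m : ℤ} (h : u = x ^ 2 + E * m) (hu : u.gcd E = 1) :
    jacobiSym u E = 1 := by
  have h1 : jacobiSym u E = jacobiSym x E ^ 2 := by
    rw [← jacobiSym.pow_left]
    exact jacobiSym.mod_left' (by rw [h, Int.add_mul_emod_self_left])
  have h2 : jacobiSym u E ≠ 0 := fun z => (jacobiSym.eq_zero_iff.1 z).2 hu
  rcases jacobiSym.trichotomy x E with z | z | z <;> rw [z] at h1 <;> simp_all

lemma YY_I (b : B1) : YY UpperHalfPlane.I = 0 := by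
  have h := b.y1.tY !![0, -1; 1, 0] UpperHalfPlane.I (by simp [Matrix.det_fin_two])
  rw [(act_eq_self (by simp [Matrix.det_fin_two])).2 (by simp [den]),
    show eps !![0, -1; 1, 0] = -1 by simp [eps]] at h
  push_cast at h
  linear_combination h / 2

lemma re_sq (d : ℕ) : (sq d).re = 0 := by simp [sq]

lemma im_sq (d : ℕ) : (sq d).im = √(d : ℝ) := by simp [sq]

lemma conj_sq (d : ℕ) : conj (sq d) = -sq d := by simp [sq]

lemma YY_ne (b : B1) (h : K4) {d : ℕ} (hd : 1 < d) (hs : Squarefree d) {τ : ℍ} {t g : ℤ}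
    (hg : g ≠ 0) (e : (τ : ℂ) = (t + g * sq d) / 2) : YY τ ≠ 0 := by
  intro z
  obtain ⟨γ, h1, h2⟩ := h τ UpperHalfPlane.I (by rw [JJ, JJ, z, YY_I b])
  have h3 := coe_act (M := γ) (by rw [h1]; exact one_pos) τ
  rw [h2, eq_div_iff (den_ne (by rw [h1]; exact one_pos) τ), den, e] at h3
  have hr := congrArg Complex.re h3
  have hi := congrArg Complex.im h3
  simp [re_sq, im_sq] at hr hi
  have hirr : Irrational √(d : ℝ) := irrational_sqrt_natCast_iff.2 fun ⟨c, hc⟩ => by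
    have := hs c (hc ▸ dvd_rfl)
    rw [Nat.isUnit_iff] at this
    rw [this] at hc
    omega
  have key : ∀ u v : ℤ, (u : ℝ) * (g * √(d : ℝ)) = v → u = 0 := fun u v huv => by
    by_contra hu
    refine (hirr.intCast_mul (mul_ne_zero hu hg)).ne_int v ?_
    push_cast
    linarith
  have a0 := key (γ 0 0) (γ 1 0 * t + 2 * γ 1 1) (by push_cast; linarith)
  have c0 := key (γ 1 0) (-(γ 0 0 * t + 2 * γ 0 1)) (by push_cast; linarith)
  rw [Matrix.det_fin_two, a0, c0] at h1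
  simp at h1

/-- the base point for positive `D` -/
lemma base1 {d : ℕ} (hd : 0 < d) (h4 : d % 4 = 3) {k : ℤ} (hk : 0 ≤ k) :
    0 < Matrix.det !![4 * k + 1, -(2 * k); 0, 1] ∧
    (act !![4 * k + 1, -(2 * k); 0, 1] (om d) : ℂ) = (1 + (4 * k + 1) * sq d) / 2 := by
  have h : 0 < Matrix.det !![4 * k + 1, -(2 * k); 0, 1] := by
    simp [Matrix.det_fin_two]; omega
  refine ⟨h, ?_⟩
  rw [coe_act h, den, coe_om hd, if_pos h4]
  simp
  ring

/-- the base point for negative `D` -/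
lemma base2 {d : ℕ} (hd : 0 < d) {f : ℤ} (hf : 0 < f) :
    ∃ M : M2, 0 < M.det ∧ (act M (om d) : ℂ) = f * sq d := by
  by_cases h4 : d % 4 = 3
  · have h : 0 < Matrix.det !![2 * f, -f; 0, 1] := by simp [Matrix.det_fin_two]; omega
    refine ⟨_, h, ?_⟩
    rw [coe_act h, den, coe_om hd, if_pos h4]
    simp
    ring
  · have h : 0 < Matrix.det !![f, 0; 0, 1] := by simp [Matrix.det_fin_two]; omega
    refine ⟨_, h, ?_⟩
    rw [coe_act h, den, coe_om hd, if_neg h4]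
    simp

lemma gcd_one {q E : ℕ} (hq : q.Prime) (h : ¬(q : ℤ) ∣ E) : (q : ℤ).gcd E = 1 := by
  rw [Int.gcd_natCast_natCast]
  exact (Nat.Prime.coprime_iff_not_dvd hq).2 fun z => h (by exact_mod_cast z)

lemma sq8 (a : ℤ) : (a % 2 = 1 ∧ a ^ 2 % 8 = 1) ∨ (a % 2 = 0 ∧ a ^ 2 % 4 = 0) := by
  obtain ⟨k, rfl | rfl⟩ := Int.even_or_odd' a
  · exact Or.inr ⟨by omega, by rw [show (2 * k) ^ 2 = 4 * k ^ 2 by ring]; omega⟩
  · obtain ⟨m, hm⟩ := Int.even_mul_succ_self k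
    exact Or.inl ⟨by omega, by
      rw [show (2 * k + 1) ^ 2 = 4 * (k * (k + 1)) + 1 by ring, hm]; omega⟩

/-- the sign for a purely imaginary base point -/
lemma eps_im {Λ : M2} {n : ℤ} (h1 : Λ 0 0 = Λ 1 1) (h2 : Λ 0 1 = -(Λ 1 0 * n)) (h : Odd Λ.det) :
    eps Λ = if Λ 1 0 % 2 = 0 then 1 else -1 := by
  rw [Matrix.det_fin_two, h1, h2] at h
  rw [eps, h1, h2]
  generalize Λ 1 1 = a at *
  generalize Λ 1 0 = c at *
  refine if_congr ?_ rfl rfl
  rw [← Int.even_iff]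
  rw [← Int.not_even_iff_odd] at h
  by_cases ha : Even a <;> by_cases hc : Even c <;> by_cases hn : Even n <;>
    simp_all [parity_simps]

lemma par {a c n : ℤ} (h : Odd ((a + 1 * c) * a - -(c * n) * c)) :
    Even ((a + 1 * c) * c + -(c * n) * c + -(c * n) * a) := by
  rw [← Int.not_even_iff_odd] at h
  by_cases ha : Even a <;> by_cases hc : Even c <;> by_cases hn : Even n <;>
    simp only [parity_simps, ha, hc, hn] at h ⊢ <;> simp_all

/-- the value of the symbol for negative `D` -/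
lemma jac_neg {d q E : ℕ} {D f a c : ℤ} (hs : d % 4 ≠ 0) (hq : q.Prime) (h2 : q ≠ 2)
    (hqE : ¬(q : ℤ) ∣ E) (hE : E % 2 = 1) (e : (q : ℤ) = a ^ 2 + c ^ 2 * (d * f ^ 2))
    (h : (D = -E ∧ f = E ∧ E % 4 = 1 ∧ d % 4 ≠ 1) ∨ (D = -2 * E ∧ f = 2 * E ∧ d % 2 = 1) ∨
      (D = -2 * E ∧ f = E ∧ D % 8 = d % 8)) :
    jacobiSym D q = if c % 2 = 0 then 1 else -1 := by
  have ho : Odd q := hq.odd_of_ne_two h2
  have ho' := Nat.odd_iff.1 ho
  have hEo : Odd E := Nat.odd_iff.2 hE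
  have hE2 : ((E : ℤ) ^ 2) % 8 = 1 := ((sq8 E).resolve_right (by omega)).2
  have j1 : jacobiSym q E = 1 := by
    rcases h with ⟨-, hf, -⟩ | ⟨-, hf, -⟩ | ⟨-, hf, -⟩
    · exact jac_one (x := a) (m := c ^ 2 * d * E) (by rw [e, hf]; ring) (gcd_one hq hqE)
    · exact jac_one (x := a) (m := c ^ 2 * d * 4 * E) (by rw [e, hf]; ring) (gcd_one hq hqE)
    · exact jac_one (x := a) (m := c ^ 2 * d * E) (by rw [e, hf]; ring) (gcd_one hq hqE)
  have j2 := jacobiSym.quadratic_reciprocity_if hE ho'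
  rw [j1] at j2
  obtain ⟨u, hu⟩ : ∃ u : ℤ, (E : ℤ) ^ 2 = 8 * u + 1 := ⟨(E : ℤ) ^ 2 / 8, by omega⟩
  have ha := sq8 a
  generalize a ^ 2 = A at *
  have hc : (c % 2 = 1 ∧ ∃ v : ℤ, c ^ 2 = 8 * v + 1) ∨ (c % 2 = 0 ∧ ∃ v : ℤ, c ^ 2 = 4 * v) := by
    rcases sq8 c with ⟨z, z'⟩ | ⟨z, z'⟩
    · exact Or.inl ⟨z, c ^ 2 / 8, by omega⟩
    · exact Or.inr ⟨z, c ^ 2 / 4, by omega⟩
  rcases h with ⟨hD, hf, h4, hd⟩ | ⟨hD, hf, hd⟩ | ⟨hD, hf, hd⟩
  · rw [hD, jacobiSym.neg _ ho, ← j2, if_neg (by omega), mul_one, ZMod.χ₄_nat_eq_if_mod_four]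
    rw [hf, hu] at e
    rcases hc with ⟨z, v, hv⟩ | ⟨z, v, hv⟩ <;> rw [hv] at e
    · have e' : (q : ℤ) = A + d + 8 * (d * (8 * u * v + u + v)) := by rw [e]; ring
      generalize (d : ℤ) * (8 * u * v + u + v) = w at e'
      rw [if_neg (by omega), if_neg (by omega), if_neg (by omega)]
    · have e' : (q : ℤ) = A + 4 * (v * (d * (8 * u + 1))) := by rw [e]; ring
      generalize v * ((d : ℤ) * (8 * u + 1)) = w at e'
      rw [if_neg (by omega), if_pos (by omega), if_pos z]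
  · rw [hD, jacobiSym.mul_left, jacobiSym.at_neg_two ho, ← j2, ZMod.χ₈'_nat_eq_if_mod_eight]
    rw [hf, mul_pow, hu] at e
    rcases hc with ⟨z, v, hv⟩ | ⟨z, v, hv⟩ <;> rw [hv] at e
    · have e' : (q : ℤ) = A + 4 * d + 8 * (4 * d * (8 * u * v + u + v)) := by rw [e]; ring
      generalize 4 * (d : ℤ) * (8 * u * v + u + v) = w at e'
      rw [if_neg (by omega), if_neg (by omega), if_neg (by omega), if_neg (by omega)]
      rfl
    · have e' : (q : ℤ) = A + 8 * (2 * v * (d * (8 * u + 1))) := by rw [e]; ring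
      generalize 2 * v * ((d : ℤ) * (8 * u + 1)) = w at e'
      rw [if_neg (by omega), if_pos (by omega), if_neg (by omega), if_pos z]
      rfl
  · rw [hD, jacobiSym.mul_left, jacobiSym.at_neg_two ho, ← j2, ZMod.χ₈'_nat_eq_if_mod_eight]
    rw [hf, hu] at e
    obtain ⟨m, hm⟩ : ∃ m : ℤ, (d : ℤ) = 2 * m := ⟨d / 2, by omega⟩
    rcases hc with ⟨z, v, hv⟩ | ⟨z, v, hv⟩ <;> rw [hv] at e
    · have e' : (q : ℤ) = A + d + 8 * (d * (8 * u * v + u + v)) := by rw [e]; ring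
      generalize (d : ℤ) * (8 * u * v + u + v) = w at e'
      rw [if_neg (by omega), if_neg (show ¬c % 2 = 0 by omega)]
      by_cases h8 : d % 8 = 2
      · rw [if_pos (by omega), if_pos (by omega)]; rfl
      · rw [if_neg (by omega), if_neg (by omega)]; rfl
    · have e' : (q : ℤ) = A + 8 * (v * (m * (8 * u + 1))) := by rw [e, hm]; ring
      generalize v * (m * (8 * u + 1)) = w at e'
      rw [if_neg (by omega), if_pos (by omega), if_neg (by omega), if_pos z]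
      rfl

end EpsAux

open EpsAux in
theorem eps_of (b : B1) (h : K4) : EPS := by
  intro d D hd hs hT
  have hd0 : 0 < d := by omega
  have hs4 : d % 4 ≠ 0 := fun z =>
    absurd (Nat.isUnit_iff.1 (hs 2 (Nat.dvd_of_mod_eq_zero z))) (by norm_num)
  have hsq := sq_sq d
  rcases hT with ⟨h0, h1, h3⟩ | ⟨h0, h1⟩
  · obtain ⟨k, rfl⟩ : ∃ k : ℤ, D = 4 * k + 1 := ⟨D / 4, by omega⟩
    obtain ⟨hM, hτ⟩ := base1 hd0 h3 (show 0 ≤ k by omega)
    refine ⟨_, hM, ?_, YY_ne b h hd hs (t := 1) (g := 4 * k + 1) h0.ne' (by simpa using hτ), ?_⟩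
    all_goals generalize act !![4 * k + 1, -(2 * k); 0, 1] (om d) = τ at hτ ⊢
    · intro r hr
      have hγ : Matrix.det !![(1 : ℤ), -1; 0, 1] = 1 := by simp [Matrix.det_fin_two]
      have e1 := b.real τ (act !![1, -1; 0, 1] τ) (by
        rw [coe_act (by rw [hγ]; exact one_pos), den, hτ]
        simp [conj_sq, map_ofNat]
        ring)
      rw [b.y1.tY _ τ hγ, show eps !![1, -1; 0, 1] = -1 by simp [eps]] at e1
      have e2 : conj r = r := by
        have p : (0 : ℝ) ≤ ((4 * k + 1 : ℤ) : ℝ) := by exact_mod_cast h0.le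
        have : r ^ 2 = ((√((4 * k + 1 : ℤ) : ℝ) : ℝ) : ℂ) ^ 2 := by
          rw [← ofReal_pow, Real.sq_sqrt p, hr, ofReal_intCast]
        rcases sq_eq_sq_iff_eq_or_eq_neg.1 this with z | z <;> rw [z] <;> simp
      rw [map_div₀, map_mul, ← e1, e2, conj_sq]
      push_cast
      rw [neg_one_mul, neg_mul, neg_div_neg_eq]
    · intro Λ q hq h2 hqD hΛ e
      obtain ⟨m, hm⟩ : ∃ m : ℤ, (d : ℤ) = 4 * m - 1 := ⟨(d + 1) / 4, by omega⟩
      have hm' : (d : ℂ) = 4 * m - 1 := by exact_mod_cast hm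
      obtain ⟨f1, f2⟩ := fix (τ := τ) (t := 1) (n := m * (4 * k + 1) ^ 2 - 4 * k ^ 2 - 2 * k) (by
        rw [hτ]
        push_cast
        linear_combination (4 * (k : ℂ) + 1) ^ 2 / 4 * (hsq - hm'))
        (by rw [hΛ]; exact_mod_cast hq.pos) e
      have ho : Odd q := hq.odd_of_ne_two h2
      have ho' : Odd Λ.det := by rw [hΛ]; exact_mod_cast ho
      rw [Matrix.det_fin_two, f1, f2] at hΛ ho'
      rw [eps, f1, f2]
      generalize Λ 1 1 = a at *
      generalize Λ 1 0 = c at *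
      obtain ⟨E, hE⟩ := Int.eq_ofNat_of_zero_le h0.le
      have j : jacobiSym (4 * k + 1) q = 1 := by
        have j1 := jac_one (E := E) (u := 4 * q) (x := 2 * a + c) (m := d * E * c ^ 2)
          (by rw [← hΛ, ← hE, hm]; ring) (by
            rw [← Int.isCoprime_iff_gcd_eq_one]
            refine IsCoprime.mul_left ⟨-k, 1, by rw [← hE]; ring⟩ ?_
            exact Int.isCoprime_iff_gcd_eq_one.2 (gcd_one hq (hE ▸ hqD)))
        rw [jacobiSym.mul_left, jacobiSym.at_four (Nat.odd_iff.2 (by omega)), one_mul] at j1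
        rw [hE, jacobiSym.quadratic_reciprocity_one_mod_four (by omega) ho, j1]
      rw [j, if_pos (par ho')]
  · obtain ⟨E, f, hE, hf, hdv, H⟩ : ∃ (E : ℕ) (f : ℤ), E % 2 = 1 ∧ 0 < f ∧ (E : ℤ) ∣ D ∧
        ((D = -E ∧ f = E ∧ E % 4 = 1 ∧ d % 4 ≠ 1) ∨ (D = -2 * E ∧ f = 2 * E ∧ d % 2 = 1) ∨
          (D = -2 * E ∧ f = E ∧ D % 8 = d % 8)) := by
      rcases h1 with ⟨h3, h4⟩ | ⟨h3, h4 | h4⟩
      · exact ⟨(-D).toNat, -D, by omega, by omega, ⟨-1, by omega⟩, Or.inl (by omega)⟩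
      · exact ⟨(-D / 2).toNat, -D, by omega, by omega, ⟨-2, by omega⟩, Or.inr (Or.inl (by omega))⟩
      · exact ⟨(-D / 2).toNat, -D / 2, by omega, by omega, ⟨-2, by omega⟩,
          Or.inr (Or.inr (by omega))⟩
    obtain ⟨M, hM, hτ⟩ := base2 hd0 hf
    refine ⟨M, hM, ?_, YY_ne b h hd hs (t := 0) (g := 2 * f) (by omega)
      (by rw [hτ]; push_cast; ring), ?_⟩
    all_goals generalize act M (om d) = τ at hτ ⊢
    · intro r hr
      have e1 := b.real τ τ (by rw [hτ]; simp [conj_sq])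
      have e2 : conj r = -r := by
        have p : (0 : ℝ) ≤ ((-D : ℤ) : ℝ) := by exact_mod_cast (by omega : 0 ≤ -D)
        have : r ^ 2 = (I * ((√((-D : ℤ) : ℝ) : ℝ) : ℂ)) ^ 2 := by
          rw [mul_pow, ← ofReal_pow, Real.sq_sqrt p, hr, ofReal_intCast]
          simp
        rcases sq_eq_sq_iff_eq_or_eq_neg.1 this with z | z <;> rw [z] <;> simp
      rw [map_div₀, map_mul, ← e1, e2, conj_sq, neg_mul_neg]
    · intro Λ q hq h2 hqD hΛ e
      obtain ⟨f1, f2⟩ := fix (τ := τ) (t := 0) (n := d * f ^ 2) (by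
        rw [hτ]
        push_cast
        linear_combination (f : ℂ) ^ 2 * hsq) (by rw [hΛ]; exact_mod_cast hq.pos) e
      rw [zero_mul, add_zero] at f1
      rw [eps_im f1 f2 (by rw [hΛ]; exact_mod_cast hq.odd_of_ne_two h2)]
      refine (jac_neg (a := Λ 1 1) hs4 hq h2 (fun z => hqD (z.trans hdv)) hE ?_ H).symm
      rw [← hΛ, Matrix.det_fin_two, f1, f2]
      ring

end Pool.Agent.MP_c481b3_nt.H31F
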