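import Pool.Agent.MP_c481b3_nt.H31F.Spec2
import Pool.Agent.MP_c481b3_nt.H31F.Eps
import Pool.Agent.MP_c481b3_nt.H31F.Cmp

set_option autoImplicit false

namespace Pool.Agent.MP_c481b3_nt.H31F

open UpperHalfPlane hiding I
open Complex Polynomial IsLocalRing
open scoped ComplexConjugate

namespace Cmp2Aux

open EpsAux in
lemma YY_ne2 (b : B1) (h : K4) {d : ℕ} (hd : 0 < d) (hs : Squarefree d) {τ : ℍ} {f : ℤ}
    (hf : f ≠ 0) (h1 : d = 1 → 2 ≤ f) (e : (τ : ℂ) = f * sq d) : YY τ ≠ 0 := by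
  rcases (show 1 < d ∨ d = 1 by omega) with hd1 | rfl
  · exact YY_ne b h hd1 hs (t := 0) (g := 2 * f) (by omega) (by rw [e]; push_cast; ring)
  intro z
  obtain ⟨γ, g1, g2⟩ := h τ UpperHalfPlane.I (by rw [JJ, JJ, z, YY_I b])
  have h3 := coe_act (M := γ) (by rw [g1]; exact one_pos) τ
  rw [g2, eq_div_iff (den_ne (by rw [g1]; exact one_pos) τ), den, e] at h3
  have hr := congrArg Complex.re h3
  have hi := congrArg Complex.im h3
  simp [re_sq, im_sq] at hr hi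
  have a0 : γ 0 1 = -(γ 1 0 * f) := by exact_mod_cast hr.symm
  have c0 : γ 1 1 = γ 0 0 * f := by exact_mod_cast hi
  rw [Matrix.det_fin_two, a0, c0] at g1
  have := Int.le_of_dvd one_pos (⟨γ 0 0 ^ 2 + γ 1 0 ^ 2, by linear_combination -g1⟩ : f ∣ 1)
  have := h1 rfl
  omega

end Cmp2Aux

open EpsAux in
theorem eps2_of (b : B1) (h : K4) : EPS2 := by
  intro d D hd0 hs hT
  have hs4 : d % 4 ≠ 0 := fun z =>
    absurd (Nat.isUnit_iff.1 (hs 2 (Nat.dvd_of_mod_eq_zero z))) (by norm_num)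
  have hsq := sq_sq d
  rcases hT with ⟨h0, h1, h3⟩ | ⟨h0, h1⟩
  · obtain ⟨k, rfl⟩ : ∃ k : ℤ, D = 4 * k + 1 := ⟨D / 4, by omega⟩
    obtain ⟨hM, hτ⟩ := base1 hd0 h3 (show 0 ≤ k by omega)
    refine ⟨_, hM, ?_, YY_ne b h (by omega) hs (t := 1) (g := 4 * k + 1) h0.ne'
      (by simpa using hτ), ?_⟩
    all_goals generalize act !![4 * k + 1, -(2 * k); 0, 1] (om d) = τ at hτ ⊢
    · intro r hr
      have hγ : Matrix.det !![(1 : ℤ), -1; 0, 1] = 1 := by simp [Matrix.det_fin_two]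
      have e1 := b.real τ (act !![1, -1; 0, 1] τ) (by
        rw [coe_act (by rw [hγ]; exact one_pos), den, hτ]
        simp [conj_sq, map_ofNat]
        ring)
      rw [b.y1.tY _ τ hγ, show eps !![1, -1; 0, 1] = -1 by simp [eps]] at e1
      have e2 : conj r = r := by
        have p : (0 : ℝ) ≤ ((4 * k + 1 : ℤ) : ℝ) := by exact_mod_cast h0.le
        have : r ^ 2 = ((√((4 * k + 1 : ℤ) : ℝ) : ℝ) : ℂ) ^ 2 := by
          rw [← ofReal_pow, Real.sq_sqrt p, hr, ofReal_intCast]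
        rcases sq_eq_sq_iff_eq_or_eq_neg.1 this with z | z <;> rw [z] <;> simp
      rw [map_div₀, map_mul, ← e1, e2, conj_sq]
      push_cast
      rw [neg_one_mul, neg_mul, neg_div_neg_eq]
    · intro Λ q hq h2 hqD hΛ e
      obtain ⟨m, hm⟩ : ∃ m : ℤ, (d : ℤ) = 4 * m - 1 := ⟨(d + 1) / 4, by omega⟩
      have hm' : (d : ℂ) = 4 * m - 1 := by exact_mod_cast hm
      obtain ⟨f1, f2⟩ := fix (τ := τ) (t := 1) (n := m * (4 * k + 1) ^ 2 - 4 * k ^ 2 - 2 * k) (by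
        rw [hτ]
        push_cast
        linear_combination (4 * (k : ℂ) + 1) ^ 2 / 4 * (hsq - hm'))
        (by rw [hΛ]; exact_mod_cast hq.pos) e
      have ho : Odd q := hq.odd_of_ne_two h2
      have ho' : Odd Λ.det := by rw [hΛ]; exact_mod_cast ho
      rw [Matrix.det_fin_two, f1, f2] at hΛ ho'
      rw [eps, f1, f2]
      generalize Λ 1 1 = a at *
      generalize Λ 1 0 = c at *
      obtain ⟨E, hE⟩ := Int.eq_ofNat_of_zero_le h0.le
      have j : jacobiSym (4 * k + 1) q = 1 := by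
        have j1 := jac_one (E := E) (u := 4 * q) (x := 2 * a + c) (m := d * E * c ^ 2)
          (by rw [← hΛ, ← hE, hm]; ring) (by
            rw [← Int.isCoprime_iff_gcd_eq_one]
            refine IsCoprime.mul_left ⟨-k, 1, by rw [← hE]; ring⟩ ?_
            exact Int.isCoprime_iff_gcd_eq_one.2 (gcd_one hq (hE ▸ hqD)))
        rw [jacobiSym.mul_left, jacobiSym.at_four (Nat.odd_iff.2 (by omega)), one_mul] at j1
        rw [hE, jacobiSym.quadratic_reciprocity_one_mod_four (by omega) ho, j1]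
      rw [j, if_pos (par ho')]
  · obtain ⟨E, f, hE, hf, hdv, H⟩ : ∃ (E : ℕ) (f : ℤ), E % 2 = 1 ∧ 0 < f ∧ (E : ℤ) ∣ D ∧
        ((D = -E ∧ f = E ∧ E % 4 = 1 ∧ d % 4 ≠ 1) ∨ (D = -2 * E ∧ f = 2 * E ∧ d % 2 = 1) ∨
          (D = -2 * E ∧ f = E ∧ D % 8 = d % 8)) := by
      rcases h1 with ⟨h3, h4⟩ | ⟨h3, h4 | h4⟩
      · exact ⟨(-D).toNat, -D, by omega, by omega, ⟨-1, by omega⟩, Or.inl (by omega)⟩
      · exact ⟨(-D / 2).toNat, -D, by omega, by omega, ⟨-2, by omega⟩, Or.inr (Or.inl (by omega))⟩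
      · exact ⟨(-D / 2).toNat, -D / 2, by omega, by omega, ⟨-2, by omega⟩,
          Or.inr (Or.inr (by omega))⟩
    obtain ⟨M, hM, hτ⟩ := base2 hd0 hf
    refine ⟨M, hM, ?_, Cmp2Aux.YY_ne2 b h hd0 hs (f := f) (by omega) (by omega) hτ, ?_⟩
    all_goals generalize act M (om d) = τ at hτ ⊢
    · intro r hr
      have e1 := b.real τ τ (by rw [hτ]; simp [conj_sq])
      have e2 : conj r = -r := by
        have p : (0 : ℝ) ≤ ((-D : ℤ) : ℝ) := by exact_mod_cast (by omega : 0 ≤ -D)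
        have : r ^ 2 = (I * ((√((-D : ℤ) : ℝ) : ℝ) : ℂ)) ^ 2 := by
          rw [mul_pow, ← ofReal_pow, Real.sq_sqrt p, hr, ofReal_intCast]
          simp
        rcases sq_eq_sq_iff_eq_or_eq_neg.1 this with z | z <;> rw [z] <;> simp
      rw [map_div₀, map_mul, ← e1, e2, conj_sq, neg_mul_neg]
    · intro Λ q hq h2 hqD hΛ e
      obtain ⟨f1, f2⟩ := fix (τ := τ) (t := 0) (n := d * f ^ 2) (by
        rw [hτ]
        push_cast
        linear_combination (f : ℂ) ^ 2 * hsq) (by rw [hΛ]; exact_mod_cast hq.pos) e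
      rw [zero_mul, add_zero] at f1
      rw [eps_im f1 f2 (by rw [hΛ]; exact_mod_cast hq.odd_of_ne_two h2)]
      refine (jac_neg (a := Λ 1 1) hs4 hq h2 (fun z => hqD (z.trans hdv)) hE ?_ H).symm
      rw [← hΛ, Matrix.det_fin_two, f1, f2]
      ring

open CmpAux in
theorem cmp2_of (b : B1) (h1 : EPS2) (h2 : PI) (h3 : CAN2) (h4 : INTJ2) (h5 : VLS) : CMP2 := by
  intro d D r hd hsq hT hr
  obtain ⟨M₀, hM, hreal, hY, heps⟩ := h1 d D hd hsq hT
  refine ⟨M₀, hM, fun ρ₀ hρ₀ => ?_⟩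
  have hD : D ≠ 0 := by rcases hT with h | h <;> omega
  have hre := hreal r hr
  obtain ⟨iY, iJ⟩ := h4 d M₀ hd hsq hM
  have iJ' : ∀ M : M2, 0 < M.det → IsIntegral ℤ (JJ (act M (act M₀ (om d)))) := fun M h => by
    rw [← act_mul h hM]
    exact (h4 d _ hd hsq (det_mul_pos h hM)).2
  set τ := act M₀ (om d) with hτ
  have ss := sq_sq d
  have d0 : (d : ℂ) ≠ 0 := by exact_mod_cast (by omega : d ≠ 0)
  have s0 : sq d ≠ 0 := fun e => d0 (by rw [e] at ss; linear_combination ss)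
  have r0 : r ≠ 0 := fun e => hD (by
    rw [e] at hr
    exact_mod_cast (show ((D : ℤ) : ℂ) = 0 by linear_combination -hr))
  set u := YY τ / (sq d * r) with hu
  obtain ⟨ρ, ρs, ρu⟩ : ∃ ρ : ℂ ≃+* ℂ, ρ (sq d) = sq d ∧ ρ u = -u := by
    have : ρ₀ (sq d) = sq d ∨ ρ₀ (sq d) = -sq d := by
      rw [← sq_eq_sq_iff_eq_or_eq_neg, ← map_pow, ss, map_neg, map_natCast]
    rcases this with e | e
    · exact ⟨ρ₀, e, hρ₀⟩
    · refine ⟨(starRingAut : ℂ ≃+* ℂ).trans ρ₀, ?_, ?_⟩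
      · change ρ₀ (conj (sq d)) = _
        rw [conj_sq, map_neg, e, neg_neg]
      · change ρ₀ (conj u) = _
        rw [hre, hρ₀]
  have eY : YY τ = u * (sq d * r) := by rw [hu, div_mul_cancel₀ _ (mul_ne_zero s0 r0)]
  have eJ : JJ τ = -d * D * u ^ 2 + 1728 := by
    rw [JJ, eY, mul_pow, mul_pow, ss, hr]; ring
  have et : YY τ * r = sq d * D * u := by rw [eY, ← hr]; ring
  have is : IsIntegral ℤ (sq d) := integral_of_sq (n := -d) (by rw [ss]; push_cast; ring)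
  have ir : IsIntegral ℤ r := integral_of_sq hr
  obtain ⟨q, hq, hMq, O, hv, vs, vJ, vt⟩ := exists_prime h5 (c := D) is iJ (iY.mul ir)
    (by rw [mul_pow, hr, JJ]; push_cast; ring) (mul_ne_zero hY r0) ρ ρs
    (by rw [eJ]; simp [ρu, map_ofNat]) (by rw [et]; simp [ρu, ρs])
    (2 + d + D.natAbs + M₀.det.natAbs)
  have nd : ∀ n : ℤ, n ≠ 0 → n.natAbs < q → ¬(q : ℤ) ∣ n := fun n hn hlt hdv => by
    have := Nat.le_of_dvd (Int.natAbs_pos.2 hn) (Int.natCast_dvd.1 hdv)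
    omega
  have q2 : q ≠ 2 := by omega
  have sO : sq d ∈ O := (h5.int _).1 is O
  have rO : r ∈ O := (h5.int _).1 ir O
  have YO : YY τ ∈ O := (h5.int _).1 iY O
  obtain ⟨a, ha⟩ := exists_int O hq hv sO vs
  have v2 : O.valuation (2 * sq d) = 1 := by
    have e1 := int_unit O hq hv (nd 2 (by norm_num) (by simp; omega))
    have e2 := int_unit O hq hv (nd d (by omega) (by simp; omega))
    have e3 : O.valuation (sq d) ^ 2 = 1 := by
      rw [← map_pow, ss, O.valuation.map_neg]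
      simpa using e2
    rw [map_mul, (pow_eq_one_iff_of_nonneg zero_le two_ne_zero).1 e3, mul_one]
    simpa using e1
  have va : O.valuation ((a : ℂ) + sq d) = 1 := by
    have : (a : ℂ) + sq d = (a - sq d) + 2 * sq d := by ring
    rw [this, O.valuation.map_add_eq_of_lt_right (by rw [v2]; exact ha), v2]
  have a0 : (a : ℂ) + sq d ≠ 0 := fun e => by simp [e] at va
  have ad : (a : ℚ) ^ 2 + d ≠ 0 := by positivity
  have ad' : (a : ℂ) ^ 2 + d ≠ 0 := by exact_mod_cast ad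
  have ez : ((((a : ℚ) ^ 2 - d) / (a ^ 2 + d) : ℚ) : ℂ) + ((-2 * a / (a ^ 2 + d) : ℚ) : ℂ) * sq d
      = (a - sq d) / (a + sq d) := by
    push_cast
    field_simp
    linear_combination (-2 * a) * ss
  obtain ⟨-, hp⟩ := h2 d (by omega) hsq O (((a : ℚ) ^ 2 - d) / (a ^ 2 + d))
    (-2 * a / (a ^ 2 + d)) (by field_simp; ring) (by
      rw [ez, map_div₀, va, div_one]
      exact ha.ne)
  obtain ⟨x, y, h, hh, hn, hvx⟩ := (hp q hq hv).2 M₀.det (nd _ hM.ne' (by omega))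
  obtain ⟨Q, -, hQ, hQa, hQd⟩ := b.mat.cm d M₀ x y (by omega) hM (by
    by_contra hc
    push Not at hc
    simp [hc.1, hc.2] at hvx)
  obtain ⟨Λ, hΛ, hΛa, -, hΛe⟩ := h3 O q hq hv τ Q h 1 hh (hQ.trans hn) hQa (by rw [hQd]; exact hvx)
    iJ' (by simpa using vJ)
  have qD := nd D hD (by omega)
  have he := heps Λ q hq q2 qD (by simpa using hΛ) hΛa
  have v1 := hΛe rfl q2
  rw [he] at v1
  have := Fact.mk hq
  have eul : (q : ℤ) ∣ D ^ (q / 2) - jacobiSym D q := by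
    rw [← ZMod.intCast_zmod_eq_zero_iff_dvd, ← jacobiSym.legendreSym.to_jacobiSym]
    push_cast
    rw [legendreSym.eq_pow, sub_self]
  have v3 := int_dvd O hv eul
  have j2 : (jacobiSym D q : ℂ) ^ 2 = 1 := by
    have : jacobiSym D q ^ 2 = 1 := jacobiSym.sq_one (Int.isCoprime_iff_gcd_eq_one.1
      ((Prime.coprime_iff_not_dvd (Nat.prime_iff_prime_int.1 hq)).2 qD).symm)
    exact_mod_cast this
  have rq : r ^ q = r * (D : ℂ) ^ (q / 2) := by
    have : q = 2 * (q / 2) + 1 := by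
      have := Nat.odd_iff.1 (hq.odd_of_ne_two q2)
      omega
    rw [← hr, ← pow_mul, ← pow_succ', ← this]
  apply vt
  have fin : (YY τ * r) ^ q - YY τ * r
      = (jacobiSym D q * YY τ - YY τ ^ q) * (-r * (D : ℂ) ^ (q / 2))
        + (r * jacobiSym D q * YY τ) * ((D ^ (q / 2) - jacobiSym D q : ℤ) : ℂ) := by
    rw [mul_pow, rq]
    push_cast
    linear_combination (r * YY τ) * j2
  rw [fin]
  exact O.valuation.map_add_lt
    (mul_lt O v1 (mul_mem (neg_mem rO) (pow_mem (intCast_mem O D) _)))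
    (lt_mul O (mul_mem (mul_mem rO (intCast_mem O _)) YO) v3)

end Pool.Agent.MP_c481b3_nt.H31F
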