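import Pool.Agent.MP_c481b3_nt.H31F.Spec3
import Pool.Agent.MP_c481b3_nt.H31F.Eps
import Pool.Agent.MP_c481b3_nt.H31F.Cmp

set_option autoImplicit false

namespace Pool.Agent.MP_c481b3_nt.H31F

open UpperHalfPlane hiding I
open Complex Polynomial IsLocalRing
open scoped ComplexConjugate

namespace Cmp3Aux

open CmpAux

/-- a large prime at which `s`, `J` lie in the prime field and `t` does not -/
lemma exists_prime3 (h5 : VLS) {s J t : ℂ} {c : ℚ} (hs : IsIntegral ℤ s) (hJ : IsIntegral ℤ J)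
    (ht : IsIntegral ℤ t) (e : t ^ 2 = c) (t0 : t ≠ 0) (ρ : ℂ ≃+* ℂ) (ρs : ρ s = s)
    (ρJ : ρ J = J) (ρt : ρ t = -t) (M : ℕ) : ∃ q : ℕ, q.Prime ∧ M < q ∧
      ∃ O : ValuationSubring ℂ, O.valuation (q : ℂ) < 1 ∧ O.valuation (s ^ q - s) < 1 ∧
        O.valuation (J ^ q - J) < 1 ∧ ¬O.valuation (t ^ q - t) < 1 := by
  classical
  let L := algebraicClosure ℚ ℂ
  have : IsAlgClosed L := (algebraicClosure.isAlgClosure ℚ ℂ).isAlgClosed
  have : Algebra.IsAlgebraic ℚ L := algebraicClosure.isAlgebraic ℚ ℂ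
  have mem : ∀ x : ℂ, IsIntegral ℤ x → x ∈ L := fun x hx =>
    mem_algebraicClosure_iff'.2 hx.tower_top
  let sL : L := ⟨s, mem s hs⟩
  let JL : L := ⟨J, mem J hJ⟩
  let tL : L := ⟨t, mem t ht⟩
  obtain ⟨r, hr, hr4, hz⟩ := H28.cycDis L {sL, JL} 4
  have : NeZero r := ⟨hr.ne_zero⟩
  obtain ⟨z, hzr⟩ := HasEnoughRootsOfUnity.exists_primitiveRoot L r
  have fd : FiniteDimensional ℚ (IntermediateField.adjoin ℚ (({sL, JL} : Finset L) : Set L)) :=
    IntermediateField.finiteDimensional_adjoin fun x _ => Algebra.IsIntegral.isIntegral x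
  have n0 : 0 < Module.finrank ℚ
      (IntermediateField.adjoin ℚ (({sL, JL} : Finset L) : Set L)) := Module.finrank_pos
  have tn : tL ∉ IntermediateField.adjoin ℚ (({sL, JL} : Finset L) : Set L) := by
    intro hm
    have key : ∀ x ∈ IntermediateField.adjoin ℚ (({sL, JL} : Finset L) : Set L),
        ρ (x : ℂ) = x := by
      intro x hx
      induction hx using IntermediateField.adjoin_induction with
      | mem x hx =>
        simp only [Finset.coe_insert, Finset.coe_singleton, Set.mem_insert_iff,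
          Set.mem_singleton_iff] at hx
        rcases hx with rfl | rfl
        · exact ρs
        · exact ρJ
      | algebraMap x => simp
      | add x y _ _ hx hy => simp [hx, hy]
      | inv x _ hx => simp [hx]
      | mul x y _ _ hx hy => simp [hx, hy]
    have := key tL hm
    change ρ t = t at this
    rw [ρt] at this
    exact t0 (by linear_combination -this / 2)
  have n1 : 2 * Module.finrank ℚ (IntermediateField.adjoin ℚ (({sL, JL} : Finset L) : Set L)) ≤
      Module.finrank ℚ (IntermediateField.adjoin ℚ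
        ((({sL, JL} : Finset L) : Set L) ∪ (({tL} : Finset L) : Set L))) := by
    rw [H28.SplitD.rk, mul_comm]
    refine Nat.mul_le_mul_left _ ?_
    set Z := IntermediateField.adjoin ℚ (({sL, JL} : Finset L) : Set L)
    rw [Finset.coe_singleton]
    have : FiniteDimensional Z (IntermediateField.adjoin Z {tL}) :=
      IntermediateField.finiteDimensional_adjoin fun x _ =>
        (Algebra.IsIntegral.isIntegral (R := ℚ) x).tower_top
    have p : 0 < Module.finrank Z (IntermediateField.adjoin Z {tL}) := Module.finrank_pos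
    have n : Module.finrank Z (IntermediateField.adjoin Z {tL}) ≠ 1 := fun h => by
      obtain ⟨y, hy⟩ := IntermediateField.mem_bot.1
        (IntermediateField.finrank_adjoin_simple_eq_one_iff.1 h)
      exact tn (hy ▸ y.2)
    omega
  have n2 := hz z hzr
  have e2 : insert z (({sL, JL} : Finset L) : Set L)
      = (({sL, JL} : Finset L) : Set L) ∪ (({z} : Finset L) : Set L) := by
    rw [Finset.coe_singleton, Set.union_singleton]
  rw [e2] at n2
  obtain ⟨q, hq, hMq, O, hO, hU, ⟨t', ht', σ, hσ, hF⟩, -⟩ :=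
    H28.notSplit2_of H28.densUp H28.densK L {sL, JL} {tL} {z} _ _ _ rfl rfl rfl (by
      rw [n2]
      generalize Module.finrank ℚ (IntermediateField.adjoin ℚ
        ((({sL, JL} : Finset L) : Set L) ∪ (({tL} : Finset L) : Set L))) = a at n1
      generalize Module.finrank ℚ
        (IntermediateField.adjoin ℚ (({sL, JL} : Finset L) : Set L)) = b at n0 n1
      obtain ⟨k, hk⟩ : ∃ k, r - 1 = k + 4 := ⟨r - 5, by omega⟩
      obtain ⟨m, rfl⟩ : ∃ m, a = 2 * b + m := ⟨a - 2 * b, by omega⟩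
      rw [hk]
      nlinarith [Nat.zero_le (b * b * k), Nat.zero_le (m * b * k), Nat.zero_le (m * b),
        Nat.mul_pos n0 n0]) (M + 2)
  rw [Finset.mem_singleton] at ht'
  subst ht'
  have eL : tL ^ 2 = (c : L) := by
    apply L.val.toRingHom.injective
    rw [map_pow, map_ratCast]
    exact e
  have hσt : σ tL = tL ∨ σ tL = -tL := by
    rw [← sq_eq_sq_iff_eq_or_eq_neg, ← map_pow, eL, map_ratCast]
  have hodd : Odd q := hq.odd_of_ne_two (by omega)
  have hF' : ¬H28.Fq O q tL := fun h => hF (by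
    rcases hσt with e' | e'
    · rwa [e']
    · rw [e']
      refine ⟨neg_mem h.1, ?_⟩
      rw [hodd.neg_pow, ← O.valuation.map_neg]
      simpa [sub_eq_add_neg, add_comm] using h.2)
  obtain ⟨O', h1, h2⟩ := H81.exists_val (L.val.toRingHom.comp O.subtype)
    (L.val.toRingHom.injective.comp Subtype.val_injective) (maximalIdeal O)
    (maximalIdeal.isMaximal O)
  have tr : ∀ x : L, x ∈ O → (O'.valuation (x : ℂ) < 1 ↔ O.valuation x < 1) := fun x hx =>
    (h2 ⟨x, hx⟩).trans (O.valuation_lt_one_iff ⟨x, hx⟩)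
  have tO : tL ∈ O := by
    by_contra hn
    have hi : tL⁻¹ ∈ O := (O.mem_or_inv_mem tL).resolve_left hn
    have hlt : O.valuation tL⁻¹ < 1 := by
      rw [← O.valuation_le_one_iff, not_le] at hn
      rw [map_inv₀]
      exact inv_lt_one_of_one_lt₀ hn
    have h3 := (tr _ hi).2 hlt
    have h4 : t ∈ O' := (h5.int t).1 ht O'
    have h6 := mul_lt O' h3 h4
    change O'.valuation (t⁻¹ * t) < 1 at h6
    rw [inv_mul_cancel₀ t0, map_one] at h6
    exact lt_irrefl _ h6
  have fs := hU sL (by simp)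
  have fJ := hU JL (by simp)
  refine ⟨q, hq, by omega, O', ?_, ?_, ?_, fun h => hF' ⟨tO, ?_⟩⟩
  · simpa using (tr (q : L) (natCast_mem O q)).2 hO
  · simpa using (tr _ (sub_mem (pow_mem fs.1 q) fs.1)).2 fs.2
  · simpa using (tr _ (sub_mem (pow_mem fJ.1 q) fJ.1)).2 fJ.2
  · exact (tr _ (sub_mem (pow_mem tO q) tO)).1 (by simpa using h)

/-- the symbol at a prime represented by the principal form of conductor `4 |D|` -/
lemma jac {d q : ℕ} {D a c : ℤ} (hD : D < 0) (hq : q.Prime) (h2 : q ≠ 2) (hqD : ¬(q : ℤ) ∣ D)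
    (e : (q : ℤ) = a ^ 2 + c ^ 2 * (d * (-4 * D) ^ 2)) : jacobiSym D q = 1 := by
  have ho : Odd q := hq.odd_of_ne_two h2
  have ho' := Nat.odd_iff.1 ho
  have h8 : q % 8 = 1 := by
    have e' : (q : ℤ) = a ^ 2 + 16 * (c ^ 2 * d * D ^ 2) := by rw [e]; ring
    have := EpsAux.sq8 a
    generalize a ^ 2 = A at *
    generalize c ^ 2 * d * D ^ 2 = w at *
    omega
  obtain ⟨k, E, hE, hn⟩ := Nat.exists_eq_two_pow_mul_odd (n := D.natAbs) (by omega)
  have hD' : D = -(2 ^ k * (E : ℤ)) := by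
    have : (D.natAbs : ℤ) = 2 ^ k * (E : ℤ) := by exact_mod_cast hn
    omega
  have j1 : jacobiSym q E = 1 :=
    EpsAux.jac_one (x := a) (m := c ^ 2 * d * 16 * (2 ^ k) ^ 2 * E) (by rw [e, hD']; ring)
      (EpsAux.gcd_one hq fun z => hqD (by rw [hD']; exact (z.mul_left _).neg_right))
  rw [jacobiSym.quadratic_reciprocity_one_mod_four (by omega) hE] at j1
  rw [hD', jacobiSym.neg _ ho, jacobiSym.mul_left, jacobiSym.pow_left, jacobiSym.at_two ho, j1,
    ZMod.χ₄_nat_eq_if_mod_four, ZMod.χ₈_nat_eq_if_mod_eight, if_neg (by omega), if_pos (by omega),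
    if_neg (by omega), if_pos (by omega)]
  simp

lemma conj_root {D : ℤ} {r : ℂ} (h0 : D < 0) (hr : r ^ 2 = D) : conj r = -r := by
  have p : (0 : ℝ) ≤ ((-D : ℤ) : ℝ) := by exact_mod_cast (by omega : 0 ≤ -D)
  have : r ^ 2 = (I * ((√((-D : ℤ) : ℝ) : ℝ) : ℂ)) ^ 2 := by
    rw [mul_pow, ← ofReal_pow, Real.sq_sqrt p, hr, ofReal_intCast]
    simp
  rcases sq_eq_sq_iff_eq_or_eq_neg.1 this with z | z <;> rw [z] <;> simp

end Cmp3Aux

open CmpAux Cmp3Aux in
theorem cmp3_of (b : B1) (h2 : PI) (h3 : CAN2) (h4 : INTJ2) (h5 : VLS) : CMP3 := by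
  intro d D r hd hsq hD0 hr
  obtain ⟨M₀, hM, hτf⟩ := EpsAux.base2 hd (f := -4 * D) (by omega)
  refine ⟨M₀, hM, fun ρ₀ hρ₀ => ?_⟩
  by_contra hne
  have hD : D ≠ 0 := hD0.ne
  obtain ⟨iY, iJ⟩ := h4 d M₀ hd hsq hM
  have iJ' : ∀ M : M2, 0 < M.det → IsIntegral ℤ (JJ (act M (act M₀ (om d)))) := fun M h => by
    rw [← act_mul h hM]
    exact (h4 d _ hd hsq (det_mul_pos h hM)).2
  set τ := act M₀ (om d) with hτ
  have ss := sq_sq d
  have d0 : (d : ℂ) ≠ 0 := by exact_mod_cast (by omega : d ≠ 0)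
  have r0 : r ≠ 0 := fun e => hD (by
    rw [e] at hr
    exact_mod_cast (show ((D : ℤ) : ℂ) = 0 by linear_combination -hr))
  have hJr : conj (JJ τ) = JJ τ := by
    have e1 := b.real τ τ (by rw [hτf, map_mul, map_intCast, conj_sq]; ring)
    rw [JJ, map_add, map_pow, ← e1, map_ofNat]
  obtain ⟨ρ, ρs, ρJ, ρr⟩ : ∃ ρ : ℂ ≃+* ℂ, ρ (sq d) = sq d ∧ ρ (JJ τ) = JJ τ ∧ ρ r = -r := by
    have h1 : ρ₀ (sq d) = sq d ∨ ρ₀ (sq d) = -sq d := by
      rw [← sq_eq_sq_iff_eq_or_eq_neg, ← map_pow, ss, map_neg, map_natCast]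
    have h2 : ρ₀ r = r ∨ ρ₀ r = -r := by
      rw [← sq_eq_sq_iff_eq_or_eq_neg, ← map_pow, hr, map_intCast]
    rcases h1 with e | e <;> rcases h2 with e' | e'
    · exact absurd (by rw [map_mul, e, e']) hne
    · exact ⟨ρ₀, e, hρ₀, e'⟩
    · refine ⟨(starRingAut : ℂ ≃+* ℂ).trans ρ₀, ?_, ?_, ?_⟩
      · change ρ₀ (conj (sq d)) = _
        rw [conj_sq, map_neg, e, neg_neg]
      · change ρ₀ (conj (JJ τ)) = _
        rw [hJr, hρ₀]
      · change ρ₀ (conj r) = _
        rw [conj_root hD0 hr, map_neg, e']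
    · exact absurd (by rw [map_mul, e, e', neg_mul_neg]) hne
  have is : IsIntegral ℤ (sq d) := integral_of_sq (n := -d) (by rw [ss]; push_cast; ring)
  have ir : IsIntegral ℤ r := integral_of_sq hr
  obtain ⟨q, hq, hMq, O, hv, vs, vJ, vt⟩ := exists_prime3 h5 (c := D) is iJ ir
    (by rw [hr]; push_cast; ring) r0 ρ ρs ρJ ρr (2 + d + D.natAbs + M₀.det.natAbs)
  have nd : ∀ n : ℤ, n ≠ 0 → n.natAbs < q → ¬(q : ℤ) ∣ n := fun n hn hlt hdv => by
    have := Nat.le_of_dvd (Int.natAbs_pos.2 hn) (Int.natCast_dvd.1 hdv)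
    omega
  have q2 : q ≠ 2 := by omega
  have sO : sq d ∈ O := (h5.int _).1 is O
  have rO : r ∈ O := (h5.int _).1 ir O
  obtain ⟨a, ha⟩ := exists_int O hq hv sO vs
  have v2 : O.valuation (2 * sq d) = 1 := by
    have e1 := int_unit O hq hv (nd 2 (by norm_num) (by simp; omega))
    have e2 := int_unit O hq hv (nd d (by omega) (by simp; omega))
    have e3 : O.valuation (sq d) ^ 2 = 1 := by
      rw [← map_pow, ss, O.valuation.map_neg]
      simpa using e2
    rw [map_mul, (pow_eq_one_iff_of_nonneg zero_le two_ne_zero).1 e3, mul_one]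
    simpa using e1
  have va : O.valuation ((a : ℂ) + sq d) = 1 := by
    have : (a : ℂ) + sq d = (a - sq d) + 2 * sq d := by ring
    rw [this, O.valuation.map_add_eq_of_lt_right (by rw [v2]; exact ha), v2]
  have a0 : (a : ℂ) + sq d ≠ 0 := fun e => by simp [e] at va
  have ad : (a : ℚ) ^ 2 + d ≠ 0 := by positivity
  have ad' : (a : ℂ) ^ 2 + d ≠ 0 := by exact_mod_cast ad
  have ez : ((((a : ℚ) ^ 2 - d) / (a ^ 2 + d) : ℚ) : ℂ) + ((-2 * a / (a ^ 2 + d) : ℚ) : ℂ) * sq d
      = (a - sq d) / (a + sq d) := by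
    push_cast
    field_simp
    linear_combination (-2 * a) * ss
  obtain ⟨-, hp⟩ := h2 d (by omega) hsq O (((a : ℚ) ^ 2 - d) / (a ^ 2 + d))
    (-2 * a / (a ^ 2 + d)) (by field_simp; ring) (by
      rw [ez, map_div₀, va, div_one]
      exact ha.ne)
  obtain ⟨x, y, h, hh, hn, hvx⟩ := (hp q hq hv).2 M₀.det (nd _ hM.ne' (by omega))
  obtain ⟨Q, -, hQ, hQa, hQd⟩ := b.mat.cm d M₀ x y (by omega) hM (by
    by_contra hc
    push Not at hc
    simp [hc.1, hc.2] at hvx)
  obtain ⟨Λ, hΛ, hΛa, -, -⟩ := h3 O q hq hv τ Q h 1 hh (hQ.trans hn) hQa (by rw [hQd]; exact hvx)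
    iJ' (by simpa using vJ)
  have qD := nd D hD (by omega)
  rw [pow_one] at hΛ
  obtain ⟨f1, f2⟩ := EpsAux.fix (τ := τ) (t := 0) (n := d * (-4 * D) ^ 2) (by
    rw [hτf]
    push_cast
    linear_combination (-4 * (D : ℂ)) ^ 2 * ss) (by rw [hΛ]; exact_mod_cast hq.pos) hΛa
  rw [zero_mul, add_zero] at f1
  have j1 : jacobiSym D q = 1 := jac (d := d) (a := Λ 1 1) (c := Λ 1 0) hD0 hq q2 qD (by
    rw [← hΛ, Matrix.det_fin_two, f1, f2]
    ring)
  have := Fact.mk hq
  have eul : (q : ℤ) ∣ D ^ (q / 2) - jacobiSym D q := by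
    rw [← ZMod.intCast_zmod_eq_zero_iff_dvd, ← jacobiSym.legendreSym.to_jacobiSym]
    push_cast
    rw [legendreSym.eq_pow, sub_self]
  have v3 := int_dvd O hv eul
  have rq : r ^ q = r * (D : ℂ) ^ (q / 2) := by
    have : q = 2 * (q / 2) + 1 := by
      have := Nat.odd_iff.1 (hq.odd_of_ne_two q2)
      omega
    rw [← hr, ← pow_mul, ← pow_succ', ← this]
  apply vt
  have fin : r ^ q - r = r * ((D ^ (q / 2) - jacobiSym D q : ℤ) : ℂ) := by
    rw [rq, j1]
    push_cast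
    ring
  rw [fin]
  exact lt_mul O rO v3

end Pool.Agent.MP_c481b3_nt.H31F
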