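import Pool.Agent.MP_c481b3_nt.H31F.Spec2
import Pool.Agent.MP_c481b3_nt.H28K.Win
import Pool.Agent.MP_c481b3_nt.H28K.PntAP

set_option autoImplicit false

namespace Pool.Agent.MP_c481b3_nt.H31F

open Filter Finset

namespace CntAux

lemma cls {d l : ℕ} (hd : 0 < d) (hl : l.Prime) (h5 : 5 ≤ l) : ∃ a : ZMod (4 * d * l), IsUnit a ∧
    ∀ r : ℕ, r.Prime → (r : ZMod (4 * d * l)) = a → ¬IsSquare (-(d : ZMod r)) ∧ ¬l ∣ r + 1 := by
  obtain ⟨b, b1, b2, b3⟩ := Nat.forall_exists_prime_gt_and_modEq (4 * d * l) hl.ne_zero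
    ((Nat.coprime_primes Nat.prime_two hl).2 (by omega))
  have hq : 0 < 4 * d * l := by positivity
  have cb : b.Coprime (4 * d * l) := Nat.coprime_of_lt_prime hq.ne' b1 b2
  refine ⟨-(b : ZMod _) ^ 2, (((ZMod.isUnit_iff_coprime _ _).2 cb).pow 2).neg, fun r hr e => ?_⟩
  have h0 : 4 * d * l ∣ r + b ^ 2 := by
    rw [← ZMod.natCast_eq_zero_iff]; push_cast; rw [e]; ring
  constructor
  · obtain ⟨e, he⟩ : ∃ e, 4 * d = e + 1 := ⟨4 * d - 1, by omega⟩
    have := Fact.mk hr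
    have c4 : b.Coprime (4 * d) := cb.coprime_mul_right_right
    have ob : Odd b := b2.odd_of_ne_two (by nlinarith)
    have oe : Odd e := Nat.odd_iff.2 (by omega)
    have h3 : r ≡ e * b ^ 2 [MOD 4 * d] := by
      apply Nat.ModEq.add_right_cancel' (b ^ 2)
      rw [show e * b ^ 2 + b ^ 2 = 4 * d * b ^ 2 by rw [he]; ring]
      exact (Nat.modEq_zero_iff_dvd.2 ((dvd_mul_right _ _).trans h0)).trans
        (Nat.modEq_zero_iff_dvd.2 (dvd_mul_right _ _)).symm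
    have h4 : r % 4 = 3 := by
      have h1 : 4 ∣ r + b ^ 2 := ((dvd_mul_right 4 d).trans (dvd_mul_right _ _)).trans h0
      obtain ⟨k, rfl⟩ := ob
      rw [show r + (2 * k + 1) ^ 2 = 4 * (k ^ 2 + k) + (r + 1) by ring] at h1
      omega
    have ol : Odd r := Nat.odd_iff.2 (by omega)
    have e1 : jacobiSym (d : ℤ) e = 1 := by
      have : (d : ℤ) ≡ (2 * d) ^ 2 [ZMOD e] := Int.modEq_iff_dvd.2 ⟨d, by
        have : (e : ℤ) = 4 * d - 1 := by omega
        rw [this]; ring⟩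
      rw [jacobiSym.mod_left' this, jacobiSym.sq_one']
      exact Int.isCoprime_iff_gcd_eq_one.1 ⟨2, -1, by
        have : (e : ℤ) = 4 * d - 1 := by omega
        rw [this]; ring⟩
    have e2 : jacobiSym (-(d : ℤ)) r = -1 := by
      rw [jacobiSym.neg _ ol, ZMod.χ₄_nat_three_mod_four h4, jacobiSym.mod_right' d ol, h3,
        ← jacobiSym.mod_right' d (oe.mul ob.pow),
        jacobiSym.mul_right' _ (by omega) (pow_ne_zero 2 b2.ne_zero), e1, jacobiSym.pow_right,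
        jacobiSym.sq_one (by exact_mod_cast c4.coprime_mul_left_right.symm), mul_one, mul_one]
    simpa using ZMod.nonsquare_of_jacobiSym_eq_neg_one e2
  · intro h1
    have h2 : l ∣ r + 2 ^ 2 := (Nat.modEq_zero_iff_dvd.1 (((b3.pow 2).add_left r).symm.trans
      (Nat.modEq_zero_iff_dvd.2 ((dvd_mul_left _ _).trans h0))))
    have := Nat.le_of_dvd (by decide) ((Nat.dvd_add_right h1).1 (show l ∣ r + 1 + 3 from h2))
    omega

lemma size (C : ℝ) (hC : 1 ≤ C) (B : ℕ) : ∀ᶠ L : ℝ in atTop, ∃ y : ℕ, B ≤ y ∧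
    C * (2 * y) ^ 3 * Real.log (2 * y) ^ 2 ≤ L ∧
    L ^ (1 / 3 : ℝ) / Real.log L ^ (5 / 3 : ℝ) ≤ 4 * C * (y / Real.log y) := by
  have h := (isLittleO_log_rpow_rpow_atTop (2 / 3) (show (0 : ℝ) < 1 / 3 by norm_num)).bound
    (show 0 < (2 * C * (B + 3))⁻¹ by positivity)
  filter_upwards [h, eventually_ge_atTop 1, Real.tendsto_log_atTop.eventually_ge_atTop 1]
    with L h1 h2 h3
  obtain ⟨u, hu⟩ : ∃ u, u = L ^ (1 / 3 : ℝ) := ⟨_, rfl⟩
  obtain ⟨v, hv⟩ : ∃ v, v = Real.log L ^ (1 / 3 : ℝ) := ⟨_, rfl⟩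
  have u1 : 1 ≤ u := hu ▸ Real.one_le_rpow h2 (by norm_num)
  have v1 : 1 ≤ v := hv ▸ Real.one_le_rpow h3 (by norm_num)
  have pv : ∀ n : ℕ, Real.log L ^ (n / 3 : ℝ) = v ^ n := fun n => by
    rw [hv, ← Real.rpow_natCast, ← Real.rpow_mul (by linarith)]; congr 1; ring
  have u3 : u ^ 3 = L := by
    rw [hu, ← Real.rpow_natCast, ← Real.rpow_mul (by linarith)]; norm_num
  have v2 := pv 2
  have v3 := pv 3
  have v5 := pv 5
  norm_num at v2 v3 v5
  rw [v2, ← hu, Real.norm_of_nonneg (by positivity), Real.norm_of_nonneg (by positivity),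
    le_inv_mul_iff₀ (by positivity)] at h1
  rw [v5, ← hu]
  obtain ⟨Y, hY⟩ : ∃ Y, Y = u / (2 * C * v ^ 2) := ⟨_, rfl⟩
  have Y1 : (B : ℝ) + 3 ≤ Y := by rw [hY, le_div_iff₀ (by positivity)]; linarith
  have Y2 : Y * (2 * C * v ^ 2) = u := by rw [hY]; field_simp
  have B0 : (0 : ℝ) ≤ B := Nat.cast_nonneg B
  have y1 : (⌊Y⌋₊ : ℝ) ≤ Y := Nat.floor_le (by linarith)
  have y2 : Y < ⌊Y⌋₊ + 1 := Nat.lt_floor_add_one Y
  generalize ⌊Y⌋₊ = y at y1 y2
  have y3 : 2 * (y : ℝ) * (C * v ^ 2) ≤ u := by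
    rw [← Y2]; nlinarith [mul_le_mul_of_nonneg_right y1 (show 0 ≤ C * v ^ 2 by positivity)]
  have c1 : 1 ≤ C * v ^ 2 := one_le_mul_of_one_le_of_one_le hC (one_le_pow₀ v1)
  have y4 : 2 * (y : ℝ) ≤ L := by
    have : u ≤ u ^ 3 := le_self_pow₀ u1 (by decide)
    nlinarith
  have l1 : Real.log (2 * y) ≤ v ^ 3 := v3 ▸ Real.log_le_log (by linarith) y4
  have l2 : Real.log y ≤ v ^ 3 := (Real.log_le_log (by linarith) (by linarith)).trans l1
  have l3 : 0 < Real.log y := Real.log_pos (by linarith)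
  refine ⟨y, by exact_mod_cast (show (B : ℝ) ≤ y by linarith), ?_, ?_⟩
  · calc C * (2 * y) ^ 3 * Real.log (2 * y) ^ 2 ≤ C ^ 3 * (2 * y) ^ 3 * (v ^ 3) ^ 2 := by
          have := Real.log_nonneg (show (1 : ℝ) ≤ 2 * y by linarith)
          gcongr
          exact le_self_pow₀ hC (by decide)
      _ = (2 * (y : ℝ) * (C * v ^ 2)) ^ 3 := by ring
      _ ≤ L := by rw [← u3]; gcongr
  · calc u / v ^ 5 = 2 * C * (Y / v ^ 3) := by rw [← Y2]; field_simp
      _ ≤ 2 * C * ((2 * y) / Real.log y) := by gcongr; linarith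
      _ = _ := by ring

end CntAux

open CntAux

theorem cnt : CNT := by
  classical
  intro ι nm S d l R C f g hd hl h5 hfin hf hg
  obtain ⟨a, ha, hr⟩ := cls hd hl h5
  obtain ⟨c, hc, N, hN⟩ := H28K.win_of H28K.pntAP (4 * d * l) 2
    (by have := hl.pos; positivity) (by norm_num)
  have C1 : 1 ≤ max C 1 := le_max_right _ _
  have C2 : C ≤ max C 1 := le_max_left _ _
  generalize max C 1 = D at C1 C2
  refine ⟨c / (12 * D), by positivity, ?_⟩
  filter_upwards [Real.tendsto_log_atTop.eventually (size D C1 (N + R + ⌈8 * D⌉₊ + 1)),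
    eventually_gt_atTop 0] with x ⟨y, y1, y2, y3⟩ hx
  have h1 := hN a y ha (by omega)
  set T := (range ⌈2 * (y : ℝ)⌉₊).filter
    fun r => y < r ∧ r.Prime ∧ (r : ZMod (4 * d * l)) = a with hT
  have y4 : 8 * D < y := by
    have := Nat.le_ceil (8 * D)
    have : ((⌈8 * D⌉₊ + 1 : ℕ) : ℝ) ≤ y := by exact_mod_cast (by omega : ⌈8 * D⌉₊ + 1 ≤ y)
    push_cast at this
    linarith
  have mT : ∀ r ∈ T, Gd d l R r ∧ y < r ∧ (r : ℝ) ≤ 2 * y := fun r h => by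
    obtain ⟨a1, a2, a3, a4⟩ := mem_filter.1 h
    exact ⟨⟨a3, by omega, hr r a3 a4⟩, a2, (Nat.lt_ceil.1 (mem_range.1 a1)).le⟩
  have h2 : T.card ≤ 3 * (T.image f).card := by
    refine card_le_mul_card_image T 3 fun P hP => ?_
    obtain ⟨r, m, rfl⟩ := mem_image.1 hP
    obtain ⟨r1, r2, r3⟩ := mT r m
    obtain ⟨-, g1, g2, -⟩ := hf r r1
    by_contra h4
    have k1 := Nat.le_of_dvd g1 (Finset.prod_primes_dvd (s := T.filter fun s => f s = f r) (g r)
      (fun s hs => (mT s (mem_filter.1 hs).1).1.1.prime)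
      fun s hs => hg r s r1 (mT s (mem_filter.1 hs).1).1 (mem_filter.1 hs).2.symm)
    have k2 := Finset.pow_card_le_prod (T.filter fun s => f s = f r) (fun s => s) y
      fun s hs => (mT s (mem_filter.1 hs).1).2.1.le
    have k3 : y ^ 4 ≤ g r := (Nat.pow_le_pow_right (by omega) (by omega)).trans (k2.trans k1)
    have k4 : (y : ℝ) ^ 4 ≤ D * (2 * y) ^ 3 :=
      calc (y : ℝ) ^ 4 ≤ g r := by exact_mod_cast k3
        _ ≤ C * r ^ 3 := g2
        _ ≤ _ := by gcongr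
    have y0 : 0 < (y : ℝ) ^ 3 := pow_pos (by linarith) 3
    nlinarith
  have h3 : (T.image f).card ≤ {P | P ∈ S ∧ (nm P : ℝ) ≤ x}.ncard := by
    rw [← Set.ncard_coe_finset]
    refine Set.ncard_le_ncard (fun P hP => ?_) ((hfin x).subset fun P hP => hP.2)
    obtain ⟨r, m, rfl⟩ := mem_image.1 hP
    obtain ⟨r1, r2, r3⟩ := mT r m
    obtain ⟨g0, -, -, g2⟩ := hf r r1
    refine ⟨g0, g2.trans ?_⟩
    rw [← Real.le_log_iff_exp_le hx]
    refine le_trans ?_ y2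
    have := Real.log_natCast_nonneg r
    have : (0 : ℝ) < r := by exact_mod_cast r1.1.pos
    gcongr
  have h4 : (T.card : ℝ) ≤ 3 * ({P | P ∈ S ∧ (nm P : ℝ) ≤ x}.ncard : ℝ) := by
    exact_mod_cast h2.trans (Nat.mul_le_mul_left 3 h3)
  calc c / (12 * D) * Real.log x ^ (1 / 3 : ℝ) / Real.log (Real.log x) ^ (5 / 3 : ℝ)
      = c / (12 * D) * (Real.log x ^ (1 / 3 : ℝ) / Real.log (Real.log x) ^ (5 / 3 : ℝ)) := by ring
    _ ≤ c / (12 * D) * (4 * D * (y / Real.log y)) := by gcongr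
    _ = c * y / Real.log y / 3 := by field_simp; ring
    _ ≤ _ := by linarith

end Pool.Agent.MP_c481b3_nt.H31F
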