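import Pool.Agent.MP_c481b3_nt.H31F.Spec

set_option autoImplicit false

namespace Pool.Agent.MP_c481b3_nt.H31F

namespace DecAux

open Finset

theorem fin_case (G A : Type) [Group G] [Finite G] [CommRing A] [MulSemiringAction G A]
    (P : Ideal A) (hP : P.IsPrime) (u : A)
    (hu : ∀ g : G, (∀ a ∈ P, g • a ∈ P) → g • u = u) :
    ∃ a b : A, (∀ g : G, g • a = a) ∧ (∀ g : G, g • b = b) ∧ b ∉ P ∧ b * u - a ∈ P := by
  classical
  haveI := Fintype.ofFinite G
  let D : G → Prop := fun g => ∀ a ∈ P, g • a ∈ P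
  have Dmul : ∀ g h, D g → D h → D (g * h) := fun g h hg hh a ha => by
    rw [mul_smul]; exact hg _ (hh a ha)
  have Done : D 1 := fun a ha => by rwa [one_smul]
  have Dpow : ∀ g, D g → ∀ n : ℕ, D (g ^ n) := fun g hg n => by
    induction n with
    | zero => simpa using Done
    | succ n ih => rw [pow_succ]; exact Dmul _ _ ih hg
  have Dinv : ∀ g, D g → D g⁻¹ := fun g hg => by
    have h1 : g⁻¹ = g ^ (orderOf g - 1) := by
      rw [inv_eq_iff_mul_eq_one, ← pow_succ', Nat.sub_add_cancel (orderOf_pos g),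
        pow_orderOf_eq_one]
    rw [h1]; exact Dpow g hg _
  have hx : ∀ g, ∃ x, ¬D g → x ∈ P ∧ g • x ∉ P := fun g => by
    by_cases h : D g
    · exact ⟨0, fun h' => absurd h h'⟩
    · simp only [D, not_forall] at h
      obtain ⟨x, h1, h2⟩ := h
      exact ⟨x, fun _ => ⟨h1, h2⟩⟩
  choose x hx using hx
  let e : A := ∏ g ∈ univ.filter (fun g => ¬D g), g • x g
  have he : e ∉ P := by
    intro h
    obtain ⟨g, hg, h'⟩ := (Ideal.IsPrime.prod_mem_iff (hp := hP)).1 h
    exact (hx g (mem_filter.1 hg).2).2 h'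
  let e' : A := ∏ g ∈ univ.filter D, g • e
  have he' : e' ∉ P := by
    intro h
    obtain ⟨g, hg, h'⟩ := (Ideal.IsPrime.prod_mem_iff (hp := hP)).1 h
    have := Dinv g (mem_filter.1 hg).2 _ h'
    rw [inv_smul_smul] at this
    exact he this
  have hD : ∀ g, D g → g • e' = e' := fun g hg => by
    simp only [e', smul_prod']
    refine prod_bij' (fun h _ => g * h) (fun h _ => g⁻¹ * h) ?_ ?_ ?_ ?_ ?_
    · intro h hh; exact mem_filter.2 ⟨mem_univ _, Dmul _ _ hg (mem_filter.1 hh).2⟩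
    · intro h hh; exact mem_filter.2 ⟨mem_univ _, Dmul _ _ (Dinv g hg) (mem_filter.1 hh).2⟩
    · intro h _; simp
    · intro h _; simp
    · intro h _; rw [mul_smul]
  have hN : ∀ g, ¬D g → g • e' ∈ P := fun g hg => by
    have hg' : ¬D g⁻¹ := fun h => hg (by simpa using Dinv _ h)
    have h1 : g⁻¹ • x g⁻¹ ∣ e := dvd_prod_of_mem (fun g => g • x g) (mem_filter.2 ⟨mem_univ _, hg'⟩)
    have h2 : (1 : G) • e ∣ e' := dvd_prod_of_mem (fun g => g • e) (mem_filter.2 ⟨mem_univ _, Done⟩)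
    rw [one_smul] at h2
    obtain ⟨c, hc⟩ := h1.trans h2
    rw [hc, smul_mul', smul_inv_smul]
    exact P.mul_mem_right _ (hx _ hg').1
  let z0 : A × A := (e', e' * u)
  let S : Finset (A × A) := univ.image fun g : G => g • z0
  have hS : ∀ g : G, g • (∑ z ∈ S, z) = ∑ z ∈ S, z := fun g => by
    rw [smul_sum]
    refine sum_bij' (fun z _ => g • z) (fun z _ => g⁻¹ • z) ?_ ?_ ?_ ?_ ?_
    · intro z hz
      obtain ⟨h, -, rfl⟩ := mem_image.1 hz
      exact mem_image.2 ⟨g * h, mem_univ _, mul_smul _ _ _⟩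
    · intro z hz
      obtain ⟨h, -, rfl⟩ := mem_image.1 hz
      exact mem_image.2 ⟨g⁻¹ * h, mem_univ _, mul_smul _ _ _⟩
    · intro z _; simp
    · intro z _; simp
    · intro z _; rfl
  have h0 : z0 ∈ S := mem_image.2 ⟨1, mem_univ _, one_smul _ _⟩
  have hr : ∀ z ∈ S.erase z0, z.1 ∈ P ∧ z.2 ∈ P := fun z hz => by
    obtain ⟨hne, hz⟩ := mem_erase.1 hz
    obtain ⟨g, -, rfl⟩ := mem_image.1 hz
    by_cases hg : D g
    · exact absurd (Prod.ext (hD g hg) (by
        change g • (e' * u) = e' * u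
        rw [smul_mul', hD g hg, hu g hg])) hne
    · refine ⟨hN g hg, ?_⟩
      change g • (e' * u) ∈ P
      rw [smul_mul']
      exact P.mul_mem_right _ (hN g hg)
  have h1 : (∑ z ∈ S, z).1 - e' ∈ P := by
    rw [← add_sum_erase S _ h0, Prod.fst_add, Prod.fst_sum]
    simpa [z0] using P.sum_mem fun z hz => (hr z hz).1
  have h2 : (∑ z ∈ S, z).2 - e' * u ∈ P := by
    rw [← add_sum_erase S _ h0, Prod.snd_add, Prod.snd_sum]
    simpa [z0] using P.sum_mem fun z hz => (hr z hz).2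
  refine ⟨(∑ z ∈ S, z).2, (∑ z ∈ S, z).1, fun g => congrArg Prod.snd (hS g),
    fun g => congrArg Prod.fst (hS g), fun h => he' ?_, ?_⟩
  · simpa using P.sub_mem h h1
  · have := P.sub_mem (P.mul_mem_right u h1) h2
    convert this using 1
    ring

end DecAux

theorem dec : DEC := by
  intro G A _ _ _ H hH hact P hP u hu
  let φ : G →* RingAut A := MulSemiringAction.toRingAut G A
  have hφ : ∀ g a, φ g a = g • a := fun g a => rfl
  have hle : H ≤ φ.ker := fun h hh => by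
    rw [MonoidHom.mem_ker]
    ext a
    exact hact h hh a
  haveI : φ.ker.FiniteIndex := Subgroup.finiteIndex_of_le hle
  haveI : Finite φ.range :=
    Finite.of_equiv _ (QuotientGroup.quotientKerEquivRange φ).toEquiv
  obtain ⟨a, b, ha, hb, h1, h2⟩ := DecAux.fin_case φ.range A P hP u (by
    rintro ⟨_, g, rfl⟩ hg
    exact hu g hg)
  exact ⟨a, b, fun g => ha ⟨φ g, g, rfl⟩, fun g => hb ⟨φ g, g, rfl⟩, h1, h2⟩

end Pool.Agent.MP_c481b3_nt.H31F
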