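import Pool.Agent.MP_c481b3_nt.H31F.Spec

set_option autoImplicit false

namespace Pool.Agent.MP_c481b3_nt.H31F

open UpperHalfPlane hiding I
open Complex Polynomial Filter Topology
open scoped Manifold MatrixGroups Real ModularForm

namespace IntjAux

/-- the first term of a series -/
def Top (F : LS ℂ) (n : ℤ) (c : ℂ) : Prop := F.coeff n = c ∧ ∀ m, m < n → F.coeff m = 0

lemma Top.lc {F : LS ℂ} {n : ℤ} {c : ℂ} (h : Top F n c) (hc : c ≠ 0) : F.leadingCoeff = c := by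
  have h1 : F.coeff n ≠ 0 := h.1 ▸ hc
  have h0 : F ≠ 0 := by rintro rfl; exact h1 rfl
  have h2 := HahnSeries.order_le_of_coeff_ne_zero h1
  rw [HahnSeries.leadingCoeff_eq, ← h.1]
  rcases h2.eq_or_lt with e | e
  · rw [e]
  · exact absurd (h.2 _ e) (mt HahnSeries.coeff_order_eq_zero.1 h0)

lemma Top.sb {F : LS ℂ} {n : ℤ} {c : ℂ} (h : Top F n c) {e : ℕ} (he : 0 < e) (u : ℂˣ) :
    Top (sb u e F) (e * n) (((u ^ n : ℂˣ) : ℂ) * c) := by
  refine ⟨by rw [coeff_sb_mul he, h.1], fun m hm => ?_⟩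
  rw [coeff_sb he]
  split_ifs with hd
  · obtain ⟨k, rfl⟩ := hd
    have he' : (0 : ℤ) < e := by exact_mod_cast he
    rw [Int.mul_ediv_cancel_left _ he'.ne', h.2 k (lt_of_mul_lt_mul_left hm he'.le), mul_zero]
  · rfl

lemma Top.sub_left {F G : LS ℂ} {n m : ℤ} {c c' : ℂ} (h : Top F n c) (h' : Top G m c')
    (hl : n < m) : Top (F - G) n c :=
  ⟨by rw [HahnSeries.coeff_sub, h.1, h'.2 n hl, sub_zero], fun k hk => by
    rw [HahnSeries.coeff_sub, h.2 k hk, h'.2 k (hk.trans hl), sub_zero]⟩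

lemma Top.sub_right {F G : LS ℂ} {n m : ℤ} {c c' : ℂ} (h : Top F n c) (h' : Top G m c')
    (hl : m < n) : Top (F - G) m (-c') :=
  ⟨by rw [HahnSeries.coeff_sub, h'.1, h.2 m hl, zero_sub], fun k hk => by
    rw [HahnSeries.coeff_sub, h'.2 k hk, h.2 k (hk.trans hl), sub_zero]⟩

lemma top_aeval (b : B2) (T : ℂ[X]) :
    Top (aeval (Yc ℂ) T) (-T.natDegree) T.leadingCoeff := b.pol.top ℂ T

lemma val_ru (b : B2) (O : ValuationSubring ℂ) (r : ℚ) : O.valuation (ru r : ℂ) = 1 := by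
  obtain ⟨-, -, -, -, -, h⟩ := b.mr O 1 one_pos
  have h1 := (O.valuation_le_one_iff _).2 (h r).1
  have h2 := (O.valuation_le_one_iff _).2 (h (-r)).1
  have e : (ru r : ℂ) * ru (-r) = 1 := by
    simp only [ru, Units.val_mk0, ← Complex.exp_add]
    push_cast
    simp
  have e2 := congrArg O.valuation e
  rw [map_mul, map_one] at e2
  refine le_antisymm h1 ?_
  calc 1 = _ := e2.symm
    _ ≤ O.valuation (ru r : ℂ) * 1 := by gcongr
    _ = _ := mul_one _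

lemma mem_of_root (O : ValuationSubring ℂ) {P : ℂ[X]} (h1 : ∀ n, P.coeff n ∈ O)
    (h2 : O.valuation P.leadingCoeff = 1) {y : ℂ} (hy : P.eval y = 0) : y ∈ O := by
  have h0 : P.leadingCoeff ≠ 0 := fun e => by simp [e] at h2
  have hi : P.leadingCoeff⁻¹ ∈ O := by
    rw [← O.valuation_le_one_iff, map_inv₀, h2, inv_one]
  have hm : (P * C P.leadingCoeff⁻¹).Monic := monic_mul_leadingCoeff_inv (leadingCoeff_ne_zero.1 h0)
  have hl : P * C P.leadingCoeff⁻¹ ∈ lifts (algebraMap O ℂ) := by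
    rw [lifts_iff_coeff_lifts]
    intro n
    rw [coeff_mul_C]
    exact ⟨⟨_, mul_mem (h1 n) hi⟩, rfl⟩
  obtain ⟨Q, hQ, -, hQ'⟩ := lifts_and_natDegree_eq_and_monic hl hm
  have : IsIntegral O y := ⟨Q, hQ', by rw [eval₂_eq_eval_map, hQ, eval_mul, hy, zero_mul]⟩
  obtain ⟨z, rfl⟩ := IsIntegrallyClosed.isIntegral_iff.1 this
  exact z.2

lemma ru_zero : ru (((0 : ℤ) : ℚ) / (((1 : ℕ) : ℚ) * ((1 : ℕ) : ℚ))) = 1 := by
  ext; simp [ru]

lemma asyY (b : B2) {N : ℕ} (hN : 0 < N) : Asy N YY (sb 1 N (Yc ℂ)) := by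
  have h1 := b.sub 1 N 1 1 N 0 one_pos hN one_pos one_pos (by ring) YY _ b.y2.aY
  have e : (!![((1 : ℕ) : ℤ), 0; 0, ((1 : ℕ) : ℤ)] : M2) = 1 := by
    rw [Matrix.one_fin_two]; simp
  simpa only [e, act_one, ru_zero] using h1

lemma Yc_mem (R : Subring ℂ) : Yc ℂ ∈ ovr R := mem_ovr.2 fun n => by
  simp only [Yc, coeff_mapL, eq_intCast]
  exact intCast_mem _ _

lemma factor (b : B2) (O : ValuationSubring ℂ) {d : ℕ} (h1 : 1 < d) (hs : Squarefree d)
    (H : M2) (hH : H ∈ Hk 1 d) : 0 < H.det ∧ ∃ G ∈ ovr O.toSubring,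
      O.valuation G.leadingCoeff = 1 ∧ Asy d (fun τ => JJ τ - JJ (act H τ)) G := by
  obtain ⟨a, c, t, ha, hc, hac, -, rfl⟩ := (b.mat.mem 1 d H).1 hH
  have hd : 0 < d := by omega
  have haa : 0 < a * a := Nat.mul_pos ha ha
  refine ⟨by simp [ha, hc], ?_⟩
  obtain ⟨hC, hA, hM, -⟩ := b.ring d hd
  obtain ⟨-, -, -, -, -, hr⟩ := b.mr O 1 one_pos
  set u := ru ((((1 * t : ℕ) : ℤ) : ℚ) / ((c : ℚ) * ((1 : ℕ) : ℚ))) with hu
  have h2 := b.sub 1 d a c (a * a) ((1 * t : ℕ) : ℤ) one_pos hd ha hc (by rw [← hac]; ring) YY _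
    b.y2.aY
  have h3 := asyY b hd
  have h4 := hA _ _ _ _ (hM _ _ _ _ h3 h3) (hM _ _ _ _ (hC (-1)) (hM _ _ _ _ h2 h2))
  have t0 : Top (Yc ℂ ^ 2) (-2) 1 := by
    have := top_aeval b (X ^ 2)
    rwa [natDegree_X_pow, leadingCoeff_X_pow, map_pow, aeval_X] at this
  have t1 := t0.sb hd 1
  have t2 := t0.sb haa u
  have hne : a * a ≠ d := by
    intro e
    have : IsUnit a := hs a ⟨1, by rw [e, mul_one]⟩
    rw [Nat.isUnit_iff] at this
    rw [this] at e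
    omega
  refine ⟨sb 1 d (Yc ℂ ^ 2) - sb u (a * a) (Yc ℂ ^ 2), ?_, ?_, ?_⟩
  · refine sub_mem ?_ ((hr _).2 _ (pow_mem (Yc_mem _) 2) _ haa)
    rw [← ru_zero]
    exact (hr _).2 _ (pow_mem (Yc_mem _) 2) _ hd
  · rcases hne.lt_or_gt with e | e
    · rw [(t1.sub_left t2 (by omega)).lc (by simp)]
      simp
    · rw [(t1.sub_right t2 (by omega)).lc (by simp), mul_one, Valuation.map_neg,
        Units.val_zpow_eq_zpow_val, map_zpow₀, hu, val_ru b, one_zpow]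
  · have e1 : (fun τ => JJ τ - JJ (act !![(a : ℤ), ((1 * t : ℕ) : ℤ); 0, (c : ℤ)] τ)) = fun τ =>
        YY τ * YY τ + -1 * (YY (act !![(a : ℤ), ((1 * t : ℕ) : ℤ); 0, (c : ℤ)] τ) *
          YY (act !![(a : ℤ), ((1 * t : ℕ) : ℤ); 0, (c : ℤ)] τ)) := by
      funext τ; simp only [JJ]; ring
    have e2 : sb 1 d (Yc ℂ ^ 2) - sb u (a * a) (Yc ℂ ^ 2) = sb 1 d (Yc ℂ) * sb 1 d (Yc ℂ) +
        HahnSeries.C (-1) * (sb u (a * a) (Yc ℂ) * sb u (a * a) (Yc ℂ)) := by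
      simp only [map_pow, map_neg, map_one]; ring
    rw [e1, e2]
    exact h4

lemma lc_prod {ι : Type} (s : Finset ι) (G : ι → LS ℂ) :
    (∏ i ∈ s, G i).leadingCoeff = ∏ i ∈ s, (G i).leadingCoeff := by
  classical
  induction s using Finset.induction_on with
  | empty => simp
  | insert i s hi ih => rw [Finset.prod_insert hi, Finset.prod_insert hi,
      HahnSeries.leadingCoeff_mul, ih]

lemma holJ (b : B2) : Hol JJ := (b.y1.hY.pow 2).add mdifferentiable_const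

lemma hol_prod {ι : Type} (s : Finset ι) (f : ι → ℍ → ℂ) (h : ∀ i ∈ s, Hol (f i)) :
    Hol fun τ => ∏ i ∈ s, f i τ := by
  classical
  induction s using Finset.induction_on with
  | empty => simpa using mdifferentiable_const
  | insert i s hi ih =>
    simp only [Finset.prod_insert hi]
    exact (h i (by simp)).mul (ih fun j hj => h j (by simp [hj]))

lemma base (b : B2) (O : ValuationSubring ℂ) {d : ℕ} (h1 : 1 < d) (hs : Squarefree d) :
    YY (om d) ∈ O := by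
  have hd : 0 < d := by omega
  choose! hpos G hG hv hA using factor b O h1 hs
  obtain ⟨-, -, -, -, -, -, -, hP⟩ := b.ring d hd
  have h2 := (hP M2 (Hk 1 d) (fun H τ => JJ τ - JJ (act H τ)) G hA).2
  obtain ⟨P, p1, -, p3, p4⟩ := (b.lv d O.toSubring _ _ hd (hol_prod _
    (fun H τ => JJ τ - JJ (act H τ)) fun H hH =>
    (holJ b).sub ((holJ b).act (hpos H hH))) h2 (prod_mem hG)).1 0 (by
      intro γ τ hγ
      obtain ⟨σ, hσ, hσ'⟩ := b.mat.perm 1 d γ (Nat.coprime_one_left d) hγ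
      rw [pow_zero, one_mul]
      refine Finset.prod_nbij σ hσ.mapsTo hσ.injOn hσ.surjOn fun H hH => ?_
      obtain ⟨γ', g1, g2, -⟩ := hσ' H hH
      rw [b.y1.tJ _ _ hγ, ← act_mul (hpos H hH) (by rw [hγ]; exact one_pos), g2,
        act_mul (by rw [g1]; exact one_pos) (hpos _ (hσ.mapsTo hH)), b.y1.tJ _ _ g1])
  have hv' : O.valuation (∏ H ∈ Hk 1 d, G H).leadingCoeff = 1 := by
    rw [lc_prod, map_prod, Finset.prod_eq_one hv]
  have hP0 : P ≠ 0 := by
    rintro rfl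
    rw [p4] at hv'
    simp at hv'
  have t := (top_aeval b P).sb hd 1
  rw [sb_aeval hd, sb_one, ← p4] at t
  rw [t.lc (by simpa using hP0)] at hv'
  refine mem_of_root O p1 (by simpa using hv') ?_
  rw [← p3]
  obtain ⟨Q, q1, q2, q3⟩ : ∃ Q : M2, 0 < Q.det ∧ Q.det = d ∧ act Q (om d) = om d := by
    by_cases h4 : d % 4 = 3
    · obtain ⟨Q, q1, q2, q3, -⟩ := b.mat.cm d 1 (-1) 2 hd (by simp) (by simp)
      refine ⟨Q, q1, ?_, by simpa only [act_one] using q3⟩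
      rw [q2]
      simp only [tt, nn, if_pos h4, Matrix.det_one]
      omega
    · obtain ⟨Q, q1, q2, q3, -⟩ := b.mat.cm d 1 0 1 hd (by simp) (by simp)
      refine ⟨Q, q1, ?_, by simpa only [act_one] using q3⟩
      rw [q2]
      simp [tt, nn, if_neg h4]
  obtain ⟨γ, H, hH, g1, rfl⟩ := b.mat.hnf 1 d Q hd (Nat.coprime_one_left d) q2
  refine Finset.prod_eq_zero hH ?_
  rw [act_mul (by rw [g1]; exact one_pos) (hpos H hH)] at q3
  rw [← b.y1.tJ γ (act H _) g1, q3, sub_self]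

end IntjAux

open IntjAux in
theorem intj_of (b : B2) (h : VLS) : INTJ := by
  intro d M h1 hs hM
  have hY : IsIntegral ℤ (YY (act M (om d))) := by
    rw [h.int]
    intro O
    obtain ⟨N, hN⟩ := Int.eq_ofNat_of_zero_le hM.le
    have hN' : 0 < N := by omega
    exact (b.chp O N _ hN' (b.my.2 O N M hN' hM (by rw [hN])).1).2 _ (base b O h1 hs)
  refine ⟨hY, (hY.pow 2).add ?_⟩
  simpa using isIntegral_algebraMap (R := ℤ) (A := ℂ) (x := 1728)

end Pool.Agent.MP_c481b3_nt.H31F
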