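import Pool.Agent.MP_c481b3_nt.H31F.Spec2
import Pool.Agent.MP_c481b3_nt.H31F.Can1
import Pool.Agent.MP_c481b3_nt.H31F.Intj

set_option autoImplicit false

namespace Pool.Agent.MP_c481b3_nt.H31F

open UpperHalfPlane hiding I
open Complex Polynomial Finset Can1Aux IntjAux

namespace DprAux

variable (b : B2) {m : ℕ}
include b

lemma shape {H : M2} (h : H ∈ Hk 2 m) : H.det = m ∧ (∀ τ, den H τ = H 1 1) ∧
    ∃ G : LS ℂ, ‖G.leadingCoeff‖ = 1 ∧ Asy m (fun τ => dl (act H τ)) G := by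
  obtain ⟨a, d, c, ha, hd, rfl, -, rfl⟩ := (b.mat.mem 2 m H).1 h
  refine ⟨by simp, fun τ => by simp [den], _, ?_,
    b.sub 1 _ a d (a * a) _ one_pos (mul_pos ha hd) ha hd (by ring) _ _ b.y2.ad⟩
  have h1 : Top (Dc ℂ) 1 1 := ⟨by simp [Dc, b.y2.D1], fun n hn => by simp [Dc, b.y2.D0 n hn]⟩
  rw [(h1.sb (mul_pos ha ha) _).lc (by simp), zpow_one, mul_one, ru, Units.val_mk0,
    Complex.norm_exp]
  simp

lemma poly (hm : 0 < m) {f : ℍ → ℂ} (h : f ∈ MM b ⊤ hm)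
    (h' : ∀ (γ : M2) τ, γ.det = 1 → f (act γ τ) = f τ) :
    ∃ P : ℂ[X], (∀ τ, f τ = P.eval (YY τ)) ∧ Asy m f (sb 1 m (aeval (Yc ℂ) P)) := by
  obtain ⟨F, h1, h2⟩ := mm_le h
  obtain ⟨P, -, -, h3, rfl⟩ := (b.lv m _ f F hm (Mem.hol h) h2 h1).1 0 (by simpa using h')
  exact ⟨P, h3, by rwa [sb_aeval hm, sb_one]⟩

/-- the product of the `WW` over a Hecke orbit is constant -/
lemma const (hm : Odd m) : ∃ c : ℂ, ∀ τ, ∏ H ∈ Hk 2 m, WW H τ = c := by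
  have h0 := hm.pos
  have hd : ∀ H ∈ Hk 2 m, 0 < H.det := fun H h => (shape b h).1 ▸ Nat.cast_pos.2 h0
  have hc : ((m : ℂ) ^ 12) ^ (Hk 2 m).card ≠ 0 := by simp [h0.ne']
  have h1 : ∀ τ, (∏ H ∈ Hk 2 m, WW H) τ * (∏ H ∈ Hk 2 m, VV H) τ =
      ((m : ℂ) ^ 12) ^ (Hk 2 m).card := fun τ => by
    rw [Finset.prod_apply, Finset.prod_apply, ← prod_mul_distrib, ← prod_const]
    exact prod_congr rfl fun H h => by
      rw [(b.my.1 H 1 τ (hd H h) Matrix.det_one).2.2.1, (shape b h).1, Int.cast_natCast]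
  have h2 : ∀ (γ : M2) τ, γ.det = 1 →
      (∏ H ∈ Hk 2 m, WW H) (act γ τ) = (∏ H ∈ Hk 2 m, WW H) τ := fun γ τ hγ => by
    obtain ⟨σ, k1, k2⟩ := b.mat.perm 2 m γ (Nat.coprime_two_left.2 hm) hγ
    rw [Finset.prod_apply, Finset.prod_apply]
    refine prod_nbij σ k1.mapsTo k1.injOn k1.surjOn fun H hH => ?_
    obtain ⟨γ', a1, a2, -⟩ := k2 H hH
    exact congrFun (mv b h0 (shape b hH).1 hγ a1 a2).2.1 τ
  obtain ⟨P, p1, p2⟩ := poly b h0 (prod_mem fun H h => memW (hd H h) (shape b h).1.dvd) h2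
  obtain ⟨Q, -, q2⟩ := poly b h0 (f := ∏ H ∈ Hk 2 m, VV H)
    (prod_mem fun H h => (b.my.2 ⊤ m H h0 (hd H h) (shape b h).1.dvd).2.2.1) fun γ τ hγ =>
      mul_left_cancel₀ (left_ne_zero_of_mul (h1 τ ▸ hc)) (by rw [h1, ← h2 γ τ hγ, h1])
  have r := b.ring m h0
  have h3 := r.2.2.1 _ _ _ _ p2 q2
  simp only [h1] at h3
  have h4 := r.2.2.2.2.1 _ _ _ h3 (r.1 _)
  rw [← map_mul, ← map_mul, ← sb_C h0 1, ← algebraMap_LS, ← aeval_C (Yc ℂ)] at h4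
  have h5 := (top_aeval b (P * Q - C (((m : ℂ) ^ 12) ^ (Hk 2 m).card))).1
  rw [map_sub, sb_injective h0 1 h4, sub_self, HahnSeries.coeff_zero, eq_comm,
    leadingCoeff_eq_zero, sub_eq_zero] at h5
  obtain ⟨c, -, rfl⟩ := Polynomial.isUnit_iff.1
    (isUnit_of_mul_isUnit_left (h5 ▸ isUnit_C.2 hc.isUnit))
  exact ⟨c, fun τ => by rw [← Finset.prod_apply, p1, eval_C]⟩

end DprAux

open DprAux in
theorem dpr_of (b : B2) : DPR := by
  intro m τ hm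
  obtain ⟨c, hc⟩ := const b hm
  have h0 := hm.pos
  have h1 : ∀ τ, c * ∏ H ∈ Hk 2 m, dl (act H τ) * dl (act H τ) =
      (∏ H ∈ Hk 2 m, (H 1 1 : ℂ) ^ 12) * ∏ _H ∈ Hk 2 m, dl (act 1 τ) * dl (act 1 τ) := fun τ => by
    rw [← hc τ, ← prod_mul_distrib, ← prod_mul_distrib]
    refine prod_congr rfl fun H h => ?_
    have := b.y1.ne (act H τ)
    rw [WW, (shape b h).2.1, act_one]
    field_simp
  choose! G g1 g2 using fun H (h : H ∈ Hk 2 m) => (shape b h).2.2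
  have t1 : Top (Dc ℂ) 1 1 := ⟨by simp [Dc, b.y2.D1], fun n hn => by simp [Dc, b.y2.D0 n hn]⟩
  have a1 := b.sub 1 m 1 1 m 0 one_pos h0 one_pos one_pos (by ring) _ _ b.y2.ad
  have l1 := (t1.sb h0 1).lc (by simp)
  simp only [Nat.cast_one (R := ℤ), ← Matrix.one_fin_two, ru_zero] at a1
  have r := b.ring m h0
  have a2 := r.2.2.1 _ _ _ _ (r.1 c)
    (r.2.2.2.2.2.2.2 _ (Hk 2 m) _ _ fun H h => r.2.2.1 _ _ _ _ (g2 H h) (g2 H h)).2
  simp only [h1] at a2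
  have e := congrArg (‖·.leadingCoeff‖) (r.2.2.2.2.1 _ _ _ a2 (r.2.2.1 _ _ _ _ (r.1 _)
    (r.2.2.2.2.2.2.2 _ (Hk 2 m) _ _ fun H _ => r.2.2.1 _ _ _ _ a1 a1).2))
  simp only [HahnSeries.leadingCoeff_mul, lc_prod, l1, norm_mul, norm_prod, HahnSeries.C_apply,
    HahnSeries.leadingCoeff_of_single] at e
  rw [prod_eq_one fun H h => by rw [g1 H h, one_mul]] at e
  have h2 := congrArg (‖·‖) (h1 τ)
  simp only [norm_mul, norm_prod, act_one] at h2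
  simp only [one_zpow, Units.val_one, norm_one, mul_one, prod_const_one] at e
  rw [e, prod_mul_distrib, prod_mul_distrib, prod_const] at h2
  refine (mul_self_inj_of_nonneg (by positivity) (by positivity)).1 (mul_left_cancel₀ ?_ h2)
  refine prod_ne_zero_iff.2 fun H h => norm_ne_zero_iff.2 (pow_ne_zero _ ?_)
  exact (shape b h).2.1 τ ▸ den_ne ((shape b h).1 ▸ Nat.cast_pos.2 h0) τ

end Pool.Agent.MP_c481b3_nt.H31F
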