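import Pool.Agent.MP_c481b3_nt.H31F.Spec

set_option autoImplicit false

namespace Pool.Agent.MP_c481b3_nt.H31F

open Finset
open scoped NumberTheorySymbols

namespace FinAux

/-- the part of `n` supported on the primes of `M` -/
lemma split (M n : ℕ) : n ≠ 0 → ∃ n₁ n₂, n = n₁ * n₂ ∧ n₂.Coprime M ∧
    ∀ x : ℕ, x.Coprime M → x.Coprime n₁ := by
  induction n using Nat.strong_induction_on with
  | _ n ih =>
  intro hn
  by_cases h : n.Coprime M
  · exact ⟨1, n, (one_mul n).symm, h, fun x _ => x.coprime_one_right⟩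
  obtain ⟨n', e⟩ := Nat.gcd_dvd_left n M
  have h0 : n' ≠ 0 := fun k => hn (by rw [e, k, mul_zero])
  have h1 : 1 < n.gcd M := lt_of_le_of_ne (Nat.gcd_pos_of_pos_left M (Nat.pos_of_ne_zero hn))
    fun k => h k.symm
  obtain ⟨a, b, c1, c2, c3⟩ := ih n'
    ((lt_mul_of_one_lt_left (Nat.pos_of_ne_zero h0) h1).trans_eq e.symm) h0
  exact ⟨n.gcd M * a, b, by rw [mul_assoc, ← c1, ← e], c2, fun x hx =>
    (hx.coprime_dvd_right (Nat.gcd_dvd_right n M)).mul_right (c3 x hx)⟩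

lemma jac_one {a : ℤ} {t : ℕ} (ht : t ≠ 0) (h : ∀ r : ℕ, r.Prime → r ∣ t →
    J(a | r) ≠ 0 ∧ (J(a | r) = -1 → Even (padicValNat r t))) : J(a | t) = 1 := by
  rw [← Nat.prod_factorization_pow_eq_self ht]
  refine (prod_induction _ (fun x : ℕ => x ≠ 0 ∧ J(a | x) = 1) (fun x y hx hy =>
    ⟨mul_ne_zero hx.1 hy.1, by rw [jacobiSym.mul_right' a hx.1 hy.1, hx.2, hy.2, mul_one]⟩)
    ⟨one_ne_zero, jacobiSym.one_right a⟩ fun r hr => ?_).2
  obtain ⟨h1, h2, -⟩ := Nat.mem_primeFactors.1 hr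
  refine ⟨pow_ne_zero _ h1.ne_zero, ?_⟩
  rw [jacobiSym.pow_right, Nat.factorization_def _ h1]
  rcases jacobiSym.trichotomy a r with e | e | e
  · exact ((h r h1 h2).1 e).elim
  · rw [e, one_pow]
  · rw [e, ((h r h1 h2).2 e).neg_one_pow]

lemma jac_eq {p l d' e ε t t' : ℕ} (hp : Odd p) (hl : Odd l) (hd : Odd d') (ht : Odd t)
    (ht' : Odd t') (h8 : t ≡ t' [MOD 8]) (h1 : J(t | l) = J(t' | l)) (h2 : J(t | d') = J(t' | d'))
    (h3 : J(-((p * (2 ^ ε * (l ^ e * d')) : ℕ) : ℤ) | t) = 1)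
    (h4 : J(-((p * (2 ^ ε * (l ^ e * d')) : ℕ) : ℤ) | t') = 1) : J(t | p) = J(t' | p) := by
  have ho : Odd (p * (l ^ e * d')) := hp.mul (hl.pow.mul hd)
  have key : ∀ t : ℕ, Odd t → J(-((p * (2 ^ ε * (l ^ e * d')) : ℕ) : ℤ) | t) =
      ZMod.χ₄ t * ZMod.χ₈ t ^ ε * qrSign t (p * (l ^ e * d')) * (J(t | l) ^ e * J(t | d')) *
        J(t | p) := fun t ht => by
    rw [jacobiSym.neg _ ht, mul_left_comm, Nat.cast_mul, jacobiSym.mul_left, Nat.cast_pow,
      jacobiSym.pow_left, Nat.cast_ofNat, jacobiSym.at_two ht,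
      jacobiSym.quadratic_reciprocity' ho ht,
      jacobiSym.mul_right' _ hp.pos.ne' (hl.pow.mul hd).pos.ne',
      jacobiSym.mul_right' _ hl.pow.pos.ne' hd.pos.ne', jacobiSym.pow_right]
    ring
  have e8 : (t : ZMod 8) = t' := (ZMod.natCast_eq_natCast_iff _ _ _).2 h8
  have e4 : (t : ZMod 4) = t' := (ZMod.natCast_eq_natCast_iff _ _ _).2 (h8.of_dvd (by norm_num))
  rw [key t ht, qrSign, e8, e4, h1, h2] at h3
  rw [key t' ht', qrSign] at h4
  exact mul_left_cancel₀ (left_ne_zero_of_mul_eq_one h4) (h3.trans h4.symm)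

variable {k : Type} [Field k]

lemma coeff_iter (j : ℕ) (F : LS k) (n : ℤ) : (th^[j] F).coeff n = (n : k) ^ j * F.coeff n := by
  induction j with
  | zero => simp
  | succ j ih => rw [Function.iterate_succ_apply', coeff_th, ih, pow_succ', mul_assoc]

lemma shift {l : ℕ} (hl : 0 < l) (hC : CarK k l) {g : LS k} (hg : InU k g)
    (h1 : ∀ n, g.coeff n ^ l = g.coeff n) (h2 : ∀ n, n ≤ 0 → g.coeff n = 0) (a : ℕ) :
    ∃ F, InU k F ∧ ∀ n, F.coeff n = g.coeff (l ^ a * n) := by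
  induction a with
  | zero => exact ⟨g, hg, by simp⟩
  | succ a ih =>
    obtain ⟨F, a1, a2⟩ := ih
    refine ⟨HahnSeries.ofSuppBddBelow (fun n => g.coeff (l ^ (a + 1) * n)) ⟨0, fun n hn =>
      by_contra fun e => hn (h2 _ (mul_nonpos_of_nonneg_of_nonpos (by positivity) (by omega)))⟩,
      hC.car F _ a1 fun n => ?_, fun n => rfl⟩
    rw [HahnSeries.coeff_ofSuppBddBelow, h1, a2, pow_succ, mul_assoc]

lemma euler {l : ℕ} [CharP k l] (hl : l.Prime) (h2 : l ≠ 2) (n : ℤ) :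
    (n : k) ^ ((l - 1) / 2) = (J(n | l) : ℤ) := by
  have := Fact.mk hl
  have e := congrArg (ZMod.castHom (dvd_refl l) k) (legendreSym.eq_pow l n)
  rw [map_intCast, map_pow, map_intCast, jacobiSym.legendreSym.to_jacobiSym] at e
  have := hl.eq_two_or_odd.resolve_left h2
  rw [e, show (l - 1) / 2 = l / 2 by omega]

lemma twist {l : ℕ} [CharP k l] (hl : l.Prime) (h2 : l ≠ 2) (hC : CarK k l) {F : LS k}
    (hF : InU k F) {κ : ℤ} (hκ : κ = 1 ∨ κ = -1) : ∃ F', InU k F' ∧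
      ∀ n, F'.coeff n = if J(n | l) = κ then 2 * F.coeff n else 0 := by
  refine ⟨_, hC.add _ _ (hC.tw _ (hC.tw _ hF)) (hC.smul κ _ (hC.tw _ hF)), fun n => ?_⟩
  rw [HahnSeries.coeff_add, HahnSeries.C_mul_eq_smul, HahnSeries.coeff_smul, coeff_iter, coeff_iter,
    euler hl h2, smul_eq_mul]
  rcases hκ with rfl | rfl <;> rcases jacobiSym.trichotomy n l with e | e | e <;> rw [e] <;>
    simp <;> ring

end FinAux

open FinAux in
theorem fin : FIN := by
  intro k _ l _ hl l2 hLP hC d p R hd hp p2 ⟨d₁, e1⟩ pl g hg g1 g2 g3 g4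
  ext m
  by_contra hm
  rw [HahnSeries.coeff_zero] at hm
  obtain ⟨m, rfl⟩ := Int.eq_ofNat_of_zero_le (not_le.1 fun e => hm (g2 m e)).le
  have m0 : m ≠ 0 := fun e => hm (g2 _ (by simp [e]))
  obtain ⟨a, m', lm, rfl⟩ := Nat.exists_eq_pow_mul_and_not_dvd m0 l hl.ne_one
  have d0 := hd.ne_zero
  obtain ⟨ε, d₂, f1, rfl⟩ := Nat.exists_eq_pow_mul_and_not_dvd
    (right_ne_zero_of_mul (e1 ▸ d0)) 2 (by norm_num)
  obtain ⟨e, d', f2, rfl⟩ := Nat.exists_eq_pow_mul_and_not_dvd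
    (right_ne_zero_of_mul (right_ne_zero_of_mul (e1 ▸ d0))) l hl.ne_one
  have po := hp.odd_of_ne_two p2
  have lo := hl.odd_of_ne_two l2
  have do' : Odd d' := Nat.not_even_iff_odd.1 fun h => f1 (h.two_dvd.mul_left _)
  have f3 : ¬p ∣ d' := fun h => hp.prime.not_isUnit (hd p (e1 ▸
    mul_dvd_mul_left p ((h.mul_left _).mul_left _)))
  have lp : l.Coprime p := (Nat.coprime_primes hl hp).2 pl.symm
  set M := 8 * d' * ∏ r ∈ (range (R + 1)).filter (l * p).Coprime, r with hM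
  have cM : (l * p).Coprime M := by
    refine (Nat.Coprime.mul_right ?_ ?_).mul_right
      (Nat.Coprime.prod_right fun r hr => (mem_filter.1 hr).2)
    · exact Nat.Coprime.pow_right 3 (Nat.coprime_two_right.2 (lo.mul po))
    · exact (hl.coprime_iff_not_dvd.2 f2).mul_left (hp.coprime_iff_not_dvd.2 f3)
  obtain ⟨n₁, n₂, rfl, c1, c2⟩ := split M m' (right_ne_zero_of_mul m0)
  have cN : (l * p).Coprime (n₁ * M) := (c2 _ cM).mul_right cM
  have lN := hl.coprime_iff_not_dvd.1 cN.coprime_mul_right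
  have pN := hp.coprime_iff_not_dvd.1 cN.coprime_mul_left
  have N0 : 0 < n₁ * M := Nat.pos_of_ne_zero fun e => pN (e ▸ dvd_zero p)
  have n0 : (0 : ℤ) < n₁ := by exact_mod_cast Nat.pos_of_mul_pos_right N0
  have k0 : ((2 * p * (n₁ * M) : ℕ) : k) ≠ 0 := fun e => by
    rcases (Nat.Prime.dvd_mul hl).1 ((CharP.cast_eq_zero_iff k l _).1 e) with e | e
    · rcases (Nat.Prime.dvd_mul hl).1 e with e | e
      · exact l2 ((Nat.prime_dvd_prime_iff_eq hl Nat.prime_two).1 e)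
      · exact pl ((Nat.prime_dvd_prime_iff_eq hl hp).1 e).symm
    · exact lN e
  obtain ⟨F, F1, F2⟩ := shift hl.pos hC hg g1 g2 a
  have hκ := jacobiSym.eq_one_or_neg_one (a := (n₁ * n₂ : ℕ)) (b := l)
    (hl.coprime_iff_not_dvd.2 lm).symm
  obtain ⟨F', G1, G2⟩ := twist hl l2 hC F1 hκ
  let S : Set ℤ := {n | ∃ t : ℤ, n = n₁ * t ∧ IsCoprime t M ∧ t ≡ n₂ [ZMOD 8] ∧
    J(t | d') = J(n₂ | d')}
  have main : ∀ n ∈ S, J(n | p) ≠ 0 → F'.coeff n ≠ 0 → ∃ t : ℕ, n = n₁ * t ∧ Odd t ∧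
      t ≡ n₂ [MOD 8] ∧ J(t | d') = J(n₂ | d') ∧ J(n₁ | l) * J(t | l) = J((n₁ * n₂ : ℕ) | l) ∧
      J(-(d : ℤ) | t) = 1 := by
    rintro _ ⟨t, rfl, s1, s2, s3⟩ s4 s5
    rw [G2, F2] at s5
    split_ifs at s5 with s6
    swap
    · exact (s5 rfl).elim
    have s7 := right_ne_zero_of_mul s5
    have t0 : 0 < t := by_contra fun e => s7 (g2 _ (mul_nonpos_of_nonneg_of_nonpos (by positivity)
      (mul_nonpos_of_nonneg_of_nonpos n0.le (by omega))))
    obtain ⟨t, rfl⟩ := Int.eq_ofNat_of_zero_le t0.le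
    have t1 : t ≠ 0 := by omega
    have s8 : t.Coprime M := Nat.isCoprime_iff_coprime.1 s1
    refine ⟨t, rfl, Nat.coprime_two_right.1 (s8.coprime_dvd_right
      (((by norm_num : 2 ∣ 8).mul_right _).mul_right _)), Int.natCast_modEq_iff.1 s2, s3,
      by rw [← s6, jacobiSym.mul_left], jac_one t1 fun r r1 r2 => ?_⟩
    have := Fact.mk r1
    have r3 : r.Coprime M := s8.coprime_dvd_left r2
    have nz : ∀ q : ℕ, q.Prime → J(n₁ * t | q) ≠ 0 → r.Coprime q := fun q hq h =>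
      (Nat.coprime_primes r1 hq).2 fun e => h (by
        subst e
        obtain ⟨u, rfl⟩ := r2
        rw [Nat.cast_mul, jacobiSym.mul_left, jacobiSym.mul_left,
          jacobiSym.mod_left r, Int.emod_self, jacobiSym.zero_left hq.one_lt, zero_mul, mul_zero])
    have r4 := nz l hl (by omega)
    have r5 := nz p hp s4
    have r6 : r.Coprime d := e1 ▸ r5.mul_right ((Nat.Coprime.pow_right _ (r3.coprime_dvd_right
      (((by norm_num : 2 ∣ 8).mul_right _).mul_right _))).mul_right ((r4.pow_right _).mul_right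
        (r3.coprime_dvd_right ((dvd_mul_left _ _).mul_right _))))
    refine ⟨jacobiSym.ne_zero (by rw [Int.neg_gcd]; exact r6.symm), fun h => ?_⟩
    by_contra h'
    refine s7 ((congrArg _ (by push_cast; ring)).trans (g4 (l ^ a * n₁ * t) r r1 ?_ ?_ ?_))
    · by_contra h''
      exact r1.coprime_iff_not_dvd.1 r3 ((dvd_prod_of_mem _ (mem_filter.2
        ⟨mem_range.2 (by omega), (r4.mul_right r5).symm⟩)).mul_left _)
    · simpa using ZMod.nonsquare_iff_jacobiSym_eq_neg_one.1 h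
    · have u : ¬r ∣ l ^ a * n₁ := r1.coprime_iff_not_dvd.1 ((r4.pow_right a).mul_right (c2 r r3))
      rw [padicValNat.mul (fun e => u (by rw [e]; exact dvd_zero r)) t1, padicValNat.eq_zero_of_not_dvd u,
        zero_add]
      exact Nat.not_even_iff_odd.1 h'
  obtain ⟨η, η1, η2⟩ : ∃ η : ℤ, (η = 1 ∨ η = -1) ∧ ∀ n ∈ S, J(n | p) = η → F'.coeff n = 0 := by
    by_cases h : ∃ n ∈ S, J(n | p) ≠ 0 ∧ F'.coeff n ≠ 0
    · obtain ⟨n', a1, a2, a3⟩ := h
      refine ⟨-J(n' | p), by have := jacobiSym.trichotomy n' p; omega, fun n b1 b2 =>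
        by_contra fun b3 => ?_⟩
      obtain ⟨t', rfl, u1, u2, u3, u4, u5⟩ := main n' a1 a2 a3
      obtain ⟨t, rfl, v1, v2, v3, v4, v5⟩ := main n b1 (by omega) b3
      have w : J(n₁ | l) ≠ 0 := left_ne_zero_of_mul (by rw [u4]; omega)
      have := jac_eq po lo do' v1 u1 (v2.trans u2.symm) (mul_left_cancel₀ w (v4.trans u4.symm))
        (v3.trans u3.symm) (e1 ▸ v5) (e1 ▸ u5)
      rw [jacobiSym.mul_left, this, ← jacobiSym.mul_left] at b2
      omega
    · exact ⟨1, Or.inl rfl, fun n b1 b2 => by_contra fun b3 => h ⟨n, b1, by omega, b3⟩⟩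
  have := hLP F' G1 p (n₁ * M) hp p2 N0 pN k0 S ?_ ?_ η η1 η2 (n₁ * n₂ : ℕ)
    ⟨n₂, by push_cast; rfl, Nat.isCoprime_iff_coprime.2 c1, rfl, rfl⟩
    (by exact_mod_cast right_ne_zero_of_mul m0)
  · rw [G2, if_pos rfl, F2] at this
    refine hm ((congrArg _ (by push_cast; rfl)).trans ((mul_eq_zero.1 this).resolve_left fun e => ?_))
    exact l2 ((Nat.prime_dvd_prime_iff_eq hl Nat.prime_two).1
      ((CharP.cast_eq_zero_iff k l 2).1 (by exact_mod_cast e)))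
  · rintro _ n' h ⟨t, rfl, s1, s2, s3⟩
    obtain ⟨u, hu⟩ := h.dvd
    have w : ∀ c : ℤ, c ∣ M → t + M * u ≡ t [ZMOD c] := fun c hc =>
      (Int.modEq_iff_dvd.2 (by simpa using hc.mul_right u))
    refine ⟨t + M * u, by push_cast at hu; linear_combination hu, s1.add_mul_left_left u,
      (w 8 (by exact_mod_cast ((dvd_mul_right 8 d').mul_right _ : 8 ∣ M))).trans s2,
      (jacobiSym.mod_left' (w d' (by
        exact_mod_cast ((dvd_mul_left d' 8).mul_right _ : d' ∣ M)))).trans s3⟩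
  · rintro n ⟨t, s0, s1, s2, s3⟩
    obtain ⟨u, rfl⟩ : (p : ℤ) ^ 2 ∣ t := (Nat.isCoprime_iff_coprime.2
      (c2 _ cM).coprime_mul_left).pow_left.dvd_of_dvd_mul_left ⟨n, s0.symm⟩
    refine ⟨u, mul_left_cancel₀ (pow_ne_zero 2 (by exact_mod_cast hp.ne_zero : (p : ℤ) ≠ 0))
      (by linear_combination s0), s1.of_mul_left_right, ?_, ?_⟩
    · have := (Int.modEq_iff_dvd.2
        (Int.eight_dvd_sq_sub_one_of_odd (by exact_mod_cast po : Odd (p : ℤ)))).mul_right u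
      rw [one_mul] at this
      exact this.trans s2
    · rw [← s3, jacobiSym.mul_left, jacobiSym.sq_one' (a := p) (b := d') (hp.coprime_iff_not_dvd.2 f3), one_mul]

end Pool.Agent.MP_c481b3_nt.H31F
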