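import Pool.Agent.MP_c481b3_nt.H31F.Spec

set_option autoImplicit false

namespace Pool.Agent.MP_c481b3_nt.H31F

open Polynomial IsLocalRing

namespace GenAux

/-- the series with the given coefficients in the positive odd degrees -/
noncomputable def od {R : Type} [CommRing R] (a : ℕ → R) : LS R :=
  HahnSeries.ofPowerSeries ℤ R (PowerSeries.mk fun n => if Odd n then a n else 0)

lemma coeff_ofPS {R : Type} [CommRing R] (a : ℕ → R) (n : ℤ) :
    (HahnSeries.ofPowerSeries ℤ R (PowerSeries.mk a)).coeff n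
      = if 0 ≤ n then a n.toNat else 0 := by
  split_ifs with h
  · obtain ⟨m, rfl⟩ := Int.eq_ofNat_of_zero_le h
    rw [HahnSeries.ofPowerSeries_apply_coeff]
    simp
  · rw [HahnSeries.ofPowerSeries_apply]
    refine HahnSeries.embDomain_of_notMem_range ?_
    rintro ⟨m, hm⟩
    apply h
    rw [← hm]
    simp

lemma coeff_od {R : Type} [CommRing R] (a : ℕ → R) (n : ℤ) :
    (od a).coeff n = if 0 < n ∧ Odd n then a n.toNat else 0 := by
  rw [od, coeff_ofPS]
  by_cases h : 0 ≤ n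
  · obtain ⟨m, rfl⟩ := Int.eq_ofNat_of_zero_le h
    simp only [h, if_true, Int.toNat_natCast, Int.odd_coe_nat, Nat.cast_pos]
    by_cases ho : Odd m
    · simp [ho, ho.pos]
    · simp [ho]
  · have : ¬0 < n := fun e => h e.le
    simp [h, this]

lemma aeval_neg {P : ℕ → ℤ[X]} (hP : IsFb P) (y : ℂ) (n : ℕ) :
    aeval (-y) (P n) = (-1) ^ n * aeval y (P n) := by
  rw [aeval_eq_sum_range, aeval_eq_sum_range, Finset.mul_sum]
  refine Finset.sum_congr rfl fun i _ => ?_
  by_cases h : i % 2 = n % 2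
  · rw [neg_pow, mul_smul_comm]
    congr 2
    rw [neg_one_pow_eq_pow_mod_two, h, ← neg_one_pow_eq_pow_mod_two]
  · rw [hP.par n i h]
    simp

lemma key {P : ℕ → ℤ[X]} (hP : IsFb P) (y : ℂ) :
    od (fun n => aeval y (P n)) * (Yc ℂ ^ 2 - HahnSeries.C (y ^ 2))
      = th (Yc ℂ) * HahnSeries.C (-y) := by
  have h1 := hP.gen y
  have h2 := hP.gen (-y)
  have h3 : HahnSeries.ofPowerSeries ℤ ℂ (PowerSeries.mk fun n => aeval y (P n))
      - HahnSeries.ofPowerSeries ℤ ℂ (PowerSeries.mk fun n => aeval (-y) (P n))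
      = HahnSeries.C (2 : ℂ) * od (fun n => aeval y (P n)) := by
    ext n
    rw [HahnSeries.coeff_sub, coeff_ofPS, coeff_ofPS, HahnSeries.C_mul_eq_smul,
      HahnSeries.coeff_smul, od, coeff_ofPS]
    split_ifs with h ho
    · rw [aeval_neg hP, ho.neg_one_pow, smul_eq_mul]; ring
    · rw [aeval_neg hP, (Nat.not_odd_iff_even.1 ho).neg_one_pow]; simp
    · simp
  have h4 : (HahnSeries.C (2 : ℂ) : LS ℂ) ≠ 0 := HahnSeries.C_ne_zero two_ne_zero
  apply mul_left_cancel₀ h4
  rw [← mul_assoc, ← h3, map_neg, map_pow, map_ofNat]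
  rw [map_neg] at h2
  linear_combination (Yc ℂ + HahnSeries.C y) * h1 - (Yc ℂ - HahnSeries.C y) * h2

lemma sum_key {P : ℕ → ℤ[X]} (hP : IsFb P) (Γ : Multiset ℂ) : ∃ N : ℂ[X],
    od (fun n => (Γ.map fun y => aeval y (P n)).sum)
      * aeval (Yc ℂ) (Γ.map fun y => (X ^ 2 - C (y ^ 2) : ℂ[X])).prod
      = th (Yc ℂ) * aeval (Yc ℂ) N := by
  induction Γ using Multiset.induction_on with
  | empty =>
    refine ⟨0, ?_⟩
    have : od (fun n => ((0 : Multiset ℂ).map fun y => aeval y (P n)).sum) = 0 := by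
      ext n; simp [coeff_od]
    rw [this]; simp
  | cons y Γ ih =>
    obtain ⟨N, hN⟩ := ih
    refine ⟨C (-y) * (Γ.map fun y => (X ^ 2 - C (y ^ 2) : ℂ[X])).prod
      + (X ^ 2 - C (y ^ 2)) * N, ?_⟩
    have : od (fun n => ((y ::ₘ Γ).map fun y => aeval y (P n)).sum)
        = od (fun n => aeval y (P n)) + od (fun n => (Γ.map fun y => aeval y (P n)).sum) := by
      ext n
      rw [HahnSeries.coeff_add, coeff_od, coeff_od, coeff_od]
      split_ifs <;> simp
    rw [this, Multiset.map_cons, Multiset.prod_cons]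
    have hk := key hP y
    simp only [map_mul, map_add, map_sub, aeval_C, aeval_X_pow, algebraMap_LS]
    linear_combination
      (aeval (Yc ℂ) (Γ.map fun y => (X ^ 2 - C (y ^ 2) : ℂ[X])).prod) * hk
        + (Yc ℂ ^ 2 - HahnSeries.C (y ^ 2)) * hN

lemma mapL_int {R S : Type} [CommRing R] [CommRing S] (φ : R →+* S) (F : LS ℤ) :
    mapL φ (mapL (Int.castRingHom R) F) = mapL (Int.castRingHom S) F := by
  ext; simp

end GenAux

open GenAux in
theorem gen_of (h : POL) : GEN := by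
  intro P hP O Γ c β hc hΓ hβ
  obtain ⟨N, hN⟩ := sum_key hP Γ
  lift Γ to Multiset O using hΓ
  set P₂ : O[X] := (Γ.map fun y => (X ^ 2 - C (y ^ 2) : O[X])).prod with hP₂
  have hm : P₂.Monic := monic_multiset_prod_of_monic _ _ fun y _ =>
    monic_X_pow_sub_C _ two_ne_zero
  have hmap : P₂.map O.subtype
      = ((Γ.map (fun y : O => (y : ℂ))).map fun y => (X ^ 2 - C (y ^ 2) : ℂ[X])).prod := by
    rw [hP₂, Polynomial.map_multiset_prod, Multiset.map_map, Multiset.map_map]
    congr 1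
    refine Multiset.map_congr rfl fun y _ => ?_
    simp
  have hod : od (fun n => ((Γ.map (fun y : O => (y : ℂ))).map fun y => aeval y (P n)).sum)
      = HahnSeries.C c * mapL (Int.castRingHom ℂ) (od β) := by
    ext n
    rw [HahnSeries.C_mul_eq_smul, HahnSeries.coeff_smul, coeff_mapL, coeff_od, coeff_od]
    split_ifs with hn
    · obtain ⟨m, rfl⟩ := Int.eq_ofNat_of_zero_le hn.1.le
      rw [Int.toNat_natCast, hβ m (by exact_mod_cast hn.2)]
      simp
    · simp
  rw [hod, ← hmap] at hN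
  have hN' : mapL (Int.castRingHom ℂ) (od β) * aeval (Yc ℂ) (P₂.map O.subtype)
      = th (Yc ℂ) * aeval (Yc ℂ) (C c⁻¹ * N) := by
    have e : (HahnSeries.C c⁻¹ : LS ℂ) * HahnSeries.C c = 1 := by
      rw [← map_mul, inv_mul_cancel₀ hc, map_one]
    rw [map_mul, aeval_C, algebraMap_LS]
    linear_combination HahnSeries.C c⁻¹ * hN
      - (mapL (Int.castRingHom ℂ) (od β) * aeval (Yc ℂ) (P₂.map O.subtype)) * e
  obtain ⟨v, hv⟩ := (h.unit O).1.exists_left_inv
  have hv' : mapL O.subtype v * th (Yc ℂ) = 1 := by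
    rw [← mapL_Yc O.subtype, ← mapL_th, ← map_mul, hv, map_one]
  have hmem : aeval (Yc ℂ) (C c⁻¹ * N) ∈ ovr O.toSubring := by
    refine ⟨v * (mapL (Int.castRingHom O) (od β) * aeval (Yc O) P₂), ?_⟩
    change mapL O.subtype _ = _
    rw [map_mul, map_mul, mapL_int, mapL_aeval, mapL_Yc, hN', ← mul_assoc, hv', one_mul]
  have hl : C c⁻¹ * N ∈ lifts O.subtype := by
    rw [lifts_iff_coeff_lifts]
    intro n
    exact ⟨⟨_, h.int _ _ hmem n⟩, rfl⟩
  obtain ⟨N₀, hN₀⟩ := (mem_lifts _).1 hl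
  have hO : mapL (Int.castRingHom O) (od β) * aeval (Yc O) P₂
      = th (Yc O) * aeval (Yc O) N₀ := by
    apply mapL_injective (φ := O.subtype) Subtype.val_injective
    rw [map_mul, map_mul, mapL_int, mapL_aeval, mapL_aeval, mapL_th, mapL_Yc, hN₀, hN']
  refine ⟨mapL (Int.castRingHom _) (od β), ⟨N₀.map (residue O), P₂.map (residue O),
    (hm.map _).ne_zero, ?_⟩, fun n => ?_⟩
  · have := congrArg (mapL (residue O)) hO
    rwa [map_mul, map_mul, mapL_int, mapL_aeval, mapL_aeval, mapL_th, mapL_Yc] at this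
  · rw [coeff_mapL, coeff_od]
    split_ifs <;> simp

end Pool.Agent.MP_c481b3_nt.H31F
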