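import Pool.Agent.MP_c481b3_nt.H31F.Spec3
import Pool.Agent.MP_c481b3_nt.H31F.Gen

set_option autoImplicit false

namespace Pool.Agent.MP_c481b3_nt.H31F

open Polynomial IsLocalRing

namespace Gen2Aux

open GenAux

lemma Yc_int : Yc ℤ = Ys := by ext; simp [Yc]

lemma deg_zero (h : POL) {T : ℤ[X]} (hT : ∀ i : ℤ, i < 0 → (aeval Ys T).coeff i = 0) :
    T.natDegree = 0 := by
  by_contra h0
  have h1 := (h.top ℤ T).1
  rw [Yc_int, hT _ (by omega)] at h1
  rw [leadingCoeff_eq_zero.1 h1.symm] at h0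
  exact h0 natDegree_zero

lemma deg_eq (h : POL) {T : ℤ[X]} {m : ℕ} (hm : 0 < m)
    (hT : ∀ i : ℤ, i < 0 → (aeval Ys T).coeff i = if i = -m then 1 else 0) :
    T.natDegree = m ∧ T.Monic := by
  obtain ⟨h1, h2⟩ := h.top ℤ T
  rw [Yc_int] at h1 h2
  have h3 : m ≤ T.natDegree := by
    by_contra h3
    have := h2 (-m) (by omega)
    rw [hT _ (by omega), if_pos rfl] at this
    exact one_ne_zero this
  have h4 : T ≠ 0 := by
    rintro rfl
    rw [natDegree_zero] at h3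
    omega
  rw [hT _ (by omega)] at h1
  split_ifs at h1 with h5
  · exact ⟨by omega, h1.symm⟩
  · exact absurd (leadingCoeff_eq_zero.1 h1.symm) h4

lemma hq_monic (h : POL) {Q : ℕ → ℤ[X]} (hQ : IsHq Q) {m : ℕ} (hm : 0 < m) :
    (Q m).natDegree = m ∧ (Q m).Monic := by
  obtain ⟨h1, h2⟩ := deg_eq h (T := expand ℤ 2 (Q m)) (m := 2 * m) (by omega) fun i hi => by
    rw [expand_aeval, hQ.exp m hm i hi]
    push_cast
    rfl
  rw [natDegree_expand] at h1
  exact ⟨by omega, (monic_expand_iff two_pos).1 h2⟩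

/-- the series with the given coefficients in the even degrees -/
noncomputable def ev {R : Type} [CommRing R] (a : ℕ → R) : LS R :=
  HahnSeries.ofPowerSeries ℤ R (PowerSeries.mk fun n => if Even n then a (n / 2) else 0)

lemma coeff_ev {R : Type} [CommRing R] (a : ℕ → R) (n : ℤ) :
    (ev a).coeff n = if 0 ≤ n ∧ Even n then a (n / 2).toNat else 0 := by
  rw [ev, coeff_ofPS]
  by_cases h : 0 ≤ n
  · obtain ⟨m, rfl⟩ := Int.eq_ofNat_of_zero_le h
    have e : ((m : ℤ) / 2).toNat = m / 2 := by omega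
    simp only [h, if_true, Int.toNat_natCast, Int.even_coe_nat, true_and, e]
  · simp [h]

lemma key {P : ℕ → ℤ[X]} (hP : IsFb P) (y : ℂ) :
    ev (fun n => aeval y (P (2 * n))) * (Yc ℂ ^ 2 - HahnSeries.C (y ^ 2))
      = th (Yc ℂ) * (-Yc ℂ) := by
  have h1 := hP.gen y
  have h2 := hP.gen (-y)
  have h3 : HahnSeries.ofPowerSeries ℤ ℂ (PowerSeries.mk fun n => aeval y (P n))
      + HahnSeries.ofPowerSeries ℤ ℂ (PowerSeries.mk fun n => aeval (-y) (P n))
      = HahnSeries.C (2 : ℂ) * ev (fun n => aeval y (P (2 * n))) := by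
    ext n
    rw [HahnSeries.coeff_add, coeff_ofPS, coeff_ofPS, HahnSeries.C_mul_eq_smul,
      HahnSeries.coeff_smul, ev, coeff_ofPS]
    split_ifs with h ho
    · rw [aeval_neg hP, ho.neg_one_pow, smul_eq_mul, Nat.two_mul_div_two_of_even ho]; ring
    · rw [aeval_neg hP, (Nat.not_even_iff_odd.1 ho).neg_one_pow]; simp
    · simp
  have h4 : (HahnSeries.C (2 : ℂ) : LS ℂ) ≠ 0 := HahnSeries.C_ne_zero two_ne_zero
  apply mul_left_cancel₀ h4
  rw [← mul_assoc, ← h3, map_pow, map_ofNat]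
  rw [map_neg] at h2
  linear_combination (Yc ℂ + HahnSeries.C y) * h1 + (Yc ℂ - HahnSeries.C y) * h2

lemma sum_key {a : ℂ → ℕ → ℂ}
    (ha : ∀ u, ev (a u) * (Yc ℂ ^ 2 - HahnSeries.C u) = th (Yc ℂ) * (-Yc ℂ)) (Γ : Multiset ℂ) :
    ∃ N : ℂ[X], ev (fun n => (Γ.map fun u => a u n).sum)
      * aeval (Yc ℂ) (Γ.map fun u => (X ^ 2 - C u : ℂ[X])).prod
      = th (Yc ℂ) * aeval (Yc ℂ) N := by
  induction Γ using Multiset.induction_on with
  | empty =>
    refine ⟨0, ?_⟩
    have : ev (fun n => ((0 : Multiset ℂ).map fun u => a u n).sum) = 0 := by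
      ext n; simp [coeff_ev]
    rw [this]; simp
  | cons y Γ ih =>
    obtain ⟨N, hN⟩ := ih
    refine ⟨-X * (Γ.map fun u => (X ^ 2 - C u : ℂ[X])).prod + (X ^ 2 - C y) * N, ?_⟩
    have : ev (fun n => ((y ::ₘ Γ).map fun u => a u n).sum)
        = ev (a y) + ev (fun n => (Γ.map fun u => a u n).sum) := by
      ext n
      rw [HahnSeries.coeff_add, coeff_ev, coeff_ev, coeff_ev]
      split_ifs <;> simp
    rw [this, Multiset.map_cons, Multiset.prod_cons]
    have hk := ha y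
    simp only [map_mul, map_add, map_sub, map_neg, aeval_C, aeval_X_pow, aeval_X, algebraMap_LS]
    linear_combination
      (aeval (Yc ℂ) (Γ.map fun u => (X ^ 2 - C u : ℂ[X])).prod) * hk
        + (Yc ℂ ^ 2 - HahnSeries.C y) * hN

lemma fin (h : POL) (O : ValuationSubring ℂ) (F : LS ℤ) {c : ℂ} (hc : c ≠ 0) {P₂ : O[X]}
    (hm : P₂.Monic) {N : ℂ[X]}
    (hN : HahnSeries.C c * mapL (Int.castRingHom ℂ) F * aeval (Yc ℂ) (P₂.map O.subtype)
      = th (Yc ℂ) * aeval (Yc ℂ) N) : InU _ (mapL (Int.castRingHom (ResidueField O)) F) := by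
  have hN' : mapL (Int.castRingHom ℂ) F * aeval (Yc ℂ) (P₂.map O.subtype)
      = th (Yc ℂ) * aeval (Yc ℂ) (C c⁻¹ * N) := by
    have e : (HahnSeries.C c⁻¹ : LS ℂ) * HahnSeries.C c = 1 := by
      rw [← map_mul, inv_mul_cancel₀ hc, map_one]
    rw [map_mul, aeval_C, algebraMap_LS]
    linear_combination HahnSeries.C c⁻¹ * hN
      - (mapL (Int.castRingHom ℂ) F * aeval (Yc ℂ) (P₂.map O.subtype)) * e
  obtain ⟨v, hv⟩ := (h.unit O).1.exists_left_inv
  have hv' : mapL O.subtype v * th (Yc ℂ) = 1 := by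
    rw [← mapL_Yc O.subtype, ← mapL_th, ← map_mul, hv, map_one]
  have hmem : aeval (Yc ℂ) (C c⁻¹ * N) ∈ ovr O.toSubring := by
    refine ⟨v * (mapL (Int.castRingHom O) F * aeval (Yc O) P₂), ?_⟩
    change mapL O.subtype _ = _
    rw [map_mul, map_mul, mapL_int, mapL_aeval, mapL_Yc, hN', ← mul_assoc, hv', one_mul]
  have hl : C c⁻¹ * N ∈ lifts O.subtype := by
    rw [lifts_iff_coeff_lifts]
    intro n
    exact ⟨⟨_, h.int _ _ hmem n⟩, rfl⟩
  obtain ⟨N₀, hN₀⟩ := (mem_lifts _).1 hl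
  have hO : mapL (Int.castRingHom O) F * aeval (Yc O) P₂ = th (Yc O) * aeval (Yc O) N₀ := by
    apply mapL_injective (φ := O.subtype) Subtype.val_injective
    rw [map_mul, map_mul, mapL_int, mapL_aeval, mapL_aeval, mapL_th, mapL_Yc, hN₀, hN']
  refine ⟨N₀.map (residue O), P₂.map (residue O), (hm.map _).ne_zero, ?_⟩
  have := congrArg (mapL (residue O)) hO
  rwa [map_mul, map_mul, mapL_int, mapL_aeval, mapL_aeval, mapL_th, mapL_Yc] at this

lemma cst (h : POL) {P Q : ℕ → ℤ[X]} (hP : IsFb P) (hQ : IsHq Q) (n : ℕ) : ∃ k : ℂ, ∀ y : ℂ,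
    aeval y (P (2 * n)) = (if n = 0 then 0 else aeval (y ^ 2) (Q n)) + k := by
  by_cases hn : n = 0
  · subst hn
    have h1 := eq_C_of_natDegree_eq_zero (deg_zero h (T := P (2 * 0)) fun i hi => by
      rw [hP.exp _ i hi.le, if_neg (by omega)])
    exact ⟨((P (2 * 0)).coeff 0 : ℤ), fun y => by rw [h1]; simp⟩
  · have h1 := eq_C_of_natDegree_eq_zero (deg_zero h (T := P (2 * n) - expand ℤ 2 (Q n))
      fun i hi => by
        rw [map_sub, HahnSeries.coeff_sub, expand_aeval, hP.exp _ i hi.le,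
          hQ.exp n (by omega) i hi]
        push_cast
        exact sub_self _)
    refine ⟨((P (2 * n) - expand ℤ 2 (Q n)).coeff 0 : ℤ), fun y => ?_⟩
    have h2 := congrArg (aeval y) h1
    rw [map_sub, expand_aeval, aeval_C, eq_intCast] at h2
    rw [if_neg hn, ← h2]
    ring

lemma key2 {P Q : ℕ → ℤ[X]} (hP : IsFb P) {k : ℕ → ℂ} (hk : ∀ (n : ℕ) (y : ℂ),
    aeval y (P (2 * n)) = (if n = 0 then 0 else aeval (y ^ 2) (Q n)) + k n) (u : ℂ) :
    ev (fun n => (if n = 0 then 0 else aeval u (Q n)) + k n) * (Yc ℂ ^ 2 - HahnSeries.C u)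
      = th (Yc ℂ) * (-Yc ℂ) := by
  obtain ⟨y, rfl⟩ := IsAlgClosed.exists_pow_nat_eq u two_pos
  have h1 : (fun n => (if n = 0 then 0 else aeval (y ^ 2) (Q n)) + k n)
      = fun n => aeval y (P (2 * n)) := funext fun n => (hk n y).symm
  rw [h1]
  exact key hP y

lemma ev_sub {b₁ b₂ : ℕ → ℂ} {c : ℂ} {β : ℕ → ℤ} (h : ∀ n, b₁ n - b₂ n = c * β n) :
    ev b₁ - ev b₂ = HahnSeries.C c * mapL (Int.castRingHom ℂ) (ev β) := by
  ext n
  rw [HahnSeries.coeff_sub, HahnSeries.C_mul_eq_smul, HahnSeries.coeff_smul, coeff_mapL,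
    coeff_ev, coeff_ev, coeff_ev]
  split_ifs with hn
  · rw [h, eq_intCast, smul_eq_mul]
  · simp

lemma exists_den (O : ValuationSubring ℂ) (W : Multiset ℂ) (hW : ∀ y ∈ W, y ∈ O) :
    ∃ P₂ : O[X], P₂.Monic ∧ P₂.map O.subtype = (W.map fun u => (X ^ 2 - C u : ℂ[X])).prod := by
  lift W to Multiset O using hW
  refine ⟨(W.map fun u => (X ^ 2 - C u : O[X])).prod,
    monic_multiset_prod_of_monic _ _ fun y _ => monic_X_pow_sub_C _ two_ne_zero, ?_⟩
  rw [Polynomial.map_multiset_prod, Multiset.map_map, Multiset.map_map]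
  congr 1
  refine Multiset.map_congr rfl fun y _ => ?_
  simp

lemma coeff_fin {k : Type} [Field k] (β : ℕ → ℤ) (n : ℤ) :
    (mapL (Int.castRingHom k) (ev fun n => if n = 0 then 0 else β n)).coeff n
      = if 0 < n ∧ Even n then ((β (n / 2).toNat : ℤ) : k) else 0 := by
  rw [coeff_mapL, coeff_ev]
  by_cases h0 : 0 < n ∧ Even n
  · have h1 : (n / 2).toNat ≠ 0 := by
      obtain ⟨h2, m, rfl⟩ := h0
      omega
    rw [if_pos h0, if_pos ⟨h0.1.le, h0.2⟩, if_neg h1, eq_intCast]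
  · rw [if_neg h0]
    split_ifs with h1 h2
    · exact map_zero _
    · exact absurd ⟨by omega, h1.2⟩ h0
    · exact map_zero _

end Gen2Aux

open Gen2Aux in
theorem span2_of (h : POL) : SPAN2 := by
  intro Q hQ T
  obtain ⟨n, hn⟩ : ∃ n, T.natDegree ≤ n := ⟨_, le_rfl⟩
  induction n generalizing T with
  | zero =>
    rw [eq_C_of_natDegree_le_zero hn, ← mul_one (C _), ← smul_eq_C_mul]
    exact Submodule.smul_mem _ _ (Submodule.subset_span (Set.mem_insert _ _))
  | succ n ih =>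
    obtain ⟨h1, h2⟩ := hq_monic h hQ n.succ_pos
    have h3 : (Q (n + 1)).coeff (n + 1) = 1 := by
      have := h2.coeff_natDegree
      rwa [h1] at this
    have h4 := ih (T - T.coeff (n + 1) • Q (n + 1)) (by
      rw [natDegree_le_iff_coeff_eq_zero]
      intro N hN
      rw [coeff_sub, coeff_smul, smul_eq_mul]
      rcases Nat.eq_or_lt_of_le (Nat.succ_le_of_lt hN) with h5 | h5
      · rw [← h5, h3, mul_one, sub_self]
      · rw [coeff_eq_zero_of_natDegree_lt (lt_of_le_of_lt hn h5),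
          coeff_eq_zero_of_natDegree_lt (p := Q (n + 1)) (by rw [h1]; exact h5), mul_zero, sub_zero])
    rw [← sub_add_cancel T (T.coeff (n + 1) • Q (n + 1))]
    exact add_mem h4 (Submodule.smul_mem _ _ (Submodule.subset_span
      (Set.mem_insert_of_mem _ ⟨n + 1, n.succ_pos, rfl⟩)))

open Gen2Aux in
theorem gen2_of (h : POL) (hF : FAB) : GEN2 := by
  intro Q hQ O U V c β hc hΓ hcard hβ
  obtain ⟨P, hP⟩ := hF
  choose k hk using cst h hP hQ
  obtain ⟨N₁, h₁⟩ := sum_key (key2 hP hk) U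
  obtain ⟨N₂, h₂⟩ := sum_key (key2 hP hk) V
  have hev := ev_sub (c := c) (β := fun n => if n = 0 then 0 else β n)
    (b₁ := fun n => (U.map fun u => (if n = 0 then 0 else aeval u (Q n)) + k n).sum)
    (b₂ := fun n => (V.map fun u => (if n = 0 then 0 else aeval u (Q n)) + k n).sum) fun m => by
      by_cases hm : m = 0
      · simp [hm, hcard]
      · have := hβ m (by omega)
        simp only [hm, if_false, Multiset.sum_map_add, Multiset.map_const',
          Multiset.sum_replicate, hcard]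
        linear_combination this
  obtain ⟨P₂, hm, hmap⟩ := exists_den O (U + V) hΓ
  rw [Multiset.map_add, Multiset.prod_add] at hmap
  generalize (U.map fun u => (X ^ 2 - C u : ℂ[X])).prod = D₁ at h₁ hmap
  generalize (V.map fun u => (X ^ 2 - C u : ℂ[X])).prod = D₂ at h₂ hmap
  refine ⟨_, fin h O _ hc hm (N := N₁ * D₂ - N₂ * D₁) ?_, coeff_fin β⟩
  rw [← hev, hmap, map_mul, map_sub, map_mul, map_mul]
  linear_combination aeval (Yc ℂ) D₂ * h₁ - aeval (Yc ℂ) D₁ * h₂

end Pool.Agent.MP_c481b3_nt.H31F
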