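import Pool.Agent.MP_c481b3_nt.H31F.Spec

set_option autoImplicit false

namespace Pool.Agent.MP_c481b3_nt.H31F

open UpperHalfPlane hiding I
open Polynomial

lemma newt {s t : Multiset ℂ} (h : ∀ n : ℕ, (s.map (· ^ n)).sum = (t.map (· ^ n)).sum) :
    s = t := by
  classical
  have hp : ∀ p : ℂ[X], (s.map p.eval).sum = (t.map p.eval).sum := fun p => by
    induction p using Polynomial.induction_on' with
    | add p q hp hq =>
      simp only [show (p + q).eval = fun x => p.eval x + q.eval x from funext fun _ => eval_add,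
        Multiset.sum_map_add, hp, hq]
    | monomial n a =>
      simp only [show (monomial n a).eval = fun x => a * x ^ n from funext fun _ => eval_monomial,
        Multiset.sum_map_mul_left, h]
  ext a
  set p : ℂ[X] := ∏ b ∈ (s + t).toFinset.erase a, (X - C b) with hp'
  have z : ∀ b, b ≠ a → b ∈ s + t → p.eval b = 0 := fun b h1 h2 => by
    rw [hp', eval_prod]
    exact Finset.prod_eq_zero (i := b) (by simp only [Finset.mem_erase, Multiset.mem_toFinset]; tauto)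
      (by simp)
  have n : p.eval a ≠ 0 := by
    rw [hp', eval_prod]
    exact Finset.prod_ne_zero_iff.2 fun b hb => by
      simpa [sub_eq_zero] using (Finset.mem_erase.1 hb).1.symm
  have := hp p
  rw [Multiset.sum_map_eq_nsmul_single a fun b h1 h2 => z b h1 (Multiset.mem_add.2 (Or.inl h2)),
    Multiset.sum_map_eq_nsmul_single a fun b h1 h2 => z b h1 (Multiset.mem_add.2 (Or.inr h2)),
    nsmul_eq_mul, nsmul_eq_mul] at this
  exact_mod_cast mul_right_cancel₀ n this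

lemma aeval_par {T : ℤ[X]} {n : ℕ} (h : ∀ i, i % 2 ≠ n % 2 → T.coeff i = 0) {κ : ℂ}
    (hκ : κ = 1 ∨ κ = -1) (y : ℂ) : aeval (κ * y) T = κ ^ n * aeval y T := by
  rw [aeval_eq_sum_range, aeval_eq_sum_range, Finset.mul_sum]
  refine Finset.sum_congr rfl fun i _ => ?_
  by_cases hi : i % 2 = n % 2
  · have : κ ^ i = κ ^ n := by
      rcases hκ with rfl | rfl
      · simp
      · rw [neg_one_pow_eq_pow_mod_two, hi, ← neg_one_pow_eq_pow_mod_two]
    rw [mul_pow, this, zsmul_eq_mul, zsmul_eq_mul]; ring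
  · simp [h i hi]

lemma map_aeval (ρ : ℂ ≃+* ℂ) (y : ℂ) (T : ℤ[X]) : ρ (aeval y T) = aeval (ρ y) T :=
  (aeval_algHom_apply (ρ : ℂ →+* ℂ).toIntAlgHom y T).symm

lemma sign_of_sq (ρ : ℂ ≃+* ℂ) {w : ℂ} {a : ℤ} (h : w ^ 2 = a) :
    ∃ κ : ℂ, (κ = 1 ∨ κ = -1) ∧ ρ w = κ * w := by
  have : ρ w ^ 2 = w ^ 2 := by rw [← map_pow, h, map_intCast]
  rcases sq_eq_sq_iff_eq_or_eq_neg.1 this with e | e
  · exact ⟨1, Or.inl rfl, by simpa using e⟩
  · exact ⟨-1, Or.inr rfl, by simpa using e⟩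

lemma sign_sq {κ : ℂ} (h : κ = 1 ∨ κ = -1) : κ * κ = 1 := by rcases h with rfl | rfl <;> simp

lemma isIntegral_aeval {y : ℂ} (h : IsIntegral ℤ y) (T : ℤ[X]) : IsIntegral ℤ (aeval y T) :=
  adjoin_le_integralClosure h (aeval_mem_adjoin_singleton ℤ y)

/-- the oriented Galois orbit -/
structure Orb (y₀ w : ℂ) (G : Multiset ℂ) : Prop where
  int : ∀ y ∈ G, IsIntegral ℤ y
  gal : ∀ (ρ : ℂ ≃+* ℂ) (κ : ℂ), ρ w = κ * w → (κ = 1 ∨ κ = -1) → G.map ρ = G.map (κ * ·)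
  ne : G ≠ G.map ((-1 : ℂ) * ·)
  cj : ∀ y ∈ G, ∃ (ρ : ℂ ≃+* ℂ) (η : ℂ), (η = 1 ∨ η = -1) ∧ y = η * ρ y₀

lemma exists_orb (hA : AUT) {y₀ w : ℂ} {a : ℤ} (hw : w ^ 2 = a) (w0 : w ≠ 0)
    (hi : IsIntegral ℤ y₀) (hn : ∀ ρ : ℂ ≃+* ℂ, ρ (y₀ / w) ≠ -(y₀ / w)) : ∃ G, Orb y₀ w G := by
  classical
  set u := y₀ / w with hu
  have wi : IsIntegral ℚ w := by
    refine IsIntegral.of_pow two_pos ?_
    rw [hw]
    exact_mod_cast isIntegral_algebraMap (R := ℚ) (A := ℂ) (x := (a : ℚ))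
  have ui : IsIntegral ℚ u := by
    rw [hu, div_eq_mul_inv]
    exact hi.tower_top.mul wi.inv
  set R := (minpoly ℚ u).aroots ℂ with hR
  have hr : ∀ x, x ∈ R ↔ aeval x (minpoly ℚ u) = 0 := fun x => by
    rw [hR, mem_aroots]; exact and_iff_right (minpoly.ne_zero ui)
  have nd : R.Nodup := nodup_roots ((minpoly.irreducible ui).separable.map)
  have st : ∀ (ρ : ℂ ≃+* ℂ) x, x ∈ R → ρ x ∈ R := fun ρ x hx => by
    rw [hr] at hx ⊢
    have := aeval_algHom_apply (ρ : ℂ →+* ℂ).toRatAlgHom x (minpoly ℚ u)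
    rw [hx, map_zero] at this
    exact this
  have gal : ∀ ρ : ℂ ≃+* ℂ, R.map ρ = R := fun ρ =>
    (Multiset.Nodup.ext (nd.map ρ.injective) nd).2 fun x => ⟨fun h => by
      obtain ⟨y, h1, rfl⟩ := Multiset.mem_map.1 h
      exact st ρ y h1, fun h => Multiset.mem_map.2 ⟨ρ.symm x, st _ _ h, by simp⟩⟩
  have ex : ∀ x : ℂ, ∃ (ρ : ℂ ≃+* ℂ) (η : ℂ), (η = 1 ∨ η = -1) ∧
      (x ∈ R → η * ρ y₀ = w * x) := fun x => by
    by_cases hx : x ∈ R
    · obtain ⟨ρ, h⟩ := hA.cj u x ui.isAlgebraic ((hr x).1 hx)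
      obtain ⟨η, h1, h2⟩ := sign_of_sq ρ hw
      refine ⟨ρ, η, h1, fun _ => ?_⟩
      rw [show y₀ = w * u by rw [hu]; field_simp, map_mul, h, h2, ← mul_assoc, ← mul_assoc,
        sign_sq h1, one_mul]
    · exact ⟨RingEquiv.refl ℂ, 1, Or.inl rfl, fun h => absurd h hx⟩
  choose ρ η h1 h2 using ex
  refine ⟨R.map (w * ·), fun y hy => ?_, fun σ κ k1 k2 => ?_, fun e => ?_, fun y hy => ?_⟩
  · obtain ⟨x, hx, rfl⟩ := Multiset.mem_map.1 hy
    have := hi.map (ρ x : ℂ →+* ℂ).toIntAlgHom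
    rw [← h2 x hx]
    rcases h1 x with e | e <;> rw [e]
    · simpa using this
    · simpa using this.neg
  · conv_rhs => rw [← gal σ]
    simp only [Multiset.map_map]
    exact Multiset.map_congr rfl fun x _ => by simp [k1, mul_assoc]
  · have : w * u ∈ R.map (w * ·) := Multiset.mem_map_of_mem _ ((hr u).2 (minpoly.aeval ℚ u))
    rw [e, Multiset.map_map] at this
    obtain ⟨x, hx, e'⟩ := Multiset.mem_map.1 this
    obtain ⟨σ, h⟩ := hA.cj u x ui.isAlgebraic ((hr x).1 hx)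
    refine hn σ (h.trans (mul_left_cancel₀ w0 ?_))
    simp only [Function.comp_apply] at e'
    linear_combination -e'
  · obtain ⟨x, hx, rfl⟩ := Multiset.mem_map.1 hy
    exact ⟨ρ x, η x, h1 x, (h2 x hx).symm⟩

namespace Orb
variable {P : ℕ → ℤ[X]} {y₀ w : ℂ} {G : Multiset ℂ}

lemma gal_sum (o : Orb y₀ w G) {ρ : ℂ ≃+* ℂ} {κ : ℂ} (k1 : ρ w = κ * w) (k2 : κ = 1 ∨ κ = -1)
    {T : ℤ[X]} {n : ℕ} (h : ∀ i, i % 2 ≠ n % 2 → T.coeff i = 0) :
    ρ (G.map fun y => aeval y T).sum = κ ^ n * (G.map fun y => aeval y T).sum := by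
  have := congrArg (fun s => (Multiset.map (fun y => aeval y T) s).sum) (o.gal ρ κ k1 k2)
  simp only [Multiset.map_map, Function.comp_def, aeval_par h k2, Multiset.sum_map_mul_left] at this
  rw [map_multiset_sum, Multiset.map_map, ← this]
  simp only [Function.comp_def, map_aeval]

lemma int_sum (o : Orb y₀ w G) (T : ℤ[X]) : IsIntegral ℤ (G.map fun y => aeval y T).sum :=
  IsIntegral.multiset_sum fun x hx => by
    obtain ⟨y, hy, rfl⟩ := Multiset.mem_map.1 hx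
    exact isIntegral_aeval (o.int y hy) T

lemma span (hP : IsFb P) {c : ℂ} {β : ℕ → ℤ}
    (h : ∀ n, Odd n → (G.map fun y => aeval y (P n)).sum = c * β n) {T : ℤ[X]}
    (hT : ∀ i, Even i → T.coeff i = 0) : ∃ z : ℤ, (G.map fun y => aeval y T).sum = c * z ∧
      ((∀ n, Odd n → β n = 0) → z = 0) := by
  have := hP.span T hT
  clear hT
  induction this using Submodule.span_induction with
  | mem x hx =>
    obtain ⟨n, hn, rfl⟩ := hx
    exact ⟨β n, h n hn, fun e => e n hn⟩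
  | zero => exact ⟨0, by simp, fun _ => rfl⟩
  | add x y _ _ hx hy =>
    obtain ⟨a, a1, a2⟩ := hx
    obtain ⟨b, b1, b2⟩ := hy
    refine ⟨a + b, ?_, fun e => by rw [a2 e, b2 e, add_zero]⟩
    simp only [map_add, Multiset.sum_map_add, a1, b1]
    push_cast; ring
  | smul a x _ hx =>
    obtain ⟨b, b1, b2⟩ := hx
    refine ⟨a * b, ?_, fun e => by rw [b2 e, mul_zero]⟩
    simp only [map_zsmul]
    simp only [zsmul_eq_mul, Multiset.sum_map_mul_left, b1]
    push_cast; ring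

/-- normalisation of the traces at the prime `l` -/
lemma normal (o : Orb y₀ w G) (hA : AUT) (hP : IsFb P) {a : ℤ} (hw : w ^ 2 = a) (w0 : w ≠ 0)
    {l : ℕ} (hl : l.Prime) : ∃ (c : ℂ) (β : ℕ → ℤ) (m₀ : ℕ), c ≠ 0 ∧ Odd m₀ ∧ ¬(l : ℤ) ∣ β m₀ ∧
      ∀ n, Odd n → (G.map fun y => aeval y (P n)).sum = c * β n := by
  classical
  have wi : IsIntegral ℤ w := by
    refine IsIntegral.of_pow two_pos ?_
    rw [hw]
    exact isIntegral_algebraMap (R := ℤ) (A := ℂ) (x := a)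
  have ex : ∀ n, ∃ z : ℤ, Odd n → (G.map fun y => aeval y (P n)).sum = w⁻¹ * z := fun n => by
    by_cases hn : Odd n
    · have i1 := wi.mul (o.int_sum (P n))
      obtain ⟨q, hq⟩ := hA.fix _ (i1.tower_top (A := ℚ)).isAlgebraic fun ρ => by
        obtain ⟨κ, k2, k1⟩ := sign_of_sq ρ hw
        rw [map_mul, o.gal_sum k1 k2 (hP.par n), k1]
        rcases k2 with rfl | rfl
        · simp
        · rw [hn.neg_one_pow]; ring
      rw [hq] at i1
      obtain ⟨z, hz⟩ := IsIntegrallyClosed.isIntegral_iff.1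
        ((isIntegral_algebraMap_iff (algebraMap ℚ ℂ).injective).1 i1)
      refine ⟨z, fun _ => ?_⟩
      rw [eq_inv_mul_iff_mul_eq₀ w0, hq, ← hz]; simp
    · exact ⟨0, fun h => absurd h hn⟩
  choose z hz using ex
  have nz : ∃ n, Odd n ∧ z n ≠ 0 := by
    by_contra! h
    refine o.ne (newt fun n => ?_)
    rw [Multiset.map_map]
    simp only [Function.comp_def, mul_pow, Multiset.sum_map_mul_left]
    rcases Nat.even_or_odd n with hn | hn
    · rw [hn.neg_one_pow, one_mul]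
    · obtain ⟨y, y1, y2⟩ := span hP hz (T := X ^ n) fun i hi => by
        rw [coeff_X_pow, if_neg]
        rintro rfl
        exact Nat.not_even_iff_odd.2 hn hi
      simp only [map_pow, aeval_X] at y1
      rw [y1, y2 h]; simp
  have nz' : ∃ k, ∃ n, Odd n ∧ ¬(l : ℤ) ^ (k + 1) ∣ z n := by
    obtain ⟨n, n1, n2⟩ := nz
    refine ⟨(z n).natAbs, n, n1, fun h => ?_⟩
    have h1 := Nat.le_of_dvd (Int.natAbs_pos.2 n2) (Int.natAbs_dvd_natAbs.2 h)
    rw [Int.natAbs_pow, Int.natAbs_natCast] at h1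
    have := Nat.lt_pow_self (n := (z n).natAbs + 1) hl.one_lt
    omega
  obtain ⟨m₀, m1, m2⟩ := Nat.find_spec nz'
  have dv : ∀ n, ∃ b : ℤ, Odd n → z n = (l : ℤ) ^ Nat.find nz' * b := fun n => by
    by_cases hn : Odd n
    · rcases e : Nat.find nz' with _ | k
      · exact ⟨z n, fun _ => by simp⟩
      · have := Nat.find_min nz' (m := k) (by omega)
        push Not at this
        exact (this n hn).imp fun b hb _ => hb
    · exact ⟨0, fun h => absurd h hn⟩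
  choose β hβ using dv
  refine ⟨w⁻¹ * l ^ Nat.find nz', β, m₀, mul_ne_zero (inv_ne_zero w0) (pow_ne_zero _ (by
    exact_mod_cast hl.ne_zero)), m1, fun h => m2 ?_, fun n hn => ?_⟩
  · rw [hβ m₀ m1, pow_succ]
    exact mul_dvd_mul_left _ h
  · rw [hz n hn, hβ n hn]; push_cast; ring

end Orb

/-- the power sums over the family of matrices are integer polynomials -/
def PS (F : Finset M2) : Prop := ∀ n : ℕ, ∃ T : ℤ[X], (∀ i, i % 2 ≠ n % 2 → T.coeff i = 0) ∧
  ∀ τ, ∑ M ∈ F, YY (act M τ) ^ n = aeval (YY τ) T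

/-- the oriented Hecke orbit -/
noncomputable def hk (t : ℂ → ℍ) (G : Multiset ℂ) (F : Finset M2) : Multiset ℂ :=
  G.bind fun y => F.val.map fun M => YY (act M (t y))

section hk
variable {t : ℂ → ℍ} (ht : ∀ y, YY (t y) = y) {w : ℂ} {G : Multiset ℂ} {F : Finset M2} {τ : ℍ}
include ht

lemma hk_pow {n : ℕ} {T : ℤ[X]} (h : ∀ τ, ∑ M ∈ F, YY (act M τ) ^ n = aeval (YY τ) T) :
    ((hk t G F).map (· ^ n)).sum = (G.map fun y => aeval y T).sum := by
  rw [hk, Multiset.map_bind, Multiset.sum_bind]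
  refine congrArg _ (Multiset.map_congr rfl fun y _ => ?_)
  have := h (t y)
  rw [ht] at this
  rw [← this, Multiset.map_map]
  rfl

lemma hk_gal (o : Orb (YY τ) w G) (hF : PS F) {ρ : ℂ ≃+* ℂ} {κ : ℂ} (k1 : ρ w = κ * w)
    (k2 : κ = 1 ∨ κ = -1) : (hk t G F).map ρ = (hk t G F).map (κ * ·) := newt fun n => by
  obtain ⟨T, t1, t2⟩ := hF n
  have := o.gal_sum k1 k2 t1
  rw [← hk_pow ht t2, map_multiset_sum, ← Multiset.sum_map_mul_left] at this
  simpa only [Multiset.map_map, Function.comp_def, map_pow, mul_pow] using this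

lemma hk_mem (o : Orb (YY τ) w G) (hF : PS F) {y : ℂ} (hy : y ∈ hk t G F) :
    ∃ ρ : ℂ ≃+* ℂ, ∃ M ∈ F, y ^ 2 = ρ (YY (act M τ)) ^ 2 := by
  obtain ⟨x, hx, hy⟩ := Multiset.mem_bind.1 hy
  obtain ⟨ρ, η, h1, h2⟩ := o.cj x hx
  have e : (F.val.map fun M => YY (act M (t x))) = F.val.map fun M => η * ρ (YY (act M τ)) :=
    newt fun n => by
      obtain ⟨T, t1, t2⟩ := hF n
      have a := t2 (t x)
      rw [ht, h2, aeval_par t1 h1, ← map_aeval, ← t2, map_sum, Finset.mul_sum, ← h2] at a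
      simp only [Multiset.map_map, Function.comp_def, mul_pow, ← map_pow]
      exact a
  rw [e] at hy
  obtain ⟨M, hM, rfl⟩ := Multiset.mem_map.1 hy
  exact ⟨ρ, M, hM, by rw [mul_pow, pow_two η, sign_sq h1, one_mul]⟩

end hk

end Pool.Agent.MP_c481b3_nt.H31F
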