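import Pool.Agent.MP_c481b3_nt.H31F.Spec

set_option autoImplicit false

namespace Pool.Agent.MP_c481b3_nt.H31F

open UpperHalfPlane hiding I
open Complex Polynomial IsLocalRing Finset Filter
open scoped ComplexConjugate

/-- all entries are divisible by `r` -/
def Dv (r : ℕ) (M : M2) : Prop := ∀ i j, (r : ℤ) ∣ M i j

open Classical in
/-- the triangular matrices that are not divisible by `r` -/
noncomputable def Pn (r m : ℕ) : Finset M2 := (Hk 2 m).filter fun M => ¬Dv r M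

/-- removal of the matrices divisible by `r` -/
def PR : Prop := ∀ (r m : ℕ) (f : ℍ → ℂ) (τ : ℍ), r.Prime → r ≠ 2 →
  ∑ M ∈ Hk 2 m, f (act M τ) = ∑ M ∈ Pn r m, f (act M τ)
    + if r ^ 2 ∣ m then ∑ M ∈ Hk 2 (m / r ^ 2), f (act M τ) else 0

/-- an inert prime divides the conductor -/
def NOR2 : Prop := ∀ (d r : ℕ) (M Λ : M2), 0 < d → 0 < M.det → 0 < Λ.det → r.Prime → r ≠ 2 →
  ¬IsSquare (-(d : ZMod r)) → (r : ℤ) ∣ M.det → ¬Dv r M → act Λ (act M (om d)) = act M (om d) →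
  (r : ℤ) ^ 2 ∣ 4 * Λ.det - Λ.trace ^ 2 ∧
    ((∀ x : ℤ, den Λ (act M (om d)) ≠ x) → 0 < 4 * Λ.det - Λ.trace ^ 2)

/-- singular moduli are integral -/
def INTJ2 : Prop := ∀ (d : ℕ) (M : M2), 0 < d → Squarefree d → 0 < M.det →
  IsIntegral ℤ (YY (act M (om d))) ∧ IsIntegral ℤ (JJ (act M (om d)))

/-- passage to the canonical lift -/
def LOC2 : Prop := ∀ (d : ℕ), 0 < d → Squarefree d → ∀ (O : ValuationSubring ℂ) (a b : ℚ),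
  a ^ 2 + d * b ^ 2 = 1 → O.valuation ((a : ℂ) + b * sq d) ≠ 1 →
  ∀ p : ℕ, p.Prime → O.valuation (p : ℂ) < 1 → ∀ (M : M2) (y : ℂ) (f : ℕ), 0 < M.det → 0 < f →
    O.valuation (JJ (act M (om d)) - y) < 1 → O.valuation (y ^ p ^ f - y) < 1 →
    ∃ (N M' Λ : M2) (i k : ℕ), M = N * M' ∧ N.det = (p : ℤ) ^ k ∧ 0 < M'.det ∧ ¬(p : ℤ) ∣ M'.det ∧
      O.valuation (JJ (act M' (om d)) - y ^ p ^ i) < 1 ∧ Λ.det = (p : ℤ) ^ f ∧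
      act Λ (act M' (om d)) = act M' (om d) ∧ ∀ x : ℤ, den Λ (act M' (om d)) ≠ x

/-- uniqueness of canonical lifts -/
def CAN3 : Prop := ∀ (O : ValuationSubring ℂ) (p : ℕ), p.Prime → O.valuation (p : ℂ) < 1 →
  ∀ (τ₁ τ₂ : ℍ) (Q₁ Q₂ : M2) (h₁ h₂ : ℕ), 0 < h₁ → 0 < h₂ → Q₁.det = (p : ℤ) ^ h₁ →
    Q₂.det = (p : ℤ) ^ h₂ → act Q₁ τ₁ = τ₁ → act Q₂ τ₂ = τ₂ → O.valuation (den Q₁ τ₁) = 1 →
    O.valuation (den Q₂ τ₂) = 1 → IsIntegral ℤ (JJ τ₁) → IsIntegral ℤ (JJ τ₂) →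
    O.valuation (JJ τ₁ - JJ τ₂) < 1 → JJ τ₁ = JJ τ₂

/-- every complex number is a value -/
def SURJ : Prop := ∀ y : ℂ, ∃ τ : ℍ, YY τ = y

/-- the modular polynomial on the diagonal -/
def PHI : Prop := ∀ N : ℕ, 0 < N → ∃ φ : ℤ[X], ∀ τ : ℍ,
  ∏ M ∈ Hk 1 N, (JJ τ - JJ (act M τ)) = aeval (JJ τ) φ

/-- the conductor only depends on the reduction -/
def SRV : Prop := ∀ (R : Type) [CommRing R] (σ₁ σ₂ : R →+* ℂ) (O₁ O₂ : ValuationSubring ℂ)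
  (u w : R) (d p r i₁ i₂ : ℕ) (a b : ℚ) (M₁ M₂ : M2), 0 < d → Squarefree d → p.Prime →
  O₁.valuation (p : ℂ) < 1 → O₂.valuation (p : ℂ) < 1 → (∀ x, σ₁ x ∈ O₁) → (∀ x, σ₂ x ∈ O₂) →
  (∀ x, O₁.valuation (σ₁ x) < 1 ↔ O₂.valuation (σ₂ x) < 1) → ¬O₁.valuation (σ₁ w) < 1 →
  a ^ 2 + d * b ^ 2 = 1 → O₂.valuation ((a : ℂ) + b * sq d) ≠ 1 → 0 < M₁.det → 0 < M₂.det →
  ¬(p : ℤ) ∣ M₁.det → ¬(p : ℤ) ∣ M₂.det →
  O₁.valuation (JJ (act M₁ (om d)) - (σ₁ u / σ₁ w) ^ p ^ i₁) < 1 →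
  O₂.valuation (JJ (act M₂ (om d)) - (σ₂ u / σ₂ w) ^ p ^ i₂) < 1 →
  r.Prime → r ≠ 2 → ¬IsSquare (-(d : ZMod r)) → (r : ℤ) ∣ M₂.det → ¬Dv r M₂ → (r : ℤ) ∣ M₁.det

/-- the product of the discriminants over a Hecke orbit -/
def DPR : Prop := ∀ (m : ℕ) (τ : ℍ), Odd m →
  ∏ M ∈ Hk 2 m, ‖dl (act M τ)‖ = ‖dl τ‖ ^ (Hk 2 m).card

/-- the height along a Hecke orbit -/
def HT : Prop := ∀ (τ : ℍ) (B : ℝ), 1 ≤ B → ∃ C : ℝ, ∀ m : ℕ, Odd m → 3 ≤ m →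
  ∏ M ∈ Hk 2 m, (B * (1 + ‖JJ (act M τ)‖)) ≤ Real.exp (C * m * Real.log m ^ 2)

/-- the operators `U` and `V` differ early -/
def ORD : Prop := ∀ (O : ValuationSubring ℂ) (g : LS (ResidueField O)), InU _ g → g ≠ 0 →
  (∀ n, n ≤ 0 → g.coeff n = 0) → (∀ n, Even n → g.coeff n = 0) → ∃ C : ℕ, ∀ r : ℕ, r.Prime → r ≠ 2 →
    (r : ResidueField O) ≠ 0 → (r : ResidueField O) + 1 ≠ 0 → ∃ n : ℕ, 0 < n ∧ n ≤ C * r ^ 2 ∧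
      g.coeff (r * n : ℕ) ≠ if r ∣ n then g.coeff (n / r : ℕ) else 0

/-- the admissible auxiliary primes -/
def Gd (d l R r : ℕ) : Prop := r.Prime ∧ R < r ∧ ¬IsSquare (-(d : ZMod r)) ∧ ¬l ∣ r + 1

/-- the final count -/
def CNT : Prop := ∀ (ι : Type) (nm : ι → ℕ) (S : Set ι) (d l R : ℕ) (C : ℝ) (f : ℕ → ι)
  (g : ℕ → ℕ), 0 < d → l.Prime → 5 ≤ l → (∀ x : ℝ, {P | (nm P : ℝ) ≤ x}.Finite) →
  (∀ r, Gd d l R r → f r ∈ S ∧ 0 < g r ∧ (g r : ℝ) ≤ C * r ^ 3 ∧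
    (nm (f r) : ℝ) ≤ Real.exp (C * r ^ 3 * Real.log r ^ 2)) →
  (∀ r r', Gd d l R r → Gd d l R r' → f r = f r' → r' ∣ g r) →
  ∃ c : ℝ, 0 < c ∧ ∀ᶠ x : ℝ in atTop,
    c * Real.log x ^ (1 / 3 : ℝ) / Real.log (Real.log x) ^ (5 / 3 : ℝ)
      ≤ ({P | P ∈ S ∧ (nm P : ℝ) ≤ x}.ncard : ℝ)

/-- the base point and the sign of its endomorphisms of prime degree -/
def EPS2 : Prop := ∀ (d : ℕ) (D : ℤ), 0 < d → Squarefree d → Tab d D → ∃ M₀ : M2, 0 < M₀.det ∧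
  (∀ r : ℂ, r ^ 2 = D → conj (YY (act M₀ (om d)) / (sq d * r)) = YY (act M₀ (om d)) / (sq d * r)) ∧
  YY (act M₀ (om d)) ≠ 0 ∧
  ∀ (Λ : M2) (q : ℕ), q.Prime → q ≠ 2 → ¬(q : ℤ) ∣ D → Λ.det = q →
    act Λ (act M₀ (om d)) = act M₀ (om d) → eps Λ = jacobiSym D q

/-- the oriented invariant is not conjugate to its negative -/
def CMP2 : Prop := ∀ (d : ℕ) (D : ℤ) (r : ℂ), 0 < d → Squarefree d → Tab d D → r ^ 2 = D →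
  ∃ M₀ : M2, 0 < M₀.det ∧ ∀ ρ : ℂ ≃+* ℂ,
    ρ (YY (act M₀ (om d)) / (sq d * r)) ≠ -(YY (act M₀ (om d)) / (sq d * r))

end Pool.Agent.MP_c481b3_nt.H31F
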