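import Pool.Agent.MP_c481b3_nt.H31F.GlueA
import Pool.Agent.MP_c481b3_nt.H31F.Spec2

set_option autoImplicit false

namespace Pool.Agent.MP_c481b3_nt.H31F

open UpperHalfPlane hiding I
open Polynomial

section val
variable {O : ValuationSubring ℂ}

lemma v_le {x : ℂ} (h : x ∈ O) : O.valuation x ≤ 1 := (O.valuation_le_one_iff x).2 h

lemma v_mem {x : ℂ} (h : O.valuation x ≤ 1) : x ∈ O := (O.valuation_le_one_iff x).1 h

lemma dich {z : ℂ} (h : O.valuation ((1 - z) / (1 + z)) ≠ 1) :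
    O.valuation z = 1 ∧ O.valuation (z ^ 2 - 1) < 1 := by
  rw [map_div₀] at h
  rcases lt_trichotomy (O.valuation z) 1 with c | c | c
  · rw [O.valuation.map_one_sub_of_lt c, O.valuation.map_one_add_of_lt c, div_one] at h
    exact absurd rfl h
  · refine ⟨c, ?_⟩
    have m := v_mem c.le
    have a := v_le (sub_mem (one_mem O) m)
    have b := v_le (add_mem (one_mem O) m)
    rw [show z ^ 2 - 1 = -((1 - z) * (1 + z)) by ring, Valuation.map_neg, map_mul]
    rcases a.lt_or_eq with a' | a'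
    · exact mul_lt_one_of_lt_of_le a' b
    · rcases b.lt_or_eq with b' | b'
      · rwa [a', one_mul]
      · rw [a', b', div_one] at h
        exact absurd rfl h
  · have c' : O.valuation 1 < O.valuation z := by rwa [map_one]
    rw [O.valuation.map_add_eq_of_lt_right c', O.valuation.map_sub_eq_of_lt_right c',
      div_self (zero_lt_one.trans c).ne'] at h
    exact absurd rfl h

lemma exists_ne_one {ι : Type} {s : Multiset ι} {f : ι → ℂ} (h : O.valuation (s.map f).prod ≠ 1) :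
    ∃ i ∈ s, O.valuation (f i) ≠ 1 := by
  by_contra! c
  refine h ?_
  rw [map_multiset_prod, Multiset.map_map]
  refine Multiset.prod_eq_one fun x hx => ?_
  obtain ⟨i, hi, rfl⟩ := Multiset.mem_map.1 hx
  exact c i hi

lemma prod_lt_one {ι : Type} {s : Multiset ι} {f : ι → ℂ} (h : ∀ i ∈ s, f i ∈ O) {j : ι}
    (hj : j ∈ s) (h1 : O.valuation (f j) < 1) : O.valuation (s.map f).prod < 1 := by
  obtain ⟨t, rfl⟩ := Multiset.exists_cons_of_mem hj
  rw [Multiset.map_cons, Multiset.prod_cons, map_mul]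
  refine mul_lt_one_of_lt_of_le h1 (v_le (multiset_prod_mem _ fun x hx => ?_))
  obtain ⟨i, hi, rfl⟩ := Multiset.mem_map.1 hx
  exact h i (Multiset.mem_cons_of_mem hi)

lemma comap_lt (ρ : ℂ →+* ℂ) (x : ℂ) :
    (O.comap ρ).valuation x < 1 ↔ O.valuation (ρ x) < 1 := by
  rw [← ValuationSubring.mem_nonunits_iff, ← ValuationSubring.mem_nonunits_iff,
    ValuationSubring.mem_nonunits_iff_or, ValuationSubring.mem_nonunits_iff_or,
    ValuationSubring.mem_comap, map_inv₀, _root_.map_eq_zero]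

lemma comap_eq (ρ : ℂ →+* ℂ) (x : ℂ) :
    (O.comap ρ).valuation x = 1 ↔ O.valuation (ρ x) = 1 := by
  rw [eq_iff_le_not_lt, eq_iff_le_not_lt, comap_lt, ValuationSubring.valuation_le_one_iff,
    ValuationSubring.valuation_le_one_iff, ValuationSubring.mem_comap]

lemma int_lt {p : ℕ} (hp : p.Prime) (hv : O.valuation (p : ℂ) < 1) {z : ℤ} :
    O.valuation (z : ℂ) < 1 ↔ (p : ℤ) ∣ z := by
  constructor
  · intro h
    by_contra c
    obtain ⟨a, b, e⟩ := (Nat.prime_iff_prime_int.1 hp).irreducible.coprime_iff_not_dvd.2 c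
    have e' : (a : ℂ) * p + b * z = 1 := by exact_mod_cast e
    have := O.valuation.map_add_lt (x := a * p) (y := b * z) (g := 1)
      (by rw [map_mul, mul_comm]; exact mul_lt_one_of_lt_of_le hv (v_le (intCast_mem O a)))
      (by rw [map_mul, mul_comm]; exact mul_lt_one_of_lt_of_le h (v_le (intCast_mem O b)))
    rw [e', map_one] at this
    exact this.false
  · rintro ⟨a, rfl⟩
    rw [Int.cast_mul, map_mul, Int.cast_natCast]
    exact mul_lt_one_of_lt_of_le hv (v_le (intCast_mem O a))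

lemma int_eq {p : ℕ} (hp : p.Prime) (hv : O.valuation (p : ℂ) < 1) {z : ℤ} (h : ¬(p : ℤ) ∣ z) :
    O.valuation (z : ℂ) = 1 :=
  (v_le (intCast_mem O z)).eq_of_not_lt fun c => h ((int_lt hp hv).1 c)

lemma res_int {p : ℕ} (hp : p.Prime) (hv : O.valuation (p : ℂ) < 1) {z : ℤ} :
    (z : IsLocalRing.ResidueField O) = 0 ↔ (p : ℤ) ∣ z := by
  rw [← int_lt hp hv, ← map_intCast (IsLocalRing.residue O), IsLocalRing.residue_eq_zero_iff,
    ValuationSubring.valuation_lt_one_iff]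
  rfl

end val

/-- the element of norm one -/
noncomputable def GG (Γ Z : Multiset ℂ) : ℂ :=
  (Γ.map fun y => (Z.map fun x => (1 - y * x) / (1 + y * x)).prod).prod

lemma map_GG (ρ : ℂ ≃+* ℂ) (Γ Z : Multiset ℂ) : ρ (GG Γ Z) = GG (Γ.map ρ) (Z.map ρ) := by
  simp [GG, map_multiset_prod, Multiset.map_map]

lemma GG_sign {κ κ' : ℂ} (Γ Z : Multiset ℂ) :
    (κ * κ' = 1 → GG (Γ.map (κ * ·)) (Z.map (κ' * ·)) = GG Γ Z) ∧
    (κ * κ' = -1 → GG (Γ.map (κ * ·)) (Z.map (κ' * ·)) = (GG Γ Z)⁻¹) := by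
  have e : ∀ y x : ℂ, κ * y * (κ' * x) = κ * κ' * (y * x) := fun y x => by ring
  constructor <;> intro h
  · simp only [GG, Multiset.map_map, Function.comp_def, e, h, one_mul]
  · simp only [GG, Multiset.map_map, Function.comp_def, e, h, ← Multiset.prod_map_inv', inv_div,
      neg_one_mul, sub_neg_eq_add, ← sub_eq_add_neg]

lemma normone (hA : AUT) {d : ℕ} (hd : 0 < d) {Γ Z : Multiset ℂ}
    (a1 : ∀ y ∈ Γ, IsIntegral ℚ y) (a2 : ∀ x ∈ Z, IsIntegral ℚ x) (h0 : GG Γ Z ≠ 0)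
    (h : ∀ ρ : ℂ ≃+* ℂ, ∃ κ κ' : ℂ, (κ = 1 ∨ κ = -1) ∧ (κ' = 1 ∨ κ' = -1) ∧
      Γ.map ρ = Γ.map (κ * ·) ∧ Z.map ρ = Z.map (κ' * ·) ∧ ρ (sq d) = κ * κ' * sq d) :
    ∃ a b : ℚ, a ^ 2 + d * b ^ 2 = 1 ∧ GG Γ Z = a + b * sq d := by
  have s2 := sq_sq d
  have s0 : sq d ≠ 0 := fun e => by
    rw [e] at s2
    have : (d : ℂ) = 0 := by simpa using s2
    exact hd.ne' (by exact_mod_cast this)
  let L := algebraicClosure ℚ ℂ
  have mL : ∀ {x : ℂ}, IsIntegral ℚ x → x ∈ L := fun h => mem_algebraicClosure_iff'.2 h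
  have gL : GG Γ Z ∈ L := by
    refine multiset_prod_mem _ fun _ hy' => ?_
    obtain ⟨y, hy, rfl⟩ := Multiset.mem_map.1 hy'
    refine multiset_prod_mem _ fun _ hx' => ?_
    obtain ⟨x, hx, rfl⟩ := Multiset.mem_map.1 hx'
    have := mul_mem (mL (a1 y hy)) (mL (a2 x hx))
    exact div_mem (sub_mem (one_mem _) this) (add_mem (one_mem _) this)
  have sL : sq d ∈ L := mL (IsIntegral.of_pow two_pos (by
    rw [s2]
    exact_mod_cast (isIntegral_algebraMap (R := ℚ) (A := ℂ) (x := (d : ℚ))).neg))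
  have tL : (2 : ℂ) ∈ L := by exact_mod_cast natCast_mem L 2
  have key : ∀ ρ : ℂ ≃+* ℂ, (ρ (GG Γ Z) = GG Γ Z ∧ ρ (sq d) = sq d) ∨
      (ρ (GG Γ Z) = (GG Γ Z)⁻¹ ∧ ρ (sq d) = -sq d) := fun ρ => by
    obtain ⟨κ, κ', k1, k2, e1, e2, e3⟩ := h ρ
    rw [map_GG, e1, e2, e3]
    have : κ * κ' = 1 ∨ κ * κ' = -1 := by
      rcases k1 with rfl | rfl <;> rcases k2 with rfl | rfl <;> simp
    rcases this with k | k
    · exact Or.inl ⟨(GG_sign Γ Z).1 k, by rw [k, one_mul]⟩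
    · exact Or.inr ⟨(GG_sign Γ Z).2 k, by rw [k, neg_one_mul]⟩
  generalize GG Γ Z = z at *
  obtain ⟨a, ha⟩ := hA.fix ((z + z⁻¹) / 2)
    (mem_algebraicClosure_iff.1 (div_mem (add_mem gL (inv_mem gL)) tL)) fun ρ => by
      rw [map_div₀, map_add, map_inv₀, map_ofNat]
      rcases key ρ with ⟨e, -⟩ | ⟨e, -⟩ <;> rw [e]
      rw [inv_inv, add_comm]
  obtain ⟨b, hb⟩ := hA.fix ((z - z⁻¹) / (2 * sq d))
    (mem_algebraicClosure_iff.1 (div_mem (sub_mem gL (inv_mem gL)) (mul_mem tL sL))) fun ρ => by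
      rw [map_div₀, map_sub, map_inv₀, map_mul, map_ofNat]
      rcases key ρ with ⟨e, e'⟩ | ⟨e, e'⟩ <;> rw [e, e']
      rw [inv_inv, mul_neg, div_neg, ← neg_div, neg_sub]
  have hb' : (z - z⁻¹) / 2 = b * sq d := by rw [← hb]; field_simp
  refine ⟨a, b, ?_, by rw [← ha, ← hb']; ring⟩
  have : (a : ℂ) ^ 2 + d * b ^ 2 = 1 := by
    have e := mul_inv_cancel₀ h0
    calc (a : ℂ) ^ 2 + d * b ^ 2 = a ^ 2 - (b * sq d) ^ 2 := by rw [mul_pow, s2]; ring
      _ = 1 := by rw [← ha, ← hb']; linear_combination e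
  exact_mod_cast this

lemma ps_hk (hT : TM) {P : ℕ → ℤ[X]} (hP : IsFb P) {m : ℕ} (hm : Odd m) : PS (Hk 2 m) :=
  (hT P hP m hm).2

lemma odd_div {m r : ℕ} (hm : Odd m) (h : r ∣ m) : Odd (m / r) := by
  obtain ⟨k, rfl⟩ := h
  rcases Nat.eq_zero_or_pos r with rfl | h
  · simp at hm
  · rw [Nat.mul_div_cancel_left _ h]
    exact (Nat.odd_mul.1 hm).2

lemma ps_pn (hT : TM) (hR : PR) {P : ℕ → ℤ[X]} (hP : IsFb P) {r m : ℕ} (hr : r.Prime) (h2 : r ≠ 2)
    (hm : Odd m) : PS (Pn r m) ∧ ∀ τ, ∑ M ∈ Pn r m, YY (act M τ) ^ 1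
      = aeval (YY τ) (P m - if r ^ 2 ∣ m then P (m / r ^ 2) else 0) := by
  refine ⟨fun n => ?_, fun τ => ?_⟩
  · obtain ⟨T, t1, t2⟩ := ps_hk hT hP hm n
    by_cases h : r ^ 2 ∣ m
    · obtain ⟨T', t3, t4⟩ := ps_hk hT hP (odd_div hm h) n
      refine ⟨T - T', fun i hi => by rw [coeff_sub, t1 i hi, t3 i hi, sub_zero], fun τ => ?_⟩
      have := hR r m (fun z => YY z ^ n) τ hr h2
      rw [if_pos h, t2, t4] at this
      rw [map_sub, this, add_sub_cancel_right]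
    · refine ⟨T, t1, fun τ => ?_⟩
      have := hR r m (fun z => YY z ^ n) τ hr h2
      rw [if_neg h, t2, add_zero] at this
      exact this.symm
  · have := hR r m YY τ hr h2
    rw [(hT P hP m hm).1] at this
    simp only [pow_one, map_sub, this]
    split_ifs with h
    · rw [(hT P hP _ (odd_div hm h)).1, add_sub_cancel_right]
    · simp

lemma pn_sub (r m : ℕ) : Pn r m ⊆ Hk 2 m := by
  classical
  exact Finset.filter_subset _ _

lemma mem_pn {r m : ℕ} {M : M2} (h : M ∈ Pn r m) : ¬Dv r M := by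
  classical
  exact (Finset.mem_filter.1 h).2

lemma det_hk (h : MAT) {s m : ℕ} {M : M2} (hM : M ∈ Hk s m) : M.det = m := by
  obtain ⟨a, d, b, -, -, rfl, -, rfl⟩ := (h.mem s m M).1 hM
  simp [Matrix.det_fin_two]

lemma Dv.mul_left {r : ℕ} {M : M2} (h : Dv r M) (N : M2) : Dv r (N * M) := fun i j => by
  rw [Matrix.mul_apply]
  exact Finset.dvd_sum fun k _ => (h k j).mul_left _

lemma Dv.mul_right {r : ℕ} {M : M2} (h : Dv r M) (N : M2) : Dv r (M * N) := fun i j => by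
  rw [Matrix.mul_apply]
  exact Finset.dvd_sum fun k _ => (h i k).mul_right _

lemma Dv.cancel {r : ℕ} (hr : r.Prime) {M N : M2} (h : Dv r (M * N)) (hN : ¬(r : ℤ) ∣ N.det) :
    Dv r M := fun i j => by
  have := h.mul_right N.adjugate i j
  rw [Matrix.mul_assoc, Matrix.mul_adjugate, Matrix.mul_smul, Matrix.mul_one, Matrix.smul_apply,
    smul_eq_mul] at this
  exact ((Nat.prime_iff_prime_int.1 hr).dvd_or_dvd this).resolve_left hN

/-- the height of the whole orbit -/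
lemma height (hH : HT) (t : ℂ → ℍ) (G : Multiset ℂ) {B : ℝ} (hB : 1 ≤ B) : ∃ C : ℝ, 0 ≤ C ∧
    ∀ r m : ℕ, Odd m → 3 ≤ m → ((hk t G (Pn r m)).map fun y => B * (1 + ‖y ^ 2 + 1728‖)).prod
      ≤ Real.exp (C * m * Real.log m ^ 2) := by
  induction G using Multiset.induction_on with
  | empty => exact ⟨0, le_rfl, fun r m _ _ => by simp [hk]⟩
  | cons y G ih =>
    obtain ⟨C, c0, hC⟩ := ih
    obtain ⟨C', hC'⟩ := hH (t y) B hB
    refine ⟨|C'| + C, by positivity, fun r m h1 h2 => ?_⟩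
    have pos : ∀ z : ℂ, 1 ≤ B * (1 + ‖z‖) := fun z =>
      one_le_mul_of_one_le_of_one_le hB (le_add_of_nonneg_right (norm_nonneg z))
    rw [hk, Multiset.cons_bind, Multiset.map_add, Multiset.prod_add, add_mul, add_mul, Real.exp_add]
    refine mul_le_mul ?_ (hC r m h1 h2) (Multiset.prod_nonneg fun a ha => ?_) (Real.exp_pos _).le
    · rw [Multiset.map_map]
      refine le_trans ?_ ((hC' m h1 h2).trans (Real.exp_le_exp.2 (by
        gcongr; exact le_abs_self _)))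
      exact Finset.prod_le_prod_of_subset_of_one_le (pn_sub r m)
        (fun i _ => zero_le_one.trans (pos _)) fun i _ _ => pos _
    · obtain ⟨z, -, rfl⟩ := Multiset.mem_map.1 ha
      exact zero_le_one.trans (pos _)

end Pool.Agent.MP_c481b3_nt.H31F
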