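import Pool.Agent.MP_c481b3_nt.H31F.SpecC

set_option autoImplicit false

namespace Pool.Agent.MP_c481b3_nt.H31F

open NumberField Pool.Agent.MP_c481b3_nt.H81 Pool.Agent.MP_c481b3_nt.H28

/-- reduction of a curve whose invariant is congruent to a singular modulus -/
def LINK2 : Prop := ∀ (K : Type) [Field K] [NumberField K] (A B : 𝓞 K) (σ : K →+* ℂ)
  (O : ValuationSubring ℂ) (p d g i : ℕ) (A₀ B₀ : ℂ), p.Prime → 5 ≤ p → O.valuation (p : ℂ) < 1 →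
  ¬p ∣ d → ¬p ∣ g → IsSquare (-(d : ZMod p)) → Good A₀ B₀ → CMv (d * g ^ 2) A₀ B₀ →
  IsIntegral ℤ (jj A₀ B₀) → O.valuation (jj A₀ B₀ - jj (σ A) (σ B) ^ p ^ i) < 1 →
  (∀ P : Ideal (𝓞 K), P.IsMaximal → (p : 𝓞 K) ∈ P → (Wc A B).Δ ∉ P) →
  ∃ P : Ideal (𝓞 K), P.IsMaximal ∧ (p : 𝓞 K) ∈ P ∧ Same A B (-d) P ∧
    ∀ x : 𝓞 K, x ∈ P ↔ O.valuation (σ x) < 1

end Pool.Agent.MP_c481b3_nt.H31F
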