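import Pool.Agent.MP_c481b3_nt.H31F.GlueB
import Pool.Agent.MP_c481b3_nt.H31F.SpecC2

set_option autoImplicit false

namespace Pool.Agent.MP_c481b3_nt.H31F

open UpperHalfPlane hiding I
open Polynomial NumberField Pool.Agent.MP_c481b3_nt.H81 Pool.Agent.MP_c481b3_nt.H28

variable {K : Type} [Field K] [NumberField K]

/-- the oriented conjugates of `1 / √(j - 1728)` -/
noncomputable def Zs (r : ℂ) (z : K) : Multiset ℂ :=
  (Finset.univ : Finset (K →+* ℂ)).val.map fun σ => r * σ z / 864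

lemma univ_gal (ρ : ℂ ≃+* ℂ) : (Finset.univ : Finset (K →+* ℂ)).val.map
    (fun σ => (ρ : ℂ →+* ℂ).comp σ) = Finset.univ.val :=
  Multiset.map_univ_val_equiv ⟨fun σ : K →+* ℂ => (ρ : ℂ →+* ℂ).comp σ,
    fun σ => (ρ.symm : ℂ →+* ℂ).comp σ, fun σ => by ext; simp, fun σ => by ext; simp⟩

lemma Zs_gal {r κ : ℂ} {ρ : ℂ ≃+* ℂ} (h : ρ r = κ * r) (z : K) :
    (Zs r z).map ρ = (Zs r z).map (κ * ·) := by
  rw [Zs, Multiset.map_map]
  conv_rhs => rw [← univ_gal ρ]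
  simp only [Multiset.map_map]
  exact Multiset.map_congr rfl fun σ _ => by simp [h, map_ofNat]; ring

lemma Zs_sum (r : ℂ) (z : K) : (Zs r z).sum = r * (Algebra.trace ℚ K z : ℚ) / 864 := by
  have := trace_eq_sum_embeddings (K := ℚ) (L := K) (E := ℂ) (x := z)
  rw [eq_ratCast, ← Fintype.sum_equiv (RingHom.equivRatAlgHom K ℂ) (fun σ => σ z) _
    fun _ => by simp [RingHom.equivRatAlgHom_apply]] at this
  rw [this, Finset.mul_sum, Finset.sum_div]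
  rfl

lemma int_emb (σ : K →+* ℂ) (x : 𝓞 K) : IsIntegral ℤ (σ x) :=
  x.isIntegral_coe.map σ.toIntAlgHom

lemma coe_disc (A B : 𝓞 K) : ((Wc A B).Δ : K) = -16 * (4 * (A : K) ^ 3 + 27 * (B : K) ^ 2) := by
  rw [Wc_disc]
  simp [map_ofNat]

lemma jj_div (σ : K →+* ℂ) (A B : 𝓞 K) :
    jj (σ A) (σ B) = σ ((-110592 * A ^ 3 : 𝓞 K) : K) / σ ((Wc A B).Δ : K) := by
  rw [coe_disc, jj]
  simp only [map_mul, map_neg, map_add, map_pow, map_ofNat]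
  rw [show (-110592 : ℂ) * σ A ^ 3 = -16 * (6912 * σ A ^ 3) by ring,
    mul_div_mul_left _ _ (by norm_num)]

lemma x_jj {A B : 𝓞 K} {D : ℤ} {δ : K} {r : ℂ} (hΔ : (Wc A B).Δ ≠ 0) (hB : B ≠ 0)
    (hD : ((Wc A B).Δ : K) = D * δ ^ 2) (hr : r ^ 2 = D) (σ : K →+* ℂ) :
    (r * σ (δ / B) / 864) ^ 2 * (jj (σ A) (σ B) - 1728) = 1 := by
  have h1 : σ ((Wc A B).Δ : K) ≠ 0 := (_root_.map_ne_zero σ).2 (by exact_mod_cast hΔ)
  have h2 : σ B ≠ 0 := (_root_.map_ne_zero σ).2 (by exact_mod_cast hB)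
  have h3 := congrArg σ hD
  rw [coe_disc] at h1 h3
  simp only [map_mul, map_neg, map_add, map_pow, map_ofNat, map_intCast] at h1 h3
  have h4 : 4 * σ A ^ 3 + 27 * σ B ^ 2 ≠ 0 := right_ne_zero_of_mul h1
  rw [jj, div_pow, mul_pow, hr, map_div₀, div_pow, ← mul_div_assoc, ← h3]
  field_simp
  ring

/-- the prime `P` is congruent to a point whose conductor is divisible by `r` -/
def Srv (A B : 𝓞 K) (d r g : ℕ) (P : Ideal (𝓞 K)) : Prop :=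
  ∃ (p i : ℕ) (σ : K →+* ℂ) (O : ValuationSubring ℂ) (a b : ℚ) (M : M2), p.Prime ∧
    O.valuation (p : ℂ) < 1 ∧ (∀ x : 𝓞 K, x ∈ P ↔ O.valuation (σ x) < 1) ∧
    a ^ 2 + d * b ^ 2 = 1 ∧ O.valuation ((a : ℂ) + b * sq d) ≠ 1 ∧ 0 < M.det ∧ ¬(p : ℤ) ∣ M.det ∧
    O.valuation (H31F.JJ (act M (om d)) - jj (σ A) (σ B) ^ p ^ i) < 1 ∧ (r : ℤ) ∣ M.det ∧ ¬Dv r M ∧
    M.det = g

lemma srv_dvd (hS : SRV) (hV : VLS) {A B : 𝓞 K} {d r r' g g' : ℕ} {P : Ideal (𝓞 K)} (hd : 0 < d)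
    (sf : Squarefree d) (hΔ : (Wc A B).Δ ∉ P) (h : Srv A B d r g P) (h' : Srv A B d r' g' P)
    (r1 : r'.Prime) (r2 : r' ≠ 2) (r3 : ¬IsSquare (-(d : ZMod r'))) : r' ∣ g := by
  obtain ⟨p, i, σ, O, a, b, M, a1, a2, a3, -, -, a6, a7, a8, -, -, a9⟩ := h
  obtain ⟨p', i', σ', O', a', b', M', b1, b2, b3, b4, b5, b6, b7, b8, b9, b10, -⟩ := h'
  obtain rfl : p = p' := by
    have h : O.valuation ((p' : ℤ) : ℂ) < 1 := by
      simpa using (a3 p').1 ((b3 p').2 (by simpa using b2))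
    rw [int_lt a1 a2, Int.natCast_dvd_natCast] at h
    exact (Nat.prime_dvd_prime_iff_eq a1 b1).1 h
  rw [jj_div] at a8 b8
  rw [← Int.natCast_dvd_natCast, ← a9]
  exact hS (𝓞 K) (σ.comp (algebraMap _ K)) (σ'.comp (algebraMap _ K)) O O' (-110592 * A ^ 3)
    (Wc A B).Δ d p r' i i' a' b' M M' hd sf a1 a2 b2 (fun x => (hV.int _).1 (int_emb σ x) O)
    (fun x => (hV.int _).1 (int_emb σ' x) O') (fun x => (a3 x).symm.trans (b3 x))
    (fun c => hΔ ((a3 _).2 c)) b4 b5 a6 b6 a7 b7 a8 b8 r1 r2 r3 b9 b10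

lemma cm_model (hM : MAT) (hU : U3) {d : ℕ} (hd : 0 < d) {M : M2} (h : 0 < M.det) {g : ℕ}
    (hg : M.det = g) : ∃ A B : ℂ, Good A B ∧ jj A B = H31F.JJ (act M (om d)) ∧
      CMv (d * g ^ 2) A B := by
  have g0 : 0 < g := by omega
  have s2 := sq_sq d
  have : ∃ Q : M2, Q.det = (d * g ^ 2 : ℕ) ∧ act Q (act M (om d)) = act M (om d) ∧
      den Q (act M (om d)) = g * sq d := by
    by_cases h4 : d % 4 = 3
    · obtain ⟨Q, -, q1, q2, q3⟩ := hM.cm d M (-g) 2 hd h (Or.inr two_ne_zero)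
      refine ⟨Q, ?_, q2, ?_⟩
      · obtain ⟨k, hk⟩ : ∃ k : ℤ, (d : ℤ) = 4 * k - 1 := ⟨(d + 1) / 4, by omega⟩
        rw [q1, hg, tt, nn, if_pos h4, if_pos h4, show ((d : ℤ) + 1) / 4 = k by omega]
        push_cast
        rw [hk]; ring
      · rw [q3, hg, coe_om hd, if_pos h4]; push_cast; ring
    · obtain ⟨Q, -, q1, q2, q3⟩ := hM.cm d M 0 1 hd h (Or.inr one_ne_zero)
      refine ⟨Q, ?_, q2, ?_⟩
      · rw [q1, hg, tt, nn, if_neg h4, if_neg h4]; push_cast; ring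
      · rw [q3, hg, coe_om hd, if_neg h4]; push_cast; ring
  obtain ⟨Q, q1, q2, q3⟩ := this
  exact hU _ Q _ (by positivity) q1 q2 (by rw [q3, mul_pow, s2]; push_cast; ring)

/-- the consequences of one congruence -/
lemma local_step (hM : MAT) (hV : VLS) (hP : PI) (hN : NOR2) (hI : INTJ2) (hL : LOC2) (hU : U3)
    (hK : LINK2) {A B : 𝓞 K} (hΔ : (Wc A B).Δ ≠ 0) {d r : ℕ} (hd : 0 < d) (sf : Squarefree d)
    (r1 : r.Prime) (r2 : r ≠ 2) (r3 : ¬IsSquare (-(d : ZMod r)))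
    (r4 : 4 * (4 + Ideal.absNorm (Ideal.span {(Wc A B).Δ})) ^ (Module.finrank ℚ K).factorial < r)
    {O : ValuationSubring ℂ} {a b : ℚ} (ab : a ^ 2 + d * b ^ 2 = 1)
    (hv : O.valuation ((a : ℂ) + b * sq d) ≠ 1) {M : M2} (m0 : 0 < M.det) (m1 : (r : ℤ) ∣ M.det)
    (m2 : ¬Dv r M) (σ : K →+* ℂ)
    (hj : O.valuation (H31F.JJ (act M (om d)) - jj (σ A) (σ B)) < 1) :
    ∃ (p g : ℕ) (P : Ideal (𝓞 K)), p.Prime ∧ O.valuation (p : ℂ) < 1 ∧ (p : 𝓞 K) ∈ P ∧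
      P.IsMaximal ∧ (Wc A B).Δ ∉ P ∧ Same A B (-d) P ∧ 0 < g ∧ (g : ℤ) ≤ M.det ∧
      Srv A B d r g P := by
  obtain ⟨⟨p, pp, pv⟩, hp⟩ := hP d hd sf O a b ab hv
  have hp' := (hp p pp pv).1
  have jm : jj (σ A) (σ B) ∈ O := by
    have := sub_mem ((hV.int _).1 (hI d M hd sf m0).2 O) (v_mem hj.le)
    rwa [sub_sub_cancel] at this
  have ji : IsIntegral ℚ (jj (A : K) (B : K)) := Algebra.IsIntegral.isIntegral _
  have hf := hV.res O p (Module.finrank ℚ K) (minpoly ℚ (jj (A : K) (B : K))) (jj (σ A) (σ B)) pp pv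
    (minpoly.ne_zero ji) (minpoly.natDegree_le _) (by
      rw [← jj_map]
      have := aeval_algHom_apply σ.toRatAlgHom (jj (A : K) (B : K)) (minpoly ℚ (jj (A : K) (B : K)))
      rw [minpoly.aeval, map_zero] at this
      exact this) jm
  obtain ⟨N, M', Λ, i, k, e1, e2, e3, e4, e5, e6, e7, e8⟩ := hL d hd sf O a b ab hv p pp pv M _ _ m0
    (Nat.factorial_pos _) hj hf
  have rp : r ≠ p := by
    rintro rfl
    exact r3 (hp' r2).2
  have d1 : (r : ℤ) ∣ M'.det := by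
    rw [e1, Matrix.det_mul, e2] at m1
    refine ((Nat.prime_iff_prime_int.1 r1).dvd_or_dvd m1).resolve_left fun c => rp ?_
    exact (Nat.prime_dvd_prime_iff_eq r1 pp).1 (r1.dvd_of_dvd_pow (by exact_mod_cast c))
  have d2 : ¬Dv r M' := fun c => m2 (e1 ▸ c.mul_left N)
  have p0 : (0 : ℤ) < p := by exact_mod_cast pp.pos
  obtain ⟨n1, n2⟩ := hN d r M' Λ hd e3 (e6 ▸ pow_pos p0 _) r1 r2 r3 d1 d2 e7
  have big : 4 + Ideal.absNorm (Ideal.span {(Wc A B).Δ}) < p := by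
    by_contra! c
    have h1 := Int.le_of_dvd (n2 e8) n1
    have h2 := Nat.pow_le_pow_left c (Module.finrank ℚ K).factorial
    have h3 : (r : ℤ) ^ 2 ≤ 4 * (p : ℤ) ^ (Module.finrank ℚ K).factorial := by
      rw [← e6]; nlinarith [sq_nonneg Λ.trace]
    have h4 : r ^ 2 ≤ 4 * p ^ (Module.finrank ℚ K).factorial := by exact_mod_cast h3
    nlinarith [r1.two_le]
  have good : ∀ P : Ideal (𝓞 K), P.IsMaximal → (p : 𝓞 K) ∈ P → (Wc A B).Δ ∉ P := by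
    intro P p1 p2 p3
    have h1 := (Ideal.span_singleton_le_iff_mem P).2 p3 (Ideal.absNorm_mem _)
    have h2 : Ideal.absNorm (Ideal.span {(Wc A B).Δ}) ≠ 0 := by
      rwa [Ne, Ideal.absNorm_eq_zero_iff, Ideal.span_singleton_eq_bot]
    have h3 := (Nat.Prime.coprime_iff_not_dvd pp).2 (Nat.not_dvd_of_pos_of_lt
      (Nat.pos_of_ne_zero h2) (by omega : _ < p))
    obtain ⟨u, v, e⟩ := Nat.Coprime.cast (R := 𝓞 K) h3
    exact p1.ne_top ((Ideal.eq_top_iff_one P).2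
      (e ▸ add_mem (P.mul_mem_left _ p2) (P.mul_mem_left _ h1)))
  obtain ⟨g, hg⟩ : ∃ g : ℕ, M'.det = g := ⟨M'.det.toNat, by omega⟩
  obtain ⟨A₀, B₀, c1, c2, c3⟩ := cm_model hM hU hd e3 hg
  obtain ⟨P, q1, q2, q3, q4⟩ := hK K A B σ O p d g i A₀ B₀ pp (by omega) pv (hp' (by omega)).1
    (fun c => e4 (hg ▸ Int.natCast_dvd_natCast.2 c)) (hp' (by omega)).2 c1 c3
    (c2 ▸ (hI d M' hd sf e3).2) (c2 ▸ e5) good
  refine ⟨p, g, P, pp, pv, q2, q1, good P q1 q2, q3, by omega, ?_,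
    p, i, σ, O, a, b, M', pp, pv, q4, ab, hv, e3, e4, e5, d1, d2, hg⟩
  rw [← hg, e1, Matrix.det_mul, e2]
  exact le_mul_of_one_le_left e3.le (one_le_pow₀ p0)

end Pool.Agent.MP_c481b3_nt.H31F
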