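import Pool.Agent.MP_c481b3_nt.H31F.GlueC

set_option autoImplicit false

namespace Pool.Agent.MP_c481b3_nt.H31F

open UpperHalfPlane hiding I
open Polynomial NumberField Pool.Agent.MP_c481b3_nt.H81 Pool.Agent.MP_c481b3_nt.H28

/-- selection of the degree -/
lemma select (hV : VLS) (hG : GEN) (hO : ORD) {P : ℕ → ℤ[X]} (hP : IsFb P) {l : ℕ} (hl : l.Prime)
    {O : ValuationSubring ℂ} (hv : O.valuation (l : ℂ) < 1) {G : Multiset ℂ}
    (hi : ∀ y ∈ G, IsIntegral ℤ y) {c : ℂ} {β : ℕ → ℤ} {m₀ : ℕ} (c0 : c ≠ 0) (m1 : Odd m₀)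
    (m2 : ¬(l : ℤ) ∣ β m₀) (h : ∀ n, Odd n → (G.map fun y => aeval y (P n)).sum = c * β n) :
    ∃ C : ℕ, ∀ r : ℕ, r.Prime → r ≠ 2 → ¬l ∣ r → ¬l ∣ r + 1 → ∃ n : ℕ, Odd n ∧ n ≤ C * r ^ 2 ∧
      ¬(l : ℤ) ∣ β (r * n) - if r ∣ n then β (n / r) else 0 := by
  obtain ⟨g, g1, g2⟩ := hG P hP O G c β c0 (fun y hy => (hV.int y).1 (hi y hy) O) h
  have g3 : ∀ n : ℕ, Odd n → g.coeff n = β n := fun n hn => by
    rw [g2, if_pos ⟨by exact_mod_cast hn.pos, by exact_mod_cast hn⟩, Int.toNat_natCast]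
  have g4 : ∀ n : ℤ, Even n → g.coeff n = 0 := fun n hn => by
    rw [g2, if_neg fun c => Int.not_odd_iff_even.2 hn c.2]
  obtain ⟨C, hC⟩ := hO O g g1 (fun e => m2 ((res_int hl hv).1 (by
    rw [← g3 m₀ m1, e]; rfl))) (fun n hn => by rw [g2, if_neg fun c => hn.not_gt c.1]) g4
  refine ⟨C, fun r r1 r2 r3 r4 => ?_⟩
  obtain ⟨n, -, n1, n2⟩ := hC r r1 r2
    (fun e => r3 (Int.natCast_dvd_natCast.1 ((res_int hl hv).1 (by simpa using e))))
    (fun e => r4 (Int.natCast_dvd_natCast.1 ((res_int hl hv).1 (by simpa using e))))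
  have ro := r1.odd_of_ne_two r2
  have no : Odd n := by
    by_contra! c
    have c' := Nat.not_odd_iff_even.1 c
    refine n2 ?_
    rw [g4 _ (by exact_mod_cast c'.mul_left r)]
    split_ifs with e
    · obtain ⟨k, rfl⟩ := e
      rw [Nat.mul_div_cancel_left _ r1.pos, g4]
      exact_mod_cast (Nat.even_mul.1 c').resolve_left (Nat.not_even_iff_odd.2 ro)
    · rfl
  refine ⟨n, no, n1, fun e => n2 ?_⟩
  have := (res_int hl hv).2 e
  rw [g3 _ (ro.mul no)]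
  split_ifs at this ⊢ with e'
  · rw [g3 _ (odd_div no e')]
    rwa [Int.cast_sub, sub_eq_zero] at this
  · rwa [sub_zero] at this

section orb
variable {t : ℂ → ℍ} (ht : ∀ y, YY (t y) = y) {w : ℂ} {G : Multiset ℂ} {F : Finset M2} {d : ℕ}
  {M₀ : M2}
include ht

lemma hk_int (hI : INTJ2) (hd : 0 < d) (sf : Squarefree d) (m0 : 0 < M₀.det)
    (o : Orb (YY (act M₀ (om d))) w G) (hF : PS F) (hF' : ∀ M ∈ F, 0 < M.det) {y : ℂ}
    (hy : y ∈ hk t G F) : IsIntegral ℤ y := by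
  obtain ⟨ρ, M, h1, h2⟩ := hk_mem ht o hF hy
  refine IsIntegral.of_pow two_pos ?_
  rw [h2, ← act_mul (hF' M h1) m0]
  exact ((hI d _ hd sf (det_mul_pos (hF' M h1) m0)).1.map (ρ : ℂ →+* ℂ).toIntAlgHom).pow 2

/-- the element of norm one is no root of unity -/
lemma gg_ne (hV : VLS) (hW : VAL) {P : ℕ → ℤ[X]} (hP : IsFb P) {l : ℕ} (hl : l.Prime) (h5 : 5 ≤ l)
    {O : ValuationSubring ℂ} (hv : O.valuation (l : ℂ) < 1) {y₀ : ℂ} (o : Orb y₀ w G) (hF : PS F)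
    (hi : ∀ y ∈ hk t G F, IsIntegral ℤ y) {c : ℂ} {β : ℕ → ℤ} {m₀ : ℕ} (c0 : c ≠ 0) (m1 : Odd m₀)
    (m2 : ¬(l : ℤ) ∣ β m₀) (h : ∀ n, Odd n → (G.map fun y => aeval y (P n)).sum = c * β n)
    {z : ℤ} (z1 : ¬(l : ℤ) ∣ z) (z2 : (hk t G F).sum = c * z) {Z : Multiset ℂ} {e : ℂ}
    (e1 : ∀ x ∈ Z, O.valuation x ≤ O.valuation e) (e2 : O.valuation e ^ 2 ≤ O.valuation (l : ℂ))
    (e3 : O.valuation e ^ 2 < O.valuation Z.sum) : GG (hk t G F) Z ^ 12 ≠ 1 := fun e => by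
  have cO : c ∈ O := by
    have := v_le ((hV.int _).1 (o.int_sum (P m₀)) O)
    rw [h m₀ m1, map_mul, int_eq hl hv m2, mul_one] at this
    exact v_mem this
  have := hW O l _ Z _ c hl h5 hv (fun y hy => (hV.int y).1 (hi y hy) O) e1 e2 e3 c0 cO
    (fun k hk => by
      obtain ⟨T, t1, t2⟩ := hF k
      obtain ⟨a, a1, -⟩ := Orb.span hP h (T := T) fun i hi => t1 i (by
        rw [Nat.even_iff.1 hi, Nat.odd_iff.1 hk]; exact zero_ne_one)
      rw [hk_pow ht t2, a1, map_mul]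
      exact mul_le_of_le_one_right' (v_le (intCast_mem O a))) e
  rw [z2, map_mul, int_eq hl hv z1, mul_one] at this
  exact this.false

lemma hk_sum (hT : TM) (hR : PR) {P : ℕ → ℤ[X]} (hP : IsFb P) {c : ℂ} {β : ℕ → ℤ}
    (h : ∀ n, Odd n → (G.map fun y => aeval y (P n)).sum = c * β n) {r n : ℕ} (r1 : r.Prime)
    (r2 : r ≠ 2) (hn : Odd n) : (hk t G (Pn r (r * n))).sum
      = c * (β (r * n) - if r ∣ n then β (n / r) else 0 : ℤ) := by
  have hm := (r1.odd_of_ne_two r2).mul hn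
  have := hk_pow (G := G) ht (ps_pn hT hR hP r1 r2 hm).2
  simp only [pow_one, Multiset.map_id'] at this
  rw [this]
  simp only [pow_two, Nat.mul_dvd_mul_iff_left r1.pos, Nat.mul_div_mul_left _ _ r1.pos, map_sub,
    Multiset.sum_map_sub, h _ hm]
  split_ifs with e
  · rw [h _ (odd_div hn e)]; push_cast; ring
  · simp

end orb

lemma gg_zero {O : ValuationSubring ℂ} {Γ Z : Multiset ℂ} (h1 : ∀ y ∈ Γ, y ∈ O)
    (h2 : ∀ x ∈ Z, O.valuation x < 1) : GG Γ Z ≠ 0 := fun e => by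
  have : O.valuation (GG Γ Z) ≠ 1 := by rw [e, map_zero]; exact zero_ne_one
  obtain ⟨y, hy, a⟩ := exists_ne_one this
  obtain ⟨x, hx, b⟩ := exists_ne_one a
  have := (dich b).1
  rw [map_mul, mul_comm] at this
  exact (mul_lt_one_of_lt_of_le (h2 x hx) (v_le (h1 y hy))).ne this

lemma cong_of {O : ValuationSubring ℂ} {x y j : ℂ} (hy : y ∈ O) (hx : x ^ 2 * (j - 1728) = 1)
    (h : O.valuation ((1 - y * x) / (1 + y * x)) ≠ 1) : O.valuation (y ^ 2 + 1728 - j) < 1 := by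
  obtain ⟨h1, h2⟩ := dich h
  rw [show (y * x) ^ 2 - 1 = x ^ 2 * (y ^ 2 + 1728 - j) by linear_combination hx, map_mul,
    map_pow] at h2
  rw [map_mul] at h1
  have : 1 ≤ O.valuation x := h1 ▸ mul_le_of_le_one_left' (v_le hy)
  exact (le_mul_of_one_le_left' (one_le_pow_of_one_le' this 2)).trans_lt h2

variable {K : Type} [Field K] [NumberField K]

/-- the integer that bounds the prime -/
lemma prime_le (hA : AUT) (hV : VLS) (u w : 𝓞 K) {Γ : Multiset ℂ} (hi : ∀ y ∈ Γ, IsIntegral ℤ y)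
    (hg : ∀ ρ : ℂ ≃+* ℂ, ∃ κ : ℂ, (κ = 1 ∨ κ = -1) ∧ Γ.map ρ = Γ.map (κ * ·))
    (h0 : ∀ y ∈ Γ, ∀ σ : K →+* ℂ, σ w * (y ^ 2 + 1728) - σ u ≠ 0) {O : ValuationSubring ℂ} {p : ℕ}
    (hp : p.Prime) (hv : O.valuation (p : ℂ) < 1) {y : ℂ} (hy : y ∈ Γ) {σ : K →+* ℂ}
    (h1 : O.valuation (σ w * (y ^ 2 + 1728) - σ u) < 1) {B : ℝ}
    (hB : ∀ σ : K →+* ℂ, ‖σ w‖ ≤ B ∧ ‖σ u‖ ≤ B) :
    (p : ℝ) ≤ (Γ.map fun y => B * (1 + ‖y ^ 2 + 1728‖)).prod ^ Module.finrank ℚ K := by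
  set f : ℂ → ℂ := fun y =>
    ((Finset.univ : Finset (K →+* ℂ)).val.map fun σ => σ w * (y ^ 2 + 1728) - σ u).prod with hf
  have i1 : ∀ y ∈ Γ, ∀ σ : K →+* ℂ, IsIntegral ℤ (σ w * (y ^ 2 + 1728) - σ u) := fun y hy σ =>
    ((int_emb σ w).mul (((hi y hy).pow 2).add
      (by exact_mod_cast isIntegral_algebraMap (R := ℤ) (A := ℂ) (x := 1728)))).sub (int_emb σ u)
  have i2 : ∀ y ∈ Γ, IsIntegral ℤ (f y) := fun y hy => IsIntegral.multiset_prod fun x hx => by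
    obtain ⟨σ, -, rfl⟩ := Multiset.mem_map.1 hx
    exact i1 y hy σ
  have i3 : IsIntegral ℤ (Γ.map f).prod := IsIntegral.multiset_prod fun x hx => by
    obtain ⟨y, hy, rfl⟩ := Multiset.mem_map.1 hx
    exact i2 y hy
  obtain ⟨q, hq⟩ := hA.fix _ (i3.tower_top (A := ℚ)).isAlgebraic fun ρ => by
    obtain ⟨κ, k1, k2⟩ := hg ρ
    have e1 : ∀ y, ρ (f y) = f (ρ y) := fun y => by
      rw [hf]
      beta_reduce
      conv_rhs => rw [← univ_gal ρ]
      simp [map_multiset_prod, Multiset.map_map, map_ofNat]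
    have e2 : ∀ y, f (κ * y) = f y := fun y => by
      simp only [hf, mul_pow, pow_two κ, sign_sq k1, one_mul]
    have := congrArg (fun s => (Multiset.map f s).prod) k2
    simp only [Multiset.map_map, Function.comp_def, e2] at this
    rw [map_multiset_prod, Multiset.map_map, ← this]
    simp only [Function.comp_def, e1]
  rw [hq] at i3
  obtain ⟨z, hz⟩ := IsIntegrallyClosed.isIntegral_iff.1
    ((isIntegral_algebraMap_iff (algebraMap ℚ ℂ).injective).1 i3)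
  have e : (Γ.map f).prod = z := by rw [hq, ← hz]; simp
  have z0 : z ≠ 0 := by
    rintro rfl
    rw [Int.cast_zero, Multiset.prod_eq_zero_iff, Multiset.mem_map] at e
    obtain ⟨y, hy, e⟩ := e
    rw [hf, Multiset.prod_eq_zero_iff, Multiset.mem_map] at e
    obtain ⟨σ, -, e⟩ := e
    exact h0 y hy σ e
  have z1 : (p : ℤ) ∣ z := by
    rw [← int_lt hp hv, ← e]
    exact prod_lt_one (fun y hy => (hV.int _).1 (i2 y hy) O) hy
      (prod_lt_one (fun σ _ => (hV.int _).1 (i1 y hy σ) O) (Finset.mem_univ_val σ) h1)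
  have z2 : (p : ℝ) ≤ ‖(z : ℂ)‖ := by
    rw [Complex.norm_intCast]
    exact_mod_cast Int.le_of_dvd (abs_pos.2 z0) ((dvd_abs _ _).2 z1)
  refine z2.trans ?_
  rw [← e, ← Multiset.prod_map_pow]
  clear e z2 hq i2 hg hi h0 hy h1 i1
  induction Γ using Multiset.induction_on with
  | empty => simp
  | cons y Γ ih =>
    rw [Multiset.map_cons, Multiset.map_cons, Multiset.prod_cons, Multiset.prod_cons, norm_mul]
    have : ‖f y‖ ≤ (B * (1 + ‖y ^ 2 + 1728‖)) ^ Module.finrank ℚ K := by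
      rw [← Embeddings.card K ℂ, ← Finset.card_univ, hf]
      change ‖∏ σ : K →+* ℂ, _‖ ≤ _
      rw [norm_prod]
      refine (Finset.prod_le_prod (fun _ _ => norm_nonneg _) fun σ _ => ?_).trans
        (Finset.prod_const _).le
      refine (norm_sub_le _ _).trans ?_
      rw [norm_mul, mul_add, mul_one, add_comm]
      gcongr
      exacts [(hB σ).2, (hB σ).1]
    exact mul_le_mul this ih (norm_nonneg _) ((norm_nonneg _).trans this)

lemma absNorm_le {P : Ideal (𝓞 K)} {p : ℕ} (hp : 0 < p) (h : (p : 𝓞 K) ∈ P) :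
    Ideal.absNorm P ≤ p ^ Module.finrank ℚ K := by
  have := Ideal.absNorm_dvd_absNorm_of_le ((Ideal.span_singleton_le_iff_mem P).2 h)
  rw [Ideal.absNorm_span_natCast, RingOfIntegers.rank] at this
  exact Nat.le_of_dvd (pow_pos hp _) this

end Pool.Agent.MP_c481b3_nt.H31F
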