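import Pool.Agent.MP_c481b3_nt.H31F.GlueD

set_option autoImplicit false

namespace Pool.Agent.MP_c481b3_nt.H31F

open UpperHalfPlane hiding I
open Polynomial NumberField Filter Pool.Agent.MP_c481b3_nt.H81 Pool.Agent.MP_c481b3_nt.H28

lemma v_rat {O : ValuationSubring ℂ} {l : ℕ} (hl : l.Prime) (hv : O.valuation (l : ℂ) < 1) {q : ℚ}
    (q0 : q ≠ 0) : O.valuation (q : ℂ) = O.valuation (l : ℂ) ^ padicValRat l q := by
  have := Fact.mk hl
  have l0 : O.valuation (l : ℂ) ≠ 0 := (Valuation.ne_zero_iff _).2 (by exact_mod_cast hl.ne_zero)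
  have key : ∀ z : ℤ, z ≠ 0 → O.valuation (z : ℂ) = O.valuation (l : ℂ) ^ padicValInt l z :=
    fun z hz => by
      obtain ⟨a, ha⟩ := padicValInt_dvd (p := l) z
      have : ¬(l : ℤ) ∣ a := fun ⟨b, hb⟩ => by
        have := (padicValInt_dvd_iff (p := l) (padicValInt l z + 1) z).1
          ⟨b, by rw [pow_succ, mul_assoc, ← hb, ← ha]⟩
        omega
      conv_lhs => rw [ha]
      rw [Int.cast_mul, map_mul, int_eq hl hv this, mul_one, Int.cast_pow, map_pow, Int.cast_natCast]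
  have h2 := key q.den (by exact_mod_cast q.den_nz)
  rw [Int.cast_natCast, padicValInt.of_nat] at h2
  rw [Rat.cast_def, map_div₀, key _ (Rat.num_ne_zero.2 q0), h2, padicValRat, zpow_sub₀ l0,
    zpow_natCast, zpow_natCast]

variable {K : Type} [Field K] [NumberField K]

/-- the data at the prime `l` -/
lemma at_l (hV : VLS) {A B : 𝓞 K} {D : ℤ} {δ : K} (hD : ((Wc A B).Δ : K) = D * δ ^ 2) {r : ℂ}
    (hr : r ^ 2 = D) {l n e : ℕ} (hl : l.Prime) (h5 : 5 ≤ l) (he : ¬l ∣ e)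
    (hi : IsIntegral ℤ ((e : K) * (Wc A B).Δ / (l ^ n * B ^ 2)))
    (h0 : D * Algebra.trace ℚ K (δ / B) ≠ 0)
    (hp : padicValRat l (D * Algebra.trace ℚ K (δ / B) ^ 2) < 2 * n)
    {O : ValuationSubring ℂ} (hv : O.valuation (l : ℂ) < 1) : ∃ ε : ℂ,
      (∀ x ∈ Zs r (δ / B), O.valuation x ≤ O.valuation ε) ∧
      O.valuation ε ^ 2 ≤ O.valuation (l : ℂ) ∧ O.valuation ε ^ 2 < O.valuation (Zs r (δ / B)).sum ∧
      O.valuation ε < 1 := by
  obtain ⟨ε, hε⟩ := IsAlgClosed.exists_pow_nat_eq ((l : ℂ) ^ n) two_pos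
  have l0 : (l : ℂ) ≠ 0 := by exact_mod_cast hl.ne_zero
  have v0 : 0 < O.valuation (l : ℂ) := zero_lt_iff.2 ((Valuation.ne_zero_iff _).2 l0)
  have v1 : O.valuation (864 : ℂ) = 1 := by
    have := int_eq hl hv (z := 864) fun c => by
      have h : l ∣ 2 ^ 5 * 3 ^ 3 := by exact_mod_cast c
      rcases (Nat.Prime.dvd_mul hl).1 h with h | h <;>
        have := Nat.le_of_dvd (by norm_num) (hl.dvd_of_dvd_pow h) <;> omega
    exact_mod_cast this
  have v2 : O.valuation ε ^ 2 = O.valuation (l : ℂ) ^ n := by rw [← map_pow, hε, map_pow]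
  have a1 : ∀ x ∈ Zs r (δ / B), O.valuation x ≤ O.valuation ε := fun x hx => by
    obtain ⟨σ, -, rfl⟩ := Multiset.mem_map.1 hx
    have h1 := v_le ((hV.int _).1 (hi.map σ.toIntAlgHom) O)
    have h2 : σ.toIntAlgHom ((e : K) * (Wc A B).Δ / (l ^ n * B ^ 2))
        = (e : ℤ) * (r * σ (δ / B)) ^ 2 / l ^ n := by
      rw [hD, mul_pow, hr]
      simp only [RingHom.toIntAlgHom_apply, map_div₀, map_mul, map_pow, map_natCast, map_intCast,
        Int.cast_natCast]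
      ring
    rw [h2, map_div₀, map_mul, int_eq hl hv (mt Int.natCast_dvd_natCast.1 he), one_mul, map_pow,
      map_pow, div_le_one₀ (pow_pos v0 n), ← v2] at h1
    rw [map_div₀, v1, div_one]
    exact le_of_pow_le_pow_left₀ two_ne_zero zero_le h1
  have a2 : O.valuation ε ^ 2 < O.valuation (Zs r (δ / B)).sum := by
    have q0 : (D : ℚ) * Algebra.trace ℚ K (δ / B) ^ 2 ≠ 0 :=
      mul_ne_zero (left_ne_zero_of_mul h0) (pow_ne_zero 2 (right_ne_zero_of_mul h0))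
    refine lt_of_pow_lt_pow_left₀ 2 zero_le ?_
    have := v_rat hl hv q0
    rw [Rat.cast_mul, Rat.cast_pow, Rat.cast_intCast, ← hr, ← mul_pow, map_pow] at this
    rw [Zs_sum, map_div₀, v1, div_one, this, v2, ← pow_mul, ← zpow_natCast]
    exact zpow_lt_zpow_right_of_lt_one₀ v0 hv (by push_cast; linarith)
  have a3 : O.valuation (Zs r (δ / B)).sum ≤ O.valuation ε := by
    rw [Zs]
    refine O.valuation.map_sum_le fun σ hσ => a1 _ (Multiset.mem_map_of_mem _ hσ)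
  have a4 : O.valuation ε < 1 := by
    by_contra! c
    exact (a2.trans_le a3).not_ge (by rw [pow_two]; exact le_mul_of_one_le_left' c)
  refine ⟨ε, a1, ?_, a2, a4⟩
  rw [v2]
  refine pow_le_of_le_one zero_le hv.le ?_
  rintro rfl
  rw [pow_zero] at v2
  exact (pow_lt_one' a4 two_ne_zero).ne v2

theorem main (hM : MAT) (hT : TM) (hA : AUT) (hV : VLS) (hF : FAB) (hW : VAL) (hG : GEN) (hO : ORD)
    (hR : PR) (hJ : SURJ) (hP : PI) (hN : NOR2) (hI : INTJ2) (hL : LOC2) (hU : U3) (hK : LINK2)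
    (hS : SRV) (hH : HT) (hC : CNT) (hB : CMP2) {A B : 𝓞 K} (hΔ : (Wc A B).Δ ≠ 0) {D : ℤ} {δ : K}
    (hD : ((Wc A B).Δ : K) = D * δ ^ 2) {d : ℕ} (sf : Squarefree d) (tab : Tab d D) {l n₀ e : ℕ}
    (hl : l.Prime) (h5 : 5 ≤ l) (he : ¬l ∣ e)
    (hi : IsIntegral ℤ ((e : K) * (Wc A B).Δ / (l ^ n₀ * B ^ 2)))
    (h0 : Algebra.trace ℚ K (δ / B) ≠ 0)
    (hp : padicValRat l (D * Algebra.trace ℚ K (δ / B) ^ 2) < 2 * n₀) :
    ∃ c : ℝ, 0 < c ∧ ∀ᶠ x : ℝ in atTop,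
      c * Real.log x ^ (1 / 3 : ℝ) / Real.log (Real.log x) ^ (5 / 3 : ℝ)
        ≤ ({P : Ideal (𝓞 K) | P ∈ {P : Ideal (𝓞 K) | P.IsMaximal ∧ (Wc A B).Δ ∉ P ∧
          Same A B (-d) P} ∧ (Ideal.absNorm P : ℝ) ≤ x}.ncard : ℝ) := by
  have hd : 0 < d := Nat.pos_of_ne_zero sf.ne_zero
  have D0 : D ≠ 0 := by
    rintro rfl
    exact hΔ (by simpa using hD)
  have B0 : B ≠ 0 := by
    rintro rfl
    exact h0 (by simp)
  obtain ⟨s, hs⟩ := IsAlgClosed.exists_pow_nat_eq (D : ℂ) two_pos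
  have s2 : sq d ^ 2 = (-d : ℤ) := by rw [sq_sq]; simp
  have hw : (sq d * s) ^ 2 = (-d * D : ℤ) := by rw [mul_pow, s2, hs]; simp
  have w0 : sq d * s ≠ 0 := fun c => by
    rw [c, zero_pow two_ne_zero] at hw
    have : -(d : ℤ) * D = 0 := by exact_mod_cast hw.symm
    exact mul_ne_zero (by omega) D0 this
  obtain ⟨M₀, m0, hM₀⟩ := hB d D s hd sf tab hs
  obtain ⟨G, o⟩ := exists_orb hA hw w0 (hI d M₀ hd sf m0).1 hM₀
  obtain ⟨Pf, fb⟩ := hF
  obtain ⟨c, β, m₀, c0, m1, m2, hβ⟩ := o.normal hA fb hw w0 hl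
  obtain ⟨Ol, vl⟩ := hV.val l hl
  obtain ⟨C, sel⟩ := select hV hG hO fb hl vl o.int c0 m1 m2 hβ
  obtain ⟨ε, e1, e2, e3, e4⟩ := at_l hV hD hs hl h5 he hi (mul_ne_zero (by exact_mod_cast D0) h0)
    hp vl
  choose t ht using hJ
  obtain ⟨Bd, b1, b2⟩ : ∃ Bd : ℝ, 1 ≤ Bd ∧ ∀ σ : K →+* ℂ, ‖σ ((Wc A B).Δ : K)‖ ≤ Bd ∧
      ‖σ ((-110592 * A ^ 3 : 𝓞 K) : K)‖ ≤ Bd := by
    refine ⟨1 + ∑ σ : K →+* ℂ, (‖σ ((Wc A B).Δ : K)‖ + ‖σ ((-110592 * A ^ 3 : 𝓞 K) : K)‖),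
      le_add_of_nonneg_right (by positivity), fun σ => ?_⟩
    have := Finset.single_le_sum (f := fun σ : K →+* ℂ =>
      ‖σ ((Wc A B).Δ : K)‖ + ‖σ ((-110592 * A ^ 3 : 𝓞 K) : K)‖) (fun _ _ => by positivity)
      (Finset.mem_univ σ)
    constructor <;> linarith [norm_nonneg (σ ((Wc A B).Δ : K)),
      norm_nonneg (σ ((-110592 * A ^ 3 : 𝓞 K) : K))]
  obtain ⟨Ch, ch, hh⟩ := height hH t G b1
  obtain ⟨g₀, hg₀⟩ : ∃ g : ℕ, M₀.det = g := ⟨M₀.det.toNat, by omega⟩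
  set f := Module.finrank ℚ K with hf
  set R := l + g₀ + C + 4 * (4 + Ideal.absNorm (Ideal.span {(Wc A B).Δ})) ^ f.factorial with hR'
  have ex : ∀ r : ℕ, ∃ (P : Ideal (𝓞 K)) (g : ℕ), Gd d l R r →
      (P ∈ {P : Ideal (𝓞 K) | P.IsMaximal ∧ (Wc A B).Δ ∉ P ∧ Same A B (-d) P} ∧ 0 < g ∧
        (g : ℝ) ≤ (C * g₀ + 16 * C * f ^ 2 * Ch) * r ^ 3 ∧ (Ideal.absNorm P : ℝ)
          ≤ Real.exp ((C * g₀ + 16 * C * f ^ 2 * Ch) * r ^ 3 * Real.log r ^ 2)) ∧
      Srv A B d r g P := fun r => by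
    by_cases gd : Gd d l R r
    swap
    · exact ⟨⊥, 0, fun c => absurd c gd⟩
    obtain ⟨r1, r2, r3, r4⟩ := gd
    have r5 : r ≠ 2 := by omega
    obtain ⟨n, n1, n2, n3⟩ := sel r r1 r5
      (fun c => by have := (Nat.prime_dvd_prime_iff_eq hl r1).1 c; omega) r4
    have mo := (r1.odd_of_ne_two r5).mul n1
    have ps := (ps_pn hT hR fb r1 r5 mo).1
    have dt : ∀ M ∈ Pn r (r * n), M.det = (r * n : ℕ) := fun M h => det_hk hM (pn_sub _ _ h)
    have dp : ∀ M ∈ Pn r (r * n), 0 < M.det := fun M h => by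
      rw [dt M h]; exact_mod_cast mo.pos
    have yi : ∀ y ∈ hk t G (Pn r (r * n)), IsIntegral ℤ y := fun y => hk_int ht hI hd sf m0 o ps dp
    have zl : ∀ x ∈ Zs s (δ / B), Ol.valuation x < 1 := fun x hx => (e1 x hx).trans_lt e4
    have g1 := gg_ne ht hV hW fb hl h5 vl o ps yi c0 m1 m2 hβ n3 (hk_sum ht hT hR fb hβ r1 r5 n1)
      e1 e2 e3
    obtain ⟨a, b, ab, g2⟩ := normone hA hd (Z := Zs s (δ / B)) (fun y hy => (yi y hy).tower_top)
      (fun x hx => by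
        obtain ⟨σ, -, rfl⟩ := Multiset.mem_map.1 hx
        have i1 : IsIntegral ℚ s := IsIntegral.of_pow two_pos (by
          rw [hs]; exact_mod_cast isIntegral_algebraMap (R := ℚ) (A := ℂ) (x := (D : ℚ)))
        have i2 : IsIntegral ℚ (σ (δ / B)) :=
          (Algebra.IsIntegral.isIntegral (R := ℚ) (δ / B)).map σ.toRatAlgHom
        have i3 : IsIntegral ℚ (864 : ℂ) := by
          exact_mod_cast isIntegral_algebraMap (R := ℚ) (A := ℂ) (x := 864)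
        rw [div_eq_mul_inv]
        exact (i1.mul i2).mul i3.inv)
      (gg_zero (fun y hy => (hV.int y).1 (yi y hy) Ol) zl) fun ρ => by
        obtain ⟨κ, k1, k2⟩ := sign_of_sq ρ s2
        obtain ⟨κ', k3, k4⟩ := sign_of_sq ρ hs
        have k5 : κ * κ' = 1 ∨ κ * κ' = -1 := by
          rcases k1 with rfl | rfl <;> rcases k3 with rfl | rfl <;> simp
        exact ⟨κ * κ', κ', k5, k3, hk_gal ht o ps (by rw [map_mul, k2, k4]; ring) k5, Zs_gal k4 _,
          by rw [k2, mul_assoc κ, sign_sq k3, mul_one]⟩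
    obtain ⟨O, hO⟩ : ∃ O : ValuationSubring ℂ, O.valuation ((a : ℂ) + b * sq d) ≠ 1 := by
      by_contra! h
      exact g1 (g2 ▸ hV.unit d a b ab h)
    obtain ⟨y, hy, h1⟩ := exists_ne_one (g2 ▸ hO : O.valuation (GG _ _) ≠ 1)
    obtain ⟨x, hx, h2⟩ := exists_ne_one h1
    obtain ⟨σ, -, rfl⟩ := Multiset.mem_map.1 hx
    have h3 := cong_of ((hV.int y).1 (yi y hy) O) (x_jj hΔ B0 hD hs σ) h2
    obtain ⟨ρ, M, hM', h4⟩ := hk_mem ht o ps hy
    obtain ⟨κ, k1, k2⟩ := sign_of_sq ρ s2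
    obtain ⟨b', ab', h5'⟩ : ∃ b' : ℚ, a ^ 2 + d * b' ^ 2 = 1 ∧
        ρ ((a : ℂ) + b' * sq d) = a + b * sq d := by
      rcases k1 with rfl | rfl
      · exact ⟨b, ab, by simp [k2]⟩
      · exact ⟨-b, by rwa [neg_sq], by simp [k2]⟩
    obtain ⟨p, g, P, p1, p2, p3, p4, p5, p6, p7, p8, p9⟩ := local_step hM hV hP hN hI hL hU hK hΔ hd
      sf r1 r5 r3 (by rw [← hf]; omega) (O := O.comap (ρ : ℂ →+* ℂ)) ab'
      (by rw [Ne, comap_eq]; exact h5' ▸ hO) (det_mul_pos (dp M hM') m0)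
      (by rw [Matrix.det_mul, dt M hM']; push_cast; exact (dvd_mul_right _ _).mul_right _)
      (fun c => mem_pn hM' (c.cancel r1 fun c' => by
        have := Int.le_of_dvd m0 c'; omega)) ((ρ.symm : ℂ →+* ℂ).comp σ) (by
        rw [comap_lt, map_sub, jj_map, act_mul (dp M hM') m0, H31F.JJ, map_add, map_pow]
        simp only [RingHom.coe_coe, RingHom.comp_apply, RingEquiv.apply_symm_apply, map_ofNat]
        rwa [← h4])
    rw [comap_lt, map_natCast] at p2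
    have s0 : ∀ σ : K →+* ℂ, σ ((Wc A B).Δ : K) ≠ 0 := fun σ =>
      (_root_.map_ne_zero σ).2 (by exact_mod_cast hΔ)
    have fac : ∀ (y : ℂ) (σ : K →+* ℂ), σ ((Wc A B).Δ : K) * (y ^ 2 + 1728)
        - σ ((-110592 * A ^ 3 : 𝓞 K) : K)
        = σ ((Wc A B).Δ : K) * (y ^ 2 + 1728 - jj (σ A) (σ B)) := fun y σ => by
      have := s0 σ
      rw [jj_div]; field_simp
    have pl := prime_le hA hV (-110592 * A ^ 3) (Wc A B).Δ yi (fun ρ => by
        obtain ⟨κ, k1, k2⟩ := sign_of_sq ρ hw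
        exact ⟨κ, k1, hk_gal ht o ps k2 k1⟩)
      (fun y hy σ => by
        rw [fac]
        refine mul_ne_zero (s0 σ) fun c => ?_
        have h1 := x_jj hΔ B0 hD hs σ
        rw [show jj (σ A) (σ B) - 1728 = y ^ 2 by linear_combination -c] at h1
        have h2 := congrArg Ol.valuation h1
        rw [map_mul, map_pow, map_pow, map_one] at h2
        exact (mul_lt_one_of_lt_of_le (pow_lt_one' (zl _ (Multiset.mem_map_of_mem _
          (Finset.mem_univ_val σ))) two_ne_zero) (pow_le_one' (v_le ((hV.int y).1 (yi y hy) Ol))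
          2)).ne h2) p1 p2 hy (σ := σ) (by
        rw [fac, map_mul, mul_comm]
        exact mul_lt_one_of_lt_of_le h3 (v_le ((hV.int _).1 (int_emb σ _) O))) b2
    have m3 : 3 ≤ r * n := le_trans (by omega) (Nat.le_mul_of_pos_right r n1.pos)
    have m4 : r * n ≤ C * r ^ 3 := by
      calc r * n ≤ r * (C * r ^ 2) := Nat.mul_le_mul_left r n2
        _ = _ := by ring
    have m5 : ((r * n : ℕ) : ℝ) ≤ C * r ^ 3 := by exact_mod_cast m4
    have m6 : Real.log (r * n : ℕ) ≤ 4 * Real.log r := by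
      have : r * n ≤ r ^ 4 := m4.trans (by
        rw [pow_succ' r 3]; exact Nat.mul_le_mul_right _ (by omega))
      calc _ ≤ Real.log ((r : ℝ) ^ 4) :=
            Real.log_le_log (by exact_mod_cast mo.pos) (by exact_mod_cast this)
        _ = _ := by rw [Real.log_pow]; norm_num
    have m7 : 0 ≤ Real.log (r * n : ℕ) := Real.log_natCast_nonneg _
    refine ⟨P, g, fun _ => ⟨⟨⟨p4, p5, p6⟩, p7, ?_, ?_⟩, p9⟩⟩
    · rw [Matrix.det_mul, dt M hM', hg₀] at p8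
      have : (g : ℝ) ≤ (r * n : ℕ) * g₀ := by exact_mod_cast p8
      calc (g : ℝ) ≤ C * r ^ 3 * g₀ := this.trans (by gcongr)
        _ = C * g₀ * r ^ 3 := by ring
        _ ≤ _ := by gcongr; exact le_add_of_nonneg_right (by positivity)
    · have q1 : (Ideal.absNorm P : ℝ) ≤ p ^ f := by exact_mod_cast absNorm_le p1.pos p3
      have q2 : (p : ℝ) ≤ Real.exp (Ch * (r * n : ℕ) * Real.log (r * n : ℕ) ^ 2) ^ f :=
        pl.trans (pow_le_pow_left₀ (Multiset.prod_nonneg fun a ha => by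
          obtain ⟨z, -, rfl⟩ := Multiset.mem_map.1 ha
          positivity) (hh r _ mo m3) f)
      calc (Ideal.absNorm P : ℝ)
          ≤ (Real.exp (Ch * (r * n : ℕ) * Real.log (r * n : ℕ) ^ 2) ^ f) ^ f :=
            q1.trans (by gcongr)
        _ = Real.exp (f * (f * (Ch * (r * n : ℕ) * Real.log (r * n : ℕ) ^ 2))) := by
            rw [Real.exp_nat_mul, Real.exp_nat_mul]
        _ ≤ Real.exp (f * (f * (Ch * (C * r ^ 3) * (4 * Real.log r) ^ 2))) := by gcongr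
        _ = Real.exp (16 * C * f ^ 2 * Ch * r ^ 3 * Real.log r ^ 2) := by congr 1; ring
        _ ≤ _ := by gcongr; exact le_add_of_nonneg_left (by positivity)
  choose Pr gr hr using ex
  exact hC (Ideal (𝓞 K)) Ideal.absNorm _ d l R _ Pr gr hd hl h5
    (fun x => (Ideal.finite_setOfPred_absNorm_le ⌊x⌋₊).subset fun P h => Nat.le_floor h)
    (fun r h => (hr r h).1) fun r r' h h' e => srv_dvd hS hV hd sf (hr r h).1.1.2.1 (hr r h).2
      (e ▸ (hr r' h').2) h'.1 (by have := h'.2.1; omega) h'.2.2.1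

end Pool.Agent.MP_c481b3_nt.H31F
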