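import Pool.Agent.MP_c481b3_nt.H31F.Spec2

set_option autoImplicit false

namespace Pool.Agent.MP_c481b3_nt.H31F

open UpperHalfPlane hiding I
open Complex Polynomial IsLocalRing Finset Filter NumberField IsDedekindDomain

/-- the Hecke sums of `j - 1728` -/
structure IsHq (Q : ℕ → ℤ[X]) : Prop where
  sum : ∀ m : ℕ, 0 < m → ∀ τ, ∑ M ∈ Hk 1 m, YY (act M τ) ^ 2 = aeval (YY τ ^ 2) (Q m)
  exp : ∀ m : ℕ, 0 < m → ∀ i : ℤ, i < 0 →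
    (aeval (Ys ^ 2) (Q m)).coeff i = if i = -(2 * m) then 1 else 0

/-- Hecke sums of level one -/
def TM2 : Prop := (∃ Q, IsHq Q) ∧ ∀ m : ℕ, 0 < m → ∀ n : ℕ, ∃ T : ℤ[X],
  ∀ τ, ∑ M ∈ Hk 1 m, (YY (act M τ) ^ 2) ^ n = aeval (YY τ ^ 2) T

/-- the Hecke sums span all polynomials -/
def SPAN2 : Prop := ∀ Q, IsHq Q → ∀ T : ℤ[X],
  T ∈ Submodule.span ℤ (insert 1 (Q '' {m | 0 < m}))

/-- the generating series is a rational differential -/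
def GEN2 : Prop := ∀ Q, IsHq Q → ∀ (O : ValuationSubring ℂ) (U V : Multiset ℂ) (c : ℂ) (β : ℕ → ℤ),
  c ≠ 0 → (∀ y ∈ U + V, y ∈ O) → U.card = V.card →
  (∀ n, 0 < n → (U.map fun y => aeval y (Q n)).sum - (V.map fun y => aeval y (Q n)).sum = c * β n) →
  ∃ g : LS (ResidueField O), InU _ g ∧
    ∀ n : ℤ, g.coeff n = if 0 < n ∧ Even n then ((β (n / 2).toNat : ℤ) : ResidueField O) else 0

open Classical in
/-- the triangular matrices that are not divisible by `r` -/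
noncomputable def Pn1 (r m : ℕ) : Finset M2 := (Hk 1 m).filter fun M => ¬Dv r M

/-- removal of the matrices divisible by `r` -/
def PR2 : Prop := ∀ (r m : ℕ) (f : ℍ → ℂ) (τ : ℍ), r.Prime →
  ∑ M ∈ Hk 1 m, f (act M τ) = ∑ M ∈ Pn1 r m, f (act M τ)
    + if r ^ 2 ∣ m then ∑ M ∈ Hk 1 (m / r ^ 2), f (act M τ) else 0

/-- the height along a Hecke orbit -/
def HT2 : Prop := ∀ (τ : ℍ) (B : ℝ), 1 ≤ B → ∃ C : ℝ, ∀ m : ℕ, 3 ≤ m →
  ∏ M ∈ Hk 1 m, (B * (1 + ‖JJ (act M τ)‖)) ≤ Real.exp (C * m * Real.log m ^ 2)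

/-- the operators `U` and `V` differ early -/
def ORD2 : Prop := ∀ (O : ValuationSubring ℂ) (g : LS (ResidueField O)), InU _ g → g ≠ 0 →
  (∀ n, n ≤ 0 → g.coeff n = 0) → (∀ n, Odd n → g.coeff n = 0) → ∃ C : ℕ, ∀ r : ℕ, r.Prime → r ≠ 2 →
    (2 : ResidueField O) ≠ 0 → (r : ResidueField O) ≠ 0 → (r : ResidueField O) + 1 ≠ 0 →
    ∃ n : ℕ, 0 < n ∧ n ≤ C * r ^ 2 ∧
      g.coeff (r * n : ℕ) ≠ if r ∣ n then g.coeff (n / r : ℕ) else 0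

/-- a dominant first term of the logarithm -/
def VAL2 : Prop := ∀ (O : ValuationSubring ℂ) (l : ℕ) (M N : Multiset ℂ), l.Prime → 5 ≤ l →
  O.valuation (l : ℂ) < 1 → (∀ z ∈ M + N, O.valuation z < 1) →
  (∀ k : ℕ, 2 ≤ k → O.valuation ((M.map (· ^ k)).sum - (N.map (· ^ k)).sum)
    < O.valuation (k : ℂ) * O.valuation (M.sum - N.sum)) →
  ((M.map fun z => 1 - z).prod / (N.map fun z => 1 - z).prod) ^ 12 ≠ 1

/-- the genus field -/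
def CMP3 : Prop := ∀ (d : ℕ) (D : ℤ) (s : ℂ), 0 < d → Squarefree d → D < 0 → s ^ 2 = D →
  ∃ M₀ : M2, 0 < M₀.det ∧ ∀ ρ : ℂ ≃+* ℂ,
    ρ (JJ (act M₀ (om d))) = JJ (act M₀ (om d)) → ρ (sq d * s) = sq d * s

/-- there are infinitely many singular moduli -/
def INF : Prop := ∀ d : ℕ, 0 < d → {y : ℂ | ∃ M : M2, 0 < M.det ∧ y = JJ (act M (om d))}.Infinite

/-- two families of singular moduli that are exchanged by a quadratic character -/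
structure Orb2 (d : ℕ) (w : ℂ) (C : ℕ) (U V : Multiset ℂ) : Prop where
  fix : ∀ ρ : ℂ ≃+* ℂ, ρ w = w → U.map ρ = U ∧ V.map ρ = V
  swap : ∀ ρ : ℂ ≃+* ℂ, ρ w = -w → U.map ρ = V ∧ V.map ρ = U
  card : U.card = V.card
  ne : U ≠ V
  cj : ∀ u ∈ U + V, ∃ (ρ : ℂ ≃+* ℂ) (M : M2), 0 < M.det ∧ M.det ≤ C ∧
    u = ρ (YY (act M (om d)) ^ 2)

/-- existence of the two families -/
def ORB2 : Prop := ∀ (d : ℕ) (D : ℤ) (s : ℂ), 0 < d → Squarefree d → D < 0 → s ^ 2 = D →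
  ∃ (C : ℕ) (U V : Multiset ℂ), Orb2 d (sq d * s) C U V

/-- from primes of a number field to valuations of the complex numbers -/
def BR : Prop := ∀ (K : Type) [Field K] [NumberField K] (u : K) (l : ℕ), l.Prime →
  (∀ v : HeightOneSpectrum (𝓞 K), (l : 𝓞 K) ∈ v.asIdeal → v.valuation K u < 1) →
  ∀ (O : ValuationSubring ℂ) (σ : K →+* ℂ), O.valuation (l : ℂ) < 1 → O.valuation (σ u) < 1

/-- the integer that bounds the prime -/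
def PLE : Prop := ∀ (K : Type) [Field K] [NumberField K] (u w : 𝓞 K) (Γ : Multiset ℂ),
  (∀ y ∈ Γ, IsIntegral ℤ y) → (∀ ρ : ℂ ≃+* ℂ, Γ.map ρ = Γ) →
  (∀ y ∈ Γ, ∀ σ : K →+* ℂ, σ w * (y + 1728) - σ u ≠ 0) →
  ∀ (O : ValuationSubring ℂ) (p : ℕ), p.Prime → O.valuation (p : ℂ) < 1 → ∀ y ∈ Γ, ∀ σ : K →+* ℂ,
    O.valuation (σ w * (y + 1728) - σ u) < 1 → ∀ B : ℝ, (∀ σ : K →+* ℂ, ‖σ w‖ ≤ B ∧ ‖σ u‖ ≤ B) →
    (p : ℝ) ≤ (Γ.map fun y => B * (1 + ‖y + 1728‖)).prod ^ Module.finrank ℚ K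

end Pool.Agent.MP_c481b3_nt.H31F
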