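import Pool.Agent.MP_c481b3_nt.H31F.GlueE
import Pool.Agent.MP_c481b3_nt.H31F.Spec3

set_option autoImplicit false

namespace Pool.Agent.MP_c481b3_nt.H31F

open UpperHalfPlane hiding I
open Polynomial NumberField Filter Pool.Agent.MP_c481b3_nt.H81 Pool.Agent.MP_c481b3_nt.H28

lemma pn_lt {O : ValuationSubring ℂ} {l : ℕ} (hl : l.Prime) (hv : O.valuation (l : ℂ) < 1)
    {a b : ℚ} {k : ℕ} (hk : k ≠ 0) (h : padicNorm l (a / k) < padicNorm l b) :
    O.valuation (a : ℂ) < O.valuation (k : ℂ) * O.valuation (b : ℂ) := by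
  have := Fact.mk hl
  have l0 : 0 < O.valuation (l : ℂ) :=
    zero_lt_iff.2 ((Valuation.ne_zero_iff _).2 (by exact_mod_cast hl.ne_zero))
  have k0 : 0 < O.valuation (k : ℂ) :=
    zero_lt_iff.2 ((Valuation.ne_zero_iff _).2 (by exact_mod_cast hk))
  have b0 : b ≠ 0 := by
    rintro rfl
    rw [padicNorm.zero] at h
    exact h.not_ge (padicNorm.nonneg _)
  rw [mul_comm, ← div_lt_iff₀ k0, ← map_div₀, ← Rat.cast_natCast, ← Rat.cast_div]
  generalize a / k = q at h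
  rcases eq_or_ne q 0 with rfl | q0
  · simpa [zero_lt_iff] using b0
  rw [padicNorm.eq_zpow_of_nonzero q0, padicNorm.eq_zpow_of_nonzero b0,
    zpow_lt_zpow_iff_right₀ (by exact_mod_cast hl.one_lt)] at h
  rw [v_rat hl hv q0, v_rat hl hv b0]
  exact zpow_lt_zpow_right_of_lt_one₀ l0 hv (by omega)

lemma v864 {O : ValuationSubring ℂ} {l : ℕ} (hl : l.Prime) (h5 : 5 ≤ l)
    (hv : O.valuation (l : ℂ) < 1) : O.valuation (864 : ℂ) = 1 ∧ O.valuation (2 : ℂ) = 1 := by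
  constructor
  · have := int_eq hl hv (z := 864) fun c => by
      have h : l ∣ 2 ^ 5 * 3 ^ 3 := by exact_mod_cast c
      rcases (Nat.Prime.dvd_mul hl).1 h with h | h <;>
        have := Nat.le_of_dvd (by norm_num) (hl.dvd_of_dvd_pow h) <;> omega
    exact_mod_cast this
  · have := int_eq hl hv (z := 2) fun c => by
      have := Int.le_of_dvd two_pos c
      omega
    exact_mod_cast this

lemma bnd {r n C f : ℕ} {Ch : ℝ} (ch : 0 ≤ Ch) (n0 : 0 < n) (hn : n ≤ C * r ^ 2) (hr : C < r) :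
    ((r * n : ℕ) : ℝ) ≤ C * r ^ 3 ∧
      Real.exp (Ch * (r * n : ℕ) * Real.log (r * n : ℕ) ^ 2) ^ f
        ≤ Real.exp (16 * C * f * Ch * r ^ 3 * Real.log r ^ 2) := by
  have m4 : r * n ≤ C * r ^ 3 := by
    calc r * n ≤ r * (C * r ^ 2) := Nat.mul_le_mul_left r hn
      _ = _ := by ring
  have m5 : ((r * n : ℕ) : ℝ) ≤ C * r ^ 3 := by exact_mod_cast m4
  have m6 : Real.log (r * n : ℕ) ≤ 4 * Real.log r := by
    have : r * n ≤ r ^ 4 := m4.trans (by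
      rw [pow_succ' r 3]; exact Nat.mul_le_mul_right _ (by omega))
    calc _ ≤ Real.log ((r : ℝ) ^ 4) :=
          Real.log_le_log (by exact_mod_cast Nat.mul_pos (by omega) n0) (by exact_mod_cast this)
      _ = _ := by rw [Real.log_pow]; norm_num
  have m7 : 0 ≤ Real.log (r * n : ℕ) := Real.log_natCast_nonneg _
  refine ⟨m5, ?_⟩
  calc _ = Real.exp (f * (Ch * (r * n : ℕ) * Real.log (r * n : ℕ) ^ 2)) := by rw [Real.exp_nat_mul]
    _ ≤ Real.exp (f * (Ch * (C * r ^ 3) * (4 * Real.log r) ^ 2)) := by gcongr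
    _ = _ := by congr 1; ring

/-- products of pairs -/
noncomputable def pp (U Z : Multiset ℂ) : Multiset ℂ := Z.bind fun x => U.map (· * x)

lemma pp_pow (U Z : Multiset ℂ) (k : ℕ) :
    ((pp U Z).map (· ^ k)).sum = (U.map (· ^ k)).sum * (Z.map (· ^ k)).sum := by
  rw [pp, Multiset.map_bind, Multiset.sum_bind, ← Multiset.sum_map_mul_left]
  refine congrArg _ (Multiset.map_congr rfl fun x _ => ?_)
  rw [Multiset.map_map, ← Multiset.sum_map_mul_right]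
  simp [mul_pow]

lemma pp_lt {O : ValuationSubring ℂ} {U Z : Multiset ℂ} (h : ∀ y ∈ U, y ∈ O)
    (h' : ∀ x ∈ Z, O.valuation x < 1) : ∀ z ∈ pp U Z, O.valuation z < 1 := fun z hz => by
  obtain ⟨x, hx, hz⟩ := Multiset.mem_bind.1 hz
  obtain ⟨y, hy, rfl⟩ := Multiset.mem_map.1 hz
  rw [map_mul, mul_comm]
  exact mul_lt_one_of_lt_of_le (h' x hx) (v_le (h y hy))

/-- the rational function attached to two families -/
noncomputable def R2 (U V : Multiset ℂ) (x : ℂ) : ℂ :=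
  (U.map fun y => 1 - y * x).prod / (V.map fun y => 1 - y * x).prod

/-- the element of norm one -/
noncomputable def G2 (U V Z W : Multiset ℂ) : ℂ := (Z.map (R2 U V)).prod / (W.map (R2 U V)).prod

lemma G2_eq (U V Z W : Multiset ℂ) : G2 U V Z W = ((pp U Z + pp V W).map fun z => 1 - z).prod /
    ((pp V Z + pp U W).map fun z => 1 - z).prod := by
  have e : ∀ U Z : Multiset ℂ, ((pp U Z).map fun z => 1 - z).prod
      = (Z.map fun x => (U.map fun y => 1 - y * x).prod).prod := fun U Z => by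
    rw [pp, Multiset.map_bind, Multiset.prod_bind]
    simp only [Multiset.map_map, Function.comp_def]
  simp only [G2, Multiset.map_add, Multiset.prod_add, e]
  rw [show R2 U V = fun x => (U.map fun y => 1 - y * x).prod / (V.map fun y => 1 - y * x).prod
    from rfl, Multiset.prod_map_div, Multiset.prod_map_div, div_div_div_eq]

/-- the element is no root of unity -/
lemma g2_ne (hW : VAL2) {O : ValuationSubring ℂ} {l : ℕ} (hl : l.Prime) (h5 : 5 ≤ l)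
    (hv : O.valuation (l : ℂ) < 1) {U V Z W : Multiset ℂ} (h1 : ∀ y ∈ U + V, y ∈ O)
    (h2 : ∀ x ∈ Z + W, O.valuation x < 1)
    (h : ∀ k : ℕ, 2 ≤ k → O.valuation (((U.map (· ^ k)).sum - (V.map (· ^ k)).sum) *
      ((Z.map (· ^ k)).sum - (W.map (· ^ k)).sum))
        < O.valuation (k : ℂ) * O.valuation ((U.sum - V.sum) * (Z.sum - W.sum))) :
    G2 U V Z W ^ 12 ≠ 1 := by
  have e : ∀ k : ℕ, ((pp U Z + pp V W).map (· ^ k)).sum - ((pp V Z + pp U W).map (· ^ k)).sum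
      = ((U.map (· ^ k)).sum - (V.map (· ^ k)).sum) *
        ((Z.map (· ^ k)).sum - (W.map (· ^ k)).sum) := fun k => by
    simp only [Multiset.map_add, Multiset.sum_add, pp_pow]; ring
  have e1 := e 1
  simp only [pow_one, Multiset.map_id'] at e1
  simp only [Multiset.mem_add, or_imp, forall_and] at h1 h2
  rw [G2_eq]
  refine hW O l _ _ hl h5 hv (fun z hz => ?_) fun k hk => by rw [e, e1]; exact h k hk
  simp only [Multiset.mem_add] at hz
  rcases hz with (hz | hz) | hz | hz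
  exacts [pp_lt h1.1 h2.1 z hz, pp_lt h1.2 h2.2 z hz, pp_lt h1.2 h2.1 z hz, pp_lt h1.1 h2.2 z hz]

variable {K : Type} [Field K] [NumberField K]

lemma tr_sum (z : K) : ∑ σ : K →+* ℂ, σ z = (Algebra.trace ℚ K z : ℚ) := by
  have := trace_eq_sum_embeddings (K := ℚ) (L := K) (E := ℂ) (x := z)
  rw [eq_ratCast, ← Fintype.sum_equiv (RingHom.equivRatAlgHom K ℂ) (fun σ => σ z) _
    fun _ => by simp [RingHom.equivRatAlgHom_apply]] at this
  exact this.symm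

lemma exists_bd (x y : K) : ∃ Bd : ℝ, 1 ≤ Bd ∧ ∀ σ : K →+* ℂ, ‖σ x‖ ≤ Bd ∧ ‖σ y‖ ≤ Bd := by
  refine ⟨1 + ∑ σ : K →+* ℂ, (‖σ x‖ + ‖σ y‖), le_add_of_nonneg_right (by positivity), fun σ => ?_⟩
  have := Finset.single_le_sum (f := fun σ : K →+* ℂ => ‖σ x‖ + ‖σ y‖) (fun _ _ => by positivity)
    (Finset.mem_univ σ)
  constructor <;> linarith [norm_nonneg (σ x), norm_nonneg (σ y)]

/-- the conclusion of the theorem -/
def Concl (A B : 𝓞 K) (d : ℕ) : Prop := ∃ c : ℝ, 0 < c ∧ ∀ᶠ x : ℝ in atTop,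
  c * Real.log x ^ (1 / 3 : ℝ) / Real.log (Real.log x) ^ (5 / 3 : ℝ)
    ≤ ({P : Ideal (𝓞 K) | P ∈ {P : Ideal (𝓞 K) | P.IsMaximal ∧ (Wc A B).Δ ∉ P ∧
      Same A B (-d) P} ∧ (Ideal.absNorm P : ℝ) ≤ x}.ncard : ℝ)

/-- from congruences to the count -/
theorem finish (hM : MAT) (hV : VLS) (hP : PI) (hN : NOR2) (hI : INTJ2) (hL : LOC2) (hU : U3)
    (hK : LINK2) (hS : SRV) (hC : CNT) {A B : 𝓞 K} (hΔ : (Wc A B).Δ ≠ 0) {d : ℕ}
    (sf : Squarefree d) {l : ℕ} (hl : l.Prime) (h5 : 5 ≤ l) (R₀ : ℕ) {C : ℝ} (c0 : 0 ≤ C)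
    (h : ∀ r, Gd d l R₀ r → ∃ (O : ValuationSubring ℂ) (ρ : ℂ ≃+* ℂ) (a b : ℚ) (M : M2)
      (σ : K →+* ℂ), a ^ 2 + d * b ^ 2 = 1 ∧ O.valuation ((a : ℂ) + b * sq d) ≠ 1 ∧ 0 < M.det ∧
      (r : ℤ) ∣ M.det ∧ ¬Dv r M ∧
      O.valuation (ρ (H31F.JJ (act M (om d))) - jj (σ A) (σ B)) < 1 ∧ (M.det : ℝ) ≤ C * r ^ 3 ∧
      ∀ p : ℕ, p.Prime → O.valuation (p : ℂ) < 1 →
        (p : ℝ) ≤ Real.exp (C * r ^ 3 * Real.log r ^ 2)) : Concl A B d := by
  have hd : 0 < d := Nat.pos_of_ne_zero sf.ne_zero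
  have s2 : sq d ^ 2 = (-d : ℤ) := by rw [sq_sq]; simp
  set f := Module.finrank ℚ K with hf
  set R := R₀ + 2 + 4 * (4 + Ideal.absNorm (Ideal.span {(Wc A B).Δ})) ^ f.factorial with hR'
  have ex : ∀ r : ℕ, ∃ (P : Ideal (𝓞 K)) (g : ℕ), Gd d l R r →
      (P ∈ {P : Ideal (𝓞 K) | P.IsMaximal ∧ (Wc A B).Δ ∉ P ∧ Same A B (-d) P} ∧ 0 < g ∧
        (g : ℝ) ≤ ((f + 1) * C) * r ^ 3 ∧ (Ideal.absNorm P : ℝ)
          ≤ Real.exp (((f + 1) * C) * r ^ 3 * Real.log r ^ 2)) ∧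
      Srv A B d r g P := fun r => by
    by_cases gd : Gd d l R r
    swap
    · exact ⟨⊥, 0, fun c => absurd c gd⟩
    obtain ⟨r1, r2, r3, r4⟩ := gd
    obtain ⟨O, ρ, a, b, M, σ, ab, hO, m0, m1, m2, m3, m4, m5⟩ := h r ⟨r1, by omega, r3, r4⟩
    obtain ⟨κ, k1, k2⟩ := sign_of_sq ρ s2
    obtain ⟨b', ab', h5'⟩ : ∃ b' : ℚ, a ^ 2 + d * b' ^ 2 = 1 ∧
        ρ ((a : ℂ) + b' * sq d) = a + b * sq d := by
      rcases k1 with rfl | rfl
      · exact ⟨b, ab, by simp [k2]⟩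
      · exact ⟨-b, by rwa [neg_sq], by simp [k2]⟩
    obtain ⟨p, g, P, p1, p2, p3, p4, p5, p6, p7, p8, p9⟩ := local_step hM hV hP hN hI hL hU hK hΔ hd
      sf r1 (by omega) r3 (by rw [← hf]; omega) (O := O.comap (ρ : ℂ →+* ℂ)) ab'
      (by rw [Ne, comap_eq]; exact h5' ▸ hO) m0 m1 m2 ((ρ.symm : ℂ →+* ℂ).comp σ) (by
        rw [comap_lt, map_sub, jj_map]
        simpa only [RingHom.coe_coe, RingHom.comp_apply, RingEquiv.apply_symm_apply] using m3)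
    rw [comap_lt, map_natCast] at p2
    refine ⟨P, g, fun _ => ⟨⟨⟨p4, p5, p6⟩, p7, ?_, ?_⟩, p9⟩⟩
    · have : (g : ℝ) ≤ M.det := by exact_mod_cast p8
      refine (this.trans m4).trans ?_
      gcongr
      exact le_mul_of_one_le_left c0 (le_add_of_nonneg_left (by positivity))
    · have q1 : (Ideal.absNorm P : ℝ) ≤ p ^ f := by exact_mod_cast absNorm_le p1.pos p3
      calc (Ideal.absNorm P : ℝ) ≤ Real.exp (C * r ^ 3 * Real.log r ^ 2) ^ f :=
            q1.trans (by gcongr; exact m5 p p1 p2)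
        _ = Real.exp (f * C * r ^ 3 * Real.log r ^ 2) := by
            rw [← Real.exp_nat_mul]; congr 1; ring
        _ ≤ _ := by gcongr; exact le_add_of_nonneg_right zero_le_one
  choose Pr gr hr using ex
  exact hC (Ideal (𝓞 K)) Ideal.absNorm _ d l R _ Pr gr hd hl h5
    (fun x => (Ideal.finite_setOfPred_absNorm_le ⌊x⌋₊).subset fun P h => Nat.le_floor h)
    (fun r h => (hr r h).1) fun r r' h h' e => srv_dvd hS hV hd sf (hr r h).1.1.2.1 (hr r h).2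
      (e ▸ (hr r' h').2) h'.1 (by have := h'.2.1; omega) h'.2.2.1

lemma fac_jj {A B : 𝓞 K} (hΔ : (Wc A B).Δ ≠ 0) (y : ℂ) (σ : K →+* ℂ) :
    σ ((Wc A B).Δ : K) * (y + 1728) - σ ((-110592 * A ^ 3 : 𝓞 K) : K)
      = σ ((Wc A B).Δ : K) * (y + 1728 - jj (σ A) (σ B)) := by
  have : σ ((Wc A B).Δ : K) ≠ 0 := (_root_.map_ne_zero σ).2 (by exact_mod_cast hΔ)
  rw [jj_div]; field_simp

lemma u_jj {A B : 𝓞 K} (hΔ : (Wc A B).Δ ≠ 0) (hB : B ≠ 0) (σ : K →+* ℂ) :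
    σ ((Wc A B).Δ / B ^ 2) / 864 ^ 2 * (jj (σ A) (σ B) - 1728) = 1 := by
  have h1 : σ ((Wc A B).Δ : K) ≠ 0 := (_root_.map_ne_zero σ).2 (by exact_mod_cast hΔ)
  have h2 : σ B ≠ 0 := (_root_.map_ne_zero σ).2 (by exact_mod_cast hB)
  rw [map_div₀, coe_disc]
  rw [coe_disc] at h1
  simp only [map_mul, map_neg, map_add, map_pow, map_ofNat] at h1 ⊢
  have h4 : 4 * σ A ^ 3 + 27 * σ B ^ 2 ≠ 0 := right_ne_zero_of_mul h1
  rw [jj]
  field_simp
  ring

end Pool.Agent.MP_c481b3_nt.H31F
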