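import Pool.Agent.MP_c481b3_nt.H31F.GlueF

set_option autoImplicit false

namespace Pool.Agent.MP_c481b3_nt.H31F

open UpperHalfPlane hiding I
open Polynomial NumberField Filter Pool.Agent.MP_c481b3_nt.H81 Pool.Agent.MP_c481b3_nt.H28

lemma GG_eq (Γ Z : Multiset ℂ) : GG Γ Z = G2 Γ (Γ.map (-·)) Z 0 := by
  rw [GG, Multiset.prod_map_prod_map, G2]
  simp only [Multiset.map_zero, Multiset.prod_zero, div_one]
  refine congrArg _ (Multiset.map_congr rfl fun x _ => ?_)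
  rw [R2, Multiset.prod_map_div, Multiset.map_map]
  simp

lemma gg_ne' (hW : VAL2) {O : ValuationSubring ℂ} {l : ℕ} (hl : l.Prime) (h5 : 5 ≤ l)
    (hv : O.valuation (l : ℂ) < 1) {Γ Z : Multiset ℂ} (h1 : ∀ y ∈ Γ, y ∈ O)
    (h2 : ∀ x ∈ Z, O.valuation x < 1) (h3 : Γ.sum ≠ 0) (h4 : Z.sum ≠ 0)
    (h6 : ∀ k, Odd k → O.valuation (Γ.map (· ^ k)).sum ≤ O.valuation Γ.sum)
    (h7 : ∀ k : ℕ, 1 ≤ k → O.valuation (Z.map (· ^ (2 * k + 1))).sum
      < O.valuation ((2 * k + 1 : ℕ) : ℂ) * O.valuation Z.sum) : GG Γ Z ^ 12 ≠ 1 := by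
  have v2 := (v864 hl h5 hv).2
  have e : ∀ k : ℕ, ((Γ.map (-·)).map (· ^ k)).sum = (-1) ^ k * (Γ.map (· ^ k)).sum := fun k => by
    rw [Multiset.map_map, ← Multiset.sum_map_mul_left]
    exact congrArg _ (Multiset.map_congr rfl fun y _ => neg_pow y k)
  have e1 := e 1
  simp only [pow_one, Multiset.map_id'] at e1
  have p1 : 0 < O.valuation Γ.sum := zero_lt_iff.2 ((Valuation.ne_zero_iff _).2 h3)
  rw [GG_eq]
  refine g2_ne hW hl h5 hv (fun y hy => ?_) (by simpa using h2) fun k hk => ?_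
  · rcases Multiset.mem_add.1 hy with hy | hy
    · exact h1 y hy
    · obtain ⟨x, hx, rfl⟩ := Multiset.mem_map.1 hy
      exact neg_mem (h1 x hx)
  rw [e, e1, show Γ.sum - -1 * Γ.sum = 2 * Γ.sum by ring]
  simp only [Multiset.map_zero, Multiset.sum_zero, sub_zero, map_mul, v2, one_mul]
  obtain ⟨j, rfl | rfl⟩ := Nat.even_or_odd' k
  · rw [pow_mul, neg_one_sq, one_pow, one_mul, sub_self, map_zero, zero_mul, zero_lt_iff,
      ← map_mul, ← map_mul, Valuation.ne_zero_iff]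
    exact mul_ne_zero (by exact_mod_cast (by omega : 2 * j ≠ 0)) (mul_ne_zero h3 h4)
  · rw [(odd_two_mul_add_one j).neg_one_pow, show ∀ a : ℂ, a - -1 * a = 2 * a from fun a => by ring,
      map_mul, v2, one_mul, mul_left_comm]
    exact (mul_le_mul_left (h6 _ (odd_two_mul_add_one j)) _).trans_lt
      (mul_lt_mul_of_pos_left (h7 j (by omega)) p1)

variable {K : Type} [Field K] [NumberField K]

lemma trace_ne {l : ℕ} {w u : K} {i : ℕ} (hk : ∀ k : ℕ, 1 ≤ k →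
    padicNorm l (Algebra.trace ℚ K (w * u ^ k) / (2 * k + i)) < padicNorm l (Algebra.trace ℚ K w)) :
    Algebra.trace ℚ K w ≠ 0 := fun e => by
  have := hk 1 le_rfl
  rw [e, padicNorm.zero] at this
  exact this.not_ge (padicNorm.nonneg _)

/-- the odd case -/
theorem main1 (hM : MAT) (hT : TM) (hA : AUT) (hV : VLS) (hF : FAB) (hW : VAL2) (hG : GEN)
    (hO : ORD) (hR : PR) (hJ : SURJ) (hP : PI) (hN : NOR2) (hI : INTJ2) (hL : LOC2) (hU : U3)
    (hK : LINK2) (hS : SRV) (hH : HT) (hC : CNT) (hB : CMP2) {A B : 𝓞 K} (hΔ : (Wc A B).Δ ≠ 0)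
    {u w : K} (hu : u = (Wc A B).Δ / B ^ 2) {D : ℤ} (hw : w ^ 2 = D * u) {d : ℕ}
    (sf : Squarefree d) (tab : Tab d D) {l : ℕ} (hl : l.Prime) (h5 : 5 ≤ l)
    (hv : ∀ (O : ValuationSubring ℂ) (σ : K →+* ℂ), O.valuation (l : ℂ) < 1 →
      O.valuation (σ u) < 1)
    (hq : ∀ k : ℕ, 1 ≤ k → padicNorm l (Algebra.trace ℚ K (w * u ^ k) / (2 * k + (1 : ℕ)))
      < padicNorm l (Algebra.trace ℚ K w)) : Concl A B d := by
  have hd : 0 < d := Nat.pos_of_ne_zero sf.ne_zero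
  have D0 : D ≠ 0 := by rcases tab with h | h <;> omega
  have D1 : (D : K) ≠ 0 := by exact_mod_cast D0
  have D2 : (D : ℂ) ≠ 0 := by exact_mod_cast D0
  have t0 := trace_ne hq
  have B0 : B ≠ 0 := by
    rintro rfl
    rw [hu] at hw
    have : w = 0 := by simpa using hw
    exact t0 (by simp [this])
  have B1 : (B : K) ≠ 0 := by exact_mod_cast B0
  have hD : ((Wc A B).Δ : K) = D * (w * B / D) ^ 2 := by
    rw [div_pow, mul_pow, hw, hu]; field_simp
  have hδ : w * B / D / B = w / D := by field_simp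
  obtain ⟨s, hs⟩ := IsAlgClosed.exists_pow_nat_eq (D : ℂ) two_pos
  have s0 : s ≠ 0 := fun e => D2 (by rw [← hs, e]; simp)
  have s2 : sq d ^ 2 = (-d : ℤ) := by rw [sq_sq]; simp
  have hw' : (sq d * s) ^ 2 = (-d * D : ℤ) := by rw [mul_pow, s2, hs]; simp
  have w0 : sq d * s ≠ 0 := fun c => by
    rw [c, zero_pow two_ne_zero] at hw'
    have : -(d : ℤ) * D = 0 := by exact_mod_cast hw'.symm
    exact mul_ne_zero (by omega) D0 this
  obtain ⟨M₀, m0, hM₀⟩ := hB d D s hd sf tab hs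
  obtain ⟨G, o⟩ := exists_orb hA hw' w0 (hI d M₀ hd sf m0).1 hM₀
  obtain ⟨Pf, fb⟩ := hF
  obtain ⟨c, β, m₀, c0, m1, m2, hβ⟩ := o.normal hA fb hw' w0 hl
  obtain ⟨Ol, vl⟩ := hV.val l hl
  obtain ⟨C, sel⟩ := select hV hG hO fb hl vl o.int c0 m1 m2 hβ
  have v1 := (v864 hl h5 vl).1
  have xs : ∀ σ : K →+* ℂ, (s * σ (w / D) / 864) ^ 2 = σ u / 864 ^ 2 := fun σ => by
    rw [div_pow, mul_pow, ← map_pow, div_pow, hw, hs]
    simp only [map_div₀, map_mul, map_pow, map_intCast]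
    field_simp
  have zl : ∀ x ∈ Zs s (w / D), Ol.valuation x < 1 := fun x hx => by
    obtain ⟨σ, -, rfl⟩ := Multiset.mem_map.1 hx
    refine lt_of_pow_lt_pow_left₀ 2 zero_le ?_
    rw [← map_pow, xs, map_div₀, map_pow, v1, one_pow, div_one]
    exact hv Ol σ vl
  have zp : ∀ k : ℕ, ((Zs s (w / D)).map (· ^ (2 * k + 1))).sum
      = s / D / 864 ^ (2 * k + 1) * (Algebra.trace ℚ K (w * u ^ k) : ℚ) := fun k => by
    rw [← tr_sum, Finset.mul_sum, Zs, Multiset.map_map]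
    refine Finset.sum_congr rfl fun σ _ => ?_
    simp only [Function.comp_apply]
    rw [pow_succ, pow_mul, xs]
    simp only [map_div₀, map_mul, map_pow, map_intCast, div_pow, ← pow_mul]
    field_simp
    ring
  have z1 := zp 0
  simp only [mul_zero, zero_add, pow_one, Multiset.map_id', pow_zero, mul_one] at z1
  choose t ht using hJ
  obtain ⟨Bd, b1, b2⟩ := exists_bd ((Wc A B).Δ : K) ((-110592 * A ^ 3 : 𝓞 K) : K)
  obtain ⟨Ch, ch, hh⟩ := height hH t G b1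
  obtain ⟨g₀, hg₀⟩ : ∃ g : ℕ, M₀.det = g := ⟨M₀.det.toNat, by omega⟩
  refine finish hM hV hP hN hI hL hU hK hS hC hΔ sf hl h5 (l + g₀ + C)
    (C := C * g₀ + 16 * C * Module.finrank ℚ K * Ch) (by positivity) fun r ⟨r1, r2, r3, r4⟩ => ?_
  have r5 : r ≠ 2 := by omega
  obtain ⟨n, n1, n2, n3⟩ := sel r r1 r5
    (fun c => by have := (Nat.prime_dvd_prime_iff_eq hl r1).1 c; omega) r4
  have mo := (r1.odd_of_ne_two r5).mul n1
  have ps := (ps_pn hT hR fb r1 r5 mo).1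
  have dt : ∀ M ∈ Pn r (r * n), M.det = (r * n : ℕ) := fun M h => det_hk hM (pn_sub _ _ h)
  have dp : ∀ M ∈ Pn r (r * n), 0 < M.det := fun M h => by
    rw [dt M h]; exact_mod_cast mo.pos
  have yi : ∀ y ∈ hk t G (Pn r (r * n)), IsIntegral ℤ y := fun y => hk_int ht hI hd sf m0 o ps dp
  have sm := hk_sum ht hT hR fb hβ r1 r5 n1
  have vs : Ol.valuation (hk t G (Pn r (r * n))).sum = Ol.valuation c := by
    rw [sm, map_mul, int_eq hl vl n3, mul_one]
  have g1 := gg_ne' hW hl h5 vl (fun y hy => (hV.int y).1 (yi y hy) Ol) zl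
    (fun e => c0 (by rwa [e, map_zero, eq_comm, Valuation.zero_iff] at vs))
    (by rw [z1]; exact mul_ne_zero (by simp [s0, D2]) (by exact_mod_cast t0))
    (fun k ho => by
      obtain ⟨T, t1, t2⟩ := ps k
      obtain ⟨a, a1, -⟩ := Orb.span fb hβ (T := T) fun i hi => t1 i (by
        rw [Nat.even_iff.1 hi, Nat.odd_iff.1 ho]; exact zero_ne_one)
      rw [hk_pow ht t2, a1, map_mul, vs]
      exact mul_le_of_le_one_right' (v_le (intCast_mem Ol a)))
    (fun k k1 => by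
      have := pn_lt hl vl (k := 2 * k + 1) (by omega) (by exact_mod_cast hq k k1)
      rw [zp, z1, Valuation.map_mul, Valuation.map_mul, map_div₀ _ (s / D), map_div₀ _ (s / D),
        Valuation.map_pow, v1, one_pow, mul_left_comm]
      exact mul_lt_mul_of_pos_left this (zero_lt_iff.2 (by simp [s0, D2])))
  obtain ⟨a, b, ab, g2⟩ := normone hA hd (Z := Zs s (w / D)) (fun y hy => (yi y hy).tower_top)
    (fun x hx => by
      obtain ⟨σ, -, rfl⟩ := Multiset.mem_map.1 hx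
      have i1 : IsIntegral ℚ s := IsIntegral.of_pow two_pos (by
        rw [hs]; exact_mod_cast isIntegral_algebraMap (R := ℚ) (A := ℂ) (x := (D : ℚ)))
      have i2 : IsIntegral ℚ (σ (w / D)) :=
        (Algebra.IsIntegral.isIntegral (R := ℚ) (w / D)).map σ.toRatAlgHom
      have i3 : IsIntegral ℚ (864 : ℂ) := by
        exact_mod_cast isIntegral_algebraMap (R := ℚ) (A := ℂ) (x := 864)
      rw [div_eq_mul_inv]
      exact (i1.mul i2).mul i3.inv)
    (gg_zero (fun y hy => (hV.int y).1 (yi y hy) Ol) zl) fun ρ => by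
      obtain ⟨κ, k1, k2⟩ := sign_of_sq ρ s2
      obtain ⟨κ', k3, k4⟩ := sign_of_sq ρ hs
      have k5 : κ * κ' = 1 ∨ κ * κ' = -1 := by
        rcases k1 with rfl | rfl <;> rcases k3 with rfl | rfl <;> simp
      exact ⟨κ * κ', κ', k5, k3, hk_gal ht o ps (by rw [map_mul, k2, k4]; ring) k5, Zs_gal k4 _,
        by rw [k2, mul_assoc κ, sign_sq k3, mul_one]⟩
  obtain ⟨O, hO⟩ : ∃ O : ValuationSubring ℂ, O.valuation ((a : ℂ) + b * sq d) ≠ 1 := by
    by_contra! h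
    exact g1 (g2 ▸ hV.unit d a b ab h)
  obtain ⟨y, hy, h1⟩ := exists_ne_one (g2 ▸ hO : O.valuation (GG _ _) ≠ 1)
  obtain ⟨x, hx, h2⟩ := exists_ne_one h1
  obtain ⟨σ, -, rfl⟩ := Multiset.mem_map.1 hx
  have xj := fun σ => hδ ▸ x_jj hΔ B0 hD hs σ
  have h3 := cong_of ((hV.int y).1 (yi y hy) O) (xj σ) h2
  obtain ⟨ρ, M, hM', h4⟩ := hk_mem ht o ps hy
  obtain ⟨m5, m6⟩ := bnd (f := Module.finrank ℚ K) ch n1.pos n2 (by omega : C < r)
  refine ⟨O, ρ, a, b, M * M₀, σ, ab, hO, det_mul_pos (dp M hM') m0, ?_,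
    fun c => mem_pn hM' (c.cancel r1 fun c' => by have := Int.le_of_dvd m0 c'; omega), ?_, ?_,
    fun p p1 p2 => ?_⟩
  · rw [Matrix.det_mul, dt M hM']; push_cast; exact (dvd_mul_right _ _).mul_right _
  · rw [act_mul (dp M hM') m0, H31F.JJ, map_add, map_pow, map_ofNat, ← h4]
    exact h3
  · rw [Matrix.det_mul, dt M hM', hg₀, Int.cast_mul, Int.cast_natCast, Int.cast_natCast]
    calc _ ≤ (C * r ^ 3 * g₀ : ℝ) := by gcongr
      _ = C * g₀ * r ^ 3 := by ring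
      _ ≤ _ := by gcongr; exact le_add_of_nonneg_right (by positivity)
  have pl := prime_le hA hV (-110592 * A ^ 3) (Wc A B).Δ yi (fun ρ => by
      obtain ⟨κ, k1, k2⟩ := sign_of_sq ρ hw'
      exact ⟨κ, k1, hk_gal ht o ps k2 k1⟩)
    (fun y hy σ => by
      rw [fac_jj hΔ]
      refine mul_ne_zero ((_root_.map_ne_zero σ).2 (by exact_mod_cast hΔ)) fun c => ?_
      have h1 := xj σ
      rw [show jj (σ A) (σ B) - 1728 = y ^ 2 by linear_combination -c] at h1
      have h2 := congrArg Ol.valuation h1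
      rw [map_mul, map_pow, map_pow, map_one] at h2
      exact (mul_lt_one_of_lt_of_le (pow_lt_one' (zl _ (Multiset.mem_map_of_mem _
        (Finset.mem_univ_val σ))) two_ne_zero) (pow_le_one' (v_le ((hV.int y).1 (yi y hy) Ol))
        2)).ne h2) p1 p2 hy (σ := σ) (by
      rw [fac_jj hΔ, map_mul, mul_comm]
      exact mul_lt_one_of_lt_of_le h3 (v_le ((hV.int _).1 (int_emb σ _) O))) b2
  have m3 : 3 ≤ r * n := le_trans (by omega) (Nat.le_mul_of_pos_right r n1.pos)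
  refine ((pl.trans (pow_le_pow_left₀ (Multiset.prod_nonneg fun a ha => by
    obtain ⟨z, -, rfl⟩ := Multiset.mem_map.1 ha
    positivity) (hh r _ mo m3) _)).trans m6).trans ?_
  gcongr
  exact le_add_of_nonneg_left (by positivity)

end Pool.Agent.MP_c481b3_nt.H31F
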