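import Pool.Agent.MP_c481b3_nt.H31F.GlueG

set_option autoImplicit false

namespace Pool.Agent.MP_c481b3_nt.H31F

open UpperHalfPlane hiding I
open Polynomial

lemma norm1 (hA : AUT) {d : ℕ} (hd : 0 < d) {z : ℂ} (gL : z ∈ algebraicClosure ℚ ℂ) (h0 : z ≠ 0)
    (key : ∀ ρ : ℂ ≃+* ℂ, (ρ z = z ∧ ρ (sq d) = sq d) ∨ (ρ z = z⁻¹ ∧ ρ (sq d) = -sq d)) :
    ∃ a b : ℚ, a ^ 2 + d * b ^ 2 = 1 ∧ z = a + b * sq d := by
  have s2 := sq_sq d
  have s0 : sq d ≠ 0 := fun e => by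
    rw [e] at s2
    have : (d : ℂ) = 0 := by simpa using s2
    exact hd.ne' (by exact_mod_cast this)
  set L := algebraicClosure ℚ ℂ
  have sL : sq d ∈ L := mem_algebraicClosure_iff'.2 (IsIntegral.of_pow two_pos (by
    rw [s2]
    exact_mod_cast (isIntegral_algebraMap (R := ℚ) (A := ℂ) (x := (d : ℚ))).neg))
  have tL : (2 : ℂ) ∈ L := by exact_mod_cast natCast_mem L 2
  obtain ⟨a, ha⟩ := hA.fix ((z + z⁻¹) / 2)
    (mem_algebraicClosure_iff.1 (div_mem (add_mem gL (inv_mem gL)) tL)) fun ρ => by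
      rw [map_div₀, map_add, map_inv₀, map_ofNat]
      rcases key ρ with ⟨e, -⟩ | ⟨e, -⟩ <;> rw [e]
      rw [inv_inv, add_comm]
  obtain ⟨b, hb⟩ := hA.fix ((z - z⁻¹) / (2 * sq d))
    (mem_algebraicClosure_iff.1 (div_mem (sub_mem gL (inv_mem gL)) (mul_mem tL sL))) fun ρ => by
      rw [map_div₀, map_sub, map_inv₀, map_mul, map_ofNat]
      rcases key ρ with ⟨e, e'⟩ | ⟨e, e'⟩ <;> rw [e, e']
      rw [inv_inv, mul_neg, div_neg, ← neg_div, neg_sub]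
  have hb' : (z - z⁻¹) / 2 = b * sq d := by rw [← hb]; field_simp
  refine ⟨a, b, ?_, by rw [← ha, ← hb']; ring⟩
  have : (a : ℂ) ^ 2 + d * b ^ 2 = 1 := by
    have e := mul_inv_cancel₀ h0
    calc (a : ℂ) ^ 2 + d * b ^ 2 = a ^ 2 - (b * sq d) ^ 2 := by rw [mul_pow, s2]; ring
      _ = 1 := by rw [← ha, ← hb']; linear_combination e
  exact_mod_cast this

lemma map_G2 (ρ : ℂ ≃+* ℂ) (U V Z W : Multiset ℂ) :
    ρ (G2 U V Z W) = G2 (U.map ρ) (V.map ρ) (Z.map ρ) (W.map ρ) := by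
  simp [G2, R2, map_multiset_prod, Multiset.map_map]

lemma G2_swap (U V Z W : Multiset ℂ) :
    G2 V U Z W = (G2 U V Z W)⁻¹ ∧ G2 U V W Z = (G2 U V Z W)⁻¹ ∧ G2 V U W Z = G2 U V Z W := by
  simp only [G2_eq, inv_div]
  exact ⟨trivial, by rw [add_comm (pp U W), add_comm (pp V W)],
    by rw [add_comm (pp V W), add_comm (pp U W)]⟩

lemma G2_mem {L : IntermediateField ℚ ℂ} {U V Z W : Multiset ℂ} (h1 : ∀ y ∈ U + V, y ∈ L)
    (h2 : ∀ x ∈ Z + W, x ∈ L) : G2 U V Z W ∈ L := by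
  simp only [Multiset.mem_add, or_imp, forall_and] at h1 h2
  have a : ∀ {U : Multiset ℂ} {x : ℂ}, (∀ y ∈ U, y ∈ L) → x ∈ L →
      (U.map fun y => 1 - y * x).prod ∈ L := fun h hx => multiset_prod_mem _ fun _ hy' => by
    obtain ⟨y, hy, rfl⟩ := Multiset.mem_map.1 hy'
    exact sub_mem (one_mem _) (mul_mem (h y hy) hx)
  have b : ∀ {Z : Multiset ℂ}, (∀ x ∈ Z, x ∈ L) → (Z.map (R2 U V)).prod ∈ L :=
    fun h => multiset_prod_mem _ fun _ hx' => by
      obtain ⟨x, hx, rfl⟩ := Multiset.mem_map.1 hx'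
      exact div_mem (a h1.1 (h x hx)) (a h1.2 (h x hx))
  exact div_mem (b h2.1) (b h2.2)

section val
variable {O : ValuationSubring ℂ} {U V Z W : Multiset ℂ}

lemma v_prod {c : O.ValueGroup} {f : ℂ → ℂ} (h : ∀ y ∈ U, O.valuation (f y) = c) :
    O.valuation (U.map f).prod = c ^ U.card := by
  rw [map_multiset_prod, Multiset.map_map,
    Multiset.map_congr (f := _ ∘ _) rfl (g := fun _ => c) h]
  simp

lemma dich2 (h1 : ∀ y ∈ U + V, y ∈ O) (hc : U.card = V.card) {x : ℂ}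
    (h : O.valuation (R2 U V x) ≠ 1) : ∃ y ∈ U + V, O.valuation (y - x⁻¹) < 1 := by
  by_contra! c
  refine h ?_
  have key : ∃ g : O.ValueGroup, g ≠ 0 ∧ ∀ y ∈ U + V, O.valuation (1 - y * x) = g := by
    rcases eq_or_ne x 0 with rfl | x0
    · exact ⟨1, one_ne_zero, by simp⟩
    have e : ∀ y : ℂ, 1 - y * x = -((y - x⁻¹) * x) := fun y => by field_simp; ring
    have vx : O.valuation x ≠ 0 := (Valuation.ne_zero_iff _).2 x0
    by_cases hx : x⁻¹ ∈ O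
    · refine ⟨_, vx, fun y hy => ?_⟩
      rw [e, Valuation.map_neg, map_mul, (v_le (sub_mem (h1 y hy) hx)).antisymm (c y hy), one_mul]
    · refine ⟨1, one_ne_zero, fun y hy => ?_⟩
      rw [← O.valuation_le_one_iff, not_le] at hx
      rw [e, Valuation.map_neg, map_mul,
        O.valuation.map_sub_eq_of_lt_right ((v_le (h1 y hy)).trans_lt hx), map_inv₀,
        inv_mul_cancel₀ vx]
  obtain ⟨g, g0, hg⟩ := key
  rw [R2, map_div₀, v_prod fun y hy => hg y (Multiset.mem_add.2 (Or.inl hy)),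
    v_prod fun y hy => hg y (Multiset.mem_add.2 (Or.inr hy)), hc, div_self (pow_ne_zero _ g0)]

lemma g2_cong (h1 : ∀ y ∈ U + V, y ∈ O) (hc : U.card = V.card)
    (h : O.valuation (G2 U V Z W) ≠ 1) : ∃ x ∈ Z + W, ∃ y ∈ U + V, O.valuation (y - x⁻¹) < 1 := by
  by_contra! c
  have a : ∀ x ∈ Z + W, O.valuation (R2 U V x) = 1 := fun x hx => by
    by_contra e
    obtain ⟨y, hy, e⟩ := dich2 h1 hc e
    exact e.not_ge (c x hx y hy)
  refine h ?_
  rw [G2, map_div₀, v_prod fun x hx => a x (Multiset.mem_add.2 (Or.inl hx)),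
    v_prod fun x hx => a x (Multiset.mem_add.2 (Or.inr hx)), one_pow, one_pow, div_one]

lemma inv_far {x y : ℂ} (hy : y ∈ O) (hx : O.valuation x < 1) (x0 : x ≠ 0) :
    ¬O.valuation (y - x⁻¹) < 1 := fun h => by
  have a : x⁻¹ ∈ O := by simpa using sub_mem hy (v_mem h.le)
  have := mul_lt_one_of_lt_of_le hx (v_le a)
  rw [← map_mul, mul_inv_cancel₀ x0, map_one] at this
  exact this.false

end val

lemma lnorm {z : ℕ → ℤ} {l : ℕ} (hl : l.Prime) (nz : ∃ n, 0 < n ∧ z n ≠ 0) :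
    ∃ (k m₀ : ℕ) (β : ℕ → ℤ), 0 < m₀ ∧ ¬(l : ℤ) ∣ β m₀ ∧ ∀ n, 0 < n → z n = l ^ k * β n := by
  classical
  have nz' : ∃ k, ∃ n, 0 < n ∧ ¬(l : ℤ) ^ (k + 1) ∣ z n := by
    obtain ⟨n, n1, n2⟩ := nz
    refine ⟨(z n).natAbs, n, n1, fun h => ?_⟩
    have h1 := Nat.le_of_dvd (Int.natAbs_pos.2 n2) (Int.natAbs_dvd_natAbs.2 h)
    rw [Int.natAbs_pow, Int.natAbs_natCast] at h1
    have := Nat.lt_pow_self (n := (z n).natAbs + 1) hl.one_lt
    omega
  obtain ⟨m₀, m1, m2⟩ := Nat.find_spec nz'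
  have dv : ∀ n, ∃ b : ℤ, 0 < n → z n = (l : ℤ) ^ Nat.find nz' * b := fun n => by
    by_cases hn : 0 < n
    · rcases e : Nat.find nz' with _ | k
      · exact ⟨z n, fun _ => by simp⟩
      · have := Nat.find_min nz' (m := k) (by omega)
        push Not at this
        exact (this n hn).imp fun b hb _ => hb
    · exact ⟨0, fun h => absurd h hn⟩
  choose β hβ using dv
  refine ⟨_, m₀, β, m1, fun h => m2 ?_, hβ⟩
  rw [hβ m₀ m1, pow_succ]
  exact mul_dvd_mul_left _ h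

/-- the difference of the traces -/
noncomputable def dt (U V : Multiset ℂ) (T : ℤ[X]) : ℂ :=
  (U.map fun y => aeval y T).sum - (V.map fun y => aeval y T).sum

lemma map_dt (ρ : ℂ ≃+* ℂ) (U V : Multiset ℂ) (T : ℤ[X]) :
    ρ (dt U V T) = dt (U.map ρ) (V.map ρ) T := by
  simp only [dt, map_sub, map_multiset_sum, Multiset.map_map, Function.comp_def, map_aeval]

namespace Orb2
variable {d C : ℕ} {w : ℂ} {U V : Multiset ℂ} {Q : ℕ → ℤ[X]}

lemma int (o : Orb2 d w C U V) (hI : INTJ2) (hd : 0 < d) (sf : Squarefree d) :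
    ∀ y ∈ U + V, IsIntegral ℤ y := fun y hy => by
  obtain ⟨ρ, M, m0, -, rfl⟩ := o.cj y hy
  exact ((hI d M hd sf m0).1.pow 2).map (ρ : ℂ →+* ℂ).toIntAlgHom

lemma span (o : Orb2 d w C U V) (hS : SPAN2) (hQ : IsHq Q) {c : ℂ} {β : ℕ → ℤ}
    (h : ∀ n, 0 < n → dt U V (Q n) = c * β n) (T : ℤ[X]) :
    ∃ z : ℤ, dt U V T = c * z ∧ ((∀ n, 0 < n → β n = 0) → z = 0) := by
  have := hS Q hQ T
  induction this using Submodule.span_induction with
  | mem x hx =>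
    rcases hx with rfl | ⟨n, hn, rfl⟩
    · exact ⟨0, by simp [dt, o.card], fun _ => rfl⟩
    · exact ⟨β n, h n hn, fun e => e n hn⟩
  | zero => exact ⟨0, by simp [dt], fun _ => rfl⟩
  | add x y _ _ hx hy =>
    obtain ⟨a, a1, a2⟩ := hx
    obtain ⟨b, b1, b2⟩ := hy
    refine ⟨a + b, ?_, fun e => by rw [a2 e, b2 e, add_zero]⟩
    simp only [dt, map_add, Multiset.sum_map_add] at a1 b1 ⊢
    push_cast
    linear_combination a1 + b1
  | smul a x _ hx =>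
    obtain ⟨b, b1, b2⟩ := hx
    refine ⟨a * b, ?_, fun e => by rw [b2 e, mul_zero]⟩
    simp only [dt, map_zsmul] at b1 ⊢
    simp only [zsmul_eq_mul, Multiset.sum_map_mul_left]
    push_cast
    linear_combination a * b1

lemma normal (o : Orb2 d w C U V) (hA : AUT) (hS : SPAN2) (hQ : IsHq Q)
    (hi : ∀ y ∈ U + V, IsIntegral ℤ y) {a : ℤ} (hw : w ^ 2 = a) (w0 : w ≠ 0) {l : ℕ}
    (hl : l.Prime) : ∃ (c : ℂ) (β : ℕ → ℤ) (m₀ : ℕ), c ≠ 0 ∧ 0 < m₀ ∧ ¬(l : ℤ) ∣ β m₀ ∧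
      ∀ n, 0 < n → dt U V (Q n) = c * β n := by
  have wi : IsIntegral ℤ w := by
    refine IsIntegral.of_pow two_pos ?_
    rw [hw]
    exact isIntegral_algebraMap (R := ℤ) (A := ℂ) (x := a)
  have is : ∀ {G : Multiset ℂ} (T : ℤ[X]), (∀ y ∈ G, y ∈ U + V) →
      IsIntegral ℤ (G.map fun y => aeval y T).sum := fun T h =>
    IsIntegral.multiset_sum fun x hx => by
      obtain ⟨y, hy, rfl⟩ := Multiset.mem_map.1 hx
      exact isIntegral_aeval (hi y (h y hy)) T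
  have ex : ∀ n, ∃ z : ℤ, dt U V (Q n) = w⁻¹ * z := fun n => by
    have i1 : IsIntegral ℤ (w * dt U V (Q n)) := wi.mul ((is _ fun y hy =>
      Multiset.mem_add.2 (Or.inl hy)).sub (is _ fun y hy => Multiset.mem_add.2 (Or.inr hy)))
    obtain ⟨q, hq⟩ := hA.fix _ (i1.tower_top (A := ℚ)).isAlgebraic fun ρ => by
      obtain ⟨κ, k2, k1⟩ := sign_of_sq ρ hw
      rw [map_mul, map_dt]
      rcases k2 with rfl | rfl
      · rw [one_mul] at k1
        rw [(o.fix ρ k1).1, (o.fix ρ k1).2, k1]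
      · rw [neg_one_mul] at k1
        rw [(o.swap ρ k1).1, (o.swap ρ k1).2, k1, dt, dt]; ring
    rw [hq] at i1
    obtain ⟨z, hz⟩ := IsIntegrallyClosed.isIntegral_iff.1
      ((isIntegral_algebraMap_iff (algebraMap ℚ ℂ).injective).1 i1)
    refine ⟨z, ?_⟩
    rw [eq_inv_mul_iff_mul_eq₀ w0, hq, ← hz]; simp
  choose z hz using ex
  obtain ⟨k, m₀, β, m1, m2, hβ⟩ := lnorm hl (z := z) (by
    by_contra! h
    refine o.ne (newt fun n => ?_)
    obtain ⟨y, y1, y2⟩ := o.span hS hQ (fun n _ => hz n) (X ^ n)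
    simpa [dt, y2 h, sub_eq_zero] using y1)
  refine ⟨w⁻¹ * l ^ k, β, m₀, mul_ne_zero (inv_ne_zero w0) (pow_ne_zero _ (by
    exact_mod_cast hl.ne_zero)), m1, m2, fun n hn => ?_⟩
  rw [hz n, hβ n hn]; push_cast; ring

end Orb2

/-- selection of the degree -/
lemma select2 (hG : GEN2) (hO : ORD2) {Q : ℕ → ℤ[X]} (hQ : IsHq Q) {l : ℕ} (hl : l.Prime)
    (h5 : 5 ≤ l) {O : ValuationSubring ℂ} (hv : O.valuation (l : ℂ) < 1) {U V : Multiset ℂ}
    (hi : ∀ y ∈ U + V, y ∈ O) (hc : U.card = V.card) {c : ℂ} {β : ℕ → ℤ} {m₀ : ℕ} (c0 : c ≠ 0)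
    (m1 : 0 < m₀) (m2 : ¬(l : ℤ) ∣ β m₀) (h : ∀ n, 0 < n → dt U V (Q n) = c * β n) :
    ∃ C : ℕ, ∀ r : ℕ, r.Prime → r ≠ 2 → ¬l ∣ r → ¬l ∣ r + 1 → ∃ n : ℕ, 0 < n ∧ n ≤ C * r ^ 2 ∧
      ¬(l : ℤ) ∣ β (r * n) - if r ∣ n then β (n / r) else 0 := by
  obtain ⟨g, g1, g2⟩ := hG Q hQ O U V c β c0 hi hc h
  have g3 : ∀ n : ℕ, 0 < n → g.coeff (2 * n : ℕ) = β n := fun n hn => by
    rw [g2, if_pos ⟨by positivity, by simp⟩]
    simp
  have g4 : ∀ n : ℤ, Odd n → g.coeff n = 0 := fun n hn => by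
    rw [g2, if_neg fun c => Int.not_even_iff_odd.2 hn c.2]
  obtain ⟨C, hC⟩ := hO O g g1 (fun e => m2 ((res_int hl hv).1 (by
    rw [← g3 m₀ m1, e]; rfl))) (fun n hn => by rw [g2, if_neg fun c => hn.not_gt c.1]) g4
  refine ⟨C, fun r r1 r2 r3 r4 => ?_⟩
  obtain ⟨n, n0, n1, n2⟩ := hC r r1 r2
    (fun e => by
      have := Int.le_of_dvd two_pos ((res_int hl hv (z := 2)).1 (by simpa using e))
      omega)
    (fun e => r3 (Int.natCast_dvd_natCast.1 ((res_int hl hv).1 (by simpa using e))))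
    (fun e => r4 (Int.natCast_dvd_natCast.1 ((res_int hl hv).1 (by simpa using e))))
  have ro := r1.odd_of_ne_two r2
  rcases Nat.even_or_odd n with ⟨n, rfl⟩ | no
  swap
  · refine absurd ?_ n2
    rw [g4 _ (by exact_mod_cast ro.mul no)]
    split_ifs with e
    · rw [g4 _ (by exact_mod_cast odd_div no e)]
    · rfl
  have n3 : 0 < n := by omega
  refine ⟨n, n3, by omega, fun e => n2 ?_⟩
  have := (res_int hl hv).2 e
  have e2 : r ∣ n + n ↔ r ∣ n := by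
    rw [← two_mul]
    exact ((Nat.coprime_primes r1 Nat.prime_two).2 r2).dvd_mul_left
  rw [show r * (n + n) = 2 * (r * n) by ring, g3 _ (Nat.mul_pos r1.pos n3)]
  simp only [e2]
  split_ifs at this ⊢ with e'
  · rw [← two_mul, Nat.mul_div_assoc _ e', g3 _ (Nat.div_pos (Nat.le_of_dvd n3 e') r1.pos)]
    rwa [Int.cast_sub, sub_eq_zero] at this
  · rwa [sub_zero] at this

/-- the power sums over the family of matrices are integer polynomials -/
def PS2 (F : Finset M2) : Prop := ∀ n : ℕ, ∃ T : ℤ[X],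
  ∀ τ, ∑ M ∈ F, (YY (act M τ) ^ 2) ^ n = aeval (YY τ ^ 2) T

/-- the Hecke orbit -/
noncomputable def hk2 (t : ℂ → ℍ) (G : Multiset ℂ) (F : Finset M2) : Multiset ℂ :=
  G.bind fun y => F.val.map fun M => YY (act M (t y)) ^ 2

lemma hk2_add (t : ℂ → ℍ) (U V : Multiset ℂ) (F : Finset M2) :
    hk2 t (U + V) F = hk2 t U F + hk2 t V F := Multiset.add_bind _ _ _

lemma hk2_card (t : ℂ → ℍ) (U : Multiset ℂ) (F : Finset M2) :
    (hk2 t U F).card = U.card * F.card := by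
  simp [hk2, Multiset.card_bind]

section hk
variable {t : ℂ → ℍ} (ht : ∀ y, YY (t y) ^ 2 = y) {G G' : Multiset ℂ} {F : Finset M2}
include ht

lemma hk2_pow {n : ℕ} {T : ℤ[X]}
    (h : ∀ τ, ∑ M ∈ F, (YY (act M τ) ^ 2) ^ n = aeval (YY τ ^ 2) T) :
    ((hk2 t G F).map (· ^ n)).sum = (G.map fun y => aeval y T).sum := by
  rw [hk2, Multiset.map_bind, Multiset.sum_bind]
  refine congrArg _ (Multiset.map_congr rfl fun y _ => ?_)
  have := h (t y)
  rw [ht] at this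
  rw [← this, Multiset.map_map]
  rfl

lemma hk2_gal (hF : PS2 F) (ρ : ℂ ≃+* ℂ) : (hk2 t G F).map ρ = hk2 t (G.map ρ) F :=
  newt fun n => by
    obtain ⟨T, t2⟩ := hF n
    have := congrArg ρ (hk2_pow (G := G) ht t2)
    rw [hk2_pow ht t2]
    simpa only [map_multiset_sum, Multiset.map_map, Function.comp_def, map_pow, map_aeval]
      using this

lemma hk2_mem (hF : PS2 F) {y : ℂ} (hy : y ∈ hk2 t G F) : ∃ x ∈ G, ∀ (ρ : ℂ ≃+* ℂ) (τ : ℍ),
    x = ρ (YY τ ^ 2) → ∃ M ∈ F, y = ρ (YY (act M τ) ^ 2) := by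
  obtain ⟨x, hx, hy⟩ := Multiset.mem_bind.1 hy
  refine ⟨x, hx, fun ρ τ h2 => ?_⟩
  have e : (F.val.map fun M => YY (act M (t x)) ^ 2) = F.val.map fun M => ρ (YY (act M τ) ^ 2) :=
    newt fun n => by
      obtain ⟨T, t2⟩ := hF n
      have a := t2 (t x)
      rw [ht, h2, ← map_aeval, ← t2, map_sum, ← h2] at a
      simp only [Multiset.map_map, Function.comp_def, ← map_pow]
      exact a
  rw [e] at hy
  obtain ⟨M, hM, rfl⟩ := Multiset.mem_map.1 hy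
  exact ⟨M, hM, rfl⟩

end hk

lemma ps_pn2 (hT : TM2) (hR : PR2) {Q : ℕ → ℤ[X]} (hQ : IsHq Q) {r m : ℕ} (hr : r.Prime)
    (hm : 0 < m) : PS2 (Pn1 r m) ∧ ∀ τ, ∑ M ∈ Pn1 r m, (YY (act M τ) ^ 2) ^ 1
      = aeval (YY τ ^ 2) (Q m - if r ^ 2 ∣ m then Q (m / r ^ 2) else 0) := by
  have dp : r ^ 2 ∣ m → 0 < m / r ^ 2 := fun h =>
    Nat.div_pos (Nat.le_of_dvd hm h) (pow_pos hr.pos 2)
  refine ⟨fun n => ?_, fun τ => ?_⟩
  · obtain ⟨T, t2⟩ := hT.2 m hm n
    have := fun τ => hR r m (fun z => (YY z ^ 2) ^ n) τ hr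
    by_cases h : r ^ 2 ∣ m
    · obtain ⟨T', t4⟩ := hT.2 _ (dp h) n
      refine ⟨T - T', fun τ => ?_⟩
      have := this τ
      rw [if_pos h, t2, t4] at this
      rw [map_sub, this, add_sub_cancel_right]
    · refine ⟨T, fun τ => ?_⟩
      have := this τ
      rw [if_neg h, t2, add_zero] at this
      exact this.symm
  · have := hR r m (fun z => YY z ^ 2) τ hr
    rw [hQ.sum m hm] at this
    simp only [pow_one, map_sub, this]
    split_ifs with h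
    · rw [hQ.sum _ (dp h), add_sub_cancel_right]
    · simp

lemma pn1_sub (r m : ℕ) : Pn1 r m ⊆ Hk 1 m := by
  classical
  exact Finset.filter_subset _ _

lemma mem_pn1 {r m : ℕ} {M : M2} (h : M ∈ Pn1 r m) : ¬Dv r M := by
  classical
  exact (Finset.mem_filter.1 h).2

/-- the height of the whole orbit -/
lemma height2 (hH : HT2) (t : ℂ → ℍ) (G : Multiset ℂ) {B : ℝ} (hB : 1 ≤ B) : ∃ C : ℝ, 0 ≤ C ∧
    ∀ r m : ℕ, 3 ≤ m → ((hk2 t G (Pn1 r m)).map fun y => B * (1 + ‖y + 1728‖)).prod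
      ≤ Real.exp (C * m * Real.log m ^ 2) := by
  induction G using Multiset.induction_on with
  | empty => exact ⟨0, le_rfl, fun r m _ => by simp [hk2]⟩
  | cons y G ih =>
    obtain ⟨C, c0, hC⟩ := ih
    obtain ⟨C', hC'⟩ := hH (t y) B hB
    refine ⟨|C'| + C, by positivity, fun r m h2 => ?_⟩
    have pos : ∀ z : ℂ, 1 ≤ B * (1 + ‖z‖) := fun z =>
      one_le_mul_of_one_le_of_one_le hB (le_add_of_nonneg_right (norm_nonneg z))
    rw [hk2, Multiset.cons_bind, Multiset.map_add, Multiset.prod_add, add_mul, add_mul,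
      Real.exp_add]
    refine mul_le_mul ?_ (hC r m h2) (Multiset.prod_nonneg fun a ha => ?_) (Real.exp_pos _).le
    · rw [Multiset.map_map]
      refine le_trans ?_ ((hC' m h2).trans (Real.exp_le_exp.2 (by
        gcongr; exact le_abs_self _)))
      exact Finset.prod_le_prod_of_subset_of_one_le (pn1_sub r m)
        (fun i _ => zero_le_one.trans (pos _)) fun i _ _ => pos _
    · obtain ⟨z, -, rfl⟩ := Multiset.mem_map.1 ha
      exact zero_le_one.trans (pos _)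

end Pool.Agent.MP_c481b3_nt.H31F
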