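import Pool.Agent.MP_c481b3_nt.H31F.GlueH

set_option autoImplicit false

namespace Pool.Agent.MP_c481b3_nt.H31F

open UpperHalfPlane hiding I
open Polynomial NumberField Filter Pool.Agent.MP_c481b3_nt.H81 Pool.Agent.MP_c481b3_nt.H28

variable {K : Type} [Field K] [NumberField K]

open Classical in
/-- the conjugates of `1 / (j - 1728)` with a given sign -/
noncomputable def Zp (u w : K) (r : ℂ) : Multiset ℂ :=
  ((Finset.univ : Finset (K →+* ℂ)).val.filter fun σ => σ w = r * σ u).map fun σ => σ u / 864 ^ 2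

lemma mem_Zp {u w : K} {r x : ℂ} (h : x ∈ Zp u w r) : ∃ σ : K →+* ℂ, x = σ u / 864 ^ 2 := by
  obtain ⟨σ, -, rfl⟩ := Multiset.mem_map.1 h
  exact ⟨σ, rfl⟩

lemma Zp_gal (u w : K) (r : ℂ) (ρ : ℂ ≃+* ℂ) : (Zp u w r).map ρ = Zp u w (ρ r) := by
  classical
  rw [Zp, Zp, Multiset.map_map]
  conv_rhs => rw [← univ_gal ρ, Multiset.filter_map, Multiset.map_map]
  refine Multiset.map_congr (Multiset.filter_congr fun σ _ => ?_) fun σ _ => by simp [map_ofNat]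
  simp only [Function.comp_apply, RingHom.comp_apply, RingHom.coe_coe, ← map_mul,
    EmbeddingLike.apply_eq_iff_eq]

lemma Zp_pow {u w : K} {s : ℂ} {D : ℤ} (hs : s ^ 2 = D) (s0 : s ≠ 0) (u0 : u ≠ 0)
    (hw : w ^ 2 = D * u ^ 2) (k : ℕ) :
    ((Zp u w s).map (· ^ (k + 1))).sum - ((Zp u w (-s)).map (· ^ (k + 1))).sum
      = s⁻¹ / 864 ^ (2 * (k + 1)) * (Algebra.trace ℚ K (w * u ^ k) : ℚ) := by
  classical
  rw [← tr_sum, Finset.mul_sum, Zp, Zp, Multiset.map_map, Multiset.map_map]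
  change ∑ σ ∈ Finset.univ.filter _, _ - ∑ σ ∈ Finset.univ.filter _, _ = _
  rw [Finset.sum_filter, Finset.sum_filter, ← Finset.sum_sub_distrib]
  refine Finset.sum_congr rfl fun σ _ => ?_
  have h1 : σ u ≠ 0 := (_root_.map_ne_zero σ).2 u0
  have h2 : σ w ^ 2 = (s * σ u) ^ 2 := by
    rw [← map_pow, hw, mul_pow, hs]; simp
  have h3 : s * σ u ≠ -s * σ u := fun e => mul_ne_zero s0 h1 (by linear_combination e / 2)
  simp only [Function.comp_apply, map_mul, map_pow, div_pow, ← pow_mul]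
  rcases sq_eq_sq_iff_eq_or_eq_neg.1 h2 with e | e
  · rw [if_pos e, if_neg (e ▸ h3), e]
    field_simp
    ring
  · rw [← neg_mul] at e
    rw [if_pos e, if_neg (e ▸ h3.symm), e]
    field_simp
    ring

/-- the even case -/
theorem main2 (hM : MAT) (hT : TM2) (hA : AUT) (hV : VLS) (hS2 : SPAN2) (hW : VAL2) (hG : GEN2)
    (hO : ORD2) (hR : PR2) (hJ : SURJ) (hP : PI) (hN : NOR2) (hI : INTJ2) (hL : LOC2) (hU : U3)
    (hK : LINK2) (hS : SRV) (hH : HT2) (hC : CNT) (hB : ORB2) (hE : PLE) {A B : 𝓞 K}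
    (hΔ : (Wc A B).Δ ≠ 0) {u w : K} (hu : u = (Wc A B).Δ / B ^ 2) {D : ℤ} (D0 : D < 0)
    (hw : w ^ 2 = D * u ^ 2) {d : ℕ} (sf : Squarefree d) {l : ℕ} (hl : l.Prime) (h5 : 5 ≤ l)
    (hv : ∀ (O : ValuationSubring ℂ) (σ : K →+* ℂ), O.valuation (l : ℂ) < 1 →
      O.valuation (σ u) < 1)
    (hq : ∀ k : ℕ, 1 ≤ k → padicNorm l (Algebra.trace ℚ K (w * u ^ k) / (2 * k + (2 : ℕ)))
      < padicNorm l (Algebra.trace ℚ K w)) : Concl A B d := by
  have hd : 0 < d := Nat.pos_of_ne_zero sf.ne_zero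
  have D2 : (D : ℂ) ≠ 0 := by exact_mod_cast D0.ne
  have t0 := trace_ne hq
  have u0 : u ≠ 0 := by
    rintro rfl
    have : w = 0 := by simpa using hw
    exact t0 (by simp [this])
  have B0 : B ≠ 0 := by
    rintro rfl
    exact u0 (by simpa using hu)
  obtain ⟨s, hs⟩ := IsAlgClosed.exists_pow_nat_eq (D : ℂ) two_pos
  have s0 : s ≠ 0 := fun e => D2 (by rw [← hs, e]; simp)
  have s2 : sq d ^ 2 = (-d : ℤ) := by rw [sq_sq]; simp
  have hw' : (sq d * s) ^ 2 = (-d * D : ℤ) := by rw [mul_pow, s2, hs]; simp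
  have w0 : sq d * s ≠ 0 := fun c => by
    rw [c, zero_pow two_ne_zero] at hw'
    have : -(d : ℤ) * D = 0 := by exact_mod_cast hw'.symm
    exact mul_ne_zero (by omega) D0.ne this
  obtain ⟨g₀, U, V, o⟩ := hB d D s hd sf D0 hs
  obtain ⟨Q, hQ⟩ := hT.1
  have oi := o.int hI hd sf
  obtain ⟨c, β, m₀, c0, m1, m2, hβ⟩ := o.normal hA hS2 hQ oi hw' w0 hl
  obtain ⟨Ol, vl⟩ := hV.val l hl
  obtain ⟨C, sel⟩ := select2 hG hO hQ hl h5 vl (fun y hy => (hV.int y).1 (oi y hy) Ol) o.card c0 m1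
    m2 hβ
  obtain ⟨v1, v2⟩ := v864 hl h5 vl
  have xj : ∀ σ : K →+* ℂ, (σ u / 864 ^ 2)⁻¹ = jj (σ A) (σ B) - 1728 := fun σ =>
    inv_eq_of_mul_eq_one_right (hu ▸ u_jj hΔ B0 σ)
  have x0 : ∀ σ : K →+* ℂ, σ u / 864 ^ 2 ≠ 0 := fun σ => by simp [u0]
  have xl : ∀ σ : K →+* ℂ, Ol.valuation (σ u / 864 ^ 2) < 1 := fun σ => by
    rw [map_div₀, map_pow, v1, one_pow, div_one]
    exact hv Ol σ vl
  have zm : ∀ x ∈ Zp u w s + Zp u w (-s), ∃ σ : K →+* ℂ, x = σ u / 864 ^ 2 := fun x hx =>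
    (Multiset.mem_add.1 hx).elim mem_Zp mem_Zp
  have zl : ∀ x ∈ Zp u w s + Zp u w (-s), Ol.valuation x < 1 := fun x hx => by
    obtain ⟨σ, rfl⟩ := zm x hx
    exact xl σ
  have zp := Zp_pow hs s0 u0 hw
  have z1 := zp 0
  simp only [zero_add, pow_one, Multiset.map_id', pow_zero, mul_one] at z1
  obtain ⟨t, ht⟩ : ∃ t : ℂ → ℍ, ∀ y, YY (t y) ^ 2 = y := by
    choose t ht using hJ
    choose q hq using fun y : ℂ => IsAlgClosed.exists_pow_nat_eq y two_pos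
    exact ⟨fun y => t (q y), fun y => by rw [ht, hq]⟩
  obtain ⟨Bd, b1, b2⟩ := exists_bd ((Wc A B).Δ : K) ((-110592 * A ^ 3 : 𝓞 K) : K)
  obtain ⟨Ch, ch, hh⟩ := height2 hH t (U + V) b1
  refine finish hM hV hP hN hI hL hU hK hS hC hΔ sf hl h5 (l + g₀ + C)
    (C := C * g₀ + 16 * C * Module.finrank ℚ K * Ch) (by positivity) fun r ⟨r1, r2, r3, r4⟩ => ?_
  have r5 : r ≠ 2 := by omega
  obtain ⟨n, n1, n2, n3⟩ := sel r r1 r5
    (fun c => by have := (Nat.prime_dvd_prime_iff_eq hl r1).1 c; omega) r4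
  have mo := Nat.mul_pos r1.pos n1
  obtain ⟨ps, ps1⟩ := ps_pn2 hT hR hQ r1 mo
  have dm : ∀ M ∈ Pn1 r (r * n), M.det = (r * n : ℕ) := fun M h => det_hk hM (pn1_sub _ _ h)
  have dp : ∀ M ∈ Pn1 r (r * n), 0 < M.det := fun M h => by
    rw [dm M h]; exact_mod_cast mo
  set F := Pn1 r (r * n) with hF
  have ym : ∀ y ∈ hk2 t U F + hk2 t V F, ∃ (ρ : ℂ ≃+* ℂ) (M₀ : M2), ∃ M ∈ F, 0 < M₀.det ∧
      M₀.det ≤ g₀ ∧ y = ρ (YY (act (M * M₀) (om d)) ^ 2) := fun y hy => by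
    rw [← hk2_add] at hy
    obtain ⟨x, hx, h⟩ := hk2_mem ht ps hy
    obtain ⟨ρ, M₀, a1, a2, a3⟩ := o.cj x hx
    obtain ⟨M, a4, a5⟩ := h ρ _ a3
    exact ⟨ρ, M₀, M, a4, a1, a2, by rwa [act_mul (dp M a4) a1]⟩
  have yi : ∀ y ∈ hk2 t U F + hk2 t V F, IsIntegral ℤ y := fun y hy => by
    obtain ⟨ρ, M₀, M, a1, a2, -, rfl⟩ := ym y hy
    exact ((hI d _ hd sf (det_mul_pos (dp M a1) a2)).1.pow 2).map (ρ : ℂ →+* ℂ).toIntAlgHom
  have yO : ∀ O : ValuationSubring ℂ, ∀ y ∈ hk2 t U F + hk2 t V F, y ∈ O :=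
    fun O y hy => (hV.int y).1 (yi y hy) O
  have cd : (hk2 t U F).card = (hk2 t V F).card := by rw [hk2_card, hk2_card, o.card]
  have sm : (hk2 t U F).sum - (hk2 t V F).sum
      = c * (β (r * n) - if r ∣ n then β (n / r) else 0 : ℤ) := by
    have a1 := hk2_pow (G := U) ht ps1
    have a2 := hk2_pow (G := V) ht ps1
    simp only [pow_one, Multiset.map_id'] at a1 a2
    have a3 := hβ _ mo
    rw [a1, a2]
    simp only [pow_two, Nat.mul_dvd_mul_iff_left r1.pos, Nat.mul_div_mul_left _ _ r1.pos, map_sub,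
      Multiset.sum_map_sub]
    split_ifs with e
    · have a4 := hβ _ (Nat.div_pos (Nat.le_of_dvd n1 e) r1.pos)
      rw [dt] at a3 a4
      push_cast
      linear_combination a3 - a4
    · rw [dt] at a3
      simpa using a3
  have vc : 0 < Ol.valuation c := zero_lt_iff.2 ((Valuation.ne_zero_iff _).2 c0)
  have g1 := g2_ne hW hl h5 vl (yO Ol) zl fun k k2 => by
    obtain ⟨k, rfl⟩ : ∃ j, k = j + 1 := ⟨k - 1, by omega⟩
    obtain ⟨T, t2⟩ := ps (k + 1)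
    obtain ⟨a, a1, -⟩ := o.span hS2 hQ hβ T
    have := pn_lt hl vl (k := 2 * k + 2) (by omega) (by exact_mod_cast hq k (by omega))
    rw [show 2 * k + 2 = 2 * (k + 1) by ring, Nat.cast_mul, Valuation.map_mul, Nat.cast_ofNat, v2,
      one_mul] at this
    rw [hk2_pow ht t2, hk2_pow ht t2, ← dt, a1, sm, zp, z1]
    simp only [Valuation.map_mul, map_div₀, Valuation.map_pow, v1, one_pow, div_one]
    rw [int_eq hl vl n3, mul_one]
    have := (mul_le_mul_left (mul_le_of_le_one_right' (v_le (intCast_mem Ol a))) _).trans_lt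
      (mul_lt_mul_of_pos_left (mul_lt_mul_of_pos_left this
        (zero_lt_iff.2 ((Valuation.ne_zero_iff Ol.valuation).2 (inv_ne_zero s0)))) vc)
    convert this using 1 <;> ac_rfl
  have gal : ∀ ρ : ℂ ≃+* ℂ, (ρ (sq d * s) = sq d * s → (hk2 t U F).map ρ = hk2 t U F ∧
      (hk2 t V F).map ρ = hk2 t V F) ∧ (ρ (sq d * s) = -(sq d * s) →
      (hk2 t U F).map ρ = hk2 t V F ∧ (hk2 t V F).map ρ = hk2 t U F) := fun ρ => by
    rw [hk2_gal ht ps, hk2_gal ht ps]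
    exact ⟨fun e => by rw [(o.fix ρ e).1, (o.fix ρ e).2]; exact ⟨rfl, rfl⟩,
      fun e => by rw [(o.swap ρ e).1, (o.swap ρ e).2]; exact ⟨rfl, rfl⟩⟩
  obtain ⟨a, b, ab, g2⟩ := norm1 hA hd (z := G2 (hk2 t U F) (hk2 t V F) (Zp u w s) (Zp u w (-s)))
    (G2_mem (fun y hy => mem_algebraicClosure_iff'.2 (yi y hy).tower_top) fun x hx => by
      obtain ⟨σ, rfl⟩ := zm x hx
      refine div_mem (mem_algebraicClosure_iff'.2 ?_) (by exact_mod_cast natCast_mem (algebraicClosure ℚ ℂ) (864 ^ 2))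
      exact (Algebra.IsIntegral.isIntegral (R := ℚ) u).map σ.toRatAlgHom)
    (fun e => by
      obtain ⟨x, hx, y, hy, h⟩ := g2_cong (yO Ol) cd (Z := Zp u w s) (W := Zp u w (-s))
        (by rw [e, map_zero]; exact zero_ne_one)
      obtain ⟨σ, rfl⟩ := zm x hx
      exact inv_far (yO Ol y hy) (xl σ) (x0 σ) h)
    fun ρ => by
      obtain ⟨κ, k1, k2⟩ := sign_of_sq ρ s2
      obtain ⟨κ', k3, k4⟩ := sign_of_sq ρ hs
      obtain ⟨a1, a2⟩ := gal ρ
      rw [map_G2, Zp_gal, Zp_gal, map_neg]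
      rw [map_mul] at a1 a2
      rcases k1 with rfl | rfl <;> rcases k3 with rfl | rfl <;>
        simp only [one_mul, neg_mul, k2, k4, mul_neg, neg_neg, forall_const] at a1 a2 ⊢
      · exact Or.inl ⟨by rw [a1.1, a1.2], trivial⟩
      · exact Or.inl ⟨by rw [a2.1, a2.2, (G2_swap _ _ _ _).2.2], trivial⟩
      · exact Or.inr ⟨by rw [a2.1, a2.2, (G2_swap _ _ _ _).1], trivial⟩
      · exact Or.inr ⟨by rw [a1.1, a1.2, (G2_swap _ _ _ _).2.1], trivial⟩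
  obtain ⟨O, hO⟩ : ∃ O : ValuationSubring ℂ, O.valuation ((a : ℂ) + b * sq d) ≠ 1 := by
    by_contra! h
    exact g1 (g2 ▸ hV.unit d a b ab h)
  obtain ⟨x, hx, y, hy, h3⟩ := g2_cong (yO O) cd (g2 ▸ hO)
  obtain ⟨σ, rfl⟩ := zm x hx
  rw [xj, show y - (jj (σ A) (σ B) - 1728) = y + 1728 - jj (σ A) (σ B) by ring] at h3
  obtain ⟨ρ, M₀, M, hM', m0, m3, h4⟩ := ym y hy
  obtain ⟨m5, m6⟩ := bnd (f := Module.finrank ℚ K) ch n1 n2 (by omega : C < r)
  refine ⟨O, ρ, a, b, M * M₀, σ, ab, hO, det_mul_pos (dp M hM') m0, ?_,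
    fun c => mem_pn1 hM' (c.cancel r1 fun c' => by have := Int.le_of_dvd m0 c'; omega), ?_, ?_,
    fun p p1 p2 => ?_⟩
  · rw [Matrix.det_mul, dm M hM']; push_cast; exact (dvd_mul_right _ _).mul_right _
  · rw [H31F.JJ, map_add, map_ofNat, ← h4]
    exact h3
  · have : (M₀.det : ℝ) ≤ g₀ := by exact_mod_cast m3
    have : (0 : ℝ) < M₀.det := by exact_mod_cast m0
    rw [Matrix.det_mul, dm M hM', Int.cast_mul, Int.cast_natCast]
    calc _ ≤ (C * r ^ 3 * g₀ : ℝ) := by gcongr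
      _ = C * g₀ * r ^ 3 := by ring
      _ ≤ _ := by gcongr; exact le_add_of_nonneg_right (by positivity)
  have pl := hE K (-110592 * A ^ 3) (Wc A B).Δ _ yi (fun ρ => by
      obtain ⟨κ, k1, k2⟩ := sign_of_sq ρ hw'
      rw [Multiset.map_add]
      rcases k1 with rfl | rfl
      · rw [((gal ρ).1 (by simpa using k2)).1, ((gal ρ).1 (by simpa using k2)).2]
      · rw [((gal ρ).2 (by simpa using k2)).1, ((gal ρ).2 (by simpa using k2)).2, add_comm])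
    (fun y hy σ => by
      rw [fac_jj hΔ]
      refine mul_ne_zero ((_root_.map_ne_zero σ).2 (by exact_mod_cast hΔ)) fun c => ?_
      refine inv_far (yO Ol y hy) (xl σ) (x0 σ) ?_
      rw [xj, show y - (jj (σ A) (σ B) - 1728) = 0 by linear_combination c, map_zero]
      exact zero_lt_one) O p p1 p2 y hy σ (by
      rw [fac_jj hΔ, map_mul, mul_comm]
      exact mul_lt_one_of_lt_of_le h3 (v_le ((hV.int _).1 (int_emb σ _) O))) Bd b2
  have m4 : 3 ≤ r * n := le_trans (by omega) (Nat.le_mul_of_pos_right r n1)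
  rw [← hk2_add] at pl
  refine ((pl.trans (pow_le_pow_left₀ (Multiset.prod_nonneg fun a ha => by
    obtain ⟨z, -, rfl⟩ := Multiset.mem_map.1 ha
    positivity) (hh r _ m4) _)).trans m6).trans ?_
  gcongr
  exact le_add_of_nonneg_left (by positivity)

end Pool.Agent.MP_c481b3_nt.H31F
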