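import Pool.Agent.MP_c481b3_nt.H31F.Spec

set_option autoImplicit false

namespace Pool.Agent.MP_c481b3_nt.H31F

open UpperHalfPlane hiding I
open Complex Polynomial IsLocalRing
open scoped Manifold MatrixGroups Real

namespace HasAux

variable {O : ValuationSubring ℂ}

lemma val_int (z : ℤ) : O.valuation (z : ℂ) ≤ 1 := (O.valuation_le_one_iff _).2 (intCast_mem O z)

lemma val_nat (z : ℕ) : O.valuation (z : ℂ) ≤ 1 := (O.valuation_le_one_iff _).2 (natCast_mem O z)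

lemma inv_mem {p l : ℕ} (h : p.Coprime l) (hl : O.valuation (l : ℂ) < 1) : (p : ℂ)⁻¹ ∈ O := by
  have h1 : O.valuation (p : ℂ) = 1 := by
    refine le_antisymm (val_nat p) (not_lt.1 fun hp => ?_)
    obtain ⟨a, b, e⟩ := Nat.isCoprime_iff_coprime.2 h
    have e' : (a : ℂ) * p + b * l = 1 := by exact_mod_cast e
    have : O.valuation ((a : ℂ) * p + b * l) < 1 := by
      refine Valuation.map_add_lt _ ?_ ?_ <;> rw [map_mul]
      · exact mul_lt_one_of_nonneg_of_lt_one_right (val_int a) zero_le hp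
      · exact mul_lt_one_of_nonneg_of_lt_one_right (val_int b) zero_le hl
    rw [e', map_one] at this
    exact lt_irrefl _ this
  rw [← O.valuation_le_one_iff, map_inv₀, h1, inv_one]

lemma val_bern {l m : ℕ} (hp : l.Prime) (hm : l = 2 * m + 1) (hl : O.valuation (l : ℂ) < 1) :
    O.valuation ((bernoulli (2 * m) : ℚ) : ℂ)⁻¹ < 1 := by
  obtain ⟨z, hz⟩ := Bernoulli.vonStaudt_clausen m
  have hmem : l ∈ (Finset.range (2 * m + 2)).filter fun p => p.Prime ∧ (p - 1) ∣ 2 * m :=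
    Finset.mem_filter.2 ⟨Finset.mem_range.2 (by omega), hp, by rw [hm]; simp⟩
  rw [← Finset.add_sum_erase _ _ hmem] at hz
  set s := ((Finset.range (2 * m + 2)).filter fun p => p.Prime ∧ (p - 1) ∣ 2 * m).erase l with hs
  have hw : (z : ℂ) - ∑ p ∈ s, (p : ℂ)⁻¹ ∈ O := by
    refine sub_mem (intCast_mem O z) (sum_mem fun p hp' => inv_mem ?_ hl)
    have := Finset.mem_erase.1 hp'
    exact (Nat.coprime_primes (Finset.mem_filter.1 this.2).2.1 hp).2 this.1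
  have hz' : (z : ℂ) = ((bernoulli (2 * m) : ℚ) : ℂ) + ((l : ℂ)⁻¹ + ∑ p ∈ s, (p : ℂ)⁻¹) := by
    have := congrArg (Rat.cast : ℚ → ℂ) hz
    simpa using this
  have l0 : (l : ℂ) ≠ 0 := by exact_mod_cast hp.ne_zero
  generalize (∑ p ∈ s, (p : ℂ)⁻¹) = S at hw hz'
  have e : ((bernoulli (2 * m) : ℚ) : ℂ) = -(1 - l * (z - S)) * (l : ℂ)⁻¹ := by
    rw [hz']; field_simp; ring
  have h1 : O.valuation (1 - l * (z - S)) = 1 := by
    refine Valuation.map_one_sub_of_lt _ ?_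
    rw [map_mul]
    exact mul_lt_one_of_nonneg_of_lt_one_left zero_le hl ((O.valuation_le_one_iff _).2 hw)
  rwa [e, mul_inv, inv_inv, map_mul, map_inv₀, Valuation.map_neg, h1, inv_one, one_mul]

lemma red_one : Red O 1 1 := ⟨1, map_one _, map_one _⟩

lemma red_pow {F : LS ℂ} {G : LS (ResidueField O)} (h : Red O F G) (n : ℕ) :
    Red O (F ^ n) (G ^ n) := by
  obtain ⟨H, rfl, rfl⟩ := h
  exact ⟨H ^ n, map_pow _ _ _, map_pow _ _ _⟩

lemma red_aeval {P : ℂ[X]} (h : ∀ n, P.coeff n ∈ O.toSubring) :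
    ∃ Q : (ResidueField O)[X], Red O (aeval (Yc ℂ) P) (aeval (Yc (ResidueField O)) Q) := by
  obtain ⟨Q, rfl⟩ : P ∈ lifts O.subtype :=
    (lifts_iff_coeff_lifts P).2 fun n => ⟨⟨_, h n⟩, rfl⟩
  exact ⟨Q.map (residue O), aeval (Yc O) Q, by rw [mapL_aeval, mapL_Yc]; rfl,
    by rw [mapL_aeval, mapL_Yc]⟩

lemma red_E {l m : ℕ} (hp : l.Prime) (hm : l = 2 * m + 1) (hl : O.valuation (l : ℂ) < 1)
    (hk : 3 ≤ 2 * m) : Red O
      (ex 2 (HahnSeries.ofPowerSeries ℤ ℂ (qExpansion 1 (ModularForm.E hk)))) 1 := by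
  have small : ∀ c : ℂ, O.valuation c < 1 → ∃ h : c ∈ O, residue O ⟨c, h⟩ = 0 := fun c hc =>
    ⟨(O.valuation_le_one_iff _).1 hc.le,
      (residue_eq_zero_iff _).2 ((O.valuation_lt_one_iff _).2 hc)⟩
  refine red_iff.2 fun n => ?_
  rw [coeff_ex two_pos, HahnSeries.coeff_one, PowerSeries.coeff_coe,
    EisensteinSeries.E_qExpansion_coeff hk (even_two_mul m)]
  by_cases h0 : n = 0
  · subst h0
    simp only [dvd_zero, if_true, Int.zero_ediv, lt_irrefl, if_false, Int.natAbs_zero]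
    exact ⟨one_mem O, map_one _⟩
  · rw [if_neg h0]
    refine small _ ?_
    split_ifs with h1 h2 h3
    · simp
    · exfalso
      simp only [Nat.cast_ofNat] at h1 h3
      omega
    · have e : ∀ a b : ℕ, -(2 * (a : ℂ) / ((bernoulli (2 * m) : ℚ) : ℂ)) * (b : ℂ)
          = ((-(2 * a * b) : ℤ) : ℂ) * ((bernoulli (2 * m) : ℚ) : ℂ)⁻¹ := fun a b => by
        push_cast; ring
      rw [e, map_mul]
      exact mul_lt_one_of_nonneg_of_lt_one_right (val_int _) zero_le (val_bern hp hm hl)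
    · simp

lemma eps_ne (γ : M2) : ((eps γ : ℤ) : ℂ) ≠ 0 := by
  unfold eps
  split_ifs <;> simp

lemma slash {k : ℤ} (f : ModularForm 𝒮ℒ k) (γ : M2) (τ : ℍ) (h : γ.det = 1) :
    f (act γ τ) = den γ τ ^ k * f τ := by
  have h1 := act_SL ⟨γ, h⟩ τ
  have h2 := den_SL ⟨γ, h⟩ τ
  simp only at h1 h2
  rw [h1, h2]
  exact SlashInvariantForm.slash_action_eqn'' f
    (γ := Matrix.SpecialLinearGroup.mapGL ℝ (⟨γ, h⟩ : SL(2, ℤ))) (MonoidHom.mem_range.2 ⟨_, rfl⟩) τ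

lemma asy_pow (b : B1) {f : ℍ → ℂ} {F : LS ℂ} (h : Asy 1 f F) (n : ℕ) :
    Asy 1 (fun τ => f τ ^ n) (F ^ n) := by
  simpa using (b.ring 1 one_pos).2.2.2.2.2.2.1 f F (X ^ n) h

end HasAux

open HasAux in
theorem has_of (b : B1) (h : LV) : HAS := by
  intro O l hp h5 hl
  obtain ⟨m, hm⟩ := hp.odd_of_ne_two (by omega)
  have hk : 3 ≤ 2 * m := by omega
  rw [show (l - 1) / 2 = m by omega]
  obtain ⟨E, hE⟩ := b.y2.Du
  have hD : ∀ (R : Type) [CommRing R], Dc R * mapL (Int.castRingHom R) E = 1 := fun R _ => by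
    rw [Dc, ← map_mul, hE, map_one]
  have mul := (b.ring 1 one_pos).2.2.1
  have ai : Asy 1 (fun τ => (dl τ)⁻¹) (mapL (Int.castRingHom ℂ) E) := by
    rw [← inv_eq_of_mul_eq_one_right (hD ℂ)]
    exact (b.ring 1 one_pos).2.2.2.1 _ _ b.y2.ad (left_ne_zero_of_mul_eq_one (hD ℂ))
  have hi : Hol fun τ => (dl τ)⁻¹ := fun τ => (b.y1.hd τ).inv (b.y1.ne τ)
  have ru : Red O (th (Yc ℂ)) (th (Yc (ResidueField O))) := (Red.int Ys).th
  have r1 := ((red_E hp hm hl hk).mul (red_pow ru (2 * m))).mul (red_pow (Red.int E) m)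
  have r2 := (red_pow ru 3).mul (Red.int E)
  obtain ⟨P, hP, -, -, eP⟩ := (h 1 O.toSubring _ _ one_pos
    (((ModularForm.E hk).holo'.mul (b.y1.hD.pow (n := 2 * m))).mul (hi.pow (n := m)))
    (mul _ _ _ _ (mul _ _ _ _ (b.q _ (ModularForm.E hk)) (asy_pow b b.y2.aD (2 * m)))
      (asy_pow b ai m)) r1.mem).1 m (by
    intro γ τ hγ
    have e1 := slash (ModularForm.E hk) γ τ hγ
    rw [zpow_natCast] at e1
    have := den_ne (M := γ) (by omega) τ
    have := eps_ne γ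
    have := b.y1.ne τ
    show ModularForm.E hk (act γ τ) * dv YY (act γ τ) ^ (2 * m) * (dl (act γ τ))⁻¹ ^ m
      = eps γ ^ m * (ModularForm.E hk τ * dv YY τ ^ (2 * m) * (dl τ)⁻¹ ^ m)
    rw [e1, b.y1.tD γ τ hγ, b.y1.td γ τ hγ]
    simp only [inv_pow]
    field_simp
    ring)
  obtain ⟨P', hP', -, -, eP'⟩ := (h 1 O.toSubring _ _ one_pos
    ((b.y1.hD.pow (n := 3)).mul hi) (mul _ _ _ _ (asy_pow b b.y2.aD 3) ai) r2.mem).1 2 (by
    intro γ τ hγ
    have := den_ne (M := γ) (by omega) τ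
    have := eps_ne γ
    have := b.y1.ne τ
    show dv YY (act γ τ) ^ 3 * (dl (act γ τ))⁻¹ = eps γ ^ 2 * (dv YY τ ^ 3 * (dl τ)⁻¹)
    rw [b.y1.tD γ τ hγ, b.y1.td γ τ hγ]
    field_simp)
  rw [ex_one] at eP eP'
  obtain ⟨Q, hQ⟩ := red_aeval hP
  obtain ⟨Q', hQ'⟩ := red_aeval hP'
  have e1 := (eP ▸ hQ : Red O _ _).unique r1
  have e2 := (eP' ▸ hQ' : Red O _ _).unique r2
  refine ⟨Q' ^ m, Q, fun e => ?_, by rw [map_pow, e1, e2]; ring⟩
  rw [e, map_zero, one_mul] at e1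
  exact mul_ne_zero (pow_ne_zero _ (b.pol.unit _).1.ne_zero)
    (pow_ne_zero _ (right_ne_zero_of_mul_eq_one (hD _))) e1.symm

end Pool.Agent.MP_c481b3_nt.H31F
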