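import Pool.Agent.MP_c481b3_nt.H31F.Spec2

set_option autoImplicit false

namespace Pool.Agent.MP_c481b3_nt.H31F

open UpperHalfPlane hiding I
open Complex Finset
open scoped MatrixGroups

namespace HtAux

theorem bound (b : B1) :
    ∃ C : ℝ, 0 < C ∧ ∀ z : ℍ, (1 + ‖JJ z‖) * ‖dl z‖ ^ 4 * z.im ^ 12 ≤ C := by
  obtain ⟨C₁, h₁⟩ := CuspFormClass.petersson_bounded_left 12 𝒮ℒ CuspForm.discriminant
    CuspForm.discriminant
  obtain ⟨C₂, h₂⟩ := CuspFormClass.petersson_bounded_left 12 𝒮ℒ CuspForm.discriminant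
    (ModularForm.mcast (b := 12) (by decide) (ModularForm.E₄.pow 3))
  refine ⟨|C₁| + |C₂| + 1, by positivity, fun z => ?_⟩
  have e₁ := h₁ z
  have e₂ := h₂ z
  have hz : ‖((z.im : ℂ)) ^ (12 : ℤ)‖ = z.im ^ 12 := by
    rw [norm_zpow, norm_real, Real.norm_of_nonneg z.im_pos.le]
    rfl
  simp only [petersson, norm_mul, hz, RCLike.norm_conj, CuspForm.coe_discriminant,
    ModularForm.coe_mcast, ModularForm.coe_pow, Pi.pow_apply, ← b.y1.disc, norm_pow] at e₁ e₂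
  have h0 : ‖dl z‖ ≠ 0 := norm_ne_zero_iff.2 (b.y1.ne z)
  have e₃ : (1 + ‖JJ z‖) * ‖dl z‖ ^ 4 * z.im ^ 12 = ‖dl z‖ ^ 2 * ‖dl z‖ ^ 2 * z.im ^ 12 +
      ‖dl z‖ ^ 2 * ‖ModularForm.E₄ z‖ ^ 3 * z.im ^ 12 := by
    rw [b.y1.eJ, norm_div, norm_pow, norm_pow]
    field_simp
  rw [e₃]
  linarith [le_abs_self C₁, le_abs_self C₂]

theorem im_ge (b : B1) {m : ℕ} {H : M2} (hH : H ∈ Hk 2 m) (τ : ℍ) :
    τ.im / m ≤ (act H τ).im := by
  obtain ⟨a, d, c, ha, hd, rfl, -, rfl⟩ := (b.mat.mem 2 m H).1 hH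
  have h : 0 < (!![(a : ℤ), ((2 * c : ℕ) : ℤ); 0, (d : ℤ)] : M2).det := by
    rw [Matrix.det_fin_two_of, mul_zero, sub_zero]
    positivity
  have e : (act !![(a : ℤ), ((2 * c : ℕ) : ℤ); 0, (d : ℤ)] τ).im = a * τ.im / d := by
    rw [← coe_im, coe_act h]
    simp [den]
  have ha' : (1 : ℝ) ≤ a := by exact_mod_cast ha
  have hd' : (0 : ℝ) < d := by exact_mod_cast hd
  have hy := τ.im_pos
  rw [e, Nat.cast_mul, div_le_div_iff₀ (by positivity) hd']
  have h2 : (1 : ℝ) ≤ a * a := by nlinarith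
  nlinarith [mul_le_mul_of_nonneg_left h2 (mul_pos hy hd').le]

theorem log_ge {m : ℕ} (hm : 3 ≤ m) : 1 ≤ Real.log m := by
  have h : (3 : ℝ) ≤ m := by exact_mod_cast hm
  rw [Real.le_log_iff_exp_le (by linarith)]
  linarith [Real.exp_one_lt_three]

theorem card_le (b : B1) {m : ℕ} (hm : 3 ≤ m) : ((Hk 2 m).card : ℝ) ≤ 2 * m * Real.log m := by
  have h1 := b.mat.sum 2 m two_pos ℝ fun _ => 1
  simp only [sum_const, card_range, nsmul_eq_mul, mul_one] at h1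
  have h2 : ∑ d ∈ m.divisors, (d : ℝ) ≤ ∑ d ∈ Icc 1 m, (m : ℝ) * (d : ℝ)⁻¹ := by
    rw [← Nat.sum_div_divisors m fun d => (d : ℝ)]
    refine (sum_le_sum fun d _ => Nat.cast_div_le).trans ?_
    refine sum_le_sum_of_subset_of_nonneg (fun d hd => ?_) fun d _ _ => by positivity
    exact mem_Icc.2 ⟨Nat.pos_of_mem_divisors hd, Nat.divisor_le hd⟩
  have h3 := harmonic_le_one_add_log m
  rw [harmonic_eq_sum_Icc] at h3
  push_cast at h3
  rw [← mul_sum] at h2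
  have h4 := log_ge hm
  have h5 : (0 : ℝ) ≤ m := Nat.cast_nonneg m
  nlinarith [mul_le_mul_of_nonneg_left h3 h5, mul_le_mul_of_nonneg_left h4 h5]

end HtAux

open HtAux in
theorem ht_of (b : B1) (h : DPR) : HT := by
  intro τ B hB
  obtain ⟨C, hC, hb⟩ := bound b
  have h0 : 0 < ‖dl τ‖ := norm_pos_iff.2 (b.y1.ne τ)
  have hy := τ.im_pos
  set K : ℝ := B * C / τ.im ^ 12 with hK
  set L : ℝ := |Real.log (K / ‖dl τ‖ ^ 4)| with hL
  have hK0 : 0 < K := by positivity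
  refine ⟨2 * (L + 12), fun m hm h3 => ?_⟩
  have hm0 : (0 : ℝ) < m := by exact_mod_cast (by omega : 0 < m)
  have h1 : ∀ M ∈ Hk 2 m, B * (1 + ‖JJ (act M τ)‖) * ‖dl (act M τ)‖ ^ 4 ≤ K * m ^ 12 := by
    intro M hM
    have e1 : (τ.im / m) ^ 12 ≤ (act M τ).im ^ 12 :=
      pow_le_pow_left₀ (by positivity) (im_ge b hM τ) 12
    have e0 : 0 ≤ (1 + ‖JJ (act M τ)‖) * ‖dl (act M τ)‖ ^ 4 :=
      mul_nonneg (add_nonneg zero_le_one (norm_nonneg _)) (pow_nonneg (norm_nonneg _) _)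
    have e2 := (mul_le_mul_of_nonneg_left e1 e0).trans (hb (act M τ))
    have e3 : K * m ^ 12 = B * (C / (τ.im / m) ^ 12) := by
      rw [hK]
      field_simp
    rw [e3, mul_assoc]
    exact mul_le_mul_of_nonneg_left ((le_div_iff₀ (by positivity)).2 e2) (by linarith)
  have h2 := prod_le_prod (fun M _ => mul_nonneg (mul_nonneg (zero_le_one.trans hB)
    (add_nonneg zero_le_one (norm_nonneg _))) (pow_nonneg (norm_nonneg _) _)) h1
  rw [prod_mul_distrib, prod_pow, h m τ hm, prod_const, ← pow_mul, mul_comm _ 4, pow_mul,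
    ← le_div_iff₀ (by positivity), ← div_pow] at h2
  refine h2.trans ?_
  have h4 := log_ge h3
  have h5 : K * m ^ 12 / ‖dl τ‖ ^ 4 ≤ Real.exp ((L + 12) * Real.log m) := by
    rw [← Real.log_le_iff_le_exp (by positivity), mul_div_right_comm,
      Real.log_mul (by positivity) (by positivity), Real.log_pow]
    have e1 : Real.log (K / ‖dl τ‖ ^ 4) ≤ L := le_abs_self _
    have e2 : 0 ≤ L := abs_nonneg _
    push_cast
    nlinarith
  refine (pow_le_pow_left₀ (by positivity) h5 _).trans ?_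
  rw [← Real.exp_nat_mul]
  refine Real.exp_le_exp.2 ?_
  have h6 : 0 ≤ (L + 12) * Real.log m := by positivity
  refine (mul_le_mul_of_nonneg_right (card_le b h3) h6).trans (le_of_eq ?_)
  ring

end Pool.Agent.MP_c481b3_nt.H31F
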