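import Pool.Agent.MP_c481b3_nt.H31F.Spec2

set_option autoImplicit false

namespace Pool.Agent.MP_c481b3_nt.H31F

open UpperHalfPlane Finset

namespace PrAux

lemma act_smul {r : ℕ} (hr : 0 < r) {M : M2} (h : 0 < M.det) (τ : ℍ) :
    act ((r : ℤ) • M) τ = act M τ := by
  have h' : 0 < ((r : ℤ) • M).det := by
    rw [Matrix.det_smul]
    positivity
  have e : den ((r : ℤ) • M) τ = r * den M τ := by
    simp only [den, Matrix.smul_apply, smul_eq_mul]
    push_cast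
    ring
  have hr' : (r : ℂ) ≠ 0 := by exact_mod_cast hr.ne'
  have := den_ne h τ
  ext
  rw [coe_act h, coe_act h', e]
  simp only [Matrix.smul_apply, smul_eq_mul]
  push_cast
  field_simp

lemma smul_tri (r a b d : ℕ) : (r : ℤ) • (!![(a : ℤ), ((2 * b : ℕ) : ℤ); 0, (d : ℤ)] : M2)
    = !![((r * a : ℕ) : ℤ), ((2 * (r * b) : ℕ) : ℤ); 0, ((r * d : ℕ) : ℤ)] := by
  ext i j
  fin_cases i <;> fin_cases j <;> simp
  ring

lemma key (h : MAT) {r : ℕ} (hr : r.Prime) (h2 : r ≠ 2) (m : ℕ) (M : M2) :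
    M ∈ Hk 2 m ∧ Dv r M ↔ r ^ 2 ∣ m ∧ ∃ N ∈ Hk 2 (m / r ^ 2), (r : ℤ) • N = M := by
  have hr0 := hr.pos
  constructor
  · rintro ⟨hM, hD⟩
    obtain ⟨a, d, b, ha, hd, rfl, hb, rfl⟩ := (h.mem _ _ _).1 hM
    have e1 : (r : ℤ) ∣ a := hD 0 0
    have e2 : (r : ℤ) ∣ (2 * b : ℕ) := hD 0 1
    have e3 : (r : ℤ) ∣ d := hD 1 1
    obtain ⟨a, rfl⟩ := Int.natCast_dvd_natCast.1 e1
    obtain ⟨d, rfl⟩ := Int.natCast_dvd_natCast.1 e3
    obtain ⟨b, rfl⟩ : r ∣ b := ((Nat.coprime_primes hr Nat.prime_two).2 h2).dvd_of_dvd_mul_left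
      (Int.natCast_dvd_natCast.1 e2)
    have e : r * a * (r * d) = r ^ 2 * (a * d) := by ring
    refine ⟨⟨_, e⟩, _, (h.mem _ _ _).2 ⟨a, d, b, Nat.pos_of_mul_pos_left ha,
      Nat.pos_of_mul_pos_left hd, ?_, Nat.lt_of_mul_lt_mul_left hb, rfl⟩, smul_tri r a b d⟩
    rw [e, Nat.mul_div_cancel_left _ (by positivity)]
  · rintro ⟨⟨k, rfl⟩, N, hN, rfl⟩
    rw [Nat.mul_div_cancel_left _ (by positivity)] at hN
    obtain ⟨a, d, b, ha, hd, rfl, hb, rfl⟩ := (h.mem _ _ _).1 hN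
    refine ⟨(h.mem _ _ _).2 ⟨r * a, r * d, r * b, by positivity, by positivity, by ring,
      Nat.mul_lt_mul_of_pos_left hb hr0, smul_tri r a b d⟩, fun i j => ?_⟩
    exact Dvd.intro _ rfl

end PrAux

open PrAux in
theorem pr_of (h : MAT) : PR := by
  classical
  intro r m f τ hr h2
  rw [← sum_filter_not_add_sum_filter (Hk 2 m) (fun M => Dv r M)]
  congr 1
  split_ifs with hm
  · symm
    refine sum_bij (fun N _ => (r : ℤ) • N) (fun N hN => ?_) (fun N _ N' _ e => ?_)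
      (fun M hM => ?_) fun N hN => ?_
    · exact mem_filter.2 ((key h hr h2 m _).2 ⟨hm, N, hN, rfl⟩)
    · exact smul_right_injective M2 (by exact_mod_cast hr.ne_zero) e
    · obtain ⟨-, N, hN, e⟩ := (key h hr h2 m M).1 (mem_filter.1 hM)
      exact ⟨N, hN, e⟩
    · obtain ⟨a, d, b, ha, hd, -, -, rfl⟩ := (h.mem _ _ _).1 hN
      rw [act_smul hr.pos]
      rw [Matrix.det_fin_two_of]
      simp only [mul_zero, sub_zero]
      positivity
  · exact sum_eq_zero fun M hM => absurd ((key h hr h2 m M).1 (mem_filter.1 hM)).1 hm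

end Pool.Agent.MP_c481b3_nt.H31F
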