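import Pool.Agent.MP_c481b3_nt.H31F.Spec3
import Pool.Agent.MP_c481b3_nt.H31F.Pr
import Pool.Agent.MP_c481b3_nt.H31F.Dpr
import Pool.Agent.MP_c481b3_nt.H31F.Ht

set_option autoImplicit false

namespace Pool.Agent.MP_c481b3_nt.H31F

open UpperHalfPlane hiding I
open Complex Polynomial Finset Can1Aux IntjAux

namespace Ht2Aux

lemma smul_tri (r a b d : ℕ) : (r : ℤ) • (!![(a : ℤ), ((1 * b : ℕ) : ℤ); 0, (d : ℤ)] : M2)
    = !![((r * a : ℕ) : ℤ), ((1 * (r * b) : ℕ) : ℤ); 0, ((r * d : ℕ) : ℤ)] := by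
  ext i j
  fin_cases i <;> fin_cases j <;> simp

lemma key (h : MAT) {r : ℕ} (hr : r.Prime) (m : ℕ) (M : M2) :
    M ∈ Hk 1 m ∧ Dv r M ↔ r ^ 2 ∣ m ∧ ∃ N ∈ Hk 1 (m / r ^ 2), (r : ℤ) • N = M := by
  have hr0 := hr.pos
  constructor
  · rintro ⟨hM, hD⟩
    obtain ⟨a, d, b, ha, hd, rfl, hb, rfl⟩ := (h.mem _ _ _).1 hM
    have e1 : (r : ℤ) ∣ a := hD 0 0
    have e2 : (r : ℤ) ∣ (1 * b : ℕ) := hD 0 1
    have e3 : (r : ℤ) ∣ d := hD 1 1
    obtain ⟨a, rfl⟩ := Int.natCast_dvd_natCast.1 e1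
    obtain ⟨d, rfl⟩ := Int.natCast_dvd_natCast.1 e3
    obtain ⟨b, rfl⟩ : r ∣ b := one_mul b ▸ Int.natCast_dvd_natCast.1 e2
    have e : r * a * (r * d) = r ^ 2 * (a * d) := by ring
    refine ⟨⟨_, e⟩, _, (h.mem _ _ _).2 ⟨a, d, b, Nat.pos_of_mul_pos_left ha,
      Nat.pos_of_mul_pos_left hd, ?_, Nat.lt_of_mul_lt_mul_left hb, rfl⟩, smul_tri r a b d⟩
    rw [e, Nat.mul_div_cancel_left _ (by positivity)]
  · rintro ⟨⟨k, rfl⟩, N, hN, rfl⟩
    rw [Nat.mul_div_cancel_left _ (by positivity)] at hN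
    obtain ⟨a, d, b, ha, hd, rfl, hb, rfl⟩ := (h.mem _ _ _).1 hN
    refine ⟨(h.mem _ _ _).2 ⟨r * a, r * d, r * b, by positivity, by positivity, by ring,
      Nat.mul_lt_mul_of_pos_left hb hr0, smul_tri r a b d⟩, fun i j => ?_⟩
    exact Dvd.intro _ rfl

section

variable (b : B2) {m : ℕ}
include b

lemma shape {H : M2} (h : H ∈ Hk 1 m) : H.det = m ∧ (∀ τ, den H τ = H 1 1) ∧
    ∃ G : LS ℂ, ‖G.leadingCoeff‖ = 1 ∧ Asy m (fun τ => dl (act H τ)) G := by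
  obtain ⟨a, d, c, ha, hd, rfl, -, rfl⟩ := (b.mat.mem 1 m H).1 h
  refine ⟨by simp, fun τ => by simp [den], _, ?_,
    b.sub 1 _ a d (a * a) _ one_pos (mul_pos ha hd) ha hd (by ring) _ _ b.y2.ad⟩
  have h1 : Top (Dc ℂ) 1 1 := ⟨by simp [Dc, b.y2.D1], fun n hn => by simp [Dc, b.y2.D0 n hn]⟩
  rw [(h1.sb (mul_pos ha ha) _).lc (by simp), zpow_one, mul_one, ru, Units.val_mk0,
    Complex.norm_exp]
  simp

/-- the product of the `WW` over a Hecke orbit is constant -/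
lemma const (h0 : 0 < m) : ∃ c : ℂ, ∀ τ, ∏ H ∈ Hk 1 m, WW H τ = c := by
  have hd : ∀ H ∈ Hk 1 m, 0 < H.det := fun H h => (shape b h).1 ▸ Nat.cast_pos.2 h0
  have hc : ((m : ℂ) ^ 12) ^ (Hk 1 m).card ≠ 0 := by simp [h0.ne']
  have h1 : ∀ τ, (∏ H ∈ Hk 1 m, WW H) τ * (∏ H ∈ Hk 1 m, VV H) τ =
      ((m : ℂ) ^ 12) ^ (Hk 1 m).card := fun τ => by
    rw [Finset.prod_apply, Finset.prod_apply, ← prod_mul_distrib, ← prod_const]
    exact prod_congr rfl fun H h => by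
      rw [(b.my.1 H 1 τ (hd H h) Matrix.det_one).2.2.1, (shape b h).1, Int.cast_natCast]
  have h2 : ∀ (γ : M2) τ, γ.det = 1 →
      (∏ H ∈ Hk 1 m, WW H) (act γ τ) = (∏ H ∈ Hk 1 m, WW H) τ := fun γ τ hγ => by
    obtain ⟨σ, k1, k2⟩ := b.mat.perm 1 m γ (Nat.coprime_one_left m) hγ
    rw [Finset.prod_apply, Finset.prod_apply]
    refine prod_nbij σ k1.mapsTo k1.injOn k1.surjOn fun H hH => ?_
    obtain ⟨γ', a1, a2, -⟩ := k2 H hH
    exact congrFun (mv b h0 (shape b hH).1 hγ a1 a2).2.1 τ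
  obtain ⟨P, p1, p2⟩ := DprAux.poly b h0 (prod_mem fun H h => memW (hd H h) (shape b h).1.dvd) h2
  obtain ⟨Q, -, q2⟩ := DprAux.poly b h0 (f := ∏ H ∈ Hk 1 m, VV H)
    (prod_mem fun H h => (b.my.2 ⊤ m H h0 (hd H h) (shape b h).1.dvd).2.2.1) fun γ τ hγ =>
      mul_left_cancel₀ (left_ne_zero_of_mul (h1 τ ▸ hc)) (by rw [h1, ← h2 γ τ hγ, h1])
  have r := b.ring m h0
  have h3 := r.2.2.1 _ _ _ _ p2 q2
  simp only [h1] at h3
  have h4 := r.2.2.2.2.1 _ _ _ h3 (r.1 _)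
  rw [← map_mul, ← map_mul, ← sb_C h0 1, ← algebraMap_LS, ← aeval_C (Yc ℂ)] at h4
  have h5 := (top_aeval b (P * Q - C (((m : ℂ) ^ 12) ^ (Hk 1 m).card))).1
  rw [map_sub, sb_injective h0 1 h4, sub_self, HahnSeries.coeff_zero, eq_comm,
    leadingCoeff_eq_zero, sub_eq_zero] at h5
  obtain ⟨c, -, rfl⟩ := Polynomial.isUnit_iff.1
    (isUnit_of_mul_isUnit_left (h5 ▸ isUnit_C.2 hc.isUnit))
  exact ⟨c, fun τ => by rw [← Finset.prod_apply, p1, eval_C]⟩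

/-- the product of the discriminants over a Hecke orbit -/
lemma dpr (h0 : 0 < m) (τ : ℍ) :
    ∏ M ∈ Hk 1 m, ‖dl (act M τ)‖ = ‖dl τ‖ ^ (Hk 1 m).card := by
  obtain ⟨c, hc⟩ := const b h0
  have h1 : ∀ τ, c * ∏ H ∈ Hk 1 m, dl (act H τ) * dl (act H τ) =
      (∏ H ∈ Hk 1 m, (H 1 1 : ℂ) ^ 12) * ∏ _H ∈ Hk 1 m, dl (act 1 τ) * dl (act 1 τ) := fun τ => by
    rw [← hc τ, ← prod_mul_distrib, ← prod_mul_distrib]
    refine prod_congr rfl fun H h => ?_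
    have := b.y1.ne (act H τ)
    rw [WW, (shape b h).2.1, act_one]
    field_simp
  choose! G g1 g2 using fun H (h : H ∈ Hk 1 m) => (shape b h).2.2
  have t1 : Top (Dc ℂ) 1 1 := ⟨by simp [Dc, b.y2.D1], fun n hn => by simp [Dc, b.y2.D0 n hn]⟩
  have a1 := b.sub 1 m 1 1 m 0 one_pos h0 one_pos one_pos (by ring) _ _ b.y2.ad
  have l1 := (t1.sb h0 1).lc (by simp)
  simp only [Nat.cast_one (R := ℤ), ← Matrix.one_fin_two, ru_zero] at a1
  have r := b.ring m h0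
  have a2 := r.2.2.1 _ _ _ _ (r.1 c)
    (r.2.2.2.2.2.2.2 _ (Hk 1 m) _ _ fun H h => r.2.2.1 _ _ _ _ (g2 H h) (g2 H h)).2
  simp only [h1] at a2
  have e := congrArg (‖·.leadingCoeff‖) (r.2.2.2.2.1 _ _ _ a2 (r.2.2.1 _ _ _ _ (r.1 _)
    (r.2.2.2.2.2.2.2 _ (Hk 1 m) _ _ fun H _ => r.2.2.1 _ _ _ _ a1 a1).2))
  simp only [HahnSeries.leadingCoeff_mul, lc_prod, l1, norm_mul, norm_prod, HahnSeries.C_apply,
    HahnSeries.leadingCoeff_of_single] at e
  rw [prod_eq_one fun H h => by rw [g1 H h, one_mul]] at e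
  have h2 := congrArg (‖·‖) (h1 τ)
  simp only [norm_mul, norm_prod, act_one] at h2
  simp only [one_zpow, Units.val_one, norm_one, mul_one, prod_const_one] at e
  rw [e, prod_mul_distrib, prod_mul_distrib, prod_const] at h2
  refine (mul_self_inj_of_nonneg (by positivity) (by positivity)).1 (mul_left_cancel₀ ?_ h2)
  refine prod_ne_zero_iff.2 fun H h => norm_ne_zero_iff.2 (pow_ne_zero _ ?_)
  exact (shape b h).2.1 τ ▸ den_ne ((shape b h).1 ▸ Nat.cast_pos.2 h0) τ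

end

theorem im_ge (b : B1) {m : ℕ} {H : M2} (hH : H ∈ Hk 1 m) (τ : ℍ) :
    τ.im / m ≤ (act H τ).im := by
  obtain ⟨a, d, c, ha, hd, rfl, -, rfl⟩ := (b.mat.mem 1 m H).1 hH
  have h : 0 < (!![(a : ℤ), ((1 * c : ℕ) : ℤ); 0, (d : ℤ)] : M2).det := by
    rw [Matrix.det_fin_two_of, mul_zero, sub_zero]
    positivity
  have e : (act !![(a : ℤ), ((1 * c : ℕ) : ℤ); 0, (d : ℤ)] τ).im = a * τ.im / d := by
    rw [← coe_im, coe_act h]
    simp [den]
  have ha' : (1 : ℝ) ≤ a := by exact_mod_cast ha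
  have hd' : (0 : ℝ) < d := by exact_mod_cast hd
  have hy := τ.im_pos
  rw [e, Nat.cast_mul, div_le_div_iff₀ (by positivity) hd']
  have h2 : (1 : ℝ) ≤ a * a := by nlinarith
  nlinarith [mul_le_mul_of_nonneg_left h2 (mul_pos hy hd').le]

theorem card_le (b : B1) {m : ℕ} (hm : 3 ≤ m) : ((Hk 1 m).card : ℝ) ≤ 2 * m * Real.log m := by
  have h1 := b.mat.sum 1 m one_pos ℝ fun _ => 1
  have h2 := b.mat.sum 2 m two_pos ℝ fun _ => 1
  have h3 := HtAux.card_le b hm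
  simp only [sum_const, nsmul_eq_mul, mul_one] at h1 h2
  rw [h1, ← h2]
  exact h3

end Ht2Aux

open Ht2Aux in
theorem pr2_of (h : MAT) : PR2 := by
  classical
  intro r m f τ hr
  rw [← sum_filter_not_add_sum_filter (Hk 1 m) (fun M => Dv r M)]
  congr 1
  split_ifs with hm
  · symm
    refine sum_bij (fun N _ => (r : ℤ) • N) (fun N hN => ?_) (fun N _ N' _ e => ?_)
      (fun M hM => ?_) fun N hN => ?_
    · exact mem_filter.2 ((key h hr m _).2 ⟨hm, N, hN, rfl⟩)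
    · exact smul_right_injective M2 (by exact_mod_cast hr.ne_zero) e
    · obtain ⟨-, N, hN, e⟩ := (key h hr m M).1 (mem_filter.1 hM)
      exact ⟨N, hN, e⟩
    · obtain ⟨a, d, b, ha, hd, -, -, rfl⟩ := (h.mem _ _ _).1 hN
      rw [PrAux.act_smul hr.pos]
      rw [Matrix.det_fin_two_of]
      simp only [mul_zero, sub_zero]
      positivity
  · exact sum_eq_zero fun M hM => absurd ((key h hr m M).1 (mem_filter.1 hM)).1 hm

open Ht2Aux in
theorem ht2_of (b : B2) : HT2 := by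
  intro τ B hB
  obtain ⟨C, hC, hb⟩ := HtAux.bound b.toB1
  have h0 : 0 < ‖dl τ‖ := norm_pos_iff.2 (b.y1.ne τ)
  have hy := τ.im_pos
  set K : ℝ := B * C / τ.im ^ 12 with hK
  set L : ℝ := |Real.log (K / ‖dl τ‖ ^ 4)| with hL
  have hK0 : 0 < K := by positivity
  refine ⟨2 * (L + 12), fun m h3 => ?_⟩
  have hm0 : (0 : ℝ) < m := by exact_mod_cast (by omega : 0 < m)
  have h1 : ∀ M ∈ Hk 1 m, B * (1 + ‖JJ (act M τ)‖) * ‖dl (act M τ)‖ ^ 4 ≤ K * m ^ 12 := by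
    intro M hM
    have e1 : (τ.im / m) ^ 12 ≤ (act M τ).im ^ 12 :=
      pow_le_pow_left₀ (by positivity) (im_ge b.toB1 hM τ) 12
    have e0 : 0 ≤ (1 + ‖JJ (act M τ)‖) * ‖dl (act M τ)‖ ^ 4 :=
      mul_nonneg (add_nonneg zero_le_one (norm_nonneg _)) (pow_nonneg (norm_nonneg _) _)
    have e2 := (mul_le_mul_of_nonneg_left e1 e0).trans (hb (act M τ))
    have e3 : K * m ^ 12 = B * (C / (τ.im / m) ^ 12) := by
      rw [hK]
      field_simp
    rw [e3, mul_assoc]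
    exact mul_le_mul_of_nonneg_left ((le_div_iff₀ (by positivity)).2 e2) (by linarith)
  have h2 := prod_le_prod (fun M _ => mul_nonneg (mul_nonneg (zero_le_one.trans hB)
    (add_nonneg zero_le_one (norm_nonneg _))) (pow_nonneg (norm_nonneg _) _)) h1
  rw [prod_mul_distrib, prod_pow, dpr b (by omega) τ, prod_const, ← pow_mul, mul_comm _ 4, pow_mul,
    ← le_div_iff₀ (by positivity), ← div_pow] at h2
  refine h2.trans ?_
  have h4 := HtAux.log_ge h3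
  have h5 : K * m ^ 12 / ‖dl τ‖ ^ 4 ≤ Real.exp ((L + 12) * Real.log m) := by
    rw [← Real.log_le_iff_le_exp (by positivity), mul_div_right_comm,
      Real.log_mul (by positivity) (by positivity), Real.log_pow]
    have e1 : Real.log (K / ‖dl τ‖ ^ 4) ≤ L := le_abs_self _
    have e2 : 0 ≤ L := abs_nonneg _
    push_cast
    nlinarith
  refine (pow_le_pow_left₀ (by positivity) h5 _).trans ?_
  rw [← Real.exp_nat_mul]
  refine Real.exp_le_exp.2 ?_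
  have h6 : 0 ≤ (L + 12) * Real.log m := by positivity
  refine (mul_le_mul_of_nonneg_right (card_le b.toB1 h3) h6).trans (le_of_eq ?_)
  ring

end Pool.Agent.MP_c481b3_nt.H31F
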