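import Pool.Agent.MP_c481b3_nt.H31F.Spec2
import Pool.Agent.MP_c481b3_nt.H31F.Intj

set_option autoImplicit false

namespace Pool.Agent.MP_c481b3_nt.H31F

open UpperHalfPlane hiding I
open Complex Polynomial Filter Topology
open scoped Manifold MatrixGroups Real ModularForm

namespace Intj2Aux

open IntjAux

/-- a point fixed by a matrix of squarefree determinant larger than one is integral -/
lemma base_fix (b : B2) (O : ValuationSubring ℂ) {d : ℕ} (h1 : 1 < d) (hs : Squarefree d)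
    (τ₀ : ℍ) (Q : M2) (q2 : Q.det = d) (q3 : act Q τ₀ = τ₀) : YY τ₀ ∈ O := by
  have hd : 0 < d := by omega
  choose! hpos G hG hv hA using factor b O h1 hs
  obtain ⟨-, -, -, -, -, -, -, hP⟩ := b.ring d hd
  have h2 := (hP M2 (Hk 1 d) (fun H τ => JJ τ - JJ (act H τ)) G hA).2
  obtain ⟨P, p1, -, p3, p4⟩ := (b.lv d O.toSubring _ _ hd (hol_prod _
    (fun H τ => JJ τ - JJ (act H τ)) fun H hH =>
    (holJ b).sub ((holJ b).act (hpos H hH))) h2 (prod_mem hG)).1 0 (by
      intro γ τ hγ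
      obtain ⟨σ, hσ, hσ'⟩ := b.mat.perm 1 d γ (Nat.coprime_one_left d) hγ
      rw [pow_zero, one_mul]
      refine Finset.prod_nbij σ hσ.mapsTo hσ.injOn hσ.surjOn fun H hH => ?_
      obtain ⟨γ', g1, g2, -⟩ := hσ' H hH
      rw [b.y1.tJ _ _ hγ, ← act_mul (hpos H hH) (by rw [hγ]; exact one_pos), g2,
        act_mul (by rw [g1]; exact one_pos) (hpos _ (hσ.mapsTo hH)), b.y1.tJ _ _ g1])
  have hv' : O.valuation (∏ H ∈ Hk 1 d, G H).leadingCoeff = 1 := by
    rw [lc_prod, map_prod, Finset.prod_eq_one hv]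
  have hP0 : P ≠ 0 := by
    rintro rfl
    rw [p4] at hv'
    simp at hv'
  have t := (top_aeval b P).sb hd 1
  rw [sb_aeval hd, sb_one, ← p4] at t
  rw [t.lc (by simpa using hP0)] at hv'
  refine mem_of_root O p1 (by simpa using hv') ?_
  rw [← p3]
  obtain ⟨γ, H, hH, g1, rfl⟩ := b.mat.hnf 1 d Q hd (Nat.coprime_one_left d) q2
  refine Finset.prod_eq_zero hH ?_
  rw [act_mul (by rw [g1]; exact one_pos) (hpos H hH)] at q3
  rw [← b.y1.tJ γ (act H _) g1, q3, sub_self]

lemma base_one (b : B2) (O : ValuationSubring ℂ) : YY (om 1) ∈ O := by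
  obtain ⟨Q, -, q2, q3, -⟩ := b.mat.cm 1 1 1 1 one_pos (by simp) (by simp)
  refine base_fix b O one_lt_two Nat.prime_two.squarefree (om 1) Q ?_
    (by simpa only [act_one] using q3)
  rw [q2]
  simp [tt, nn]

end Intj2Aux

theorem intj2_of (b : B2) (h : VLS) : INTJ2 := by
  intro d M hd hs hM
  rcases (show 1 < d ∨ d = 1 by omega) with h1 | rfl
  · exact intj_of b h d M h1 hs hM
  have hY : IsIntegral ℤ (YY (act M (om 1))) := by
    rw [h.int]
    intro O
    obtain ⟨N, hN⟩ := Int.eq_ofNat_of_zero_le hM.le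
    have hN' : 0 < N := by omega
    exact (b.chp O N _ hN' (b.my.2 O N M hN' hM (by rw [hN])).1).2 _ (Intj2Aux.base_one b O)
  refine ⟨hY, (hY.pow 2).add ?_⟩
  simpa using isIntegral_algebraMap (R := ℤ) (A := ℂ) (x := 1728)

end Pool.Agent.MP_c481b3_nt.H31F
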