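import Pool.Agent.MP_c481b3_nt.H31F.SpecC

/-!
Reduction of a curve whose invariant is congruent to a singular modulus.
-/

set_option autoImplicit false

namespace Pool.Agent.MP_c481b3_nt.H31F

open NumberField IsLocalRing Pool.Agent.MP_c481b3_nt.H81 Pool.Agent.MP_c481b3_nt.H28

namespace LinkAux

variable {L M : Type} [Field L] [Field M]

lemma val_comap (θ : L →+* M) (O : ValuationSubring M) {x : L} (h : O.valuation (θ x) < 1) :
    (O.comap θ).valuation x < 1 := by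
  rw [← ValuationSubring.mem_nonunits_iff, ValuationSubring.mem_nonunits_iff_or] at h ⊢
  refine h.imp (map_eq_zero θ).1 fun h h' => h ?_
  rwa [ValuationSubring.mem_comap, map_inv₀] at h'

variable [DecidableEq L] [IsAlgClosed L] [CharZero L]

lemma desc [DecidableEq M] [IsAlgClosed M] [CharZero M] (θ : L →+* M) {A B : L} (hG : Good A B)
    {n : ℕ} (n0 : n ≠ 0) (h : CMv n (θ A) (θ B)) : CMv n A B := by
  classical
  obtain ⟨C, u, d, c, e⟩ := h
  have t := tm_char hG n0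
  have t' := tm_char d.good n0
  have r := rd_triv θ rfl rfl d.good
  have nz : ∀ P, P ≠ 0 → r.red P ≠ 0 := fun P hP => r.red_ne hP trivial
  have inj : Function.Injective r.red :=
    (injective_iff_map_eq_zero _).2 fun P h => by_contra fun hP => nz P hP h
  have im : (tors A B n).image r.red = tors (θ A) (θ B) n := by
    refine Finset.eq_of_subset_of_card_le (fun Q hQ => ?_)
      (by rw [Finset.card_image_of_injective _ inj, t.card, t'.card])
    obtain ⟨P, hP, rfl⟩ := Finset.mem_image.1 hQ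
    exact t'.mem.2 (by rw [← map_nsmul, t.mem.1 hP, map_zero])
  obtain ⟨D, rfl⟩ : ∃ D : Finset (Pt A B), D.image r.red = C :=
    (Finset.subset_image_iff.1 (im ▸ t'.subset d.sub c)).imp fun _ h => h.2
  have m : ∀ P, r.red P ∈ D.image r.red ↔ P ∈ D := fun P => inj.mem_finset_image
  have s : IsSub D := ⟨(m 0).1 (by rw [map_zero]; exact d.sub.zero), fun P hP Q hQ => (m _).1 (by
    rw [map_sub]; exact d.sub.sub _ ((m P).2 hP) _ ((m Q).2 hQ))⟩
  obtain ⟨w, rfl⟩ : ∃ w, θ w = u := by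
    obtain ⟨w, hw⟩ := IsAlgClosed.exists_pow_nat_eq (-(n : L)) two_pos
    rcases sq_eq_sq_iff_eq_or_eq_neg.1 (show u ^ 2 = θ w ^ 2 by
      rw [← map_pow, hw, map_neg, map_natCast, e]) with z | z
    · exact ⟨w, z.symm⟩
    · exact ⟨-w, by rw [map_neg, z]⟩
  have f := fun P (hP : P ∈ D.erase 0) => nz P (Finset.mem_erase.1 hP).1
  refine ⟨D, w, ⟨hG, s, (map_ne_zero θ).1 d.hu, θ.injective ?_, θ.injective ?_, hG⟩,
    by rw [← c, Finset.card_image_of_injective _ inj], θ.injective ?_⟩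
  · rw [(ev_triv θ _).unique (ev_vA r s f), d.hA, map_mul, map_pow]
  · rw [(ev_triv θ _).unique (ev_vB r s f), d.hB, map_mul, map_pow]
  · rw [map_pow, e, map_neg, map_natCast]

lemma core [Algebra.IsAlgebraic ℚ L] {K : Type} [Field K] [NumberField K] {A B : 𝓞 K}
    (σ : K →+* L) (O : ValuationSubring L) {p d g i : ℕ} {A₀ B₀ : L} (hp : p.Prime) (h5 : 5 ≤ p)
    (hv : O.valuation (p : L) < 1) (d0 : ¬p ∣ d) (g0 : ¬p ∣ g) (sq : IsSquare (-(d : ZMod p)))
    (h1 : 4 * A₀ ^ 3 + 27 * B₀ ^ 2 = 1) (cm : CMv (d * g ^ 2) A₀ B₀)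
    (hi : IsIntegral ℤ (jj A₀ B₀))
    (hj : O.valuation (jj A₀ B₀ - jj (σ A) (σ B) ^ p ^ i) < 1)
    (hΔ : ∀ P : Ideal (𝓞 K), P.IsMaximal → (p : 𝓞 K) ∈ P → (Wc A B).Δ ∉ P) :
    ∃ P : Ideal (𝓞 K), P.IsMaximal ∧ (p : 𝓞 K) ∈ P ∧ Same A B (-d) P := by
  classical
  have := res_charP hp hv
  have : Fact p.Prime := ⟨hp⟩
  have := resid_closed O
  obtain ⟨h2, h3⟩ := small_ne (ResidueField O) h5
  obtain ⟨A', B', r⟩ := rd_of_disc (π := resPlc O) h2 h3 h1 (cg_mem_of_integral O hi)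
  obtain ⟨φ, hφ, m1, m2⟩ := exists_phi' (O := O) hp σ
  have G := good_phi (hΔ _ m1 m2)
  have k : RingHom.ker ((iterateFrobenius (ResidueField O) p i).comp φ) = RingHom.ker φ := by
    ext x
    rw [RingHom.mem_ker, RingHom.comp_apply, map_eq_zero, RingHom.mem_ker]
  have G' := G.map (iterateFrobenius (ResidueField O) p i)
  have e := (((Ev.of_lt (π := resPlc O) hj).add ((ev_jj (hφ A) (hφ B) G).pow (p ^ i))).congr
    (sub_add_cancel _ _) (zero_add _)).unique (ev_jj (rdA r) (rdB r) r.good)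
  rw [← iterateFrobenius_def, jj_map] at e
  have n0 : ∀ n : ℕ, ¬p ∣ n → (n : ResidueField O) ≠ 0 := fun n h z =>
    h ((CharP.cast_eq_zero_iff _ p _).1 z)
  obtain ⟨χ, c1, c2⟩ := cm.red r h3 (by
    rw [Nat.cast_mul, Nat.cast_pow]; exact mul_ne_zero (n0 d d0) (pow_ne_zero 2 (n0 g g0)))
  obtain ⟨f, hf⟩ := is_iso h3 r.good G' (jj_eq h3 r.good G' e.symm)
  have c := cm_move h3 G' c1 c2 hf (by simp)
  rw [one_pow, mul_one] at c
  refine ⟨_, m1, m2, by_contra fun hn => ?_⟩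
  rw [← k] at m1 m2 hn
  exact nc_of p h5 (res_alg O p) m1 (hΔ _ m1 m2) d0 sq ⟨_, rfl⟩ hn G' g (n0 g g0) c

end LinkAux

theorem link : LINK := by
  intro K _ _ A B σ O p d g i A₀ B₀ hp h5 hv d0 g0 sq G cm hi hj hΔ
  classical
  let L := algebraicClosure ℚ ℂ
  have : IsAlgClosed L := (algebraicClosure.isAlgClosure ℚ ℂ).isAlgClosed
  have : Algebra.IsAlgebraic ℚ L := algebraicClosure.isAlgebraic ℚ ℂ
  let θ : L →+* ℂ := algebraMap L ℂ
  obtain ⟨c, hc⟩ : ∃ c : L, θ c = jj A₀ B₀ :=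
    ⟨⟨_, mem_algebraicClosure_iff'.2 hi.tower_top⟩, rfl⟩
  obtain ⟨τ, hτ⟩ : ∃ τ : K →+* L, ∀ x, θ (τ x) = σ x :=
    ⟨σ.codRestrict L fun x => mem_algebraicClosure_iff'.2
      ((Algebra.IsIntegral.isIntegral (R := ℚ) x).map σ.toRatAlgHom), fun _ => rfl⟩
  obtain ⟨a, ha⟩ := IsAlgClosed.exists_pow_nat_eq (c / 6912) three_pos
  obtain ⟨b, hb⟩ := IsAlgClosed.exists_pow_nat_eq ((1 - 4 * a ^ 3) / 27) two_pos
  have h1 : 4 * a ^ 3 + 27 * b ^ 2 = 1 := by rw [hb]; ring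
  have h2 : jj a b = c := by rw [jj, h1, ha]; ring
  have G' : Good a b := ⟨two_ne_zero, h1 ▸ one_ne_zero⟩
  have n0 : d * g ^ 2 ≠ 0 := mul_ne_zero (fun e => d0 (e ▸ dvd_zero p))
    (pow_ne_zero 2 fun e => g0 (e ▸ dvd_zero p))
  refine LinkAux.core (i := i) τ (O.comap θ) hp h5 (LinkAux.val_comap θ O (by rwa [map_natCast]))
    d0 g0 sq h1 (LinkAux.desc θ G' n0 (cm.iso (G'.map θ)
      (jj_eq three_ne_zero G (G'.map θ) (by rw [← jj_map, h2, hc])))) ?_
    (LinkAux.val_comap θ O ?_) hΔ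
  · rw [h2, ← isIntegral_algHom_iff θ.toIntAlgHom θ.injective]
    exact hc ▸ hi
  · rwa [h2, map_sub, map_pow, jj_map, hc, hτ, hτ]

end Pool.Agent.MP_c481b3_nt.H31F
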