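import Pool.Agent.MP_c481b3_nt.H31F.SpecC2
import Pool.Agent.MP_c481b3_nt.H31F.Link

/-!
Reduction of a curve whose invariant is congruent to a singular modulus, with the prime named.
-/

set_option autoImplicit false

namespace Pool.Agent.MP_c481b3_nt.H31F

open NumberField IsLocalRing Pool.Agent.MP_c481b3_nt.H81 Pool.Agent.MP_c481b3_nt.H28

namespace Link2Aux

variable {L M : Type} [Field L] [Field M]

lemma val_comap_iff (θ : L →+* M) (O : ValuationSubring M) {x : L} :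
    (O.comap θ).valuation x < 1 ↔ O.valuation (θ x) < 1 := by
  refine ⟨fun h => ?_, LinkAux.val_comap θ O⟩
  rw [← ValuationSubring.mem_nonunits_iff, ValuationSubring.mem_nonunits_iff_or] at h ⊢
  refine h.imp (map_eq_zero θ).2 fun h h' => h ?_
  rwa [ValuationSubring.mem_comap, map_inv₀]

variable [DecidableEq L] [IsAlgClosed L] [CharZero L]

lemma core [Algebra.IsAlgebraic ℚ L] {K : Type} [Field K] [NumberField K] {A B : 𝓞 K}
    (σ : K →+* L) (O : ValuationSubring L) {p d g i : ℕ} {A₀ B₀ : L} (hp : p.Prime) (h5 : 5 ≤ p)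
    (hv : O.valuation (p : L) < 1) (d0 : ¬p ∣ d) (g0 : ¬p ∣ g) (sq : IsSquare (-(d : ZMod p)))
    (h1 : 4 * A₀ ^ 3 + 27 * B₀ ^ 2 = 1) (cm : CMv (d * g ^ 2) A₀ B₀)
    (hi : IsIntegral ℤ (jj A₀ B₀))
    (hj : O.valuation (jj A₀ B₀ - jj (σ A) (σ B) ^ p ^ i) < 1)
    (hΔ : ∀ P : Ideal (𝓞 K), P.IsMaximal → (p : 𝓞 K) ∈ P → (Wc A B).Δ ∉ P) :
    ∃ P : Ideal (𝓞 K), P.IsMaximal ∧ (p : 𝓞 K) ∈ P ∧ Same A B (-d) P ∧
      ∀ x : 𝓞 K, x ∈ P ↔ O.valuation (σ x) < 1 := by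
  classical
  have := res_charP hp hv
  have : Fact p.Prime := ⟨hp⟩
  have := resid_closed O
  obtain ⟨h2, h3⟩ := small_ne (ResidueField O) h5
  obtain ⟨A', B', r⟩ := rd_of_disc (π := resPlc O) h2 h3 h1 (cg_mem_of_integral O hi)
  obtain ⟨φ, hφ, m1, m2⟩ := exists_phi' (O := O) hp σ
  have G := good_phi (hΔ _ m1 m2)
  have k : RingHom.ker ((iterateFrobenius (ResidueField O) p i).comp φ) = RingHom.ker φ := by
    ext x
    rw [RingHom.mem_ker, RingHom.comp_apply, map_eq_zero, RingHom.mem_ker]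
  have G' := G.map (iterateFrobenius (ResidueField O) p i)
  have e := (((Ev.of_lt (π := resPlc O) hj).add ((ev_jj (hφ A) (hφ B) G).pow (p ^ i))).congr
    (sub_add_cancel _ _) (zero_add _)).unique (ev_jj (rdA r) (rdB r) r.good)
  rw [← iterateFrobenius_def, jj_map] at e
  have n0 : ∀ n : ℕ, ¬p ∣ n → (n : ResidueField O) ≠ 0 := fun n h z =>
    h ((CharP.cast_eq_zero_iff _ p _).1 z)
  obtain ⟨χ, c1, c2⟩ := cm.red r h3 (by
    rw [Nat.cast_mul, Nat.cast_pow]; exact mul_ne_zero (n0 d d0) (pow_ne_zero 2 (n0 g g0)))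
  obtain ⟨f, hf⟩ := is_iso h3 r.good G' (jj_eq h3 r.good G' e.symm)
  have c := cm_move h3 G' c1 c2 hf (by simp)
  rw [one_pow, mul_one] at c
  refine ⟨_, m1, m2, by_contra fun hn => ?_, fun x => ⟨fun hx => ((hφ x).congr rfl hx).v_lt,
    fun hx => (hφ x).unique (Ev.of_lt (π := resPlc O) hx)⟩⟩
  rw [← k] at m1 m2 hn
  exact nc_of p h5 (res_alg O p) m1 (hΔ _ m1 m2) d0 sq ⟨_, rfl⟩ hn G' g (n0 g g0) c

end Link2Aux

theorem link2 : LINK2 := by
  intro K _ _ A B σ O p d g i A₀ B₀ hp h5 hv d0 g0 sq G cm hi hj hΔ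
  classical
  let L := algebraicClosure ℚ ℂ
  have : IsAlgClosed L := (algebraicClosure.isAlgClosure ℚ ℂ).isAlgClosed
  have : Algebra.IsAlgebraic ℚ L := algebraicClosure.isAlgebraic ℚ ℂ
  let θ : L →+* ℂ := algebraMap L ℂ
  obtain ⟨c, hc⟩ : ∃ c : L, θ c = jj A₀ B₀ :=
    ⟨⟨_, mem_algebraicClosure_iff'.2 hi.tower_top⟩, rfl⟩
  obtain ⟨τ, hτ⟩ : ∃ τ : K →+* L, ∀ x, θ (τ x) = σ x :=
    ⟨σ.codRestrict L fun x => mem_algebraicClosure_iff'.2
      ((Algebra.IsIntegral.isIntegral (R := ℚ) x).map σ.toRatAlgHom), fun _ => rfl⟩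
  obtain ⟨a, ha⟩ := IsAlgClosed.exists_pow_nat_eq (c / 6912) three_pos
  obtain ⟨b, hb⟩ := IsAlgClosed.exists_pow_nat_eq ((1 - 4 * a ^ 3) / 27) two_pos
  have h1 : 4 * a ^ 3 + 27 * b ^ 2 = 1 := by rw [hb]; ring
  have h2 : jj a b = c := by rw [jj, h1, ha]; ring
  have G' : Good a b := ⟨two_ne_zero, h1 ▸ one_ne_zero⟩
  have n0 : d * g ^ 2 ≠ 0 := mul_ne_zero (fun e => d0 (e ▸ dvd_zero p))
    (pow_ne_zero 2 fun e => g0 (e ▸ dvd_zero p))
  have i1 : IsIntegral ℤ (jj a b) := by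
    rw [h2, ← isIntegral_algHom_iff θ.toIntAlgHom θ.injective]
    exact hc ▸ hi
  have i2 : O.valuation (θ (jj a b - jj (τ A) (τ B) ^ p ^ i)) < 1 := by
    rwa [h2, map_sub, map_pow, jj_map, hc, hτ, hτ]
  obtain ⟨P, p1, p2, p3, p4⟩ := Link2Aux.core (i := i) τ (O.comap θ) hp h5
    (LinkAux.val_comap θ O (by rwa [map_natCast])) d0 g0 sq h1
    (LinkAux.desc θ G' n0 (cm.iso (G'.map θ)
      (jj_eq three_ne_zero G (G'.map θ) (by rw [← jj_map, h2, hc])))) i1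
    (LinkAux.val_comap θ O i2) hΔ
  exact ⟨P, p1, p2, p3, fun x => by rw [p4, Link2Aux.val_comap_iff, hτ]⟩

end Pool.Agent.MP_c481b3_nt.H31F
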