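import Pool.Agent.MP_c481b3_nt.H31F.Spec

set_option autoImplicit false

namespace Pool.Agent.MP_c481b3_nt.H31F

open UpperHalfPlane hiding I
open Complex Polynomial IsLocalRing

namespace LocAux

variable {O : ValuationSubring ℂ}

lemma cong_iff {x y : ℂ} (hx : x ∈ O) (hy : y ∈ O) :
    O.valuation (x - y) < 1 ↔ residue O ⟨x, hx⟩ = residue O ⟨y, hy⟩ := by
  rw [← sub_eq_zero (a := residue O ⟨x, hx⟩), ← map_sub, residue_eq_zero_iff,
    ValuationSubring.valuation_lt_one_iff]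
  rfl

lemma mem_of_cong {x y : ℂ} (hx : x ∈ O) (h : O.valuation (x - y) < 1) : y ∈ O := by
  have h1 : x - y ∈ O := (O.valuation_le_one_iff _).1 h.le
  have := O.toSubring.sub_mem hx h1
  simpa using this

lemma res_pow {x : ℂ} (hx : x ∈ O) (n : ℕ) :
    residue O ⟨x ^ n, pow_mem hx n⟩ = residue O ⟨x, hx⟩ ^ n := by
  rw [← map_pow]; rfl

lemma cong_pow {x y : ℂ} (hx : x ∈ O) (h : O.valuation (x - y) < 1) (n : ℕ) :
    O.valuation (x ^ n - y ^ n) < 1 := by
  have hy := mem_of_cong hx h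
  rw [cong_iff (pow_mem hx n) (pow_mem hy n), res_pow hx, res_pow hy, (cong_iff hx hy).1 h]

lemma cong_symm {x y : ℂ} (h : O.valuation (x - y) < 1) : O.valuation (y - x) < 1 := by
  rwa [Valuation.map_sub_swap]

lemma cong_trans {x y z : ℂ} (h : O.valuation (x - y) < 1) (h' : O.valuation (y - z) < 1) :
    O.valuation (x - z) < 1 := by
  have := Valuation.map_add_lt _ h h'
  rwa [sub_add_sub_cancel] at this

lemma cong_root {p : ℕ} (hp : p.Prime) (hv : O.valuation (p : ℂ) < 1) {x y : ℂ} (hx : x ∈ O)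
    (hy : y ∈ O) (h : O.valuation (x ^ p - y ^ p) < 1) : O.valuation (x - y) < 1 := by
  have := Fact.mk hp
  have h0 : ((p : ℕ) : ResidueField O) = 0 := by
    rw [← map_natCast (residue O), residue_eq_zero_iff, ValuationSubring.valuation_lt_one_iff]
    exact hv
  have : CharP (ResidueField O) p := (CharP.charP_iff_prime_eq_zero hp).2 h0
  rw [cong_iff (pow_mem hx p) (pow_mem hy p), res_pow hx, res_pow hy] at h
  rw [cong_iff hx hy]
  exact frobenius_inj (ResidueField O) p h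

lemma lt_or_lt {x y : ℂ} (h : O.valuation (x * y) < 1) :
    O.valuation x < 1 ∨ O.valuation y < 1 := by
  by_contra hc
  push Not at hc
  rw [map_mul] at h
  exact absurd (one_le_mul hc.1 hc.2) (not_le.2 h)

lemma fix_pow {p f : ℕ} {y : ℂ} (hy : y ∈ O) (h : O.valuation (y ^ p ^ f - y) < 1) (j : ℕ) :
    O.valuation ((y ^ p ^ j) ^ p ^ f - y ^ p ^ j) < 1 := by
  have := cong_pow (pow_mem hy _) h (p ^ j)
  rwa [← pow_mul, mul_comm, pow_mul] at this

lemma descend (h1 : MAT) (h2 : CAN1) {w : ℍ} (hw : ∀ M : M2, 0 < M.det → JJ (act M w) ∈ O)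
    {p f : ℕ} (hp : p.Prime) (hv : O.valuation (p : ℂ) < 1) (hf : 0 < f) (n : ℕ) :
    ∀ (M : M2) (y : ℂ), M.det.natAbs = n → 0 < M.det → O.valuation (JJ (act M w) - y) < 1 →
      O.valuation (y ^ p ^ f - y) < 1 → ∃ (M' : M2) (i : ℕ), 0 < M'.det ∧ ¬(p : ℤ) ∣ M'.det ∧
        O.valuation (JJ (act M' w) - y ^ p ^ i) < 1 ∧
        ∀ r : ℕ, r.Prime → r ≠ p → padicValInt r M'.det = padicValInt r M.det := by
  induction n using Nat.strong_induction_on with
  | _ n ih =>
    intro M y hn hM hy hf'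
    by_cases hd : (p : ℤ) ∣ M.det
    swap
    · exact ⟨M, 0, hM, hd, by simpa using hy, fun _ _ _ => rfl⟩
    obtain ⟨M₁, M', hd1, rfl⟩ := h1.fac p M hp hM hd
    have hp0 : (0 : ℤ) < p := by exact_mod_cast hp.pos
    have hp1 : (1 : ℤ) < p := by exact_mod_cast hp.one_lt
    have hdet : (M₁ * M').det = p * M'.det := by rw [Matrix.det_mul, hd1]
    have hM' : 0 < M'.det := by
      rw [hdet] at hM
      exact (mul_pos_iff_of_pos_left hp0).1 hM
    have hlt : M'.det.natAbs < n := by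
      rw [← hn, hdet]
      have : M'.det < p * M'.det := by nlinarith
      omega
    have hyO : y ∈ O := mem_of_cong (hw _ hM) hy
    have hJ := hw _ hM'
    have hJ1 := hw _ hM
    have hk := ((h2 O p hp hv).1 (act M' w) M₁ hJ hd1).2.2.1
    rw [← act_mul (hd1 ▸ hp0) hM'] at hk
    have key : ∃ j : ℕ, O.valuation (JJ (act M' w) - y ^ p ^ j) < 1 := by
      rcases lt_or_lt hk with hk | hk
      · refine ⟨f - 1, cong_root hp hv hJ (pow_mem hyO _) ?_⟩
        rw [← pow_mul, ← pow_succ, Nat.sub_add_cancel hf]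
        exact cong_trans (cong_trans (cong_symm hk) hy) (cong_symm hf')
      · refine ⟨1, ?_⟩
        rw [pow_one]
        exact cong_trans (cong_symm hk) (cong_pow hJ1 hy p)
    obtain ⟨j, hj⟩ := key
    obtain ⟨M'', i, a1, a2, a3, a4⟩ := ih _ hlt M' (y ^ p ^ j) rfl hM' hj (fix_pow hyO hf' j)
    refine ⟨M'', j + i, a1, a2, by rwa [← pow_mul, ← pow_add] at a3, fun r hr hrp => ?_⟩
    have := Fact.mk hr
    rw [a4 r hr hrp, hdet, padicValInt.mul hp0.ne' hM'.ne', padicValInt.of_nat,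
      padicValNat.eq_zero_of_not_dvd, zero_add]
    exact fun h => hrp ((Nat.prime_dvd_prime_iff_eq hr hp).1 h)

lemma den_ne_int {p f : ℕ} (hp : p.Prime) (hv : O.valuation (p : ℂ) < 1) (hf : 0 < f) {Λ : M2}
    {τ : ℍ} (hd : Λ.det = (p : ℤ) ^ f) (ha : act Λ τ = τ) (hu : O.valuation (den Λ τ) = 1)
    (x : ℤ) : den Λ τ ≠ x := by
  intro hx
  have hp0 : (0 : ℤ) < p := by exact_mod_cast hp.pos
  have hpos : 0 < Λ.det := hd ▸ pow_pos hp0 f
  rw [act_eq_self hpos, hx] at ha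
  have ht := τ.im_pos.ne'
  have e1 := congrArg Complex.im hx
  have e2 := congrArg Complex.im ha
  have c0 : Λ 1 0 = 0 := by simpa [den, ht] using e1
  have d0 : Λ 1 1 = x := by
    have : ((Λ 1 1 : ℤ) : ℂ) = x := by simpa [den, c0] using hx
    exact_mod_cast this
  have a0 : Λ 0 0 = x := by simpa [ht] using e2
  have hxx : x ^ 2 = (p : ℤ) ^ f := by
    rw [← hd, Matrix.det_fin_two, a0, d0, c0]; ring
  have hc : (x : ℂ) ^ 2 = (p : ℂ) ^ f := by exact_mod_cast hxx
  have := congrArg O.valuation hc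
  rw [map_pow, map_pow, ← hx, hu, one_pow] at this
  exact absurd this (pow_lt_one₀ zero_le hv hf.ne').ne'

end LocAux

open LocAux in
theorem loc_of (h1 : MAT) (h2 : CAN1) (h3 : CAN2) (h4 : PI) (h5 : NOR) (h6 : INTJ) (h7 : VLS) :
    LOC := by
  intro d hd hsq O a b hab hvab p hp hv M y f hM hf hy hf'
  have hd0 : 0 < d := by omega
  have hw : ∀ M : M2, 0 < M.det → JJ (act M (om d)) ∈ O :=
    fun M hM => (h7.int _).1 (h6 d M hd hsq hM).2 O
  obtain ⟨M', i, a1, a2, a3, a4⟩ := descend h1 h2 hw hp hv hf _ M y rfl hM hy hf'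
  refine ⟨fun r hr hr2 hns hodd => ?_, M', i, a1, a2, a3⟩
  obtain ⟨b1, b2⟩ := (h4 d hd0 hsq O a b hab hvab).2 p hp hv
  have hrp : r ≠ p := by
    rintro rfl
    exact hns (b1 hr2).2
  obtain ⟨x, z, h, hh, hn, hu⟩ := b2 M'.det a2
  have hp0 : (0 : ℤ) < p := by exact_mod_cast hp.pos
  have hxz : x ≠ 0 ∨ z ≠ 0 := by
    by_contra hc
    push Not at hc
    rw [hc.1, hc.2] at hn
    have := pow_pos hp0 h
    rw [← hn] at this
    simp at this
  obtain ⟨Q, -, q2, q3, q4⟩ := h1.cm d M' x z hd0 a1 hxz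
  have hyO : y ∈ O := mem_of_cong (hw _ hM) hy
  obtain ⟨Λ, l1, l2, l3, -⟩ := h3 O p hp hv (act M' (om d)) Q h f hh (q2.trans hn) q3
    (by rw [q4]; exact hu)
    (fun N hN => by
      rw [← act_mul hN a1]
      exact (h6 d _ hd hsq (det_mul_pos hN a1)).2)
    (cong_trans (cong_trans (cong_pow (hw _ a1) a3 _) (fix_pow hyO hf' i)) (cong_symm a3))
  have := h5 d r M' Λ hd0 a1 (l1 ▸ pow_pos hp0 f) hr hr2 hns (by rwa [a4 r hr hrp]) l2
    (den_ne_int hp hv hf l1 l2 l3)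
  rw [l1] at this
  exact_mod_cast this

end Pool.Agent.MP_c481b3_nt.H31F
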