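import Pool.Agent.MP_c481b3_nt.H31F.Spec2
import Pool.Agent.MP_c481b3_nt.H31F.Loc

set_option autoImplicit false

namespace Pool.Agent.MP_c481b3_nt.H31F

open UpperHalfPlane hiding I
open Complex Polynomial IsLocalRing

namespace Loc2Aux

open LocAux

variable {O : ValuationSubring ℂ}

lemma descend2 (h1 : MAT) (h2 : CAN1) {w : ℍ} (hw : ∀ M : M2, 0 < M.det → JJ (act M w) ∈ O)
    {p f : ℕ} (hp : p.Prime) (hv : O.valuation (p : ℂ) < 1) (hf : 0 < f) (n : ℕ) :
    ∀ (M : M2) (y : ℂ), M.det.natAbs = n → 0 < M.det → O.valuation (JJ (act M w) - y) < 1 →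
      O.valuation (y ^ p ^ f - y) < 1 → ∃ (N M' : M2) (i k : ℕ), M = N * M' ∧
        N.det = (p : ℤ) ^ k ∧ 0 < M'.det ∧ ¬(p : ℤ) ∣ M'.det ∧
        O.valuation (JJ (act M' w) - y ^ p ^ i) < 1 := by
  induction n using Nat.strong_induction_on with
  | _ n ih =>
    intro M y hn hM hy hf'
    by_cases hd : (p : ℤ) ∣ M.det
    swap
    · exact ⟨1, M, 0, 0, (Matrix.one_mul M).symm, by simp, hM, hd, by simpa using hy⟩
    obtain ⟨M₁, M', hd1, rfl⟩ := h1.fac p M hp hM hd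
    have hp0 : (0 : ℤ) < p := by exact_mod_cast hp.pos
    have hp1 : (1 : ℤ) < p := by exact_mod_cast hp.one_lt
    have hdet : (M₁ * M').det = p * M'.det := by rw [Matrix.det_mul, hd1]
    have hM' : 0 < M'.det := by
      rw [hdet] at hM
      exact (mul_pos_iff_of_pos_left hp0).1 hM
    have hlt : M'.det.natAbs < n := by
      rw [← hn, hdet]
      have : M'.det < p * M'.det := by nlinarith
      omega
    have hyO : y ∈ O := mem_of_cong (hw _ hM) hy
    have hJ := hw _ hM'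
    have hJ1 := hw _ hM
    have hk := ((h2 O p hp hv).1 (act M' w) M₁ hJ hd1).2.2.1
    rw [← act_mul (hd1 ▸ hp0) hM'] at hk
    have key : ∃ j : ℕ, O.valuation (JJ (act M' w) - y ^ p ^ j) < 1 := by
      rcases lt_or_lt hk with hk | hk
      · refine ⟨f - 1, cong_root hp hv hJ (pow_mem hyO _) ?_⟩
        rw [← pow_mul, ← pow_succ, Nat.sub_add_cancel hf]
        exact cong_trans (cong_trans (cong_symm hk) hy) (cong_symm hf')
      · refine ⟨1, ?_⟩
        rw [pow_one]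
        exact cong_trans (cong_symm hk) (cong_pow hJ1 hy p)
    obtain ⟨j, hj⟩ := key
    obtain ⟨N, M'', i, k, a0, a1, a2, a3, a4⟩ :=
      ih _ hlt M' (y ^ p ^ j) rfl hM' hj (fix_pow hyO hf' j)
    refine ⟨M₁ * N, M'', j + i, k + 1, by rw [a0, Matrix.mul_assoc], ?_, a2, a3,
      by rwa [← pow_mul, ← pow_add] at a4⟩
    rw [Matrix.det_mul, hd1, a1, pow_succ']

end Loc2Aux

open LocAux Loc2Aux in
theorem loc2_of (h1 : MAT) (h2 : CAN1) (h3 : CAN2) (h4 : PI) (h6 : INTJ2) (h7 : VLS) :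
    LOC2 := by
  intro d hd0 hsq O a b hab hvab p hp hv M y f hM hf hy hf'
  have hw : ∀ M : M2, 0 < M.det → JJ (act M (om d)) ∈ O :=
    fun M hM => (h7.int _).1 (h6 d M hd0 hsq hM).2 O
  obtain ⟨N, M', i, k, a0, a4, a1, a2, a3⟩ := descend2 h1 h2 hw hp hv hf _ M y rfl hM hy hf'
  obtain ⟨-, b2⟩ := (h4 d hd0 hsq O a b hab hvab).2 p hp hv
  obtain ⟨x, z, h, hh, hn, hu⟩ := b2 M'.det a2
  have hp0 : (0 : ℤ) < p := by exact_mod_cast hp.pos
  have hxz : x ≠ 0 ∨ z ≠ 0 := by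
    by_contra hc
    push Not at hc
    rw [hc.1, hc.2] at hn
    have := pow_pos hp0 h
    rw [← hn] at this
    simp at this
  obtain ⟨Q, -, q2, q3, q4⟩ := h1.cm d M' x z hd0 a1 hxz
  have hyO : y ∈ O := mem_of_cong (hw _ hM) hy
  obtain ⟨Λ, l1, l2, l3, -⟩ := h3 O p hp hv (act M' (om d)) Q h f hh (q2.trans hn) q3
    (by rw [q4]; exact hu)
    (fun N hN => by
      rw [← act_mul hN a1]
      exact (h6 d _ hd0 hsq (det_mul_pos hN a1)).2)
    (cong_trans (cong_trans (cong_pow (hw _ a1) a3 _) (fix_pow hyO hf' i)) (cong_symm a3))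
  exact ⟨N, M', Λ, i, k, a0, a4, a1, a2, a3, l1, l2, den_ne_int hp hv hf l1 l2 l3⟩

end Pool.Agent.MP_c481b3_nt.H31F
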