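import Pool.Agent.MP_c481b3_nt.H31F.Spec

set_option autoImplicit false

namespace Pool.Agent.MP_c481b3_nt.H31F

open Finset

namespace LpAux

/-- Kloosterman sums cannot vanish on a whole quadratic class -/
lemma klo {F k : Type} [Field F] [Fintype F] [DecidableEq F] [Field k] {ψ : AddChar F k}
    (hψ : ψ.IsPrimitive) (h2 : (2 : k) ≠ 0) (hq : (Fintype.card F : k) ≠ 0) {α γ : F}
    (hα : α ≠ 0) (hγ : γ ≠ 0)
    (h : ∀ c : F, c ≠ 0 → ∑ i ∈ univ.erase 0, ψ (-(α * i⁻¹) - i * (γ * c ^ 2)) = 0) : False := by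
  set t : F → F := fun j => -(α * j⁻¹) - j * γ with ht
  have h1 : ∀ c : F, c ≠ 0 → ∑ j ∈ univ.erase 0, ψ (c * t j) = 0 := by
    intro c hc
    rw [← h c hc]
    refine Finset.sum_nbij' (fun j => j * c⁻¹) (fun i => i * c) ?_ ?_ ?_ ?_ ?_
    · intro j hj
      simp only [mem_erase, mem_univ, and_true] at hj ⊢
      exact mul_ne_zero hj (inv_ne_zero hc)
    · intro j hj
      simp only [mem_erase, mem_univ, and_true] at hj ⊢
      exact mul_ne_zero hj hc
    · intro j _
      field_simp
    · intro j _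
      field_simp
    · intro j hj
      simp only [mem_erase, mem_univ, and_true] at hj
      congr 1
      simp only [ht]
      field_simp
  have key : ∀ a : F, (Fintype.card F : k) * (((univ.erase 0).filter fun j => t j = a).card : k)
      = ((univ.erase (0 : F)).card : k) := by
    intro a
    have e1 : ∑ c : F, ∑ j ∈ univ.erase 0, ψ (c * (t j - a)) = ((univ.erase (0 : F)).card : k) := by
      rw [Finset.sum_eq_single 0]
      · simp
      · intro c _ hc
        have : ∀ j, ψ (c * (t j - a)) = ψ (c * t j) * ψ (-(c * a)) := by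
          intro j
          rw [← AddChar.map_add_eq_mul]
          congr 1
          ring
        simp only [this]
        rw [← Finset.sum_mul, h1 c hc, zero_mul]
      · simp
    rw [← e1, Finset.sum_comm]
    simp only [AddChar.sum_mulShift _ hψ, sub_eq_zero]
    rw [Finset.card_filter]
    push_cast
    rw [Finset.mul_sum]
    refine Finset.sum_congr rfl fun j _ => ?_
    split_ifs <;> simp
  obtain ⟨a, ha⟩ : ∃ a : F, a ∉ (univ.erase 0).image t := by
    by_contra hc
    push Not at hc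
    have e : (univ.erase 0).image t = univ := Finset.eq_univ_of_forall hc
    have l1 := Finset.card_image_le (s := univ.erase (0 : F)) (f := t)
    rw [e] at l1
    have l2 := Finset.card_erase_lt_of_mem (Finset.mem_univ (0 : F))
    omega
  have z : ((univ.erase (0 : F)).card : k) = 0 := by
    rw [← key a, Finset.filter_eq_empty_iff.2, Finset.card_empty, Nat.cast_zero, mul_zero]
    intro j hj e
    exact ha (Finset.mem_image.2 ⟨j, hj, e⟩)
  have k1 := key (t 1)
  rw [z] at k1
  have e : (univ.erase 0).filter (fun j => t j = t 1) = {1, α * γ⁻¹} := by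
    ext j
    simp only [mem_filter, mem_erase, mem_univ, and_true, mem_insert, mem_singleton, ht]
    constructor
    · rintro ⟨hj, e⟩
      have : (j - 1) * (j * γ - α) = 0 := by
        field_simp at e
        linear_combination -e
      rcases mul_eq_zero.1 this with h' | h'
      · exact Or.inl (sub_eq_zero.1 h')
      · right
        rw [← sub_eq_zero.1 h']
        field_simp
    · rintro (rfl | rfl)
      · exact ⟨one_ne_zero, rfl⟩
      · refine ⟨mul_ne_zero hα (inv_ne_zero hγ), ?_⟩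
        field_simp
        ring
  rw [e] at k1
  have k2 := (mul_eq_zero.1 k1).resolve_left hq
  by_cases hh : (1 : F) = α * γ⁻¹
  · rw [← hh] at k2
    simp at k2
  · rw [Finset.card_pair hh] at k2
    exact h2 (by exact_mod_cast k2)

lemma sum_range_mul {k : Type} [Field k] (p : ℕ) [NeZero p] (f : ZMod p → k) (N : ℕ) :
    ∑ b ∈ range (p * N), f (b : ZMod p) = N * ∑ i : ZMod p, f i := by
  induction N with
  | zero => simp
  | succ N ih =>
    rw [Nat.mul_succ, Finset.sum_range_add, ih]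
    have : ∑ x ∈ range p, f ((p * N + x : ℕ) : ZMod p) = ∑ i : ZMod p, f i := by
      refine Finset.sum_nbij' (fun x => (x : ZMod p)) ZMod.val ?_ ?_ ?_ ?_ ?_
      · simp
      · intro a _
        simpa using ZMod.val_lt a
      · intro x hx
        exact ZMod.val_natCast_of_lt (by simpa using hx)
      · intro a _
        simp
      · intro x _
        simp
    rw [this]
    push_cast
    ring

lemma crt {p N : ℕ} [Fact p.Prime] (hN : ¬p ∣ N) (x : ℤ) (y : ZMod p) :
    ∃ z : ℤ, (N : ℤ) ∣ z - x ∧ (z : ZMod p) = y := by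
  have h0 : (N : ZMod p) ≠ 0 := fun e => hN ((ZMod.natCast_eq_zero_iff N p).1 e)
  refine ⟨x + N * (((y - x) * (N : ZMod p)⁻¹).val : ℤ), ⟨_, add_sub_cancel_left _ _⟩, ?_⟩
  push_cast
  rw [ZMod.natCast_zmod_val]
  field_simp
  ring

lemma exists_char {k : Type} [Field k] {p N : ℕ} [Fact p.Prime] (h0 : 0 < N) (hN : ¬p ∣ N)
    {ζ : kˣ} (hζ : IsPrimitiveRoot ζ (p * N)) :
    ∃ ψ : AddChar (ZMod p) k, ψ.IsPrimitive ∧
      ∀ e : ℤ, (N : ℤ) ∣ e → ((ζ ^ e : kˣ) : k) = ψ (e : ZMod p) := by
  have hp : p.Prime := Fact.out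
  have hN0 : (N : ZMod p) ≠ 0 := fun e => hN ((ZMod.natCast_eq_zero_iff N p).1 e)
  have h1 : IsPrimitiveRoot (ζ ^ N) p :=
    hζ.pow (Nat.mul_pos hp.pos h0) (mul_comm p N)
  have h2 : IsPrimitiveRoot ((ζ ^ N : kˣ) : k) p := IsPrimitiveRoot.coe_units_iff.2 h1
  have h3 := AddChar.zmodChar_primitive_of_primitive_root p h2
  refine ⟨_, AddChar.IsPrimitive.of_ne_one (h3 (inv_ne_zero hN0)), ?_⟩
  rintro e ⟨e, rfl⟩
  rw [AddChar.mulShift_apply, AddChar.zmodChar_apply]
  have : (N : ZMod p)⁻¹ * (((N : ℤ) * e : ℤ) : ZMod p) = (e : ZMod p) := by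
    push_cast
    field_simp
  rw [this, zpow_mul, zpow_natCast, ← Units.val_pow_eq_pow_val, ← zpow_natCast (ζ ^ N),
    ZMod.val_intCast, ← zpow_eq_zpow_emod' e h1.pow_eq_one]

lemma geom {k : Type} [Field k] {M : ℕ} {ζ : kˣ} (hζ : IsPrimitiveRoot ζ M) {e : ℤ}
    (he : ¬(M : ℤ) ∣ e) : ∑ b ∈ range M, ((ζ ^ ((b : ℤ) * e) : kˣ) : k) = 0 := by
  have h1 : ((ζ ^ e : kˣ) : k) ≠ 1 := fun h =>
    he ((hζ.zpow_eq_one_iff_dvd e).1 (Units.val_eq_one.1 h))
  have h2 : ∀ b : ℕ, ((ζ ^ ((b : ℤ) * e) : kˣ) : k) = ((ζ ^ e : kˣ) : k) ^ b := by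
    intro b
    rw [mul_comm, zpow_mul, zpow_natCast, Units.val_pow_eq_pow_val]
  simp only [h2]
  have h3 := mul_geom_sum ((ζ ^ e : kˣ) : k) M
  rw [← h2, mul_comm (M : ℤ) e, zpow_mul, ← zpow_mul, mul_comm e, zpow_mul, zpow_natCast,
    hζ.pow_eq_one, one_zpow, Units.val_one, sub_self] at h3
  exact (mul_eq_zero.1 h3).resolve_left (sub_ne_zero.2 h1)

end LpAux

open LpAux in
theorem lp : LP := by
  intro k _ hSG g hg p N hp hp2 hN0 hN hk S hS1 hS2 η hη hz
  have : Fact p.Prime := ⟨hp⟩
  have hk' : (2 : k) * p * N ≠ 0 := by exact_mod_cast hk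
  have h2 : (2 : k) ≠ 0 := fun e => hk' (by simp [e])
  have hpk : (p : k) ≠ 0 := fun e => hk' (by simp [e])
  have hNk : (N : k) ≠ 0 := fun e => hk' (by simp [e])
  obtain ⟨ζ, hζ, H⟩ := hSG g hg p N hp hp2 hN0 hN (by push_cast; exact mul_ne_zero hpk hNk)
  obtain ⟨ψ, hψ, hψζ⟩ := exists_char hN0 hN hζ
  have hchar : ringChar (ZMod p) ≠ 2 := by rwa [ZMod.ringChar_zmod_n]
  have h4 : (4 : ZMod p) ≠ 0 := by
    have := Ring.two_ne_zero hchar
    intro e
    exact this (pow_eq_zero_iff (two_ne_zero) |>.1 (by rw [← e]; norm_num))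
  choose st hst1 hst2 using fun b : ℕ => crt (p := p) hN (b : ℤ) (-(4 * (b : ZMod p))⁻¹)
  have hst : ∀ b : ℕ, ¬p ∣ b → (N : ℤ) ∣ st b - b ∧ (p : ℤ) ∣ 4 * b * st b + 1 := by
    intro b hb
    have hb0 : (b : ZMod p) ≠ 0 := fun e => hb ((ZMod.natCast_eq_zero_iff b p).1 e)
    refine ⟨hst1 b, (ZMod.intCast_zmod_eq_zero_iff_dvd _ p).1 ?_⟩
    push_cast
    rw [hst2]
    field_simp
    ring
  have hJ : ∀ n : ℤ, jacobiSym n p = quadraticChar (ZMod p) (n : ZMod p) := fun n => by
    rw [← jacobiSym.legendreSym.to_jacobiSym]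
    rfl
  have main : ∀ n ∈ S, ∀ a : ZMod p, quadraticChar (ZMod p) a = η →
      (∑ i ∈ univ.erase 0, ψ (-((n : ZMod p) * 4⁻¹ * i⁻¹) - i * a)) * g.coeff n
        + p ^ 2 * (if (p : ℤ) ^ 2 ∣ n then g.coeff (n / p ^ 2) else 0) = 0 := by
    intro n hn a ha
    obtain ⟨n₀, e1, e2⟩ := crt (p := p) hN n a
    have hm : ∀ (b : ℕ) (e : ℤ), ((ζ ^ (-((b : ℤ) * n₀)) : kˣ) : k) * ((ζ ^ e : kˣ) : k)
        = ((ζ ^ (e - b * n₀) : kˣ) : k) := by
      intro b e
      rw [← Units.val_mul, ← zpow_add]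
      congr 2
      ring
    have := H (fun b => ((ζ ^ (-((b : ℤ) * n₀)) : kˣ) : k)) st hst (by
      intro m
      simp only [hm, ← mul_sub]
      by_cases hd : ((p * N : ℕ) : ℤ) ∣ m - n₀
      · push_cast at hd
        have d1 : (N : ℤ) ∣ m - n := by
          have := (Dvd.intro_left _ rfl : (N : ℤ) ∣ p * N).trans hd
          simpa using dvd_add this e1
        have d2 : (m : ZMod p) = a := by
          have := (ZMod.intCast_zmod_eq_zero_iff_dvd _ p).2
            ((Dvd.intro _ rfl : (p : ℤ) ∣ p * N).trans hd)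
          push_cast at this
          rw [← e2]
          exact sub_eq_zero.1 this
        rw [hz m (hS1 n m (Int.modEq_iff_dvd.2 d1) hn) (by rw [hJ, d2, ha]), mul_zero]
      · rw [geom hζ hd, zero_mul]) n
    simp only [hm] at this
    have s1 : ∑ b ∈ range (p * N) with ¬p ∣ b, ((ζ ^ (st b * n - b * n₀) : kˣ) : k)
        = N * ∑ i ∈ univ.erase 0, ψ (-((n : ZMod p) * 4⁻¹ * i⁻¹) - i * a) := by
      rw [Finset.sum_filter, ← Finset.filter_ne' univ (0 : ZMod p), Finset.sum_filter,
        ← sum_range_mul]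
      refine Finset.sum_congr rfl fun b _ => ?_
      simp only [ne_eq, ZMod.natCast_eq_zero_iff]
      split_ifs with hb
      · rfl
      · rw [hψζ]
        · congr 1
          push_cast
          rw [hst2, e2, mul_inv]
          ring
        · have := dvd_sub (dvd_mul_of_dvd_left (hst1 b) n) (dvd_mul_of_dvd_right e1 b)
          rwa [show (st b - b) * n - b * (n₀ - n) = st b * n - b * n₀ by ring] at this
    have s2 : ∑ b ∈ range (p * N) with p ∣ b, ((ζ ^ (b * n - b * n₀) : kˣ) : k) = N := by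
      have := sum_range_mul p (fun i : ZMod p => if i = 0 then (1 : k) else 0) N
      rw [Finset.sum_ite_eq', if_pos (mem_univ _), mul_one] at this
      rw [Finset.sum_filter, ← this]
      refine Finset.sum_congr rfl fun b _ => ?_
      simp only [ZMod.natCast_eq_zero_iff]
      split_ifs with hb
      · rw [hψζ]
        · push_cast
          rw [(ZMod.natCast_eq_zero_iff b p).2 hb]
          simp
        · have := dvd_neg.2 (dvd_mul_of_dvd_right e1 b)
          rwa [show -(b * (n₀ - n)) = b * n - b * n₀ by ring] at this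
      · rfl
    rw [s1, s2] at this
    refine mul_left_cancel₀ hNk ?_
    linear_combination this
  obtain ⟨γ, hγ⟩ : ∃ γ : ZMod p, quadraticChar (ZMod p) γ = η := by
    rcases hη with rfl | rfl
    · exact ⟨1, map_one _⟩
    · exact quadraticChar_exists_neg_one hchar
  have hγ0 : γ ≠ 0 := by
    rintro rfl
    rw [MulChar.map_zero] at hγ
    omega
  intro n
  induction hn : n.natAbs using Nat.strong_induction_on generalizing n with
  | _ r ih =>
    intro hnS hn0
    by_cases hd : (p : ℤ) ∣ n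
    · have := main n hnS γ hγ
      rw [(ZMod.intCast_zmod_eq_zero_iff_dvd _ p).2 hd] at this
      have e : ∑ i ∈ univ.erase (0 : ZMod p), ψ (-(0 * 4⁻¹ * i⁻¹) - i * γ) = -1 := by
        have e1 := AddChar.sum_mulShift (-γ) hψ
        rw [if_neg (neg_ne_zero.2 hγ0), ← Finset.add_sum_erase _ _ (mem_univ 0)] at e1
        simp only [zero_mul, AddChar.map_zero_eq_one, Nat.cast_zero, mul_neg, neg_zero] at e1
        simp only [zero_mul, neg_zero, zero_sub]
        linear_combination e1
      rw [e] at this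
      split_ifs at this with hq
      · obtain ⟨m, rfl⟩ := hq
        have hp0 : (p : ℤ) ^ 2 ≠ 0 := pow_ne_zero _ (by exact_mod_cast hp.ne_zero)
        have hm0 : m ≠ 0 := fun e => hn0 (by simp [e])
        rw [Int.mul_ediv_cancel_left _ hp0, ih m.natAbs ?_ m rfl (hS2 m hnS) hm0] at this
        · linear_combination -this
        · rw [← hn, Int.natAbs_mul, Int.natAbs_pow, Int.natAbs_natCast]
          have := Int.natAbs_pos.2 hm0
          exact lt_mul_of_one_lt_left this (Nat.one_lt_pow two_ne_zero hp.one_lt)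
      · linear_combination -this
    · by_contra hg0
      have hn1 : (n : ZMod p) ≠ 0 := fun e => hd ((ZMod.intCast_zmod_eq_zero_iff_dvd _ p).1 e)
      refine klo hψ h2 (by rwa [ZMod.card]) (mul_ne_zero hn1 (inv_ne_zero h4)) hγ0 fun c hc => ?_
      have := main n hnS (γ * c ^ 2) (by rw [map_mul, quadraticChar_sq_one' hc, mul_one, hγ])
      rw [if_neg fun hq => hd ((dvd_pow_self _ two_ne_zero).trans hq), mul_zero, add_zero] at this
      exact (mul_eq_zero.1 this).resolve_right hg0
end Pool.Agent.MP_c481b3_nt.H31F
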