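import Pool.Agent.MP_c481b3_nt.H31F.Spec

set_option autoImplicit false

namespace Pool.Agent.MP_c481b3_nt.H31F

open UpperHalfPlane

namespace NorAux

lemma inert {d r : ℕ} (hr : r.Prime) (h : ¬IsSquare (-(d : ZMod r))) (x y : ℤ)
    (e : (r : ℤ) ∣ x ^ 2 + tt d * x * y + nn d * y ^ 2) : (r : ℤ) ∣ x ∧ (r : ℤ) ∣ y := by
  have := Fact.mk hr
  have h1 : jacobiSym (-d) r = -1 := ZMod.nonsquare_iff_jacobiSym_eq_neg_one.2 (by simpa using h)
  rw [tt, nn] at e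
  split_ifs at e with k
  · obtain ⟨m, hm⟩ : ∃ m : ℤ, (d : ℤ) = 4 * m - 1 := ⟨(d + 1) / 4, by omega⟩
    rw [show ((d : ℤ) + 1) / 4 = m by omega] at e
    have h2 := (jacobiSym.prime_dvd_of_eq_neg_one h1 (x := 2 * x + y) (y := y) (by
      rw [show (2 * x + y) ^ 2 - -(d : ℤ) * y ^ 2 = 4 * (x ^ 2 + 1 * x * y + m * y ^ 2) by
        rw [hm]
        ring]
      exact e.mul_left 4)).2
    refine ⟨(Nat.prime_iff_prime_int.1 hr).dvd_of_dvd_pow (n := 2) ?_, h2⟩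
    rw [show x ^ 2 = x ^ 2 + 1 * x * y + m * y ^ 2 - (x + m * y) * y by ring]
    exact e.sub (h2.mul_left _)
  · exact jacobiSym.prime_dvd_of_eq_neg_one h1 (by simpa using e)

lemma disc_pos {d : ℕ} (hd : 0 < d) : 0 < 4 * nn d - tt d ^ 2 := by
  rw [tt, nn]
  split_ifs <;> omega

lemma descent {r t n γ β μ : ℤ} (hr : Prime r)
    (h : ∀ x y : ℤ, r ∣ x ^ 2 + t * x * y + n * y ^ 2 → r ∣ x ∧ r ∣ y) (k : ℕ) :
    ∀ a b c e : ℤ, r ^ (2 * k + 1) ∣ a * e - b * c → ¬r ^ (2 * k + 2) ∣ a * e - b * c →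
      γ * (2 * e * b + t * (e * a + b * c) + 2 * n * a * c) = μ * (e ^ 2 + t * e * c + n * c ^ 2) →
      γ * (b ^ 2 + t * b * a + n * a ^ 2) = -β * (e ^ 2 + t * e * c + n * c ^ 2) →
      μ * (b ^ 2 + t * b * a + n * a ^ 2) =
        -β * (2 * e * b + t * (e * a + b * c) + 2 * n * a * c) →
      r ^ 2 ∣ μ ^ 2 + 4 * β * γ := by
  induction k using Nat.strong_induction_on with
  | _ k ih =>
  intro a b c e h1 h2 h3 h4 h5
  have h6 : r ^ 2 ∣ (a * e - b * c) ^ 2 :=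
    pow_dvd_pow_of_dvd ((dvd_pow_self r (by omega)).trans h1) 2
  by_cases hA : r ∣ e ^ 2 + t * e * c + n * c ^ 2
  swap
  · refine (IsCoprime.pow (m := 2) (n := 2)
      (hr.irreducible.coprime_iff_not_dvd.2 hA)).dvd_of_dvd_mul_left
      ((h6.mul_left (γ ^ 2 * (t ^ 2 - 4 * n))).trans (dvd_of_eq ?_))
    linear_combination ((γ * (2 * e * b + t * (e * a + b * c) + 2 * n * a * c) +
      μ * (e ^ 2 + t * e * c + n * c ^ 2))) * h3 - 4 * γ * (e ^ 2 + t * e * c + n * c ^ 2) * h4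
  by_cases hC : r ∣ b ^ 2 + t * b * a + n * a ^ 2
  swap
  · refine (IsCoprime.pow (m := 2) (n := 2)
      (hr.irreducible.coprime_iff_not_dvd.2 hC)).dvd_of_dvd_mul_left
      ((h6.mul_left (β ^ 2 * (t ^ 2 - 4 * n))).trans (dvd_of_eq ?_))
    linear_combination -(μ * (b ^ 2 + t * b * a + n * a ^ 2) -
      β * (2 * e * b + t * (e * a + b * c) + 2 * n * a * c)) * h5 -
      4 * β * (b ^ 2 + t * b * a + n * a ^ 2) * h4
  obtain ⟨⟨e, rfl⟩, c, rfl⟩ := h _ _ hA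
  obtain ⟨⟨b, rfl⟩, a, rfl⟩ := h _ _ hC
  have r2 : r ^ 2 ≠ 0 := pow_ne_zero 2 hr.ne_zero
  rw [show r * a * (r * e) - r * b * (r * c) = r ^ 2 * (a * e - b * c) by ring] at h1 h2
  rcases k with _ | k
  · exact (h2 (dvd_mul_right _ _)).elim
  refine ih k (by omega) a b c e ((mul_dvd_mul_iff_left r2).1 (by rwa [← pow_add, add_comm]))
    (fun x => h2 (by
      rw [show 2 * (k + 1) + 2 = 2 + (2 * k + 2) by ring, pow_add]
      exact mul_dvd_mul_left _ x)) (mul_left_cancel₀ r2 ?_) (mul_left_cancel₀ r2 ?_)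
    (mul_left_cancel₀ r2 ?_)
  · linear_combination h3
  · linear_combination h4
  · linear_combination h5

lemma lin {τ : ℍ} {x y : ℤ} (h : (x : ℂ) * τ + y = 0) : x = 0 ∧ y = 0 := by
  have h1 : x = 0 := by simpa [τ.im_pos.ne'] using congrArg Complex.im h
  exact ⟨h1, by simpa [h1] using h⟩

end NorAux

open NorAux in
theorem nor : NOR := by
  intro d r M Λ hd hM hΛ hr _ hn ⟨k, hk⟩ hf hx
  have := Fact.mk hr
  set τ := act M (om d) with hτ
  have e1 := (act_eq_self hΛ).1 hf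
  have e2 : (τ : ℂ) * den M (om d) = M 0 0 * om d + M 0 1 := by
    rw [hτ, coe_act hM, div_mul_cancel₀ _ (den_ne hM _)]
  have e3 := om_sq hd
  have e4 := den_ne hM (om d)
  have g0 : Λ 1 0 ≠ 0 := fun e => hx (Λ 1 1) (by simp [den, e])
  rw [den] at e1 e2 e4
  rw [Matrix.det_fin_two] at hM hk ⊢
  set a := M 0 0
  set b := M 0 1
  set c := M 1 0
  set e := M 1 1
  set t := tt d
  set n := nn d
  have e5 : ((e ^ 2 + t * e * c + n * c ^ 2 : ℤ) : ℂ) * τ ^ 2 -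
      ((2 * e * b + t * (e * a + b * c) + 2 * n * a * c : ℤ) : ℂ) * τ +
      ((b ^ 2 + t * b * a + n * a ^ 2 : ℤ) : ℂ) = 0 := by
    refine mul_left_cancel₀ (pow_ne_zero 2 e4) ?_
    push_cast
    linear_combination ((e ^ 2 + t * e * c + n * c ^ 2) * (τ * (c * om d + e) + (a * om d + b)) -
      (2 * e * b + t * (e * a + b * c) + 2 * n * a * c) * (c * om d + e)) * e2 +
      (a * e - b * c) ^ 2 * e3
  obtain ⟨f1, f2⟩ := lin (τ := τ)
    (x := (Λ 0 0 - Λ 1 1) * (e ^ 2 + t * e * c + n * c ^ 2) -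
      Λ 1 0 * (2 * e * b + t * (e * a + b * c) + 2 * n * a * c))
    (y := Λ 1 0 * (b ^ 2 + t * b * a + n * a ^ 2) + Λ 0 1 * (e ^ 2 + t * e * c + n * c ^ 2)) (by
      push_cast at e5 ⊢
      linear_combination Λ 1 0 * e5 + (e ^ 2 + t * e * c + n * c ^ 2) * e1)
  have f3 : (Λ 0 0 - Λ 1 1) * (b ^ 2 + t * b * a + n * a ^ 2) =
      -Λ 0 1 * (2 * e * b + t * (e * a + b * c) + 2 * n * a * c) := mul_left_cancel₀ g0 (by
    linear_combination (Λ 0 0 - Λ 1 1) * f2 - Λ 0 1 * f1)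
  have f4 := descent (γ := Λ 1 0) (β := Λ 0 1) (μ := Λ 0 0 - Λ 1 1) (Nat.prime_iff_prime_int.1 hr)
    (inert hr hn) k a b c e (hk ▸ padicValInt_dvd _) (fun x => by
      have := (padicValInt_dvd_iff _ _).1 x
      omega) (by linear_combination -f1) (by linear_combination f2) f3
  have f5 : (e ^ 2 + t * e * c + n * c ^ 2) ^ 2 * -((Λ 0 0 - Λ 1 1) ^ 2 + 4 * Λ 0 1 * Λ 1 0) =
      Λ 1 0 ^ 2 * (4 * n - t ^ 2) * (a * e - b * c) ^ 2 := by
    linear_combination (-(Λ 1 0 * (2 * e * b + t * (e * a + b * c) + 2 * n * a * c) +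
      (Λ 0 0 - Λ 1 1) * (e ^ 2 + t * e * c + n * c ^ 2))) * f1 -
      4 * Λ 1 0 * (e ^ 2 + t * e * c + n * c ^ 2) * f2
  have f6 : 0 < -((Λ 0 0 - Λ 1 1) ^ 2 + 4 * Λ 0 1 * Λ 1 0) := by
    refine pos_of_mul_pos_right (f5 ▸ mul_pos (mul_pos ?_ (disc_pos hd)) ?_) (sq_nonneg _) <;>
    positivity
  have := Int.le_of_dvd f6 f4.neg_right
  nlinarith [sq_nonneg (Λ 0 0 + Λ 1 1)]

end Pool.Agent.MP_c481b3_nt.H31F
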