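import Pool.Agent.MP_c481b3_nt.H31F.Spec2
import Pool.Agent.MP_c481b3_nt.H31F.Nor

set_option autoImplicit false

namespace Pool.Agent.MP_c481b3_nt.H31F

open UpperHalfPlane

namespace Nor2Aux

lemma step {r t n γ β μ : ℤ} (hr : Prime r)
    (h : ∀ x y : ℤ, r ∣ x ^ 2 + t * x * y + n * y ^ 2 → r ∣ x ∧ r ∣ y) {a b c e : ℤ}
    (h1 : r ∣ a * e - b * c) (h2 : ¬(r ∣ a ∧ r ∣ b ∧ r ∣ c ∧ r ∣ e))
    (h3 : γ * (2 * e * b + t * (e * a + b * c) + 2 * n * a * c) =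
      μ * (e ^ 2 + t * e * c + n * c ^ 2))
    (h4 : γ * (b ^ 2 + t * b * a + n * a ^ 2) = -β * (e ^ 2 + t * e * c + n * c ^ 2))
    (h5 : μ * (b ^ 2 + t * b * a + n * a ^ 2) =
      -β * (2 * e * b + t * (e * a + b * c) + 2 * n * a * c)) :
    r ^ 2 ∣ μ ^ 2 + 4 * β * γ := by
  have h6 : r ^ 2 ∣ (a * e - b * c) ^ 2 := pow_dvd_pow_of_dvd h1 2
  by_cases hA : r ∣ e ^ 2 + t * e * c + n * c ^ 2
  swap
  · refine (IsCoprime.pow (m := 2) (n := 2)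
      (hr.irreducible.coprime_iff_not_dvd.2 hA)).dvd_of_dvd_mul_left
      ((h6.mul_left (γ ^ 2 * (t ^ 2 - 4 * n))).trans (dvd_of_eq ?_))
    linear_combination ((γ * (2 * e * b + t * (e * a + b * c) + 2 * n * a * c) +
      μ * (e ^ 2 + t * e * c + n * c ^ 2))) * h3 - 4 * γ * (e ^ 2 + t * e * c + n * c ^ 2) * h4
  by_cases hC : r ∣ b ^ 2 + t * b * a + n * a ^ 2
  swap
  · refine (IsCoprime.pow (m := 2) (n := 2)
      (hr.irreducible.coprime_iff_not_dvd.2 hC)).dvd_of_dvd_mul_left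
      ((h6.mul_left (β ^ 2 * (t ^ 2 - 4 * n))).trans (dvd_of_eq ?_))
    linear_combination -(μ * (b ^ 2 + t * b * a + n * a ^ 2) -
      β * (2 * e * b + t * (e * a + b * c) + 2 * n * a * c)) * h5 -
      4 * β * (b ^ 2 + t * b * a + n * a ^ 2) * h4
  exact (h2 ⟨(h _ _ hC).2, (h _ _ hC).1, (h _ _ hA).2, (h _ _ hA).1⟩).elim

end Nor2Aux

open NorAux Nor2Aux in
theorem nor2 : NOR2 := by
  intro d r M Λ hd hM hΛ hr _ hn hk hD hf
  have := Fact.mk hr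
  set τ := act M (om d) with hτ
  have e1 := (act_eq_self hΛ).1 hf
  have e2 : (τ : ℂ) * den M (om d) = M 0 0 * om d + M 0 1 := by
    rw [hτ, coe_act hM, div_mul_cancel₀ _ (den_ne hM _)]
  have e3 := om_sq hd
  have e4 := den_ne hM (om d)
  have e0 : 4 * Λ.det - Λ.trace ^ 2 = -((Λ 0 0 - Λ 1 1) ^ 2 + 4 * Λ 0 1 * Λ 1 0) := by
    rw [Matrix.det_fin_two, Matrix.trace_fin_two]; ring
  rw [e0]
  by_cases g0 : Λ 1 0 = 0
  · refine ⟨?_, fun hx => (hx (Λ 1 1) (by simp [den, g0])).elim⟩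
    obtain ⟨f1, -⟩ := lin (τ := τ) (x := Λ 0 0 - Λ 1 1) (y := Λ 0 1) (by
      rw [den, g0] at e1
      push_cast at e1 ⊢
      linear_combination e1)
    simp [f1, g0]
  have hD' : ¬((r : ℤ) ∣ M 0 0 ∧ (r : ℤ) ∣ M 0 1 ∧ (r : ℤ) ∣ M 1 0 ∧ (r : ℤ) ∣ M 1 1) := by
    rintro ⟨k1, k2, k3, k4⟩
    refine hD fun i j => ?_
    fin_cases i <;> fin_cases j <;> assumption
  rw [den] at e1 e2 e4
  rw [Matrix.det_fin_two] at hM hk
  set a := M 0 0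
  set b := M 0 1
  set c := M 1 0
  set e := M 1 1
  set t := tt d
  set n := nn d
  have e5 : ((e ^ 2 + t * e * c + n * c ^ 2 : ℤ) : ℂ) * τ ^ 2 -
      ((2 * e * b + t * (e * a + b * c) + 2 * n * a * c : ℤ) : ℂ) * τ +
      ((b ^ 2 + t * b * a + n * a ^ 2 : ℤ) : ℂ) = 0 := by
    refine mul_left_cancel₀ (pow_ne_zero 2 e4) ?_
    push_cast
    linear_combination ((e ^ 2 + t * e * c + n * c ^ 2) * (τ * (c * om d + e) + (a * om d + b)) -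
      (2 * e * b + t * (e * a + b * c) + 2 * n * a * c) * (c * om d + e)) * e2 +
      (a * e - b * c) ^ 2 * e3
  obtain ⟨f1, f2⟩ := lin (τ := τ)
    (x := (Λ 0 0 - Λ 1 1) * (e ^ 2 + t * e * c + n * c ^ 2) -
      Λ 1 0 * (2 * e * b + t * (e * a + b * c) + 2 * n * a * c))
    (y := Λ 1 0 * (b ^ 2 + t * b * a + n * a ^ 2) + Λ 0 1 * (e ^ 2 + t * e * c + n * c ^ 2)) (by
      push_cast at e5 ⊢
      linear_combination Λ 1 0 * e5 + (e ^ 2 + t * e * c + n * c ^ 2) * e1)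
  have f3 : (Λ 0 0 - Λ 1 1) * (b ^ 2 + t * b * a + n * a ^ 2) =
      -Λ 0 1 * (2 * e * b + t * (e * a + b * c) + 2 * n * a * c) := mul_left_cancel₀ g0 (by
    linear_combination (Λ 0 0 - Λ 1 1) * f2 - Λ 0 1 * f1)
  have f4 := step (γ := Λ 1 0) (β := Λ 0 1) (μ := Λ 0 0 - Λ 1 1) (Nat.prime_iff_prime_int.1 hr)
    (inert hr hn) hk hD' (by linear_combination -f1) (by linear_combination f2) f3
  have f5 : (e ^ 2 + t * e * c + n * c ^ 2) ^ 2 * -((Λ 0 0 - Λ 1 1) ^ 2 + 4 * Λ 0 1 * Λ 1 0) =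
      Λ 1 0 ^ 2 * (4 * n - t ^ 2) * (a * e - b * c) ^ 2 := by
    linear_combination (-(Λ 1 0 * (2 * e * b + t * (e * a + b * c) + 2 * n * a * c) +
      (Λ 0 0 - Λ 1 1) * (e ^ 2 + t * e * c + n * c ^ 2))) * f1 -
      4 * Λ 1 0 * (e ^ 2 + t * e * c + n * c ^ 2) * f2
  refine ⟨f4.neg_right, fun _ => ?_⟩
  refine pos_of_mul_pos_right (f5 ▸ mul_pos (mul_pos ?_ (disc_pos hd)) ?_) (sq_nonneg _) <;>
  positivity

end Pool.Agent.MP_c481b3_nt.H31F
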