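import Pool.Agent.MP_c481b3_nt.H31F.Spec3
import Pool.Agent.MP_c481b3_nt.H31F.GlueA

set_option autoImplicit false

namespace Pool.Agent.MP_c481b3_nt.H31F

open UpperHalfPlane hiding I
open Polynomial
open scoped MatrixGroups

namespace Orb2Aux

lemma im_eq {γ : M2} (h : γ.det = 1) {τ : ℍ} (h1 : 1 < τ.im) (h2 : 1 < (act γ τ).im) :
    (act γ τ).im = τ.im := by
  have e : (act γ τ).im = τ.im / Complex.normSq (den γ τ) := by
    have a := act_SL ⟨γ, h⟩ τ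
    have b := den_SL ⟨γ, h⟩ τ
    simp only at a b
    rw [a, b]
    exact ModularGroup.im_smul_eq_div_normSq _ τ
  have n : Complex.normSq (den γ τ) = (γ 1 0 * τ.re + γ 1 1) ^ 2 + (γ 1 0 * τ.im) ^ 2 := by
    simp [den, Complex.normSq_apply]; ring
  by_cases c : γ 1 0 = 0
  · rw [Matrix.det_fin_two, c, mul_zero, sub_zero] at h
    rcases Int.eq_one_or_neg_one_of_mul_eq_one' h with k | k <;> rw [e, n, c, k.2] <;> simp
  · exfalso
    have c1 : (1 : ℝ) ≤ (γ 1 0 : ℝ) ^ 2 := by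
      exact_mod_cast (one_le_sq_iff_one_le_abs _).2 (Int.one_le_abs c)
    have p : τ.im ^ 2 ≤ Complex.normSq (den γ τ) := by
      rw [n, mul_pow]
      nlinarith [sq_nonneg (γ 1 0 * τ.re + γ 1 1 : ℝ), sq_nonneg τ.im]
    rw [e, lt_div_iff₀ (by nlinarith)] at h2
    nlinarith

lemma det_diag (n : ℕ) : (!![(n : ℤ), 0; 0, 1] : M2).det = n := by simp [Matrix.det_fin_two]

lemma im_diag {n : ℕ} (hn : 0 < n) (τ : ℍ) : (act !![(n : ℤ), 0; 0, 1] τ).im = n * τ.im := by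
  have := coe_act (M := !![(n : ℤ), 0; 0, 1]) (by rw [det_diag]; exact_mod_cast hn) τ
  rw [← coe_im, this]
  simp [den]

/-- the conjugates -/
noncomputable def Rt (x : ℂ) : Multiset ℂ := (minpoly ℚ x).aroots ℂ

variable {u : ℂ}

lemma mem_Rt (ui : IsIntegral ℚ u) {x : ℂ} : x ∈ Rt u ↔ aeval x (minpoly ℚ u) = 0 := by
  rw [Rt, mem_aroots]; exact and_iff_right (minpoly.ne_zero ui)

lemma self_Rt (ui : IsIntegral ℚ u) : u ∈ Rt u := (mem_Rt ui).2 (minpoly.aeval ℚ u)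

lemma nodup_Rt (ui : IsIntegral ℚ u) : (Rt u).Nodup :=
  nodup_roots ((minpoly.irreducible ui).separable.map)

lemma st_Rt (ui : IsIntegral ℚ u) (ρ : ℂ ≃+* ℂ) {x : ℂ} (hx : x ∈ Rt u) : ρ x ∈ Rt u := by
  rw [mem_Rt ui] at hx ⊢
  have := aeval_algHom_apply (ρ : ℂ →+* ℂ).toRatAlgHom x (minpoly ℚ u)
  rw [hx, map_zero] at this
  exact this

lemma gal_Rt (ui : IsIntegral ℚ u) (ρ : ℂ ≃+* ℂ) : (Rt u).map ρ = Rt u :=
  (Multiset.Nodup.ext ((nodup_Rt ui).map ρ.injective) (nodup_Rt ui)).2 fun x => ⟨fun h => by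
    obtain ⟨y, h1, rfl⟩ := Multiset.mem_map.1 h
    exact st_Rt ui ρ h1, fun h => Multiset.mem_map.2 ⟨ρ.symm x, st_Rt ui _ h, by simp⟩⟩

open Classical in
/-- the conjugates with a given sign -/
noncomputable def Fs (u w : ℂ) (κ : ℤ) : Multiset ℂ :=
  (Rt u).filter fun x => ∃ ρ : ℂ ≃+* ℂ, ρ w = κ * w ∧ ρ u = x

lemma mem_Fs (ui : IsIntegral ℚ u) {w x : ℂ} {κ : ℤ} :
    x ∈ Fs u w κ ↔ ∃ ρ : ℂ ≃+* ℂ, ρ w = κ * w ∧ ρ u = x := by
  classical
  rw [Fs, Multiset.mem_filter]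
  refine and_iff_right_of_imp ?_
  rintro ⟨ρ, -, rfl⟩
  exact st_Rt ui ρ (self_Rt ui)

lemma gal_Fs (ui : IsIntegral ℚ u) {w : ℂ} {η κ μ : ℤ} (hη : η * η = 1) (hμ : η * κ = μ)
    {σ : ℂ ≃+* ℂ} (h : σ w = η * w) : (Fs u w κ).map σ = Fs u w μ := by
  have nd : ∀ κ, (Fs u w κ).Nodup := fun κ => by
    classical
    unfold Fs
    exact (nodup_Rt ui).filter _
  have h2 : (η : ℂ) * η = 1 := by exact_mod_cast hη
  have h' : σ.symm w = η * w := by
    apply σ.injective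
    rw [RingEquiv.apply_symm_apply, map_mul, map_intCast, h, ← mul_assoc, h2, one_mul]
  subst hμ
  refine (Multiset.Nodup.ext ((nd κ).map σ.injective) (nd _)).2 fun x => ⟨fun k => ?_, fun k => ?_⟩
  · obtain ⟨y, h1, rfl⟩ := Multiset.mem_map.1 k
    obtain ⟨ρ, a, rfl⟩ := (mem_Fs ui).1 h1
    refine (mem_Fs ui).2 ⟨ρ.trans σ, ?_, rfl⟩
    rw [RingEquiv.trans_apply, a, map_mul, map_intCast, h]
    push_cast; ring
  · obtain ⟨ρ, a, rfl⟩ := (mem_Fs ui).1 k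
    refine Multiset.mem_map.2 ⟨σ.symm (ρ u), (mem_Fs ui).2 ⟨ρ.trans σ.symm, ?_, rfl⟩, by simp⟩
    rw [RingEquiv.trans_apply, a, map_mul, map_intCast, h']
    push_cast
    linear_combination (κ : ℂ) * w * h2

end Orb2Aux

open Orb2Aux

theorem inf_of (h : K4) : INF := by
  intro d _
  obtain ⟨N, hN⟩ := exists_nat_gt (om d).im⁻¹
  have p := (om d).im_pos
  have big : ∀ n : ℕ, 1 < (act !![((n + N + 1 : ℕ) : ℤ), 0; 0, 1] (om d)).im := fun n => by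
    rw [im_diag (by omega)]
    rw [inv_lt_iff_one_lt_mul₀ p] at hN
    push_cast
    nlinarith [(Nat.cast_nonneg n : (0 : ℝ) ≤ n)]
  refine Set.infinite_of_injective_forall_mem
    (f := fun n : ℕ => JJ (act !![((n + N + 1 : ℕ) : ℤ), 0; 0, 1] (om d))) (fun n m e => ?_)
    fun n => ⟨_, by rw [det_diag]; positivity, rfl⟩
  obtain ⟨γ, g1, g2⟩ := h _ _ e
  have := im_eq g1 (big n) (g2 ▸ big m)
  rw [g2, im_diag (by omega), im_diag (by omega)] at this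
  have := Nat.cast_injective (mul_right_cancel₀ p.ne' this)
  omega

theorem orb2_of (hA : AUT) (hI : INTJ2) (h : CMP3) (h' : INF) : ORB2 := by
  intro d D s hd hs hD e
  obtain ⟨M₀, m0, hM⟩ := h d D s hd hs hD e
  obtain ⟨w, hw⟩ : ∃ w, w = sq d * s := ⟨_, rfl⟩
  rw [← hw] at hM ⊢
  have w2 : w ^ 2 = ((-(d * D) : ℤ) : ℂ) := by
    rw [hw, mul_pow, sq_sq, e]; push_cast; ring
  have w0 : w ≠ 0 := fun z => by
    rw [z, zero_pow two_ne_zero] at w2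
    have : (-(d * D) : ℤ) = 0 := by exact_mod_cast w2.symm
    have : (0 : ℤ) < d := by exact_mod_cast hd
    nlinarith
  have int : ∀ M : M2, 0 < M.det → IsIntegral ℚ (YY (act M (om d)) ^ 2) := fun M k =>
    ((hI d M hd hs k).1.pow 2).tower_top
  have i0 := int M₀ m0
  by_cases c : ∃ ρ : ℂ ≃+* ℂ, ρ w = -w
  · obtain ⟨ρ₀, r0⟩ := c
    obtain ⟨u, hu⟩ : ∃ u, u = YY (act M₀ (om d)) ^ 2 := ⟨_, rfl⟩
    rw [← hu] at i0
    have sw : ∀ ρ : ℂ ≃+* ℂ, ρ w = -w → (Fs u w 1).map ρ = Fs u w (-1) ∧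
        (Fs u w (-1)).map ρ = Fs u w 1 := fun ρ k =>
      have k' : ρ w = ((-1 : ℤ) : ℂ) * w := by rw [k]; push_cast; ring
      ⟨gal_Fs i0 (by norm_num) (by norm_num) k', gal_Fs i0 (by norm_num) (by norm_num) k'⟩
    have fx : ∀ ρ : ℂ ≃+* ℂ, ρ w = w → (Fs u w 1).map ρ = Fs u w 1 ∧
        (Fs u w (-1)).map ρ = Fs u w (-1) := fun ρ k =>
      have k' : ρ w = ((1 : ℤ) : ℂ) * w := by rw [k]; push_cast; ring
      ⟨gal_Fs i0 (by norm_num) (by norm_num) k', gal_Fs i0 (by norm_num) (by norm_num) k'⟩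
    refine ⟨M₀.det.toNat, Fs u w 1, Fs u w (-1), fx,
      sw, by rw [← (sw ρ₀ r0).1, Multiset.card_map], fun E => ?_, fun x hx => ?_⟩
    · have : u ∈ Fs u w 1 := (mem_Fs i0).2 ⟨RingEquiv.refl ℂ, by simp, rfl⟩
      rw [E] at this
      obtain ⟨ρ, a, b⟩ := (mem_Fs i0).1 this
      have k := hM ρ (by rw [JJ, map_add, ← hu, b, map_ofNat])
      rw [k] at a
      apply w0
      push_cast at a
      linear_combination a / 2
    · rcases Multiset.mem_add.1 hx with k | k <;> obtain ⟨ρ, -, b⟩ := (mem_Fs i0).1 k <;>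
        exact ⟨ρ, M₀, m0, Int.self_le_toNat _, by rw [← hu, b]⟩
  · set u := YY (act M₀ (om d)) ^ 2 with hu
    obtain ⟨_, ⟨M₁, m1, rfl⟩, hn⟩ := (h' d hd).exists_notMem_finite
      (((Rt u).finite_toSet).image (· + 1728))
    have i1 := int M₁ m1
    set v := YY (act M₁ (om d)) ^ 2 with hv
    have nv : v ∉ Rt u := fun k => hn ⟨v, k, rfl⟩
    refine ⟨M₀.det.toNat + M₁.det.toNat, (Rt v).card • Rt u, (Rt u).card • Rt v, fun ρ _ => ?_,
      fun ρ k => absurd ⟨ρ, k⟩ c, ?_, fun E => ?_, fun x hx => ?_⟩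
    · rw [Multiset.map_nsmul, Multiset.map_nsmul, gal_Rt i0, gal_Rt i1]
      exact ⟨rfl, rfl⟩
    · rw [Multiset.card_nsmul, Multiset.card_nsmul, mul_comm]
    · have : v ∈ (Rt u).card • Rt v := (Multiset.mem_nsmul_of_ne_zero
        (Multiset.card_pos_iff_exists_mem.2 ⟨u, self_Rt i0⟩).ne').2 (self_Rt i1)
      rw [← E] at this
      exact nv (Multiset.mem_of_mem_nsmul this)
    · rcases Multiset.mem_add.1 hx with k | k
      · obtain ⟨ρ, b⟩ := hA.cj u x i0.isAlgebraic ((mem_Rt i0).1 (Multiset.mem_of_mem_nsmul k))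
        exact ⟨ρ, M₀, m0, by push_cast; omega, b.symm⟩
      · obtain ⟨ρ, b⟩ := hA.cj v x i1.isAlgebraic ((mem_Rt i1).1 (Multiset.mem_of_mem_nsmul k))
        exact ⟨ρ, M₁, m1, by push_cast; omega, b.symm⟩

end Pool.Agent.MP_c481b3_nt.H31F
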