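import Pool.Agent.MP_c481b3_nt.H31F.Spec

set_option autoImplicit false

namespace Pool.Agent.MP_c481b3_nt.H31F

open UpperHalfPlane hiding I
open Complex Polynomial IsLocalRing
open scoped Manifold MatrixGroups Real

namespace StabAux

/-! ## the group theory -/

lemma cong_iff {n : ℕ} {A B : M2} : Cong n A B ↔
    (Int.castRingHom (ZMod n)).mapMatrix A = (Int.castRingHom (ZMod n)).mapMatrix B := by
  rw [← Matrix.ext_iff]
  refine forall₂_congr fun i j => ?_
  rw [← ZMod.intCast_eq_intCast_iff_dvd_sub, eq_comm]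
  rfl

lemma exists_lift {p n : ℕ} [Fact p.Prime] (h : (n : ZMod p) ≠ 0) (t : ZMod p) :
    ∃ b : ℤ, (b : ZMod p) = t ∧ (b : ZMod n) = 0 := by
  obtain ⟨m, hm⟩ := ZMod.intCast_surjective (t / (n : ZMod p))
  refine ⟨n * m, ?_, by simp⟩
  push_cast
  rw [hm, mul_div_cancel₀ _ h]

lemma mat {F : Type} [Field F] {a b c d : F} (hc : c ≠ 0) (h : a * d - b * c = 1) :
    !![1, -1 - a / c; 0, 1] * !![a, b; c, d] * !![1, -1 / c ^ 2; 0, 1] * !![d, -b; -c, a] *
      !![1, a / c - 1; 0, 1] = !![0, -1; 1, 0] := by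
  obtain rfl : b = (a * d - 1) / c := by
    rw [eq_div_iff hc]
    linear_combination -h
  simp only [Matrix.mul_fin_two]
  congr <;> field_simp <;> ring

lemma group {p n : ℕ} [Fact p.Prime] (h : (n : ZMod p) ≠ 0) (D : Subgroup SL(2, ℤ))
    (hT : ModularGroup.T ∈ D) {g : SL(2, ℤ)} (hg : g ∈ D) (hc : ¬(p : ℤ) ∣ g.1 1 0) :
    ∃ γ ∈ D, Cong p γ.1 !![0, -1; 1, 0] ∧ Cong n γ.1 1 := by
  have hc' : ((g.1 1 0 : ℤ) : ZMod p) ≠ 0 := fun e =>
    hc ((ZMod.intCast_zmod_eq_zero_iff_dvd _ _).1 e)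
  obtain ⟨b1, h1, k1⟩ := exists_lift h (-1 - (g.1 0 0 : ℤ) / (g.1 1 0 : ℤ))
  obtain ⟨b2, h2, k2⟩ := exists_lift h (-1 / (g.1 1 0 : ℤ) ^ 2)
  obtain ⟨b3, h3, k3⟩ := exists_lift h ((g.1 0 0 : ℤ) / (g.1 1 0 : ℤ) - 1)
  have hT0 : ∀ (m : ℕ) (b : ℤ), (Int.castRingHom (ZMod m)).mapMatrix (ModularGroup.T ^ b).1 =
      !![1, (b : ZMod m); 0, 1] := fun m b => by
    rw [ModularGroup.coe_T_zpow]
    ext i j
    fin_cases i <;> fin_cases j <;> simp
  refine ⟨ModularGroup.T ^ b1 * g * ModularGroup.T ^ b2 * g⁻¹ * ModularGroup.T ^ b3,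
    mul_mem (mul_mem (mul_mem (mul_mem (zpow_mem hT _) hg) (zpow_mem hT _)) (inv_mem hg))
      (zpow_mem hT _), cong_iff.2 ?_, cong_iff.2 ?_⟩
  · have hd : ((g.1 0 0 : ℤ) : ZMod p) * (g.1 1 1 : ℤ) - (g.1 0 1 : ℤ) * (g.1 1 0 : ℤ) = 1 := by
      have := g.2
      rw [Matrix.det_fin_two] at this
      exact_mod_cast congrArg (Int.cast : ℤ → ZMod p) this
    have e1 : (Int.castRingHom (ZMod p)).mapMatrix g.1 = !![((g.1 0 0 : ℤ) : ZMod p),
        (g.1 0 1 : ℤ); (g.1 1 0 : ℤ), (g.1 1 1 : ℤ)] := by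
      ext i j
      fin_cases i <;> fin_cases j <;> rfl
    have e2 : (Int.castRingHom (ZMod p)).mapMatrix g⁻¹.1 = !![((g.1 1 1 : ℤ) : ZMod p),
        -(g.1 0 1 : ℤ); -(g.1 1 0 : ℤ), (g.1 0 0 : ℤ)] := by
      rw [Matrix.SpecialLinearGroup.coe_inv, Matrix.adjugate_fin_two]
      ext i j
      fin_cases i <;> fin_cases j <;> simp
    simp only [Matrix.SpecialLinearGroup.coe_mul, map_mul, hT0, h1, h2, h3, e1, e2]
    rw [mat hc' hd]
    ext i j
    fin_cases i <;> fin_cases j <;> simp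
  · simp only [Matrix.SpecialLinearGroup.coe_mul, map_mul, hT0, k1, k2, k3,
      ← Matrix.one_fin_two, one_mul, mul_one]
    rw [← map_mul, ← Matrix.SpecialLinearGroup.coe_mul, mul_inv_cancel]
    rfl

/-! ## the algebra -/

lemma int_closed {R L : Type} [CommRing R] [IsDomain R] [IsIntegrallyClosed R] [Field L]
    [Algebra R L] (hi : Function.Injective (algebraMap R L)) {w : L} (hw : IsIntegral R w)
    {a b : R} (hb : b ≠ 0) (h : algebraMap R L b * w = algebraMap R L a) :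
    ∃ c, algebraMap R L c = w := by
  let ψ : FractionRing R →ₐ[R] L := IsFractionRing.liftAlgHom (g := Algebra.ofId R L) hi
  have hz : ψ (algebraMap R _ a / algebraMap R _ b) = w := by
    rw [map_div₀, ψ.commutes, ψ.commutes, ← h,
      mul_div_cancel_left₀ _ ((map_ne_zero_iff _ hi).2 hb)]
  obtain ⟨c, hc⟩ := IsIntegrallyClosed.isIntegral_iff.1
    ((isIntegral_algHom_iff ψ ψ.injective).1 (hz ▸ hw))
  exact ⟨c, by rw [← hz, ← hc, ψ.commutes]⟩

lemma ru_zero : ru 0 = 1 := by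
  ext
  simp [ru]

lemma ru_zpow (r : ℚ) (n : ℤ) : ru r ^ n = ru (n * r) := by
  ext
  simp only [ru, Units.val_zpow_eq_zpow_val, Units.val_mk0]
  rw [← exp_int_mul]
  congr 1
  push_cast
  ring

lemma mapL_ex {R S : Type} [CommRing R] [CommRing S] {e : ℕ} (h : 0 < e) (φ : R →+* S)
    (F : LS R) : mapL φ (ex e F) = ex e (mapL φ F) := by
  rw [← sb_one, mapL_sb h, map_one, sb_one]

variable {O : ValuationSubring ℂ}

lemma red_zero_iff {F : LS ℂ} : Red O F 0 ↔ ∀ n, O.valuation (F.coeff n) < 1 := by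
  rw [red_iff]
  refine forall_congr' fun n => ⟨fun ⟨h, e⟩ => (O.valuation_lt_one_iff ⟨_, h⟩).1
    ((residue_eq_zero_iff _).1 e), fun h => ⟨(O.valuation_le_one_iff _).1 h.le,
      (residue_eq_zero_iff _).2 ((O.valuation_lt_one_iff _).2 h)⟩⟩

lemma red_ex {e : ℕ} (h : 0 < e) {F : LS ℂ} {G : LS (ResidueField O)} (hF : Red O F G) :
    Red O (ex e F) (ex e G) := by
  obtain ⟨H, rfl, rfl⟩ := hF
  exact ⟨ex e H, mapL_ex h _ _, mapL_ex h _ _⟩

lemma red_aeval {F : LS ℂ} {G : LS (ResidueField O)} (hF : Red O F G) {P : ℂ[X]}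
    (hP : ∀ n, P.coeff n ∈ O) : ∃ Q : (ResidueField O)[X], Red O (aeval F P) (aeval G Q) := by
  obtain ⟨H, rfl, rfl⟩ := hF
  obtain ⟨P', rfl⟩ : P ∈ lifts O.subtype := (lifts_iff_coeff_lifts P).2 fun n => ⟨⟨_, hP n⟩, rfl⟩
  exact ⟨_, aeval H P', mapL_aeval _ _ _, mapL_aeval _ _ _⟩

lemma top_ne (b : B2) {k : Type} [Field k] {e : ℕ} (h : 0 < e) {T : k[X]} (hT : T ≠ 0) :
    (aeval (ex e (Yc k)) T).coeff (e * -T.natDegree) ≠ 0 := by
  rw [← sb_one, ← sb_aeval h, sb_one, coeff_ex_mul h, (b.pol.top k T).1]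
  exact leadingCoeff_ne_zero.2 hT

lemma order_ex (b : B2) {k : Type} [Field k] {e : ℕ} (h : 0 < e) :
    ex e (Dc k) ≠ 0 ∧ (ex e (Dc k)).order = e := by
  have h1 : (ex e (Dc k)).coeff e ≠ 0 := by
    have := coeff_ex_mul h (Dc k) 1
    rw [mul_one] at this
    rw [this, Dc, coeff_mapL, b.y2.D1, map_one]
    exact one_ne_zero
  have h2 := HahnSeries.ne_zero_of_coeff_ne_zero h1
  refine ⟨h2, le_antisymm (HahnSeries.order_le_of_coeff_ne_zero h1) (not_lt.1 fun h3 => h2 ?_)⟩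
  rw [← HahnSeries.coeff_order_eq_zero, coeff_ex h]
  split_ifs
  · exact (congrArg _ (b.y2.D0 _ (Int.ediv_lt_of_lt_mul (by exact_mod_cast h)
      (by rwa [one_mul])))).trans (map_zero (Int.castRingHom k))
  · rfl

/-! ## the ring of modular functions -/

section ring

variable (b : B2) (O) {N : ℕ} (hN : 0 < N)

/-- the ring of functions in `Mem` -/
def Rg : Subring (ℍ → ℂ) where
  carrier := {f | Mem O N f}
  mul_mem' hf hg := ((b.mr O N hN).2.1 _ _ hf hg).2.2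
  one_mem' := (b.mr O N hN).1 1 O.one_mem
  add_mem' hf hg := ((b.mr O N hN).2.1 _ _ hf hg).1
  zero_mem' := (b.mr O N hN).1 0 O.zero_mem
  neg_mem' {f} hf := by
    have := ((b.mr O N hN).2.1 _ _ ((b.mr O N hN).1 0 O.zero_mem) hf).2.1
    simp only [zero_sub] at this
    exact this

/-- the action of the modular group -/
noncomputable instance : MulSemiringAction SL(2, ℤ) (Rg O b hN) where
  smul g f := ⟨fun τ => f.1 (act g⁻¹.1 τ), (b.mr O N hN).2.2.1 _ _ g⁻¹.2 f.2⟩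
  one_smul f := Subtype.ext (funext fun τ => congrArg f.1 (by rw [inv_one]; exact act_one τ))
  mul_smul g h f := Subtype.ext (funext fun τ => congrArg f.1 (by
    rw [mul_inv_rev]
    exact act_mul (one_pos.trans_eq h⁻¹.2.symm) (one_pos.trans_eq g⁻¹.2.symm) τ))
  smul_zero _ := rfl
  smul_add _ _ _ := rfl
  smul_one _ := rfl
  smul_mul _ _ _ := rfl

variable {O}

lemma smul_val (g : SL(2, ℤ)) (f : Rg O b hN) :
    (g • f).1 = fun τ => f.1 (act g⁻¹.1 τ) := rfl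

include b hN in
lemma ra_unique {f : ℍ → ℂ} {G G' : LS (ResidueField O)} (h : RA O N f G) (h' : RA O N f G') :
    G = G' := by
  obtain ⟨F, h1, h2⟩ := h
  obtain ⟨F', h1', h2'⟩ := h'
  obtain rfl := (b.ring N hN).2.2.2.2.1 _ _ _ h1 h1'
  exact h2.unique h2'

lemma ra_exists (f : Rg O b hN) : ∃ G, RA O N f.1 G := by
  obtain ⟨F, h1, h2⟩ := f.2.asy 1 (by simp)
  obtain ⟨G, hG⟩ := exists_red h1
  simp only [act_one] at h2
  exact ⟨G, F, h2, hG⟩

include b hN in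
lemma ra_add {f g : ℍ → ℂ} {G G' : LS (ResidueField O)} (h : RA O N f G) (h' : RA O N g G') :
    RA O N (f + g) (G + G') := by
  obtain ⟨F, h1, h2⟩ := h
  obtain ⟨F', h1', h2'⟩ := h'
  exact ⟨_, (b.ring N hN).2.1 _ _ _ _ h1 h1', h2.add h2'⟩

include b hN in
lemma ra_mul {f g : ℍ → ℂ} {G G' : LS (ResidueField O)} (h : RA O N f G) (h' : RA O N g G') :
    RA O N (f * g) (G * G') := by
  obtain ⟨F, h1, h2⟩ := h
  obtain ⟨F', h1', h2'⟩ := h'
  exact ⟨_, (b.ring N hN).2.2.1 _ _ _ _ h1 h1', h2.mul h2'⟩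

include b hN in
lemma ra_C (c : O) : RA O N (fun _ => (c : ℂ)) (HahnSeries.C (residue O c)) :=
  ⟨_, (b.ring N hN).1 c, Red.C c⟩

/-- reduction of the expansion at the cusp -/
noncomputable def red : Rg O b hN →+* LS (ResidueField O) where
  toFun f := (ra_exists b hN f).choose
  map_one' := ra_unique b hN (ra_exists b hN 1).choose_spec (by
    have := ra_C b hN (1 : O)
    rwa [map_one, map_one] at this)
  map_mul' f g := ra_unique b hN (ra_exists b hN _).choose_spec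
    (ra_mul b hN (ra_exists b hN f).choose_spec (ra_exists b hN g).choose_spec)
  map_zero' := ra_unique b hN (ra_exists b hN 0).choose_spec (by
    have := ra_C b hN (0 : O)
    rwa [map_zero, map_zero] at this)
  map_add' f g := ra_unique b hN (ra_exists b hN _).choose_spec
    (ra_add b hN (ra_exists b hN f).choose_spec (ra_exists b hN g).choose_spec)

lemma ra_red (f : Rg O b hN) : RA O N f.1 (red b hN f) := (ra_exists b hN f).choose_spec

lemma red_eq {f : Rg O b hN} {G : LS (ResidueField O)} (h : RA O N f.1 G) : red b hN f = G :=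
  ra_unique b hN (ra_red b hN f) h

lemma smul_gamma {g : SL(2, ℤ)} (h : g ∈ CongruenceSubgroup.Gamma (2 * N)) (a : Rg O b hN) :
    g • a = a := Subtype.ext (funext fun τ => a.2.inv _ g⁻¹.2 (cong_iff.2 ((congrArg Subtype.val
      (CongruenceSubgroup.Gamma_mem'.1 (inv_mem h))).trans (map_one _).symm)) τ)

variable (O) in
/-- the decomposition group -/
def Dec : Subgroup SL(2, ℤ) where
  carrier := {g | ∀ a ∈ RingHom.ker (red (O := O) b hN), g • a ∈ RingHom.ker (red b hN)}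
  mul_mem' {g h} hg hh a ha := by
    rw [mul_smul]
    exact hg _ (hh a ha)
  one_mem' a ha := by rwa [one_smul]
  inv_mem' {g} hg a ha := by
    have _ : NeZero (2 * N) := ⟨by omega⟩
    obtain ⟨n, hn, -, h⟩ := Subgroup.exists_pow_mem_of_index_ne_zero
      (Subgroup.FiniteIndex.index_ne_zero (H := CongruenceSubgroup.Gamma (2 * N))) g
    obtain ⟨n, rfl⟩ := Nat.exists_eq_succ_of_ne_zero hn.ne'
    have h1 : ∀ m : ℕ, g ^ m • a ∈ RingHom.ker (red b hN) := fun m => by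
      induction m with
      | zero => rwa [pow_zero, one_smul]
      | succ m ih =>
        rw [pow_succ', mul_smul]
        exact hg _ ih
    have h3 : g⁻¹ = g ^ n * (g ^ (n + 1))⁻¹ := by group
    rw [h3, mul_smul, smul_gamma b hN (inv_mem h)]
    exact h1 n

lemma T_mem : ModularGroup.T ∈ Dec O b hN := by
  intro a ha
  obtain ⟨F, h1, h2⟩ := ra_red b hN a
  rw [RingHom.mem_ker.1 ha, red_zero_iff] at h2
  refine red_eq b hN ⟨sb (ru ((-1 : ℤ) / ((1 : ℕ) * N))) 1 F, ?_, red_zero_iff.2 fun n => ?_⟩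
  · rw [smul_val, ModularGroup.coe_T_inv]
    exact b.sub N N 1 1 1 (-1) hN hN one_pos one_pos (by ring) _ _ h1
  · rw [coeff_sb one_pos, if_pos (by simp), map_mul, ru_zpow]
    exact mul_lt_one_of_nonneg_of_lt_one_right ((O.valuation_le_one_iff _).2
      ((b.mr O N hN).2.2.2.2.2 _).1) zero_le (h2 _)

include b hN in
lemma asy_diag {f : ℍ → ℂ} {F : LS ℂ} (h : Asy 1 f F) {a : ℕ} (ha : 0 < a) :
    Asy N (fun τ => f (act !![(a : ℤ), 0; 0, 1] τ)) (ex (a * N) F) := by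
  have := b.sub 1 N a 1 (a * N) 0 one_pos hN ha one_pos (by ring) _ _ h
  rwa [Int.cast_zero, zero_div, ru_zero, sb_one] at this

include b hN in
lemma asy_one {f : ℍ → ℂ} {F : LS ℂ} (h : Asy 1 f F) : Asy N f (ex N F) := by
  have := asy_diag b hN h one_pos
  rw [Nat.cast_one, ← Matrix.one_fin_two, one_mul] at this
  simpa only [act_one] using this

lemma exists_poly {P : ℂ[X]} (hP : ∀ n, P.coeff n ∈ O) :
    ∃ (f : Rg O b hN) (Q : (ResidueField O)[X]), (∀ τ, f.1 τ = P.eval (YY τ)) ∧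
      red b hN f = aeval (ex N (Yc (ResidueField O))) Q := by
  have h1 := ((b.my.2 O N 1 hN (by simp) (by simp)).1)
  simp only [act_one] at h1
  obtain ⟨Q, hQ⟩ := red_aeval (red_ex hN (Red.int (O := O) Ys)) hP
  exact ⟨⟨_, (b.mr O N hN).2.2.2.1 _ P hP h1⟩, Q, fun _ => rfl, red_eq b hN
    ⟨_, (b.ring N hN).2.2.2.2.2.2.1 _ _ P (asy_one b hN b.y2.aY), hQ⟩⟩

lemma inv_poly {a : Rg O b hN} (h : ∀ g : SL(2, ℤ), g • a = a) :
    ∃ Q : (ResidueField O)[X], red b hN a = aeval (ex N (Yc (ResidueField O))) Q := by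
  obtain ⟨F, h1, h2⟩ := ra_red b hN a
  obtain ⟨P, h3, -, h4, -⟩ := (b.lv N O.toSubring a.1 F hN a.2.hol h1 h2.mem).1 0 fun γ τ hγ => by
    have := congrFun (congrArg Subtype.val (h (⟨γ, hγ⟩ : SL(2, ℤ))⁻¹)) τ
    rw [smul_val, inv_inv] at this
    rw [pow_zero, one_mul]
    exact this
  obtain ⟨f, Q, h5, h6⟩ := exists_poly b hN h3
  exact ⟨Q, (congrArg _ (Subtype.ext (funext fun τ => (h4 τ).trans (h5 τ).symm))).trans h6⟩

/-- a reduction that is a rational function of `Yc` is a polynomial -/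
lemma rat_poly (u : Rg O b hN) {T₁ T₂ : (ResidueField O)[X]} (h2 : T₂ ≠ 0)
    (h : aeval (ex N (Yc (ResidueField O))) T₂ * red b hN u =
      aeval (ex N (Yc (ResidueField O))) T₁) :
    ∃ T : (ResidueField O)[X], aeval (ex N (Yc (ResidueField O))) T = red b hN u := by
  let _ : Algebra (ResidueField O)[X] (LS (ResidueField O)) :=
    (aeval (ex N (Yc (ResidueField O)))).toRingHom.toAlgebra
  obtain ⟨⟨n, P, hP, hu⟩, -⟩ := b.chp O N u.1 hN u.2
  choose f Q hf hQ using fun i => exists_poly b hN (hP i)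
  have h3 : u ^ n + ∑ i ∈ Finset.range n, f i * u ^ i = 0 := Subtype.ext (funext fun τ => by
    simpa [hf] using hu τ)
  have h4 := congrArg (red b hN) h3
  simp only [map_add, map_sum, map_mul, map_pow, map_zero, hQ] at h4
  refine int_closed ((injective_iff_map_eq_zero _).2 fun T hT => by_contra fun h0 =>
    top_ne b hN h0 (congrArg (fun G : LS (ResidueField O) => G.coeff _) hT))
    ⟨X ^ n + ∑ i : Fin n, C (Q i) * X ^ (i : ℕ), monic_X_pow_add (degree_sum_fin_lt _), ?_⟩ h2 h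
  rw [← h4, ← Fin.sum_univ_eq_sum_range (fun i => aeval _ (Q i) * red b hN u ^ i) n]
  simp only [eval₂_add, eval₂_X_pow, eval₂_finsetSum, eval₂_mul, eval₂_C]
  rfl

lemma big (h : DEC) {p : ℕ} (hp : p.Prime) (hd : p ∣ N) (hv : O.valuation (p : ℂ) = 1) :
    ∃ g ∈ Dec O b hN, ¬(p : ℤ) ∣ g.1 1 0 := by
  by_contra hc
  push Not at hc
  have _ : NeZero (2 * N) := ⟨by omega⟩
  have hp0 : (p : ℂ) ≠ 0 := by exact_mod_cast hp.ne_zero
  have hM : (!![(p : ℤ), 0; 0, 1] : M2).det = p := by simp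
  have hM' : 0 < (!![(p : ℤ), 0; 0, 1] : M2).det := by rw [hM]; exact_mod_cast hp.pos
  let u : Rg O b hN := ⟨VV !![(p : ℤ), 0; 0, 1],
    (b.my.2 O N _ hN hM' (by rw [hM]; exact_mod_cast hd)).2.2.1⟩
  obtain ⟨a, a', ha, ha', h1, h2⟩ := h SL(2, ℤ) (Rg O b hN) (CongruenceSubgroup.Gamma (2 * N))
    inferInstance (fun g hg a => smul_gamma b hN hg a) (RingHom.ker (red b hN))
    (RingHom.ker_isPrime _) u fun g hg => Subtype.ext (funext fun τ => by
      obtain ⟨c, hc'⟩ := hc g⁻¹ (inv_mem (show g ∈ Dec O b hN from hg))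
      have hγ := g⁻¹.2
      change VV _ (act g⁻¹.1 τ) = VV _ τ
      generalize g⁻¹.1 = γ at hc' hγ
      have e1 : !![(p : ℤ), 0; 0, 1] * γ =
          !![γ 0 0, p * γ 0 1; c, γ 1 1] * !![(p : ℤ), 0; 0, 1] := by
        ext i j
        fin_cases i <;> fin_cases j <;> simp [Matrix.mul_apply, Fin.sum_univ_two, hc', mul_comm]
      have e2 : (!![γ 0 0, p * γ 0 1; c, γ 1 1] : M2).det = 1 := by
        rw [← hγ, Matrix.det_fin_two γ, hc', Matrix.det_fin_two_of]
        ring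
      have e3 := (b.my.1 _ γ τ hM' hγ).2.1
      rw [e1, (b.my.1 _ _ τ hM' e2).1] at e3
      have e4 := (b.my.1 _ γ τ hM' hγ).2.2.1
      have e5 := (b.my.1 _ γ (act γ τ) hM' hγ).2.2.1
      rw [e3, ← e4] at e5
      refine mul_left_cancel₀ (left_ne_zero_of_mul (e4.trans_ne ?_)) e5
      rw [hM]
      exact_mod_cast pow_ne_zero 12 hp.ne_zero)
  obtain ⟨T₁, h3⟩ := inv_poly b hN ha
  obtain ⟨T₂, h4⟩ := inv_poly b hN ha'
  rw [RingHom.mem_ker, map_sub, map_mul, sub_eq_zero, h3, h4] at h2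
  obtain ⟨T, hT⟩ := rat_poly b hN u (fun h0 => h1 (by
    rw [RingHom.mem_ker, h4, h0, map_zero])) h2
  -- the order of the reduction
  have r1 : RA O N dl (ex N (Dc (ResidueField O))) :=
    ⟨_, asy_one b hN b.y2.ad, red_ex hN (Red.int Ds)⟩
  have r2 : RA O N (fun τ => dl (act !![(p : ℤ), 0; 0, 1] τ)) (ex (p * N) (Dc (ResidueField O))) :=
    ⟨_, asy_diag b hN b.y2.ad hp.pos, red_ex (mul_pos hp.pos hN) (Red.int Ds)⟩
  have r3 := ra_mul b hN (ra_red b hN u) (ra_mul b hN r1 r1)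
  have r4 := ra_mul b hN (ra_C b hN ((p : O) ^ 12)) (ra_mul b hN r2 r2)
  have e : u.1 * (dl * dl) = (fun _ => (((p : O) ^ 12 : O) : ℂ)) *
      ((fun τ => dl (act !![(p : ℤ), 0; 0, 1] τ)) * fun τ => dl (act !![(p : ℤ), 0; 0, 1] τ)) := by
    funext τ
    have := b.y1.ne τ
    simp only [u, Pi.mul_apply, VV, hM, den]
    simp
    field_simp
  rw [e] at r3
  have r5 := ra_unique b hN r3 r4
  obtain ⟨o1, o2⟩ := order_ex (k := ResidueField O) b hN
  obtain ⟨o3, o4⟩ := order_ex (k := ResidueField O) b (mul_pos hp.pos hN)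
  have o5 : (HahnSeries.C (residue O ((p : O) ^ 12)) : LS (ResidueField O)) ≠ 0 :=
    HahnSeries.C_ne_zero ((((O.valuation_eq_one_iff (p : O)).2 hv).pow 12).map (residue O)).ne_zero
  have o6 : red b hN u ≠ 0 := left_ne_zero_of_mul (r5 ▸ mul_ne_zero o5 (mul_ne_zero o3 o3))
  have o7 := congrArg HahnSeries.order r5
  rw [HahnSeries.order_mul o6 (mul_ne_zero o1 o1), HahnSeries.order_mul o5 (mul_ne_zero o3 o3),
    HahnSeries.order_mul o1 o1, HahnSeries.order_mul o3 o3, HahnSeries.order_C, o2, o4] at o7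
  have o8 := HahnSeries.order_le_of_coeff_ne_zero (top_ne b hN (T := T) fun h0 => o6 (by
    rw [← hT, h0, map_zero]))
  rw [hT] at o8
  have o9 : (2 : ℤ) ≤ p := by exact_mod_cast hp.two_le
  have o10 : (0 : ℤ) < N := by exact_mod_cast hN
  push_cast at o7
  nlinarith [mul_nonneg o10.le (Int.natCast_nonneg T.natDegree)]

end ring

end StabAux

open StabAux in
theorem stab_of (b : B2) (h : DEC) : STAB := by
  intro O p N hp h2 hN hd hv
  have _ : Fact p.Prime := ⟨hp⟩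
  have hN' : 0 < p * N := mul_pos hp.pos hN
  obtain ⟨g, hg, hc⟩ := big b hN' h hp (dvd_mul_right p N) hv
  obtain ⟨γ, h3, h4, h5⟩ := group (n := 2 * N) (fun e => by
    rcases (Nat.Prime.dvd_mul hp).1 ((ZMod.natCast_eq_zero_iff _ _).1 e) with k | k
    · exact h2 ((Nat.prime_dvd_prime_iff_eq hp Nat.prime_two).1 k)
    · exact hd k) _ (T_mem b hN') hg hc
  refine ⟨γ.1, γ.2, h4, h5, fun f hf h0 => ?_⟩
  have h6 := ra_red b hN' (γ⁻¹ • ⟨f, hf⟩)
  rwa [RingHom.mem_ker.1 (inv_mem h3 _ (red_eq b hN' h0)), smul_val, inv_inv] at h6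

end Pool.Agent.MP_c481b3_nt.H31F
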