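import Pool.Agent.MP_c481b3_nt.H31F.Spec

set_option autoImplicit false

namespace Pool.Agent.MP_c481b3_nt.H31F

open UpperHalfPlane hiding I
open Complex Polynomial IsLocalRing Finset
open scoped Real

namespace TrAux

theorem ru_add (r r' : ℚ) : ru (r + r') = ru r * ru r' := by
  ext
  simp [ru, mul_add, Complex.exp_add]

theorem ru_zero : ru 0 = 1 := by
  ext
  simp [ru]

variable {O : ValuationSubring ℂ}

/-- the roots of unity as units of the valuation ring -/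
noncomputable def rO (h : ∀ r : ℚ, (ru r : ℂ) ∈ O) : Multiplicative ℚ →* Oˣ :=
  MonoidHom.toHomUnits
    { toFun := fun r => ⟨ru r.toAdd, h _⟩
      map_one' := Subtype.ext (congrArg Units.val ru_zero)
      map_mul' := fun r r' => Subtype.ext (congrArg Units.val (ru_add r.toAdd r'.toAdd)) }

/-- their reductions -/
noncomputable def rk (h : ∀ r : ℚ, (ru r : ℂ) ∈ O) (r : ℚ) : (ResidueField O)ˣ :=
  Units.map (residue O : O →* ResidueField O) (rO h (.ofAdd r))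

theorem rk_zpow (h : ∀ r : ℚ, (ru r : ℂ) ∈ O) (r : ℚ) (n : ℤ) : rk h r ^ n = rk h (n * r) := by
  rw [rk, rk, ← map_zpow, ← map_zpow, ← ofAdd_zsmul, zsmul_eq_mul]

theorem red_sb (h : ∀ r : ℚ, (ru r : ℂ) ∈ O) {F : LS ℂ} {G : LS (ResidueField O)}
    (a : Red O F G) (r : ℚ) {e : ℕ} (he : 0 < e) : Red O (sb (ru r) e F) (sb (rk h r) e G) := by
  obtain ⟨H, rfl, rfl⟩ := a
  refine ⟨sb (rO h (.ofAdd r)) e H, ?_, mapL_sb he _ _ _⟩
  rw [mapL_sb he]
  congr 2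
  exact Units.ext rfl

theorem prim (h : ∀ r : ℚ, (ru r : ℂ) ∈ O) {n : ℕ} (hn : (n : ResidueField O) ≠ 0) :
    IsPrimitiveRoot (rk h (2 / n)) n := by
  have n0 : n ≠ 0 := fun e => hn (by simp [e])
  have h1 : IsPrimitiveRoot (rO h (.ofAdd (2 / n)) : O) n := by
    refine IsPrimitiveRoot.of_map_of_injective (f := O.subtype) ?_ Subtype.val_injective
    convert Complex.isPrimitiveRoot_exp n n0 using 1
    change cexp (π * I * ((2 / n : ℚ) : ℂ)) = _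
    congr 1
    push_cast
    ring
  rw [← IsPrimitiveRoot.coe_units_iff]
  change IsPrimitiveRoot (residue O (rO h (.ofAdd (2 / n)) : O)) n
  refine IsPrimitiveRoot.mk_of_lt _ (Nat.pos_of_ne_zero n0)
    (by rw [← map_pow, h1.pow_eq_one, map_one]) fun l l0 hl e => hn ?_
  obtain ⟨m, rfl⟩ := Nat.exists_eq_succ_of_ne_zero n0
  have h2 := congrArg (residue O) h1.prod_one_sub_pow_eq_order
  rw [map_prod, prod_eq_zero (i := l - 1) (mem_range.2 (by omega))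
    (by rw [map_sub, map_one, map_pow, Nat.sub_add_cancel l0, e, sub_self])] at h2
  simpa using h2.symm

variable {N : ℕ} {f g : ℍ → ℂ} {F G : LS (ResidueField O)}

theorem ra_C (b : AsyRing) (hN : 0 < N) (c : O) :
    RA O N (fun _ => c) (HahnSeries.C (residue O c)) := ⟨_, (b N hN).1 _, Red.C c⟩

theorem ra_add (b : AsyRing) (hN : 0 < N) (h : RA O N f F) (h' : RA O N g G) :
    RA O N (fun τ => f τ + g τ) (F + G) :=
  let ⟨_, a, c⟩ := h
  let ⟨_, a', c'⟩ := h'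
  ⟨_, (b N hN).2.1 _ _ _ _ a a', c.add c'⟩

theorem ra_mul (b : AsyRing) (hN : 0 < N) (h : RA O N f F) (h' : RA O N g G) :
    RA O N (fun τ => f τ * g τ) (F * G) :=
  let ⟨_, a, c⟩ := h
  let ⟨_, a', c'⟩ := h'
  ⟨_, (b N hN).2.2.1 _ _ _ _ a a', c.mul c'⟩

theorem ra_uniq (b : AsyRing) (hN : 0 < N) (h : RA O N f F) (h' : RA O N f G) : F = G := by
  obtain ⟨_, a, c⟩ := h
  obtain ⟨_, a', c'⟩ := h'
  rw [(b N hN).2.2.2.2.1 _ _ _ a a'] at c
  exact c.unique c'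

theorem ra_sum (b : AsyRing) (hN : 0 < N) (s : Finset ℕ) {f : ℕ → ℍ → ℂ}
    {F : ℕ → LS (ResidueField O)} (h : ∀ i ∈ s, RA O N (f i) (F i)) :
    RA O N (fun τ => ∑ i ∈ s, f i τ) (∑ i ∈ s, F i) := by
  induction s using Finset.induction_on with
  | empty => simpa using ra_C b hN (0 : O)
  | insert a s ha ih =>
    simp only [sum_insert ha]
    exact ra_add b hN (h a (mem_insert_self _ _)) (ih fun i hi => h i (mem_insert_of_mem hi))

theorem ra_prod (b : AsyRing) (hN : 0 < N) (s : Finset ℕ) {f : ℕ → ℍ → ℂ}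
    {F : ℕ → LS (ResidueField O)} (h : ∀ i ∈ s, RA O N (f i) (F i)) :
    RA O N (fun τ => ∏ i ∈ s, f i τ) (∏ i ∈ s, F i) := by
  induction s using Finset.induction_on with
  | empty => simpa using ra_C b hN (1 : O)
  | insert a s ha ih =>
    simp only [prod_insert ha]
    exact ra_mul b hN (h a (mem_insert_self _ _)) (ih fun i hi => h i (mem_insert_of_mem hi))

theorem ra_eval (b : AsyRing) (hN : 0 < N) (h : RA O N f F) (P : O[X]) :
    RA O N (fun τ => (P.map O.subtype).eval (f τ)) (aeval F (P.map (residue O))) := by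
  obtain ⟨_, a, H, rfl, rfl⟩ := h
  exact ⟨_, (b N hN).2.2.2.2.2.2.1 _ _ _ a, aeval H P, mapL_aeval _ _ _, mapL_aeval _ _ _⟩

/-- triangular matrices -/
def tri (a : ℕ) (c : ℤ) (d : ℕ) : M2 := !![(a : ℤ), c; 0, (d : ℤ)]

theorem det_tri (a : ℕ) (c : ℤ) (d : ℕ) : (tri a c d).det = (a * d : ℕ) := by simp [tri]

theorem ra_sub (b : AsySub) (h : ∀ r : ℚ, (ru r : ℂ) ∈ O) (hN : 0 < N) {a d e : ℕ} (c : ℤ)
    (ha : 0 < a) (hd : 0 < d) (he : e * d = a * N) (hf : RA O 1 f F) :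
    RA O N (fun τ => f (act (tri a c d) τ)) (sb (rk h (c / d)) e F) := by
  obtain ⟨F', h1, h2⟩ := hf
  have h3 := b 1 N a d e c one_pos hN ha hd (by rw [mul_one, he]) f F' h1
  rw [Nat.cast_one, mul_one] at h3
  exact ⟨_, h3, red_sb h h2 _ (Nat.pos_of_mul_pos_right (he ▸ Nat.mul_pos ha hN))⟩

theorem ra_E (b : B1) (h : ∀ r : ℚ, (ru r : ℂ) ∈ O) (hN : 0 < N) :
    ∃ E, E ≠ 0 ∧ RA O N (fun τ => dv YY τ ^ 2 / dl τ) E := by
  obtain ⟨E, hE⟩ := b.y2.Du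
  have e1 : ∀ (R : Type) [CommRing R], Dc R * mapL (Int.castRingHom R) E = 1 := fun R _ => by
    rw [Dc, ← map_mul, hE, map_one]
  have h1 : RA O 1 (dv YY) (th (Yc _)) := ⟨_, b.y2.aD, (Red.int Ys).th⟩
  have h2 : RA O 1 (fun τ => (dl τ)⁻¹) (mapL (Int.castRingHom _) E) :=
    ⟨_, (b.ring 1 one_pos).2.2.2.1 _ _ b.y2.ad (left_ne_zero_of_mul_eq_one (e1 ℂ)),
      (eq_inv_of_mul_eq_one_right (e1 ℂ)) ▸ Red.int E⟩
  have h3 := ra_sub b.sub h hN (a := 1) (d := 1) (e := N) 0 one_pos one_pos (by simp)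
    (ra_mul b.ring one_pos (ra_mul b.ring one_pos h1 h1) h2)
  have h4 : tri 1 0 1 = 1 := by
    rw [Matrix.one_fin_two]
    rfl
  simp only [h4, act_one] at h3
  refine ⟨_, ?_, by simpa only [pow_two, div_eq_mul_inv] using h3⟩
  rw [map_ne_zero_iff _ (sb_injective hN _)]
  have h5 := (b.pol.unit (ResidueField O)).1.ne_zero
  exact mul_ne_zero (mul_ne_zero h5 h5) (right_ne_zero_of_mul_eq_one (e1 _))

/-- the auxiliary function -/
noncomputable def RR (s : Finset ℕ) (w : ℕ → O) (P₁ P₂ : O[X]) (δ : ℕ → M2) (τ : ℍ) : ℂ :=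
  ∑ i ∈ s, w i * PH (δ i) τ * (P₁.map O.subtype).eval (YY (act (δ i) τ)) *
    ∏ j ∈ s.erase i, (P₂.map O.subtype).eval (YY (act (δ j) τ))

theorem mem_RR (b : B2) (hN : 0 < N) (s : Finset ℕ) (w : ℕ → O) (P₁ P₂ : O[X]) (δ : ℕ → M2)
    (hδ : ∀ i, (δ i).det = N) : Mem O N (RR s w P₁ P₂ δ) := by
  obtain ⟨m1, m2, -, m4, m5, -⟩ := b.mr O N hN
  have y := fun i => b.my.2 O N (δ i) hN (by rw [hδ]; exact_mod_cast hN) (by rw [hδ])
  have c : ∀ (P : O[X]) n, (P.map O.subtype).coeff n ∈ O := fun P n => by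
    rw [coeff_map]
    exact (P.coeff n).2
  exact (m5 _ s _ fun i _ => (m2 _ _ (m2 _ _ (m2 _ _ (m1 _ (w i).2) (y i).2.2.2).2.2
    (m4 _ _ (c P₁) (y i).1)).2.2 (m5 _ _ _ fun j _ => m4 _ _ (c P₂) (y j).1).2).2.2).1

theorem RR_act (b : B2) (s : Finset ℕ) (w : ℕ → O) (P₁ P₂ : O[X]) (δ δ' : ℕ → M2) (γ : M2)
    (h1 : γ.det = 1) (h2 : Cong 2 γ 1) (h3 : ∀ i, 0 < (δ i).det) (h4 : ∀ i, 0 < (δ' i).det)
    (h : ∀ i, ∃ γ' : M2, γ'.det = 1 ∧ Cong 2 γ' 1 ∧ δ i * γ = γ' * δ' i) (τ : ℍ) :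
    RR s w P₁ P₂ δ (act γ τ) = RR s w P₁ P₂ δ' τ := by
  have e1 : ∀ A : M2, Cong 2 A 1 → eps A = 1 := fun A hA => by
    rw [b.mat.epsc A 1 hA]
    simp [eps]
  have e2 : ∀ i, YY (act (δ i) (act γ τ)) = YY (act (δ' i) τ) := fun i => by
    obtain ⟨γ', a1, a2, a3⟩ := h i
    rw [← act_mul (h3 i) (by rw [h1]; exact one_pos), a3,
      act_mul (by rw [a1]; exact one_pos) (h4 i), b.y1.tY _ _ a1, e1 _ a2, Int.cast_one, one_mul]
  have e3 : ∀ i, PH (δ i) (act γ τ) = PH (δ' i) τ := fun i => by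
    obtain ⟨γ', a1, a2, a3⟩ := h i
    rw [(b.my.1 _ _ τ (h3 i) h1).2.2.2.2, a3, (b.my.1 _ _ τ (h4 i) a1).2.2.2.1, e1 _ a2, e1 _ h2,
      Int.cast_one, one_mul, one_mul]
  simp only [RR, e2, e3]

theorem ra_RR (b : B1) (h : ∀ r : ℚ, (ru r : ℂ) ∈ O) (hN : 0 < N) (s : Finset ℕ) (w : ℕ → O)
    (P₁ P₂ : O[X]) (g : LS (ResidueField O)) (h2 : P₂.map (residue O) ≠ 0)
    (hg : g * aeval (Yc _) (P₂.map (residue O)) = th (Yc _) * aeval (Yc _) (P₁.map (residue O)))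
    (a d e : ℕ → ℕ) (c : ℕ → ℤ) (ha : ∀ i, 0 < a i) (hd : ∀ i, 0 < d i)
    (he : ∀ i, e i * d i = a i * N) :
    ∃ E, E ≠ 0 ∧ RA O N (RR s w P₁ P₂ fun i => tri (a i) (c i) (d i))
      (E * ∑ i ∈ s, HahnSeries.C (residue O (w i) * a i ^ 2) * sb (rk h (c i / d i)) (e i) g) := by
  obtain ⟨E, E0, hE⟩ := ra_E b h hN
  have e0 : ∀ i, 0 < e i := fun i => Nat.pos_of_mul_pos_right (he i ▸ Nat.mul_pos (ha i) hN)
  have y := fun i => ra_sub b.sub h hN (c i) (ha i) (hd i) (he i)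
    (⟨_, b.y2.aY, Red.int Ys⟩ : RA O 1 YY (Yc _))
  have y' := fun i => ra_sub b.sub h hN (c i) (ha i) (hd i) (he i)
    (⟨_, b.y2.aD, (Red.int Ys).th⟩ : RA O 1 (dv YY) (th (Yc _)))
  have ph : ∀ i, PH (tri (a i) (c i) (d i)) = fun τ => ((a i ^ 2 : O) : ℂ) *
      dv YY (act (tri (a i) (c i) (d i)) τ) * (dv YY τ ^ 2 / dl τ) := fun i => by
    funext τ
    have : (d i : ℂ) ≠ 0 := Nat.cast_ne_zero.2 (hd i).ne'
    rw [PH, det_tri]
    congr 1
    simp only [den, tri]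
    simp
    field_simp
  have ph' : ∀ i, RA O N (PH (tri (a i) (c i) (d i))) (HahnSeries.C (residue O (a i ^ 2)) *
      sb (rk h (c i / d i)) (e i) (th (Yc _)) * E) := fun i => by
    rw [ph]
    exact ra_mul b.ring hN (ra_mul b.ring hN (ra_C b.ring hN _) (y' i)) hE
  have key := ra_sum b.ring hN s fun i _ => ra_mul b.ring hN (ra_mul b.ring hN (ra_mul b.ring hN
    (ra_C b.ring hN (w i)) (ph' i)) (ra_eval b.ring hN (y i) P₁))
    (ra_prod b.ring hN (s.erase i) fun j _ => ra_eval b.ring hN (y j) P₂)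
  refine ⟨E * ∏ j ∈ s, aeval (sb (rk h (c j / d j)) (e j) (Yc _)) (P₂.map (residue O)),
    mul_ne_zero E0 (prod_ne_zero_iff.2 fun j _ => ?_), ?_⟩
  · rw [← sb_aeval (e0 j), map_ne_zero_iff _ (sb_injective (e0 j) _)]
    intro h0
    have := (b.pol.top _ (P₂.map (residue O))).1
    rw [h0] at this
    exact leadingCoeff_ne_zero.2 h2 this.symm
  · convert key using 1
    · rfl
    rw [mul_sum]
    refine sum_congr rfl fun i hi => ?_
    have h3 := congrArg (sb (rk h (c i / d i)) (e i)) hg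
    rw [map_mul, map_mul, sb_aeval (e0 i), sb_aeval (e0 i)] at h3
    rw [← mul_prod_erase s _ hi, map_mul, map_pow (residue O), map_natCast]
    linear_combination (E * HahnSeries.C (residue O (w i)) * HahnSeries.C
      ((a i : ResidueField O) ^ 2) * ∏ j ∈ s.erase i,
        aeval (sb (rk h (c j / d j)) (e j) (Yc _)) (P₂.map (residue O))) * h3

theorem fin_det {δ δ' γ γ' : M2} {n : ℕ} (hn : 0 < n) (h1 : δ.det = n) (h2 : δ'.det = n)
    (h3 : γ.det = 1) (h : δ * γ = γ' * δ') : γ'.det = 1 := by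
  have := congrArg Matrix.det h
  rw [Matrix.det_mul, Matrix.det_mul, h1, h2, h3, mul_comm] at this
  exact (mul_right_cancel₀ (by exact_mod_cast hn.ne') this).symm

theorem mat1 {p N : ℕ} (hc : p.Coprime (2 * N)) {γ : M2} (h1 : Cong p γ !![0, -1; 1, 0])
    (h2 : Cong (2 * N) γ 1) (i : ℕ) (s : ℤ) (h3 : (N : ℤ) ∣ s - i) (h4 : (p : ℤ) ∣ 4 * i * s + 1) :
    ∃ γ' : M2, Cong 2 γ' 1 ∧ tri 1 (2 * i) (p * N) * γ = γ' * tri 1 (2 * s) (p * N) := by
  obtain ⟨a1, ha1⟩ := h1 0 0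
  obtain ⟨b1, hb1⟩ := h1 0 1
  obtain ⟨c1, hc1⟩ := h1 1 0
  obtain ⟨d1, hd1⟩ := h1 1 1
  obtain ⟨a2, ha2⟩ := h2 0 0
  obtain ⟨b2, hb2⟩ := h2 0 1
  obtain ⟨c2, hc2⟩ := h2 1 0
  obtain ⟨d2, hd2⟩ := h2 1 1
  obtain ⟨t, ht⟩ := h3
  obtain ⟨u, hu⟩ := h4
  simp at ha1 hb1 hc1 hd1 ha2 hb2 hc2 hd2
  obtain ⟨z, hz⟩ : (p : ℤ) * (2 * N : ℕ) ∣ γ 0 1 + 2 * i * γ 1 1 - 2 * s * (γ 0 0 + 2 * i * γ 1 0) :=
    (Nat.isCoprime_iff_coprime.2 hc).mul_dvd
      ⟨b1 + 2 * i * d1 - 2 * s * a1 - 4 * i * s * c1 - u, by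
        linear_combination hb1 + 2 * i * hd1 - 2 * s * ha1 - 4 * i * s * hc1 - hu⟩
      ⟨b2 + 2 * i * d2 - 2 * s * a2 - 4 * i * s * c2 - t, by
        push_cast
        linear_combination hb2 + 2 * i * hd2 - 2 * s * ha2 - 4 * i * s * hc2 - 2 * ht⟩
  push_cast at hz
  refine ⟨!![γ 0 0 + 2 * i * γ 1 0, 2 * z; p * N * γ 1 0, γ 1 1 - 2 * s * γ 1 0], fun x y => ?_, ?_⟩
  · fin_cases x <;> fin_cases y
    · exact ⟨N * a2 + i * γ 1 0, by simp; linear_combination ha2⟩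
    · exact ⟨z, by simp⟩
    · exact ⟨p * N * N * c2, by simp; linear_combination p * N * hc2⟩
    · exact ⟨N * d2 - s * γ 1 0, by simp; linear_combination hd2⟩
  · ext x y
    fin_cases x <;> fin_cases y <;> simp [tri, Matrix.mul_apply, Fin.sum_univ_two]
    · linear_combination hz
    · ring

theorem mat2 {p N : ℕ} (hp : Odd p) {γ : M2} (h1 : Cong p γ !![0, -1; 1, 0])
    (h2 : Cong (2 * N) γ 1) (i : ℕ) (h3 : p ∣ i) :
    ∃ γ' : M2, Cong 2 γ' 1 ∧ tri 1 (2 * i) (p * N) * γ = γ' * tri p (2 * i * p) N := by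
  obtain ⟨a1, ha1⟩ := h1 0 0
  obtain ⟨a2, ha2⟩ := h2 0 0
  obtain ⟨b2, hb2⟩ := h2 0 1
  obtain ⟨c2, hc2⟩ := h2 1 0
  obtain ⟨d2, hd2⟩ := h2 1 1
  obtain ⟨t, rfl⟩ := h3
  obtain ⟨q, rfl⟩ := hp
  simp at ha1 ha2 hb2 hc2 hd2
  refine ⟨!![a1 + 2 * t * γ 1 0, 2 * (b2 + 2 * ((2 * q + 1) * t) * (d2 - a2) -
    4 * ((2 * q + 1) * t) ^ 2 * c2); N * γ 1 0,
    (2 * q + 1) * (γ 1 1 - 2 * ((2 * q + 1) * t) * γ 1 0)], fun x y => ?_, ?_⟩
  · fin_cases x <;> fin_cases y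
    · exact ⟨N * a2 - q * a1 + t * γ 1 0, by simp; linear_combination ha2 - ha1⟩
    · exact ⟨_, sub_zero _⟩
    · exact ⟨N * N * c2, by simp; linear_combination N * hc2⟩
    · exact ⟨N * d2 + q * γ 1 1 - (2 * q + 1) ^ 2 * t * γ 1 0, by simp; linear_combination hd2⟩
  · ext x y
    fin_cases x <;> fin_cases y <;> simp [tri, Matrix.mul_apply, Fin.sum_univ_two]
    · linear_combination ha1
    · linear_combination hb2 + 2 * ((2 * q + 1) * t) * (hd2 - ha2 + ha1) -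
        4 * ((2 * q + 1) * t) ^ 2 * hc2
    · ring
    · ring

end TrAux

open TrAux in
theorem tr_of (b : B2) (h : STAB) : TR := by
  rintro O g ⟨P₁, P₂, h2, hg⟩ p N hp p2 hN hpN h0
  have hM : 0 < p * N := Nat.mul_pos hp.pos hN
  have hr : ∀ r : ℚ, (ru r : ℂ) ∈ O := fun r => ((b.mr O 1 one_pos).2.2.2.2.2 r).1
  refine ⟨_, prim hr h0, fun w st hst hw n => ?_⟩
  obtain ⟨P₁, rfl⟩ := Polynomial.map_surjective _ (residue_surjective (R := O)) P₁
  obtain ⟨P₂, rfl⟩ := Polynomial.map_surjective _ (residue_surjective (R := O)) P₂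
  choose w' hw' using fun i => residue_surjective (R := O) (w i)
  obtain ⟨γ, g1, g2, g3, g4⟩ := h O p N hp p2 hN hpN (by
    refine (O.valuation_eq_one_iff (p : O)).1 ((residue_ne_zero_iff_isUnit _).1 fun e => h0 ?_)
    rw [map_natCast] at e
    rw [Nat.cast_mul, e, zero_mul])
  have q0 : ((p * N : ℕ) : ℚ) ≠ 0 := Nat.cast_ne_zero.2 hM.ne'
  have z1 : ∀ s : ℤ, rk hr (((2 * s : ℤ) : ℚ) / (p * N : ℕ)) = rk hr (2 / (p * N : ℕ)) ^ s :=
    fun s => by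
      rw [rk_zpow]
      congr 1
      push_cast
      ring
  obtain ⟨E, -, hE⟩ := ra_RR b.toB1 hr hM (range (p * N)) w' P₁ P₂ g h2 hg (fun _ => 1)
    (fun _ => p * N) (fun _ => 1) (fun i => 2 * i) (fun _ => one_pos) (fun _ => hM) fun _ => rfl
  have s0 : ∑ i ∈ range (p * N), HahnSeries.C (residue O (w' i) * ((1 : ℕ) : ResidueField O) ^ 2) *
      sb (rk hr (((2 * i : ℤ) : ℚ) / (p * N : ℕ))) 1 g = 0 := by
    ext m
    rw [HahnSeries.coeff_sum, HahnSeries.coeff_zero, ← hw m, sum_mul]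
    refine sum_congr rfl fun i _ => ?_
    rw [HahnSeries.C_mul_eq_smul, HahnSeries.coeff_smul, coeff_sb one_pos, z1, hw', ← zpow_mul]
    simp [mul_assoc]
  rw [s0, mul_zero] at hE
  have h3 := g4 _ (mem_RR b hM _ _ _ _ _ fun i => by rw [det_tri, one_mul]) hE
  obtain ⟨E', E0, hE'⟩ := ra_RR b.toB1 hr hM (range (p * N)) w' P₁ P₂ g h2 hg
    (fun i => if p ∣ i then p else 1) (fun i => if p ∣ i then N else p * N)
    (fun i => if p ∣ i then p ^ 2 else 1) (fun i => if p ∣ i then 2 * i * p else 2 * st i)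
    (fun i => by split_ifs; exacts [hp.pos, one_pos]) (fun i => by split_ifs; exacts [hN, hM])
    (fun i => by split_ifs <;> ring)
  have d1 : ∀ i : ℕ, (tri 1 (2 * i) (p * N)).det = (p * N : ℕ) := fun i => by rw [det_tri, one_mul]
  have d2 : ∀ i : ℕ, (tri (if p ∣ i then p else 1) (if p ∣ i then 2 * i * p else 2 * st i)
      (if p ∣ i then N else p * N)).det = (p * N : ℕ) := fun i => by
    rw [det_tri]
    split_ifs <;> simp
  rw [funext (RR_act b _ _ _ _ _ _ γ g1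
    (fun i j => (Int.natCast_dvd_natCast.2 (Dvd.intro N rfl)).trans (g3 i j))
    (fun i => by rw [d1]; exact_mod_cast hM) (fun i => by rw [d2]; exact_mod_cast hM) fun i => by
      suffices ∃ γ' : M2, Cong 2 γ' 1 ∧ tri 1 (2 * i) (p * N) * γ = γ' *
          tri (if p ∣ i then p else 1) (if p ∣ i then 2 * i * p else 2 * st i)
            (if p ∣ i then N else p * N) from
        let ⟨γ', a1, a2⟩ := this
        ⟨γ', fin_det hM (d1 i) (d2 i) g1 a2, a1, a2⟩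
      split_ifs with hi
      · exact mat2 (hp.odd_of_ne_two p2) g2 g3 i hi
      · exact mat1 (Nat.Coprime.mul_right ((Nat.coprime_primes hp Nat.prime_two).2 p2)
          (hp.coprime_iff_not_dvd.2 hpN)) g2 g3 i _ (hst i hi).1 (hst i hi).2)] at h3
  have h4 := congrArg (fun F => F.coeff n)
    ((mul_eq_zero.1 (ra_uniq b.ring hM hE' h3)).resolve_left E0)
  simp only [HahnSeries.coeff_sum, HahnSeries.coeff_zero] at h4
  rw [← sum_filter_add_sum_filter_not (range (p * N)) fun i => p ∣ i] at h4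
  refine Eq.trans ?_ h4
  rw [add_comm]
  congr 1
  · rw [mul_sum, sum_mul]
    refine sum_congr rfl fun i hi => ?_
    simp only [if_pos (mem_filter.1 hi).2]
    have z2 : rk hr (((2 * i * p : ℤ) : ℚ) / N) = rk hr (2 / (p * N : ℕ)) ^ ((i : ℤ) * p ^ 2) := by
      have : (p : ℚ) ≠ 0 := Nat.cast_ne_zero.2 hp.ne_zero
      rw [rk_zpow]
      congr 1
      push_cast
      field_simp
    rw [HahnSeries.C_mul_eq_smul, HahnSeries.coeff_smul, coeff_sb (pow_pos hp.pos 2), z2, hw',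
      ← zpow_mul, Nat.cast_pow]
    split_ifs with hn
    · rw [mul_assoc (i : ℤ), Int.mul_ediv_cancel' hn, smul_eq_mul]
      ring
    · simp
  · rw [sum_mul]
    refine sum_congr rfl fun i hi => ?_
    simp only [if_neg (mem_filter.1 hi).2]
    rw [HahnSeries.C_mul_eq_smul, HahnSeries.coeff_smul, coeff_sb one_pos, z1, hw', ← zpow_mul]
    simp [mul_assoc]

end Pool.Agent.MP_c481b3_nt.H31F
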