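import Pool.Agent.MP_c481b3_nt.H31F.Spec2
import Pool.Agent.MP_c481b3_nt.H31F.Tr
import Pool.Agent.MP_c481b3_nt.H31F.Stab
import Pool.Agent.MP_c481b3_nt.H31F.Lp

set_option autoImplicit false

namespace Pool.Agent.MP_c481b3_nt.H31F

open UpperHalfPlane hiding I
open Complex Polynomial IsLocalRing Finset

namespace OrdAux

open TrAux

section lo
variable {k : Type} [Field k] {F G : LS k} {m m' : ℤ}

/-- lower bound for the support -/
def Lo (m : ℤ) (F : LS k) : Prop := ∀ n, n < m → F.coeff n = 0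

theorem Lo.mul (h : Lo m F) (h' : Lo m' G) : Lo (m + m') (F * G) := fun n hn => by
  rw [HahnSeries.coeff_mul]
  refine sum_eq_zero fun x hx => ?_
  have := (Finset.mem_antidiagonal.1 hx).2.2
  by_cases e : x.1 < m
  · rw [h _ e, zero_mul]
  · rw [h' _ (by omega), mul_zero]

theorem Lo.prod (s : Finset ℕ) {m : ℕ → ℤ} {F : ℕ → LS k} (h : ∀ i ∈ s, Lo (m i) (F i)) :
    Lo (∑ i ∈ s, m i) (∏ i ∈ s, F i) := by
  induction s using Finset.induction_on with
  | empty => exact fun n hn => by simp [HahnSeries.coeff_one, (show n < 0 from hn).ne]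
  | insert a s ha ih =>
    rw [sum_insert ha, prod_insert ha]
    exact (h a (mem_insert_self _ _)).mul (ih fun i hi => h i (mem_insert_of_mem hi))

theorem Lo.sb (h : Lo m F) {e : ℕ} (he : 0 < e) (c : kˣ) : Lo (e * m) (sb c e F) := fun n hn => by
  rw [coeff_sb he]
  split_ifs with hd
  · obtain ⟨a, rfl⟩ := hd
    rw [Int.mul_ediv_cancel_left _ (by exact_mod_cast he.ne'),
      h a (lt_of_mul_lt_mul_left hn (by positivity)), mul_zero]
  · rfl

theorem exists_lo (F G : LS k) : ∃ m : ℕ, Lo (-m) F ∧ Lo (-m) G :=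
  ⟨F.order.natAbs + G.order.natAbs, fun _ _ => HahnSeries.coeff_eq_zero_of_lt_order (by omega),
    fun _ _ => HahnSeries.coeff_eq_zero_of_lt_order (by omega)⟩

theorem sb_neg (h : ∀ n, Even n → F.coeff n = 0) : sb (-1) 1 F = -F := by
  ext n
  rw [coeff_sb one_pos, HahnSeries.coeff_neg]
  obtain e | e := Int.even_or_odd n
  · simp [h n e]
  · simp [e.neg_one_zpow]

end lo

variable {O : ValuationSubring ℂ}

theorem inv_top (b : B2) {N : ℕ} (hN : 0 < N) {f : ℍ → ℂ} (hf : Hol f)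
    (inv : ∀ (γ : M2) τ, γ.det = 1 → f (act γ τ) = f τ) {G : LS (ResidueField O)}
    (hG : RA O N f G) (h1 : Lo 1 G) : G = 0 := by
  obtain ⟨F, a1, a2⟩ := hG
  obtain ⟨P, h3, -, -, rfl⟩ := (b.lv N O.toSubring f F hN hf a1 a2.mem).1 0 fun γ τ hγ => by
    rw [pow_zero, one_mul, inv γ τ hγ]
  obtain ⟨Q, hQ⟩ := StabAux.red_aeval (StabAux.red_ex hN (Red.int (O := O) Ys)) h3
  obtain rfl := a2.unique hQ
  by_contra e
  refine StabAux.top_ne b hN (T := Q) (fun z => e (by rw [z, map_zero])) (h1 _ ?_)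
  have : (0 : ℤ) ≤ N * Q.natDegree := by positivity
  linarith

/-- even numerator and denominator -/
theorem even_rep (b : B1) {g : LS (ResidueField O)} (hg : InU _ g)
    (ge : ∀ n, Even n → g.coeff n = 0) : ∃ P₁ P₂ : O[X], P₁.comp (-X) = P₁ ∧ P₂.comp (-X) = P₂ ∧
      ((2 : ResidueField O) ≠ 0 → P₂.map (residue O) ≠ 0) ∧
      g * aeval (Yc _) (P₂.map (residue O)) = th (Yc _) * aeval (Yc _) (P₁.map (residue O)) := by
  obtain ⟨P₁, P₂, h2, hg⟩ := hg
  obtain ⟨P₁, rfl⟩ := Polynomial.map_surjective _ (residue_surjective (R := O)) P₁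
  obtain ⟨P₂, rfl⟩ := Polynomial.map_surjective _ (residue_surjective (R := O)) P₂
  have y1 : ∀ n, Even n → (Yc (ResidueField O)).coeff n = 0 := fun n hn => by
    simp [Yc, b.y2.Ye n hn]
  have h3 := congrArg (sb (-1) 1) hg
  rw [map_mul, map_mul, sb_aeval one_pos, sb_aeval one_pos, sb_neg ge, sb_neg y1,
    sb_neg fun n hn => by rw [coeff_th, y1 n hn, mul_zero]] at h3
  have e : ∀ P : O[X], (P.comp (-X)).comp (-X) = P := fun P => by simp [comp_assoc]
  refine ⟨P₁ * P₂.comp (-X) + P₁.comp (-X) * P₂, 2 * (P₂ * P₂.comp (-X)), ?_, ?_, fun h => ?_, ?_⟩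
  · rw [add_comp, mul_comp, mul_comp, e, e, add_comm]
  · rw [mul_comp, mul_comp, e, mul_comm P₂]
    simp
  · rw [Polynomial.map_mul, Polynomial.map_mul, map_comp, Polynomial.map_neg, map_X,
      Polynomial.map_ofNat]
    refine mul_ne_zero (fun z => h ?_) (mul_ne_zero h2 fun z => h2 ?_)
    · simpa using congrArg (eval 0) z
    · simpa [comp_assoc] using congrArg (fun P => P.comp (-X)) z
  · simp only [Polynomial.map_mul, Polynomial.map_add, map_comp, Polynomial.map_neg, map_X,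
      Polynomial.map_ofNat, map_mul, map_add, aeval_comp, map_neg, aeval_X, map_ofNat]
    linear_combination aeval (-Yc (ResidueField O)) (P₂.map (residue O)) * hg -
      aeval (Yc (ResidueField O)) (P₂.map (residue O)) * h3

theorem ra_RR' (b : B1) (h : ∀ r : ℚ, (ru r : ℂ) ∈ O) {N : ℕ} (hN : 0 < N) (s : Finset ℕ)
    (w : ℕ → O) (P₁ P₂ : O[X]) (g E : LS (ResidueField O))
    (hE : RA O N (fun τ => dv YY τ ^ 2 / dl τ) E)
    (hg : g * aeval (Yc _) (P₂.map (residue O)) = th (Yc _) * aeval (Yc _) (P₁.map (residue O)))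
    (a d e : ℕ → ℕ) (c : ℕ → ℤ) (ha : ∀ i, 0 < a i) (hd : ∀ i, 0 < d i)
    (he : ∀ i, e i * d i = a i * N) :
    RA O N (RR s w P₁ P₂ fun i => tri (a i) (c i) (d i))
      ((E * ∏ j ∈ s, sb (rk h (c j / d j)) (e j) (aeval (Yc _) (P₂.map (residue O)))) *
        ∑ i ∈ s, HahnSeries.C (residue O (w i) * a i ^ 2) * sb (rk h (c i / d i)) (e i) g) := by
  have e0 : ∀ i, 0 < e i := fun i => Nat.pos_of_mul_pos_right (he i ▸ Nat.mul_pos (ha i) hN)
  have y := fun i => ra_sub b.sub h hN (c i) (ha i) (hd i) (he i)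
    (⟨_, b.y2.aY, Red.int Ys⟩ : RA O 1 YY (Yc _))
  have y' := fun i => ra_sub b.sub h hN (c i) (ha i) (hd i) (he i)
    (⟨_, b.y2.aD, (Red.int Ys).th⟩ : RA O 1 (dv YY) (th (Yc _)))
  have ph : ∀ i, PH (tri (a i) (c i) (d i)) = fun τ => ((a i ^ 2 : O) : ℂ) *
      dv YY (act (tri (a i) (c i) (d i)) τ) * (dv YY τ ^ 2 / dl τ) := fun i => by
    funext τ
    have : (d i : ℂ) ≠ 0 := Nat.cast_ne_zero.2 (hd i).ne'
    rw [PH, det_tri]
    congr 1
    simp only [den, tri]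
    simp
    field_simp
  have ph' : ∀ i, RA O N (PH (tri (a i) (c i) (d i))) (HahnSeries.C (residue O (a i ^ 2)) *
      sb (rk h (c i / d i)) (e i) (th (Yc _)) * E) := fun i => by
    rw [ph]
    exact ra_mul b.ring hN (ra_mul b.ring hN (ra_C b.ring hN _) (y' i)) hE
  have key := ra_sum b.ring hN s fun i _ => ra_mul b.ring hN (ra_mul b.ring hN (ra_mul b.ring hN
    (ra_C b.ring hN (w i)) (ph' i)) (ra_eval b.ring hN (y i) P₁))
    (ra_prod b.ring hN (s.erase i) fun j _ => ra_eval b.ring hN (y j) P₂)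
  simp only [sb_aeval (e0 _)]
  convert key using 1
  · rfl
  rw [mul_sum]
  refine sum_congr rfl fun i hi => ?_
  have h3 := congrArg (sb (rk h (c i / d i)) (e i)) hg
  rw [map_mul, map_mul, sb_aeval (e0 i), sb_aeval (e0 i)] at h3
  rw [← mul_prod_erase s _ hi, map_mul, map_pow (residue O), map_natCast]
  linear_combination (E * HahnSeries.C (residue O (w i)) * HahnSeries.C
    ((a i : ResidueField O) ^ 2) * ∏ j ∈ s.erase i,
      aeval (sb (rk h (c j / d j)) (e j) (Yc _)) (P₂.map (residue O))) * h3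

theorem RR_perm (b : B2) (s : Finset ℕ) (w w' : ℕ → O) {P₁ P₂ : O[X]} (e1 : P₁.comp (-X) = P₁)
    (e2 : P₂.comp (-X) = P₂) (δ : ℕ → M2) (h3 : ∀ i, 0 < (δ i).det) {γ : M2} (h1 : γ.det = 1)
    {π : ℕ → ℕ} (hπ : Set.BijOn π s s)
    (h : ∀ i ∈ s, ∃ γ' : M2, γ'.det = 1 ∧ δ i * γ = γ' * δ (π i) ∧ eps γ' = eps γ)
    (hw : ∀ i ∈ s, w i = w' (π i)) (τ : ℍ) :
    RR s w P₁ P₂ δ (act γ τ) = RR s w' P₁ P₂ δ τ := by
  have a1 : ∀ P : O[X], P.comp (-X) = P → ∀ i ∈ s, (P.map O.subtype).eval (YY (act (δ i) (act γ τ)))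
      = (P.map O.subtype).eval (YY (act (δ (π i)) τ)) := fun P hP i hi => by
    obtain ⟨γ', c1, c2, -⟩ := h i hi
    rw [← act_mul (h3 i) (by rw [h1]; exact one_pos), c2,
      act_mul (by rw [c1]; exact one_pos) (h3 _), b.y1.tY _ _ c1, eps]
    split_ifs
    · simp
    · have := congrArg (fun Q => (Polynomial.map O.subtype Q).eval (YY (act (δ (π i)) τ))) hP
      simpa only [map_comp, eval_comp, Polynomial.map_neg, map_X, eval_neg, eval_X, Int.cast_neg,
        Int.cast_one, neg_one_mul] using this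
  have a2 : ∀ i ∈ s, PH (δ i) (act γ τ) = PH (δ (π i)) τ := fun i hi => by
    obtain ⟨γ', c1, c2, c3⟩ := h i hi
    rw [(b.my.1 _ _ τ (h3 i) h1).2.2.2.2, c2, (b.my.1 _ _ τ (h3 _) c1).2.2.2.1, c3, eps]
    split_ifs <;> simp
  rw [RR, RR]
  refine sum_nbij π hπ.mapsTo hπ.injOn hπ.surjOn fun i hi => ?_
  rw [hw i hi, a2 i hi, a1 _ e1 i hi]
  refine congrArg _ (prod_nbij π (fun j hj => mem_erase.2 ⟨fun e => (mem_erase.1 hj).1
    (hπ.injOn (mem_of_mem_erase hj) hi e), hπ.mapsTo (mem_of_mem_erase hj)⟩)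
    (hπ.injOn.mono (coe_subset.2 (erase_subset _ _))) (fun j hj => ?_)
    fun j hj => a1 _ e2 j (mem_of_mem_erase hj))
  obtain ⟨l, l1, rfl⟩ := hπ.surjOn (mem_of_mem_erase hj)
  exact ⟨l, mem_erase.2 ⟨fun e => (mem_erase.1 hj).1 (by rw [e]), l1⟩, rfl⟩

/-- the matrices of determinant `r` -/
def dm (r i : ℕ) : M2 :=
  tri (if i < r then 1 else r) (if i < r then 2 * i else 0) (if i < r then r else 1)

theorem det_dm (r i : ℕ) : (dm r i).det = r := by
  rw [dm, det_tri]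
  split_ifs <;> simp

theorem bij_dm (b : MAT) {r : ℕ} (hr : r.Prime) : Set.BijOn (dm r) (range (r + 1)) (Hk 2 r) := by
  have h1 := hr.one_lt
  refine ⟨fun i _ => (b.mem 2 r _).2 ?_, fun i hi j hj e => ?_, fun H hH => ?_⟩
  · by_cases e : i < r
    · exact ⟨1, r, i, one_pos, hr.pos, one_mul _, e, by simp [dm, tri, e]⟩
    · exact ⟨r, 1, 0, hr.pos, one_pos, mul_one _, one_pos, by simp [dm, tri, e]⟩
  · have e1 := congrFun (congrFun e 0) 0
    have e2 := congrFun (congrFun e 0) 1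
    rw [coe_range, Set.mem_Iio] at hi hj
    by_cases a : i < r <;> by_cases c : j < r <;> simp [dm, tri, a, c] at e1 e2 <;> omega
  · obtain ⟨a, d, c, -, -, h2, h3, rfl⟩ := (b.mem 2 r _).1 hH
    obtain rfl | rfl := (Nat.dvd_prime hr).1 (Dvd.intro d h2)
    · obtain rfl : d = r := by omega
      exact ⟨c, by simp; omega, by simp [dm, tri, h3]⟩
    · obtain rfl : d = 1 := Nat.eq_of_mul_eq_mul_left hr.pos (by omega)
      obtain rfl : c = 0 := by omega
      exact ⟨a, by simp, by simp [dm, tri]⟩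

theorem perm_dm (b : MAT) {r : ℕ} (hr : r.Prime) (r2 : r ≠ 2) {γ : M2} (h1 : γ.det = 1) :
    ∃ π : ℕ → ℕ, Set.BijOn π (range (r + 1)) (range (r + 1)) ∧ ∀ i ∈ range (r + 1),
      ∃ γ' : M2, γ'.det = 1 ∧ dm r i * γ = γ' * dm r (π i) ∧ eps γ' = eps γ := by
  obtain ⟨σ, s1, s2⟩ := b.perm 2 r γ ((Nat.coprime_primes Nat.prime_two hr).2 r2.symm) h1
  have h := bij_dm b hr
  refine ⟨Function.invFunOn (dm r) (range (r + 1)) ∘ σ ∘ dm r,
    (Set.BijOn.symm h.invOn_invFunOn.symm h).comp (s1.comp h), fun i hi => ?_⟩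
  obtain ⟨γ', a1, a2, a3⟩ := s2 _ (h.mapsTo hi)
  refine ⟨γ', a1, ?_, a3 rfl⟩
  rw [a2, Function.comp_apply, Function.comp_apply, h.invOn_invFunOn.2 (s1.mapsTo (h.mapsTo hi))]

/-- the weights -/
noncomputable def WT (O : ValuationSubring ℂ) (r H j : ℕ) : O := r - if j = H then (r : O) + 1 else 0

/-- the differences -/
noncomputable def DD (h : ∀ r : ℚ, (ru r : ℂ) ∈ O) (g : LS (ResidueField O)) (r H : ℕ) :
    LS (ResidueField O) :=
  ∑ i ∈ range (r + 1), HahnSeries.C (residue O (WT O r H i) * (if i < r then 1 else r : ℕ) ^ 2) *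
    sb (rk h ((if i < r then 2 * i else 0 : ℤ) / (if i < r then r else 1 : ℕ)))
      (if i < r then 1 else r ^ 2) g

theorem coeff_DD (h : ∀ r : ℚ, (ru r : ℂ) ∈ O) (g : LS (ResidueField O)) {r H : ℕ} (hr : 0 < r)
    (r0 : (r : ResidueField O) ≠ 0) (hH : H ∈ range (r + 1)) (n : ℤ) : (DD h g r H).coeff n =
      r * (r * (if (r : ℤ) ∣ n then g.coeff n else 0) +
        r ^ 2 * if (r : ℤ) ^ 2 ∣ n then g.coeff (n / r ^ 2) else 0) - (r + 1) *
      if H < r then (rk h (2 / r) ^ (H * n) : (ResidueField O)ˣ) * g.coeff n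
        else r ^ 2 * if (r : ℤ) ^ 2 ∣ n then g.coeff (n / r ^ 2) else 0 := by
  have e : ∀ i ∈ range (r + 1), (HahnSeries.C (residue O (WT O r H i) *
      (if i < r then 1 else r : ℕ) ^ 2) *
      sb (rk h ((if i < r then 2 * i else 0 : ℤ) / (if i < r then r else 1 : ℕ)))
      (if i < r then 1 else r ^ 2) g).coeff n = (r - if i = H then (r + 1 : ResidueField O) else 0) *
      if i < r then (rk h (2 / r) ^ (i * n) : (ResidueField O)ˣ) * g.coeff n
        else r ^ 2 * if (r : ℤ) ^ 2 ∣ n then g.coeff (n / r ^ 2) else 0 := fun i _ => by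
    rw [HahnSeries.C_mul_eq_smul, HahnSeries.coeff_smul, smul_eq_mul, mul_assoc]
    congr 1
    · simp [WT, apply_ite (residue O)]
    split_ifs with a c
    · rw [coeff_sb one_pos, zpow_mul, rk_zpow h (2 / r) i, mul_div_assoc', mul_comm ((i : ℤ) : ℚ)]
      simp
    · rw [coeff_sb (pow_pos hr 2), Nat.cast_pow, if_pos c, rk_zpow]
      simp [rk]
    · rw [coeff_sb (pow_pos hr 2), Nat.cast_pow, if_neg c]
  rw [DD, HahnSeries.coeff_sum, sum_congr rfl e]
  simp only [sub_mul, sum_sub_distrib, ite_mul, zero_mul, sum_ite_eq', if_pos hH, ← mul_sum]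
  rw [sum_range_succ, if_neg (lt_irrefl r), sum_congr rfl fun i hi => if_pos (mem_range.1 hi),
    ← sum_mul]
  congr 3
  split_ifs with a
  · rw [sum_congr rfl fun i _ => congrArg Units.val
      (((prim h r0).zpow_eq_one_iff_dvd _).2 (a.mul_left _))]
    simp
  · rw [LpAux.geom (prim h r0) a, zero_mul, mul_zero]

end OrdAux

open TrAux OrdAux in
theorem ord_of (b : B2) (h : STAB) : ORD := by
  intro O g hg g0 gp ge
  have hr : ∀ r : ℚ, (ru r : ℂ) ∈ O := fun r => ((b.mr O 1 one_pos).2.2.2.2.2 r).1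
  obtain ⟨P₁, P₂, e1, e2, h2, hg⟩ := even_rep b.toB1 hg ge
  obtain ⟨E, E0, hE⟩ := ra_E b.toB1 hr one_pos
  obtain ⟨m, m1, m2⟩ := exists_lo E (aeval (Yc _) (P₂.map (residue O)))
  refine ⟨6 * m, fun r hp r2 r0 r1 => by_contra fun hc => ?_⟩
  push Not at hc
  have hN := hp.pos
  have P0 : aeval (Yc (ResidueField O)) (P₂.map (residue O)) ≠ 0 := fun z => by
    obtain ⟨q, hq⟩ := hp.odd_of_ne_two r2
    have := (b.pol.top _ (P₂.map (residue O))).1
    rw [z] at this
    refine leadingCoeff_ne_zero.2 (h2 fun a => r1 ?_) this.symm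
    rw [hq]
    push_cast
    linear_combination (q + 1 : ResidueField O) * a
  have hE' := ra_sub b.sub hr hN (a := 1) (d := 1) (e := r) 0 one_pos one_pos (by simp) hE
  simp only [show tri 1 0 1 = 1 by rw [Matrix.one_fin_two]; rfl, act_one] at hE'
  have ep : ∀ i, 0 < (if i < r then 1 else r ^ 2) := fun i => by split_ifs <;> positivity
  obtain ⟨D, D0, D1, hD⟩ : ∃ D, D ≠ 0 ∧ Lo (-m * (2 * r + r ^ 2)) D ∧ ∀ H,
      RA O r (RR (range (r + 1)) (WT O r H) P₁ P₂ (dm r)) (D * DD hr g r H) := by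
    refine ⟨_, ?_, ?_, fun H => ra_RR' b.toB1 hr hN _ _ P₁ P₂ g _ hE' hg _ _ _ _
      (fun i => by split_ifs <;> positivity) (fun i => by split_ifs <;> positivity)
      fun i => by split_ifs <;> ring⟩
    · exact mul_ne_zero ((map_ne_zero_iff _ (sb_injective hN _)).2 E0)
        (prod_ne_zero_iff.2 fun j _ => (map_ne_zero_iff _ (sb_injective (ep j) _)).2 P0)
    · refine fun n hn => (m1.sb hN _).mul (Lo.prod _
        (m := fun j => ((if j < r then 1 else r ^ 2 : ℕ) : ℤ) * -m) fun j _ => m2.sb (ep j) _) n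
        (hn.trans_eq ?_)
      rw [sum_range_succ, if_neg (lt_irrefl r),
        sum_congr rfl fun i hi => by rw [if_pos (mem_range.1 hi)]]
      simp
      ring
  have hM := fun H => mem_RR b hN (range (r + 1)) (WT O r H) P₁ P₂ (dm r) (det_dm r)
  have mv : ∀ γ : M2, γ.det = 1 → ∃ π : ℕ → ℕ, Set.BijOn π (range (r + 1)) (range (r + 1)) ∧
      ∀ H ∈ range (r + 1), (∃ γ' : M2, dm r H * γ = γ' * dm r (π H)) ∧ ∀ τ,
        RR (range (r + 1)) (WT O r H) P₁ P₂ (dm r) (act γ τ) =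
          RR (range (r + 1)) (WT O r (π H)) P₁ P₂ (dm r) τ := fun γ hγ => by
    obtain ⟨π, p1, p2⟩ := perm_dm b.mat hp r2 hγ
    exact ⟨π, p1, fun H hH => ⟨(p2 H hH).imp fun _ a => a.2.1, RR_perm b _ _ _ e1 e2 _
      (fun i => by rw [det_dm]; exact_mod_cast hN) hγ p1 p2 fun i hi => by
        simp only [WT, p1.injOn.eq_iff hi hH]⟩⟩
  have rm : r ∈ range (r + 1) := self_mem_range_succ r
  have v0 : ∀ n : ℤ, n ≤ 0 → g.coeff (n / r ^ 2) = 0 := fun n hn =>
    gp _ (Int.ediv_nonpos_of_nonpos_of_neg hn (by positivity))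
  have hz := inv_top b hN ((b.mr O r hN).2.2.2.2.1 _ (range (r + 1)) _ fun H _ => hM H).2.hol
    (fun γ τ hγ => by
      obtain ⟨π, p1, p2⟩ := mv γ hγ
      exact prod_nbij π p1.mapsTo p1.injOn p1.surjOn fun H hH => (p2 H hH).2 τ)
    (ra_prod b.ring hN _ fun H _ => hD H) (fun n hn => Lo.prod _
      (m := fun H => -m * (2 * r + r ^ 2) + if H = r then (6 * m * r ^ 3 + 1 : ℤ) else 0)
      (fun H hH => D1.mul fun n hn => ?_) n (hn.trans_le ?_))
  rotate_left
  · rw [coeff_DD hr g hN r0 hH]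
    by_cases n0 : n ≤ 0
    · simp [gp n n0, v0 n n0]
    obtain rfl : H = r := by_contra fun a => by
      rw [if_neg a] at hn
      omega
    rw [if_pos rfl] at hn
    rw [if_neg (lt_irrefl _)]
    by_cases a : (H : ℤ) ∣ n
    · obtain ⟨t, rfl⟩ := a
      have H0 : (0 : ℤ) < H := by exact_mod_cast hN
      have t0 : 0 < t := pos_of_mul_pos_right (not_le.1 n0) H0.le
      lift t to ℕ using t0.le
      have := hc t (by exact_mod_cast t0) (by
        have : (H : ℤ) * t ≤ H * (6 * m * H ^ 2) := by linarith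
        exact_mod_cast le_of_mul_le_mul_left this H0)
      rw [if_pos (dvd_mul_right _ _), ← Nat.cast_mul, this, Nat.cast_mul, pow_two (H : ℤ),
        Int.mul_ediv_mul_of_pos _ _ H0]
      simp only [mul_dvd_mul_iff_left H0.ne', Int.natCast_dvd_natCast, Int.natCast_div]
      ring
    · rw [if_neg a, if_neg fun c => a ((dvd_pow_self _ two_ne_zero).trans c)]
      simp
  · rw [sum_add_distrib, sum_ite_eq', if_pos rm, sum_const, card_range, nsmul_eq_mul]
    have : (1 : ℤ) ≤ r := by exact_mod_cast hN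
    have h3 : (0 : ℤ) ≤ m * (r * ((r - 1) * (5 * r + 2))) := by
      have : (0 : ℤ) ≤ r - 1 := by omega
      positivity
    push_cast
    linarith
  obtain ⟨H, hH, H0⟩ := prod_eq_zero_iff.1 hz
  replace H0 := (mul_eq_zero.1 H0).resolve_left D0
  obtain ⟨γ, g1, g2, -, g4⟩ := h O r 1 hp r2 one_pos hp.not_dvd_one
    ((O.valuation_eq_one_iff (r : O)).1 ((residue_ne_zero_iff_isUnit _).1 (by rwa [map_natCast])))
  rw [mul_one] at g4
  obtain ⟨π, p1, p2⟩ := mv γ g1
  have tr : ∀ H ∈ range (r + 1), DD hr g r H = 0 → DD hr g r (π H) = 0 := fun H hH z => by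
    have a := hD H
    rw [z, mul_zero] at a
    have c := g4 _ (hM H) a
    rw [funext (p2 H hH).2] at c
    exact (mul_eq_zero.1 (ra_uniq b.ring hN (hD _) c)).resolve_left D0
  have pr : π r ≠ r := fun z => by
    obtain ⟨γ', a⟩ := (p2 r rm).1
    have c := congrFun (congrFun a 1) 0
    have d := g2 1 0
    simp [z, dm, tri, Matrix.mul_apply] at c d
    rw [c] at d
    exact hp.not_dvd_one (Int.natCast_dvd_natCast.1 ((dvd_sub_right (dvd_mul_left _ _)).1 d))
  obtain ⟨K, K1, K0⟩ : ∃ K, K < r ∧ DD hr g r K = 0 := by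
    by_cases a : H = r
    · exact ⟨π r, (Nat.lt_succ_iff.1 (mem_range.1 (p1.mapsTo rm))).lt_of_ne pr, tr r rm (a ▸ H0)⟩
    · exact ⟨H, (Nat.lt_succ_iff.1 (mem_range.1 hH)).lt_of_ne a, H0⟩
  have Km : K ∈ range (r + 1) := mem_range.2 (by omega)
  have u1 : ∀ (i : ℕ) (n : ℤ), ((rk hr (2 / r) ^ (i * n) : (ResidueField O)ˣ) : ResidueField O) *
      g.coeff n = g.coeff n := fun i n => by
    by_cases a : (r : ℤ) ∣ n
    · rw [((prim hr r0).zpow_eq_one_iff_dvd _).2 (a.mul_left _), Units.val_one, one_mul]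
    have c := coeff_DD hr g hN r0 Km n
    rw [K0, if_neg a, if_neg fun c => a ((dvd_pow_self _ two_ne_zero).trans c), if_pos K1] at c
    have : g.coeff n = 0 := by simpa [r1, zpow_ne_zero] using c
    rw [this, mul_zero]
  obtain ⟨L, L1, L2⟩ := p1.surjOn rm
  have L3 : L < r := (Nat.lt_succ_iff.1 (mem_range.1 L1)).lt_of_ne fun z => pr (z ▸ L2)
  have L4 : DD hr g r r = 0 := L2 ▸ tr L L1 (by
    rw [← K0]
    ext n
    rw [coeff_DD hr g hN r0 Km, coeff_DD hr g hN r0 L1, if_pos K1, if_pos L3, u1, u1])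
  have c1 := coeff_DD hr g hN r0 Km g.order
  have c2 := coeff_DD hr g hN r0 rm g.order
  have o1 := mt HahnSeries.coeff_order_eq_zero.1 g0
  have o2 : 0 < g.order := not_le.1 fun a => o1 (gp _ a)
  have o3 : g.coeff (g.order / r ^ 2) = 0 := HahnSeries.coeff_eq_zero_of_lt_order
    (Int.ediv_lt_self_of_pos_of_ne_one o2 (by
      exact_mod_cast (one_lt_pow₀ hp.one_lt two_ne_zero).ne'))
  rw [K0, if_pos K1, u1, o3] at c1
  rw [L4, if_neg (lt_irrefl r), o3] at c2
  simp only [ite_self, HahnSeries.coeff_zero] at c1 c2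
  exact mul_ne_zero r1 o1 (by linear_combination c1 - c2)

end Pool.Agent.MP_c481b3_nt.H31F
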