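import Pool.Agent.MP_c481b3_nt.H31F.Spec3
import Pool.Agent.MP_c481b3_nt.H31F.Ord

set_option autoImplicit false

namespace Pool.Agent.MP_c481b3_nt.H31F

open UpperHalfPlane hiding I
open Complex Polynomial IsLocalRing Finset

namespace Ord2Aux

open TrAux OrdAux

theorem sb_pos {k : Type} [Field k] {F : LS k} (h : ∀ n, Odd n → F.coeff n = 0) :
    sb (-1) 1 F = F := by
  ext n
  rw [coeff_sb one_pos]
  obtain e | e := Int.even_or_odd n
  · simp [e.neg_one_zpow]
  · simp [h n e]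

theorem eps_pow (γ : M2) {n : ℕ} (hn : Even n) : (eps γ : ℂ) ^ n = 1 := by
  rw [eps]
  split_ifs
  · simp
  · simp [hn.neg_one_pow]

variable {O : ValuationSubring ℂ}

theorem ra_eps (b : AsyRing) {N : ℕ} (hN : 0 < N) (γ : M2) {f : ℍ → ℂ} {F : LS (ResidueField O)}
    (h : RA O N f F) (h' : RA O N (fun τ => eps γ * f τ) 0) : F = 0 := by
  have c := ra_mul b hN (ra_C b hN ((eps γ : ℤ) : O)) h'
  have e : (fun τ => (((eps γ : ℤ) : O) : ℂ) * (eps γ * f τ)) = f := by
    funext τ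
    have := eps_pow γ even_two
    push_cast
    linear_combination f τ * this
  rw [e, mul_zero] at c
  exact ra_uniq b hN h c

/-- odd numerator and even denominator -/
theorem odd_rep (b : B1) {g : LS (ResidueField O)} (hg : InU _ g)
    (ge : ∀ n, Odd n → g.coeff n = 0) : ∃ P₁ P₂ : O[X], P₁.comp (-X) = -P₁ ∧ P₂.comp (-X) = P₂ ∧
      ((2 : ResidueField O) ≠ 0 → P₂.map (residue O) ≠ 0) ∧
      g * aeval (Yc _) (P₂.map (residue O)) = th (Yc _) * aeval (Yc _) (P₁.map (residue O)) := by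
  obtain ⟨P₁, P₂, h2, hg⟩ := hg
  obtain ⟨P₁, rfl⟩ := Polynomial.map_surjective _ (residue_surjective (R := O)) P₁
  obtain ⟨P₂, rfl⟩ := Polynomial.map_surjective _ (residue_surjective (R := O)) P₂
  have y1 : ∀ n, Even n → (Yc (ResidueField O)).coeff n = 0 := fun n hn => by
    simp [Yc, b.y2.Ye n hn]
  have h3 := congrArg (sb (-1) 1) hg
  rw [map_mul, map_mul, sb_aeval one_pos, sb_aeval one_pos, sb_pos ge, sb_neg y1,
    sb_neg fun n hn => by rw [coeff_th, y1 n hn, mul_zero]] at h3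
  have e : ∀ P : O[X], (P.comp (-X)).comp (-X) = P := fun P => by simp [comp_assoc]
  refine ⟨P₁ * P₂.comp (-X) - P₁.comp (-X) * P₂, 2 * (P₂ * P₂.comp (-X)), ?_, ?_, fun h => ?_, ?_⟩
  · rw [sub_comp, mul_comp, mul_comp, e, e, neg_sub]
  · rw [mul_comp, mul_comp, e, mul_comm P₂]
    simp
  · rw [Polynomial.map_mul, Polynomial.map_mul, map_comp, Polynomial.map_neg, map_X,
      Polynomial.map_ofNat]
    refine mul_ne_zero (fun z => h ?_) (mul_ne_zero h2 fun z => h2 ?_)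
    · simpa using congrArg (eval 0) z
    · simpa [comp_assoc] using congrArg (fun P => P.comp (-X)) z
  · simp only [Polynomial.map_mul, Polynomial.map_sub, map_comp, Polynomial.map_neg, map_X,
      Polynomial.map_ofNat, map_mul, map_sub, aeval_comp, map_neg, aeval_X, map_ofNat]
    linear_combination aeval (-Yc (ResidueField O)) (P₂.map (residue O)) * hg +
      aeval (Yc (ResidueField O)) (P₂.map (residue O)) * h3

theorem RR_perm2 (b : B2) (s : Finset ℕ) (w w' : ℕ → O) {P₁ P₂ : O[X]} (e1 : P₁.comp (-X) = -P₁)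
    (e2 : P₂.comp (-X) = P₂) (δ : ℕ → M2) (h3 : ∀ i, 0 < (δ i).det) {γ : M2} (h1 : γ.det = 1)
    {π : ℕ → ℕ} (hπ : Set.BijOn π s s)
    (h : ∀ i ∈ s, ∃ γ' : M2, γ'.det = 1 ∧ δ i * γ = γ' * δ (π i) ∧ eps γ' = eps γ)
    (hw : ∀ i ∈ s, w i = w' (π i)) (τ : ℍ) :
    RR s w P₁ P₂ δ (act γ τ) = eps γ * RR s w' P₁ P₂ δ τ := by
  have a0 : ∀ i ∈ s, YY (act (δ i) (act γ τ)) = eps γ * YY (act (δ (π i)) τ) := fun i hi => by
    obtain ⟨γ', c1, c2, c3⟩ := h i hi
    rw [← act_mul (h3 i) (by rw [h1]; exact one_pos), c2,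
      act_mul (by rw [c1]; exact one_pos) (h3 _), b.y1.tY _ _ c1, c3]
  have a1 : ∀ i ∈ s, (P₂.map O.subtype).eval (YY (act (δ i) (act γ τ)))
      = (P₂.map O.subtype).eval (YY (act (δ (π i)) τ)) := fun i hi => by
    rw [a0 i hi, eps]
    split_ifs
    · simp
    · have := congrArg (fun Q => (Polynomial.map O.subtype Q).eval (YY (act (δ (π i)) τ))) e2
      simpa only [map_comp, eval_comp, Polynomial.map_neg, map_X, eval_neg, eval_X, Int.cast_neg,
        Int.cast_one, neg_one_mul] using this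
  have a3 : ∀ i ∈ s, (P₁.map O.subtype).eval (YY (act (δ i) (act γ τ)))
      = eps γ * (P₁.map O.subtype).eval (YY (act (δ (π i)) τ)) := fun i hi => by
    rw [a0 i hi, eps]
    split_ifs
    · simp
    · have := congrArg (fun Q => (Polynomial.map O.subtype Q).eval (YY (act (δ (π i)) τ))) e1
      simpa only [map_comp, eval_comp, Polynomial.map_neg, map_X, eval_neg, eval_X, Int.cast_neg,
        Int.cast_one, neg_one_mul] using this
  have a2 : ∀ i ∈ s, PH (δ i) (act γ τ) = PH (δ (π i)) τ := fun i hi => by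
    obtain ⟨γ', c1, c2, c3⟩ := h i hi
    rw [(b.my.1 _ _ τ (h3 i) h1).2.2.2.2, c2, (b.my.1 _ _ τ (h3 _) c1).2.2.2.1, c3, eps]
    split_ifs <;> simp
  rw [RR, RR, mul_sum]
  refine sum_nbij π hπ.mapsTo hπ.injOn hπ.surjOn fun i hi => ?_
  have a4 : ∏ j ∈ s.erase i, (P₂.map O.subtype).eval (YY (act (δ j) (act γ τ))) =
      ∏ j ∈ s.erase (π i), (P₂.map O.subtype).eval (YY (act (δ j) τ)) := by
    refine prod_nbij π (fun j hj => mem_erase.2 ⟨fun e => (mem_erase.1 hj).1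
      (hπ.injOn (mem_of_mem_erase hj) hi e), hπ.mapsTo (mem_of_mem_erase hj)⟩)
      (hπ.injOn.mono (coe_subset.2 (erase_subset _ _))) (fun j hj => ?_)
      fun j hj => a1 j (mem_of_mem_erase hj)
    obtain ⟨l, l1, rfl⟩ := hπ.surjOn (mem_of_mem_erase hj)
    exact ⟨l, mem_erase.2 ⟨fun e => (mem_erase.1 hj).1 (by rw [e]), l1⟩, rfl⟩
  rw [hw i hi, a2 i hi, a3 i hi, a4]
  ring

end Ord2Aux

open TrAux OrdAux Ord2Aux in
theorem ord2_of (b : B2) (h : STAB) : ORD2 := by
  intro O g hg g0 gp ge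
  have hr : ∀ r : ℚ, (ru r : ℂ) ∈ O := fun r => ((b.mr O 1 one_pos).2.2.2.2.2 r).1
  obtain ⟨P₁, P₂, e1, e2, h2, hg⟩ := odd_rep b.toB1 hg ge
  obtain ⟨E, E0, hE⟩ := ra_E b.toB1 hr one_pos
  obtain ⟨m, m1, m2⟩ := exists_lo E (aeval (Yc _) (P₂.map (residue O)))
  refine ⟨6 * m, fun r hp r2 t0 r0 r1 => by_contra fun hc => ?_⟩
  push Not at hc
  have hN := hp.pos
  have P0 : aeval (Yc (ResidueField O)) (P₂.map (residue O)) ≠ 0 := fun z => by
    have := (b.pol.top _ (P₂.map (residue O))).1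
    rw [z] at this
    exact leadingCoeff_ne_zero.2 (h2 t0) this.symm
  have hE' := ra_sub b.sub hr hN (a := 1) (d := 1) (e := r) 0 one_pos one_pos (by simp) hE
  simp only [show tri 1 0 1 = 1 by rw [Matrix.one_fin_two]; rfl, act_one] at hE'
  have ep : ∀ i, 0 < (if i < r then 1 else r ^ 2) := fun i => by split_ifs <;> positivity
  obtain ⟨D, D0, D1, hD⟩ : ∃ D, D ≠ 0 ∧ Lo (-m * (2 * r + r ^ 2)) D ∧ ∀ H,
      RA O r (RR (range (r + 1)) (WT O r H) P₁ P₂ (dm r)) (D * DD hr g r H) := by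
    refine ⟨_, ?_, ?_, fun H => ra_RR' b.toB1 hr hN _ _ P₁ P₂ g _ hE' hg _ _ _ _
      (fun i => by split_ifs <;> positivity) (fun i => by split_ifs <;> positivity)
      fun i => by split_ifs <;> ring⟩
    · exact mul_ne_zero ((map_ne_zero_iff _ (sb_injective hN _)).2 E0)
        (prod_ne_zero_iff.2 fun j _ => (map_ne_zero_iff _ (sb_injective (ep j) _)).2 P0)
    · refine fun n hn => (m1.sb hN _).mul (Lo.prod _
        (m := fun j => ((if j < r then 1 else r ^ 2 : ℕ) : ℤ) * -m) fun j _ => m2.sb (ep j) _) n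
        (hn.trans_eq ?_)
      rw [sum_range_succ, if_neg (lt_irrefl r),
        sum_congr rfl fun i hi => by rw [if_pos (mem_range.1 hi)]]
      simp
      ring
  have hM := fun H => mem_RR b hN (range (r + 1)) (WT O r H) P₁ P₂ (dm r) (det_dm r)
  have mv : ∀ γ : M2, γ.det = 1 → ∃ π : ℕ → ℕ, Set.BijOn π (range (r + 1)) (range (r + 1)) ∧
      ∀ H ∈ range (r + 1), (∃ γ' : M2, dm r H * γ = γ' * dm r (π H)) ∧ ∀ τ,
        RR (range (r + 1)) (WT O r H) P₁ P₂ (dm r) (act γ τ) =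
          eps γ * RR (range (r + 1)) (WT O r (π H)) P₁ P₂ (dm r) τ := fun γ hγ => by
    obtain ⟨π, p1, p2⟩ := perm_dm b.mat hp r2 hγ
    exact ⟨π, p1, fun H hH => ⟨(p2 H hH).imp fun _ a => a.2.1, RR_perm2 b _ _ _ e1 e2 _
      (fun i => by rw [det_dm]; exact_mod_cast hN) hγ p1 p2 fun i hi => by
        simp only [WT, p1.injOn.eq_iff hi hH]⟩⟩
  have rm : r ∈ range (r + 1) := self_mem_range_succ r
  have v0 : ∀ n : ℤ, n ≤ 0 → g.coeff (n / r ^ 2) = 0 := fun n hn =>
    gp _ (Int.ediv_nonpos_of_nonpos_of_neg hn (by positivity))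
  have hz := inv_top b hN ((b.mr O r hN).2.2.2.2.1 _ (range (r + 1)) _ fun H _ => hM H).2.hol
    (fun γ τ hγ => by
      obtain ⟨π, p1, p2⟩ := mv γ hγ
      rw [prod_congr rfl fun H hH => (p2 H hH).2 τ, prod_mul_distrib, prod_const, card_range,
        eps_pow γ (hp.odd_of_ne_two r2).add_one, one_mul]
      exact prod_nbij π p1.mapsTo p1.injOn p1.surjOn fun H hH => rfl)
    (ra_prod b.ring hN _ fun H _ => hD H) (fun n hn => Lo.prod _
      (m := fun H => -m * (2 * r + r ^ 2) + if H = r then (6 * m * r ^ 3 + 1 : ℤ) else 0)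
      (fun H hH => D1.mul fun n hn => ?_) n (hn.trans_le ?_))
  rotate_left
  · rw [coeff_DD hr g hN r0 hH]
    by_cases n0 : n ≤ 0
    · simp [gp n n0, v0 n n0]
    obtain rfl : H = r := by_contra fun a => by
      rw [if_neg a] at hn
      omega
    rw [if_pos rfl] at hn
    rw [if_neg (lt_irrefl _)]
    by_cases a : (H : ℤ) ∣ n
    · obtain ⟨t, rfl⟩ := a
      have H0 : (0 : ℤ) < H := by exact_mod_cast hN
      have t0 : 0 < t := pos_of_mul_pos_right (not_le.1 n0) H0.le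
      lift t to ℕ using t0.le
      have := hc t (by exact_mod_cast t0) (by
        have : (H : ℤ) * t ≤ H * (6 * m * H ^ 2) := by linarith
        exact_mod_cast le_of_mul_le_mul_left this H0)
      rw [if_pos (dvd_mul_right _ _), ← Nat.cast_mul, this, Nat.cast_mul, pow_two (H : ℤ),
        Int.mul_ediv_mul_of_pos _ _ H0]
      simp only [mul_dvd_mul_iff_left H0.ne', Int.natCast_dvd_natCast, Int.natCast_div]
      ring
    · rw [if_neg a, if_neg fun c => a ((dvd_pow_self _ two_ne_zero).trans c)]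
      simp
  · rw [sum_add_distrib, sum_ite_eq', if_pos rm, sum_const, card_range, nsmul_eq_mul]
    have : (1 : ℤ) ≤ r := by exact_mod_cast hN
    have h3 : (0 : ℤ) ≤ m * (r * ((r - 1) * (5 * r + 2))) := by
      have : (0 : ℤ) ≤ r - 1 := by omega
      positivity
    push_cast
    linarith
  obtain ⟨H, hH, H0⟩ := prod_eq_zero_iff.1 hz
  replace H0 := (mul_eq_zero.1 H0).resolve_left D0
  obtain ⟨γ, g1, g2, -, g4⟩ := h O r 1 hp r2 one_pos hp.not_dvd_one
    ((O.valuation_eq_one_iff (r : O)).1 ((residue_ne_zero_iff_isUnit _).1 (by rwa [map_natCast])))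
  rw [mul_one] at g4
  obtain ⟨π, p1, p2⟩ := mv γ g1
  have tr : ∀ H ∈ range (r + 1), DD hr g r H = 0 → DD hr g r (π H) = 0 := fun H hH z => by
    have a := hD H
    rw [z, mul_zero] at a
    have c := g4 _ (hM H) a
    rw [funext (p2 H hH).2] at c
    exact (mul_eq_zero.1 (ra_eps b.ring hN γ (hD _) c)).resolve_left D0
  have pr : π r ≠ r := fun z => by
    obtain ⟨γ', a⟩ := (p2 r rm).1
    have c := congrFun (congrFun a 1) 0
    have d := g2 1 0
    simp [z, dm, tri, Matrix.mul_apply] at c d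
    rw [c] at d
    exact hp.not_dvd_one (Int.natCast_dvd_natCast.1 ((dvd_sub_right (dvd_mul_left _ _)).1 d))
  obtain ⟨K, K1, K0⟩ : ∃ K, K < r ∧ DD hr g r K = 0 := by
    by_cases a : H = r
    · exact ⟨π r, (Nat.lt_succ_iff.1 (mem_range.1 (p1.mapsTo rm))).lt_of_ne pr, tr r rm (a ▸ H0)⟩
    · exact ⟨H, (Nat.lt_succ_iff.1 (mem_range.1 hH)).lt_of_ne a, H0⟩
  have Km : K ∈ range (r + 1) := mem_range.2 (by omega)
  have u1 : ∀ (i : ℕ) (n : ℤ), ((rk hr (2 / r) ^ (i * n) : (ResidueField O)ˣ) : ResidueField O) *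
      g.coeff n = g.coeff n := fun i n => by
    by_cases a : (r : ℤ) ∣ n
    · rw [((prim hr r0).zpow_eq_one_iff_dvd _).2 (a.mul_left _), Units.val_one, one_mul]
    have c := coeff_DD hr g hN r0 Km n
    rw [K0, if_neg a, if_neg fun c => a ((dvd_pow_self _ two_ne_zero).trans c), if_pos K1] at c
    have : g.coeff n = 0 := by simpa [r1, zpow_ne_zero] using c
    rw [this, mul_zero]
  obtain ⟨L, L1, L2⟩ := p1.surjOn rm
  have L3 : L < r := (Nat.lt_succ_iff.1 (mem_range.1 L1)).lt_of_ne fun z => pr (z ▸ L2)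
  have L4 : DD hr g r r = 0 := L2 ▸ tr L L1 (by
    rw [← K0]
    ext n
    rw [coeff_DD hr g hN r0 Km, coeff_DD hr g hN r0 L1, if_pos K1, if_pos L3, u1, u1])
  have c1 := coeff_DD hr g hN r0 Km g.order
  have c2 := coeff_DD hr g hN r0 rm g.order
  have o1 := mt HahnSeries.coeff_order_eq_zero.1 g0
  have o2 : 0 < g.order := not_le.1 fun a => o1 (gp _ a)
  have o3 : g.coeff (g.order / r ^ 2) = 0 := HahnSeries.coeff_eq_zero_of_lt_order
    (Int.ediv_lt_self_of_pos_of_ne_one o2 (by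
      exact_mod_cast (one_lt_pow₀ hp.one_lt two_ne_zero).ne'))
  rw [K0, if_pos K1, u1, o3] at c1
  rw [L4, if_neg (lt_irrefl r), o3] at c2
  simp only [ite_self, HahnSeries.coeff_zero] at c1 c2
  exact mul_ne_zero r1 o1 (by linear_combination c1 - c2)

end Pool.Agent.MP_c481b3_nt.H31F
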