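import Pool.Agent.MP_c481b3_nt.H31F.Spec2
import Pool.Agent.MP_c481b3_nt.H31F.Lv

set_option autoImplicit false

namespace Pool.Agent.MP_c481b3_nt.H31F

open UpperHalfPlane hiding I
open Complex Polynomial Finset
open scoped Real

namespace PhiAux

lemma newton {A σ : Type} [CommRing A] [Fintype σ] (S : Subring A)
    (hS : ∀ k : ℕ, k ≠ 0 → ∀ x : A, k * x ∈ S → x ∈ S) (u : σ → A) (h : ∀ k, ∑ i, u i ^ k ∈ S)
    {y : A} (hy : y ∈ S) : ∏ i, (y - u i) ∈ S := by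
  have key : ∀ k, (univ.val.map u).esymm k ∈ S := by
    intro k
    induction k using Nat.strong_induction_on with
    | _ k ih =>
      rcases eq_or_ne k 0 with rfl | k0
      · simp [Multiset.esymm]
      have e := congrArg (MvPolynomial.aeval u) (MvPolynomial.mul_esymm_eq_sum σ ℤ k)
      simp only [map_mul, map_natCast, map_pow, map_neg, map_one, map_sum, MvPolynomial.psum,
        MvPolynomial.aeval_esymm_eq_multiset_esymm, MvPolynomial.aeval_X] at e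
      exact hS k k0 _ (e ▸ mul_mem (pow_mem (neg_mem (one_mem S)) _) (sum_mem fun a ha =>
        mul_mem (mul_mem (pow_mem (neg_mem (one_mem S)) _) (ih _ (mem_filter.1 ha).2)) (h _)))
  have e := congrArg (eval y) (Multiset.prod_X_sub_X_eq_sum_esymm (univ.val.map u))
  simp only [eval_multiset_prod, Multiset.map_map, Function.comp_def, eval_sub, eval_X, eval_C,
    eval_finsetSum, eval_mul, eval_pow, eval_neg, eval_one] at e
  exact (show ∏ i, (y - u i) = _ from e) ▸ sum_mem fun j _ =>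
    mul_mem (pow_mem (neg_mem (one_mem S)) _) (mul_mem (key j) (pow_mem hy _))

/-- the rational numbers -/
noncomputable def QQ : Subring ℂ := (Rat.castHom ℂ).range

/-- functions with rational expansions -/
def RQ (b : B1) {N : ℕ} (hN : 0 < N) : Subring (ℍ → ℂ) where
  carrier := {f | ∃ F ∈ ovr QQ, Asy N f F}
  mul_mem' := fun ⟨F, h1, h2⟩ ⟨G, h3, h4⟩ =>
    ⟨F * G, mul_mem h1 h3, (b.ring N hN).2.2.1 _ _ _ _ h2 h4⟩
  one_mem' := ⟨1, one_mem _, (b.ring N hN).1 1⟩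
  add_mem' := fun ⟨F, h1, h2⟩ ⟨G, h3, h4⟩ =>
    ⟨F + G, add_mem h1 h3, (b.ring N hN).2.1 _ _ _ _ h2 h4⟩
  zero_mem' := ⟨0, zero_mem _, by
    have := (b.ring N hN).1 0
    rwa [map_zero] at this⟩
  neg_mem' := fun ⟨F, h1, h2⟩ => ⟨-F, neg_mem h1, by
    have := (b.ring N hN).2.2.1 _ _ _ _ ((b.ring N hN).1 (-1)) h2
    rw [map_neg, map_one, neg_one_mul F] at this
    simp only [neg_one_mul] at this
    exact this⟩

lemma rq_div (b : B1) {N : ℕ} (hN : 0 < N) (k : ℕ) (hk : k ≠ 0) (f : ℍ → ℂ)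
    (h : k * f ∈ RQ b hN) : f ∈ RQ b hN := by
  have h1 : (fun _ => (k : ℂ)⁻¹) ∈ RQ b hN :=
    ⟨_, ⟨HahnSeries.C ⟨_, (k : ℚ)⁻¹, (map_inv₀ _ _).trans (congrArg _ (map_natCast _ k))⟩, mapL_C _ _⟩, (b.ring N hN).1 _⟩
  convert mul_mem h1 h using 1
  funext τ
  simp [hk]

lemma asyJ (b : B1) (k : ℕ) :
    Asy 1 (fun τ => JJ τ ^ k) (mapL (Int.castRingHom ℂ) ((Ys ^ 2 + 1728) ^ k)) := by
  have := (b.ring 1 one_pos).2.2.2.2.2.2.1 _ _ ((X ^ 2 + 1728) ^ k) b.y2.aY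
  simp only [eval_add, eval_pow, eval_X, eval_ofNat, map_add, map_pow, aeval_X, map_ofNat] at this ⊢
  exact this

lemma sum_ru {d : ℕ} (hd : 0 < d) (j : ℤ) :
    ∑ c ∈ range d, ((ru ((((1 * c : ℕ) : ℤ) : ℚ) / (d * (1 : ℕ))) ^ (2 * j) : ℂˣ) : ℂ) ∈ QQ := by
  have d0 : (d : ℂ) ≠ 0 := Nat.cast_ne_zero.2 hd.ne'
  have e : ∀ c : ℕ, ((ru ((((1 * c : ℕ) : ℤ) : ℚ) / (d * (1 : ℕ))) ^ (2 * j) : ℂˣ) : ℂ) =
      cexp (j * (2 * π * I) / d) ^ c := fun c => by
    rw [Units.val_zpow_eq_zpow_val, ru, Units.val_mk0, ← exp_int_mul, ← exp_nat_mul]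
    congr 1
    push_cast
    ring
  simp only [e]
  by_cases h : cexp (j * (2 * π * I) / d) = 1
  · simp [h]
  · rw [geom_sum_eq h, ← exp_nat_mul, mul_div_cancel₀ _ d0, exp_int_mul_two_pi_mul_I, sub_self,
      zero_div]
    exact zero_mem _

lemma psum (b : B1) {N : ℕ} (hN : 0 < N) (k : ℕ) :
    (fun τ => ∑ M ∈ Hk 1 N, JJ (act M τ) ^ k) ∈ RQ b hN := by
  have h0 : ∀ d ∈ N.divisors, 0 < N / d := fun d h =>
    Nat.div_pos (Nat.divisor_le h) (Nat.pos_of_mem_divisors h)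
  simp only [b.mat.sum 1 N one_pos]
  refine ⟨_, ?_, ((b.ring N hN).2.2.2.2.2.2.2 _ _ _ _ fun d hd =>
    ((b.ring N hN).2.2.2.2.2.2.2 _ _ _ _ fun c _ => b.sub 1 N (N / d) d ((N / d) ^ 2) _ one_pos hN
      (h0 d hd) (Nat.pos_of_mem_divisors hd) ?_ _ _ (asyJ b k)).1).1⟩
  · refine sum_mem fun d hd => mem_ovr.2 fun n => ?_
    rw [HahnSeries.coeff_sum]
    simp only [coeff_sb (pow_pos (h0 d hd) 2)]
    split_ifs
    · rw [← sum_mul]
      generalize n / ((N / d) ^ 2 : ℕ) = j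
      by_cases c : (mapL (Int.castRingHom ℂ) ((Ys ^ 2 + 1728) ^ k)).coeff j = 0
      · rw [c, mul_zero]
        exact zero_mem _
      · obtain ⟨i, rfl⟩ := LvAux.supp b one_pos (asyJ b k) (i := 0)
          (fun γ τ h => by rw [b.y1.tJ γ τ h, pow_zero, one_mul]) j c
        rw [Nat.cast_one (R := ℤ), one_mul, Nat.cast_zero, zero_add]
        exact mul_mem (sum_ru (Nat.pos_of_mem_divisors hd) i) (intCast_mem _ _)
    · simp
  · rw [mul_one, pow_two, mul_assoc, Nat.div_mul_cancel (Nat.dvd_of_mem_divisors hd)]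

lemma det_eq (b : B1) {N : ℕ} {H : M2} (h : H ∈ Hk 1 N) : H.det = N := by
  obtain ⟨a, d, c, -, -, rfl, -, rfl⟩ := (b.mat.mem 1 N H).1 h
  rw [Matrix.det_fin_two_of]
  simp

end PhiAux

theorem surj_of (b : B1) (h : LV) : SURJ := by
  intro y
  by_contra c
  push Not at c
  have h1 : ∀ τ, YY τ ^ 2 - y ^ 2 ≠ 0 := fun τ e => by
    rcases sq_eq_sq_iff_eq_or_eq_neg.1 (sub_eq_zero.1 e) with k | k
    · exact c τ k
    · refine c (act !![1, 1; 0, 1] τ) ?_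
      rw [b.y1.tY _ _ (by simp), k]
      simp [eps]
  have h2 : aeval (Yc ℂ) (X ^ 2 - C (y ^ 2) : ℂ[X]) ≠ 0 := fun e => by
    have := (b.pol.top ℂ (X ^ 2 - C (y ^ 2))).1
    rw [e, leadingCoeff_X_pow_sub_C two_pos] at this
    exact zero_ne_one this
  have h3 := (b.ring 1 one_pos).2.2.2.1 _ _
    ((b.ring 1 one_pos).2.2.2.2.2.2.1 _ _ (X ^ 2 - C (y ^ 2)) b.y2.aY) h2
  simp only [eval_sub, eval_pow, eval_X, eval_C] at h3
  have h4 : Hol fun τ => (YY τ ^ 2 - y ^ 2)⁻¹ := by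
    simp only [inv_eq_one_div]
    exact mdifferentiable_const.div ((b.y1.hY.pow 2).sub mdifferentiable_const) h1
  obtain ⟨P, -, -, -, p⟩ := (h 1 ⊤ _ _ one_pos h4 h3 (mem_ovr.2 fun _ => trivial)).1 0
    fun γ τ k => by rw [b.y1.tY γ τ k, mul_pow, LvAux.eps_sq, one_mul, pow_zero, one_mul]
  have h5 := (b.pol.top ℂ (P * (X ^ 2 - C (y ^ 2)) - 1)).1
  rw [map_sub, map_mul, ← ex_one (Yc ℂ), ← p, ex_one, inv_mul_cancel₀ h2, map_one, sub_self] at h5
  simpa using congrArg (eval y) (leadingCoeff_eq_zero.1 h5.symm)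

open PhiAux in
theorem phi_of (b : B2) (_h1 : SURJ) (_h2 : AUT) (h3 : VLS) : PHI := by
  intro N hN
  have hd : ∀ H ∈ Hk 1 N, 0 < H.det := fun H h => det_eq b.toB1 h ▸ Int.natCast_pos.2 hN
  have m : ∀ O, Mem O N fun τ => ∏ M ∈ Hk 1 N, (JJ τ - JJ (act M τ)) := fun O => by
    have k : ∀ M : M2, 0 < M.det → M.det ∣ N → Mem O N fun τ => JJ (act M τ) := fun M a c => by
      have y := (b.my.2 O N M hN a c).1
      have := ((b.mr O N hN).2.1 _ _ ((b.mr O N hN).2.1 _ _ y y).2.2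
        ((b.mr O N hN).1 1728 (ofNat_mem O 1728))).1
      simpa only [JJ, pow_two] using this
    have k1 := k 1 (by simp) (by simp)
    simp only [act_one] at k1
    exact ((b.mr O N hN).2.2.2.2.1 _ _ _ fun M hM =>
      ((b.mr O N hN).2.1 _ _ k1 (k M (hd M hM) (det_eq b.toB1 hM).dvd)).2.1).2
  have j : JJ ∈ RQ b.toB1 hN := by
    have := b.sub 1 N 1 1 N 0 one_pos hN one_pos one_pos (by ring) _ _ (asyJ b.toB1 1)
    simp only [Nat.cast_one, ← Matrix.one_fin_two, act_one, pow_one (JJ _)] at this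
    refine ⟨_, mem_ovr.2 fun n => ?_, this⟩
    rw [coeff_sb hN]
    split_ifs
    · refine mul_mem ?_ (intCast_mem _ _)
      simp [ru]
    · exact zero_mem _
  obtain ⟨F, f1, f2⟩ := newton (RQ b.toB1 hN) (rq_div b.toB1 hN)
    (fun (H : Hk 1 N) τ => JJ (act H τ)) (fun k => by
      convert psum b.toB1 hN k using 1
      funext τ
      simp only [Finset.sum_apply, Pi.pow_apply]
      exact sum_coe_sort (Hk 1 N) fun M => JJ (act M τ) ^ k) j
  replace f2 : Asy N (fun τ => ∏ M ∈ Hk 1 N, (JJ τ - JJ (act M τ))) F := by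
    convert f2 using 1
    funext τ
    rw [← prod_coe_sort]
    simp
  have f3 : F ∈ ovr (Int.castRingHom ℂ).range := mem_ovr.2 fun n => by
    have i : IsIntegral ℤ (F.coeff n) := (h3.int _).2 fun O => by
      obtain ⟨G, g1, g2⟩ := (m O).asy 1 Matrix.det_one
      simp only [act_one] at g2
      rw [(b.ring N hN).2.2.2.2.1 _ _ _ f2 g2]
      exact mem_ovr.1 g1 n
    obtain ⟨q, e⟩ := mem_ovr.1 f1 n
    rw [← e] at i ⊢
    obtain ⟨z, rfl⟩ := IsIntegrallyClosed.isIntegral_iff.1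
      ((isIntegral_algebraMap_iff (algebraMap ℚ ℂ).injective).1 i)
    exact ⟨z, by simp⟩
  obtain ⟨P, p1, p2⟩ := (b.lv N _ _ F hN (m ⊤).hol f2 f3).2 fun γ τ hγ => by
    obtain ⟨σ, s1, s2⟩ := b.mat.perm 1 N γ (Nat.coprime_one_left N) hγ
    refine prod_nbij σ s1.mapsTo s1.injOn s1.surjOn fun H hH => ?_
    obtain ⟨γ', g1, g2, -⟩ := s2 H hH
    rw [← act_mul (hd H hH) (hγ ▸ one_pos), g2, act_mul (g1 ▸ one_pos) (hd _ (s1.mapsTo hH)),
      b.y1.tJ _ _ g1, b.y1.tJ _ _ hγ]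
  obtain ⟨T, rfl⟩ : P ∈ lifts (Int.castRingHom ℂ) := (lifts_iff_coeff_lifts P).2 p1
  exact ⟨T, fun τ => (p2 τ).trans (eval_map_algebraMap T _)⟩

end Pool.Agent.MP_c481b3_nt.H31F
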