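import Pool.Agent.MP_c481b3_nt.H31F.Spec

set_option autoImplicit false

namespace Pool.Agent.MP_c481b3_nt.H31F

namespace PiAux

variable {Γ : Type} [LinearOrderedCommGroupWithZero Γ] {v : Valuation ℂ Γ} {p : ℕ} {t n : ℤ}
  {w w' : ℂ}

lemma exists_prime (hv : ∀ m : ℤ, v m ≤ 1) (m : ℕ) (h0 : m ≠ 0) (h : v m < 1) :
    ∃ p : ℕ, p.Prime ∧ v p < 1 := by
  induction m using induction_on_primes with
  | zero => exact absurd rfl h0
  | one => simp at h
  | prime_mul q a hq ih =>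
    rcases (show v q ≤ 1 by simpa using hv q).lt_or_eq with k | k
    · exact ⟨q, hq, k⟩
    · exact ih (right_ne_zero_of_mul h0) (by simpa [k] using h)

lemma dvd_of_lt (hv : ∀ m : ℤ, v m ≤ 1) (hp : p.Prime) (h : v p < 1) {m : ℤ} (hm : v m < 1) :
    (p : ℤ) ∣ m := by
  by_contra k
  obtain ⟨a, b, e⟩ := (Nat.prime_iff_prime_int.1 hp).irreducible.coprime_iff_not_dvd.2 k
  have e' : (a : ℂ) * p + b * m = 1 := by exact_mod_cast e
  have := v.map_add_lt (x := a * p) (y := b * m) (g := 1)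
    (by rw [map_mul]; exact mul_lt_one_of_nonneg_of_lt_one_right (hv a) zero_le h)
    (by rw [map_mul]; exact mul_lt_one_of_nonneg_of_lt_one_right (hv b) zero_le hm)
  simp [e'] at this

lemma vp_pos (hp : p.Prime) : 0 < v p :=
  zero_lt_iff.2 ((map_ne_zero v).2 (Nat.cast_ne_zero.2 hp.ne_zero))

lemma pow_dvd_of_le (hv : ∀ m : ℤ, v m ≤ 1) (hp : p.Prime) (h : v p < 1) (k : ℕ) :
    ∀ m : ℤ, v m ≤ v p ^ k → (p : ℤ) ^ k ∣ m := by
  induction k with
  | zero => simp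
  | succ k ih =>
    intro m hm
    obtain ⟨m, rfl⟩ := dvd_of_lt hv hp h (hm.trans_lt (pow_lt_one₀ zero_le h k.succ_ne_zero))
    rw [pow_succ']
    refine mul_dvd_mul_left _ (ih m ?_)
    rw [Int.cast_mul, map_mul, pow_succ', Int.cast_natCast] at hm
    exact le_of_mul_le_mul_left hm (vp_pos hp)

/-- the data of an imaginary quadratic order in which `p` is not ramified -/
structure Dat (v : Valuation ℂ Γ) (p : ℕ) (t n : ℤ) (w w' : ℂ) : Prop where
  hv : ∀ m : ℤ, v m ≤ 1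
  hp : p.Prime
  lt : v p < 1
  tr : w + w' = t
  nm : w * w' = n
  neg : t ^ 2 < 4 * n
  nd : ¬(p : ℤ) ∣ t ^ 2 - 4 * n

lemma Dat.symm (D : Dat v p t n w w') : Dat v p t n w' w :=
  ⟨D.hv, D.hp, D.lt, (add_comm _ _).trans D.tr, (mul_comm _ _).trans D.nm, D.neg, D.nd⟩

lemma Dat.le (D : Dat v p t n w w') (x y : ℤ) : v (x + y * w) ≤ 1 := by
  have h : v w ≤ 1 := by
    by_contra k
    rw [not_le] at k
    have e : w * w = t * w - n := by rw [← D.tr, ← D.nm]; ring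
    have h1 : v (w * w) ≤ v w := e ▸ v.map_sub_le
      (by rw [map_mul]; exact mul_le_of_le_one_left' (D.hv t)) ((D.hv n).trans k.le)
    rw [map_mul] at h1
    exact absurd ((mul_le_iff_le_one_left (zero_lt_one.trans k)).1 h1) (not_le.2 k)
  exact v.map_add_le (D.hv x) (by rw [map_mul]; exact mul_le_one' (D.hv y) h)

lemma Dat.norm (D : Dat v p t n w w') (x y : ℤ) :
    ((x ^ 2 + t * x * y + n * y ^ 2 : ℤ) : ℂ) = (x + y * w) * (x + y * w') := by
  push_cast
  rw [← D.tr, ← D.nm]; ring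

lemma Dat.pos (D : Dat v p t n w w') {x y : ℤ} (h : x ≠ 0 ∨ y ≠ 0) :
    0 < x ^ 2 + t * x * y + n * y ^ 2 := by
  have := D.neg
  by_cases k : y = 0
  · have := h.resolve_right (not_not.2 k)
    have := pow_pos (abs_pos.2 this) 2
    rw [sq_abs] at this
    simpa [k] using this
  · nlinarith [sq_nonneg (2 * x + t * y), mul_pos (sub_pos.2 this) (pow_pos (abs_pos.2 k) 2),
      sq_abs y]

lemma Dat.dvd (D : Dat v p t n w w') {x y : ℤ} (h : v (x + y * w) < 1) (h' : v (x + y * w') < 1) :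
    (p : ℤ) ∣ x ∧ (p : ℤ) ∣ y := by
  have pp := Nat.prime_iff_prime_int.1 D.hp
  have h1 := pow_lt_one₀ zero_le (v.map_sub_lt h h') two_ne_zero
  have e : (x + y * w - (x + y * w')) ^ 2 = ((y ^ 2 * (t ^ 2 - 4 * n) : ℤ) : ℂ) := by
    push_cast
    rw [← D.tr, ← D.nm]; ring
  rw [← map_pow, e] at h1
  obtain ⟨y, rfl⟩ :=
    pp.dvd_of_dvd_pow ((pp.dvd_or_dvd (dvd_of_lt D.hv D.hp D.lt h1)).resolve_right D.nd)
  refine ⟨dvd_of_lt D.hv D.hp D.lt ?_, dvd_mul_right _ _⟩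
  have h2 : v (p * ((0 : ℤ) + y * w)) < 1 := by
    rw [map_mul]; exact mul_lt_one_of_nonneg_of_lt_one_left zero_le D.lt (D.le 0 y)
  convert v.map_sub_lt h h2 using 2
  push_cast; ring

/-- removing the powers of `p` -/
lemma Dat.desc (D : Dat v p t n w w') (k : ℕ) : ∀ x y : ℤ, y.natAbs = k →
    v (x + y * w) ≠ v (x + y * w') → ∃ a b : ℤ, v (a + b * w) = 1 ∧ v (a + b * w') < 1 ∧
      a ^ 2 + t * a * b + n * b ^ 2 ∣ x ^ 2 + t * x * y + n * y ^ 2 := by
  induction k using Nat.strong_induction_on with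
  | _ k ih =>
    intro x y hk h
    rcases (D.le x y).lt_or_eq with h1 | h1
    · rcases (D.symm.le x y).lt_or_eq with h2 | h2
      · obtain ⟨⟨x, rfl⟩, ⟨y, rfl⟩⟩ := D.dvd h1 h2
        have y0 : y ≠ 0 := by rintro rfl; simp at h
        obtain ⟨a, b, k1, k2, k3⟩ := ih y.natAbs (by
          rw [← hk, Int.natAbs_mul, Int.natAbs_natCast]
          exact lt_mul_of_one_lt_left (Int.natAbs_pos.2 y0) D.hp.one_lt) x y rfl fun e => h (by
          push_cast
          rw [mul_assoc, mul_assoc, ← mul_add, ← mul_add, map_mul, map_mul, e])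
        exact ⟨a, b, k1, k2, k3.trans ⟨p ^ 2, by ring⟩⟩
      · refine ⟨x + t * y, -y, ?_, ?_, ⟨1, by ring⟩⟩
        · rw [← h2]; congr 1; push_cast; rw [← D.tr]; ring
        · convert h1 using 2; push_cast; rw [← D.tr]; ring
    · exact ⟨x, y, h1, lt_of_le_of_ne (D.symm.le x y) fun e => h (h1.trans e.symm), dvd_rfl⟩

lemma Dat.pow (D : Dat v p t n w w') (a b : ℤ) (k : ℕ) :
    ∃ x y : ℤ, (a + b * w) ^ k = x + y * w ∧ (a + b * w') ^ k = x + y * w' := by
  induction k with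
  | zero => exact ⟨1, 0, by simp, by simp⟩
  | succ k ih =>
    obtain ⟨x, y, h, h'⟩ := ih
    refine ⟨x * a - n * y * b, x * b + y * a + t * y * b, ?_, ?_⟩
    · rw [pow_succ, h]; push_cast; rw [← D.tr, ← D.nm]; ring
    · rw [pow_succ, h']; push_cast; rw [← D.tr, ← D.nm]; ring

/-- small elements in the powers of the prime ideal -/
lemma Dat.thue (D : Dat v p t n w w') {a b : ℤ} (h : v (a + b * w) = 1) (h' : v (a + b * w') < 1)
    (j : ℕ) : ∃ (x y : ℤ) (m : ℕ), 0 < m ∧ m ≤ (1 + |t| + n).toNat ∧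
      x ^ 2 + t * x * y + n * y ^ 2 = m * p ^ (2 * j) ∧ v (x + y * w') ≤ v p ^ (2 * j) := by
  have h1 : v (a + b * w') ≤ v p := by
    obtain ⟨c, hc⟩ := dvd_of_lt D.hv D.hp D.lt (m := a ^ 2 + t * a * b + n * b ^ 2)
      (by rwa [D.norm, map_mul, h, one_mul])
    have := congrArg (fun m : ℤ => v m) hc
    simp only [D.norm, map_mul, h, one_mul, Int.cast_mul, Int.cast_natCast] at this
    exact this ▸ mul_le_of_le_one_right' (D.hv c)
  obtain ⟨X, Y, e, e'⟩ := D.pow a b (2 * j + 1)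
  have h2 : v (X + Y * w') ≤ v p ^ (2 * j + 1) := by
    rw [← e', map_pow]; exact pow_le_pow_left₀ zero_le h1 _
  have h3 : v Y = 1 := by
    refine (D.hv Y).lt_or_eq.resolve_left fun k => ?_
    have k1 : ∀ u : ℂ, v ((0 : ℤ) + (1 : ℤ) * u) ≤ 1 → v (Y * u) < 1 := fun u hu => by
      rw [map_mul]; exact mul_lt_one_of_nonneg_of_lt_one_left zero_le k (by simpa using hu)
    have := v.map_add_lt (v.map_sub_lt (h2.trans_lt (pow_lt_one₀ zero_le D.lt (by omega)))
      (k1 w' (D.symm.le 0 1))) (k1 w (D.le 0 1))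
    rw [add_sub_cancel_right, ← e, map_pow, h, one_pow] at this
    exact lt_irrefl _ this
  have p0 : 0 < p ^ j := pow_pos D.hp.pos j
  have : NeZero (p ^ (2 * j)) := ⟨(pow_pos D.hp.pos _).ne'⟩
  obtain ⟨c, hc, c', hc', hne, E⟩ := Finset.exists_ne_map_eq_of_card_lt_of_maps_to
    (s := Finset.range (p ^ j + 1) ×ˢ Finset.range (p ^ j + 1))
    (t := (Finset.univ : Finset (ZMod (p ^ (2 * j)))))
    (f := fun c => ((c.1 * Y - c.2 * X : ℤ) : ZMod (p ^ (2 * j))))
    (by simp only [Finset.card_univ, ZMod.card, Finset.card_product, Finset.card_range]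
        rw [two_mul, pow_add]; nlinarith) fun _ _ => Finset.mem_coe.2 (Finset.mem_univ _)
  simp only [Finset.mem_product, Finset.mem_range] at hc hc'
  obtain ⟨q, hq⟩ := (ZMod.intCast_eq_intCast_iff_dvd_sub _ _ _).1 E
  obtain ⟨x, hx⟩ : ∃ x : ℤ, x = c'.1 - c.1 := ⟨_, rfl⟩
  obtain ⟨y, hy⟩ : ∃ y : ℤ, y = c'.2 - c.2 := ⟨_, rfl⟩
  have h4 : v (x + y * w') ≤ v p ^ (2 * j) := by
    have e1 : (Y : ℂ) * (x + y * w') = p ^ (2 * j) * q + y * (X + Y * w') := by
      have : ((x * Y - y * X : ℤ) : ℂ) = ((p ^ (2 * j) : ℕ) * q : ℤ) := by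
        rw [← hq, hx, hy]; congr 1; ring
      push_cast at this
      linear_combination this
    have := congrArg v e1
    rw [map_mul, h3, one_mul] at this
    rw [this]
    refine v.map_add_le ?_ ?_ <;> rw [map_mul]
    · rw [map_pow]; exact mul_le_of_le_one_right' (D.hv q)
    · exact (mul_le_of_le_one_left' (D.hv y)).trans
        (h2.trans (pow_le_pow_of_le_one zero_le D.lt.le (by omega)))
  have h5 : 0 < x ^ 2 + t * x * y + n * y ^ 2 := D.pos (by
    by_contra k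
    exact hne (Prod.ext (by omega) (by omega)))
  obtain ⟨m, hm⟩ := pow_dvd_of_le D.hv D.hp D.lt (2 * j) (x ^ 2 + t * x * y + n * y ^ 2) (by
    rw [D.norm, map_mul]; exact (mul_le_of_le_one_left' (D.le x y)).trans h4)
  obtain ⟨P, hP⟩ : ∃ P : ℤ, P = (p ^ j : ℕ) := ⟨_, rfl⟩
  have P0 : 0 < P := by omega
  have P2 : (p : ℤ) ^ (2 * j) = P * P := by rw [hP, two_mul, pow_add]; push_cast; rfl
  rw [P2] at hm ⊢
  have m0 : 0 < m := (mul_pos_iff_of_pos_left (mul_pos P0 P0)).1 (hm ▸ h5)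
  have n0 : 0 < n := by nlinarith [D.neg, sq_nonneg t]
  have bx : |x| ≤ P := abs_le.2 ⟨by omega, by omega⟩
  have b2 : |y| ≤ P := abs_le.2 ⟨by omega, by omega⟩
  have h6 : P * P * m ≤ P * P * (1 + |t| + n) := by
    have k1 : x ^ 2 ≤ P * P := by rw [← sq_abs, pow_two]; gcongr
    have k2 : n * y ^ 2 ≤ n * (P * P) := by rw [← sq_abs, pow_two]; gcongr
    have k3 : t * x * y ≤ |t| * (P * P) :=
      (le_abs_self _).trans (by rw [abs_mul, abs_mul, mul_assoc]; gcongr)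
    linarith
  have h7 := le_of_mul_le_mul_left h6 (mul_pos P0 P0)
  exact ⟨x, y, m.toNat, by omega, by omega,
    by rw [hm, Int.toNat_of_nonneg m0.le, mul_comm], h4⟩

/-- a power of the prime ideal is principal -/
lemma Dat.core (D : Dat v p t n w w') {a b : ℤ} (h : v (a + b * w) ≠ v (a + b * w')) :
    ∃ (x y : ℤ) (k : ℕ), 0 < k ∧ x ^ 2 + t * x * y + n * y ^ 2 = p ^ k ∧ v (x + y * w) = 1 := by
  obtain ⟨a, b, h1, h2, -⟩ := D.desc _ a b rfl h
  choose x y m m0 m1 hN hx using D.thue h1 h2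
  obtain ⟨C, hC⟩ : ∃ C, C = (1 + |t| + n).toNat := ⟨_, rfl⟩
  rw [← hC] at m1
  have : NeZero C.factorial := ⟨C.factorial_ne_zero⟩
  obtain ⟨j, k, hk, E⟩ : ∃ j k, C ≤ k ∧ m (j + k) = m j ∧ (C.factorial : ℤ) ∣ x (j + k) - x j ∧
      (C.factorial : ℤ) ∣ y (j + k) - y j := by
    obtain ⟨i, i', hne, E⟩ := Finite.exists_ne_map_eq_of_infinite fun i : ℕ =>
      ((⟨m (C * i), Nat.lt_succ_of_le (m1 _)⟩ : Fin (C + 1)), (x (C * i) : ZMod C.factorial),
        (y (C * i) : ZMod C.factorial))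
    wlog hlt : i < i' generalizing i i'
    · exact this i' i hne.symm E.symm (by omega)
    obtain ⟨c, rfl⟩ := Nat.exists_eq_add_of_lt hlt
    simp only [Prod.mk.injEq, Fin.mk.injEq, ZMod.intCast_eq_intCast_iff_dvd_sub] at E
    refine ⟨C * i, C * (c + 1), Nat.le_mul_of_pos_right _ c.succ_pos, ?_⟩
    rw [← mul_add, ← add_assoc]
    exact ⟨E.1.symm, E.2⟩
  have hd : (m j : ℤ) ∣ C.factorial := Int.natCast_dvd_natCast.2 (Nat.dvd_factorial (m0 j) (m1 j))
  obtain ⟨c, hc⟩ := hd.trans E.2.1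
  obtain ⟨e, he⟩ := hd.trans E.2.2
  have N1 := hN j
  have N2 := hN (j + k)
  have V2 := hx (j + k)
  rw [E.1] at N2
  rw [eq_add_of_sub_eq hc, eq_add_of_sub_eq he] at N2 V2
  have m2 : (m j : ℂ) ≠ 0 := Nat.cast_ne_zero.2 (m0 j).ne'
  obtain ⟨X, hX⟩ : ∃ X : ℤ, X = p ^ (2 * j) + c * x j + c * y j * t + e * y j * n := ⟨_, rfl⟩
  obtain ⟨Y, hY⟩ : ∃ Y : ℤ, Y = e * x j - c * y j := ⟨_, rfl⟩
  have N3 : X ^ 2 + t * X * Y + n * Y ^ 2 = p ^ (2 * (j + (j + k))) := by
    refine mul_left_cancel₀ (Int.natCast_ne_zero.2 (m0 j).ne') ?_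
    rw [mul_add 2, pow_add, hX, hY]
    linear_combination p ^ (2 * j) * N2 +
      (m j * (c ^ 2 + t * c * e + n * e ^ 2) - p ^ (2 * j)) * N1
  have e1 : (m j : ℂ) * (X + Y * w') = ((m j * c + x j : ℤ) + (m j * e + y j : ℤ) * w') *
      (x j + y j * w) := by
    have := congrArg (Int.cast : ℤ → ℂ) N1
    rw [hX, hY]
    push_cast at this ⊢
    rw [← D.tr, ← D.nm] at this ⊢
    linear_combination -this
  obtain ⟨a, b, k1, k2, k3⟩ := D.desc _ X Y rfl fun e2 => by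
    have e3 := congrArg (fun m : ℤ => v m) N3
    simp only [D.norm, map_mul, e2, Int.cast_pow, Int.cast_natCast, map_pow] at e3
    rw [← pow_two, mul_comm 2, pow_mul, pow_left_inj₀ zero_le zero_le two_ne_zero] at e3
    have e4 := congrArg v e1
    rw [map_mul, map_mul, e3] at e4
    have e5 : v (m j) * v p ^ (j + (j + k)) ≤ v p ^ k * v p ^ (j + (j + k)) := by
      rw [e4, ← pow_add, show k + (j + (j + k)) = 2 * (j + k) by ring]
      exact (mul_le_of_le_one_right' (D.le _ _)).trans V2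
    have e6 := pow_dvd_of_le D.hv D.hp D.lt k (m j)
      (by simpa using le_of_mul_le_mul_right e5 (pow_pos (vp_pos D.hp) _))
    have e7 := Nat.le_of_dvd (m0 j) (Int.natCast_dvd_natCast.1 (by simpa using e6) : p ^ k ∣ m j)
    have := Nat.lt_pow_self (n := k) D.hp.one_lt
    have := m1 j
    omega
  rw [N3] at k3
  obtain ⟨i, -, hi⟩ := (dvd_prime_pow (Nat.prime_iff_prime_int.1 D.hp) _).1 k3
  have k4 : 0 < a ^ 2 + t * a * b + n * b ^ 2 := D.pos (by
    by_contra k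
    rw [not_or, not_not, not_not] at k
    simp [k.1, k.2] at k1)
  have k5 := (Int.associated_iff.1 hi).resolve_right fun e => by
    have := pow_pos (Int.natCast_pos.2 D.hp.pos) i
    omega
  refine ⟨a, b, i, Nat.pos_of_ne_zero ?_, k5, k1⟩
  rintro rfl
  have := congrArg (fun m : ℤ => v m) k5
  simp only [D.norm, map_mul, k1, one_mul, pow_zero, Int.cast_one, map_one] at this
  exact k2.ne this

/-- the primitive solution -/
lemma prim {d : ℕ} {a b : ℚ} (h : a ^ 2 + d * b ^ 2 = 1) (hz : v ((a : ℂ) + b * sq d) ≠ 1) :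
    ∃ A B C : ℤ, IsCoprime A B ∧ A ^ 2 + d * B ^ 2 = C ^ 2 ∧ C ≠ 0 ∧
      v (A + B * sq d) ≠ v (A - B * sq d) := by
  have h1 : (a : ℚ) * (a.den * b.den : ℤ) = (a.num * b.den : ℤ) := by
    push_cast; rw [← mul_assoc, Rat.mul_den_eq_num]
  have h2 : (b : ℚ) * (a.den * b.den : ℤ) = (b.num * a.den : ℤ) := by
    push_cast; rw [mul_comm (a.den : ℚ), ← mul_assoc, Rat.mul_den_eq_num]
  have c0 : (a.den * b.den : ℤ) ≠ 0 := by exact_mod_cast mul_ne_zero a.den_nz b.den_nz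
  generalize (a.den * b.den : ℤ) = C, (a.num * b.den : ℤ) = A, (b.num * a.den : ℤ) = B at h1 h2 c0
  have h3 : A ^ 2 + d * B ^ 2 = C ^ 2 := by
    have : (A : ℚ) ^ 2 + d * B ^ 2 = C ^ 2 := by rw [← h1, ← h2]; linear_combination C ^ 2 * h
    exact_mod_cast this
  have g0 : 0 < A.gcd B := Int.gcd_pos_iff.2 (by
    by_contra k
    rw [not_or, not_not, not_not] at k
    exact pow_ne_zero 2 c0 (by simpa [k.1, k.2] using h3.symm))
  obtain ⟨A', B', h4, h5, h6⟩ := Int.exists_gcd_one g0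
  have g1 : ((A.gcd B : ℕ) : ℤ) ≠ 0 := by omega
  generalize ((A.gcd B : ℕ) : ℤ) = G at h5 h6 g1
  subst h5 h6
  obtain ⟨C, rfl⟩ : G ∣ C :=
    (Int.pow_dvd_pow_iff two_ne_zero).1 ⟨A' ^ 2 + d * B' ^ 2, by linear_combination -h3⟩
  have c1 := right_ne_zero_of_mul c0
  have g2 : (G : ℚ) ≠ 0 := Int.cast_ne_zero.2 g1
  have k1 : (A' : ℂ) = C * a := by
    have : (A' : ℚ) = C * a := mul_left_cancel₀ g2 (by push_cast at h1; linear_combination -h1)
    exact_mod_cast this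
  have k2 : (B' : ℂ) = C * b := by
    have : (B' : ℚ) = C * b := mul_left_cancel₀ g2 (by push_cast at h2; linear_combination -h2)
    exact_mod_cast this
  refine ⟨A', B', C, Int.isCoprime_iff_gcd_eq_one.2 h4,
    mul_left_cancel₀ (pow_ne_zero 2 g1) (by linear_combination h3), c1, fun e => hz ?_⟩
  rw [k1, k2, mul_assoc, ← mul_add, ← mul_sub, map_mul, map_mul,
    mul_right_inj' ((map_ne_zero v).2 (Int.cast_ne_zero.2 c1))] at e
  have h' : (a : ℂ) ^ 2 + d * b ^ 2 = 1 := by exact_mod_cast h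
  have e1 : ((a : ℂ) + b * sq d) * (a - b * sq d) = 1 := by
    linear_combination h' - b ^ 2 * sq_sq d
  have := congrArg v e1
  rwa [map_mul, ← e, map_one, ← pow_two, pow_eq_one_iff_of_nonneg zero_le two_ne_zero] at this

end PiAux

open PiAux in
theorem pi : PI := by
  intro d hd hs O a b h hz
  have hv : ∀ m : ℤ, O.valuation m ≤ 1 := fun m => (O.valuation_le_one_iff _).2 (intCast_mem O m)
  obtain ⟨A, B, C, h1, h2, h3, h4⟩ := prim h hz
  have h5 : ∀ A B : ℤ, O.valuation (A + B * sq d) ≤ 1 := fun A B =>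
    Valuation.map_add_le _ (hv A) (by
      rw [map_mul]
      refine mul_le_one' (hv B) ((pow_le_one_iff_of_nonneg zero_le two_ne_zero).1 ?_)
      rw [← map_pow, sq_sq, Valuation.map_neg]
      exact_mod_cast hv d)
  have h6 : O.valuation C < 1 := by
    have e : (C : ℂ) ^ 2 = (A + B * sq d) * (A + (-B : ℤ) * sq d) := by
      have : (A : ℂ) ^ 2 + d * B ^ 2 = C ^ 2 := by exact_mod_cast h2
      push_cast
      linear_combination B ^ 2 * sq_sq d - this
    rw [← pow_lt_one_iff_of_nonneg zero_le two_ne_zero, ← map_pow, e, map_mul]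
    rcases (h5 A B).lt_or_eq with k | k
    · exact mul_lt_one_of_nonneg_of_lt_one_left zero_le k (h5 _ _)
    · rw [k, one_mul]
      refine lt_of_le_of_ne (h5 _ _) fun k' => h4 (k.trans (k'.symm.trans ?_))
      congr 1; push_cast; ring
  refine ⟨exists_prime hv C.natAbs (Int.natAbs_ne_zero.2 h3) ?_, fun p hp hl => ?_⟩
  · rcases Int.natAbs_eq C with e | e <;> rw [e] at h6 <;> simpa using h6
  have pp := Nat.prime_iff_prime_int.1 hp
  obtain ⟨c, rfl⟩ := dvd_of_lt hv hp hl h6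
  have hB : ¬(p : ℤ) ∣ B := fun k => pp.not_isUnit (h1.isUnit_of_dvd' (pp.dvd_of_dvd_pow (n := 2)
    (by obtain ⟨B, rfl⟩ := k; exact ⟨p * c ^ 2 - d * p * B ^ 2, by linear_combination h2⟩)) k)
  have hD : ¬(p : ℤ) ∣ d := fun k => by
    obtain ⟨A, rfl⟩ : (p : ℤ) ∣ A := pp.dvd_of_dvd_pow (n := 2) (by
      obtain ⟨e, he⟩ := k
      exact ⟨p * c ^ 2 - e * B ^ 2, by linear_combination h2 - B ^ 2 * he⟩)
    have : (p : ℤ) ^ 2 ∣ d := pp.pow_dvd_of_dvd_mul_right 2 (fun k => hB (pp.dvd_of_dvd_pow (n := 2) k))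
      ⟨c ^ 2 - A ^ 2, by linear_combination h2⟩
    exact hp.not_isUnit (hs p (by rw [← pow_two]; exact_mod_cast this))
  refine ⟨fun _ => ⟨fun k => hD (Int.natCast_dvd_natCast.2 k), ?_⟩, fun g hg => ?_⟩
  · have := Fact.mk hp
    have b0 : (B : ZMod p) ≠ 0 := fun k => hB ((ZMod.intCast_zmod_eq_zero_iff_dvd _ _).1 k)
    have e := congrArg (Int.cast : ℤ → ZMod p) h2
    push_cast at e
    rw [ZMod.natCast_self] at e
    exact ⟨A / B, by field_simp; linear_combination -e⟩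
  have g0 : g ≠ 0 := by rintro rfl; exact hg (dvd_zero _)
  have hD' : tt d ^ 2 < 4 * nn d ∧ ¬(p : ℤ) ∣ tt d ^ 2 - 4 * nn d := by
    unfold tt nn
    split_ifs with k
    · exact ⟨by omega, by rwa [show (1 : ℤ) ^ 2 - 4 * ((d + 1) / 4) = -d by omega, dvd_neg]⟩
    · refine ⟨by omega, fun k' => ?_⟩
      rw [show (0 : ℤ) ^ 2 - 4 * d = -(2 ^ 2 * d) by ring, dvd_neg] at k'
      obtain rfl : p = 2 := (Nat.prime_dvd_prime_iff_eq hp Nat.prime_two).1
        (Int.natCast_dvd_natCast.1 (pp.dvd_of_dvd_pow ((pp.dvd_or_dvd k').resolve_right hD)))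
      obtain ⟨B, rfl⟩ : ∃ e, B = 2 * e + 1 := ⟨B / 2, by omega⟩
      rcases Int.even_or_odd' A with ⟨A, rfl | rfl⟩
      · have : (d : ℤ) = 4 * (c ^ 2 - A ^ 2 - d * B ^ 2 - d * B) := by
          push_cast at h2; linear_combination h2
        omega
      · have : (d : ℤ) + 1 = 4 * (c ^ 2 - A ^ 2 - A - d * B ^ 2 - d * B) := by
          push_cast at h2; linear_combination h2
        omega
  have D : Dat O.valuation p (g * tt d) (g ^ 2 * nn d) (g * om d) (g * (tt d - om d)) :=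
    ⟨hv, hp, hl, by push_cast; ring, by push_cast; linear_combination -g ^ 2 * om_sq hd,
      by nlinarith [mul_pos (pow_pos (abs_pos.2 g0) 2) (sub_pos.2 hD'.1), sq_abs g], fun k => by
        rw [show (g * tt d) ^ 2 - 4 * (g ^ 2 * nn d) = g ^ 2 * (tt d ^ 2 - 4 * nn d) by ring] at k
        exact (pp.dvd_or_dvd k).elim (fun k => hg (pp.dvd_of_dvd_pow k)) hD'.2⟩
  obtain ⟨x, y, e, e'⟩ : ∃ x y : ℤ, (A : ℂ) + B * sq d = x + y * om d ∧
      (A : ℂ) - B * sq d = x + y * (tt d - om d) := by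
    rw [coe_om hd, tt]
    split_ifs
    · exact ⟨A - B, 2 * B, by push_cast; ring, by push_cast; ring⟩
    · exact ⟨A, B, rfl, by push_cast; ring⟩
  obtain ⟨X, Y, k, k0, k1, k2⟩ := D.core (a := g * x) (b := y) fun k => h4 (by
    push_cast at k
    rw [mul_left_comm, mul_left_comm (y : ℂ), ← mul_add, ← mul_add, map_mul, map_mul,
      mul_right_inj' ((map_ne_zero _).2 (Int.cast_ne_zero.2 g0))] at k
    rw [e, e', k])
  exact ⟨X, Y, k, k0, by linear_combination k1, by rw [← k2]; congr 1; ring⟩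

end Pool.Agent.MP_c481b3_nt.H31F
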