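import Pool.Agent.MP_c481b3_nt.H31F.Defs

set_option autoImplicit false

namespace Pool.Agent.MP_c481b3_nt.H31F

open UpperHalfPlane hiding I
open Complex Polynomial IsLocalRing Finset
open scoped Manifold MatrixGroups Real ComplexConjugate

/-! ## expansions -/

/-- expansions respect the field operations and are unique -/
def AsyRing : Prop := ∀ N : ℕ, 0 < N →
  (∀ c : ℂ, Asy N (fun _ => c) (HahnSeries.C c)) ∧
  (∀ f g F G, Asy N f F → Asy N g G → Asy N (fun τ => f τ + g τ) (F + G)) ∧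
  (∀ f g F G, Asy N f F → Asy N g G → Asy N (fun τ => f τ * g τ) (F * G)) ∧
  (∀ f F, Asy N f F → F ≠ 0 → Asy N (fun τ => (f τ)⁻¹) F⁻¹) ∧
  (∀ f F G, Asy N f F → Asy N f G → F = G) ∧
  (∀ n : ℤ, Asy N (fun τ => xN N τ ^ n) (HahnSeries.single n 1)) ∧
  (∀ f F (P : ℂ[X]), Asy N f F → Asy N (fun τ => P.eval (f τ)) (aeval F P)) ∧
  (∀ (ι : Type) (s : Finset ι) (f : ι → ℍ → ℂ) (F : ι → LS ℂ), (∀ i ∈ s, Asy N (f i) (F i)) →
    Asy N (fun τ => ∑ i ∈ s, f i τ) (∑ i ∈ s, F i) ∧ Asy N (fun τ => ∏ i ∈ s, f i τ) (∏ i ∈ s, F i))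

/-- substitution of a triangular matrix -/
def AsySub : Prop := ∀ (N₀ N a d e : ℕ) (b : ℤ), 0 < N₀ → 0 < N → 0 < a → 0 < d →
  e * d * N₀ = a * N → ∀ f F, Asy N₀ f F →
    Asy N (fun τ => f (act !![(a : ℤ), b; 0, (d : ℤ)] τ)) (sb (ru (b / (d * N₀))) e F)

/-- expansion of the derivative -/
def AsyDer : Prop := ∀ N : ℕ, 0 < N → ∀ f F, Hol f → Asy N f F →
  Asy N (dv f) (HahnSeries.C (N : ℂ)⁻¹ * th F)

/-- expansions of modular forms of level one -/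
def AsyQ : Prop := ∀ (k : ℤ) (f : ModularForm 𝒮ℒ k),
  Asy 1 f (ex 2 (HahnSeries.ofPowerSeries ℤ ℂ (UpperHalfPlane.qExpansion 1 f)))

/-- transformation laws -/
structure YS1 : Prop where
  hd : Hol dl
  hY : Hol YY
  hD : Hol (dv YY)
  ne : ∀ τ, dl τ ≠ 0
  td : ∀ (γ : M2) τ, γ.det = 1 → dl (act γ τ) = eps γ * den γ τ ^ 6 * dl τ
  tY : ∀ (γ : M2) τ, γ.det = 1 → YY (act γ τ) = eps γ * YY τ
  tD : ∀ (γ : M2) τ, γ.det = 1 → dv YY (act γ τ) = eps γ * den γ τ ^ 2 * dv YY τ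
  tJ : ∀ (γ : M2) τ, γ.det = 1 → JJ (act γ τ) = JJ τ
  disc : ∀ τ, dl τ ^ 2 = ModularForm.discriminant τ
  eJ : ∀ τ, JJ τ = ModularForm.E₄ τ ^ 3 / dl τ ^ 2

/-- shape of the integer expansions -/
structure YS2 : Prop where
  aY : Asy 1 YY (Yc ℂ)
  ad : Asy 1 dl (Dc ℂ)
  aD : Asy 1 (dv YY) (th (Yc ℂ))
  Y1 : Ys.coeff (-1) = 1
  Y0 : ∀ n, n < -1 → Ys.coeff n = 0
  Ye : ∀ n, Even n → Ys.coeff n = 0
  D1 : Ds.coeff 1 = 1
  D0 : ∀ n, n < 1 → Ds.coeff n = 0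
  Du : ∃ E : LS ℤ, Ds * E = 1

/-- complex conjugation -/
def REAL : Prop := ∀ τ τ' : ℍ, (τ' : ℂ) = -conj (τ : ℂ) → YY τ' = conj (YY τ)

/-- normal forms of integer matrices -/
structure MAT : Prop where
  epsm : ∀ A B : M2, Odd A.det → Odd B.det → eps (A * B) = eps A * eps B
  epsc : ∀ A B : M2, Cong 2 A B → eps A = eps B
  mem : ∀ (s m : ℕ) (H : M2), H ∈ Hk s m ↔ ∃ a d b : ℕ, 0 < a ∧ 0 < d ∧ a * d = m ∧ b < d ∧
    H = !![(a : ℤ), ((s * b : ℕ) : ℤ); 0, (d : ℤ)]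
  sum : ∀ (s m : ℕ), 0 < s → ∀ (A : Type) [AddCommMonoid A] (f : M2 → A), ∑ H ∈ Hk s m, f H
    = ∑ d ∈ m.divisors, ∑ b ∈ range d, f !![((m / d : ℕ) : ℤ), ((s * b : ℕ) : ℤ); 0, (d : ℤ)]
  hnf : ∀ (s m : ℕ) (M : M2), 0 < m → s.Coprime m → M.det = m →
    ∃ γ : M2, ∃ H ∈ Hk s m, γ.det = 1 ∧ M = γ * H
  uniq : ∀ (s m : ℕ) (γ H H' : M2), s.Coprime m → γ.det = 1 → H ∈ Hk s m → H' ∈ Hk s m →
    γ * H = H' → H = H'
  perm : ∀ (s m : ℕ) (γ : M2), s.Coprime m → γ.det = 1 → ∃ σ : M2 → M2,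
    Set.BijOn σ (Hk s m) (Hk s m) ∧ ∀ H ∈ Hk s m, ∃ γ' : M2, γ'.det = 1 ∧ H * γ = γ' * σ H ∧
      (s = 2 → eps γ' = eps γ)
  fac : ∀ (p : ℕ) (M : M2), p.Prime → 0 < M.det → (p : ℤ) ∣ M.det →
    ∃ M₁ M' : M2, M₁.det = p ∧ M = M₁ * M'
  cm : ∀ (d : ℕ) (M : M2) (x y : ℤ), 0 < d → 0 < M.det → (x ≠ 0 ∨ y ≠ 0) → ∃ Q : M2, 0 < Q.det ∧
    Q.det = x ^ 2 + tt d * x * (M.det * y) + nn d * (M.det * y) ^ 2 ∧
    act Q (act M (om d)) = act M (om d) ∧ den Q (act M (om d)) = x + M.det * y * om d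

/-- polynomials in the series `Yc` -/
structure POL : Prop where
  top : ∀ (R : Type) [CommRing R] (T : R[X]),
    (aeval (Yc R) T).coeff (-T.natDegree) = T.leadingCoeff ∧
      ∀ n : ℤ, n < -T.natDegree → (aeval (Yc R) T).coeff n = 0
  int : ∀ (R : Subring ℂ) (T : ℂ[X]), aeval (Yc ℂ) T ∈ ovr R → ∀ n, T.coeff n ∈ R
  unit : ∀ (R : Type) [CommRing R], IsUnit (th (Yc R)) ∧ IsUnit (Dc R)

/-- existence of the Faber polynomials -/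
def FAB : Prop := ∃ P : ℕ → ℤ[X], IsFb P

/-- Frobenius on series -/
def FROB : Prop := ∀ (R : Type) [CommRing R] (p : ℕ) [Fact p.Prime] [CharP R p] (F : LS R),
  F ^ p = ex p (mapL (frobenius R p) F)

/-- functions of level one are polynomials in `YY` -/
def LV : Prop := ∀ (N : ℕ) (R : Subring ℂ) (f : ℍ → ℂ) (F : LS ℂ), 0 < N → Hol f → Asy N f F →
  F ∈ ovr R →
  (∀ i : ℕ, (∀ (γ : M2) τ, γ.det = 1 → f (act γ τ) = eps γ ^ i * f τ) →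
    ∃ P : ℂ[X], (∀ n, P.coeff n ∈ R) ∧ (∀ n, n % 2 ≠ i % 2 → P.coeff n = 0) ∧
      (∀ τ, f τ = P.eval (YY τ)) ∧ F = aeval (ex N (Yc ℂ)) P) ∧
  ((∀ (γ : M2) τ, γ.det = 1 → f (act γ τ) = f τ) →
    ∃ P : ℂ[X], (∀ n, P.coeff n ∈ R) ∧ ∀ τ, f τ = P.eval (JJ τ))

/-- the functions in `Mem` form a ring stable under the modular group -/
def MemRing : Prop := ∀ (O : ValuationSubring ℂ) (N : ℕ), 0 < N →
  (∀ c ∈ O, Mem O N fun _ => c) ∧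
  (∀ f g, Mem O N f → Mem O N g → Mem O N (fun τ => f τ + g τ) ∧ Mem O N (fun τ => f τ - g τ) ∧
    Mem O N fun τ => f τ * g τ) ∧
  (∀ f (γ : M2), γ.det = 1 → Mem O N f → Mem O N fun τ => f (act γ τ)) ∧
  (∀ f (P : ℂ[X]), (∀ n, P.coeff n ∈ O) → Mem O N f → Mem O N fun τ => P.eval (f τ)) ∧
  (∀ (ι : Type) (s : Finset ι) (f : ι → ℍ → ℂ), (∀ i ∈ s, Mem O N (f i)) →
    Mem O N (fun τ => ∑ i ∈ s, f i τ) ∧ Mem O N fun τ => ∏ i ∈ s, f i τ) ∧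
  ∀ r : ℚ, (ru r : ℂ) ∈ O ∧ ∀ F ∈ ovr O.toSubring, ∀ e : ℕ, 0 < e → sb (ru r) e F ∈ ovr O.toSubring

/-- the basic members of `Mem` -/
def MemY : Prop := (∀ (M γ : M2) τ, 0 < M.det → γ.det = 1 →
    WW (γ * M) τ = WW M τ ∧ WW M (act γ τ) = WW (M * γ) τ ∧ WW M τ * VV M τ = (M.det : ℂ) ^ 12 ∧
    PH (γ * M) τ = eps γ * PH M τ ∧ PH M (act γ τ) = eps γ * PH (M * γ) τ) ∧
  ∀ (O : ValuationSubring ℂ) (N : ℕ) (M : M2), 0 < N → 0 < M.det → M.det ∣ N →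
    Mem O N (fun τ => YY (act M τ)) ∧ Mem O N (WW M) ∧ Mem O N (VV M) ∧ Mem O N (PH M)

/-- members of `Mem` are integral over the polynomials in `YY` -/
def CHP : Prop := ∀ (O : ValuationSubring ℂ) (N : ℕ) (f : ℍ → ℂ), 0 < N → Mem O N f →
  (∃ (n : ℕ) (P : ℕ → ℂ[X]), (∀ i k, (P i).coeff k ∈ O) ∧
    ∀ τ, f τ ^ n + ∑ i ∈ range n, (P i).eval (YY τ) * f τ ^ i = 0) ∧
  ∀ τ, YY τ ∈ O → f τ ∈ O

/-- Hecke sums -/
def TM : Prop := ∀ P, IsFb P → ∀ m : ℕ, Odd m →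
  (∀ τ, ∑ M ∈ Hk 2 m, YY (act M τ) = aeval (YY τ) (P m)) ∧
  ∀ n : ℕ, ∃ T : ℤ[X], (∀ i, i % 2 ≠ n % 2 → T.coeff i = 0) ∧
    ∀ τ, ∑ M ∈ Hk 2 m, YY (act M τ) ^ n = aeval (YY τ) T

/-- the first layer -/
structure B1 : Prop where
  ring : AsyRing
  sub : AsySub
  der : AsyDer
  q : AsyQ
  y1 : YS1
  y2 : YS2
  real : REAL
  mat : MAT
  pol : POL
  frob : FROB

/-- the second layer -/
structure B2 : Prop extends B1 where
  lv : LV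
  mr : MemRing
  my : MemY
  chp : CHP

/-! ## lattices -/

/-- the invariants of the lattice -/
def U1 : Prop := ∀ τ : ℍ, (Lt τ).g₂ = 4 * π ^ 4 / 3 * ModularForm.E₄ τ ∧
  (Lt τ).g₃ = 8 * π ^ 6 / 27 * ModularForm.E₆ τ

/-- injectivity of the invariant -/
def K4 : Prop := ∀ τ τ' : ℍ, JJ τ = JJ τ' → ∃ γ : M2, γ.det = 1 ∧ act γ τ = τ'

/-! ## the local theory at a prime -/

/-- congruences for the matrices of prime determinant -/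
def CAN1 : Prop := ∀ (O : ValuationSubring ℂ) (p : ℕ), p.Prime → O.valuation (p : ℂ) < 1 →
  (∀ (τ : ℍ) (M : M2), JJ τ ∈ O → M.det = p → JJ (act M τ) ∈ O ∧ WW M τ ∈ O ∧
    O.valuation ((JJ (act M τ) - JJ τ ^ p) * (JJ (act M τ) ^ p - JJ τ)) < 1 ∧
    O.valuation ((JJ (act M τ) - JJ τ ^ p) * WW M τ) < 1 ∧
    (p ≠ 2 → O.valuation ((eps M * YY (act M τ) - YY τ ^ p) * WW M τ) < 1)) ∧
  ∀ k : ℕ, ∃ A B : ℂ[X], (∀ i, A.coeff i ∈ O) ∧ (∀ i, B.coeff i ∈ O) ∧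
    ∀ (τ : ℍ) (M : M2), JJ τ ∈ O → M.det = p → O.valuation (WW M τ) = 1 →
      O.valuation (A.eval (JJ τ)) = 1 ∧
      O.valuation ((JJ (act M τ) - JJ τ ^ p) * A.eval (JJ τ) - p * B.eval (JJ τ))
        ≤ O.valuation (p : ℂ) ^ k

/-- a canonical lift has a lift of every Frobenius that fixes its reduction -/
def CAN2 : Prop := ∀ (O : ValuationSubring ℂ) (p : ℕ), p.Prime → O.valuation (p : ℂ) < 1 →
  ∀ (τ : ℍ) (Q : M2) (h f : ℕ), 0 < h → Q.det = (p : ℤ) ^ h → act Q τ = τ →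
    O.valuation (den Q τ) = 1 → (∀ M : M2, 0 < M.det → IsIntegral ℤ (JJ (act M τ))) →
    O.valuation (JJ τ ^ p ^ f - JJ τ) < 1 →
    ∃ Λ : M2, Λ.det = (p : ℤ) ^ f ∧ act Λ τ = τ ∧ O.valuation (den Λ τ) = 1 ∧
      (f = 1 → p ≠ 2 → O.valuation (eps Λ * YY τ - YY τ ^ p) < 1)

/-- an element of norm one that is no unit shows that the prime splits -/
def PI : Prop := ∀ (d : ℕ), 0 < d → Squarefree d → ∀ (O : ValuationSubring ℂ) (a b : ℚ),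
  a ^ 2 + d * b ^ 2 = 1 → O.valuation ((a : ℂ) + b * sq d) ≠ 1 →
  (∃ p : ℕ, p.Prime ∧ O.valuation (p : ℂ) < 1) ∧ ∀ p : ℕ, p.Prime → O.valuation (p : ℂ) < 1 →
    (p ≠ 2 → ¬p ∣ d ∧ IsSquare (-(d : ZMod p))) ∧ ∀ g : ℤ, ¬(p : ℤ) ∣ g → ∃ (x y : ℤ) (h : ℕ),
      0 < h ∧ x ^ 2 + tt d * x * (g * y) + nn d * (g * y) ^ 2 = (p : ℤ) ^ h ∧
        O.valuation ((x : ℂ) + g * y * om d) = 1

/-- an inert prime with odd exponent divides the conductor -/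
def NOR : Prop := ∀ (d r : ℕ) (M Λ : M2), 0 < d → 0 < M.det → 0 < Λ.det → r.Prime → r ≠ 2 →
  ¬IsSquare (-(d : ZMod r)) → Odd (padicValInt r M.det) → act Λ (act M (om d)) = act M (om d) →
  (∀ x : ℤ, den Λ (act M (om d)) ≠ x) → (r : ℤ) ^ 2 ≤ 4 * Λ.det

/-- singular moduli are integral -/
def INTJ : Prop := ∀ (d : ℕ) (M : M2), 1 < d → Squarefree d → 0 < M.det →
  IsIntegral ℤ (YY (act M (om d))) ∧ IsIntegral ℤ (JJ (act M (om d)))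

/-- the two local consequences of a congruence with a singular modulus -/
def LOC : Prop := ∀ (d : ℕ), 1 < d → Squarefree d → ∀ (O : ValuationSubring ℂ) (a b : ℚ),
  a ^ 2 + d * b ^ 2 = 1 → O.valuation ((a : ℂ) + b * sq d) ≠ 1 →
  ∀ p : ℕ, p.Prime → O.valuation (p : ℂ) < 1 → ∀ (M : M2) (y : ℂ) (f : ℕ), 0 < M.det → 0 < f →
    O.valuation (JJ (act M (om d)) - y) < 1 → O.valuation (y ^ p ^ f - y) < 1 →
    (∀ r : ℕ, r.Prime → r ≠ 2 → ¬IsSquare (-(d : ZMod r)) → Odd (padicValInt r M.det) →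
      r ^ 2 ≤ 4 * p ^ f) ∧
    ∃ (M' : M2) (i : ℕ), 0 < M'.det ∧ ¬(p : ℤ) ∣ M'.det ∧
      O.valuation (JJ (act M' (om d)) - y ^ p ^ i) < 1

/-! ## algebraic numbers -/

/-- automorphisms of the complex numbers -/
structure AUT : Prop where
  cj : ∀ x y : ℂ, IsAlgebraic ℚ x → aeval y (minpoly ℚ x) = 0 → ∃ ρ : ℂ ≃+* ℂ, ρ x = y
  fix : ∀ x : ℂ, IsAlgebraic ℚ x → (∀ ρ : ℂ ≃+* ℂ, ρ x = x) → ∃ a : ℚ, x = a

/-- valuations of the complex numbers -/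
structure VLS : Prop where
  int : ∀ x : ℂ, IsIntegral ℤ x ↔ ∀ O : ValuationSubring ℂ, x ∈ O
  val : ∀ p : ℕ, p.Prime → ∃ O : ValuationSubring ℂ, O.valuation (p : ℂ) < 1
  res : ∀ (O : ValuationSubring ℂ) (p n : ℕ) (g : ℚ[X]) (x : ℂ), p.Prime →
    O.valuation (p : ℂ) < 1 → g ≠ 0 → g.natDegree ≤ n → aeval x g = 0 → x ∈ O →
    O.valuation (x ^ p ^ n.factorial - x) < 1
  unit : ∀ (d : ℕ) (a b : ℚ), a ^ 2 + d * b ^ 2 = 1 →
    (∀ O : ValuationSubring ℂ, O.valuation ((a : ℂ) + b * sq d) = 1) → ((a : ℂ) + b * sq d) ^ 12 = 1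

/-- the base point and the sign of its endomorphisms of prime degree -/
def EPS : Prop := ∀ (d : ℕ) (D : ℤ), 1 < d → Squarefree d → Tab d D → ∃ M₀ : M2, 0 < M₀.det ∧
  (∀ r : ℂ, r ^ 2 = D → conj (YY (act M₀ (om d)) / (sq d * r)) = YY (act M₀ (om d)) / (sq d * r)) ∧
  YY (act M₀ (om d)) ≠ 0 ∧
  ∀ (Λ : M2) (q : ℕ), q.Prime → q ≠ 2 → ¬(q : ℤ) ∣ D → Λ.det = q →
    act Λ (act M₀ (om d)) = act M₀ (om d) → eps Λ = jacobiSym D q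

/-- the oriented invariant is not conjugate to its negative -/
def CMP : Prop := ∀ (d : ℕ) (D : ℤ) (r : ℂ), 1 < d → Squarefree d → Tab d D → r ^ 2 = D →
  ∃ M₀ : M2, 0 < M₀.det ∧ ∀ ρ : ℂ ≃+* ℂ,
    ρ (YY (act M₀ (om d)) / (sq d * r)) ≠ -(YY (act M₀ (om d)) / (sq d * r))

/-- the first term of the logarithm -/
def VAL : Prop := ∀ (O : ValuationSubring ℂ) (l : ℕ) (Γ Z : Multiset ℂ) (e c : ℂ), l.Prime → 5 ≤ l →
  O.valuation (l : ℂ) < 1 → (∀ y ∈ Γ, y ∈ O) → (∀ x ∈ Z, O.valuation x ≤ O.valuation e) →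
  O.valuation e ^ 2 ≤ O.valuation (l : ℂ) → O.valuation e ^ 2 < O.valuation Z.sum → c ≠ 0 → c ∈ O →
  (∀ k, Odd k → O.valuation (Γ.map (· ^ k)).sum ≤ O.valuation c) →
  (Γ.map fun y => (Z.map fun x => (1 - y * x) / (1 + y * x)).prod).prod ^ 12 = 1 →
  O.valuation Γ.sum < O.valuation c

/-! ## reduction modulo the prime `l` -/

/-- the generating series is a rational differential -/
def GEN : Prop := ∀ P, IsFb P → ∀ (O : ValuationSubring ℂ) (Γ : Multiset ℂ) (c : ℂ) (β : ℕ → ℤ),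
  c ≠ 0 → (∀ y ∈ Γ, y ∈ O) → (∀ n, Odd n → (Γ.map fun y => aeval y (P n)).sum = c * β n) →
  ∃ g : LS (ResidueField O), InU _ g ∧
    ∀ n : ℤ, g.coeff n = if 0 < n ∧ Odd n then ((β n.toNat : ℤ) : ResidueField O) else 0

/-- an element fixed by the decomposition group is a quotient of invariants -/
def DEC : Prop := ∀ (G A : Type) [Group G] [CommRing A] [MulSemiringAction G A] (H : Subgroup G),
  H.FiniteIndex → (∀ h ∈ H, ∀ a : A, h • a = a) → ∀ P : Ideal A, P.IsPrime → ∀ u : A,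
  (∀ g : G, (∀ a ∈ P, g • a ∈ P) → g • u = u) →
  ∃ a b : A, (∀ g : G, g • a = a) ∧ (∀ g : G, g • b = b) ∧ b ∉ P ∧ b * u - a ∈ P

/-- the decomposition group of the cusp is large -/
def STAB : Prop := ∀ (O : ValuationSubring ℂ) (p N : ℕ), p.Prime → p ≠ 2 → 0 < N → ¬p ∣ N →
  O.valuation (p : ℂ) = 1 → ∃ γ : M2, γ.det = 1 ∧ Cong p γ !![0, -1; 1, 0] ∧ Cong (2 * N) γ 1 ∧
    ∀ f, Mem O (p * N) f → RA O (p * N) f 0 → RA O (p * N) (fun τ => f (act γ τ)) 0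

/-- the Hasse invariant -/
def HAS : Prop := ∀ (O : ValuationSubring ℂ) (l : ℕ), l.Prime → 5 ≤ l → O.valuation (l : ℂ) < 1 →
  InK (ResidueField O) (th (Yc (ResidueField O)) ^ ((l - 1) / 2))

/-- closure properties of the rational differentials -/
structure CarK (k : Type) [Field k] (l : ℕ) : Prop where
  add : ∀ g g', InU k g → InU k g' → InU k (g + g')
  smul : ∀ (c : k) g, InU k g → InU k (HahnSeries.C c * g)
  tw : ∀ g, InU k g → InU k (th^[(l - 1) / 2] g)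
  car : ∀ g F : LS k, InU k g → (∀ n : ℤ, F.coeff n ^ l = g.coeff (l * n)) → InU k F

/-- the operator of Cartier -/
def CAR : Prop := ∀ (k : Type) [Field k] [IsAlgClosed k] (l : ℕ) [CharP k l], l.Prime → l ≠ 2 →
  InK k (th (Yc k) ^ ((l - 1) / 2)) → CarK k l

/-- linear relations between translates survive the inversion at `p` -/
def SG (k : Type) [Field k] : Prop := ∀ g, InU k g → ∀ p N : ℕ, p.Prime → p ≠ 2 → 0 < N → ¬p ∣ N →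
  ((p * N : ℕ) : k) ≠ 0 → ∃ ζ : kˣ, IsPrimitiveRoot ζ (p * N) ∧ ∀ (w : ℕ → k) (st : ℕ → ℤ),
    (∀ b : ℕ, ¬p ∣ b → (N : ℤ) ∣ st b - b ∧ (p : ℤ) ∣ 4 * b * st b + 1) →
    (∀ n : ℤ, (∑ b ∈ range (p * N), w b * ((ζ ^ (b * n) : kˣ) : k)) * g.coeff n = 0) →
    ∀ n : ℤ, (∑ b ∈ range (p * N) with ¬p ∣ b, w b * ((ζ ^ (st b * n) : kˣ) : k)) * g.coeff n
      + p ^ 2 * (∑ b ∈ range (p * N) with p ∣ b, w b * ((ζ ^ (b * n) : kˣ) : k))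
        * (if (p : ℤ) ^ 2 ∣ n then g.coeff (n / p ^ 2) else 0) = 0

/-- the transfer to the residue field -/
def TR : Prop := ∀ O : ValuationSubring ℂ, SG (ResidueField O)

/-- vanishing on a quadratic class forces vanishing -/
def LPk (k : Type) [Field k] : Prop := ∀ g, InU k g → ∀ p N : ℕ, p.Prime → p ≠ 2 → 0 < N →
  ¬p ∣ N → ((2 * p * N : ℕ) : k) ≠ 0 → ∀ S : Set ℤ, (∀ n n', n ≡ n' [ZMOD N] → n ∈ S → n' ∈ S) →
  (∀ n, (p : ℤ) ^ 2 * n ∈ S → n ∈ S) → ∀ η : ℤ, η = 1 ∨ η = -1 →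
  (∀ n ∈ S, jacobiSym n p = η → g.coeff n = 0) → ∀ n ∈ S, n ≠ 0 → g.coeff n = 0

/-- the argument with Kloosterman sums -/
def LP : Prop := ∀ (k : Type) [Field k], SG k → LPk k

/-- no rational differential has complex multiplication -/
def FIN : Prop := ∀ (k : Type) [Field k] (l : ℕ) [CharP k l], l.Prime → l ≠ 2 → LPk k → CarK k l →
  ∀ d p R : ℕ, Squarefree d → p.Prime → p ≠ 2 → p ∣ d → p ≠ l → ∀ g, InU k g →
  (∀ n, g.coeff n ^ l = g.coeff n) → (∀ n, n ≤ 0 → g.coeff n = 0) → (∀ n, Even n → g.coeff n = 0) →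
  (∀ n r : ℕ, r.Prime → R < r → ¬IsSquare (-(d : ZMod r)) → Odd (padicValNat r n) →
    g.coeff n = 0) → g = 0

end Pool.Agent.MP_c481b3_nt.H31F
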