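import Pool.Agent.MP_c481b3_nt.H31F.Spec2
import Pool.Agent.MP_c481b3_nt.H31F.Loc

set_option autoImplicit false

namespace Pool.Agent.MP_c481b3_nt.H31F

open UpperHalfPlane hiding I
open Complex Polynomial IsLocalRing

namespace SrvAux

open LocAux

lemma two_ne {r : ℕ} [Fact r.Prime] (h2 : r ≠ 2) : (2 : ZMod r) ≠ 0 := by
  intro h
  have : ((2 : ℕ) : ZMod r) = 0 := by exact_mod_cast h
  rw [ZMod.natCast_eq_zero_iff] at this
  exact h2 ((Nat.prime_dvd_prime_iff_eq Fact.out Nat.prime_two).1 this)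

lemma exists_ns {r : ℕ} [Fact r.Prime] (h2 : r ≠ 2) {D : ZMod r} (hD : ¬IsSquare (-D)) :
    ∃ U Y : ZMod r, ¬IsSquare (U ^ 2 + D * Y ^ 2) := by
  by_cases h : IsSquare D
  · obtain ⟨e, rfl⟩ := h
    have he : e ≠ 0 := by
      rintro rfl
      exact hD ⟨0, by simp⟩
    obtain ⟨c, hc⟩ := FiniteField.exists_nonsquare (F := ZMod r) (by rwa [ZMod.ringChar_zmod_n])
    obtain ⟨U, V, hUV⟩ := ZMod.sq_add_sq r c
    refine ⟨U, V / e, ?_⟩
    rwa [show U ^ 2 + e * e * (V / e) ^ 2 = c by rw [← hUV]; field_simp]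
  · exact ⟨0, 1, by simpa using h⟩

lemma exists_deg {d p r : ℕ} [Fact r.Prime] (hp : p.Prime) (hrp : r ≠ p) (h2 : r ≠ 2)
    (hd : ¬IsSquare (-(d : ZMod r))) {g : ℤ} (hg : ¬(r : ℤ) ∣ g) : ∃ x y : ℤ,
      ¬(p : ℤ) ∣ x ^ 2 + tt d * x * (g * y) + nn d * (g * y) ^ 2 ∧
      ¬IsSquare ((x ^ 2 + tt d * x * (g * y) + nn d * (g * y) ^ 2 : ℤ) : ZMod r) := by
  have t2 := two_ne h2
  have hD : ¬IsSquare (-(4 * (nn d : ZMod r) - (tt d : ZMod r) ^ 2)) := by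
    rw [nn, tt]
    split_ifs with h
    · obtain ⟨k, hk⟩ : ∃ k : ℤ, (d : ℤ) = 4 * k - 1 := ⟨(d + 1) / 4, by omega⟩
      have e : (d : ZMod r) = 4 * k - 1 := by exact_mod_cast congrArg (Int.cast : ℤ → ZMod r) hk
      rw [show ((d : ℤ) + 1) / 4 = k by omega]
      rwa [e, ← one_pow 2, ← Int.cast_one] at hd
    · rintro ⟨s, hs⟩
      refine hd ⟨s / 2, ?_⟩
      field_simp
      push_cast at hs
      linear_combination hs
  obtain ⟨U, Y, hUY⟩ := exists_ns h2 hD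
  have g0 : (g : ZMod r) ≠ 0 := by rwa [Ne, ZMod.intCast_zmod_eq_zero_iff_dvd]
  have p0 : (p : ZMod r) ≠ 0 := by
    rw [Ne, ZMod.natCast_eq_zero_iff]
    exact fun h => hrp ((Nat.prime_dvd_prime_iff_eq Fact.out hp).1 h)
  obtain ⟨k, hk⟩ := ZMod.intCast_surjective (((U - tt d * Y) / 2 - 1) / p : ZMod r)
  obtain ⟨l, hl⟩ := ZMod.intCast_surjective (Y / (g * p) : ZMod r)
  refine ⟨1 + p * k, p * l, fun h => ?_, fun ⟨s, hs⟩ => hUY ⟨2 * s, ?_⟩⟩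
  · have h1 : (p : ℤ) ∣ (1 + p * k) ^ 2 + tt d * (1 + p * k) * (g * (p * l)) +
        nn d * (g * (p * l)) ^ 2 - 1 :=
      ⟨2 * k + p * k ^ 2 + tt d * (1 + p * k) * (g * l) + nn d * g ^ 2 * p * l ^ 2, by ring⟩
    have h3 := dvd_sub h h1
    rw [sub_sub_cancel] at h3
    exact hp.one_lt.ne' (by exact_mod_cast Int.eq_one_of_dvd_one (by positivity) h3)
  · push_cast at hs
    have e1 : (1 + p * k : ZMod r) = (U - tt d * Y) / 2 := by
      rw [hk]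
      field_simp
      ring
    have e2 : (g * (p * l) : ZMod r) = Y := by
      rw [hl]
      field_simp
    rw [e1, e2] at hs
    field_simp at hs
    linear_combination hs

variable {O : ValuationSubring ℂ}

lemma res_aeval {x : ℂ} (hx : x ∈ O) (φ : ℤ[X]) :
    O.valuation (aeval x φ) < 1 ↔ aeval (residue O ⟨x, hx⟩) φ = 0 := by
  have e1 : aeval x φ = ((aeval (⟨x, hx⟩ : O) φ : O) : ℂ) :=
    aeval_algHom_apply O.subtype.toIntAlgHom (⟨x, hx⟩ : O) φ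
  have e2 : aeval (residue O ⟨x, hx⟩) φ = residue O (aeval (⟨x, hx⟩ : O) φ) :=
    aeval_algHom_apply (residue O).toIntAlgHom (⟨x, hx⟩ : O) φ
  rw [e1, e2, residue_eq_zero_iff, ValuationSubring.valuation_lt_one_iff]

lemma frob_iff {p i : ℕ} (hp : p.Prime) (hv : O.valuation (p : ℂ) < 1) {j y : ℂ} (hj : j ∈ O)
    (hy : y ∈ O) (h : O.valuation (j - y ^ p ^ i) < 1) (φ : ℤ[X]) :
    O.valuation (aeval j φ) < 1 ↔ O.valuation (aeval y φ) < 1 := by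
  have := Fact.mk hp
  have h0 : ((p : ℕ) : ResidueField O) = 0 := by
    rw [← map_natCast (residue O), residue_eq_zero_iff, ValuationSubring.valuation_lt_one_iff]
    exact hv
  have : CharP (ResidueField O) p := (CharP.charP_iff_prime_eq_zero hp).2 h0
  rw [cong_iff hj (pow_mem hy _), res_pow hy] at h
  have e : aeval (residue O ⟨y, hy⟩ ^ p ^ i) φ = aeval (residue O ⟨y, hy⟩) φ ^ p ^ i :=
    aeval_algHom_apply (iterateFrobenius (ResidueField O) p i).toIntAlgHom _ φ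
  rw [res_aeval hj, res_aeval hy, h, e, pow_eq_zero_iff (pow_pos hp.pos i).ne']

lemma hom {R : Type} [CommRing R] (σ : R →+* ℂ) (hσ : ∀ x, σ x ∈ O) (u : R) {w : R}
    (hw : ¬O.valuation (σ w) < 1) (φ : ℤ[X]) : σ u / σ w ∈ O ∧
      O.valuation (σ (((φ.map (Int.castRingHom R)).scaleRoots w).eval u)) =
        O.valuation (aeval (σ u / σ w) φ) := by
  have h1 : O.valuation (σ w) = 1 := ((O.valuation_le_one_iff _).2 (hσ w)).antisymm (not_lt.1 hw)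
  have h0 : σ w ≠ 0 := fun e => by simp [e] at h1
  constructor
  · rw [← O.valuation_le_one_iff, map_div₀, h1, div_one, O.valuation_le_one_iff]
    exact hσ u
  · have e := scaleRoots_eval₂_mul (p := φ.map (Int.castRingHom R)) σ (σ u / σ w) w
    rw [mul_div_cancel₀ _ h0, eval₂_at_apply, eval₂_map] at e
    rw [e, map_mul, map_pow, h1, one_pow, one_mul, aeval_def,
      RingHom.ext_int (σ.comp (Int.castRingHom R)) (algebraMap ℤ ℂ)]

lemma fixQ (h1 : MAT) {d p : ℕ} (hd : 0 < d) (hp : p.Prime)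
    (h : ∀ g : ℤ, ¬(p : ℤ) ∣ g → ∃ (x y : ℤ) (h : ℕ),
      0 < h ∧ x ^ 2 + tt d * x * (g * y) + nn d * (g * y) ^ 2 = (p : ℤ) ^ h ∧
        O.valuation ((x : ℂ) + g * y * om d) = 1) {M : M2} (hM : 0 < M.det)
    (hpM : ¬(p : ℤ) ∣ M.det) : ∃ (Q : M2) (h : ℕ), 0 < h ∧ Q.det = (p : ℤ) ^ h ∧
      act Q (act M (om d)) = act M (om d) ∧ O.valuation (den Q (act M (om d))) = 1 := by
  obtain ⟨x, z, k, hh, hn, hu⟩ := h M.det hpM
  have hxz : x ≠ 0 ∨ z ≠ 0 := by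
    by_contra hc
    push Not at hc
    rw [hc.1, hc.2] at hn
    have := pow_pos (Int.natCast_pos.2 hp.pos) k
    rw [← hn] at this
    simp at this
  obtain ⟨Q, -, q2, q3, q4⟩ := h1.cm d M x z hd hM hxz
  exact ⟨Q, k, hh, q2.trans hn, q3, by rw [q4]; exact hu⟩

lemma det_Hk (h1 : MAT) {N : ℕ} {H : M2} (hH : H ∈ Hk 1 N) : H.det = N := by
  obtain ⟨a, d, b, -, -, e, -, rfl⟩ := (h1.mem 1 N H).1 hH
  rw [Matrix.det_fin_two_of, ← e]
  push_cast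
  ring

end SrvAux

open SrvAux LocAux in
theorem srv_of (b : B2) (h1 : K4) (h2 : PI) (h3 : CAN3) (h4 : PHI) (h5 : NOR2) (h6 : INTJ2)
    (h7 : VLS) : SRV := by
  intro R _ σ₁ σ₂ O₁ O₂ u w d p r i₁ i₂ a c M₁ M₂ hd hsq hp v1 v2 s1 s2 hs hw hac hvac d1 d2 n1 n2
    c1 c2 hr hr2 hns hrM hDv
  by_contra hg
  have := Fact.mk hr
  have hrp : r ≠ p := by
    rintro rfl
    exact n2 hrM
  obtain ⟨x, y, x1, x2⟩ := exists_deg hp hrp hr2 hns hg
  have hxy : x ≠ 0 ∨ y ≠ 0 := by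
    by_contra hc
    push Not at hc
    rw [hc.1, hc.2] at x1
    simp at x1
  obtain ⟨Q, q1, q2, q3, -⟩ := b.mat.cm d M₁ x y hd d1 hxy
  rw [← q2] at x1 x2
  obtain ⟨N, hN⟩ := Int.eq_ofNat_of_zero_le q1.le
  have N0 : 0 < N := by
    rw [hN] at q1
    exact_mod_cast q1
  rw [hN] at x1 x2
  have hH0 : ∀ H ∈ Hk 1 N, 0 < H.det := fun H hH => by
    rw [det_Hk b.mat hH]
    exact_mod_cast N0
  obtain ⟨φ, hφ⟩ := h4 N N0
  have int : ∀ M : M2, 0 < M.det → IsIntegral ℤ (JJ (act M (om d))) :=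
    fun M hM => (h6 d M hd hsq hM).2
  have e1 : aeval (JJ (act M₁ (om d))) φ = 0 := by
    obtain ⟨γ, H, hH, g1, g2⟩ := b.mat.hnf 1 N Q N0 (Nat.coprime_one_left N) hN
    rw [← hφ]
    refine Finset.prod_eq_zero hH ?_
    rw [← b.y1.tJ γ (act H _) g1, ← act_mul (g1 ▸ one_pos) (hH0 H hH), ← g2, q3, sub_self]
  obtain ⟨y1, k1⟩ := hom σ₁ s1 u hw φ
  obtain ⟨y2, k2⟩ := hom σ₂ s2 u (fun e => hw ((hs w).2 e)) φ
  have e2 : O₂.valuation (aeval (JJ (act M₂ (om d))) φ) < 1 := by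
    rw [frob_iff hp v2 ((h7.int _).1 (int _ d2) O₂) y2 c2, ← k2, ← hs, k1,
      ← frob_iff hp v1 ((h7.int _).1 (int _ d1) O₁) y1 c1, e1, map_zero]
    exact zero_lt_one
  obtain ⟨H, hH, e3⟩ : ∃ H ∈ Hk 1 N,
      O₂.valuation (JJ (act M₂ (om d)) - JJ (act H (act M₂ (om d)))) < 1 := by
    by_contra hc
    push Not at hc
    rw [← hφ, map_prod] at e2
    exact absurd (Finset.one_le_prod' hc) (not_le.2 e2)
  have dH := det_Hk b.mat hH
  have d3 := det_mul_pos (hH0 H hH) d2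
  have n3 : ¬(p : ℤ) ∣ (H * M₂).det := by
    rw [Matrix.det_mul, dH]
    exact fun e => ((Nat.prime_iff_prime_int.1 hp).dvd_or_dvd e).elim x1 n2
  have hpi := ((h2 d hd hsq O₂ a c hac hvac).2 p hp v2).2
  obtain ⟨Q₁, m₁, a1, a2, a3, a4⟩ := fixQ b.mat hd hp hpi d2 n2
  obtain ⟨Q₂, m₂, b1, b2, b3, b4⟩ := fixQ b.mat hd hp hpi d3 n3
  rw [← act_mul (hH0 H hH) d2] at e3
  obtain ⟨γ, g1, g2⟩ := h1 _ _
    (h3 O₂ p hp v2 _ _ Q₁ Q₂ m₁ m₂ a1 b1 a2 b2 a3 b3 a4 b4 (int _ d2) (int _ d3) e3).symm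
  have dL : (γ * H).det = N := by rw [Matrix.det_mul, g1, dH, one_mul]
  rw [act_mul (hH0 H hH) d2, ← act_mul (g1 ▸ one_pos) (hH0 H hH)] at g2
  have e4 := (h5 d r M₂ (γ * H) hd d2 (by rw [dL]; exact_mod_cast N0) hr hr2 hns hrM hDv g2).1
  rw [dL] at e4
  have e5 := (ZMod.intCast_zmod_eq_zero_iff_dvd _ r).2 ((dvd_pow_self _ two_ne_zero).trans e4)
  have t2 := two_ne hr2
  refine x2 ⟨(((γ * H).trace : ℤ) : ZMod r) / 2, ?_⟩
  push_cast at e5 ⊢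
  field_simp
  linear_combination e5

end Pool.Agent.MP_c481b3_nt.H31F
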