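import Pool.Agent.MP_c481b3_nt.H31F.Spec

set_option autoImplicit false

namespace Pool.Agent.MP_c481b3_nt.H31F

open UpperHalfPlane hiding I
open Complex Polynomial Finset
open scoped Real

namespace TmAux

lemma sum_ru {d : ℕ} (hd : 0 < d) (j : ℤ) :
    ∑ b ∈ range d, ((ru ((((2 * b : ℕ) : ℤ) : ℚ) / (d * (1 : ℕ))) ^ j : ℂˣ) : ℂ) =
      if (d : ℤ) ∣ j then (d : ℂ) else 0 := by
  have hζ := Complex.isPrimitiveRoot_exp d hd.ne'
  have e : ∀ b : ℕ, ((ru ((((2 * b : ℕ) : ℤ) : ℚ) / (d * (1 : ℕ))) ^ j : ℂˣ) : ℂ) =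
      (cexp (2 * π * I / d) ^ j) ^ b := fun b => by
    rw [Units.val_zpow_eq_zpow_val, ru, Units.val_mk0, ← exp_int_mul, ← exp_int_mul,
      ← exp_nat_mul]
    congr 1
    push_cast
    ring
  simp only [e]
  split_ifs with h
  · simp [(hζ.zpow_eq_one_iff_dvd j).2 h]
  · rw [geom_sum_eq fun c => h ((hζ.zpow_eq_one_iff_dvd j).1 c), ← zpow_natCast, ← zpow_mul,
      (hζ.zpow_eq_one_iff_dvd _).2 (dvd_mul_left _ _), sub_self, zero_div]

/-- The expansion of the Hecke sum. -/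
noncomputable def FF (m : ℕ) (G : LS ℂ) : LS ℂ := ∑ d ∈ m.divisors, ∑ b ∈ range d,
  sb (ru ((((2 * b : ℕ) : ℤ) : ℚ) / (d * (1 : ℕ)))) ((m / d) ^ 2) G

lemma div_pos' {m d : ℕ} (h : d ∈ m.divisors) : 0 < m / d :=
  Nat.div_pos (Nat.divisor_le h) (Nat.pos_of_mem_divisors h)

lemma coeff_FF (m : ℕ) (G : LS ℤ) (k : ℤ) : (FF m (mapL (Int.castRingHom ℂ) G)).coeff k =
    ((∑ d ∈ m.divisors, if (((m / d) ^ 2 : ℕ) : ℤ) ∣ k ∧ (d : ℤ) ∣ k / ((m / d) ^ 2 : ℕ) then
      d * G.coeff (k / ((m / d) ^ 2 : ℕ)) else 0 : ℤ) : ℂ) := by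
  rw [FF, HahnSeries.coeff_sum, Int.cast_sum]
  refine sum_congr rfl fun d hd => ?_
  rw [HahnSeries.coeff_sum]
  simp only [coeff_sb (pow_pos (div_pos' hd) 2)]
  by_cases h : (((m / d) ^ 2 : ℕ) : ℤ) ∣ k
  · simp only [h, if_true, true_and]
    rw [← sum_mul, sum_ru (Nat.pos_of_mem_divisors hd)]
    split_ifs <;> simp
  · simp only [h, if_false, false_and, sum_const_zero, Int.cast_zero]

lemma det_pos (b : B1) {m : ℕ} {H : M2} (h : H ∈ Hk 2 m) : 0 < H.det := by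
  obtain ⟨a, d, c, ha, hd, -, -, rfl⟩ := (b.mat.mem 2 m H).1 h
  rw [Matrix.det_fin_two_of]
  simpa using mul_pos (Int.natCast_pos.2 ha) (Int.natCast_pos.2 hd)

lemma main (b : B1) (h : LV) {m : ℕ} (hm : Odd m) (n : ℕ) :
    ∃ T : ℤ[X], (∀ i, i % 2 ≠ n % 2 → T.coeff i = 0) ∧
      (∀ τ, ∑ M ∈ Hk 2 m, YY (act M τ) ^ n = aeval (YY τ) T) ∧
      FF m (mapL (Int.castRingHom ℂ) (Ys ^ n)) =
        ex m (mapL (Int.castRingHom ℂ) (aeval Ys T)) := by
  have m0 : 0 < m := hm.pos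
  have h1 : Hol fun τ => ∑ M ∈ Hk 2 m, YY (act M τ) ^ n := by
    have : ∀ s ⊆ Hk 2 m, Hol fun τ => ∑ M ∈ s, YY (act M τ) ^ n := by
      intro s
      induction s using Finset.induction_on with
      | empty => exact fun _ => mdifferentiable_const
      | insert a s ha ih =>
        intro hs
        simp only [sum_insert ha]
        exact ((b.y1.hY.act (det_pos b (hs (mem_insert_self _ _)))).pow n).add
          (ih ((subset_insert _ _).trans hs))
    exact this _ subset_rfl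
  have h2 : Asy 1 (fun τ => YY τ ^ n) (mapL (Int.castRingHom ℂ) (Ys ^ n)) := by
    simpa only [eval_pow, eval_X, map_pow, aeval_X, Yc] using
      (b.ring 1 one_pos).2.2.2.2.2.2.1 _ _ (X ^ n) b.y2.aY
  have h3 : Asy m (fun τ => ∑ M ∈ Hk 2 m, YY (act M τ) ^ n)
      (FF m (mapL (Int.castRingHom ℂ) (Ys ^ n))) := by
    simp only [b.mat.sum 2 m two_pos]
    refine ((b.ring m m0).2.2.2.2.2.2.2 _ _ _ _ fun d hd => ?_).1
    refine ((b.ring m m0).2.2.2.2.2.2.2 _ _ _ _ fun c _ => ?_).1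
    refine b.sub 1 m (m / d) d _ _ one_pos m0 (div_pos' hd) (Nat.pos_of_mem_divisors hd) ?_ _ _ h2
    rw [mul_one, pow_two, mul_assoc, Nat.div_mul_cancel (Nat.dvd_of_mem_divisors hd)]
  obtain ⟨P, p1, p2, p3, p4⟩ := (h m (Int.castRingHom ℂ).range _ _ m0 h1 h3
    (mem_ovr.2 fun k => ⟨_, (coeff_FF m _ k).symm⟩)).1 n fun γ τ hγ => by
      obtain ⟨σ, s1, s2⟩ := b.mat.perm 2 m γ (Nat.coprime_two_left.2 hm) hγ
      rw [mul_sum]
      refine sum_nbij σ s1.mapsTo s1.injOn s1.surjOn fun H hH => ?_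
      obtain ⟨γ', g1, g2, g3⟩ := s2 H hH
      rw [← act_mul (det_pos b hH) (hγ ▸ one_pos), g2,
        act_mul (g1 ▸ one_pos) (det_pos b (s1.mapsTo hH)), b.y1.tY _ _ g1, g3 rfl, mul_pow]
  obtain ⟨T, rfl⟩ : P ∈ lifts (Int.castRingHom ℂ) := (lifts_iff_coeff_lifts P).2 p1
  refine ⟨T, fun i hi => ?_, fun τ => ?_, ?_⟩
  · simpa using p2 i hi
  · exact (p3 τ).trans (eval_map_algebraMap T _)
  · rw [p4, mapL_aeval, ← sb_one, ← sb_one, sb_aeval m0]
    rfl

end TmAux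

open TmAux in
theorem tm_of (b : B1) (h : LV) : TM := by
  intro P hP m hm
  refine ⟨?_, fun n => (main b h hm n).imp fun _ k => ⟨k.1, k.2.1⟩⟩
  obtain ⟨T, -, h1, h2⟩ := main b h hm 1
  have m0 : 0 < m := hm.pos
  have m1 : (0 : ℤ) < m := Int.natCast_pos.2 m0
  have h3 : ∀ i : ℤ, i ≤ 0 → (aeval Ys T).coeff i = if i = -m then 1 else 0 := fun i hi => by
    have k := congrArg (fun F => F.coeff (m * i)) h2
    simp only [coeff_FF, coeff_ex_mul m0, coeff_mapL, eq_intCast, Int.cast_inj, pow_one] at k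
    have hY : ∀ j : ℤ, j ≤ 0 → j ≠ -1 → Ys.coeff j = 0 := fun j a c => by
      rcases a.eq_or_lt with rfl | a
      exacts [b.y2.Ye 0 ⟨0, rfl⟩, b.y2.Y0 j (by omega)]
    have hle : ∀ e : ℕ, m * i / e ≤ 0 := fun e => by
      rcases Nat.eq_zero_or_pos e with rfl | c
      · simp
      · exact Int.ediv_nonpos_of_nonpos_of_neg (mul_nonpos_of_nonneg_of_nonpos m1.le hi)
          (Int.natCast_pos.2 c)
    rw [← k, sum_eq_single_of_mem 1 (Nat.one_mem_divisors.2 m0.ne')]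
    · rw [Nat.div_one]
      by_cases c : i = -m
      · have e : (m : ℤ) * i = ((m ^ 2 : ℕ) : ℤ) * -1 := by
          rw [c]
          push_cast
          ring
        rw [if_pos c, e, Int.mul_ediv_cancel_left _ (by positivity), b.y2.Y1]
        simp
      · rw [if_neg c]
        split_ifs with c'
        · rw [hY _ (hle _) fun e => c ?_, mul_zero]
          have := Int.mul_ediv_cancel' c'.1
          rw [e] at this
          push_cast at this
          exact mul_left_cancel₀ m1.ne' (by linear_combination -this)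
        · rfl
    · intro d _ hd
      split_ifs with c
      · rw [hY _ (hle _) fun e => hd ?_, mul_zero]
        have := c.2
        rw [e, dvd_neg] at this
        exact_mod_cast Int.eq_one_of_dvd_one (Int.natCast_nonneg d) this
      · rfl
  have h4 : T - P m = 0 := by
    have e : Yc ℤ = Ys := by
      ext
      simp [Yc]
    have := (b.pol.top ℤ (T - P m)).1
    rw [e, map_sub, HahnSeries.coeff_sub, h3 _ (by omega), hP.exp _ _ (by omega), sub_self] at this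
    exact leadingCoeff_eq_zero.1 this.symm
  intro τ
  rw [← sub_eq_zero.1 h4, ← h1 τ]
  simp only [pow_one]

end Pool.Agent.MP_c481b3_nt.H31F
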