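import Pool.Agent.MP_c481b3_nt.H31F.Spec3
import Pool.Agent.MP_c481b3_nt.H31F.Tm

set_option autoImplicit false

namespace Pool.Agent.MP_c481b3_nt.H31F

open UpperHalfPlane hiding I
open Complex Polynomial Finset
open scoped Real

namespace Tm2Aux

open TmAux

lemma sum_ru2 {d : ℕ} (hd : 0 < d) (j : ℤ) :
    ∑ b ∈ range d, ((ru ((((1 * b : ℕ) : ℤ) : ℚ) / (d * (1 : ℕ))) ^ (2 * j) : ℂˣ) : ℂ) =
      if (d : ℤ) ∣ j then (d : ℂ) else 0 := by
  rw [← sum_ru hd j]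
  refine sum_congr rfl fun b _ => ?_
  rw [Units.val_zpow_eq_zpow_val, Units.val_zpow_eq_zpow_val, ru, ru, Units.val_mk0, Units.val_mk0,
    ← exp_int_mul, ← exp_int_mul]
  congr 1
  push_cast
  ring

/-- The expansion of the Hecke sum. -/
noncomputable def FF (m : ℕ) (G : LS ℂ) : LS ℂ := ∑ d ∈ m.divisors, ∑ b ∈ range d,
  sb (ru ((((1 * b : ℕ) : ℤ) : ℚ) / (d * (1 : ℕ)))) ((m / d) ^ 2) G

lemma coeff_FF (m : ℕ) (G : LS ℤ) (hG : ∀ j, Odd j → G.coeff j = 0) (k : ℤ) :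
    (FF m (mapL (Int.castRingHom ℂ) G)).coeff k =
    ((∑ d ∈ m.divisors, if (((m / d) ^ 2 : ℕ) : ℤ) ∣ k ∧ (2 * d : ℤ) ∣ k / ((m / d) ^ 2 : ℕ) then
      d * G.coeff (k / ((m / d) ^ 2 : ℕ)) else 0 : ℤ) : ℂ) := by
  rw [FF, HahnSeries.coeff_sum, Int.cast_sum]
  refine sum_congr rfl fun d hd => ?_
  rw [HahnSeries.coeff_sum]
  simp only [coeff_sb (pow_pos (div_pos' hd) 2)]
  by_cases h : (((m / d) ^ 2 : ℕ) : ℤ) ∣ k
  · simp only [h, if_true, true_and]
    rw [← sum_mul]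
    generalize k / (((m / d) ^ 2 : ℕ) : ℤ) = j
    rcases Int.even_or_odd j with ⟨j, rfl⟩ | hj
    · rw [← two_mul, sum_ru2 (Nat.pos_of_mem_divisors hd)]
      simp only [mul_dvd_mul_iff_left (two_ne_zero : (2 : ℤ) ≠ 0)]
      split_ifs <;> simp
    · simp [hG j hj]
  · simp only [h, if_false, false_and, sum_const_zero, Int.cast_zero]

lemma det_pos (b : B1) {m : ℕ} {H : M2} (h : H ∈ Hk 1 m) : 0 < H.det := by
  obtain ⟨a, d, c, ha, hd, -, -, rfl⟩ := (b.mat.mem 1 m H).1 h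
  rw [Matrix.det_fin_two_of]
  simpa using mul_pos (Int.natCast_pos.2 ha) (Int.natCast_pos.2 hd)

lemma even_pow (b : B1) (n : ℕ) (j : ℤ) (hj : Odd j) : ((Ys ^ 2) ^ n).coeff j = 0 := by
  have h1 : rsc (-1 : ℤˣ) Ys = -Ys := by
    ext i
    rcases Int.even_or_odd i with hi | hi
    · simp [b.y2.Ye i hi]
    · simp [hi.neg_one_zpow]
  have h2 : rsc (-1 : ℤˣ) ((Ys ^ 2) ^ n) = (Ys ^ 2) ^ n := by
    rw [map_pow, map_pow, h1, neg_sq]
  have h3 := congrArg (fun F => F.coeff j) h2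
  simp only [coeff_rsc, hj.neg_one_zpow, Units.val_neg, Units.val_one] at h3
  omega

lemma eps_sq (γ : M2) : (eps γ : ℂ) ^ 2 = 1 := by
  unfold eps
  split_ifs <;> simp

lemma main (b : B1) (h : LV) {m : ℕ} (m0 : 0 < m) (n : ℕ) :
    ∃ T : ℤ[X], (∀ τ, ∑ M ∈ Hk 1 m, (YY (act M τ) ^ 2) ^ n = aeval (YY τ ^ 2) T) ∧
      FF m (mapL (Int.castRingHom ℂ) ((Ys ^ 2) ^ n)) =
        ex m (mapL (Int.castRingHom ℂ) (aeval (Ys ^ 2) T)) := by
  have h1 : Hol fun τ => ∑ M ∈ Hk 1 m, (YY (act M τ) ^ 2) ^ n := by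
    have : ∀ s ⊆ Hk 1 m, Hol fun τ => ∑ M ∈ s, (YY (act M τ) ^ 2) ^ n := by
      intro s
      induction s using Finset.induction_on with
      | empty => exact fun _ => mdifferentiable_const
      | insert a s ha ih =>
        intro hs
        simp only [sum_insert ha]
        exact (((b.y1.hY.act (det_pos b (hs (mem_insert_self _ _)))).pow 2).pow n).add
          (ih ((subset_insert _ _).trans hs))
    exact this _ subset_rfl
  have h2 : Asy 1 (fun τ => (YY τ ^ 2) ^ n) (mapL (Int.castRingHom ℂ) ((Ys ^ 2) ^ n)) := by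
    have := (b.ring 1 one_pos).2.2.2.2.2.2.1 _ _ (((X : ℂ[X]) ^ 2) ^ n) b.y2.aY
    simp only [eval_pow, eval_X, map_pow, aeval_X, Yc] at this
    simpa only [map_pow] using this
  have h3 : Asy m (fun τ => ∑ M ∈ Hk 1 m, (YY (act M τ) ^ 2) ^ n)
      (FF m (mapL (Int.castRingHom ℂ) ((Ys ^ 2) ^ n))) := by
    simp only [b.mat.sum 1 m one_pos]
    refine ((b.ring m m0).2.2.2.2.2.2.2 _ _ _ _ fun d hd => ?_).1
    refine ((b.ring m m0).2.2.2.2.2.2.2 _ _ _ _ fun c _ => ?_).1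
    refine b.sub 1 m (m / d) d _ _ one_pos m0 (div_pos' hd) (Nat.pos_of_mem_divisors hd) ?_ _ _ h2
    rw [mul_one, pow_two, mul_assoc, Nat.div_mul_cancel (Nat.dvd_of_mem_divisors hd)]
  obtain ⟨P, p1, p2, p3, p4⟩ := (h m (Int.castRingHom ℂ).range _ _ m0 h1 h3
    (mem_ovr.2 fun k => ⟨_, (coeff_FF m _ (even_pow b n) k).symm⟩)).1 0 fun γ τ hγ => by
      obtain ⟨σ, s1, s2⟩ := b.mat.perm 1 m γ (Nat.coprime_one_left m) hγ
      rw [pow_zero, one_mul]
      refine sum_nbij σ s1.mapsTo s1.injOn s1.surjOn fun H hH => ?_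
      obtain ⟨γ', g1, g2, -⟩ := s2 H hH
      rw [← act_mul (det_pos b hH) (hγ ▸ one_pos), g2,
        act_mul (g1 ▸ one_pos) (det_pos b (s1.mapsTo hH)), b.y1.tY _ _ g1, mul_pow, eps_sq, one_mul]
  obtain ⟨T, rfl⟩ : P ∈ lifts (Int.castRingHom ℂ) := (lifts_iff_coeff_lifts P).2 p1
  have e : expand ℤ 2 (contract 2 T) = T := by
    ext i
    rw [coeff_expand two_pos, coeff_contract two_ne_zero]
    split_ifs with c
    · rw [Nat.div_mul_cancel c]
    · have := p2 i (by omega)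
      rw [coe_mapRingHom, coeff_map, eq_intCast, Int.cast_eq_zero] at this
      exact this.symm
  refine ⟨contract 2 T, fun τ => ?_, ?_⟩
  · rw [← expand_aeval, e]
    exact (p3 τ).trans (eval_map_algebraMap T _)
  · rw [← expand_aeval, e, p4, mapL_aeval, ← sb_one, ← sb_one, sb_aeval m0]
    rfl

lemma polar (b : B1) {m : ℕ} (m0 : 0 < m) {T : ℤ[X]}
    (h2 : FF m (mapL (Int.castRingHom ℂ) ((Ys ^ 2) ^ 1)) =
      ex m (mapL (Int.castRingHom ℂ) (aeval (Ys ^ 2) T))) (i : ℤ) (hi : i < 0) :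
    (aeval (Ys ^ 2) T).coeff i = if i = -(2 * m) then 1 else 0 := by
  have m1 : (0 : ℤ) < m := Int.natCast_pos.2 m0
  have k := congrArg (fun F => F.coeff (m * i)) h2
  simp only [coeff_FF m _ (even_pow b 1), coeff_ex_mul m0, coeff_mapL, eq_intCast,
    Int.cast_inj] at k
  have e : Yc ℤ = Ys := by
    ext
    simp [Yc]
  have ht := b.pol.top ℤ (X ^ 2)
  simp only [e, map_pow, aeval_X, natDegree_X_pow, leadingCoeff_X_pow, Nat.cast_ofNat] at ht
  have hY : ∀ j : ℤ, j < 0 → j ≠ -2 → ((Ys ^ 2) ^ 1).coeff j = 0 := fun j a c => by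
    by_cases c' : j = -1
    · exact even_pow b 1 j (by rw [c']; decide)
    · rw [pow_one]; exact ht.2 j (by omega)
  have hle : ∀ e : ℕ, 0 < e → m * i / e < 0 := fun e c =>
    Int.ediv_neg_of_neg_of_pos (mul_neg_of_pos_of_neg m1 hi) (Int.natCast_pos.2 c)
  rw [← k, sum_eq_single_of_mem 1 (Nat.one_mem_divisors.2 m0.ne')]
  · rw [Nat.div_one]
    by_cases c : i = -(2 * m)
    · have e : (m : ℤ) * i = ((m ^ 2 : ℕ) : ℤ) * -2 := by
        rw [c]
        push_cast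
        ring
      rw [if_pos c, e, Int.mul_ediv_cancel_left _ (by positivity), pow_one, ht.1]
      simp
    · rw [if_neg c]
      split_ifs with c'
      · rw [hY _ (hle _ (by positivity)) fun e => c ?_, mul_zero]
        have := Int.mul_ediv_cancel' c'.1
        rw [e] at this
        push_cast at this
        exact mul_left_cancel₀ m1.ne' (by linear_combination -this)
      · rfl
  · intro d hdm hd
    split_ifs with c
    · rw [hY _ (hle _ (pow_pos (div_pos' hdm) 2)) fun e => hd ?_, mul_zero]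
      have := Int.le_of_dvd (by norm_num) (dvd_neg.2 (e ▸ c.2))
      have := Nat.pos_of_mem_divisors hdm
      omega
    · rfl

end Tm2Aux

open Tm2Aux in
theorem tm2_of (b : B1) (h : LV) : TM2 := by
  refine ⟨?_, fun m m0 n => (main b h m0 n).imp fun _ k => k.1⟩
  choose Q q1 q2 using fun m (m0 : 0 < m) => main b h m0 1
  refine ⟨fun m => if m0 : 0 < m then Q m m0 else 0, fun m m0 τ => ?_, fun m m0 i hi => ?_⟩
  · rw [dif_pos m0, ← q1 m m0 τ]
    simp only [pow_one]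
  · rw [dif_pos m0]
    exact polar b m0 (q2 m m0) i hi

end Pool.Agent.MP_c481b3_nt.H31F
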