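import Pool.Agent.MP_c481b3_nt.H31F.SpecC

set_option autoImplicit false

namespace Pool.Agent.MP_c481b3_nt.H31F

open UpperHalfPlane hiding I
open Pool.Agent.MP_c481b3_nt.H81 Pool.Agent.MP_c481b3_nt.H28
open Filter Topology
open scoped Real

namespace U3Aux

variable (L : PeriodPair)

lemma near {x : ℂ} (hx : x ∉ L.lattice) : ∀ᶠ z in 𝓝 x, z ∉ L.lattice :=
  L.isClosed_lattice.isOpen_compl.mem_nhds hx

lemma hasP {x : ℂ} (hx : x ∉ L.lattice) :
    HasDerivAt L.weierstrassP (L.derivWeierstrassP x) x := by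
  rw [← L.deriv_weierstrassP]
  exact (L.analyticOnNhd_weierstrassP x hx).differentiableAt.hasDerivAt

lemma hasP' {x : ℂ} (hx : x ∉ L.lattice) :
    HasDerivAt L.derivWeierstrassP (deriv L.derivWeierstrassP x) x :=
  (L.analyticOnNhd_derivWeierstrassP x hx).differentiableAt.hasDerivAt

lemma ode0 {x : ℂ} (hx : x ∉ L.lattice) : L.derivWeierstrassP x *
    (2 * deriv L.derivWeierstrassP x - (12 * L.weierstrassP x ^ 2 - L.g₂)) = 0 := by
  have h1 := (hasP' L hx).fun_pow 2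
  have h2 := ((((hasP L hx).fun_pow 3).const_mul 4).fun_sub
    ((hasP L hx).const_mul L.g₂)).sub_const L.g₃
  have h3 := (h2.congr_of_eventuallyEq
    ((near L hx).mono fun z hz => L.derivWeierstrassP_sq z hz)).unique h1
  simp only [Nat.cast_ofNat, Nat.add_one_sub_one, pow_one] at h3
  linear_combination -h3

lemma not_zero : ¬∀ z ∈ (L.lattice : Set ℂ)ᶜ, L.derivWeierstrassP z = 0 := by
  intro h
  have hc : ContinuousAt (fun z : ℂ => z ^ 3 * L.derivWeierstrassPExcept 0 z - 2) 0 :=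
    ((continuousAt_id.pow 3).mul
      (L.analyticAt_derivWeierstrassPExcept 0).continuousAt).sub continuousAt_const
  have h1 := hc.tendsto.mono_left (nhdsWithin_le_nhds (s := {0}ᶜ))
  have h2 : (fun z : ℂ => z ^ 3 * L.derivWeierstrassPExcept 0 z - 2) =ᶠ[𝓝[≠] 0] fun _ => 0 := by
    filter_upwards [self_mem_nhdsWithin,
      nhdsWithin_le_nhds (L.compl_lattice_sdiff_singleton_mem_nhds 0)] with z hz hz'
    have hz0 : z ≠ 0 := hz
    have h3 := L.derivWeierstrassPExcept_def 0 z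
    rw [h z fun hm => hz' ⟨hm, hz⟩] at h3
    simp only [ZeroMemClass.coe_zero, sub_zero, zero_add] at h3
    rw [h3]
    field_simp
    ring
  have h4 := tendsto_nhds_unique (h1.congr' h2) tendsto_const_nhds
  simp at h4

lemma ode1 {x : ℂ} (hx : x ∉ L.lattice) :
    deriv L.derivWeierstrassP x = 6 * L.weierstrassP x ^ 2 - L.g₂ / 2 := by
  have hc : (L.lattice : Set ℂ).Countable :=
    Set.countable_coe_iff.1 (L.latticeEquivProd.injective.countable)
  have h1 : AnalyticOnNhd ℂ (fun z => 2 * deriv L.derivWeierstrassP z -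
      (12 * L.weierstrassP z ^ 2 - L.g₂)) (L.lattice : Set ℂ)ᶜ :=
    (analyticOnNhd_const.mul L.analyticOnNhd_derivWeierstrassP.deriv).sub
      ((analyticOnNhd_const.mul (L.analyticOnNhd_weierstrassP.pow 2)).sub analyticOnNhd_const)
  have h2 := (L.analyticOnNhd_derivWeierstrassP.eq_zero_or_eq_zero_of_mul_eq_zero h1
    (fun z hz => ode0 L hz)
    (hc.isConnected_compl_of_one_lt_rank (by simp)).isPreconnected).resolve_left (not_zero L) x hx
  linear_combination h2 / 2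

lemma ode2 {x : ℂ} (hx : x ∉ L.lattice) :
    deriv (deriv L.derivWeierstrassP) x = 12 * (L.weierstrassP x * L.derivWeierstrassP x) := by
  have h2 := (((hasP L hx).fun_pow 2).const_mul 6).sub_const (L.g₂ / 2)
  rw [(h2.congr_of_eventuallyEq ((near L hx).mono fun z hz => ode1 L hz)).deriv]
  simp only [Nat.cast_ofNat, Nat.add_one_sub_one, pow_one]
  ring

lemma ode3 {x : ℂ} (hx : x ∉ L.lattice) : deriv (deriv (deriv L.derivWeierstrassP)) x =
    120 * L.weierstrassP x ^ 3 - 18 * L.g₂ * L.weierstrassP x - 12 * L.g₃ := by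
  have h2 := ((hasP L hx).fun_mul (hasP' L hx)).const_mul 12
  rw [(h2.congr_of_eventuallyEq ((near L hx).mono fun z hz => ode2 L hz)).deriv, ode1 L hx]
  linear_combination 12 * L.derivWeierstrassP_sq x hx

lemma s4 {x : ℂ} (hx : x ∉ L.lattice) :
    L.sumInvPow x 4 = L.weierstrassP x ^ 2 - L.g₂ / 12 := by
  have h := L.deriv_derivWeierstrassPExcept_self x
  rw [L.derivWeierstrassPExcept_of_notMem x hx, ode1 L hx] at h
  linear_combination -h / 6

lemma s6 {x : ℂ} (hx : x ∉ L.lattice) : L.sumInvPow x 6 =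
    L.weierstrassP x ^ 3 - 3 / 20 * L.g₂ * L.weierstrassP x - L.g₃ / 10 := by
  have h := L.iteratedDeriv_derivWeierstrassPExcept_self x (n := 3)
  rw [L.derivWeierstrassPExcept_of_notMem x hx, iteratedDeriv_succ, iteratedDeriv_succ,
    iteratedDeriv_one, ode3 L hx] at h
  norm_num [Nat.factorial] at h
  linear_combination -h / 120

lemma split {lam : ℂ} (hl : lam ≠ 0) (hm : ∀ z ∈ L.lattice, lam * z ∈ L.lattice) {G : Type}
    [AddCommGroup G] (ψ : L.lattice →+ G) (hψ : ∀ l : L.lattice, ψ l = 0 ↔ l / lam ∈ L.lattice)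
    (C : Finset G) (hC : ∀ l, ψ l ∈ C) (r : G → L.lattice) (hr : ∀ P ∈ C, ψ (r P) = P) {k : ℕ}
    (hk : 2 < k) : ∑ P ∈ C, L.sumInvPow (r P / lam) k = lam ^ k * L.G k := by
  classical
  have h0 : HasSum (fun l : L.lattice => ((l : ℂ) ^ k)⁻¹) (L.G k) := by
    simpa using L.hasSum_sumInvPow 0 hk
  have h1 : ∀ P ∈ C, HasSum (fun l : L.lattice => if ψ (-l) = P then ((l : ℂ) ^ k)⁻¹ else 0)
      ((lam ^ k)⁻¹ * L.sumInvPow (r P / lam) k) := by
    intro P hP
    let e : L.lattice → L.lattice := fun l => ⟨lam * l, hm _ l.2⟩ - r P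
    have he : ∀ l, (e l : ℂ) = lam * l - r P := fun _ => rfl
    have inj : Function.Injective e := fun l l' h => by
      have h2 := congrArg Subtype.val h
      rw [he, he, sub_left_inj] at h2
      exact Subtype.ext (mul_left_cancel₀ hl h2)
    rw [← inj.hasSum_iff]
    · have h2 : (fun l : L.lattice => if ψ (-l) = P then ((l : ℂ) ^ k)⁻¹ else 0) ∘ e =
          fun l : L.lattice => (lam ^ k)⁻¹ * (((l : ℂ) - r P / lam) ^ k)⁻¹ := by
        funext l
        have h3 : ψ ⟨lam * l, hm _ l.2⟩ = 0 := (hψ _).2 (by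
          rw [mul_div_cancel_left₀ _ hl]
          exact l.2)
        have h4 : ψ (-e l) = P := by rw [neg_sub, map_sub, h3, hr P hP, sub_zero]
        rw [Function.comp_apply, if_pos h4, he, ← mul_inv, ← mul_pow, mul_sub,
          mul_div_cancel₀ _ hl]
      rw [h2]
      exact (L.hasSum_sumInvPow (r P / lam) hk).mul_left (lam ^ k)⁻¹
    · intro l hn
      refine if_neg fun h => hn ?_
      have h2 : ψ (l + r P) = 0 := by rw [map_add, hr P hP, ← h, map_neg, add_neg_cancel]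
      refine ⟨⟨_, (hψ _).1 h2⟩, Subtype.ext ?_⟩
      rw [he]
      push_cast
      field_simp
      ring
  have h2 := hasSum_sum h1
  simp only [Finset.sum_ite_eq, hC, if_true] at h2
  rw [← h2.unique h0, ← Finset.mul_sum, mul_inv_cancel_left₀ (pow_ne_zero k hl)]

lemma card_range {lam : ℂ} {n : ℕ} (hl : lam ≠ 0) (hn : lam ^ 2 = -n)
    (hm : ∀ z ∈ L.lattice, lam * z ∈ L.lattice) {G : Type} [AddCommGroup G]
    (ψ : L.lattice →+ G) (hψ : ∀ l : L.lattice, ψ l = 0 ↔ l / lam ∈ L.lattice) :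
    Nat.card (Set.range ψ) = n := by
  let m : L.lattice →ₗ[ℤ] L.lattice := (LinearMap.mulLeft ℤ lam).restrict hm
  have hm' : ∀ l, (m l : ℂ) = lam * l := fun _ => rfl
  have inj : Function.Injective m := fun l l' h =>
    Subtype.ext (mul_left_cancel₀ hl (by rw [← hm', ← hm', h]))
  have h1 : m * m = (-(n : ℤ)) • (1 : L.lattice →ₗ[ℤ] L.lattice) := by
    ext l
    rw [Module.End.mul_apply, hm', hm', ← mul_assoc, ← pow_two, hn]
    simp
  have h2 := congrArg LinearMap.det h1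
  rw [map_mul, LinearMap.det_smul, map_one, mul_one, L.finrank_lattice, ← pow_two] at h2
  have h3 : (LinearMap.det m).natAbs = n := by
    have := Int.natAbs_eq_iff_sq_eq.2 h2
    simpa using this
  have h4 := Submodule.natAbs_det_equiv (LinearMap.range m) (LinearEquiv.ofInjective m inj)
  have h5 : LinearMap.range m = LinearMap.ker ψ.toIntLinearMap := by
    ext l
    rw [LinearMap.mem_ker, AddMonoidHom.coe_toIntLinearMap, hψ]
    constructor
    · rintro ⟨l', rfl⟩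
      rw [hm', mul_div_cancel_left₀ _ hl]
      exact l'.2
    · intro h
      exact ⟨⟨_, h⟩, Subtype.ext (by rw [hm', mul_div_cancel₀ _ hl])⟩
  have h6 : (LinearMap.range m).subtype ∘ₗ AddMonoidHom.toIntLinearMap
      (LinearEquiv.ofInjective m inj : L.lattice →+ LinearMap.range m) = m := by
    ext l
    rfl
  rw [h6, h3, h5, Nat.card_congr ψ.toIntLinearMap.quotKerEquivRange.toEquiv] at h4
  exact h4.symm

lemma cmv (h3 : U2) (hG : Good (-L.g₂ / 4) (-L.g₃ / 4)) {lam : ℂ} {n : ℕ} (h0 : 0 < n)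
    (hn : lam ^ 2 = -n) (hm : ∀ z ∈ L.lattice, lam * z ∈ L.lattice) :
    CMv n (-L.g₂ / 4) (-L.g₃ / 4) := by
  obtain ⟨φ, hφ, hxy⟩ := h3 L hG
  have hl : lam ≠ 0 := by
    rintro rfl
    have : (n : ℂ) = 0 := by linear_combination hn
    exact h0.ne' (by exact_mod_cast this)
  let ψ : L.lattice →+ Pt (-L.g₂ / 4) (-L.g₃ / 4) :=
    AddMonoidHom.mk' (fun l => φ (l / lam)) fun a b => by
      rw [← map_add, ← add_div]
      rfl
  have hψ : ∀ l : L.lattice, ψ l = 0 ↔ l / lam ∈ L.lattice := fun l => hφ _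
  have hc := card_range L hl hn hm ψ hψ
  have hf : (Set.range ψ).Finite := Nat.finite_of_card_ne_zero (hc ▸ h0.ne')
  have hC : ∀ l, ψ l ∈ hf.toFinset := fun l => hf.mem_toFinset.2 ⟨l, rfl⟩
  obtain ⟨r, hr0, hr⟩ : ∃ r : Pt (-L.g₂ / 4) (-L.g₃ / 4) → L.lattice, r 0 = 0 ∧
      ∀ P ∈ hf.toFinset, ψ (r P) = P := by
    refine ⟨fun P => if P = 0 then 0 else Function.invFun ψ P, if_pos rfl, fun P hP => ?_⟩
    by_cases h : P = 0
    · simp only [h, if_true, map_zero]
    · simp only [h, if_false]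
      exact Function.invFun_eq (hf.mem_toFinset.1 hP)
  have hz : (0 : Pt (-L.g₂ / 4) (-L.g₃ / 4)) ∈ hf.toFinset := map_zero ψ ▸ hC 0
  have key : ∀ k, 2 < k → ∑ P ∈ hf.toFinset.erase 0, L.sumInvPow (r P / lam) k =
      lam ^ k * L.G k - L.G k := by
    intro k hk
    rw [← split L hl hm ψ hψ _ hC r hr hk, ← Finset.add_sum_erase _ _ hz, hr0]
    simp
  have hx : ∀ P ∈ hf.toFinset.erase 0, (r P : ℂ) / lam ∉ L.lattice ∧
      xc P = L.weierstrassP (r P / lam) := by
    intro P hP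
    obtain ⟨h1, h2⟩ := Finset.mem_erase.1 hP
    have h4 : (r P : ℂ) / lam ∉ L.lattice := fun h => h1 (by rw [← hr P h2]; exact (hψ _).2 h)
    refine ⟨h4, ?_⟩
    rw [← (hxy _ h4).1]
    exact congrArg xc (hr P h2).symm
  refine ⟨hf.toFinset, lam, ⟨hG, ⟨hz, fun P hP Q hQ => ?_⟩, hl, ?_, ?_, hG⟩, ?_, hn⟩
  · rw [← hr P hP, ← hr Q hQ, ← map_sub]
    exact hC _
  · have h1 : ∑ P ∈ hf.toFinset.erase 0, ca P =
        3 * ∑ P ∈ hf.toFinset.erase 0, L.sumInvPow (r P / lam) 4 := by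
      rw [Finset.mul_sum]
      refine Finset.sum_congr rfl fun P hP => ?_
      rw [s4 L (hx P hP).1, ca, (hx P hP).2]
      ring
    rw [vA, h1, key 4 (by norm_num), PeriodPair.g₂]
    ring
  · have h1 : ∑ P ∈ hf.toFinset.erase 0, (ca P * xc P + cb P) =
        5 * ∑ P ∈ hf.toFinset.erase 0, L.sumInvPow (r P / lam) 6 := by
      rw [Finset.mul_sum]
      refine Finset.sum_congr rfl fun P hP => ?_
      rw [s6 L (hx P hP).1, ca, cb, (hx P hP).2]
      ring
    rw [vB, h1, key 6 (by norm_num), PeriodPair.g₃]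
    ring
  · rw [← hc, Nat.card_coe_set_eq, Set.ncard_eq_toFinset_card _ hf]

end U3Aux

open U3Aux in
theorem u3_of (h1 : YS1) (h2 : U1) (h3 : U2) : U3 := by
  intro τ Q n h0 hQ hτ hn
  have hdet : 0 < Q.det := by rw [hQ]; exact_mod_cast h0
  have hπ : (π : ℂ) ≠ 0 := by exact_mod_cast Real.pi_ne_zero
  have hd : 4 * (-(Lt τ).g₂ / 4) ^ 3 + 27 * (-(Lt τ).g₃ / 4) ^ 2 = -256 * π ^ 12 * dl τ ^ 2 := by
    rw [h1.disc, ModularForm.discriminant_eq_E₄_cube_sub_E₆_sq, (h2 τ).1, (h2 τ).2]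
    ring
  have hne := h1.ne τ
  have hG : Good (-(Lt τ).g₂ / 4) (-(Lt τ).g₃ / 4) := ⟨two_ne_zero, by
    rw [hd]
    exact mul_ne_zero (mul_ne_zero (by norm_num) (pow_ne_zero _ hπ)) (pow_ne_zero _ hne)⟩
  refine ⟨_, _, hG, ?_, cmv (Lt τ) h3 hG h0 hn fun z hz => ?_⟩
  · rw [jj, hd, h1.eJ, (h2 τ).1]
    field_simp
    ring
  · obtain ⟨a, b, rfl⟩ := PeriodPair.mem_lattice.1 hz
    refine PeriodPair.mem_lattice.2 ⟨a * Q 0 0 + b * Q 1 0, a * Q 0 1 + b * Q 1 1, ?_⟩
    have e := (act_eq_self hdet).1 hτ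
    have e' : den Q τ = Q 1 0 * τ + Q 1 1 := rfl
    change _ * (τ : ℂ) + _ * 1 = den Q τ * (a * (τ : ℂ) + b * 1)
    push_cast
    linear_combination a * e - b * e'

end Pool.Agent.MP_c481b3_nt.H31F
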