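import Pool.Agent.MP_c481b3_nt.H31F.Spec

set_option autoImplicit false

namespace Pool.Agent.MP_c481b3_nt.H31F

open Finset

namespace ValAux

open PowerSeries
open scoped Polynomial

variable {K : Type} [Field K]

/-- the geometric series -/
noncomputable def gs (z : K) : K⟦X⟧ := mk fun n => z ^ n

lemma gs_mul (z : K) : (1 - C z * X) * gs z = 1 := by
  ext n
  rcases n with _ | n
  · simp [gs]
  · rw [sub_mul, one_mul, mul_assoc, map_sub, coeff_C_mul, coeff_succ_X_mul]
    simp [gs, pow_succ', coeff_one]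

/-- the product of the `1 + z X` -/
noncomputable def pr (M : Multiset K) : K[X] :=
  (M.map fun z => (1 + Polynomial.C z * Polynomial.X : K[X])).prod

lemma pr_cons (z : K) (M : Multiset K) :
    ((pr (z ::ₘ M) : K[X]) : K⟦X⟧) = (1 + C z * X) * (pr M : K⟦X⟧) := by
  simp [pr]

lemma eval_pr (M : Multiset K) : (pr M).eval 1 = (M.map fun z => 1 + z).prod := by
  simp [pr, Polynomial.eval_multiset_prod]

lemma exists_U (M : Multiset K) : ∃ U : K⟦X⟧, coeff 0 U = 1 ∧
    (pr M : K⟦X⟧) * U = (pr (M.map fun z => -z) : K⟦X⟧) ∧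
    X * d⁄dX K U = U * (M.map fun z => gs (-z) - gs z).sum := by
  induction M using Multiset.induction_on with
  | empty => exact ⟨1, by simp, by simp, by simp⟩
  | cons z M ih =>
    obtain ⟨U, h0, h1, h2⟩ := ih
    have a := gs_mul z
    have b := gs_mul (-z)
    have db := congrArg (d⁄dX K) b
    rw [Derivation.leibniz] at db
    simp only [map_sub, Derivation.leibniz, derivative_C, derivative_X, smul_eq_mul, map_neg,
      Derivation.map_one_eq_zero] at db a b
    refine ⟨(1 - C z * X) * gs (-z) * U, ?_, ?_, ?_⟩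
    · simp only [coeff_zero_eq_constantCoeff] at h0
      simp [gs, h0]
    · rw [Multiset.map_cons, pr_cons, pr_cons, ← h1, map_neg]
      linear_combination ((1 - C z * X) * (pr M : K⟦X⟧) * U) * b
    · simp only [Multiset.map_cons, Multiset.sum_cons, map_sub, Derivation.leibniz, derivative_C,
        derivative_X, smul_eq_mul, Derivation.map_one_eq_zero]
      linear_combination ((1 - C z * X) * gs (-z)) * h2 + (gs (-z) * U) * a
        + ((1 - C z * X) * U * X * gs (-z)) * db
        - ((1 - C z * X) * U * (X * d⁄dX K (gs (-z)) + gs (-z))) * b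

variable {Γ₀ : Type} [LinearOrderedCommGroupWithZero Γ₀] (v : Valuation K Γ₀)

lemma nat_le (n : ℕ) : v (n : K) ≤ 1 := by
  induction n with
  | zero => simp
  | succ n ih => push_cast; exact v.map_add_le ih v.map_one.le

lemma nat_eq {l m : ℕ} (hl : v (l : K) < 1) (h : l.Coprime m) : v (m : K) = 1 := by
  refine le_antisymm (nat_le v m) (not_lt.1 fun hm => ?_)
  obtain ⟨a, b, e⟩ : IsCoprime (l : ℤ) (m : ℤ) := Nat.isCoprime_iff_coprime.2 h
  have hi : ∀ a : ℤ, v (a : K) ≤ 1 := by
    intro a
    obtain ⟨n, rfl | rfl⟩ := a.eq_nat_or_neg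
    · simpa using nat_le v n
    · simpa using nat_le v n
  have e' : (a : K) * l + b * m = 1 := by exact_mod_cast congrArg (Int.cast : ℤ → K) e
  have : v ((a : K) * l + b * m) < 1 := by
    refine v.map_add_lt ?_ ?_ <;> rw [map_mul]
    · exact (mul_le_of_le_one_left' (hi a)).trans_lt hl
    · exact (mul_le_of_le_one_left' (hi b)).trans_lt hm
  rw [e', map_one] at this
  exact lt_irrefl _ this

lemma msum_le {M : Multiset K} {g : Γ₀} (h : ∀ z ∈ M, v z ≤ g) : v M.sum ≤ g := by
  induction M using Multiset.induction_on with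
  | empty => simp
  | cons z M ih =>
    rw [Multiset.sum_cons]
    exact v.map_add_le (h z (Multiset.mem_cons_self _ _))
      (ih fun y hy => h y (Multiset.mem_cons_of_mem hy))

lemma pr_le {M : Multiset K} {ε : Γ₀} (h : ∀ z ∈ M, v z ≤ ε) (n : ℕ) :
    v (coeff n (pr M : K⟦X⟧)) ≤ ε ^ n := by
  induction M using Multiset.induction_on generalizing n with
  | empty =>
    rcases n with _ | n <;> simp [pr, coeff_one]
  | cons z M ih =>
    have ih' := ih fun y hy => h y (Multiset.mem_cons_of_mem hy)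
    rw [pr_cons, add_mul, one_mul, map_add, mul_assoc, coeff_C_mul]
    refine v.map_add_le (ih' n) ?_
    rcases n with _ | n
    · simp
    · rw [coeff_succ_X_mul, map_mul, pow_succ']
      exact mul_le_mul' (h z (Multiset.mem_cons_self _ _)) (ih' n)

lemma coeff_zero_pr (M : Multiset K) : coeff 0 (pr M : K⟦X⟧) = 1 := by
  induction M using Multiset.induction_on with
  | empty => simp [pr]
  | cons z M ih =>
    rw [pr_cons]
    simp only [coeff_zero_eq_constantCoeff] at ih ⊢
    simp [ih]

/-- bounds for the solution of `X U' = U S` -/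
lemma sol_le {U S : K⟦X⟧} {ε γ : Γ₀} (hγ : γ ≤ 1) (h0 : coeff 0 U = 1) (hS0 : coeff 0 S = 0)
    (hS : ∀ j, v (coeff j S) ≤ γ * ε ^ j) (h : X * d⁄dX K U = U * S) (n : ℕ) :
    v (((n + 1).factorial : K) * coeff (n + 1) U) ≤ γ * ε ^ (n + 1) := by
  have step : ∀ n : ℕ, (∀ i, i ≤ n → v ((i.factorial : K) * coeff i U) ≤ ε ^ i) →
      v (((n + 1).factorial : K) * coeff (n + 1) U) ≤ γ * ε ^ (n + 1) := by
    intro n ih
    have e := congrArg (coeff (n + 1)) h
    rw [coeff_succ_X_mul, coeff_derivative, coeff_mul] at e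
    have e' : ((n + 1).factorial : K) * coeff (n + 1) U
        = ∑ p ∈ antidiagonal (n + 1), (n.factorial : K) * (coeff p.1 U * coeff p.2 S) := by
      rw [← Finset.mul_sum, ← e, Nat.factorial_succ]
      push_cast
      ring
    rw [e']
    refine v.map_sum_le fun p hp => ?_
    rw [HasAntidiagonal.mem_antidiagonal] at hp
    rcases Nat.eq_zero_or_pos p.2 with h2 | h2
    · simp [h2, hS0]
    · obtain ⟨q, hq⟩ := Nat.factorial_dvd_factorial (show p.1 ≤ n by omega)
      rw [hq, show ((p.1.factorial * q : ℕ) : K) * (coeff p.1 U * coeff p.2 S)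
        = (q : K) * (((p.1.factorial : K) * coeff p.1 U) * coeff p.2 S) by push_cast; ring,
        map_mul, map_mul _ (_ * _), ← hp, pow_add, mul_left_comm γ]
      exact (mul_le_of_le_one_left' (nat_le v q)).trans (mul_le_mul' (ih p.1 (by omega)) (hS _))
  have all : ∀ i : ℕ, v ((i.factorial : K) * coeff i U) ≤ ε ^ i := by
    intro i
    induction i using Nat.strong_induction_on with
    | _ i ih =>
      rcases i with _ | i
      · simp [h0]
      · exact (step i fun j hj => ih j (by omega)).trans (mul_le_of_le_one_left' hγ)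
  exact step n fun i _ => all i

lemma fact_le {l : ℕ} (hp : l.Prime) (h5 : 5 ≤ l) (hl : v (l : K) < 1) (hl0 : (l : K) ≠ 0)
    {ε γ : Γ₀} (hε1 : ε ≤ 1) (hε : ε ^ 2 ≤ v (l : K)) {n : ℕ} (hn : 2 ≤ n) {u : K}
    (h : v ((n.factorial : K) * u) ≤ γ * ε ^ n) : v u ≤ γ * ε ^ 2 := by
  have : Fact l.Prime := ⟨hp⟩
  have h1 := sub_one_mul_padicValNat_factorial_lt_of_ne_zero l (show n ≠ 0 by omega)
  obtain ⟨m, hm⟩ : l ^ padicValNat l n.factorial ∣ n.factorial := pow_padicValNat_dvd
  have hm' : ¬l ∣ m := by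
    intro hd
    refine pow_succ_padicValNat_not_dvd (p := l) n.factorial_ne_zero ?_
    rw [pow_succ]
    nth_rewrite 2 [hm]
    exact mul_dvd_mul_left _ hd
  generalize padicValNat l n.factorial = a at h1 hm
  have ha : 2 * a + 2 ≤ n := by
    have : 4 * a ≤ (l - 1) * a := Nat.mul_le_mul_right a (by omega)
    omega
  rw [hm, map_mul] at h
  push_cast at h
  rw [map_mul, nat_eq v hl ((Nat.Prime.coprime_iff_not_dvd hp).2 hm'), mul_one, map_pow] at h
  have h2 : ε ^ n ≤ v (l : K) ^ a * ε ^ 2 := by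
    refine (pow_le_pow_right_of_le_one' hε1 ha).trans ?_
    rw [pow_add, pow_mul]
    exact mul_le_mul' (pow_le_pow_left' hε a) le_rfl
  have h3 : v (l : K) ^ a * v u ≤ v (l : K) ^ a * (γ * ε ^ 2) := by
    rw [mul_left_comm]
    exact h.trans (mul_le_mul' le_rfl h2)
  exact le_of_mul_le_mul_left h3 (pow_pos (zero_lt_iff.2 ((map_ne_zero v).2 hl0)) a)

lemma core {l : ℕ} (hp : l.Prime) (h5 : 5 ≤ l) (hl : v (l : K) < 1) (hl0 : (l : K) ≠ 0)
    {ε γ : Γ₀} (hε : ε ^ 2 ≤ v (l : K)) (hγ : γ ≤ 1) {M : Multiset K} (hM : ∀ z ∈ M, v z ≤ ε)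
    (hk : ∀ k, Odd k → v (M.map (· ^ k)).sum ≤ γ * ε ^ k)
    (he : (M.map fun z => 1 - z).prod = (M.map fun z => 1 + z).prod) : v M.sum ≤ γ * ε ^ 2 := by
  have hε1 : ε < 1 := by
    by_contra hc
    exact absurd (hε.trans_lt hl) (not_lt.2 (one_le_pow_of_one_le' (not_lt.1 hc) 2))
  have h2 : v (2 : K) = 1 := by
    have := nat_eq v hl (m := 2) ((Nat.coprime_primes hp Nat.prime_two).2 (by omega))
    exact_mod_cast this
  obtain ⟨U, h0, h1, hU⟩ := exists_U M
  set S := (M.map fun z => gs (-z) - gs z).sum with hSdef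
  have hS : ∀ j, coeff j S = if Odd j then -2 * (M.map (· ^ j)).sum else 0 := by
    intro j
    rw [hSdef, map_multiset_sum, Multiset.map_map]
    split_ifs with hj
    · rw [← Multiset.sum_map_mul_left]
      congr 1
      refine Multiset.map_congr rfl fun z _ => ?_
      simp only [Function.comp, gs, map_sub, coeff_mk, hj.neg_pow]
      ring
    · refine Multiset.sum_eq_zero fun x hx => ?_
      obtain ⟨z, -, rfl⟩ := Multiset.mem_map.1 hx
      simp [gs, (Nat.not_odd_iff_even.1 hj).neg_pow]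
  have hS0 : coeff 0 S = 0 := by rw [hS]; simp
  have hb := sol_le v hγ h0 hS0 (ε := ε) (fun j => by
    rw [hS]
    split_ifs with hj
    · rw [map_mul, v.map_neg, h2, one_mul]
      exact hk j hj
    · simp) hU
  have hu : ∀ n, 2 ≤ n → v (coeff n U) ≤ γ * ε ^ 2 := by
    intro n hn
    obtain ⟨n, rfl⟩ : ∃ m, n = m + 1 := ⟨n - 1, by omega⟩
    exact fact_le v hp h5 hl hl0 hε1.le hε hn (hb n)
  have hu1 : v (coeff 1 U) = v M.sum := by
    have e := congrArg (coeff (0 + 1)) hU
    rw [coeff_succ_X_mul, coeff_derivative, coeff_mul, Finset.Nat.antidiagonal_succ] at e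
    simp only [h0, hS0, hS 1, odd_one, if_true, zero_add, Nat.cast_zero, mul_one, sum_cons,
      Finset.Nat.antidiagonal_zero, map_singleton, sum_singleton, one_mul, pow_one, Multiset.map_id',
      Function.Embedding.prodMap, Function.Embedding.coeFn_mk, Prod.map_fst, Prod.map_snd,
      Function.Embedding.refl_apply, mul_zero, add_zero] at e
    rw [e, map_mul, v.map_neg, h2, one_mul]
  by_contra hc
  rw [not_le, ← hu1] at hc
  set W : K[X] := pr (M.map fun z => -z) - pr M with hW
  have hW1 : W.eval 1 = 0 := by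
    rw [hW, Polynomial.eval_sub, eval_pr, eval_pr, Multiset.map_map, ← he, sub_eq_zero]
    simp [sub_eq_add_neg]
  have hWc : ∀ n, W.coeff n = ∑ p ∈ antidiagonal n, coeff p.1 (pr M : K⟦X⟧) * coeff p.2 (U - 1) := by
    intro n
    rw [← coeff_mul, mul_sub, h1, mul_one, ← Polynomial.coe_sub, Polynomial.coeff_coe]
  have hz : coeff 0 (U - 1) = 0 := by rw [map_sub, h0]; simp
  have hs : ∀ n, coeff (n + 1) (U - 1) = coeff (n + 1) U := by
    intro n
    simp [coeff_one]
  have hpos : 0 < v (coeff 1 U) := lt_of_le_of_lt zero_le hc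
  have hlt : ∀ n, v (W.coeff (n + 2)) < v (coeff 1 U) := by
    intro n
    rw [hWc]
    refine v.map_sum_lt hpos.ne' fun p hp => ?_
    rw [HasAntidiagonal.mem_antidiagonal] at hp
    obtain ⟨i, j⟩ := p
    simp only at hp ⊢
    rcases j with _ | _ | j
    · simpa [hz] using hpos
    · rw [hs, map_mul]
      have : v (coeff i (pr M : K⟦X⟧)) < 1 :=
        (pr_le v hM i).trans_lt (pow_lt_one' hε1 (by omega))
      exact mul_lt_of_lt_one_left hpos this
    · rw [hs, map_mul]
      have : v (coeff i (pr M : K⟦X⟧)) ≤ 1 := (pr_le v hM i).trans (pow_le_one' hε1.le _)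
      exact (mul_le_of_le_one_left' this).trans_lt ((hu _ (by omega)).trans_lt hc)
  have hW0 : W.coeff 0 = 0 := by
    rw [hWc, Finset.Nat.antidiagonal_zero, sum_singleton, hz, mul_zero]
  have hWo : W.coeff 1 = coeff 1 U := by
    rw [hWc, Finset.Nat.antidiagonal_succ]
    simp only [sum_cons, Finset.Nat.antidiagonal_zero, map_singleton, sum_singleton, coeff_zero_pr, hs,
      Function.Embedding.prodMap, Function.Embedding.coeFn_mk, Prod.map_fst, Prod.map_snd,
      Function.Embedding.refl_apply, hz, mul_zero, add_zero, one_mul, zero_add]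
  rw [Polynomial.eval_eq_sum_range' (n := W.natDegree + 1 + 1) (by omega), Finset.sum_range_succ',
    Finset.sum_range_succ'] at hW1
  simp only [one_pow, mul_one, hW0, add_zero, zero_add, hWo] at hW1
  have := v.map_sum_lt (s := range W.natDegree) hpos.ne' fun n _ => hlt n
  rw [eq_neg_of_add_eq_zero_left hW1, v.map_neg] at this
  exact lt_irrefl _ this

end ValAux

open ValAux in
theorem val : VAL := by
  intro O l Γ Z e c hp h5 hl hΓ hZ he he' hc0 hc hk hprod
  set v := O.valuation with hv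
  have hl0 : (l : ℂ) ≠ 0 := by exact_mod_cast hp.ne_zero
  have hε1 : v e < 1 := by
    by_contra hc
    exact absurd (he.trans_lt hl) (not_lt.2 (one_le_pow_of_one_le' (not_lt.1 hc) 2))
  have h12 : v (12 : ℂ) = 1 := by
    have h2 : l.Coprime 2 := (Nat.coprime_primes hp Nat.prime_two).2 (by omega)
    have h3 : l.Coprime 3 := (Nat.coprime_primes hp Nat.prime_three).2 (by omega)
    have := nat_eq v hl (m := 2 * 2 * 3) ((h2.mul_right h2).mul_right h3)
    exact_mod_cast this
  set M₀ : Multiset ℂ := Γ.bind fun y => Z.map fun x => y * x with hM₀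
  have hm : ∀ z ∈ M₀, v z ≤ v e := by
    intro z hz
    obtain ⟨y, hy, hz⟩ := Multiset.mem_bind.1 hz
    obtain ⟨x, hx, rfl⟩ := Multiset.mem_map.1 hz
    rw [map_mul]
    exact (mul_le_of_le_one_left' ((O.valuation_le_one_iff y).2 (hΓ y hy))).trans (hZ x hx)
  have hs : ∀ k : ℕ, v ((12 • M₀).map (· ^ k)).sum
      = v (Γ.map (· ^ k)).sum * v (Z.map (· ^ k)).sum := by
    intro k
    rw [Multiset.map_nsmul, Multiset.sum_nsmul, nsmul_eq_mul, map_mul, Nat.cast_ofNat, h12, one_mul,
      ← map_mul, hM₀, Multiset.map_bind, Multiset.sum_bind, ← Multiset.sum_map_mul_right]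
    congr 2
    refine Multiset.map_congr rfl fun y _ => ?_
    rw [Multiset.map_map, ← Multiset.sum_map_mul_left]
    simp [mul_pow]
  have hne : (M₀.map fun z => 1 + z).prod ≠ 0 := by
    refine Multiset.prod_ne_zero fun h => ?_
    obtain ⟨z, hz, e⟩ := Multiset.mem_map.1 h
    have := v.map_one_add_of_lt ((hm z hz).trans_lt hε1)
    rw [e, map_zero] at this
    exact zero_ne_one this
  have hq : (Γ.map fun y => (Z.map fun x => (1 - y * x) / (1 + y * x)).prod).prod
      = (M₀.map fun z => 1 - z).prod / (M₀.map fun z => 1 + z).prod := by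
    rw [← Multiset.prod_map_div, hM₀, Multiset.map_bind, Multiset.prod_bind]
    simp [Multiset.map_map]
  have key := core v hp h5 hl hl0 he ((O.valuation_le_one_iff c).2 hc) (M := 12 • M₀)
    (fun z hz => hm z (Multiset.mem_of_mem_nsmul hz)) (fun k hk' => by
      rw [hs]
      refine mul_le_mul' (hk k hk') (msum_le v fun z hz => ?_)
      obtain ⟨x, hx, rfl⟩ := Multiset.mem_map.1 hz
      rw [map_pow]
      exact pow_le_pow_left' (hZ x hx) k) (by
      rw [hq, div_pow, div_eq_one_iff_eq (pow_ne_zero _ hne)] at hprod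
      rw [Multiset.map_nsmul, Multiset.map_nsmul, Multiset.prod_nsmul, Multiset.prod_nsmul, hprod])
  have h1 := hs 1
  simp only [pow_one, Multiset.map_id'] at h1
  rw [h1] at key
  by_contra hcon
  have hpos : 0 < v c := zero_lt_iff.2 ((map_ne_zero v).2 hc0)
  have : v c * v Z.sum ≤ v c * v e ^ 2 := (mul_le_mul' (not_lt.1 hcon) le_rfl).trans key
  exact absurd (le_of_mul_le_mul_left this hpos) (not_le.2 he')
end Pool.Agent.MP_c481b3_nt.H31F
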