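import Pool.Agent.MP_c481b3_nt.H31F.Spec3
import Pool.Agent.MP_c481b3_nt.H31F.Val

set_option autoImplicit false

namespace Pool.Agent.MP_c481b3_nt.H31F

open Finset

namespace Val2Aux

open PowerSeries ValAux
open scoped Polynomial

variable {K : Type} [Field K]

/-- the product of the `1 - z X` as a power series -/
noncomputable def pn (M : Multiset K) : K⟦X⟧ := ((pr (M.map fun z => -z) : K[X]) : K⟦X⟧)

lemma pn_cons (z : K) (M : Multiset K) : pn (z ::ₘ M) = (1 - C z * X) * pn M := by
  rw [pn, Multiset.map_cons, pr_cons, map_neg, pn]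
  ring

lemma pn_zero : pn (0 : Multiset K) = 1 := by simp [pn, pr]

lemma pn_der (M : Multiset K) :
    X * d⁄dX K (pn M) = pn M * (M.map fun z => 1 - gs z).sum := by
  induction M using Multiset.induction_on with
  | empty => simp [pn_zero]
  | cons z M ih =>
    have a := gs_mul z
    rw [pn_cons]
    simp only [Multiset.map_cons, Multiset.sum_cons, map_sub, Derivation.leibniz, derivative_C,
      derivative_X, smul_eq_mul, Derivation.map_one_eq_zero]
    linear_combination (1 - C z * X) * ih + pn M * a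

lemma pn_inv (M : Multiset K) : pn M * (M.map gs).prod = 1 := by
  induction M using Multiset.induction_on with
  | empty => simp [pn_zero]
  | cons z M ih =>
    have a := gs_mul z
    rw [pn_cons, Multiset.map_cons, Multiset.prod_cons]
    linear_combination ((1 - C z * X) * gs z) * ih + a

lemma exists_U (M N : Multiset K) : ∃ U : K⟦X⟧, coeff 0 U = 1 ∧ pn N * U = pn M ∧
    X * d⁄dX K U = U * ((M.map fun z => 1 - gs z).sum - (N.map fun z => 1 - gs z).sum) := by
  have a := pn_inv N
  have hM := pn_der M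
  have hN := pn_der N
  have da := congrArg (d⁄dX K) a
  rw [Derivation.leibniz, Derivation.map_one_eq_zero, smul_eq_mul, smul_eq_mul] at da
  refine ⟨pn M * (N.map gs).prod, ?_, ?_, ?_⟩
  · have e := congrArg (coeff 0) a
    have h1 : coeff 0 (pn N) = 1 := coeff_zero_pr _
    have h2 : coeff 0 (pn M) = 1 := coeff_zero_pr _
    simp only [coeff_zero_eq_constantCoeff, map_mul, map_one] at e h1 h2 ⊢
    rw [h1, one_mul] at e
    rw [h2, e, one_mul]
  · linear_combination pn M * a
  · rw [Derivation.leibniz, smul_eq_mul, smul_eq_mul]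
    generalize (N.map gs).prod = Q at a da ⊢
    generalize (M.map fun z => 1 - gs z).sum = s at hM ⊢
    generalize (N.map fun z => 1 - gs z).sum = t at hN ⊢
    linear_combination Q * hM + (pn M * Q * X) * da - (pn M * Q * Q) * hN
      - (pn M * (X * d⁄dX K Q + Q * t)) * a

lemma ode_unique [CharZero K] {U E S : K⟦X⟧} {N : ℕ} (h0 : coeff 0 U = coeff 0 E)
    (hS0 : coeff 0 S = 0) (hU : X * d⁄dX K U = U * S)
    (hE : ∀ n, n ≤ N → coeff n (X * d⁄dX K E) = coeff n (E * S)) :
    ∀ n, n ≤ N → coeff n U = coeff n E := by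
  intro n
  induction n using Nat.strong_induction_on with
  | _ n ih =>
    intro hn
    rcases n with _ | n
    · exact h0
    · have e := congrArg (coeff (n + 1)) hU
      have e' := hE (n + 1) hn
      rw [coeff_succ_X_mul, coeff_derivative, coeff_mul] at e e'
      have : ∑ p ∈ antidiagonal (n + 1), coeff p.1 U * coeff p.2 S
          = ∑ p ∈ antidiagonal (n + 1), coeff p.1 E * coeff p.2 S := by
        refine Finset.sum_congr rfl fun p hp => ?_
        rw [HasAntidiagonal.mem_antidiagonal] at hp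
        rcases Nat.eq_zero_or_pos p.2 with h2 | h2
        · rw [h2, hS0, mul_zero, mul_zero]
        · rw [ih p.1 (by omega) (by omega)]
      rw [this, ← e'] at e
      exact mul_right_cancel₀ (by exact_mod_cast Nat.succ_ne_zero n) e

/-- truncated exponential series -/
noncomputable def ex (B : K⟦X⟧) (N : ℕ) : K⟦X⟧ :=
  ∑ m ∈ range (N + 1), C ((m.factorial : K)⁻¹) * B ^ m

lemma ex_der [CharZero K] (B : K⟦X⟧) (N : ℕ) :
    d⁄dX K (ex B N) = (ex B N - C ((N.factorial : K)⁻¹) * B ^ N) * d⁄dX K B := by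
  induction N with
  | zero => simp [ex]
  | succ N ih =>
    have e : ex B (N + 1) = ex B N + C (((N + 1).factorial : K)⁻¹) * B ^ (N + 1) := by
      rw [ex, Finset.sum_range_succ, ex]
    have hc : (C (((N + 1).factorial : K)⁻¹) : K⟦X⟧) * ((N + 1 : ℕ) : K⟦X⟧)
        = C ((N.factorial : K)⁻¹) := by
      rw [← map_natCast (C : K →+* K⟦X⟧), ← map_mul]
      congr 1
      have h1 : ((N + 1 : ℕ) : K) ≠ 0 := by exact_mod_cast Nat.succ_ne_zero N
      have h2 : (N.factorial : K) ≠ 0 := by exact_mod_cast N.factorial_ne_zero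
      rw [Nat.factorial_succ, Nat.cast_mul]
      field_simp
    rw [e, map_add, ih, Derivation.leibniz, derivative_C, Derivation.leibniz_pow]
    simp only [smul_eq_mul, mul_zero, add_zero, Nat.add_sub_cancel, nsmul_eq_mul]
    linear_combination (B ^ N * d⁄dX K B) * hc

lemma eq_ex [CharZero K] {U B : K⟦X⟧} (h0 : coeff 0 U = 1) (hB : coeff 0 B = 0)
    (hU : X * d⁄dX K U = U * (X * d⁄dX K B)) (n : ℕ) : coeff n U = coeff n (ex B n) := by
  have hX : (X : K⟦X⟧) ∣ B := X_dvd_iff.2 (by simpa using hB)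
  refine ode_unique (N := n) (S := X * d⁄dX K B) ?_ (by simp) hU ?_ n le_rfl
  · rw [h0, ex, Finset.sum_range_succ', map_add, map_sum]
    simp only [coeff_zero_eq_constantCoeff] at hB
    simp [hB]
  · intro k hk
    rw [ex_der]
    have : (X : K⟦X⟧) ^ (n + 1) ∣ X * (C ((n.factorial : K)⁻¹) * B ^ n * d⁄dX K B) := by
      rw [pow_succ']
      exact mul_dvd_mul_left _ (((pow_dvd_pow_of_dvd hX n).mul_left _).mul_right _)
    have h2 := X_pow_dvd_iff.1 this k (by omega)
    rw [show X * ((ex B n - C ((n.factorial : K)⁻¹) * B ^ n) * d⁄dX K B)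
      = ex B n * (X * d⁄dX K B) - X * (C ((n.factorial : K)⁻¹) * B ^ n * d⁄dX K B) by ring,
      map_sub, h2, sub_zero]

variable {Γ₀ : Type} [LinearOrderedCommGroupWithZero Γ₀] (v : Valuation K Γ₀)

lemma pow_le {B : K⟦X⟧} {g : Γ₀} (h : ∀ k, v (coeff k B) ≤ g) (m : ℕ) :
    ∀ n, v (coeff n (B ^ m)) ≤ g ^ m := by
  induction m with
  | zero =>
    intro n
    rcases n with _ | n <;> simp [coeff_one]
  | succ m ih =>
    intro n
    rw [pow_succ, coeff_mul, pow_succ]
    refine v.map_sum_le fun p _ => ?_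
    rw [map_mul]
    exact mul_le_mul' (ih _) (h _)

lemma exists_eps {N : Multiset K} (h : ∀ z ∈ N, v z < 1) : ∃ ε < 1, ∀ z ∈ N, v z ≤ ε := by
  induction N using Multiset.induction_on with
  | empty => exact ⟨0, zero_lt_one, by simp⟩
  | cons z N ih =>
    obtain ⟨ε, h1, h2⟩ := ih fun y hy => h y (Multiset.mem_cons_of_mem hy)
    refine ⟨max (v z) ε, max_lt (h z (Multiset.mem_cons_self _ _)) h1, fun y hy => ?_⟩
    rcases Multiset.mem_cons.1 hy with rfl | hy
    · exact le_max_left _ _
    · exact (h2 y hy).trans (le_max_right _ _)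

lemma core [CharZero K] {l : ℕ} (hp : l.Prime) (h5 : 5 ≤ l) (hl : v (l : K) < 1)
    {M N : Multiset K} (hN : ∀ z ∈ N, v z < 1) (hg : v (M.sum - N.sum) ≤ v (l : K))
    (hk : ∀ k : ℕ, 2 ≤ k → v ((M.map (· ^ k)).sum - (N.map (· ^ k)).sum)
      < v (k : K) * v (M.sum - N.sum)) :
    (M.map fun z => 1 - z).prod ≠ (N.map fun z => 1 - z).prod := by
  intro he
  have hl0 : (l : K) ≠ 0 := by exact_mod_cast hp.ne_zero
  set g := v (M.sum - N.sum) with hgdef
  have hpos : 0 < g := by
    refine zero_lt_iff.2 fun h => ?_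
    have := hk 2 le_rfl
    rw [h, mul_zero] at this
    exact absurd this (not_lt.2 zero_le)
  have hg1 : g < 1 := hg.trans_lt hl
  have hg2 : g ^ 2 < g := by
    rw [pow_two]
    exact mul_lt_of_lt_one_left hpos hg1
  obtain ⟨U, h0, h1, hU⟩ := exists_U M N
  set S := (M.map fun z => 1 - gs z).sum - (N.map fun z => 1 - gs z).sum with hSdef
  have hS' : ∀ (P : Multiset K) (j : ℕ),
      coeff (j + 1) (P.map fun z => 1 - gs z).sum = -(P.map (· ^ (j + 1))).sum := by
    intro P j
    rw [map_multiset_sum, Multiset.map_map, ← Multiset.sum_map_neg]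
    congr 1
    refine Multiset.map_congr rfl fun z _ => ?_
    simp [gs, coeff_one]
  have hS0' : ∀ P : Multiset K, coeff 0 (P.map fun z => 1 - gs z).sum = 0 := by
    intro P
    rw [map_multiset_sum, Multiset.map_map]
    refine Multiset.sum_eq_zero fun x hx => ?_
    obtain ⟨z, -, rfl⟩ := Multiset.mem_map.1 hx
    simp [gs]
  have hS : ∀ j, coeff (j + 1) S = -((M.map (· ^ (j + 1))).sum - (N.map (· ^ (j + 1))).sum) := by
    intro j
    rw [hSdef, map_sub, hS', hS']
    ring
  have hS0 : coeff 0 S = 0 := by rw [hSdef, map_sub, hS0', hS0', sub_zero]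
  set B : K⟦X⟧ := mk fun n => coeff n S / n with hBdef
  have hB0 : coeff 0 B = 0 := by simp [hBdef]
  have hXB : X * d⁄dX K B = S := by
    ext n
    rcases n with _ | n
    · rw [hS0]; simp
    · rw [coeff_succ_X_mul, coeff_derivative, hBdef, coeff_mk]
      have : ((n : K) + 1) ≠ 0 := by exact_mod_cast Nat.succ_ne_zero n
      push_cast
      field_simp
  have hB1 : v (coeff 1 B) = g := by
    rw [hBdef, coeff_mk, Nat.cast_one, div_one, show (1 : ℕ) = 0 + 1 from rfl, hS, v.map_neg]
    simp [hgdef]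
  have hB2 : ∀ n, v (coeff (n + 2) B) < g := by
    intro n
    have hn : ((n + 2 : ℕ) : K) ≠ 0 := by exact_mod_cast Nat.succ_ne_zero (n + 1)
    rw [hBdef, coeff_mk, map_div₀, show n + 2 = (n + 1) + 1 from rfl, hS, v.map_neg,
      div_lt_iff₀ (zero_lt_iff.2 ((map_ne_zero v).2 hn)), mul_comm]
    exact hk (n + 2) (by omega)
  have hB : ∀ n, v (coeff n B) ≤ g := by
    intro n
    rcases n with _ | _ | n
    · simp [hB0]
    · exact hB1.le
    · exact (hB2 n).le
  have hex : ∀ n, ∃ r : K, v r < g ∧ coeff (n + 1) U = coeff (n + 1) B + r := by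
    intro n
    refine ⟨∑ m ∈ range n, coeff (n + 1) (C (((m + 2).factorial : K)⁻¹) * B ^ (m + 2)), ?_, ?_⟩
    · refine v.map_sum_lt hpos.ne' fun m _ => ?_
      have hf : ((m + 2).factorial : K) ≠ 0 := by exact_mod_cast (m + 2).factorial_ne_zero
      have := fact_le v hp h5 hl hl0 (ε := g) (γ := 1) hg1.le (hg2.le.trans hg) (n := m + 2)
        (by omega) (u := coeff (n + 1) (C (((m + 2).factorial : K)⁻¹) * B ^ (m + 2))) (by
          rw [coeff_C_mul, mul_inv_cancel_left₀ hf, one_mul]
          exact pow_le v hB _ _)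
      rw [one_mul] at this
      exact this.trans_lt hg2
    · rw [eq_ex h0 hB0 (hXB ▸ hU), ex, Finset.sum_range_succ', Finset.sum_range_succ', map_add,
        map_add, map_sum]
      rw [add_comm (coeff (n + 1) B)]
      simp [coeff_one, add_assoc]
  have hu1 : v (coeff 1 U) = g := by
    obtain ⟨r, hr, e⟩ := hex 0
    rw [zero_add] at e
    rw [e, v.map_add_eq_of_lt_left (hB1 ▸ hr), hB1]
  have hu : ∀ n, v (coeff (n + 2) U) < g := by
    intro n
    obtain ⟨r, hr, e⟩ := hex (n + 1)
    rw [show n + 2 = n + 1 + 1 from rfl, e]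
    exact v.map_add_lt (hB2 n) hr
  obtain ⟨ε, hε1, hε⟩ := exists_eps v hN
  have hε' : ∀ z ∈ N.map fun z => -z, v z ≤ ε := by
    intro z hz
    obtain ⟨y, hy, rfl⟩ := Multiset.mem_map.1 hz
    rw [v.map_neg]
    exact hε y hy
  set W : K[X] := pr (M.map fun z => -z) - pr (N.map fun z => -z) with hW
  have hW1 : W.eval 1 = 0 := by
    rw [hW, Polynomial.eval_sub, eval_pr, eval_pr, Multiset.map_map, Multiset.map_map, sub_eq_zero]
    simpa [sub_eq_add_neg] using he
  have hWc : ∀ n, W.coeff n = ∑ p ∈ antidiagonal n, coeff p.1 (pn N) * coeff p.2 (U - 1) := by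
    intro n
    rw [← coeff_mul, mul_sub, h1, mul_one, pn, pn, ← Polynomial.coe_sub, Polynomial.coeff_coe]
  have hz : coeff 0 (U - 1) = 0 := by rw [map_sub, h0]; simp
  have hs : ∀ n, coeff (n + 1) (U - 1) = coeff (n + 1) U := by
    intro n
    simp [coeff_one]
  have hlt : ∀ n, v (W.coeff (n + 2)) < g := by
    intro n
    rw [hWc]
    refine v.map_sum_lt hpos.ne' fun p hp => ?_
    rw [HasAntidiagonal.mem_antidiagonal] at hp
    obtain ⟨i, j⟩ := p
    simp only at hp ⊢
    rcases j with _ | _ | j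
    · simpa [hz] using hpos
    · rw [hs, map_mul, zero_add, hu1]
      have : v (coeff i (pn N)) < 1 :=
        (pr_le v hε' i).trans_lt (pow_lt_one' hε1 (by omega))
      exact mul_lt_of_lt_one_left hpos this
    · rw [hs, map_mul]
      have : v (coeff i (pn N)) ≤ 1 := (pr_le v hε' i).trans (pow_le_one' hε1.le _)
      exact (mul_le_of_le_one_left' this).trans_lt (hu _)
  have hW0 : W.coeff 0 = 0 := by
    rw [hWc, Finset.Nat.antidiagonal_zero, sum_singleton, hz, mul_zero]
  have hWo : W.coeff 1 = coeff 1 U := by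
    have hc : coeff 0 (pn N) = 1 := coeff_zero_pr _
    rw [hWc, Finset.Nat.antidiagonal_succ]
    simp only [sum_cons, Finset.Nat.antidiagonal_zero, map_singleton, sum_singleton, hc, hs,
      Function.Embedding.prodMap, Function.Embedding.coeFn_mk, Prod.map_fst, Prod.map_snd,
      Function.Embedding.refl_apply, hz, mul_zero, add_zero, one_mul, zero_add]
  rw [Polynomial.eval_eq_sum_range' (n := W.natDegree + 1 + 1) (by omega), Finset.sum_range_succ',
    Finset.sum_range_succ'] at hW1
  simp only [one_pow, mul_one, hW0, add_zero, zero_add, hWo] at hW1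
  have := v.map_sum_lt (s := range W.natDegree) hpos.ne' fun n _ => hlt n
  rw [eq_neg_of_add_eq_zero_left hW1, v.map_neg, hu1] at this
  exact lt_irrefl _ this

end Val2Aux

open ValAux in
theorem val2 : VAL2 := by
  intro O l M N hp h5 hl hMN hk hprod
  set v := O.valuation with hv
  have hl0 : (l : ℂ) ≠ 0 := by exact_mod_cast hp.ne_zero
  have hM : ∀ z ∈ M, v z < 1 := fun z hz => hMN z (Multiset.mem_add.2 (Or.inl hz))
  have hN : ∀ z ∈ N, v z < 1 := fun z hz => hMN z (Multiset.mem_add.2 (Or.inr hz))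
  have hne : (N.map fun z => 1 - z).prod ≠ 0 := by
    refine Multiset.prod_ne_zero fun h => ?_
    obtain ⟨z, hz, e⟩ := Multiset.mem_map.1 h
    have := v.map_one_sub_of_lt (hN z hz)
    rw [e, map_zero] at this
    exact zero_ne_one this
  have hc : (0 : _) < v ((12 * l : ℕ) : ℂ) :=
    zero_lt_iff.2 ((map_ne_zero v).2 (by exact_mod_cast mul_ne_zero (by norm_num) hp.ne_zero))
  have hs : ∀ k : ℕ, (((12 * l) • M).map (· ^ k)).sum - (((12 * l) • N).map (· ^ k)).sum
      = ((12 * l : ℕ) : ℂ) * ((M.map (· ^ k)).sum - (N.map (· ^ k)).sum) := by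
    intro k
    rw [Multiset.map_nsmul, Multiset.map_nsmul, Multiset.sum_nsmul, Multiset.sum_nsmul,
      nsmul_eq_mul, nsmul_eq_mul, mul_sub]
  have hs1 : ((12 * l) • M).sum - ((12 * l) • N).sum = ((12 * l : ℕ) : ℂ) * (M.sum - N.sum) := by
    rw [Multiset.sum_nsmul, Multiset.sum_nsmul, nsmul_eq_mul, nsmul_eq_mul, mul_sub]
  refine Val2Aux.core v hp h5 hl (M := (12 * l) • M) (N := (12 * l) • N)
    (fun z hz => hN z (Multiset.mem_of_mem_nsmul hz)) ?_ ?_ ?_
  · rw [hs1, map_mul, Nat.cast_mul, map_mul]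
    have h1 : v (M.sum - N.sum) ≤ 1 :=
      v.map_sub_le (msum_le v fun z hz => (hM z hz).le) (msum_le v fun z hz => (hN z hz).le)
    exact (mul_le_of_le_one_right' h1).trans (mul_le_of_le_one_left' (nat_le v 12))
  · intro k hk'
    rw [hs, hs1, map_mul, map_mul, mul_left_comm]
    exact mul_lt_mul_of_pos_left (hk k hk') hc
  · rw [div_pow, div_eq_one_iff_eq (pow_ne_zero _ hne)] at hprod
    rw [Multiset.map_nsmul, Multiset.map_nsmul, Multiset.prod_nsmul, Multiset.prod_nsmul, pow_mul,
      pow_mul, hprod]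

end Pool.Agent.MP_c481b3_nt.H31F
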