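import Pool.Agent.MP_c481b3_nt.H31F.Spec

set_option autoImplicit false

namespace Pool.Agent.MP_c481b3_nt.H31F

open Polynomial IsLocalRing

namespace VlsAux

theorem int (x : ℂ) : IsIntegral ℤ x ↔ ∀ O : ValuationSubring ℂ, x ∈ O := by
  refine ⟨fun h O => ?_, fun h => by_contra fun hx => ?_⟩
  · obtain ⟨y, rfl⟩ := IsIntegrallyClosed.algebraMap_eq_of_integral (R := O) (K := ℂ) h.tower_top
    exact y.2
  · obtain ⟨V, -, hV⟩ := Subring.exists_le_valuationSubring_of_isIntegrallyClosedIn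
      (R := (integralClosure ℤ ℂ).toSubring) (x := x) hx
    exact hV (h V)

theorem val (p : ℕ) (hp : p.Prime) : ∃ O : ValuationSubring ℂ, O.valuation (p : ℂ) < 1 := by
  obtain ⟨O, -, h⟩ := Ideal.image_subset_nonunits_valuationSubring (A := (⊥ : Subring ℂ))
    (Ideal.span {(p : (⊥ : Subring ℂ))}) (by
      rw [Ne, Ideal.span_singleton_eq_top, isUnit_iff_exists_inv]
      rintro ⟨⟨y, hy⟩, e⟩
      obtain ⟨n, rfl⟩ := Subring.mem_bot.1 hy
      have e1 : (p : ℂ) * n = 1 := by simpa using congrArg Subtype.val e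
      have e2 : (p : ℤ) * n = 1 := by exact_mod_cast e1
      exact hp.one_lt.ne' (by exact_mod_cast Int.eq_one_of_mul_eq_one_right (by positivity) e2))
  exact ⟨O, h ⟨p, Ideal.mem_span_singleton_self _, by simp⟩⟩

theorem res (O : ValuationSubring ℂ) (p n : ℕ) (g : ℚ[X]) (x : ℂ) (hp : p.Prime)
    (hv : O.valuation (p : ℂ) < 1) (g0 : g ≠ 0) (gn : g.natDegree ≤ n) (gx : aeval x g = 0)
    (hx : x ∈ O) : O.valuation (x ^ p ^ n.factorial - x) < 1 := by
  have : Fact p.Prime := ⟨hp⟩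
  have : CharP (ResidueField O) p := (CharP.charP_iff_prime_eq_zero hp).2 (by
    rw [← map_natCast (residue O), residue_eq_zero_iff, O.valuation_lt_one_iff]
    simpa using hv)
  let : Algebra (ZMod p) (ResidueField O) := ZMod.algebra _ p
  obtain ⟨G, G1, Gn, Gx⟩ : ∃ G : ℤ[X], G.IsPrimitive ∧ G.natDegree ≤ n ∧ aeval x G = 0 := by
    refine ⟨(IsLocalization.integerNormalization (nonZeroDivisors ℤ) g).primPart,
      isPrimitive_primPart _, ?_, aeval_primPart_eq_zero
        (mt IsFractionRing.integerNormalization_eq_zero_iff.1 g0)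
        (IsLocalization.integerNormalization_aeval_eq_zero _ g gx)⟩
    rw [natDegree_primPart]
    exact (natDegree_le_natDegree
      (degree_mono (IsLocalization.integerNormalization_support _ g))).trans gn
  have G0 : G.map (algebraMap ℤ (ZMod p)) ≠ 0 := fun e => by
    have := G1 p ((C_dvd_iff_dvd_coeff _ _).2 fun i => by
      have := congrArg (fun q => q.coeff i) e
      simpa [ZMod.intCast_zmod_eq_zero_iff_dvd] using this)
    exact hp.one_lt.ne' (by simpa [Int.isUnit_iff_natAbs_eq] using this)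
  have Gy : aeval (⟨x, hx⟩ : O) G = 0 := Subtype.ext
    ((aeval_algHom_apply O.subtype.toIntAlgHom (⟨x, hx⟩ : O) G).symm.trans Gx)
  have Gz : aeval (residue O ⟨x, hx⟩) (G.map (algebraMap ℤ (ZMod p))) = 0 := by
    rw [aeval_def, eval₂_map, Subsingleton.elim (RingHom.comp _ _) (algebraMap ℤ _), ← aeval_def]
    exact (aeval_algHom_apply (residue O).toIntAlgHom (⟨x, hx⟩ : O) G).trans (by rw [Gy, map_zero])
  have hi : IsIntegral (ZMod p) (residue O ⟨x, hx⟩) := IsAlgebraic.isIntegral ⟨_, G0, Gz⟩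
  have hd := (minpoly.irreducible hi).natDegree_dvd_iff_dvd_X_pow_card_pow_sub_X.1
    (Nat.dvd_factorial (minpoly.natDegree_pos hi) ((natDegree_le_natDegree
      (minpoly.degree_le_of_ne_zero _ _ G0 Gz)).trans (natDegree_map_le.trans Gn)))
  have h1 := aeval_eq_zero_of_dvd_aeval_eq_zero hd (minpoly.aeval _ _)
  rw [Nat.card_zmod, map_sub, map_pow, aeval_X, ← map_pow, ← map_sub, residue_eq_zero_iff,
    O.valuation_lt_one_iff] at h1
  simpa using h1

theorem unit (d : ℕ) (a b : ℚ) (h : a ^ 2 + d * b ^ 2 = 1)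
    (hv : ∀ O : ValuationSubring ℂ, O.valuation ((a : ℂ) + b * sq d) = 1) :
    ((a : ℂ) + b * sq d) ^ 12 = 1 := by
  have hc : (a : ℂ) ^ 2 + d * (b : ℂ) ^ 2 = 1 := by exact_mod_cast h
  have hs := sq_sq d
  have h1 : ((a : ℂ) + b * sq d)⁻¹ = a - b * sq d :=
    inv_eq_of_mul_eq_one_right (by linear_combination hc - (b : ℂ) ^ 2 * hs)
  have h2 : IsIntegral ℤ (algebraMap ℚ ℂ (2 * a)) := (int _).2 fun O => by
    have : algebraMap ℚ ℂ (2 * a) = ((a : ℂ) + b * sq d) + ((a : ℂ) + b * sq d)⁻¹ := by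
      rw [h1]
      simp
      ring
    rw [this]
    exact add_mem ((O.valuation_le_one_iff _).1 (hv O).le)
      ((O.valuation_le_one_iff _).1 (by rw [map_inv₀, hv O, inv_one]))
  obtain ⟨m, hm⟩ := IsIntegrallyClosed.algebraMap_eq_of_integral (R := ℤ) (K := ℚ)
    ((isIntegral_algebraMap_iff (algebraMap ℚ ℂ).injective).1 h2)
  have hm' : (m : ℚ) = 2 * a := hm
  have h3 : (m : ℚ) ^ 2 ≤ 4 := by
    have : 0 ≤ (d : ℚ) * b ^ 2 := by positivity
    rw [hm']
    nlinarith
  have h4 : m ^ 2 ≤ 4 := by exact_mod_cast h3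
  have h5 : (m : ℂ) = 2 * a := by exact_mod_cast hm'
  have h6 : ((a : ℂ) + b * sq d) ^ 2 - m * ((a : ℂ) + b * sq d) + 1 = 0 := by
    rw [h5]
    linear_combination (b : ℂ) ^ 2 * hs - hc
  generalize (a : ℂ) + b * sq d = z at h6
  have h7 : -2 ≤ m := by nlinarith
  have h8 : m ≤ 2 := by nlinarith
  interval_cases m <;> push_cast at h6
  · have : z = -1 := eq_neg_of_add_eq_zero_left (pow_eq_zero_iff two_ne_zero |>.1 (by
      linear_combination h6))
    rw [this]
    norm_num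
  · linear_combination (z - 1) * (z ^ 9 + z ^ 6 + z ^ 3 + 1) * h6
  · linear_combination (z ^ 10 - z ^ 8 + z ^ 6 - z ^ 4 + z ^ 2 - 1) * h6
  · linear_combination (z + 1) * (z ^ 9 - z ^ 6 + z ^ 3 - 1) * h6
  · have : z = 1 := sub_eq_zero.1 (pow_eq_zero_iff two_ne_zero |>.1 (by linear_combination h6))
    rw [this, one_pow]

end VlsAux

theorem vls : VLS := ⟨VlsAux.int, VlsAux.val, VlsAux.res, VlsAux.unit⟩

end Pool.Agent.MP_c481b3_nt.H31F
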